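import Pool.Agent.GLB.Core

/-!
# GNS: globalization of area measures is not surjective in degree 2. Definitions.

Part 1: calculus on `V = ℝ² × ℝ²`, points `((x₁, x₂), (y₁, y₂))`, directions `0, 1` (the `x`
variables) and `2, 3` (the `y` variables).
Part 2: the chart `x ↦ (x, 1)` of `ℝ^(m+1)` and area measures.
-/

set_option autoImplicit false

open Metric Set Filter Topology MeasureTheory

noncomputable section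

namespace Pool.Agent.GNS

/-! ## Part 1: the space `V` -/

/-- the plane -/
abbrev X2 : Type := ℝ × ℝ

/-- `ℝ² × ℝ²` -/
abbrev V : Type := X2 × X2

/-- the basis of `V` -/
def e (i : Fin 4) : V :=
  (![((1, 0), (0, 0)), ((0, 1), (0, 0)), ((0, 0), (1, 0)), ((0, 0), (0, 1))] : Fin 4 → V) i

/-- the coordinate derivative in the direction `e i` -/
def d (i : Fin 4) (f : V → ℝ) (z : V) : ℝ := fderiv ℝ f z (e i)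

/-- smooth functions on `V` -/
def Sm (f : V → ℝ) : Prop := ContDiff ℝ ((⊤ : ℕ∞) : WithTop ℕ∞) f

/-- the class of functions for which the main estimate is proved -/
structure Wc (w : V → ℝ) : Prop where
  sm : Sm w
  cvx : ConvexOn ℝ univ w
  bd : ∀ i z, |d i w z| ≤ 1

/-- the minor `w_{13} w_{24} - w_{14} w_{23}` of the second derivative -/
def T12 (w : V → ℝ) (z : V) : ℝ :=
  d 0 (d 2 w) z * d 1 (d 3 w) z - d 0 (d 3 w) z * d 1 (d 2 w) z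

/-- the sum of the minors `w_{ii} w_{kk} - w_{ik}^2`, `k = 2, 3` -/
def SS (i : Fin 4) (w : V → ℝ) (z : V) : ℝ :=
  d i (d i w) z * (d 2 (d 2 w) z + d 3 (d 3 w) z) - d i (d 2 w) z ^ 2 - d i (d 3 w) z ^ 2

/-- the mixed minor -/
def S01 (w : V → ℝ) (z : V) : ℝ :=
  d 0 (d 1 w) z * (d 2 (d 2 w) z + d 3 (d 3 w) z) - d 0 (d 2 w) z * d 1 (d 2 w) z -
    d 0 (d 3 w) z * d 1 (d 3 w) z

/-- the function depends only on the first variable `x` -/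
def Xo (f : V → ℝ) : Prop := ∀ z z' : V, z.1 = z'.1 → f z = f z'

/-- the two cut-off functions on `V` -/
structure Cuts (ζ0 ζ1 : V → ℝ) : Prop where
  sm0 : Sm ζ0
  sm1 : Sm ζ1
  nn0 : ∀ z, 0 ≤ ζ0 z
  le0 : ∀ z, ζ0 z ≤ 1
  nn1 : ∀ z, 0 ≤ ζ1 z
  le1 : ∀ z, ζ1 z ≤ 1
  one0 : ∀ z, ‖z‖ ≤ 1 / 2 → ζ0 z = 1
  out0 : ∀ z, 1 ≤ ‖z‖ → ζ0 z = 0
  one1 : ∀ z, ‖z‖ ≤ 2 → ζ1 z = 1
  out1 : ∀ z, 3 ≤ ‖z‖ → ζ1 z = 0

/-! ### The transform in the second variable -/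

/-- smooth and strongly convex in the second variable `y` -/
structure SC (η : ℝ) (F : V → ℝ) : Prop where
  sm : Sm F
  pos : ∀ (z : V) (a b : ℝ), η * (a ^ 2 + b ^ 2) ≤
    a ^ 2 * d 2 (d 2 F) z + 2 * a * b * d 2 (d 3 F) z + b ^ 2 * d 3 (d 3 F) z

/-- half the squared norm of `y` -/
def q2 (z : V) : ℝ := (z.2.1 ^ 2 + z.2.2 ^ 2) / 2

/-- half the squared norm of `x` -/
def q1 (z : V) : ℝ := (z.1.1 ^ 2 + z.1.2 ^ 2) / 2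

/-- the Legendre transform in the second variable -/
def Leg (F : V → ℝ) (q : V) : ℝ :=
  sSup (range fun y : X2 => q.2.1 * y.1 + q.2.2 * y.2 - F (q.1, y))

/-- the gradient map in the second variable -/
def gy (F : V → ℝ) (z : V) : V := (z.1, (d 2 F z, d 3 F z))

/-- its determinant -/
def jac (F : V → ℝ) (z : V) : ℝ := d 2 (d 2 F) z * d 3 (d 3 F) z - d 2 (d 3 F) z ^ 2

/-- the properties of the transforms of functions of the class `Wc` -/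
structure Uc (η : ℝ) (u : V → ℝ) : Prop where
  sm : Sm u
  bd0 : ∀ z, |d 0 u z| ≤ 1
  bd1 : ∀ z, |d 1 u z| ≤ 1
  cc : ∀ (z : V) (a b : ℝ),
    a ^ 2 * d 0 (d 0 u) z + 2 * a * b * d 0 (d 1 u) z + b ^ 2 * d 1 (d 1 u) z ≤ 0
  lo : ∀ (z : V) (a b : ℝ), 0 ≤
    a ^ 2 * d 2 (d 2 u) z + 2 * a * b * d 2 (d 3 u) z + b ^ 2 * d 3 (d 3 u) z
  hi : ∀ (z : V) (a b : ℝ),
    a ^ 2 * d 2 (d 2 u) z + 2 * a * b * d 2 (d 3 u) z + b ^ 2 * d 3 (d 3 u) z ≤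
      (a ^ 2 + b ^ 2) / η
  gr2 : ∀ z, |z.2.1 - η * d 2 u z| ≤ 1
  gr3 : ∀ z, |z.2.2 - η * d 3 u z| ≤ 1

/-- a mollifier with support in the ball of radius `r` -/
structure Ker (r : ℝ) (ρ : V → ℝ) : Prop where
  sm : Sm ρ
  nn : ∀ z, 0 ≤ ρ z
  even : ∀ z, ρ (-z) = ρ z
  out : ∀ z, r ≤ ‖z‖ → ρ z = 0
  int : ∫ z, ρ z = 1

/-- convolution -/
def cv (ρ f : V → ℝ) (z : V) : ℝ := ∫ ζ, ρ (z - ζ) * f ζ

/-- the regularised transform -/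
def ub (ρ : V → ℝ) (r : ℝ) (u : V → ℝ) (z : V) : ℝ := cv ρ u z + r * q2 z

/-! ### Profiles of the oscillation -/

/-- `θ` is almost the indicator function of a quarter of each period, `σ'' = 4 θ + ϵ - 1`,
`σ₂'' = θ² / m₂ - 1`, `q₃' = θ³ - c₃`. -/
structure Prof (N : ℕ) (θ σ σ2 q3 : ℝ → ℝ) (ϵ m2 c3 C : ℝ) : Prop where
  smθ : ContDiff ℝ ((⊤ : ℕ∞) : WithTop ℕ∞) θ
  smσ : ContDiff ℝ ((⊤ : ℕ∞) : WithTop ℕ∞) σ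
  smσ2 : ContDiff ℝ ((⊤ : ℕ∞) : WithTop ℕ∞) σ2
  smq : ContDiff ℝ ((⊤ : ℕ∞) : WithTop ℕ∞) q3
  nn : ∀ t, 0 ≤ θ t
  le : ∀ t, θ t ≤ 1
  hσ : ∀ t, deriv (deriv σ) t = 4 * θ t + ϵ - 1
  hσ2 : ∀ t, deriv (deriv σ2) t = θ t ^ 2 / m2 - 1
  hq : ∀ t, deriv q3 t = θ t ^ 3 - c3
  ϵnn : 0 ≤ ϵ
  ϵle : ϵ ≤ 1 / N
  m2lo : 1 - 1 / (N : ℝ) ≤ 4 * m2
  m2hi : 4 * m2 ≤ 1
  c3lo : 1 - 1 / (N : ℝ) ≤ 4 * c3
  bσ : ∀ t, |σ t| ≤ C ∧ |deriv σ t| ≤ C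
  bσ2 : ∀ t, |σ2 t| ≤ C ∧ |deriv σ2 t| ≤ C
  bq : ∀ t, |q3 t| ≤ C

/-- a function of `x₁ / h` -/
def c0 (f : ℝ → ℝ) (h : ℝ) (z : V) : ℝ := f (z.1.1 / h)

/-- a function of `x₂ / h` -/
def c1 (f : ℝ → ℝ) (h : ℝ) (z : V) : ℝ := f (z.1.2 / h)

/-- the weight of the first loss -/
def g0 (θ : ℝ → ℝ) (h : ℝ) (z : V) : ℝ := 1 - c0 θ h z

/-- the weight of the second loss -/
def g1 (θ : ℝ → ℝ) (h h' : ℝ) (z : V) : ℝ := 4 * c0 θ h z * (1 - c1 θ h' z)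

/-- the oscillating wave of level `j` -/
def wv (j : ℕ) (ν : ℝ) (z : V) : ℝ := Real.cos ((2 ^ j * z.1.1 + z.2.1) / ν)

/-! ### The state of the inductive construction -/

/-- the functions of one stage of the construction -/
structure Stt where
  /-- the soft indicator function of the active set -/
  β : V → ℝ
  /-- frozen part of `Φ_{11}` -/
  F1 : V → ℝ
  /-- frozen part of `Φ_{22}` -/
  F2 : V → ℝ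
  /-- the sum of `4^i β_i` -/
  U : V → ℝ
  /-- the main convex function -/
  Φ : V → ℝ
  /-- the sum of `(Φ_i - q1) / N` -/
  Ξ : V → ℝ
  /-- the potential of the closed field -/
  E : V → ℝ
  /-- active part of `E_{11}` -/
  A : V → ℝ
  /-- frozen part of `E_{11}` -/
  M1 : V → ℝ
  /-- `E_{13}` -/
  M2 : V → ℝ
  /-- `E_{33}` -/
  M3 : V → ℝ
  /-- the density of the valuation -/
  b : V → ℝ

/-- the initial stage -/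
def s0 : Stt where
  β := fun _ => 1
  F1 := fun _ => 0
  F2 := fun _ => 0
  U := fun _ => 0
  Φ := q1
  Ξ := fun _ => 0
  E := fun _ => 0
  A := fun _ => 0
  M1 := fun _ => 0
  M2 := fun _ => 0
  M3 := fun _ => 0
  b := fun _ => 0

/-- one step of the construction: a wave of frequency `1 / ν`, a zoom in `x₁` at scale `h` and a
zoom in `x₂` at scale `h'` -/
def stp (N : ℕ) (θ σ σ2 : ℝ → ℝ) (m2 : ℝ) (ζ0 : V → ℝ) (j : ℕ) (ν h h' : ℝ) (s : Stt) : Stt where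
  β := fun z => s.β z * c0 θ h z * c1 θ h' z
  F1 := fun z => s.F1 z + 4 ^ j * s.β z * g1 θ h h' z
  F2 := fun z => s.F2 z + 4 ^ j * s.β z * g0 θ h z
  U := fun z => s.U z + 4 ^ j * s.β z
  Φ := fun z => s.Φ z + 4 ^ j * s.β z * (h ^ 2 * c0 σ h z) +
    4 ^ j * (s.β z * c0 θ h z) * (h' ^ 2 * c1 σ h' z)
  Ξ := fun z => s.Ξ z + (s.Φ z - q1 z) / N
  E := fun z => s.E z - 2 ^ j / Real.sqrt N * s.β z ^ 2 * (ν ^ 2 * wv j ν z) +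
    (s.A z + 8 ^ j / Real.sqrt N * s.β z ^ 2 * wv j ν z) * (h ^ 2 * c0 σ2 h z)
  A := fun z => (s.A z + 8 ^ j / Real.sqrt N * s.β z ^ 2 * wv j ν z) *
    (c0 θ h z ^ 2 / m2) * c1 θ h' z ^ 2
  M1 := fun z => s.M1 z + (s.A z + 8 ^ j / Real.sqrt N * s.β z ^ 2 * wv j ν z) *
    (c0 θ h z ^ 2 / m2) * (1 - c1 θ h' z ^ 2)
  M2 := fun z => s.M2 z + 4 ^ j / Real.sqrt N * s.β z ^ 2 * wv j ν z
  M3 := fun z => s.M3 z + 2 ^ j / Real.sqrt N * s.β z ^ 2 * wv j ν z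
  b := fun z => s.b z + 4 ^ j * s.β z * ζ0 z * wv j ν z

/-- smoothness and ranges -/
structure InvA (j : ℕ) (s : Stt) : Prop where
  smβ : Sm s.β
  smF1 : Sm s.F1
  smF2 : Sm s.F2
  smU : Sm s.U
  smΦ : Sm s.Φ
  smΞ : Sm s.Ξ
  smE : Sm s.E
  smA : Sm s.A
  smM1 : Sm s.M1
  smM2 : Sm s.M2
  smM3 : Sm s.M3
  smb : Sm s.b
  xβ : Xo s.β
  xF1 : Xo s.F1
  xF2 : Xo s.F2
  xU : Xo s.U
  xΦ : Xo s.Φ
  xΞ : Xo s.Ξ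
  nβ : ∀ z, 0 ≤ s.β z
  lβ : ∀ z, s.β z ≤ 1
  nF1 : ∀ z, 0 ≤ s.F1 z
  nF2 : ∀ z, 0 ≤ s.F2 z
  nU : ∀ z, 0 ≤ s.U z
  bb : ∀ z, |s.b z| ≤ 4 ^ j
  ob : ∀ z, 1 ≤ ‖z‖ → s.b z = 0

/-- the algebraic inequalities; `D = 1 / √N` -/
structure InvB (N j : ℕ) (s : Stt) : Prop where
  bM2 : ∀ z, |s.M2 z| ≤ s.U z / Real.sqrt N
  bM3 : ∀ z, |s.M3 z| ≤ 2 ^ j / Real.sqrt N
  bM3' : ∀ z, s.M3 z ^ 2 ≤ 3 * s.U z / N
  bA : ∀ z, |s.A z| ≤ 3 * 8 ^ j * s.β z ^ 2 / Real.sqrt N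
  bM1 : ∀ z, |s.M1 z| ≤ 12 * s.F1 z * Real.sqrt (s.U z) / Real.sqrt N
  bU : ∀ z, s.U z ≤ 2 * (s.F1 z + s.F2 z) + 4 ^ j * s.β z / 2

/-- second derivatives of `Φ` and `Ξ` in the ball of radius `4` -/
structure InvC (N j : ℕ) (κ : ℝ) (s : Stt) : Prop where
  phi : ∀ z, ‖z‖ ≤ 4 → ∀ a b : ℝ,
    (s.F1 z + 4 ^ j * s.β z) * a ^ 2 + (s.F2 z + 4 ^ j * s.β z) * b ^ 2 -
      j * κ * (a ^ 2 + b ^ 2) ≤
    a ^ 2 * d 0 (d 0 s.Φ) z + 2 * a * b * d 0 (d 1 s.Φ) z + b ^ 2 * d 1 (d 1 s.Φ) z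
  phi0 : ∀ z, ‖z‖ ≤ 4 → |s.Φ z - q1 z| ≤ j * κ
  phi1 : ∀ z, ‖z‖ ≤ 4 → ∀ i, |d i s.Φ z - d i q1 z| ≤ j * κ
  xi : ∀ z, ‖z‖ ≤ 4 → ∀ a b : ℝ,
    (s.U z / N - j * (1 + j * κ) / N) * (a ^ 2 + b ^ 2) ≤
    a ^ 2 * d 0 (d 0 s.Ξ) z + 2 * a * b * d 0 (d 1 s.Ξ) z + b ^ 2 * d 1 (d 1 s.Ξ) z
  xi0 : ∀ z, ‖z‖ ≤ 4 → |s.Ξ z| ≤ j * (j * κ) / N
  xi1 : ∀ z, ‖z‖ ≤ 4 → ∀ i, |d i s.Ξ z| ≤ j * (j * κ) / N

/-- derivatives of the potential `E` in the ball of radius `4` -/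
structure InvE (j : ℕ) (κ : ℝ) (s : Stt) : Prop where
  e0 : ∀ z, ‖z‖ ≤ 4 → |s.E z| ≤ j * κ
  e1 : ∀ z, ‖z‖ ≤ 4 → ∀ i, |d i s.E z| ≤ j * κ
  e00 : ∀ z, ‖z‖ ≤ 4 → |d 0 (d 0 s.E) z - (s.M1 z + s.A z)| ≤ j * κ
  e02 : ∀ z, ‖z‖ ≤ 4 → |d 0 (d 2 s.E) z - s.M2 z| ≤ j * κ
  e22 : ∀ z, ‖z‖ ≤ 4 → |d 2 (d 2 s.E) z - s.M3 z| ≤ j * κ
  eo : ∀ z, ‖z‖ ≤ 4 → ∀ i k, (i = 1 ∨ i = 3) → |d i (d k s.E) z| ≤ j * κ

/-- the upper bound for the valuation -/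
def InvD (j : ℕ) (κ : ℝ) (ζ1 : V → ℝ) (s : Stt) : Prop :=
  ∀ w, Wc w → |∫ z, s.b z * T12 w z| ≤
    16 * (∫ z, ζ1 z * (s.F2 z * SS 0 w z + s.F1 z * SS 1 w z)) + j * κ

/-- the lower bound for the payoff -/
structure InvP (N j : ℕ) (κ : ℝ) (ζ0 : V → ℝ) (s : Stt) : Prop where
  mass : (1 - 1 / (N : ℝ)) ^ (2 * j) * (∫ z, ζ0 z) - j * κ ≤
    16 ^ j * ∫ z, s.β z ^ 3 * ζ0 z
  pay : j * ((1 - 1 / (N : ℝ)) ^ (2 * N) * (∫ z, ζ0 z) / 2 - N * κ) / Real.sqrt N - j * κ ≤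
    ∫ z, s.b z * s.M2 z

/-- eventually in the three parameters, in this order -/
def Ev3 (P : ℝ → ℝ → ℝ → Prop) : Prop :=
  ∀ᶠ ν in 𝓝[>] (0 : ℝ), ∀ᶠ h in 𝓝[>] (0 : ℝ), ∀ᶠ h' in 𝓝[>] (0 : ℝ), P ν h h'

end Pool.Agent.GNS
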