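import Pool.Agent.GNS.Defs

/-!
# GNS: definitions, part 2: the chart `x ↦ (x, 1)` and area measures of degree 2

`E m`, `S m`, `supp`, `pt`, `IsArea`, `IsVal`, `D2`, `eb` are those of the project GLB.
-/

set_option autoImplicit false

open Metric Set Filter Topology MeasureTheory

noncomputable section

namespace Pool.Agent.GNS

open Pool.Agent.GLB

variable {m : ℕ}

/-- the point `(x, 1)` -/
def up (x : E m) : E (m + 1) :=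
  WithLp.toLp 2 (Fin.snoc (α := fun _ => ℝ) (fun i => x i) 1)

/-- the vector `(κ, -c)` -/
def kv (κ : E m) (c : ℝ) : E (m + 1) :=
  WithLp.toLp 2 (Fin.snoc (α := fun _ => ℝ) (fun i => κ i) (-c))

/-- the last coordinate -/
def hgt (v : E (m + 1)) : ℝ := v (Fin.last m)

/-- the chart coordinate `v' / v_last` -/
def dn (v : E (m + 1)) : E m := WithLp.toLp 2 (fun i => v i.castSucc / v (Fin.last m))

/-- the function on the sphere belonging to a function in the chart -/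
def hatf (φ : E m → ℂ) (v : S (m + 1)) : ℂ :=
  if 0 < hgt (v : E (m + 1)) then φ (dn (v : E (m + 1))) else 0

open Classical in
/-- the same as a continuous function (`0` if it is not continuous) -/
def HC (φ : E m → ℂ) : C(S (m + 1), ℂ) :=
  if h : Continuous (hatf φ) then ⟨hatf φ, h⟩ else 0

/-- test functions -/
structure Tf (R : ℝ) (φ : E m → ℂ) : Prop where
  cont : Continuous φ
  out : ∀ x, R ≤ ‖x‖ → φ x = 0

/-- the support function in the chart -/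
def ch (K : ConvexBody (E (m + 1))) (x : E m) : ℝ := supp K (up x)

/-- the segment from `0` to `a` -/
def seg {n : ℕ} (a : E n) : ConvexBody (E n) :=
  ⟨segment ℝ 0 a, convex_segment 0 a, by
    rw [segment_eq_image]
    exact isCompact_Icc.image (by fun_prop), ⟨0, left_mem_segment ℝ 0 a⟩⟩

/-- finite sums of the segments `t [0, (κ, -c)]` -/
inductive Zt : ConvexBody (E (m + 1)) → Prop
  | zero : Zt 0
  | add (Z : ConvexBody (E (m + 1))) (κ : E m) (c t : ℝ) (ht : 0 ≤ t) (hZ : Zt Z) :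
      Zt (Z + t • seg (kv κ c))

/-- limits of such bodies -/
def Zn (Z : ConvexBody (E (m + 1))) : Prop := Z ∈ closure {Z : ConvexBody (E (m + 1)) | Zt Z}

/-- the difference form -/
def FF (Ψ : ConvexBody (E (m + 1)) → (C(S (m + 1), ℂ) →L[ℂ] ℂ)) (φ : C(S (m + 1), ℂ))
    (K L : ConvexBody (E (m + 1))) : ℂ := Ψ (K + L) φ - Ψ K φ - Ψ L φ

/-- `Z` has the support function `∫_{-ρ}^{ρ} f(c) ⟨(κ, -c), v⟩_+ dc` -/
def IsZr (κ : E m) (ρ : ℝ) (f : ℝ → ℝ) (Z : ConvexBody (E (m + 1))) : Prop :=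
  ∀ v, supp Z v = ∫ c in (-ρ)..ρ, f c * max 0 (inner ℝ (kv κ c) v)

open Classical in
/-- this body -/
def Zr (κ : E m) (ρ : ℝ) (f : ℝ → ℝ) : ConvexBody (E (m + 1)) :=
  if h : ∃ Z, IsZr κ ρ f Z then h.choose else 0

/-- the body with chart function `⟨ν, x⟩^2 / 2` plus an affine function, for `|⟨ν, x⟩| ≤ 10` -/
def Zq (ν : E m) : ConvexBody (E (m + 1)) := Zr ν 10 (fun _ => 1)

/-- the coefficient functionals -/
def B4 (Ψ : ConvexBody (E (m + 1)) → (C(S (m + 1), ℂ) →L[ℂ] ℂ)) (i j k l : Fin m)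
    (ψ : E m → ℂ) : ℂ :=
  (1 / 32 : ℂ) * (FF Ψ (HC ψ) (Zq (eb i + eb j)) (Zq (eb k + eb l)) -
    FF Ψ (HC ψ) (Zq (eb i + eb j)) (Zq (eb k - eb l)) -
    FF Ψ (HC ψ) (Zq (eb i - eb j)) (Zq (eb k + eb l)) +
    FF Ψ (HC ψ) (Zq (eb i - eb j)) (Zq (eb k - eb l)))

/-- the form `β(A, A'; ψ) = ∑ B4 i j k l (ψ A_ij A'_kl)`, for matrix valued functions -/
def BB (Ψ : ConvexBody (E (m + 1)) → (C(S (m + 1), ℂ) →L[ℂ] ℂ)) (A A' : E m → Fin m → Fin m → ℝ)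
    (ψ : E m → ℂ) : ℂ :=
  ∑ i, ∑ j, ∑ k, ∑ l, B4 Ψ i j k l (fun x => ψ x * (A x i j : ℂ) * (A' x k l : ℂ))

/-- the matrix of second derivatives -/
def Hs (f : E m → ℝ) (x : E m) (i j : Fin m) : ℝ := D2 f x (eb i) (eb j)

/-- the support function of the unit ball in the chart -/
def rt (x : E m) : ℝ := Real.sqrt (1 + ‖x‖ ^ 2)

/-- the homogeneous extension of a function in the chart -/
def hx (f : E m → ℝ) (v : E (m + 1)) : ℝ := if 0 < hgt v then hgt v * f (dn v) else 0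

/-- the body with support function `R |v| + f̃(v)` -/
def IsLf (R : ℝ) (f : E m → ℝ) (L : ConvexBody (E (m + 1))) : Prop :=
  ∀ v, supp L v = R * ‖v‖ + hx f v

/-- smooth functions on `E m` -/
def SmE (f : E m → ℝ) : Prop := ContDiff ℝ ((⊤ : ℕ∞) : WithTop ℕ∞) f

/-- smooth, zero outside the ball of radius `4`, and `R rt + f` is strongly convex there -/
structure Lc (R c : ℝ) (f : E m → ℝ) : Prop where
  sm : SmE f
  out : ∀ x, 4 ≤ ‖x‖ → f x = 0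
  cpos : 0 < c
  cvx : ∀ x, ‖x‖ ≤ 4 → ∀ v, c * ‖v‖ ^ 2 ≤ D2 (fun y => R * rt y + f y) x v v

/-- uniform bound for `Ψ` on bodies in the unit ball -/
def PB (Ψ : ConvexBody (E (m + 1)) → (C(S (m + 1), ℂ) →L[ℂ] ℂ)) (C : ℝ) : Prop :=
  ∀ K : ConvexBody (E (m + 1)), (K : Set (E (m + 1))) ⊆ closedBall 0 1 →
    ∀ φ : C(S (m + 1), ℂ), ‖Ψ K φ‖ ≤ C * ‖φ‖

/-! ### Four dimensions inside `E (k + 4)` -/

/-- the inclusion `V → ℝ^(k+4)` -/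
def inj {k : ℕ} (z : V) : E (k + 4) :=
  z.1.1 • eb 0 + z.1.2 • eb 1 + z.2.1 • eb 2 + z.2.2 • eb 3

/-- the first four coordinates -/
def pr {k : ℕ} (x : E (k + 4)) : V := ((x 0, x 1), (x 2, x 3))

/-- the chart function of a body on `V` -/
def wK {k : ℕ} (K : ConvexBody (E (k + 4 + 1))) (z : V) : ℝ := ch K (inj z)

/-- the quadratic functional with density `b`, in weak form -/
def Qb (b w : V → ℝ) : ℝ :=
  -(1 / 2) * ∫ z, (d 0 (d 2 b) z * (d 1 w z * d 3 w z) - d 1 (d 2 b) z * (d 0 w z * d 3 w z) -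
    d 0 (d 3 b) z * (d 1 w z * d 2 w z) + d 1 (d 3 b) z * (d 0 w z * d 2 w z))

/-- the valuation with density `b` -/
def mu {k : ℕ} (b : V → ℝ) (K : ConvexBody (E (k + 4 + 1))) : ℂ := (Qb b (wK K) : ℂ)

/-- the data for the domination theorem (final stage of the construction) -/
structure Dom (C : ℝ) (G d1 d2 Eo M1 M2 M3 : V → ℝ) : Prop where
  smG : Sm G
  smd1 : Sm d1
  smd2 : Sm d2
  smE : Sm Eo
  smM1 : Sm M1
  smM2 : Sm M2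
  smM3 : Sm M3
  xG : Xo G
  one1 : ∀ z, 1 ≤ d1 z
  one2 : ∀ z, 1 ≤ d2 z
  bG : ∀ z, ‖z‖ ≤ 4 → |G z| ≤ 1
  bG1 : ∀ z, ‖z‖ ≤ 4 → ∀ i, |d i G z| ≤ 1
  hG : ∀ z, ‖z‖ ≤ 4 → ∀ a b : ℝ, (d1 z - C) * a ^ 2 + (d2 z - C) * b ^ 2 ≤
    a ^ 2 * d 0 (d 0 G) z + 2 * a * b * d 0 (d 1 G) z + b ^ 2 * d 1 (d 1 G) z
  bE : ∀ z, ‖z‖ ≤ 4 → |Eo z| ≤ 1
  bE1 : ∀ z, ‖z‖ ≤ 4 → ∀ i, |d i Eo z| ≤ 1
  e00 : ∀ z, ‖z‖ ≤ 4 → |d 0 (d 0 Eo) z - M1 z| ≤ 1
  e02 : ∀ z, ‖z‖ ≤ 4 → |d 0 (d 2 Eo) z - M2 z| ≤ 1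
  e22 : ∀ z, ‖z‖ ≤ 4 → |d 2 (d 2 Eo) z - M3 z| ≤ 1
  eo : ∀ z, ‖z‖ ≤ 4 → ∀ i k, (i = 1 ∨ i = 3) → |d i (d k Eo) z| ≤ 1
  bM1 : ∀ z, |M1 z| ≤ C * d1 z * Real.sqrt (d2 z)
  bM2 : ∀ z, |M2 z| ≤ C * Real.sqrt (d1 z * d2 z)
  bM3 : ∀ z, |M3 z| ≤ C * Real.sqrt (d2 z)

/-- the four-term combination -/
def Th {k : ℕ} {X : Type} [AddCommGroup X] (F : ConvexBody (E (k + 4 + 1)) → X)
    (L : Fin 2 → Fin 2 → ConvexBody (E (k + 4 + 1))) : X :=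
  F (L 0 0) - F (L 0 1) - F (L 1 0) + F (L 1 1)

/-- the cut-off functions on `E m` -/
structure Cut3 (ζa ζb ζc : E m → ℝ) : Prop where
  sma : SmE ζa
  smb : SmE ζb
  smc : SmE ζc
  nna : ∀ x, 0 ≤ ζa x ∧ ζa x ≤ 1
  nnb : ∀ x, 0 ≤ ζb x ∧ ζb x ≤ 1
  nnc : ∀ x, 0 ≤ ζc x ∧ ζc x ≤ 1
  onea : ∀ x, ‖x‖ ≤ 2 → ζa x = 1
  outa : ∀ x, 5 / 2 ≤ ‖x‖ → ζa x = 0
  oneb : ∀ x, ‖x‖ ≤ 3 → ζb x = 1
  outb : ∀ x, 7 / 2 ≤ ‖x‖ → ζb x = 0
  onec : ∀ x, ‖x‖ ≤ 15 / 4 → ζc x = 1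
  outc : ∀ x, 4 ≤ ‖x‖ → ζc x = 0

end Pool.Agent.GNS
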