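import Pool.Agent.GNS.T5
import Pool.Agent.GLB.Stmt

/-!
# GNS: the statement in the language of `GLB.Stmt`
-/

set_option autoImplicit false

open Pool.Agent Metric Set Filter Topology
open Pool.Agent.GLB.Stmt

namespace Pool.Agent.GNS

/-- the final statement -/
theorem final (h : ∀ n k : ℕ, 2 ≤ k → k + 3 ≤ n → ∃ μ : ConvexBody (GLB.E n) → ℂ,
      GLB.IsVal n k μ ∧
      ∀ Ψ : ConvexBody (GLB.E n) → (C(GLB.S n, ℂ) →L[ℂ] ℂ), GLB.IsArea n k Ψ →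
        ∃ K, Ψ K 1 ≠ μ K) :
    ∀ n k : ℕ, 2 ≤ k → k + 3 ≤ n →
    ∃ μ : Body (EuclideanSpace ℝ (Fin n)) → ℂ, IsVal k μ ∧
      ∀ Ψ : Body (EuclideanSpace ℝ (Fin n)) → Meas (EuclideanSpace ℝ (Fin n)), IsArea k Ψ →
        ∃ K, (Ψ K).mass ≠ μ K := by
  intro n k hk hkn
  obtain ⟨μ, hμ, hn⟩ := h n k hk hkn
  refine ⟨μ, ⟨hμ.cont, hμ.trans, hμ.homog, hμ.val⟩, ?_⟩
  intro Ψ hΨ
  obtain ⟨K, hK⟩ := hn Ψ ⟨hΨ.cont, hΨ.loc, hΨ.trans, fun K t ht =>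
    ContinuousLinearMap.ext fun φ => hΨ.homog K t ht φ⟩
  exact ⟨K, hK⟩

end Pool.Agent.GNS
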