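import Pool.Agent.GNS.Lib
import Pool.Agent.GLB.P_SUA
import Pool.Agent.GLB.P_SUD
import Pool.Agent.GLB.P_SUE
import Pool.Agent.GLB.P_SUH
import Pool.Agent.GLB.P_SUL
import Pool.Agent.GLB.P_CTA
import Pool.Agent.GLB.P_BLA
import Pool.Agent.GLB.P_PRD

/-!
# GNS: facts on support functions from the project GLB, in directly usable form
-/

set_option autoImplicit false

open Metric Set Filter Topology MeasureTheory

noncomputable section

namespace Pool.Agent.GNS

open Pool.Agent.GLB

/-- `supp` is attained, additive, homogeneous; singletons; linear images -/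
theorem gSUA : GLB.T_SUA := GLB.p_SUA

/-- `supp K` is sublinear, convex, continuous and Lipschitz -/
theorem gSUH : GLB.T_SUH := GLB.p_SUH gSUA

/-- bodies and support functions -/
theorem gSUL : GLB.T_SUL := GLB.p_SUL gSUA

/-- every sublinear function is a support function -/
theorem gSUE : GLB.T_SUE := GLB.p_SUE

/-- the Hausdorff distance and support functions -/
theorem gSUD : GLB.T_SUD := GLB.p_SUD gSUA

/-- continuity of the operations on bodies -/
theorem gCTA : GLB.T_CTA := GLB.p_CTA gSUA gSUD gSUH

/-- Blaschke's selection theorem -/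
theorem gBLA : GLB.T_BLA := GLB.p_BLA

/-- product rule etc. for `D2` -/
theorem gPRD : GLB.T_PRD := GLB.p_PRD

/-- continuity of the sum in both arguments -/
theorem add_tendsto {n : ℕ} {ι : Type} {l : Filter ι} {f g : ι → ConvexBody (E n)}
    {K L : ConvexBody (E n)} (hf : Tendsto f l (𝓝 K)) (hg : Tendsto g l (𝓝 L)) :
    Tendsto (fun i => f i + g i) l (𝓝 (K + L)) := by
  rw [tendsto_iff_dist_tendsto_zero] at hf hg ⊢
  have h1 : ∀ i, dist (f i + g i) (K + L) ≤ dist (f i) K + dist (g i) L := by
    intro i
    refine (gSUD n _ _).2 _ (by positivity) ?_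
    intro u hu
    have h2 := (gSUD n (f i) K).1 u
    have h3 := (gSUD n (g i) L).1 u
    rw [hu, mul_one] at h2 h3
    rw [(gSUA n).2.2.1, (gSUA n).2.2.1]
    have h4 : supp (f i) u + supp (g i) u - (supp K u + supp L u) =
        (supp (f i) u - supp K u) + (supp (g i) u - supp L u) := by ring
    rw [h4]
    exact (abs_add_le _ _).trans (add_le_add h2 h3)
  refine squeeze_zero (fun i => dist_nonneg) h1 ?_
  simpa using hf.add hg

end Pool.Agent.GNS
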