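import Pool.Agent.GNS.Defs2

/-!
# GNS: basic calculus on `V`
-/

set_option autoImplicit false

open Metric Set Filter Topology MeasureTheory

noncomputable section

namespace Pool.Agent.GNS

instance instHX : (volume : Measure X2).IsAddHaarMeasure :=
  inferInstanceAs (Measure.IsAddHaarMeasure ((volume : Measure ℝ).prod (volume : Measure ℝ)))

instance instHV : (volume : Measure V).IsAddHaarMeasure :=
  inferInstanceAs (Measure.IsAddHaarMeasure ((volume : Measure X2).prod (volume : Measure X2)))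

theorem Sm.cd {f : V → ℝ} (h : Sm f) : ContDiff ℝ ((⊤ : ℕ∞) : WithTop ℕ∞) f := h

theorem Sm.cont {f : V → ℝ} (h : Sm f) : Continuous f := ContDiff.continuous h

theorem Sm.diff {f : V → ℝ} (h : Sm f) : Differentiable ℝ f :=
  ContDiff.differentiable h (by simp)

theorem Sm.dAt {f : V → ℝ} (h : Sm f) (z : V) : DifferentiableAt ℝ f z := h.diff z

theorem Sm.fd {f : V → ℝ} (h : Sm f) :
    ContDiff ℝ ((⊤ : ℕ∞) : WithTop ℕ∞) (fderiv ℝ f) := ContDiff.fderiv_right h (by simp)

/-- coordinate derivatives of smooth functions are smooth -/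
theorem Sm.d {f : V → ℝ} (h : Sm f) (i : Fin 4) : Sm (d i f) :=
  h.fd.clm_apply contDiff_const

theorem Sm.const (c : ℝ) : Sm fun _ => c := contDiff_const

theorem Sm.add {f g : V → ℝ} (hf : Sm f) (hg : Sm g) : Sm fun z => f z + g z :=
  ContDiff.add hf hg

theorem Sm.sub {f g : V → ℝ} (hf : Sm f) (hg : Sm g) : Sm fun z => f z - g z :=
  ContDiff.sub hf hg

theorem Sm.mul {f g : V → ℝ} (hf : Sm f) (hg : Sm g) : Sm fun z => f z * g z :=
  ContDiff.mul hf hg

theorem Sm.neg {f : V → ℝ} (hf : Sm f) : Sm fun z => -f z := ContDiff.neg hf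

theorem Sm.pow {f : V → ℝ} (hf : Sm f) (n : ℕ) : Sm fun z => f z ^ n := ContDiff.pow hf n

theorem Sm.cmul {f : V → ℝ} (hf : Sm f) (c : ℝ) : Sm fun z => c * f z :=
  (Sm.const c).mul hf

theorem Sm.comp1 {f : V → ℝ} (hf : Sm f) {g : ℝ → ℝ}
    (hg : ContDiff ℝ ((⊤ : ℕ∞) : WithTop ℕ∞) g) : Sm fun z => g (f z) := ContDiff.comp hg hf

/-! ### Rules for `d` -/

theorem d_const (i : Fin 4) (c : ℝ) (z : V) : d i (fun _ => c) z = 0 := by
  simp [d]

theorem d_add {f g : V → ℝ} (hf : Sm f) (hg : Sm g) (i : Fin 4) (z : V) :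
    d i (fun z => f z + g z) z = d i f z + d i g z := by
  unfold d
  rw [fderiv_fun_add (hf.dAt z) (hg.dAt z)]
  rfl

theorem d_sub {f g : V → ℝ} (hf : Sm f) (hg : Sm g) (i : Fin 4) (z : V) :
    d i (fun z => f z - g z) z = d i f z - d i g z := by
  unfold d
  rw [fderiv_fun_sub (hf.dAt z) (hg.dAt z)]
  rfl

theorem d_neg {f : V → ℝ} (i : Fin 4) (z : V) : d i (fun z => -f z) z = -d i f z := by
  unfold d
  rw [fderiv_fun_neg]
  rfl

theorem d_mul {f g : V → ℝ} (hf : Sm f) (hg : Sm g) (i : Fin 4) (z : V) :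
    d i (fun z => f z * g z) z = d i f z * g z + f z * d i g z := by
  unfold d
  rw [fderiv_fun_mul (hf.dAt z) (hg.dAt z)]
  simp only [add_apply, smul_apply, smul_eq_mul]
  ring

theorem d_cmul {f : V → ℝ} (hf : Sm f) (c : ℝ) (i : Fin 4) (z : V) :
    d i (fun z => c * f z) z = c * d i f z := by
  rw [d_mul (Sm.const c) hf, d_const]
  ring

theorem d_comp1 {f : V → ℝ} (hf : Sm f) {g : ℝ → ℝ}
    (hg : Differentiable ℝ g) (i : Fin 4) (z : V) :
    d i (fun z => g (f z)) z = deriv g (f z) * d i f z := by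
  unfold d
  have h : HasFDerivAt (fun z => g (f z)) (deriv g (f z) • fderiv ℝ f z) z :=
    ((hg (f z)).hasDerivAt).comp_hasFDerivAt z (hf.dAt z).hasFDerivAt
  rw [h.fderiv]
  rfl

/-- second coordinate derivatives commute -/
theorem d_comm {f : V → ℝ} (hf : Sm f) (i j : Fin 4) (z : V) :
    d i (d j f) z = d j (d i f) z := by
  have h1 : ∀ (a b : Fin 4), d a (d b f) z = fderiv ℝ (fderiv ℝ f) z (e a) (e b) := by
    intro a b
    unfold d
    have h2 : DifferentiableAt ℝ (fderiv ℝ f) z := hf.fd.differentiable (by simp) z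
    rw [fderiv_clm_apply h2 (differentiableAt_const _)]
    simp
  rw [h1, h1]
  have h3 : IsSymmSndFDerivAt ℝ f z := by
    have h4 : ContDiffAt ℝ 2 f z := (contDiff_infty.1 hf.cd 2).contDiffAt
    exact h4.isSymmSndFDerivAt (by simp)
  exact h3 (e i) (e j)

theorem d_fun_comm {f : V → ℝ} (hf : Sm f) (i j : Fin 4) : d i (d j f) = d j (d i f) :=
  funext (d_comm hf i j)

theorem d_congr {f g : V → ℝ} {z : V} (h : f =ᶠ[𝓝 z] g) (i : Fin 4) : d i f z = d i g z := by
  unfold d
  rw [h.fderiv_eq]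

/-- the derivative along a line -/
theorem line_deriv {f : V → ℝ} (hf : Sm f) (z v : V) (t : ℝ) :
    HasDerivAt (fun s : ℝ => f (z + s • v)) (fderiv ℝ f (z + t • v) v) t := by
  have h1 : HasDerivAt (fun s : ℝ => z + s • v) v t := by
    have := ((hasDerivAt_id t).smul_const v).const_add z
    simpa using this
  exact (hf.dAt _).hasFDerivAt.comp_hasDerivAt t h1

/-- a vector in terms of the basis -/
theorem vec_eq (v : V) : v = v.1.1 • e 0 + v.1.2 • e 1 + v.2.1 • e 2 + v.2.2 • e 3 := by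
  ext <;> simp [e]

/-- the total derivative in terms of the coordinate derivatives -/
theorem fd_eq {f : V → ℝ} (z v : V) : fderiv ℝ f z v =
    v.1.1 * d 0 f z + v.1.2 * d 1 f z + v.2.1 * d 2 f z + v.2.2 * d 3 f z := by
  conv_lhs => rw [vec_eq v]
  simp only [map_add, map_smul, smul_eq_mul, d]

/-- integration by parts -/
theorem d_ibp {f g : V → ℝ} (hf : Sm f) (hg : Sm g) (hc : HasCompactSupport g) (i : Fin 4) :
    ∫ z, d i f z * g z = -∫ z, f z * d i g z := by
  have hcg : HasCompactSupport (d i g) := by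
    have h := hc.fderiv (𝕜 := ℝ)
    exact h.comp_left (g := fun L : V →L[ℝ] ℝ => L (e i)) (by simp)
  have h1 : Integrable fun z => fderiv ℝ f z (e i) * g z :=
    ((hf.d i).cont.mul hg.cont).integrable_of_hasCompactSupport hc.mul_left
  have h2 : Integrable fun z => f z * fderiv ℝ g z (e i) :=
    (hf.cont.mul (hg.d i).cont).integrable_of_hasCompactSupport hcg.mul_left
  have h3 : Integrable fun z => f z * g z :=
    (hf.cont.mul hg.cont).integrable_of_hasCompactSupport hc.mul_left
  have h := integral_mul_fderiv_eq_neg_fderiv_mul_of_integrable (μ := (volume : Measure V))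
    (v := e i) h1 h2 h3 (fun z _ => hf.diff z) (fun z _ => hg.diff z)
  unfold d
  rw [h, neg_neg]

theorem hcs_d {g : V → ℝ} (hc : HasCompactSupport g) (i : Fin 4) :
    HasCompactSupport (d i g) := by
  have h := hc.fderiv (𝕜 := ℝ)
  exact h.comp_left (g := fun L : V →L[ℝ] ℝ => L (e i)) (by simp)

/-- a function which vanishes outside a ball has compact support -/
theorem hcs_of {g : V → ℝ} {R : ℝ} (h : ∀ z, R ≤ ‖z‖ → g z = 0) : HasCompactSupport g := by
  refine HasCompactSupport.intro (isCompact_closedBall (0 : V) R) ?_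
  intro z hz
  apply h
  rw [mem_closedBall, dist_zero_right, not_le] at hz
  exact hz.le

theorem int_of {g : V → ℝ} (hg : Continuous g) (hc : HasCompactSupport g) : Integrable g :=
  hg.integrable_of_hasCompactSupport hc

end Pool.Agent.GNS
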