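import Pool.Agent.GNS.T3

/-!
# GNS: AFF, area measures are affine in a scaled segment
-/

set_option autoImplicit false

open Metric Set Filter Topology MeasureTheory

noncomputable section

namespace Pool.Agent.GNS

open Pool.Agent.GLB

/-- an additive function on the nonnegative reals which is continuous there is linear -/
lemma AFF_lin (D : ℝ → ℂ) (h : ∀ s t : ℝ, 0 ≤ s → 0 ≤ t → D (s + t) = D s + D t)
    (hc : ∀ t : ℝ, 0 ≤ t → ContinuousWithinAt D (Ici 0) t) :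
    ∀ t : ℝ, 0 ≤ t → D t = (t : ℂ) * D 1 := by
  have h0 : D 0 = 0 := by
    have := h 0 0 le_rfl le_rfl
    rw [add_zero] at this
    simpa using this.symm
  have hn : ∀ (n : ℕ) (s : ℝ), 0 ≤ s → D (n * s) = n * D s := by
    intro n s hs
    induction n with
    | zero => simp [h0]
    | succ n ih =>
      have h1 : ((n + 1 : ℕ) : ℝ) * s = n * s + s := by push_cast; ring
      rw [h1, h _ _ (by positivity) hs, ih]
      push_cast
      ring
  have hq : ∀ (k n : ℕ), 0 < n → D ((k : ℝ) / n) = ((k : ℂ) / n) * D 1 := by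
    intro k n hnn
    have hnr : (n : ℝ) ≠ 0 := by exact_mod_cast hnn.ne'
    have hnc : (n : ℂ) ≠ 0 := by exact_mod_cast hnn.ne'
    have h1 := hn n (1 / n) (by positivity)
    have h2 : (n : ℝ) * (1 / n) = 1 := by field_simp
    rw [h2] at h1
    have h3 := hn k (1 / n) (by positivity)
    have h4 : (k : ℝ) * (1 / n) = (k : ℝ) / n := by ring
    rw [h4] at h3
    rw [h3, h1]
    field_simp
  intro t ht
  have ht1 : Tendsto (fun n : ℕ => ((⌊t * (n : ℝ)⌋₊ : ℕ) : ℝ) / (n : ℝ)) atTop (𝓝 t) :=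
    (tendsto_nat_floor_mul_div_atTop ht).comp tendsto_natCast_atTop_atTop
  have ht2 : Tendsto (fun n : ℕ => ((⌊t * (n : ℝ)⌋₊ : ℕ) : ℝ) / (n : ℝ)) atTop
      (𝓝[Ici 0] t) := by
    refine tendsto_nhdsWithin_iff.2 ⟨ht1, ?_⟩
    filter_upwards with n
    show (0 : ℝ) ≤ ((⌊t * (n : ℝ)⌋₊ : ℕ) : ℝ) / (n : ℝ)
    positivity
  have h5 := (hc t ht).tendsto.comp ht2
  have h6 : Tendsto (fun n : ℕ => ((((⌊t * (n : ℝ)⌋₊ : ℕ) : ℝ) / (n : ℝ) : ℝ) : ℂ) * D 1) atTop
      (𝓝 ((t : ℂ) * D 1)) :=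
    ((Complex.continuous_ofReal.tendsto t).comp ht1).mul_const _
  refine tendsto_nhds_unique h5 (h6.congr' ?_)
  filter_upwards [eventually_gt_atTop 0] with n hn0
  have h7 := hq ⌊t * (n : ℝ)⌋₊ n hn0
  simp only [Function.comp_apply]
  rw [h7]
  push_cast
  ring

lemma AFF_supp0 {n : ℕ} (u : E n) : supp (0 : ConvexBody (E n)) u = 0 := by
  have h := (gSUA n).2.2.1 0 0 u
  rw [add_zero] at h
  linarith

lemma AFF_smul_add {n : ℕ} (I : ConvexBody (E n)) (s t : ℝ) (hs : 0 ≤ s) (ht : 0 ≤ t) :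
    (s + t) • I = s • I + t • I := by
  refine (gSUL n _ _).2.1 ?_
  intro u
  rw [(gSUA n).2.2.1, (gSUA n).2.2.2.1 _ _ _ (add_nonneg hs ht), (gSUA n).2.2.2.1 _ _ _ hs,
    (gSUA n).2.2.2.1 _ _ _ ht]
  ring

lemma AFF_one {n : ℕ} (I : ConvexBody (E n)) : (1 : ℝ) • I = I := by
  refine (gSUL n _ _).2.1 ?_
  intro u
  rw [(gSUA n).2.2.2.1 _ _ _ zero_le_one, one_mul]

lemma AFF_zero {n : ℕ} (I : ConvexBody (E n)) : (0 : ℝ) • I = 0 := by
  refine (gSUL n _ _).2.1 ?_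
  intro u
  rw [(gSUA n).2.2.2.1 _ _ _ le_rfl, zero_mul, AFF_supp0]

lemma AFF_cont {n : ℕ} (K I : ConvexBody (E n)) (t : ℝ) (ht : 0 ≤ t) :
    ContinuousWithinAt (fun s : ℝ => K + s • I) (Ici 0) t := by
  obtain ⟨R, hR⟩ := I.isCompact.isBounded.subset_closedBall (0 : E n)
  have h1 := ((gSUH n I).2.2.2.2 R hR).1
  have h2 : ∀ s ∈ Ici (0 : ℝ), dist (K + s • I) (K + t • I) ≤ |s - t| * |R| := by
    intro s hs
    refine (gSUD n _ _).2 _ (by positivity) ?_
    intro u hu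
    rw [(gSUA n).2.2.1, (gSUA n).2.2.1, (gSUA n).2.2.2.1 _ _ _ hs, (gSUA n).2.2.2.1 _ _ _ ht]
    have h3 : supp K u + s * supp I u - (supp K u + t * supp I u) = (s - t) * supp I u := by ring
    rw [h3, abs_mul]
    refine mul_le_mul_of_nonneg_left ?_ (abs_nonneg _)
    have h4 := h1 u
    rw [hu, mul_one] at h4
    exact h4.trans (le_abs_self _)
  unfold ContinuousWithinAt
  rw [tendsto_iff_dist_tendsto_zero]
  have h5 : Tendsto (fun s : ℝ => |s - t| * |R|) (𝓝[Ici 0] t) (𝓝 0) := by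
    have h6 : Continuous fun s : ℝ => |s - t| * |R| := by fun_prop
    have h7 := (h6.tendsto t).mono_left (nhdsWithin_le_nhds (s := Ici (0 : ℝ)))
    simpa using h7
  refine squeeze_zero' ?_ ?_ h5
  · filter_upwards with s using dist_nonneg
  · filter_upwards [self_mem_nhdsWithin] with s hs using h2 s hs

/-- AFF -/
theorem p_AFF (hKNK : T_KNK) : T_AFF := by
  intro m k Ψ hΨ K κ c t ht R φ hφ
  have hlin := AFF_lin (fun s => Ψ (K + s • seg (kv κ c)) (HC φ) - Ψ K (HC φ)) ?_ ?_ t ht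
  · simp only [AFF_one] at hlin
    rw [← hlin]
    ring
  · intro s s' hs hs'
    have h1 := hKNK m k Ψ hΨ K κ c s s' hs hs' R φ hφ
    rw [AFF_smul_add _ _ _ hs hs', ← add_assoc]
    linear_combination h1
  · intro s hs
    have h1 := (hΨ.cont (HC φ)).continuousAt.comp_continuousWithinAt
      (AFF_cont K (seg (kv κ c)) s hs)
    exact h1.sub continuousWithinAt_const

end Pool.Agent.GNS
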