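import Pool.Agent.GNS.T5
import Pool.Agent.GNS.P_AFF

/-!
# GNS: AF2, area measures are affine in the multiples of the vertical segment
-/

set_option autoImplicit false

open Metric Set Filter Topology MeasureTheory

noncomputable section

namespace Pool.Agent.GNS

open Pool.Agent.GLB

/-- AF2 -/
theorem p_AF2 (hKN3 : T_KN3) : T_AF2 := by
  intro n k Ψ hΨ φ K t ht
  have hlin := AFF_lin (fun s => Ψ (K + s • Jl) φ - Ψ K φ) ?_ ?_ t ht
  · simp only [AFF_one] at hlin
    rw [← hlin]
    ring
  · intro s s' hs hs'
    have h1 := hKN3 n k Ψ hΨ φ K s s' hs hs'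
    rw [AFF_smul_add _ _ _ hs hs', ← add_assoc]
    linear_combination h1
  · intro s hs
    have h1 := (hΨ.cont φ).continuousAt.comp_continuousWithinAt (AFF_cont K Jl s hs)
    exact h1.sub continuousWithinAt_const

end Pool.Agent.GNS
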