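import Pool.Agent.GNS.T5

set_option autoImplicit false

open Metric Set Filter Topology MeasureTheory

noncomputable section

namespace Pool.Agent.GNS

open Pool.Agent.GLB

theorem p_ALL (hRED : T_RED) : T_ALL := by
  intro h n k hk hn
  induction k, hk using Nat.le_induction generalizing n with
  | base =>
    obtain ⟨j, rfl⟩ : ∃ j, n = j + 4 + 1 := ⟨n - 5, by omega⟩
    exact h j
  | succ k hk ih =>
    obtain ⟨n, rfl⟩ : ∃ j, n = j + 1 := ⟨n - 1, by omega⟩
    obtain ⟨μ, hμ, hne⟩ := ih n (by omega)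
    by_contra hc
    push Not at hc
    obtain ⟨Ψ, hΨ, he⟩ := hRED n k hc μ hμ
    obtain ⟨K, hK⟩ := hne Ψ hΨ
    exact hK (he K)

end Pool.Agent.GNS
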