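import Pool.Agent.GNS.T1

set_option autoImplicit false

open Metric Set Filter Topology MeasureTheory

noncomputable section

namespace Pool.Agent.GNS

theorem AV0_sm_lin (h : ℝ) : Sm fun ζ : V => ζ.1.1 / h := by
  unfold Sm
  fun_prop

theorem AV0_d_lin (h : ℝ) (ζ : V) : d 0 (fun ζ : V => ζ.1.1 / h) ζ = 1 / h := by
  unfold d
  have h1 : HasFDerivAt (fun ζ : V => ζ.1.1 / h)
      ((1 / h) • ((ContinuousLinearMap.fst ℝ ℝ ℝ).comp (ContinuousLinearMap.fst ℝ X2 X2))) ζ := by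
    have h2 : (fun ζ : V => ζ.1.1 / h) =
        fun ζ => ((1 / h) • ((ContinuousLinearMap.fst ℝ ℝ ℝ).comp
          (ContinuousLinearMap.fst ℝ X2 X2))) ζ := by
      funext ζ
      simp [div_eq_inv_mul]
    rw [h2]
    exact ContinuousLinearMap.hasFDerivAt _
  rw [h1.fderiv]
  simp [e]

theorem AV0_sm_refl {k : V → ℝ} (hk : Sm k) (z : V) : Sm fun ζ => k (z - ζ) := by
  unfold Sm at *
  exact hk.comp (contDiff_const.sub contDiff_id)

theorem AV0_hcs_refl {k : V → ℝ} (hk : HasCompactSupport k) (z : V) :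
    HasCompactSupport fun ζ => k (z - ζ) := by
  have := hk.comp_homeomorph (Homeomorph.subLeft z)
  exact this

theorem AV0_d_refl {k : V → ℝ} (hk : Sm k) (z ζ : V) (i : Fin 4) :
    d i (fun ζ => k (z - ζ)) ζ = - d i k (z - ζ) := by
  unfold d
  have h1 : HasFDerivAt (fun ζ : V => z - ζ) (-ContinuousLinearMap.id ℝ V) ζ := by
    simpa using (hasFDerivAt_id ζ).const_sub z
  have h2 := (hk.dAt (z - ζ)).hasFDerivAt.comp ζ h1
  have h3 : fderiv ℝ (fun ζ => k (z - ζ)) ζ =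
      (fderiv ℝ k (z - ζ)).comp (-ContinuousLinearMap.id ℝ V) := h2.fderiv
  rw [h3]
  simp

theorem AV0_int_refl (f : V → ℝ) (z : V) : ∫ ζ, f (z - ζ) = ∫ ζ, f ζ :=
  integral_sub_left_eq_self f volume z

theorem p_AV0 (hAVB : T_AVB) : T_AV0 := by
  intro N θ σ σ2 q3 ϵ m2 c3 C P hN k hk hkc
  obtain ⟨C1, hC1, hA⟩ := hAVB k hk.cont hkc
  have hC : 0 ≤ C := le_trans (abs_nonneg _) (P.bσ 0).1
  have hI0 : 0 ≤ ∫ ζ, |d 0 k ζ| := integral_nonneg fun _ => abs_nonneg _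
  refine ⟨C * (C1 + ∫ ζ, |d 0 k ζ|) / 4, by positivity, ?_⟩
  intro η u hu z h hh hh1
  have hσ' : ContDiff ℝ ((⊤ : ℕ∞) : WithTop ℕ∞) (deriv σ) := (contDiff_infty_iff_deriv.1 P.smσ).2
  have hS : Sm fun ζ : V => deriv σ (ζ.1.1 / h) := (AV0_sm_lin h).comp1 hσ'
  have hdS : ∀ ζ : V, d 0 (fun ζ : V => deriv σ (ζ.1.1 / h)) ζ =
      deriv (deriv σ) (ζ.1.1 / h) * (1 / h) := by
    intro ζ
    rw [d_comp1 (AV0_sm_lin h) (hσ'.differentiable (by simp)), AV0_d_lin]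
  have hu0 : Sm (d 0 u) := hu.sm.d 0
  have hK : Sm fun ζ => k (z - ζ) := AV0_sm_refl hk z
  have hKc : HasCompactSupport fun ζ => k (z - ζ) := AV0_hcs_refl hkc z
  have hG : Sm fun ζ => k (z - ζ) * d 0 u ζ := hK.mul hu0
  have hGc : HasCompactSupport fun ζ => k (z - ζ) * d 0 u ζ := hKc.mul_right
  have hdG : ∀ ζ, d 0 (fun ζ => k (z - ζ) * d 0 u ζ) ζ =
      - d 0 k (z - ζ) * d 0 u ζ + k (z - ζ) * d 0 (d 0 u) ζ := by
    intro ζ
    rw [d_mul hK hu0, AV0_d_refl hk]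
  have hibp := d_ibp hS hG hGc 0
  have e1 : (fun ζ => k (z - ζ) * ((g0 θ h ζ - (3 + ϵ) / 4) * d 0 u ζ)) =
      fun ζ => -(h / 4) * (d 0 (fun ζ : V => deriv σ (ζ.1.1 / h)) ζ *
        (k (z - ζ) * d 0 u ζ)) := by
    funext ζ
    rw [hdS, P.hσ]
    unfold g0 c0
    field_simp
    ring
  rw [e1, integral_const_mul, hibp]
  -- bound
  have i1 : Integrable fun ζ => |d 0 k (z - ζ)| := by
    have c1 : Continuous fun ζ => |d 0 k (z - ζ)| :=
      ((hk.d 0).cont.comp (continuous_const.sub continuous_id)).abs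
    have c2 : HasCompactSupport fun ζ => |d 0 k (z - ζ)| :=
      (AV0_hcs_refl (hcs_d hkc 0) z).comp_left (g := fun t : ℝ => |t|) abs_zero
    exact int_of c1 c2
  have i2 : Integrable fun ζ => |k (z - ζ)| * |d 0 (d 0 u) ζ| := by
    have c1 : Continuous fun ζ => |k (z - ζ)| * |d 0 (d 0 u) ζ| :=
      hK.cont.abs.mul (hu0.d 0).cont.abs
    have c2 : HasCompactSupport fun ζ => |k (z - ζ)| * |d 0 (d 0 u) ζ| := by
      have c3 : HasCompactSupport fun ζ => |k (z - ζ)| :=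
        hKc.comp_left (g := fun t : ℝ => |t|) abs_zero
      exact c3.mul_right
    exact int_of c1 c2
  have hb : |∫ ζ, deriv σ (ζ.1.1 / h) * d 0 (fun ζ => k (z - ζ) * d 0 u ζ) ζ| ≤
      ∫ ζ, C * (|d 0 k (z - ζ)| + |k (z - ζ)| * |d 0 (d 0 u) ζ|) := by
    have := norm_integral_le_of_norm_le ((i1.add i2).const_mul C)
      (f := fun ζ => deriv σ (ζ.1.1 / h) * d 0 (fun ζ => k (z - ζ) * d 0 u ζ) ζ)
      (Eventually.of_forall fun ζ => by
        rw [hdG, Real.norm_eq_abs, abs_mul]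
        have h1 : |deriv σ (ζ.1.1 / h)| ≤ C := (P.bσ _).2
        have h2 : |-d 0 k (z - ζ) * d 0 u ζ + k (z - ζ) * d 0 (d 0 u) ζ| ≤
            |d 0 k (z - ζ)| + |k (z - ζ)| * |d 0 (d 0 u) ζ| := by
          refine (abs_add_le _ _).trans ?_
          rw [abs_mul, abs_mul, abs_neg]
          have h3 := hu.bd0 ζ
          have h4 : |d 0 k (z - ζ)| * |d 0 u ζ| ≤ |d 0 k (z - ζ)| * 1 :=
            mul_le_mul_of_nonneg_left h3 (abs_nonneg _)
          linarith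
        exact mul_le_mul h1 h2 (abs_nonneg _) hC)
    rw [Real.norm_eq_abs] at this
    exact this
  rw [integral_const_mul, integral_add i1 i2, AV0_int_refl (fun ζ => |d 0 k ζ|)] at hb
  have hA0 := (hA η u hu z).1
  rw [abs_mul, abs_neg, abs_neg, abs_of_pos (by positivity : 0 < h / 4)]
  have h5 : C * ((∫ ζ, |d 0 k ζ|) + ∫ ζ, |k (z - ζ)| * |d 0 (d 0 u) ζ|) ≤
      C * (C1 + ∫ ζ, |d 0 k ζ|) := by
    apply mul_le_mul_of_nonneg_left _ hC
    linarith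
  have h6 : h / 4 * |∫ ζ, deriv σ (ζ.1.1 / h) * d 0 (fun ζ => k (z - ζ) * d 0 u ζ) ζ| ≤
      h / 4 * (C * (C1 + ∫ ζ, |d 0 k ζ|)) :=
    mul_le_mul_of_nonneg_left (hb.trans h5) (by positivity)
  refine h6.trans (le_of_eq ?_)
  ring

end Pool.Agent.GNS
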