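import Pool.Agent.GNS.T1

set_option autoImplicit false

open Metric Set Filter Topology MeasureTheory

noncomputable section

namespace Pool.Agent.GNS

namespace AV1_

/-- the first coordinate divided by `h` -/
theorem d_x0 (h : ℝ) (i : Fin 4) (z : V) : d i (fun z : V => z.1.1 / h) z = (e i).1.1 / h := by
  have h1 : HasFDerivAt (fun z : V => z.1.1 / h)
      ((h⁻¹ : ℝ) • ((ContinuousLinearMap.fst ℝ ℝ ℝ).comp (ContinuousLinearMap.fst ℝ X2 X2))) z := by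
    have h2 := ((ContinuousLinearMap.fst ℝ ℝ ℝ).comp
      (ContinuousLinearMap.fst ℝ X2 X2)).hasFDerivAt (x := z) |>.const_smul (h⁻¹ : ℝ)
    refine h2.congr_of_eventuallyEq (Eventually.of_forall fun y => ?_)
    simp [div_eq_inv_mul]
  unfold d
  rw [h1.fderiv]
  simp [div_eq_inv_mul]

/-- the second coordinate divided by `h` -/
theorem d_x1 (h : ℝ) (i : Fin 4) (z : V) : d i (fun z : V => z.1.2 / h) z = (e i).1.2 / h := by
  have h1 : HasFDerivAt (fun z : V => z.1.2 / h)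
      ((h⁻¹ : ℝ) • ((ContinuousLinearMap.snd ℝ ℝ ℝ).comp (ContinuousLinearMap.fst ℝ X2 X2))) z := by
    have h2 := ((ContinuousLinearMap.snd ℝ ℝ ℝ).comp
      (ContinuousLinearMap.fst ℝ X2 X2)).hasFDerivAt (x := z) |>.const_smul (h⁻¹ : ℝ)
    refine h2.congr_of_eventuallyEq (Eventually.of_forall fun y => ?_)
    simp [div_eq_inv_mul]
  unfold d
  rw [h1.fderiv]
  simp [div_eq_inv_mul]

theorem sm_x0 (h : ℝ) : Sm (fun z : V => z.1.1 / h) := by
  unfold Sm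
  fun_prop

theorem sm_x1 (h : ℝ) : Sm (fun z : V => z.1.2 / h) := by
  unfold Sm
  fun_prop

theorem sm_c0 {f : ℝ → ℝ} (hf : ContDiff ℝ ((⊤ : ℕ∞) : WithTop ℕ∞) f) (h : ℝ) : Sm (c0 f h) :=
  (sm_x0 h).comp1 hf

theorem sm_c1 {f : ℝ → ℝ} (hf : ContDiff ℝ ((⊤ : ℕ∞) : WithTop ℕ∞) f) (h : ℝ) : Sm (c1 f h) :=
  (sm_x1 h).comp1 hf

theorem d_c0 {f : ℝ → ℝ} (hf : Differentiable ℝ f) (h : ℝ) (i : Fin 4) (z : V) :
    d i (c0 f h) z = deriv f (z.1.1 / h) * ((e i).1.1 / h) := by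
  have h1 := d_comp1 (sm_x0 h) hf i z
  rw [d_x0] at h1
  exact h1

theorem d_c1 {f : ℝ → ℝ} (hf : Differentiable ℝ f) (h : ℝ) (i : Fin 4) (z : V) :
    d i (c1 f h) z = deriv f (z.1.2 / h) * ((e i).1.2 / h) := by
  have h1 := d_comp1 (sm_x1 h) hf i z
  rw [d_x1] at h1
  exact h1

/-- the reflected kernel -/
theorem sm_k {k : V → ℝ} (hk : Sm k) (z : V) : Sm (fun ζ => k (z - ζ)) :=
  ContDiff.comp hk (contDiff_const.sub contDiff_id)

theorem hcs_k {k : V → ℝ} (hk : HasCompactSupport k) (z : V) :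
    HasCompactSupport (fun ζ => k (z - ζ)) :=
  hk.comp_homeomorph (Homeomorph.subLeft z)

theorem d_k {k : V → ℝ} (hk : Sm k) (z : V) (i : Fin 4) (ζ : V) :
    d i (fun ζ => k (z - ζ)) ζ = - d i k (z - ζ) := by
  have h1 : HasFDerivAt (fun ζ => k (z - ζ))
      ((fderiv ℝ k (z - ζ)).comp (-ContinuousLinearMap.id ℝ V)) ζ :=
    (hk.dAt (z - ζ)).hasFDerivAt.comp ζ ((hasFDerivAt_id ζ).const_sub z)
  unfold d
  rw [h1.fderiv]
  simp

/-- the basic estimate -/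
theorem key {F G B : V → ℝ} (hF : Sm F) (hG : Sm G) (hc : HasCompactSupport G) (i : Fin 4)
    {C : ℝ} (hb : ∀ z, |F z| ≤ C) (hB : ∀ z, |d i G z| ≤ B z) (hi : Integrable B) :
    |∫ z, d i F z * G z| ≤ C * ∫ z, B z := by
  rw [d_ibp hF hG hc i, abs_neg]
  refine (abs_integral_le_integral_abs).trans ?_
  rw [← integral_const_mul]
  refine integral_mono_of_nonneg (Eventually.of_forall fun z => abs_nonneg _)
    (hi.const_mul C) (Eventually.of_forall fun z => ?_)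
  change |F z * d i G z| ≤ C * B z
  rw [abs_mul]
  exact mul_le_mul (hb z) (hB z) (abs_nonneg _) ((abs_nonneg _).trans (hb z))

theorem int_refl (g : V → ℝ) (z : V) : ∫ ζ, g (z - ζ) = ∫ ζ, g ζ :=
  integral_sub_left_eq_self g volume z

end AV1_

open AV1_ in
theorem p_AV1 (hAVB : T_AVB) : T_AV1 := by
  intro N θ σ σ2 q3 ϵ m2 c3 C hP hN k hk hkc
  obtain ⟨A, hA0, hA⟩ := hAVB k hk.cont hkc
  have hC0 : 0 ≤ C := (abs_nonneg _).trans (hP.bσ 0).2
  have hϵ1 : ϵ ≤ 1 := by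
    refine hP.ϵle.trans ?_
    have : (1 : ℝ) ≤ N := by exact_mod_cast hN
    rw [div_le_one (by linarith)]
    exact this
  have hϵ0 := hP.ϵnn
  have hτ : ContDiff ℝ ((⊤ : ℕ∞) : WithTop ℕ∞) (deriv σ) := by
    have := (contDiff_infty_iff_deriv.1 hP.smσ).2
    exact this
  have hτd : Differentiable ℝ (deriv σ) := hτ.differentiable (by simp)
  set I0 : ℝ := ∫ ζ, |d 0 k ζ| with hI0
  set I1 : ℝ := ∫ ζ, |d 1 k ζ| with hI1
  have hI0n : 0 ≤ I0 := integral_nonneg fun ζ => abs_nonneg _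
  have hI1n : 0 ≤ I1 := integral_nonneg fun ζ => abs_nonneg _
  refine ⟨C * (I0 + I1 + A), by positivity, ?_⟩
  intro η u hu z h h' hh _ hh' _
  have hkz : Sm (fun ζ => k (z - ζ)) := sm_k hk z
  have hkzc : HasCompactSupport (fun ζ => k (z - ζ)) := hcs_k hkc z
  have hsτ0 : Sm (c0 (deriv σ) h) := sm_c0 hτ h
  have hsτ1 : Sm (c1 (deriv σ) h') := sm_c1 hτ h'
  have hsθ : Sm (c0 θ h) := sm_c0 hP.smθ h
  have hu1 : Sm (d 1 u) := hu.sm.d 1
  have hθd : Differentiable ℝ θ := hP.smθ.differentiable (by simp)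
  -- the two functions
  have hG0 : Sm (fun ζ => k (z - ζ) * d 1 u ζ) := hkz.mul hu1
  have hG0c : HasCompactSupport (fun ζ => k (z - ζ) * d 1 u ζ) := hkzc.mul_right
  have hG1 : Sm (fun ζ => k (z - ζ) * d 1 u ζ * c0 θ h ζ) := hG0.mul hsθ
  have hG1c : HasCompactSupport (fun ζ => k (z - ζ) * d 1 u ζ * c0 θ h ζ) := hG0c.mul_right
  have hθb : ∀ ζ, |c0 θ h ζ| ≤ 1 := fun ζ => by
    unfold c0
    rw [abs_of_nonneg (hP.nn _)]
    exact hP.le _
  -- derivatives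
  have hdG : ∀ (i : Fin 4) ζ, |d i (fun ζ => k (z - ζ) * d 1 u ζ) ζ| ≤
      |d i k (z - ζ)| + |k (z - ζ)| * |d i (d 1 u) ζ| := by
    intro i ζ
    rw [d_mul hkz hu1, d_k hk]
    refine (abs_add_le _ _).trans ?_
    rw [abs_mul, abs_mul, abs_neg]
    have h1 := hu.bd1 ζ
    have h2 := abs_nonneg (d i k (z - ζ))
    nlinarith [abs_nonneg (d 1 u ζ)]
  have hB : ∀ (i : Fin 4), Integrable (fun ζ => |d i k (z - ζ)| + |k (z - ζ)| *
      |d i (d 1 u) ζ|) := by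
    intro i
    refine Integrable.add ?_ ?_
    · refine int_of ?_ ?_
      · exact ((hk.d i).cont.comp (continuous_const.sub continuous_id)).abs
      · have h1 : HasCompactSupport (fun ζ => d i k (z - ζ)) := hcs_k (hcs_d hkc i) z
        exact h1.comp_left (g := fun x : ℝ => |x|) (by simp)
    · refine int_of (hkz.cont.abs.mul (hu1.d i).cont.abs) ?_
      have h1 : HasCompactSupport (fun ζ => |k (z - ζ)|) :=
        hkzc.comp_left (g := fun x : ℝ => |x|) (by simp)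
      exact h1.mul_right
  have hBi : ∀ (i : Fin 4), ∫ ζ, (|d i k (z - ζ)| + |k (z - ζ)| * |d i (d 1 u) ζ|) =
      (∫ ζ, |d i k ζ|) + ∫ ζ, |k (z - ζ)| * |d i (d 1 u) ζ| := by
    intro i
    rw [integral_add]
    · rw [int_refl (fun ζ => |d i k ζ|) z]
    · refine int_of ?_ ?_
      · exact ((hk.d i).cont.comp (continuous_const.sub continuous_id)).abs
      · have h1 : HasCompactSupport (fun ζ => d i k (z - ζ)) := hcs_k (hcs_d hkc i) z
        exact h1.comp_left (g := fun x : ℝ => |x|) (by simp)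
    · refine int_of (hkz.cont.abs.mul (hu1.d i).cont.abs) ?_
      have h1 : HasCompactSupport (fun ζ => |k (z - ζ)|) :=
        hkzc.comp_left (g := fun x : ℝ => |x|) (by simp)
      exact h1.mul_right
  have hA' := hA η u hu z
  have e0 : |∫ ζ, d 0 (c0 (deriv σ) h) ζ * (k (z - ζ) * d 1 u ζ)| ≤ C * (I0 + A) := by
    refine (key hsτ0 hG0 hG0c 0 (C := C) (fun ζ => (hP.bσ _).2) (hdG 0) (hB 0)).trans ?_
    rw [hBi 0]
    refine mul_le_mul_of_nonneg_left ?_ hC0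
    linarith [hA'.2.2]
  have e1 : |∫ ζ, d 1 (c1 (deriv σ) h') ζ * (k (z - ζ) * d 1 u ζ * c0 θ h ζ)| ≤
      C * (I1 + A) := by
    refine (key hsτ1 hG1 hG1c 1 (C := C) (fun ζ => (hP.bσ _).2) (fun ζ => ?_) (hB 1)).trans ?_
    · rw [d_mul hG0 hsθ, d_c0 hθd]
      have h1 : ((e 1).1.1 : ℝ) = 0 := by simp [e]
      rw [h1, zero_div, mul_zero, mul_zero, add_zero, abs_mul]
      refine le_trans ?_ (hdG 1 ζ)
      exact mul_le_of_le_one_right (abs_nonneg _) (hθb ζ)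
    · rw [hBi 1]
      refine mul_le_mul_of_nonneg_left ?_ hC0
      linarith [hA'.2.1]
  -- the identity
  have hid : ∀ ζ, k (z - ζ) * ((g1 θ h h' ζ - (1 - ϵ) * (3 + ϵ) / 4) * d 1 u ζ) =
      (3 + ϵ) / 4 * h * (d 0 (c0 (deriv σ) h) ζ * (k (z - ζ) * d 1 u ζ)) -
      h' * (d 1 (c1 (deriv σ) h') ζ * (k (z - ζ) * d 1 u ζ * c0 θ h ζ)) := by
    intro ζ
    rw [d_c0 hτd, d_c1 hτd, hP.hσ, hP.hσ]
    have h1 : ((e 0).1.1 : ℝ) = 1 := by simp [e]
    have h2 : ((e 1).1.2 : ℝ) = 1 := by simp [e]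
    rw [h1, h2]
    unfold g1 c0 c1
    field_simp
    ring
  have i0 : Integrable (fun ζ => d 0 (c0 (deriv σ) h) ζ * (k (z - ζ) * d 1 u ζ)) :=
    int_of ((hsτ0.d 0).cont.mul hG0.cont) hG0c.mul_left
  have i1 : Integrable (fun ζ => d 1 (c1 (deriv σ) h') ζ *
      (k (z - ζ) * d 1 u ζ * c0 θ h ζ)) :=
    int_of ((hsτ1.d 1).cont.mul hG1.cont) hG1c.mul_left
  have hint : ∫ ζ, k (z - ζ) * ((g1 θ h h' ζ - (1 - ϵ) * (3 + ϵ) / 4) * d 1 u ζ) =
      (3 + ϵ) / 4 * h * (∫ ζ, d 0 (c0 (deriv σ) h) ζ * (k (z - ζ) * d 1 u ζ)) -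
      h' * (∫ ζ, d 1 (c1 (deriv σ) h') ζ * (k (z - ζ) * d 1 u ζ * c0 θ h ζ)) := by
    rw [integral_congr_ae (Eventually.of_forall hid), integral_sub (i0.const_mul _)
      (i1.const_mul _), integral_const_mul, integral_const_mul]
  rw [hint]
  refine (abs_sub _ _).trans ?_
  rw [abs_mul ((3 + ϵ) / 4 * h), abs_mul h', abs_of_nonneg (by positivity : 0 ≤ (3 + ϵ) / 4 * h),
    abs_of_nonneg hh'.le]
  have f0 : (3 + ϵ) / 4 * h * |∫ ζ, d 0 (c0 (deriv σ) h) ζ * (k (z - ζ) * d 1 u ζ)| ≤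
      h * (C * (I0 + A)) := by
    refine mul_le_mul ?_ e0 (abs_nonneg _) hh.le
    nlinarith
  have f1 : h' * |∫ ζ, d 1 (c1 (deriv σ) h') ζ * (k (z - ζ) * d 1 u ζ * c0 θ h ζ)| ≤
      h' * (C * (I1 + A)) := mul_le_mul_of_nonneg_left e1 hh'.le
  have g1' : h * (C * (I0 + A)) ≤ h * (C * (I0 + I1 + A)) := by
    refine mul_le_mul_of_nonneg_left ?_ hh.le
    refine mul_le_mul_of_nonneg_left ?_ hC0
    linarith
  have g2' : h' * (C * (I1 + A)) ≤ h' * (C * (I0 + I1 + A)) := by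
    refine mul_le_mul_of_nonneg_left ?_ hh'.le
    refine mul_le_mul_of_nonneg_left ?_ hC0
    linarith
  calc _ ≤ h * (C * (I0 + I1 + A)) + h' * (C * (I0 + I1 + A)) := by linarith
    _ = C * (I0 + I1 + A) * (h + h') := by ring

end Pool.Agent.GNS
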