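import Pool.Agent.GNS.T3

/-!
# GNS: target B4P, the coefficient functionals
-/

set_option autoImplicit false

open Metric Set Filter Topology MeasureTheory

noncomputable section

namespace Pool.Agent.GNS

open Pool.Agent.GLB

namespace B4P_

variable {m : ℕ}

theorem norm_eb (i : Fin m) : ‖(eb i : E m)‖ = 1 := by
  simp [eb]

theorem norm_kv (hCHT : T_CHT) (κ : E m) (c : ℝ) : ‖kv κ c‖ ≤ ‖κ‖ + |c| := by
  have h1 : ‖kv κ 0‖ = ‖κ‖ := by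
    have h2 := (hCHT m).2.2.2.2.2.2.2.2.2.2.1 (kv κ 0)
    have h3 : ‖κ‖ ^ 2 = ∑ i : Fin m, κ i ^ 2 := by
      rw [EuclideanSpace.norm_sq_eq]
      exact Finset.sum_congr rfl fun i _ => by rw [Real.norm_eq_abs, sq_abs]
    have h4 : ∀ i : Fin m, (kv κ 0) i.castSucc = κ i := by
      intro i
      simp [kv]
    have h5 : hgt (kv κ 0) = 0 := by
      simp [kv, hgt]
    rw [h5] at h2
    simp only [h4] at h2
    rw [← h3] at h2
    have h6 : ‖kv κ 0‖ ^ 2 = ‖κ‖ ^ 2 := by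
      rw [h2]
      ring
    exact (pow_left_inj₀ (norm_nonneg _) (norm_nonneg _) two_ne_zero).1 h6
  have h2 := (hCHT m).2.2.2.2.2.2.2.2.2.1 κ c 0
  rw [sub_zero] at h2
  calc ‖kv κ c‖ = ‖kv κ 0 + (kv κ c - kv κ 0)‖ := by
        congr 1
        abel
    _ ≤ ‖kv κ 0‖ + ‖kv κ c - kv κ 0‖ := norm_add_le _ _
    _ = ‖κ‖ + |c| := by rw [h1, h2]

theorem supp_Zq (hCHT : T_CHT) (hRDG : T_RDG) (ν : E m) (hν : ‖ν‖ ≤ 2) (v : E (m + 1)) :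
    supp (Zq ν) v ≤ 240 * ‖v‖ := by
  have hZ := (hRDG m ν 10 (fun _ => 1) (by norm_num) continuous_const
    (fun _ => zero_le_one)).1 v
  show supp (Zr ν 10 fun _ => 1) v ≤ 240 * ‖v‖
  rw [hZ]
  have hc : Continuous fun c : ℝ => (1 : ℝ) * max 0 (inner ℝ (kv ν c) v) := by
    have h1 : Continuous fun c : ℝ => kv ν c := (hCHT m).2.2.2.2.2.2.2.2.1 ν
    exact continuous_const.mul (continuous_const.max (h1.inner continuous_const))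
  have h2 : ∫ c in (-10 : ℝ)..10, (1 : ℝ) * max 0 (inner ℝ (kv ν c) v) ≤
      ∫ _ in (-10 : ℝ)..10, 12 * ‖v‖ := by
    refine intervalIntegral.integral_mono_on (by norm_num) (hc.intervalIntegrable _ _)
      (continuous_const.intervalIntegrable _ _) fun c hcc => ?_
    rw [one_mul]
    refine max_le (by positivity) ((real_inner_le_norm _ _).trans ?_)
    refine mul_le_mul_of_nonneg_right ((norm_kv hCHT ν c).trans ?_) (norm_nonneg v)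
    have h3 : |c| ≤ 10 := abs_le.2 ⟨hcc.1, hcc.2⟩
    linarith
  refine h2.trans (le_of_eq ?_)
  rw [intervalIntegral.integral_const, smul_eq_mul]
  ring

theorem FF_symm (Ψ : ConvexBody (E (m + 1)) → (C(S (m + 1), ℂ) →L[ℂ] ℂ))
    (φ : C(S (m + 1), ℂ)) (K L : ConvexBody (E (m + 1))) : FF Ψ φ K L = FF Ψ φ L K := by
  unfold FF
  rw [(gCTA (m + 1)).2.2.2.2.1 K L]
  ring

theorem FF_add (Ψ : ConvexBody (E (m + 1)) → (C(S (m + 1), ℂ) →L[ℂ] ℂ))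
    (φ ψ : C(S (m + 1), ℂ)) (K L : ConvexBody (E (m + 1))) :
    FF Ψ (φ + ψ) K L = FF Ψ φ K L + FF Ψ ψ K L := by
  unfold FF
  rw [map_add, map_add, map_add]
  ring

theorem FF_smul (Ψ : ConvexBody (E (m + 1)) → (C(S (m + 1), ℂ) →L[ℂ] ℂ)) (c : ℂ)
    (φ : C(S (m + 1), ℂ)) (K L : ConvexBody (E (m + 1))) :
    FF Ψ (c • φ) K L = c * FF Ψ φ K L := by
  unfold FF
  rw [map_smul, map_smul, map_smul, smul_eq_mul, smul_eq_mul, smul_eq_mul]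
  ring

theorem PB_nonneg {Ψ : ConvexBody (E (m + 1)) → (C(S (m + 1), ℂ) →L[ℂ] ℂ)} {C : ℝ}
    (h : PB Ψ C) : 0 ≤ C := by
  have hne : Nonempty (S (m + 1)) :=
    ⟨⟨(eb (0 : Fin (m + 1)) : E (m + 1)), by rw [mem_sphere_zero_iff_norm]; exact norm_eb 0⟩⟩
  have h1 := h (pt 0) (by
    intro x hx
    have h2 : x = 0 := hx
    rw [h2]
    exact mem_closedBall_self zero_le_one) 1
  have h3 : ‖(1 : C(S (m + 1), ℂ))‖ = 1 := norm_one
  rw [h3, mul_one] at h1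
  exact (norm_nonneg _).trans h1

theorem norm_pm (i j : Fin m) : ‖(eb i + eb j : E m)‖ ≤ 2 ∧ ‖(eb i - eb j : E m)‖ ≤ 2 := by
  have h1 := norm_add_le (eb i : E m) (eb j)
  have h2 := norm_sub_le (eb i : E m) (eb j)
  rw [norm_eb, norm_eb] at h1 h2
  constructor <;> linarith

theorem FF_le (hCHT : T_CHT) (hRDG : T_RDG) (hPBR : T_PBR)
    {Ψ : ConvexBody (E (m + 1)) → (C(S (m + 1), ℂ) →L[ℂ] ℂ)} (hΨ : IsArea (m + 1) 2 Ψ)
    {C M : ℝ} (h : PB Ψ C) (φ : C(S (m + 1), ℂ)) (hφ : ‖φ‖ ≤ M) (ν μ : E m) (hν : ‖ν‖ ≤ 2)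
    (hμ : ‖μ‖ ≤ 2) : ‖FF Ψ φ (Zq ν) (Zq μ)‖ ≤ 345600 * C * M := by
  have hC := PB_nonneg h
  have s1 : ((Zq ν : ConvexBody (E (m + 1))) : Set (E (m + 1))) ⊆ closedBall 0 240 :=
    (gSUL (m + 1) (Zq ν) (Zq ν)).2.2 240 (by norm_num) (supp_Zq hCHT hRDG ν hν)
  have s2 : ((Zq μ : ConvexBody (E (m + 1))) : Set (E (m + 1))) ⊆ closedBall 0 240 :=
    (gSUL (m + 1) (Zq μ) (Zq μ)).2.2 240 (by norm_num) (supp_Zq hCHT hRDG μ hμ)
  have s3 : ((Zq ν + Zq μ : ConvexBody (E (m + 1))) : Set (E (m + 1))) ⊆ closedBall 0 480 :=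
    (gSUL (m + 1) (Zq ν + Zq μ) (Zq μ)).2.2 480 (by norm_num) fun u => by
      rw [(gSUA (m + 1)).2.2.1]
      linarith [supp_Zq hCHT hRDG ν hν u, supp_Zq hCHT hRDG μ hμ u]
  have t1 := hPBR m Ψ hΨ C h 240 (by norm_num) _ s1 φ
  have t2 := hPBR m Ψ hΨ C h 240 (by norm_num) _ s2 φ
  have t3 := hPBR m Ψ hΨ C h 480 (by norm_num) _ s3 φ
  have t4 : C * ‖φ‖ ≤ C * M := mul_le_mul_of_nonneg_left hφ hC
  unfold FF
  calc ‖Ψ (Zq ν + Zq μ) φ - Ψ (Zq ν) φ - Ψ (Zq μ) φ‖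
      ≤ ‖Ψ (Zq ν + Zq μ) φ‖ + ‖Ψ (Zq ν) φ‖ + ‖Ψ (Zq μ) φ‖ :=
        (norm_sub_le _ _).trans (by
          gcongr
          exact norm_sub_le _ _)
    _ ≤ 480 ^ 2 * C * ‖φ‖ + 240 ^ 2 * C * ‖φ‖ + 240 ^ 2 * C * ‖φ‖ := by linarith
    _ = 345600 * (C * ‖φ‖) := by ring
    _ ≤ 345600 * (C * M) := by linarith
    _ = 345600 * C * M := by ring

end B4P_

open B4P_

theorem p_B4P (hCHT : T_CHT) (hHAT : T_HAT) (hRDG : T_RDG) (hPBR : T_PBR) : T_B4P := by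
  refine ⟨43200, by norm_num, ?_⟩
  intro m Ψ hΨ R φ ψ hφ hψ i j k l
  have hh := hHAT m R φ ψ hφ hψ
  refine ⟨?_, ?_, ?_, ?_⟩
  · unfold B4
    rw [hh.2.2.1]
    simp only [FF_add]
    ring
  · intro c
    unfold B4
    rw [hh.2.2.2.1 c]
    simp only [FF_smul]
    ring
  · unfold B4
    rw [FF_symm Ψ (HC φ) (Zq (eb k + eb l)) (Zq (eb i + eb j)),
      FF_symm Ψ (HC φ) (Zq (eb k + eb l)) (Zq (eb i - eb j)),
      FF_symm Ψ (HC φ) (Zq (eb k - eb l)) (Zq (eb i + eb j)),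
      FF_symm Ψ (HC φ) (Zq (eb k - eb l)) (Zq (eb i - eb j))]
    ring
  · intro C' M hC' hM hb
    have hn := hh.2.2.2.2 M hM hb
    have e := fun ν μ hν hμ => FF_le hCHT hRDG hPBR hΨ hC' (HC φ) hn ν μ hν hμ
    have e1 := e _ _ (norm_pm i j).1 (norm_pm k l).1
    have e2 := e _ _ (norm_pm i j).1 (norm_pm k l).2
    have e3 := e _ _ (norm_pm i j).2 (norm_pm k l).1
    have e4 := e _ _ (norm_pm i j).2 (norm_pm k l).2
    unfold B4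
    rw [norm_mul]
    have h32 : ‖(1 / 32 : ℂ)‖ = 1 / 32 := by
      rw [norm_div, norm_one]
      norm_num
    rw [h32]
    have e5 := norm_add_le (FF Ψ (HC φ) (Zq (eb i + eb j)) (Zq (eb k + eb l)) -
      FF Ψ (HC φ) (Zq (eb i + eb j)) (Zq (eb k - eb l)) -
      FF Ψ (HC φ) (Zq (eb i - eb j)) (Zq (eb k + eb l)))
      (FF Ψ (HC φ) (Zq (eb i - eb j)) (Zq (eb k - eb l)))
    have e6 := norm_sub_le (FF Ψ (HC φ) (Zq (eb i + eb j)) (Zq (eb k + eb l)) -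
      FF Ψ (HC φ) (Zq (eb i + eb j)) (Zq (eb k - eb l)))
      (FF Ψ (HC φ) (Zq (eb i - eb j)) (Zq (eb k + eb l)))
    have e7 := norm_sub_le (FF Ψ (HC φ) (Zq (eb i + eb j)) (Zq (eb k + eb l)))
      (FF Ψ (HC φ) (Zq (eb i + eb j)) (Zq (eb k - eb l)))
    linarith

end Pool.Agent.GNS
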