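import Pool.Agent.GNS.T2

/-!
# GNS: the initial state
-/

set_option autoImplicit false

open Metric Set Filter Topology MeasureTheory

noncomputable section

namespace Pool.Agent.GNS

theorem BAS_smx : Sm fun z => z.1.1 := by
  unfold Sm
  fun_prop

theorem BAS_smy : Sm fun z => z.1.2 := by
  unfold Sm
  fun_prop

theorem BAS_smq : Sm q1 := by
  unfold Sm q1
  fun_prop

theorem BAS_dx (i : Fin 4) (z : V) : d i (fun z => z.1.1) z = (e i).1.1 := by
  have h : HasFDerivAt (fun z : V => z.1.1)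
      ((ContinuousLinearMap.fst ℝ ℝ ℝ).comp (ContinuousLinearMap.fst ℝ X2 X2)) z :=
    ((ContinuousLinearMap.fst ℝ ℝ ℝ).comp (ContinuousLinearMap.fst ℝ X2 X2)).hasFDerivAt
  unfold d
  rw [h.fderiv]
  rfl

theorem BAS_dy (i : Fin 4) (z : V) : d i (fun z => z.1.2) z = (e i).1.2 := by
  have h : HasFDerivAt (fun z : V => z.1.2)
      ((ContinuousLinearMap.snd ℝ ℝ ℝ).comp (ContinuousLinearMap.fst ℝ X2 X2)) z :=
    ((ContinuousLinearMap.snd ℝ ℝ ℝ).comp (ContinuousLinearMap.fst ℝ X2 X2)).hasFDerivAt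
  unfold d
  rw [h.fderiv]
  rfl

theorem BAS_dq (i : Fin 4) (z : V) :
    d i q1 z = (e i).1.1 * z.1.1 + (e i).1.2 * z.1.2 := by
  have h1 : q1 = fun z => (1 / 2) * (z.1.1 * z.1.1 + z.1.2 * z.1.2) := by
    funext z
    unfold q1
    ring
  have h2 : Sm fun z : V => z.1.1 * z.1.1 := BAS_smx.mul BAS_smx
  have h3 : Sm fun z : V => z.1.2 * z.1.2 := BAS_smy.mul BAS_smy
  rw [h1, d_cmul (h2.add h3), d_add h2 h3, d_mul BAS_smx BAS_smx, d_mul BAS_smy BAS_smy,
    BAS_dx, BAS_dy]
  ring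

theorem BAS_d0 : d 0 q1 = fun z => z.1.1 := by
  funext z
  rw [BAS_dq]
  simp [e]

theorem BAS_d1 : d 1 q1 = fun z => z.1.2 := by
  funext z
  rw [BAS_dq]
  simp [e]

theorem BAS_d00 (z : V) : d 0 (d 0 q1) z = 1 := by
  rw [BAS_d0, BAS_dx]
  simp [e]

theorem BAS_d01 (z : V) : d 0 (d 1 q1) z = 0 := by
  rw [BAS_d1, BAS_dy]
  simp [e]

theorem BAS_d11 (z : V) : d 1 (d 1 q1) z = 1 := by
  rw [BAS_d1, BAS_dy]
  simp [e]

theorem BAS_dz (i : Fin 4) : d i (fun _ => 0) = fun _ => 0 := by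
  funext z
  exact d_const i 0 z

theorem p_BAS : T_BAS := by
  intro N κ ζ0 ζ1 hcut hN hκ
  have hN0 : (0 : ℝ) < Real.sqrt N := by
    apply Real.sqrt_pos.2
    exact_mod_cast (by omega : 0 < N)
  refine ⟨?_, ?_, ?_, ?_, ?_, ?_⟩
  · exact
      { smβ := Sm.const 1
        smF1 := Sm.const 0
        smF2 := Sm.const 0
        smU := Sm.const 0
        smΦ := BAS_smq
        smΞ := Sm.const 0
        smE := Sm.const 0
        smA := Sm.const 0
        smM1 := Sm.const 0
        smM2 := Sm.const 0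
        smM3 := Sm.const 0
        smb := Sm.const 0
        xβ := fun _ _ _ => rfl
        xF1 := fun _ _ _ => rfl
        xF2 := fun _ _ _ => rfl
        xU := fun _ _ _ => rfl
        xΦ := fun z z' h => by
          change q1 z = q1 z'
          unfold q1
          rw [h]
        xΞ := fun _ _ _ => rfl
        nβ := fun _ => zero_le_one
        lβ := fun _ => le_refl _
        nF1 := fun _ => le_refl _
        nF2 := fun _ => le_refl _
        nU := fun _ => le_refl _
        bb := fun z => by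
          change |(0 : ℝ)| ≤ 4 ^ 0
          norm_num
        ob := fun _ _ => rfl }
  · exact
      { bM2 := fun z => by
          change |(0 : ℝ)| ≤ 0 / Real.sqrt N
          simp
        bM3 := fun z => by
          change |(0 : ℝ)| ≤ 2 ^ 0 / Real.sqrt N
          rw [abs_zero]
          positivity
        bM3' := fun z => by
          change (0 : ℝ) ^ 2 ≤ 3 * 0 / N
          simp
        bA := fun z => by
          change |(0 : ℝ)| ≤ 3 * 8 ^ 0 * 1 ^ 2 / Real.sqrt N
          rw [abs_zero]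
          positivity
        bM1 := fun z => by
          change |(0 : ℝ)| ≤ 12 * 0 * Real.sqrt 0 / Real.sqrt N
          simp
        bU := fun z => by
          change (0 : ℝ) ≤ 2 * (0 + 0) + 4 ^ 0 * 1 / 2
          norm_num }
  · exact
      { phi := fun z _ a b => by
          change (0 + 4 ^ 0 * 1) * a ^ 2 + (0 + 4 ^ 0 * 1) * b ^ 2 -
            ((0 : ℕ) : ℝ) * κ * (a ^ 2 + b ^ 2) ≤
            a ^ 2 * d 0 (d 0 q1) z + 2 * a * b * d 0 (d 1 q1) z + b ^ 2 * d 1 (d 1 q1) z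
          rw [BAS_d00, BAS_d01, BAS_d11]
          simp
        phi0 := fun z _ => by
          change |q1 z - q1 z| ≤ ((0 : ℕ) : ℝ) * κ
          simp
        phi1 := fun z _ i => by
          change |d i q1 z - d i q1 z| ≤ ((0 : ℕ) : ℝ) * κ
          simp
        xi := fun z _ a b => by
          change (0 / (N : ℝ) - ((0 : ℕ) : ℝ) * (1 + ((0 : ℕ) : ℝ) * κ) / N) *
            (a ^ 2 + b ^ 2) ≤
            a ^ 2 * d 0 (d 0 fun _ => 0) z + 2 * a * b * d 0 (d 1 fun _ => 0) z +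
              b ^ 2 * d 1 (d 1 fun _ => 0) z
          simp [BAS_dz]
        xi0 := fun z _ => by
          change |(0 : ℝ)| ≤ ((0 : ℕ) : ℝ) * (((0 : ℕ) : ℝ) * κ) / N
          simp
        xi1 := fun z _ i => by
          change |d i (fun _ => 0) z| ≤ ((0 : ℕ) : ℝ) * (((0 : ℕ) : ℝ) * κ) / N
          simp [BAS_dz] }
  · exact
      { e0 := fun z _ => by
          change |(0 : ℝ)| ≤ ((0 : ℕ) : ℝ) * κ
          simp
        e1 := fun z _ i => by
          change |d i (fun _ => 0) z| ≤ ((0 : ℕ) : ℝ) * κ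
          simp [BAS_dz]
        e00 := fun z _ => by
          change |d 0 (d 0 fun _ => 0) z - (0 + 0)| ≤ ((0 : ℕ) : ℝ) * κ
          simp [BAS_dz]
        e02 := fun z _ => by
          change |d 0 (d 2 fun _ => 0) z - 0| ≤ ((0 : ℕ) : ℝ) * κ
          simp [BAS_dz]
        e22 := fun z _ => by
          change |d 2 (d 2 fun _ => 0) z - 0| ≤ ((0 : ℕ) : ℝ) * κ
          simp [BAS_dz]
        eo := fun z _ i k _ => by
          change |d i (d k fun _ => 0) z| ≤ ((0 : ℕ) : ℝ) * κ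
          simp [BAS_dz] }
  · intro w _
    change |∫ z, 0 * T12 w z| ≤
      16 * (∫ z, ζ1 z * (0 * SS 0 w z + 0 * SS 1 w z)) + ((0 : ℕ) : ℝ) * κ
    simp
  · exact
      { mass := by
          change (1 - 1 / (N : ℝ)) ^ (2 * 0) * (∫ z, ζ0 z) - ((0 : ℕ) : ℝ) * κ ≤
            16 ^ 0 * ∫ z, (1 : ℝ) ^ 3 * ζ0 z
          simp
        pay := by
          change ((0 : ℕ) : ℝ) * ((1 - 1 / (N : ℝ)) ^ (2 * N) * (∫ z, ζ0 z) / 2 - N * κ) /
            Real.sqrt N - ((0 : ℕ) : ℝ) * κ ≤ ∫ z : V, (0 : ℝ) * 0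
          simp }

end Pool.Agent.GNS
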