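import Pool.Agent.GNS.T3

/-!
# GNS: continuity of the form BB (target BBC)
-/

set_option autoImplicit false

open Metric Set Filter Topology MeasureTheory

noncomputable section

namespace Pool.Agent.GNS

open Pool.Agent.GLB

namespace BBC_

theorem bdd {m : ℕ} {X : Type} [NormedAddCommGroup X] {g : E m → X} (hg : Continuous g) :
    ∃ M : ℝ, 0 ≤ M ∧ ∀ x, ‖x‖ ≤ 4 → ‖g x‖ ≤ M := by
  obtain ⟨M, hM⟩ := (isCompact_closedBall (0 : E m) 4).exists_bound_of_continuousOn
    hg.continuousOn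
  refine ⟨max M 0, le_max_right _ _, fun x hx => (hM x ?_).trans (le_max_left _ _)⟩
  rw [mem_closedBall, dist_zero_right]
  exact hx

theorem tf {m : ℕ} {φ : E m → ℂ} (hφ : Tf 4 φ) {a b : E m → ℝ} (ha : Continuous a)
    (hb : Continuous b) : Tf 4 (fun x => φ x * (a x : ℂ) * (b x : ℂ)) where
  cont := (hφ.cont.mul (Complex.continuous_ofReal.comp ha)).mul
    (Complex.continuous_ofReal.comp hb)
  out := by
    intro x hx
    simp [hφ.out x hx]

theorem tf_cmul {m : ℕ} {φ : E m → ℂ} (hφ : Tf 4 φ) (c : ℂ) : Tf 4 (fun x => c * φ x) where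
  cont := continuous_const.mul hφ.cont
  out := by
    intro x hx
    simp [hφ.out x hx]

theorem tf_add {m : ℕ} {φ ψ : E m → ℂ} (hφ : Tf 4 φ) (hψ : Tf 4 ψ) :
    Tf 4 (fun x => φ x + ψ x) where
  cont := hφ.cont.add hψ.cont
  out := by
    intro x hx
    simp [hφ.out x hx, hψ.out x hx]

end BBC_

theorem p_BBC (hB4P : T_B4P) (hPBE : T_PBE) : T_BBC := by
  intro m Ψ hΨ φ hφ An A hAn hA hconv
  obtain ⟨C, hC0, hC⟩ := hB4P
  obtain ⟨C', hC'0, hC'⟩ := hPBE m 2 Ψ hΨ
  obtain ⟨Mφ, hMφ0, hMφ⟩ := BBC_.bdd hφ.cont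
  unfold BB
  refine tendsto_finsetSum _ fun i _ => tendsto_finsetSum _ fun j _ =>
    tendsto_finsetSum _ fun k _ => tendsto_finsetSum _ fun l _ => ?_
  obtain ⟨K1, hK10, hK1⟩ := BBC_.bdd (hA i j)
  obtain ⟨K2, hK20, hK2⟩ := BBC_.bdd (hA k l)
  rw [Metric.tendsto_nhds]
  intro ε hε
  set B : ℝ := C * C' * (Mφ * (K1 + K2 + 1)) with hB
  have hB0 : 0 ≤ B := by positivity
  set δ : ℝ := min 1 (ε / (B + 1) / 2) with hδ
  have hδ0 : 0 < δ := by positivity
  have hδ1 : δ ≤ 1 := min_le_left _ _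
  have hδ2 : B * δ < ε := by
    have h1 : δ ≤ ε / (B + 1) / 2 := min_le_right _ _
    have h2 : B * δ ≤ (B + 1) * (ε / (B + 1) / 2) :=
      mul_le_mul (by linarith) h1 hδ0.le (by linarith)
    have h3 : (B + 1) * (ε / (B + 1) / 2) = ε / 2 := by
      field_simp
    linarith
  filter_upwards [hconv δ hδ0] with n hn
  have hF := BBC_.tf hφ (hA i j) (hA k l)
  have hFn := BBC_.tf hφ (hAn n i j) (hAn n k l)
  have hF' := BBC_.tf_cmul hF (-1)
  have hG := BBC_.tf_add hFn hF'
  have e1 := (hC m Ψ hΨ 4 _ _ hFn hF' i j k l).1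
  have e2 := (hC m Ψ hΨ 4 _ _ hF hF i j k l).2.1 (-1)
  have e3 := (hC m Ψ hΨ 4 _ _ hG hG i j k l).2.2.2 C' (Mφ * (K1 + K2 + 1) * δ) hC'
    (by positivity) ?_
  · rw [dist_eq_norm]
    rw [e1, e2] at e3
    have e4 : B4 Ψ i j k l (fun x => φ x * (An n x i j : ℂ) * (An n x k l : ℂ)) -
        B4 Ψ i j k l (fun x => φ x * (A x i j : ℂ) * (A x k l : ℂ)) =
        B4 Ψ i j k l (fun x => φ x * (An n x i j : ℂ) * (An n x k l : ℂ)) +
        -1 * B4 Ψ i j k l (fun x => φ x * (A x i j : ℂ) * (A x k l : ℂ)) := by ring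
    rw [e4]
    refine e3.trans_lt ?_
    have e5 : C * C' * (Mφ * (K1 + K2 + 1) * δ) = B * δ := by
      rw [hB]
      ring
    rw [e5]
    exact hδ2
  · intro x
    rcases le_or_gt 4 ‖x‖ with hx | hx
    · rw [hG.out x hx, norm_zero]
      positivity
    · have a1 := hn x hx.le i j
      have a2 := hn x hx.le k l
      have b1 := hK1 x hx.le
      have b2 := hK2 x hx.le
      have b3 := hMφ x hx.le
      rw [Real.norm_eq_abs] at b1 b2
      have key : φ x * (An n x i j : ℂ) * (An n x k l : ℂ) +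
          -1 * (φ x * (A x i j : ℂ) * (A x k l : ℂ)) =
          φ x * ((An n x i j * An n x k l - A x i j * A x k l : ℝ) : ℂ) := by
        push_cast
        ring
      rw [key, norm_mul, Complex.norm_real, Real.norm_eq_abs, mul_assoc]
      refine mul_le_mul b3 ?_ (abs_nonneg _) hMφ0
      have e : An n x i j * An n x k l - A x i j * A x k l =
          (An n x i j - A x i j) * (An n x k l - A x k l) +
          (An n x i j - A x i j) * A x k l + A x i j * (An n x k l - A x k l) := by ring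
      rw [e]
      have c1 : |(An n x i j - A x i j) * (An n x k l - A x k l)| ≤ δ * 1 := by
        rw [abs_mul]
        exact mul_le_mul a1 (a2.trans hδ1) (abs_nonneg _) hδ0.le
      have c2 : |(An n x i j - A x i j) * A x k l| ≤ δ * K2 := by
        rw [abs_mul]
        exact mul_le_mul a1 b2 (abs_nonneg _) hδ0.le
      have c3 : |A x i j * (An n x k l - A x k l)| ≤ K1 * δ := by
        rw [abs_mul]
        exact mul_le_mul b1 a2 (abs_nonneg _) hK10
      have c4 := abs_add_le ((An n x i j - A x i j) * (An n x k l - A x k l) +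
          (An n x i j - A x i j) * A x k l) (A x i j * (An n x k l - A x k l))
      have c5 := abs_add_le ((An n x i j - A x i j) * (An n x k l - A x k l))
          ((An n x i j - A x i j) * A x k l)
      nlinarith

end Pool.Agent.GNS
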