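import Pool.Agent.GNS.Gl

/-!
# GNS: targets 4, the valuations, the two evaluations of the four-term combination, conclusion

Facts on support functions are in `Pool.Agent.GNS.Gl` (`gSUA`, `gSUH`, `gSUD`, `gSUL`, `gCTA`).
In most targets the bodies are in `E (k + 4 + 1)`, `wK K z = supp K (up (inj z))`, `z : V`.
-/

set_option autoImplicit false

open Metric Set Filter Topology MeasureTheory

noncomputable section

namespace Pool.Agent.GNS

open Pool.Agent.GLB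

/-! ### The valuations -/

/-- SUV. Support functions of unions and intersections. The first is clear. `supp N ≤ min` is
clear. Conversely let `x ∈ K`, `y ∈ L` be the maximisers for `u` (`gSUA`). The segment `[x, y]` is
contained in `M = K ∪ L`; it is connected (`isPreconnected_segment` or the preimages in `[0, 1]`)
and the two closed sets `K`, `L` cover it and meet it, so it contains a point `p` of `K ∩ L = N`,
and `⟨p, u⟩ ≥ min(⟨x, u⟩, ⟨y, u⟩)` since `p` is a convex combination of `x` and `y`. -/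
def T_SUV : Prop := ∀ (n : ℕ) (K L M N : ConvexBody (E n)),
  (M : Set (E n)) = (K : Set (E n)) ∪ L → (N : Set (E n)) = (K : Set (E n)) ∩ L → ∀ u,
  supp M u = max (supp K u) (supp L u) ∧ supp N u = min (supp K u) (supp L u)

/-- WKL. Basic facts on `wK` (`gSUA`, `gSUH`, `gSUD`): `z ↦ up (inj z)` is affine,
`up (inj (z + t e_i)) - up (inj z) = t (eb i, 0)` has norm `|t|`; `‖up (inj z)‖ ≤ 1 + 2 ‖z‖`.
Differentiable almost everywhere: Rademacher (`LipschitzWith.ae_differentiableAt`; the instances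
for `V` are in `Lib`). `|d i w z| ≤ R`: if `w` is differentiable at `z` by the line estimate,
otherwise `d i w z = 0`. -/
def T_WKL : Prop := ∀ k : ℕ,
  (∀ K : ConvexBody (E (k + 4 + 1)), ConvexOn ℝ univ (wK K) ∧ Continuous (wK K) ∧
    ∀ᵐ z, DifferentiableAt ℝ (wK K) z) ∧
  (∀ (K : ConvexBody (E (k + 4 + 1))) (R : ℝ), 0 ≤ R → (K : Set (E (k + 4 + 1))) ⊆ closedBall 0 R →
    (∀ z z', |wK K z - wK K z'| ≤ 4 * R * ‖z - z'‖) ∧
    (∀ (z : V) (t : ℝ) (i : Fin 4), |wK K (z + t • e i) - wK K z| ≤ R * |t|) ∧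
    ∀ z i, |d i (wK K) z| ≤ R) ∧
  (∀ (K L : ConvexBody (E (k + 4 + 1))) (z : V),
    |wK K z - wK L z| ≤ dist K L * (1 + 2 * ‖z‖)) ∧
  (∀ (K : ConvexBody (E (k + 4 + 1))) (a : E (k + 4 + 1)), ∃ (ℓ : V →L[ℝ] ℝ) (c : ℝ), ∀ z,
    wK (K + pt a) z = wK K z + ℓ z + c) ∧
  ∀ (K : ConvexBody (E (k + 4 + 1))) (t : ℝ), 0 ≤ t → ∀ z, wK (t • K) z = t * wK K z

/-- GCV. Convergence of gradients of convex functions. For `t > 0`,
`d i (f n) z ≤ (f n (z + t e_i) - f n z)/t` (convexity), so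
`limsup d i (f n) z ≤ (g (z + t e_i) - g z)/t`, which tends to `d i g z` for `t → 0`; below with
`t < 0`. -/
def T_GCV : Prop := ∀ (f : ℕ → V → ℝ) (g : V → ℝ) (z : V), (∀ n, ConvexOn ℝ univ (f n)) →
  (∀ z', Tendsto (fun n => f n z') atTop (𝓝 (g z'))) → DifferentiableAt ℝ g z →
  (∀ n, DifferentiableAt ℝ (f n) z) → ∀ i,
  Tendsto (fun n => d i (f n) z) atTop (𝓝 (d i g z))

/-- QCV (from GCV). Dominated convergence (`tendsto_integral_of_dominated_convergence`). The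
functions `d i (f n)` are measurable (`measurable_fderiv_apply_const`). -/
def T_QCV : Prop := ∀ (b : V → ℝ), Sm b → HasCompactSupport b → ∀ (f : ℕ → V → ℝ) (g : V → ℝ)
  (R : ℝ), (∀ n, ConvexOn ℝ univ (f n)) → (∀ z', Tendsto (fun n => f n z') atTop (𝓝 (g z'))) →
  (∀ᵐ z, DifferentiableAt ℝ g z) → (∀ n, ∀ᵐ z, DifferentiableAt ℝ (f n) z) →
  (∀ n z i, |d i (f n) z| ≤ R) → Tendsto (fun n => Qb b (f n)) atTop (𝓝 (Qb b g))

/-- IBL. Integration by parts with a Lipschitz function (Mathlib: `Mathlib.Analysis.Calculus.`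
`Rademacher`, `LipschitzWith.integral_lineDeriv_mul_eq`; at points of differentiability
`lineDeriv ℝ w z v = fderiv ℝ w z v`; a smooth function of compact support is Lipschitz). -/
def T_IBL : Prop := ∀ (w g : V → ℝ) (R : ℝ), (∀ z z', |w z - w z'| ≤ R * ‖z - z'‖) → Sm g →
  HasCompactSupport g → ∀ i, ∫ z, d i w z * g z = -∫ z, w z * d i g z

/-- QTI (from IBL). Invariance under affine functions: with `W z = w z + ℓ z + c`,
`d i W = d i w + ℓ (e i)` almost everywhere. `Qb b W - Qb b w` consists of the terms linear in `w`: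
the coefficient of `ℓ (e 3)` is `-(1/2) ∫ (b_02 w_1 - b_12 w_0) = (1/2) ∫ (b_021 - b_120) w = 0`,
that of `ℓ (e 1)` is `-(1/2) ∫ (b_02 w_3 - b_03 w_2) = 0`, of `ℓ (e 0)`
`-(1/2) ∫ (-b_12 w_3 + b_13 w_2) = 0`, of `ℓ (e 2)` `-(1/2) ∫ (-b_03 w_1 + b_13 w_0) = 0`; the
quadratic terms in `ℓ` are constants times `∫ b_ij = 0` (`d_ibp` with the constant `1`). -/
def T_QTI : Prop := ∀ (b w : V → ℝ) (R : ℝ), Sm b → HasCompactSupport b →
  (∀ z z', |w z - w z'| ≤ R * ‖z - z'‖) → ∀ (ℓ : V →L[ℝ] ℝ) (c : ℝ),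
  Qb b (fun z => w z + ℓ z + c) = Qb b w

/-- QVA. The valuation property. Almost every `z` is a point of differentiability of all four
functions. If `p z > q z`, then near `z` `P = p`, `Q = q`, so `d i P z = d i p z`,
`d i Q z = d i q z`; symmetric for `p z < q z`. If `p z = q z`, then `P - p ≥ 0` with a minimum
at `z`, so `d i P z = d i p z`, in the same way `d i P z = d i q z` and `d i Q z = d i p z`. In all
cases the integrands add up. (All `d i` are bounded and measurable, the second derivatives of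
`b` are continuous with compact support, so everything is integrable.) -/
def T_QVA : Prop := ∀ (b : V → ℝ), Sm b → HasCompactSupport b → ∀ (p q P Q : V → ℝ) (R : ℝ),
  Continuous p → Continuous q → (∀ z, P z = max (p z) (q z)) → (∀ z, Q z = min (p z) (q z)) →
  (∀ᵐ z, DifferentiableAt ℝ p z) → (∀ᵐ z, DifferentiableAt ℝ q z) →
  (∀ᵐ z, DifferentiableAt ℝ P z) → (∀ᵐ z, DifferentiableAt ℝ Q z) →
  (∀ z i, |d i p z| ≤ R ∧ |d i q z| ≤ R ∧ |d i P z| ≤ R ∧ |d i Q z| ≤ R) →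
  Qb b P + Qb b Q = Qb b p + Qb b q

/-- MU1 (from SUV, WKL, QCV, QTI, QVA). `mu b` is in `Val_2`. Continuity: the space of bodies is
metric, so it is enough to treat sequences `K_n → K`; they are in a common ball (`gSUD`,
`gSUL`). A body is in some ball `closedBall 0 R` (`K.isBounded`). Homogeneity:
`d i (t w) = t d i w` (clear for `t = 0`; `fderiv_const_smul` or its version for fields). -/
def T_MU1 : Prop := ∀ (k : ℕ) (b : V → ℝ), Sm b → HasCompactSupport b →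
  IsVal (k + 4 + 1) 2 (mu (k := k) b)

/-- MU2 (from WKL, QCV, KER, CNV, WKF). Let `w = wK K`, `K` in the unit ball, and
`w_n = cv ρ_n w` with kernels of radius `1/(n+1)`. `w_n` is smooth (CNV), convex,
`|w_n (z + t e_i) - w_n z| ≤ |t|`, so `Wc w_n` and `|Qb b w_n| = |∫ b T12 w_n| ≤ C` (WKF). As
`|w_n - w| ≤ 4/(n+1)`, QCV gives `Qb b w_n → Qb b w`. -/
def T_MU2 : Prop := ∀ (k : ℕ) (b : V → ℝ) (C : ℝ), Sm b → HasCompactSupport b →
  (∀ w, Wc w → |∫ z, b z * T12 w z| ≤ C) → ∀ K : ConvexBody (E (k + 4 + 1)),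
  (K : Set (E (k + 4 + 1))) ⊆ closedBall 0 1 → ‖mu b K‖ ≤ C

/-! ### The four bodies -/

/-- the perturbation with two signs -/
def pm {m : ℕ} (s t : ℝ) (f1 f2 : E m → ℝ) (i j : Fin 2) (x : E m) : ℝ :=
  (-1) ^ (i : ℕ) * s * f1 x + (-1) ^ (j : ℕ) * t * f2 x

/-- LFS (from RTS, LFE). For small `s = t > 0` (`|D2 f_i x v v| ≤ B ‖v‖²` on `‖x‖ ≤ 4`,
`2 s B ≤ 1/300`) the second derivative of `rt + pm ..` is at least `‖v‖²/300`; the bodies exist
by LFE (near points with `4 < ‖x‖` the functions `f_i` vanish; RTS). -/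
def T_LFS : Prop := ∀ (m : ℕ) (f1 f2 : E m → ℝ), 1 ≤ m → SmE f1 → SmE f2 →
  (∀ x, 7 / 2 ≤ ‖x‖ → f1 x = 0 ∧ f2 x = 0) → ∃ s t : ℝ, 0 < s ∧ 0 < t ∧
  (∀ i j, Lc 1 (1 / 300) (pm s t f1 f2 i j)) ∧
  ∃ L : Fin 2 → Fin 2 → ConvexBody (E (m + 1)), ∀ i j, IsLf 1 (pm s t f1 f2 i j) (L i j)

/-- BBL (from B4P, HAT). `BB` is bilinear and symmetric on continuous matrix valued
functions. -/
def T_BBL : Prop := ∀ (m : ℕ) (Ψ : ConvexBody (E (m + 1)) → (C(S (m + 1), ℂ) →L[ℂ] ℂ)),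
  IsArea (m + 1) 2 Ψ → ∀ (R : ℝ) (ψ : E m → ℂ), Tf R ψ →
  ∀ A A' B : E m → Fin m → Fin m → ℝ, (∀ i j, Continuous fun x => A x i j) →
  (∀ i j, Continuous fun x => A' x i j) → (∀ i j, Continuous fun x => B x i j) →
  BB Ψ A B ψ = BB Ψ B A ψ ∧
  BB Ψ (fun x i j => A x i j + A' x i j) B ψ = BB Ψ A B ψ + BB Ψ A' B ψ ∧
  ∀ c : ℝ, BB Ψ (fun x i j => c * A x i j) B ψ = (c : ℂ) * BB Ψ A B ψ

/-- THP (from STR, BBL, HAT, CHT). Write `1 = HC ζ + (1 - HC ζ)`, `ζ = ζc`. The set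
`U = {v ∈ S | ‖(v_1, .., v_m)‖ > (7/2) hgt v}` is open and there all four support functions are
`‖v‖ = 1` (`hx` vanishes: either `hgt v ≤ 0` or `‖dn v‖ > 7/2`), while `1 - HC ζ` vanishes outside
`U` (there `hgt v > 0` and `‖dn v‖ ≤ 7/2`, `ζ = 1`). By `loc` the four values
`Ψ (L i j) (1 - HC ζ)` are equal and cancel. For `HC ζ` use STR: the second derivative of
`1 * rt + pm ..` is `W + (-1)^i s Hs f1 + (-1)^j t Hs f2` with `W = Hs rt`, and the four-term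
combination of the quadratic form `BB Ψ A A ζ` is `4 · 2 · s t BB Ψ (Hs f1) (Hs f2) ζ`. -/
def T_THP : Prop := ∀ (k : ℕ)
  (Ψ : ConvexBody (E (k + 4 + 1)) → (C(S (k + 4 + 1), ℂ) →L[ℂ] ℂ)),
  IsArea (k + 4 + 1) 2 Ψ → ∀ ζa ζb ζc : E (k + 4) → ℝ, Cut3 ζa ζb ζc →
  ∀ (f1 f2 : E (k + 4) → ℝ) (s t c : ℝ), SmE f1 → SmE f2 →
  (∀ x, 7 / 2 ≤ ‖x‖ → f1 x = 0 ∧ f2 x = 0) → (∀ i j, Lc 1 c (pm s t f1 f2 i j)) →
  ∀ L : Fin 2 → Fin 2 → ConvexBody (E (k + 4 + 1)), (∀ i j, IsLf 1 (pm s t f1 f2 i j) (L i j)) →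
  Th (fun K => Ψ K 1) L = 8 * s * t * BB Ψ (Hs f1) (Hs f2) (fun x => (ζc x : ℂ))

/-- THM (from LFP, WKF, PRJ, RTS). By LFP `wK (L i j) z = rt (inj z) + (-1)^i s F1 z +
(-1)^j t F2 z`, `F1 z = ζa (inj z) * Eo z`, `F2 z = ζb (inj z) * (z.1.2 * z.2.2)`
(`pr (inj z) = z`), all smooth. By WKF `mu b (L i j) = ∫ b T12 (wK (L i j))`; `T12` is a quadratic
form in the second derivatives, so the four-term combination is
`4 s t ∫ b (F1_02 F2_13 + F2_02 F1_13 - F1_03 F2_12 - F2_03 F1_12)`. For `‖z‖ < 1` we have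
`‖inj z‖ < 2`, so near `z` `F1 = Eo`, `F2 = z.1.2 * z.2.2`, whose second derivatives are
`0` except `F2_13 = F2_31 = 1`. -/
def T_THM : Prop := ∀ (k : ℕ) (ζa ζb ζc : E (k + 4) → ℝ), Cut3 ζa ζb ζc →
  ∀ (b Eo : V → ℝ) (s t : ℝ), Sm b → Sm Eo → (∀ z, 1 ≤ ‖z‖ → b z = 0) →
  ∀ L : Fin 2 → Fin 2 → ConvexBody (E (k + 4 + 1)),
  (∀ i j, IsLf 1 (pm s t (fun y => ζa y * Eo (pr y)) (fun y => ζb y * (y 1 * y 3)) i j) (L i j)) →
  Th (mu b) L = ((4 * s * t * ∫ z, b z * d 0 (d 2 Eo) z : ℝ) : ℂ)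

/-! ### Conclusion -/

/-- GLH. Banach-Steinhaus on `ℓ¹` (Mathlib: `banach_steinhaus`, `lp (fun _ : ℕ => ℂ) 1`; the
functional `a ↦ ∑ M, a M * c N M` by `LinearMap.mkContinuous` with the bound `B N`; for
`lp.single` at `N` with value `1` it is `c N N`). -/
def T_GLH : Prop := ∀ (c : ℕ → ℕ → ℂ) (B : ℕ → ℝ), (∀ N M, ‖c N M‖ ≤ B N) →
  (∀ a : ℕ → ℂ, Summable (fun M => ‖a M‖) → ∃ C : ℝ, ∀ N, ‖∑' M, a M * c N M‖ ≤ C) →
  ∃ C : ℝ, ∀ N, ‖c N N‖ ≤ C

/-- VBR (from `gCTA`, `gSUA`, `gSUL`). By homogeneity, `K = R • (R⁻¹ • K)`. -/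
def T_VBR : Prop := ∀ (n : ℕ) (μ : ConvexBody (E n) → ℂ) (C : ℝ), IsVal n 2 μ →
  (∀ K : ConvexBody (E n), (K : Set (E n)) ⊆ closedBall 0 1 → ‖μ K‖ ≤ C) →
  ∀ R : ℝ, 0 < R → ∀ K : ConvexBody (E n), (K : Set (E n)) ⊆ closedBall 0 R → ‖μ K‖ ≤ R ^ 2 * C

/-- VSM (from VBR). Sums of valuations. Continuity: on the open set of the bodies contained in
the open ball of radius `R` (or near a given body) the series converges uniformly
(`continuous_tsum` needs a global bound; use `tendstoUniformlyOn_tsum` /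
`continuousOn_tsum`). The other properties: `tsum_add`, `tsum_mul_left`. -/
def T_VSM : Prop := ∀ (n : ℕ) (μ : ℕ → ConvexBody (E n) → ℂ) (C : ℝ), (∀ N, IsVal n 2 (μ N)) →
  (∀ N, ∀ K : ConvexBody (E n), (K : Set (E n)) ⊆ closedBall 0 1 → ‖μ N K‖ ≤ C) →
  ∀ a : ℕ → ℂ, Summable (fun N => ‖a N‖) →
  (∀ K, Summable fun N => a N * μ N K) ∧ IsVal n 2 (fun K => ∑' N, a N * μ N K)

/-- FIN (from CTS, PKA, CT3, LFS, LFP, MU1, MU2, VSM, VBR, GLH, THP, THM, DOM, PBE). Fix `k`, the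
cut-off functions of CTS and CT3, and the constants of PKA and DOM. For `N : ℕ` let
`b_N, G_N, .., Eo_N` be the functions of PKA for `N + 3`, `μ_N = mu b_N` (in `Val_2`, MU1;
`|μ_N| ≤ C₀` on bodies in the unit ball, MU2), `f1 = ζa (Eo_N ∘ pr)`, `f2 = ζb x_1 x_3`, and
`s, t, L^N` from LFS. Suppose every `μ` in `Val_2` is `K ↦ Ψ K 1` for some `Ψ` in `Area_2`. For
summable `a`, `μ_a = ∑ a_M μ_M` is in `Val_2` (VSM), let `Ψ` be given by the assumption and `C'` by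
PBE. Put `c N M = Th μ_M L^N / (s_N t_N)`. Then
`∑ a_M c N M = Th μ_a L^N / (s_N t_N) = 8 BB Ψ (Hs f1) (Hs f2) ζc` (THP), of modulus at most
`8 C C'` (DOM) for all `N`. `|c N M| ≤ B N` (VBR and LFP, the bodies `L^N i j` are bounded). By GLH
`|c N N|` is bounded; but by THM `c N N = 4 ∫ b_N d 0 (d 2 Eo_N) ≥ 4 c₀ √(N + 3)`. -/
def T_FIN : Prop := ∀ k : ℕ, ∃ μ : ConvexBody (E (k + 4 + 1)) → ℂ, IsVal (k + 4 + 1) 2 μ ∧
  ∀ Ψ : ConvexBody (E (k + 4 + 1)) → (C(S (k + 4 + 1), ℂ) →L[ℂ] ℂ), IsArea (k + 4 + 1) 2 Ψ →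
  ∃ K, Ψ K 1 ≠ μ K

end Pool.Agent.GNS
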