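import Pool.Agent.GNS.T3
import Pool.Agent.GNS.T4

/-!
# GNS: target BBL, `BB` is bilinear and symmetric
-/

set_option autoImplicit false

open Metric Set Filter Topology MeasureTheory

noncomputable section

namespace Pool.Agent.GNS

open Pool.Agent.GLB

namespace BBL_

variable {m : ℕ}

theorem tf {R : ℝ} {ψ : E m → ℂ} (h : Tf R ψ) {f g : E m → ℝ} (hf : Continuous f)
    (hg : Continuous g) : Tf R (fun x => ψ x * (f x : ℂ) * (g x : ℂ)) :=
  ⟨(h.cont.mul (Complex.continuous_ofReal.comp hf)).mul (Complex.continuous_ofReal.comp hg),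
    fun x hx => by rw [h.out x hx]; simp⟩

theorem swap (F : Fin m → Fin m → Fin m → Fin m → ℂ) :
    ∑ i, ∑ j, ∑ k, ∑ l, F k l i j = ∑ i, ∑ j, ∑ k, ∑ l, F i j k l := by
  calc ∑ i, ∑ j, ∑ k, ∑ l, F k l i j
      = ∑ i, ∑ k, ∑ j, ∑ l, F k l i j :=
        Finset.sum_congr rfl fun i _ => Finset.sum_comm
    _ = ∑ i, ∑ k, ∑ l, ∑ j, F k l i j :=
        Finset.sum_congr rfl fun i _ => Finset.sum_congr rfl fun k _ => Finset.sum_comm
    _ = ∑ k, ∑ i, ∑ l, ∑ j, F k l i j := Finset.sum_comm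
    _ = ∑ k, ∑ l, ∑ i, ∑ j, F k l i j :=
        Finset.sum_congr rfl fun k _ => Finset.sum_comm

end BBL_

theorem p_BBL (hB4P : T_B4P) (_hHAT : T_HAT) : T_BBL := by
  obtain ⟨C, _, hB⟩ := hB4P
  intro m Ψ hΨ R ψ hψ A A' B hA hA' hB'
  have key := hB m Ψ hΨ R
  refine ⟨?_, ?_, ?_⟩
  · have h1 : BB Ψ B A ψ = ∑ i, ∑ j, ∑ k, ∑ l,
        B4 Ψ k l i j (fun x => ψ x * (A x k l : ℂ) * (B x i j : ℂ)) := by
      unfold BB
      refine Finset.sum_congr rfl fun i _ => Finset.sum_congr rfl fun j _ =>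
        Finset.sum_congr rfl fun k _ => Finset.sum_congr rfl fun l _ => ?_
      have t := BBL_.tf hψ (hB' i j) (hA k l)
      rw [(key _ _ t t i j k l).2.2.1]
      congr 1
      funext x
      ring
    rw [h1]
    unfold BB
    exact (BBL_.swap fun i j k l =>
      B4 Ψ i j k l (fun x => ψ x * (A x i j : ℂ) * (B x k l : ℂ))).symm
  · unfold BB
    simp only [← Finset.sum_add_distrib]
    refine Finset.sum_congr rfl fun i _ => Finset.sum_congr rfl fun j _ =>
      Finset.sum_congr rfl fun k _ => Finset.sum_congr rfl fun l _ => ?_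
    rw [← (key _ _ (BBL_.tf hψ (hA i j) (hB' k l)) (BBL_.tf hψ (hA' i j) (hB' k l))
      i j k l).1]
    congr 1
    funext x
    push_cast
    ring
  · intro c
    unfold BB
    simp only [Finset.mul_sum]
    refine Finset.sum_congr rfl fun i _ => Finset.sum_congr rfl fun j _ =>
      Finset.sum_congr rfl fun k _ => Finset.sum_congr rfl fun l _ => ?_
    have t := BBL_.tf hψ (hA i j) (hB' k l)
    rw [← (key _ _ t t i j k l).2.1 (c : ℂ)]
    congr 1
    funext x
    push_cast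
    ring

end Pool.Agent.GNS
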