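import Pool.Agent.GNS.T1

/-!
# GNS: change of variables
-/

set_option autoImplicit false

open Metric Set Filter Topology MeasureTheory

noncomputable section

namespace Pool.Agent.GNS

theorem CHG_gy_smooth {F : V → ℝ} (hF : Sm F) :
    ContDiff ℝ ((⊤ : ℕ∞) : WithTop ℕ∞) (gy F) := by
  unfold gy
  exact contDiff_fst.prodMk ((hF.d 2).cd.prodMk (hF.d 3).cd)

theorem CHG_jac_pos {η : ℝ} {F : V → ℝ} (hη : 0 < η) (hF : SC η F) (z : V) : 0 < jac F z := by
  have h1 := hF.pos z 0 1
  have h2 := hF.pos z (d 3 (d 3 F) z) (-d 2 (d 3 F) z)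
  have h3 : 0 < d 3 (d 3 F) z := by nlinarith
  have h4 : 0 < η * (d 3 (d 3 F) z ^ 2 + (-d 2 (d 3 F) z) ^ 2) := by positivity
  have h5 : d 3 (d 3 F) z ^ 2 * d 2 (d 2 F) z +
      2 * d 3 (d 3 F) z * (-d 2 (d 3 F) z) * d 2 (d 3 F) z +
      (-d 2 (d 3 F) z) ^ 2 * d 3 (d 3 F) z = d 3 (d 3 F) z * jac F z := by
    unfold jac
    ring
  rw [h5] at h2
  have h6 : 0 < d 3 (d 3 F) z * jac F z := lt_of_lt_of_le h4 h2
  exact (mul_pos_iff_of_pos_left h3).1 h6

theorem p_CHG (hINV : T_INV) (hDET : T_DET) : T_CHG := by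
  intro η F hη hF G hG hcG
  obtain ⟨H, hH, h1, h2⟩ := hINV η F hη hF
  have hgy := CHG_gy_smooth hF.sm
  have hb : Function.Bijective (gy F) :=
    ⟨Function.LeftInverse.injective h2, fun q => ⟨H q, h1 q⟩⟩
  refine ⟨?_, ?_⟩
  · let Φ : V ≃ₜ V :=
      { toFun := gy F
        invFun := H
        left_inv := h2
        right_inv := h1
        continuous_toFun := hgy.continuous
        continuous_invFun := hH.continuous }
    exact hcG.comp_homeomorph Φ
  · have h3 := integral_image_eq_integral_abs_det_fderiv_smul (volume : Measure V)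
      (f := gy F) (f' := fderiv ℝ (gy F)) (s := univ) MeasurableSet.univ
      (fun z _ => (hgy.differentiable (by simp) z).hasFDerivAt.hasFDerivWithinAt)
      hb.1.injOn G
    rw [image_univ, hb.2.range_eq] at h3
    simp only [Measure.restrict_univ, smul_eq_mul] at h3
    rw [h3]
    refine integral_congr_ae (Eventually.of_forall fun z => ?_)
    simp only
    rw [hDET F hF.sm z, abs_of_pos (CHG_jac_pos hη hF z), mul_comm]

end Pool.Agent.GNS
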