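import Pool.Agent.GNS.T3

set_option autoImplicit false

/-!
# GNS, target CHT: elementary facts on the chart
-/

open Metric Set Filter Topology MeasureTheory

noncomputable section

namespace Pool.Agent.GNS

open Pool.Agent.GLB

namespace CHT_

variable {m : ℕ}

theorem up_cast (x : E m) (i : Fin m) : up x i.castSucc = x i := by
  simp [up]

theorem up_last (x : E m) : up x (Fin.last m) = 1 := by
  simp [up]

theorem kv_cast (κ : E m) (c : ℝ) (i : Fin m) : kv κ c i.castSucc = κ i := by
  simp [kv]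

theorem kv_last (κ : E m) (c : ℝ) : kv κ c (Fin.last m) = -c := by
  simp [kv]

theorem dn_apply (v : E (m + 1)) (i : Fin m) : dn v i = v i.castSucc / v (Fin.last m) := by
  simp [dn]

theorem inner_E (a b : E m) : inner ℝ a b = ∑ i : Fin m, a i * b i := by
  rw [PiLp.inner_apply]
  refine Finset.sum_congr rfl fun i _ => ?_
  rw [real_inner_eq_re_inner]
  simp [mul_comm]

theorem inner_E1 (a b : E (m + 1)) : inner ℝ a b =
    ∑ i : Fin m, a i.castSucc * b i.castSucc + a (Fin.last m) * b (Fin.last m) := by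
  rw [inner_E, Fin.sum_univ_castSucc]

theorem norm_E (v : E m) : ‖v‖ ^ 2 = ∑ i : Fin m, v i ^ 2 := by
  rw [← real_inner_self_eq_norm_sq, inner_E]
  exact Finset.sum_congr rfl fun i _ => (sq (v i)).symm

theorem norm_E1 (v : E (m + 1)) :
    ‖v‖ ^ 2 = ∑ i : Fin m, v i.castSucc ^ 2 + v (Fin.last m) ^ 2 := by
  rw [norm_E, Fin.sum_univ_castSucc]

theorem inner_kv_up (κ x : E m) (c : ℝ) : inner ℝ (kv κ c) (up x) = inner ℝ κ x - c := by
  rw [inner_E1, inner_E, up_last, kv_last]
  simp only [up_cast, kv_cast]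
  ring

theorem supp_seg (n : ℕ) (a u : E n) : supp (seg a) u = max 0 (inner ℝ a u) := by
  have h0 : (0 : E n) ∈ seg a := left_mem_segment ℝ 0 a
  have h1 : a ∈ seg a := right_mem_segment ℝ 0 a
  apply le_antisymm
  · obtain ⟨x, hx, e⟩ := (gSUA n).2.1 (seg a) u
    have hx' : x ∈ segment ℝ 0 a := hx
    rw [segment_eq_image] at hx'
    obtain ⟨t, ht, rfl⟩ := hx'
    rw [← e]
    have h2 : inner ℝ ((1 - t) • (0 : E n) + t • a) u = t * inner ℝ a u := by
      rw [smul_zero, zero_add, real_inner_smul_left]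
    show inner ℝ ((1 - t) • (0 : E n) + t • a) u ≤ _
    rw [h2]
    rcases le_total 0 (inner ℝ a u) with h | h
    · exact le_max_of_le_right (mul_le_of_le_one_left h ht.2)
    · exact le_max_of_le_left (mul_nonpos_of_nonneg_of_nonpos ht.1 h)
  · refine max_le ?_ ?_
    · have := (gSUA n).1 (seg a) 0 u h0
      rwa [inner_zero_left] at this
    · exact (gSUA n).1 (seg a) a u h1

theorem hgt_up_dn (v : E (m + 1)) (h : 0 < hgt v) : hgt v • up (dn v) = v := by
  ext i
  refine Fin.lastCases ?_ (fun i => ?_) i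
  · rw [PiLp.smul_apply, up_last, smul_eq_mul, mul_one]
    rfl
  · rw [PiLp.smul_apply, up_cast, dn_apply, smul_eq_mul]
    have h1 : v (Fin.last m) ≠ 0 := ne_of_gt h
    unfold hgt
    field_simp

end CHT_

open CHT_ in
theorem p_CHT : T_CHT := by
  intro m
  refine ⟨fun K L x => (gSUA (m + 1)).2.2.1 K L (up x),
    fun K t x ht => (gSUA (m + 1)).2.2.2.1 K t (up x) ht,
    fun a x => (gSUA (m + 1)).2.2.2.2.1 a (up x), inner_kv_up, supp_seg, ?_, hgt_up_dn, ?_, ?_, ?_,
    norm_E1, ?_⟩
  · intro κ x c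
    unfold ch
    rw [supp_seg, inner_kv_up]
  · intro K v hv
    have h1 := (gSUH (m + 1) K).1 (hgt v) hv.le (up (dn v))
    rw [hgt_up_dn v hv] at h1
    exact h1
  · intro κ
    unfold kv
    refine (PiLp.continuous_toLp 2 _).comp ?_
    refine continuous_pi fun i => ?_
    refine Fin.lastCases ?_ (fun i => ?_) i
    · simp only [Fin.snoc_last]
      exact continuous_neg
    · simp only [Fin.snoc_castSucc]
      exact continuous_const
  · intro κ c c'
    have h1 : ‖kv κ c - kv κ c'‖ ^ 2 = |c - c'| ^ 2 := by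
      rw [norm_E1, sq_abs]
      simp only [PiLp.sub_apply, kv_cast, kv_last, sub_self]
      simp only [ne_eq, OfNat.ofNat_ne_zero, not_false_eq_true, zero_pow, Finset.sum_const_zero]
      ring
    exact (sq_eq_sq₀ (norm_nonneg _) (abs_nonneg _)).1 h1
  · intro x
    refine ⟨?_, up_last x, ?_⟩
    · unfold rt
      have h1 : ‖up x‖ ^ 2 = 1 + ‖x‖ ^ 2 := by
        rw [norm_E1, norm_E, up_last]
        simp only [up_cast]
        ring
      rw [← h1, Real.sqrt_sq (norm_nonneg _)]
    · ext i
      rw [dn_apply, up_last, up_cast, div_one]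

end Pool.Agent.GNS
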