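import Pool.Agent.GNS.T3

/-!
# GNS: CHZ, the chart function of a ridge body
-/

set_option autoImplicit false

open Metric Set Filter Topology MeasureTheory

noncomputable section

namespace Pool.Agent.GNS

open Pool.Agent.GLB

namespace CHZ_

theorem int_eq (F : ℝ → ℝ) (hF : ContDiff ℝ 2 F) (ρ s : ℝ) (hs : |s| ≤ ρ) :
    ∫ c in (-ρ)..ρ, deriv (deriv F) c * max 0 (s - c) =
      F s - F (-ρ) - deriv F (-ρ) * (s + ρ) := by
  have hs1 : -ρ ≤ s := (abs_le.1 hs).1
  have hs2 : s ≤ ρ := (abs_le.1 hs).2
  have hF1 : ContDiff ℝ 1 (deriv F) := by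
    have h2 : ContDiff ℝ (1 + 1) F := by
      have e : (1 + 1 : WithTop ℕ∞) = 2 := by norm_num
      rw [e]
      exact hF
    exact (contDiff_succ_iff_deriv.1 h2).2.2
  have hd0 : Differentiable ℝ F := hF.differentiable (by norm_num)
  have hd1 : Differentiable ℝ (deriv F) := hF1.differentiable (by norm_num)
  have hc2 : Continuous (deriv (deriv F)) := hF1.continuous_deriv (by norm_num)
  have hc : Continuous fun c : ℝ => deriv (deriv F) c * max 0 (s - c) :=
    hc2.mul (continuous_const.max (continuous_const.sub continuous_id))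
  rw [← intervalIntegral.integral_add_adjacent_intervals (hc.intervalIntegrable (-ρ) s)
    (hc.intervalIntegrable s ρ)]
  have e1 : ∫ c in (-ρ)..s, deriv (deriv F) c * max 0 (s - c) =
      ∫ c in (-ρ)..s, deriv (deriv F) c * (s - c) := by
    refine intervalIntegral.integral_congr fun c hcI => ?_
    rw [Set.uIcc_of_le hs1] at hcI
    have : 0 ≤ s - c := by linarith [hcI.2]
    show deriv (deriv F) c * max 0 (s - c) = deriv (deriv F) c * (s - c)
    rw [max_eq_right this]
  have e2 : ∫ c in s..ρ, deriv (deriv F) c * max 0 (s - c) = ∫ c in s..ρ, (0 : ℝ) := by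
    refine intervalIntegral.integral_congr fun c hcI => ?_
    rw [Set.uIcc_of_le hs2] at hcI
    have : s - c ≤ 0 := by linarith [hcI.1]
    show deriv (deriv F) c * max 0 (s - c) = 0
    rw [max_eq_left this, mul_zero]
  have e3 : ∫ c in (-ρ)..s, deriv (deriv F) c * (s - c) =
      (deriv F s * (s - s) + F s) - (deriv F (-ρ) * (s - -ρ) + F (-ρ)) := by
    refine intervalIntegral.integral_eq_sub_of_hasDerivAt
      (f := fun c => deriv F c * (s - c) + F c) (fun c _ => ?_)
      ((hc2.mul (continuous_const.sub continuous_id)).intervalIntegrable _ _)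
    have h1 : HasDerivAt (deriv F) (deriv (deriv F) c) c := (hd1 c).hasDerivAt
    have h2 : HasDerivAt F (deriv F c) c := (hd0 c).hasDerivAt
    have h3 : HasDerivAt (fun c : ℝ => s - c) (-1) c := by
      simpa using (hasDerivAt_id c).const_sub s
    have h4 := (h1.mul h3).add h2
    have e : deriv (deriv F) c * (s - c) + deriv F c * -1 + deriv F c =
        deriv (deriv F) c * (s - c) := by ring
    rw [e] at h4
    exact h4
  rw [e1, e2, e3]
  simp only [intervalIntegral.integral_zero]
  ring

end CHZ_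

open CHZ_ in
theorem p_CHZ (h_RDG : T_RDG) (h_CHT : T_CHT) : T_CHZ := by
  intro m κ ρ F hρ hF hpos
  obtain ⟨_, _, _, hinner, _⟩ := h_CHT m
  have hc2 : Continuous (deriv (deriv F)) := by
    have hF1 : ContDiff ℝ 1 (deriv F) := by
      have h2 : ContDiff ℝ (1 + 1) F := by
        have e : (1 + 1 : WithTop ℕ∞) = 2 := by norm_num
        rw [e]
        exact hF
      exact (contDiff_succ_iff_deriv.1 h2).2.2
    exact hF1.continuous_deriv (by norm_num)
  obtain ⟨hZ, _⟩ := h_RDG m κ ρ (deriv (deriv F)) hρ hc2 hpos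
  refine ⟨(-deriv F (-ρ)) • kv κ (-ρ) + (-F (-ρ)) • kv (0 : E m) (-1), fun x hx => ?_⟩
  have h1 : ch (Zr κ ρ (deriv (deriv F))) x =
      ∫ c in (-ρ)..ρ, deriv (deriv F) c * max 0 (inner ℝ κ x - c) := by
    unfold ch
    rw [hZ (up x)]
    refine intervalIntegral.integral_congr fun c _ => ?_
    show deriv (deriv F) c * max 0 (inner ℝ (kv κ c) (up x)) =
      deriv (deriv F) c * max 0 (inner ℝ κ x - c)
    rw [hinner κ x c]
  rw [h1, int_eq F hF ρ (inner ℝ κ x) hx, inner_add_left, real_inner_smul_left,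
    real_inner_smul_left, hinner, hinner, inner_zero_left]
  ring

end Pool.Agent.GNS
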