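import Pool.Agent.GNS.T1

set_option autoImplicit false

/-!
# GNS: closeness of the regularised function
-/

open Metric Set Filter Topology MeasureTheory

noncomputable section

namespace Pool.Agent.GNS

namespace CLS_

theorem mid {φ φ' : ℝ → ℝ} (h : ∀ t, HasDerivAt φ (φ' t) t) (hm : Monotone φ') :
    2 * φ 0 ≤ φ 1 + φ (-1) := by
  obtain ⟨c, hc, hc'⟩ := exists_hasDerivAt_eq_slope φ φ' (zero_lt_one' ℝ)
    (fun t _ => (h t).continuousAt.continuousWithinAt) (fun t _ => h t)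
  obtain ⟨b, hb, hb'⟩ := exists_hasDerivAt_eq_slope φ φ' (by norm_num : (-1 : ℝ) < 0)
    (fun t _ => (h t).continuousAt.continuousWithinAt) (fun t _ => h t)
  have hbc : φ' b ≤ φ' c := hm (hb.2.trans hc.1).le
  rw [hb', hc'] at hbc
  rw [sub_zero, div_one, zero_sub, neg_neg, div_one] at hbc
  linarith

/-- the derivative of the directional derivative -/
theorem dd {f : V → ℝ} (hf : Sm f) (z : V) (a b : ℝ) (t : ℝ) :
    HasDerivAt (fun t : ℝ => fderiv ℝ f (z + t • ((0, (a, b)) : V)) (0, (a, b)))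
      (a ^ 2 * d 2 (d 2 f) (z + t • ((0, (a, b)) : V)) +
        2 * a * b * d 2 (d 3 f) (z + t • ((0, (a, b)) : V)) +
        b ^ 2 * d 3 (d 3 f) (z + t • ((0, (a, b)) : V))) t := by
  have e1 : (fun t : ℝ => fderiv ℝ f (z + t • ((0, (a, b)) : V)) (0, (a, b))) =
      fun t : ℝ => a * d 2 f (z + t • ((0, (a, b)) : V)) +
        b * d 3 f (z + t • ((0, (a, b)) : V)) := by
    funext s
    rw [fd_eq]
    simp only [Prod.fst_zero, Prod.snd_zero, zero_mul, zero_add]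
  rw [e1]
  have h1 := ((line_deriv (hf.d 2) z (0, (a, b)) t).const_mul a).add
    ((line_deriv (hf.d 3) z (0, (a, b)) t).const_mul b)
  have h2 := d_comm hf 3 2 (z + t • ((0, (a, b)) : V))
  have h3 : a * fderiv ℝ (d 2 f) (z + t • ((0, (a, b)) : V)) (0, (a, b)) +
      b * fderiv ℝ (d 3 f) (z + t • ((0, (a, b)) : V)) (0, (a, b)) =
      a ^ 2 * d 2 (d 2 f) (z + t • ((0, (a, b)) : V)) +
        2 * a * b * d 2 (d 3 f) (z + t • ((0, (a, b)) : V)) +
        b ^ 2 * d 3 (d 3 f) (z + t • ((0, (a, b)) : V)) := by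
    rw [fd_eq, fd_eq]
    simp only [Prod.fst_zero, Prod.snd_zero, zero_mul, zero_add]
    rw [h2]
    ring
  rw [← h3]
  exact h1

theorem low {f : V → ℝ} (hf : Sm f) (z : V) (a b : ℝ)
    (h : ∀ z, 0 ≤ a ^ 2 * d 2 (d 2 f) z + 2 * a * b * d 2 (d 3 f) z + b ^ 2 * d 3 (d 3 f) z) :
    2 * f z ≤ f (z + (0, (a, b))) + f (z - (0, (a, b))) := by
  have hm : Monotone (fun t : ℝ => fderiv ℝ f (z + t • ((0, (a, b)) : V)) (0, (a, b))) :=
    monotone_of_deriv_nonneg (fun t => (dd hf z a b t).differentiableAt) fun t => by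
      rw [(dd hf z a b t).deriv]
      exact h _
  have h1 := mid (φ := fun t : ℝ => f (z + t • ((0, (a, b)) : V)))
    (fun t => line_deriv hf z (0, (a, b)) t) hm
  simp only [zero_smul, add_zero, one_smul, neg_smul, ← sub_eq_add_neg] at h1
  exact h1

theorem upp {f : V → ℝ} (hf : Sm f) (z : V) (a b M : ℝ)
    (h : ∀ z, a ^ 2 * d 2 (d 2 f) z + 2 * a * b * d 2 (d 3 f) z + b ^ 2 * d 3 (d 3 f) z ≤ M) :
    f (z + (0, (a, b))) + f (z - (0, (a, b))) ≤ 2 * f z + M := by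
  have hd : ∀ t : ℝ, HasDerivAt (fun t : ℝ => M * t -
      fderiv ℝ f (z + t • ((0, (a, b)) : V)) (0, (a, b)))
      (M * 1 - (a ^ 2 * d 2 (d 2 f) (z + t • ((0, (a, b)) : V)) +
        2 * a * b * d 2 (d 3 f) (z + t • ((0, (a, b)) : V)) +
        b ^ 2 * d 3 (d 3 f) (z + t • ((0, (a, b)) : V)))) t := fun t =>
    ((hasDerivAt_id t).const_mul M).sub (dd hf z a b t)
  have hm : Monotone (fun t : ℝ => M * t -
      fderiv ℝ f (z + t • ((0, (a, b)) : V)) (0, (a, b))) :=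
    monotone_of_deriv_nonneg (fun t => (hd t).differentiableAt) fun t => by
      rw [(hd t).deriv]
      have := h (z + t • ((0, (a, b)) : V))
      linarith
  have hφ : ∀ t : ℝ, HasDerivAt (fun t : ℝ => M * t ^ 2 / 2 - f (z + t • ((0, (a, b)) : V)))
      (M * t - fderiv ℝ f (z + t • ((0, (a, b)) : V)) (0, (a, b))) t := by
    intro t
    have h1 : HasDerivAt (fun t : ℝ => M * t ^ 2 / 2) (M * t) t := by
      have h2 := (((hasDerivAt_id t).pow 2).const_mul M).div_const 2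
      refine h2.congr_deriv ?_
      simp only [id]
      ring
    exact h1.sub (line_deriv hf z (0, (a, b)) t)
  have h1 := mid hφ hm
  simp only [zero_smul, add_zero, one_smul, neg_smul, ← sub_eq_add_neg] at h1
  norm_num at h1
  linarith

theorem xv {f : V → ℝ} (hf : Sm f) (h0 : ∀ z, |d 0 f z| ≤ 1) (h1 : ∀ z, |d 1 f z| ≤ 1)
    (z : V) (a b : ℝ) : |f (z + ((a, b), 0)) - f z| ≤ |a| + |b| := by
  obtain ⟨c, hc, hc'⟩ := exists_hasDerivAt_eq_slope (fun t : ℝ => f (z + t • (((a, b), 0) : V)))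
    (fun t => fderiv ℝ f (z + t • (((a, b), 0) : V)) ((a, b), 0)) (zero_lt_one' ℝ)
    (fun t _ => (line_deriv hf z _ t).continuousAt.continuousWithinAt)
    (fun t _ => line_deriv hf z _ t)
  simp only [zero_smul, add_zero, one_smul, sub_zero, div_one] at hc'
  rw [← hc', fd_eq]
  simp only [Prod.fst_zero, Prod.snd_zero, zero_mul, add_zero]
  have h2 := h0 (z + c • (((a, b), 0) : V))
  have h3 := h1 (z + c • (((a, b), 0) : V))
  calc |a * d 0 f (z + c • (((a, b), 0) : V)) + b * d 1 f (z + c • (((a, b), 0) : V))|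
      ≤ |a * d 0 f (z + c • (((a, b), 0) : V))| + |b * d 1 f (z + c • (((a, b), 0) : V))| :=
        abs_add_le _ _
    _ ≤ |a| + |b| := by
        rw [abs_mul, abs_mul]
        have h4 := mul_le_mul_of_nonneg_left h2 (abs_nonneg a)
        have h5 := mul_le_mul_of_nonneg_left h3 (abs_nonneg b)
        linarith

theorem comps (ζ : V) {r : ℝ} (h : ‖ζ‖ ≤ r) :
    |ζ.1.1| ≤ r ∧ |ζ.1.2| ≤ r ∧ |ζ.2.1| ≤ r ∧ |ζ.2.2| ≤ r := by
  have h1 : ‖ζ.1‖ ≤ r := (norm_fst_le ζ).trans h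
  have h2 : ‖ζ.2‖ ≤ r := (norm_snd_le ζ).trans h
  exact ⟨(norm_fst_le ζ.1).trans h1, (norm_snd_le ζ.1).trans h1, (norm_fst_le ζ.2).trans h2,
    (norm_snd_le ζ.2).trans h2⟩

theorem pair {η r : ℝ} {u : V → ℝ} (hη : 0 < η) (hu : Uc η u) (q ζ : V) (hζ : ‖ζ‖ ≤ r) :
    2 * (u q - 2 * r) ≤ u (q - ζ) + u (q + ζ) ∧
      u (q - ζ) + u (q + ζ) ≤ 2 * (u q + 2 * r + r ^ 2 / η) := by
  obtain ⟨c1, c2, c3, c4⟩ := comps ζ hζ
  have a1 := abs_le.1 (xv hu.sm hu.bd0 hu.bd1 (q + (0, (ζ.2.1, ζ.2.2))) ζ.1.1 ζ.1.2)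
  have a2 := abs_le.1 (xv hu.sm hu.bd0 hu.bd1 (q - (0, (ζ.2.1, ζ.2.2))) (-ζ.1.1) (-ζ.1.2))
  have e1 : q + (0, (ζ.2.1, ζ.2.2)) + ((ζ.1.1, ζ.1.2), 0) = q + ζ := by
    ext <;> simp
  have e2 : q - (0, (ζ.2.1, ζ.2.2)) + ((-ζ.1.1, -ζ.1.2), 0) = q - ζ := by
    ext <;> simp <;> ring
  rw [e1] at a1
  rw [e2, abs_neg, abs_neg] at a2
  have b1 := low hu.sm q ζ.2.1 ζ.2.2 (fun z => hu.lo z _ _)
  have b2 := upp hu.sm q ζ.2.1 ζ.2.2 _ (fun z => hu.hi z _ _)
  have b3 : (ζ.2.1 ^ 2 + ζ.2.2 ^ 2) / η ≤ 2 * (r ^ 2 / η) := by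
    rw [← mul_div_assoc]
    apply div_le_div_of_nonneg_right _ hη.le
    have h3 : ζ.2.1 ^ 2 ≤ r ^ 2 := sq_le_sq' (abs_le.1 c3).1 (abs_le.1 c3).2
    have h4 : ζ.2.2 ^ 2 ≤ r ^ 2 := sq_le_sq' (abs_le.1 c4).1 (abs_le.1 c4).2
    linarith
  constructor <;> linarith [a1.1, a1.2, a2.1, a2.2]

theorem cvb (h_CNV : T_CNV) {η r : ℝ} {ρ u : V → ℝ} (hη : 0 < η) (hK : Ker r ρ) (hu : Uc η u)
    (q : V) : u q - 2 * r ≤ cv ρ u q ∧ cv ρ u q ≤ u q + 2 * r + r ^ 2 / η := by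
  have hcs : HasCompactSupport ρ := hcs_of hK.out
  have h1 : cv ρ u q = ∫ ζ, ρ ζ * u (q - ζ) := (h_CNV ρ u hK.sm hcs hu.sm.cont).2.2.1 q
  have h2 : ∫ ζ, ρ ζ * u (q - ζ) = ∫ ζ, ρ ζ * u (q + ζ) := by
    rw [← integral_neg_eq_self (fun ζ => ρ ζ * u (q - ζ)) volume]
    apply integral_congr_ae
    filter_upwards with ζ
    rw [hK.even, sub_neg_eq_add]
  have i1 : Integrable fun ζ => ρ ζ * u (q - ζ) :=
    int_of (hK.sm.cont.mul (hu.sm.cont.comp (continuous_const.sub continuous_id))) hcs.mul_right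
  have i2 : Integrable fun ζ => ρ ζ * u (q + ζ) :=
    int_of (hK.sm.cont.mul (hu.sm.cont.comp (continuous_const.add continuous_id))) hcs.mul_right
  have h3 : 2 * cv ρ u q = ∫ ζ, ρ ζ * (u (q - ζ) + u (q + ζ)) := by
    have h4 : (fun ζ => ρ ζ * (u (q - ζ) + u (q + ζ))) =
        fun ζ => ρ ζ * u (q - ζ) + ρ ζ * u (q + ζ) := by
      funext ζ
      ring
    rw [h4, integral_add i1 i2, ← h2, ← h1]
    ring
  have i3 : Integrable fun ζ => ρ ζ * (u (q - ζ) + u (q + ζ)) :=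
    int_of (hK.sm.cont.mul ((hu.sm.cont.comp (continuous_const.sub continuous_id)).add
      (hu.sm.cont.comp (continuous_const.add continuous_id)))) hcs.mul_right
  have i4 : ∀ c : ℝ, Integrable fun ζ => ρ ζ * c := fun c =>
    int_of (hK.sm.cont.mul continuous_const) hcs.mul_right
  have h5 : ∀ c : ℝ, ∫ ζ, ρ ζ * c = c := fun c => by
    rw [integral_mul_const, hK.int, one_mul]
  have h6 : 2 * (u q - 2 * r) ≤ 2 * cv ρ u q := by
    rw [h3, ← h5 (2 * (u q - 2 * r))]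
    apply integral_mono (i4 _) i3
    intro ζ
    by_cases hζ : ‖ζ‖ ≤ r
    · exact mul_le_mul_of_nonneg_left (pair hη hu q ζ hζ).1 (hK.nn ζ)
    · simp only
      rw [hK.out ζ (not_le.1 hζ).le, zero_mul, zero_mul]
  have h7 : 2 * cv ρ u q ≤ 2 * (u q + 2 * r + r ^ 2 / η) := by
    rw [h3, ← h5 (2 * (u q + 2 * r + r ^ 2 / η))]
    apply integral_mono i3 (i4 _)
    intro ζ
    by_cases hζ : ‖ζ‖ ≤ r
    · exact mul_le_mul_of_nonneg_left (pair hη hu q ζ hζ).2 (hK.nn ζ)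
    · simp only
      rw [hK.out ζ (not_le.1 hζ).le, zero_mul, zero_mul]
  constructor <;> linarith

end CLS_

open CLS_

theorem p_CLS (h_LG1 : T_LG1) (h_LGC : T_LGC) (h_UBR : T_UBR) (h_CNV : T_CNV) : T_CLS := by
  intro η r ρ w hη hη1 hr hr1 hK hw z hz
  obtain ⟨F, hF⟩ : ∃ F : V → ℝ, F = fun z => w z + η * q2 z := ⟨_, rfl⟩
  obtain ⟨hSC, hUc, -, -⟩ := h_LGC η w hη hw
  rw [← hF] at hSC hUc
  have hFz : w z + η * q2 z = F z := by rw [hF]
  rw [hFz, ← hF]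
  have hU := (h_UBR η r ρ (Leg F) hη hr hK hUc).1
  have l1 := (h_LG1 η F hη hSC).2
  have l2 := (h_LG1 r (ub ρ r (Leg F)) hr hU).2
  obtain ⟨m1, -, -, m2, m3, -⟩ := l1 z
  rw [abs_le]
  constructor
  · -- lower bound
    have h1 := (l2 z).2.2.2.2.2 (gy F z).2
    have h2 := (cvb h_CNV hη hK hUc (gy F z)).2
    have g2 := hUc.gr2 (gy F z)
    have g3 := hUc.gr3 (gy F z)
    rw [m2] at g2
    rw [m3] at g3
    obtain ⟨-, -, c3, c4⟩ := comps z hz
    have c3' : |η * z.2.1| ≤ 4 := by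
      rw [abs_mul, abs_of_pos hη]
      nlinarith [abs_nonneg z.2.1]
    have c4' : |η * z.2.2| ≤ 4 := by
      rw [abs_mul, abs_of_pos hη]
      nlinarith [abs_nonneg z.2.2]
    have p1 : |(gy F z).2.1| ≤ 5 := by
      have := abs_sub_abs_le_abs_sub (gy F z).2.1 (η * z.2.1)
      linarith
    have p2 : |(gy F z).2.2| ≤ 5 := by
      have := abs_sub_abs_le_abs_sub (gy F z).2.2 (η * z.2.2)
      linarith
    have q5 : q2 (gy F z) ≤ 25 := by
      unfold q2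
      have s1 : (gy F z).2.1 ^ 2 ≤ 5 ^ 2 := sq_le_sq' (abs_le.1 p1).1 (abs_le.1 p1).2
      have s2 : (gy F z).2.2 ^ 2 ≤ 5 ^ 2 := sq_le_sq' (abs_le.1 p2).1 (abs_le.1 p2).2
      linarith
    have h3 : r * q2 (gy F z) ≤ r * 25 := mul_le_mul_of_nonneg_left q5 hr.le
    have e1 : ((z.1, (gy F z).2) : V) = gy F z := rfl
    rw [e1] at h1
    have h4 : ub ρ r (Leg F) (gy F z) = cv ρ (Leg F) (gy F z) + r * q2 (gy F z) := rfl
    rw [h4] at h1
    rw [m1] at h2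
    have e2 : (gy F z).2.1 = d 2 F z := rfl
    have e3 : (gy F z).2.2 = d 3 F z := rfl
    rw [e2, e3] at h1
    linarith
  · -- upper bound
    have h1 : Leg (ub ρ r (Leg F)) z ≤ F z + 2 * r := by
      unfold Leg
      apply csSup_le (range_nonempty _)
      rintro _ ⟨p, rfl⟩
      have h2 := (cvb h_CNV hη hK hUc (z.1, p)).1
      have h3 := (l1 (z.1, p)).2.2.2.2.2 z.2
      have h4 : 0 ≤ r * q2 (z.1, p) := by
        unfold q2
        positivity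
      have h5 : ub ρ r (Leg F) (z.1, p) = cv ρ (Leg F) (z.1, p) + r * q2 (z.1, p) := rfl
      have h6 : z.2.1 * p.1 + z.2.2 * p.2 - ub ρ r (Leg F) (z.1, p) ≤ F z + 2 * r := by
        rw [h5]
        simp only at h3
        have e1 : ((z.1, z.2) : V) = z := rfl
        rw [e1] at h3
        linarith
      exact h6
    have h2 : 0 ≤ r ^ 2 / η := by positivity
    linarith

end Pool.Agent.GNS
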