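import Pool.Agent.GNS.T1

/-!
# GNS: convolution with a smooth function of compact support
-/

set_option autoImplicit false

open MeasureTheory

noncomputable section

namespace Pool.Agent.GNS

namespace CNV_

theorem cv_eq (ρ f : V → ℝ) :
    cv ρ f = convolution ρ f (ContinuousLinearMap.mul ℝ ℝ) (volume : Measure V) := by
  funext z
  exact convolution_mul_swap.symm

theorem sm {ρ f : V → ℝ} (hρ : Sm ρ) (hc : HasCompactSupport ρ) (hf : Continuous f) :
    Sm (cv ρ f) := by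
  rw [cv_eq]
  exact hc.contDiff_convolution_left (ContinuousLinearMap.mul ℝ ℝ) hρ.cd
    hf.locallyIntegrable

theorem one {ρ : V → ℝ} (hρ : Sm ρ) : ContDiff ℝ 1 ρ :=
  hρ.cd.of_le (by exact_mod_cast le_top)

theorem der {ρ f : V → ℝ} (hρ : Sm ρ) (hc : HasCompactSupport ρ) (hf : Continuous f)
    (i : Fin 4) (z : V) : d i (cv ρ f) z = cv (d i ρ) f z := by
  have h := hc.hasFDerivAt_convolution_left (ContinuousLinearMap.mul ℝ ℝ)
    (μ := (volume : Measure V)) (one hρ) hf.locallyIntegrable z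
  rw [← cv_eq] at h
  have h1 : d i (cv ρ f) z = (convolution (fderiv ℝ ρ) f
      ((ContinuousLinearMap.mul ℝ ℝ).precompL V) (volume : Measure V) z) (e i) := by
    unfold d
    rw [h.fderiv]
  have h2 := (hc.fderiv ℝ).convolutionExists_left
    ((ContinuousLinearMap.mul ℝ ℝ).precompL V :) hρ.fd.continuous
    (hf.locallyIntegrable (μ := (volume : Measure V))) z
  rw [h1, cv_eq]
  simp_rw [convolution_def, ContinuousLinearMap.integral_apply h2]
  rfl

theorem swap (ρ f : V → ℝ) (z : V) : cv ρ f z = ∫ ζ, ρ ζ * f (z - ζ) := by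
  rw [cv_eq]
  rfl

theorem flip_d {ρ : V → ℝ} (hρ : Sm ρ) (z : V) (i : Fin 4) (ζ : V) :
    d i (fun ζ => ρ (z - ζ)) ζ = -d i ρ (z - ζ) := by
  unfold d
  have h1 : HasFDerivAt (fun ζ : V => z - ζ) (-ContinuousLinearMap.id ℝ V) ζ :=
    (hasFDerivAt_id ζ).const_sub z
  have h2 := ((hρ.dAt (z - ζ)).hasFDerivAt).comp ζ h1
  have h3 : fderiv ℝ (fun ζ : V => ρ (z - ζ)) ζ =
      (fderiv ℝ ρ (z - ζ)).comp (-ContinuousLinearMap.id ℝ V) := h2.fderiv
  rw [h3]
  simp

theorem byp {ρ f : V → ℝ} (hρ : Sm ρ) (hc : HasCompactSupport ρ) (hf : Sm f)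
    (i : Fin 4) (z : V) : cv (d i ρ) f z = cv ρ (d i f) z := by
  have hs : Sm fun ζ => ρ (z - ζ) := hρ.cd.comp (contDiff_const.sub contDiff_id)
  have hk : HasCompactSupport fun ζ => ρ (z - ζ) :=
    hc.comp_homeomorph (Homeomorph.subLeft z)
  have h := d_ibp hf hs hk i
  have h1 : cv ρ (d i f) z = ∫ ζ, d i f ζ * ρ (z - ζ) := by
    unfold cv
    exact integral_congr_ae (Filter.Eventually.of_forall fun ζ => mul_comm _ _)
  have h2 : cv (d i ρ) f z = -∫ ζ, f ζ * d i (fun ζ => ρ (z - ζ)) ζ := by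
    unfold cv
    rw [← integral_neg]
    refine integral_congr_ae (Filter.Eventually.of_forall fun ζ => ?_)
    simp only [flip_d hρ z i ζ]
    ring
  rw [h1, h2, h]

end CNV_

theorem p_CNV : T_CNV := by
  intro ρ f hρ hc hf
  refine ⟨CNV_.sm hρ hc hf, CNV_.der hρ hc hf, CNV_.swap ρ f, ?_⟩
  intro hs i z
  rw [CNV_.der hρ hc hf, CNV_.byp hρ hc hs]

end Pool.Agent.GNS
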