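import Pool.Agent.GNS.T1

set_option autoImplicit false

namespace Pool.Agent.GNS

theorem p_COF : T_COF := by
  intro F1 F2 κ p00 p01 p11 s0 s01 s1 h1 h2
  have hP : ∀ a b : ℝ, 0 ≤ a ^ 2 * (p00 - F1 + κ) + 2 * a * b * p01 +
      b ^ 2 * (p11 - F2 + κ) := by
    intro a b
    have := h1 a b
    nlinarith
  have hP0 : 0 ≤ p00 - F1 + κ := by
    have := hP 1 0
    nlinarith
  have hs0 : 0 ≤ s0 := by
    have := h2 1 0
    nlinarith
  have hs1 : 0 ≤ s1 := by
    have := h2 0 1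
    nlinarith
  have key : 0 ≤ (p11 - F2 + κ) * s0 - 2 * p01 * s01 + (p00 - F1 + κ) * s1 := by
    rcases eq_or_lt_of_le hs0 with h0 | h0
    · have h01 : s01 = 0 := by
        by_contra hne
        have h3 := h2 (-(s1 + 1) / (2 * s01)) 1
        rw [← h0] at h3
        have h4 : 2 * (-(s1 + 1) / (2 * s01)) * 1 * s01 = -(s1 + 1) := by
          field_simp
        rw [h4] at h3
        linarith
      rw [← h0, h01]
      have := mul_nonneg hP0 hs1
      linarith
    · have h3 : s01 ^ 2 ≤ s0 * s1 := by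
        have h4 := h2 (-s01) s0
        have h5 : 0 ≤ s0 * (s0 * s1 - s01 ^ 2) := by
          calc 0 ≤ (-s01) ^ 2 * s0 + 2 * (-s01) * s0 * s01 + s0 ^ 2 * s1 := h4
            _ = s0 * (s0 * s1 - s01 ^ 2) := by ring
        have h6 := (mul_nonneg_iff_of_pos_left h0).1 h5
        linarith
      have h7 := hP (-s01) s0
      have h8 := mul_le_mul_of_nonneg_left h3 hP0
      have h9 : 0 ≤ s0 * ((p11 - F2 + κ) * s0 - 2 * p01 * s01 + (p00 - F1 + κ) * s1) := by
        calc 0 ≤ (-s01) ^ 2 * (p00 - F1 + κ) + 2 * (-s01) * s0 * p01 +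
              s0 ^ 2 * (p11 - F2 + κ) := h7
          _ ≤ s0 * ((p11 - F2 + κ) * s0 - 2 * p01 * s01 + (p00 - F1 + κ) * s1) := by
              nlinarith
      exact (mul_nonneg_iff_of_pos_left h0).1 h9
  nlinarith

end Pool.Agent.GNS
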