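import Pool.Agent.GNS.T3

set_option autoImplicit false

open Metric Set Filter Topology MeasureTheory Pool.Agent.GLB

noncomputable section

namespace Pool.Agent.GNS

/-- a smooth function equal to one on a ball and to zero outside a larger ball -/
theorem CT3_bump (m : ℕ) (r R : ℝ) (hr : 0 < r) (hR : r < R) :
    ∃ f : E m → ℝ, SmE f ∧ (∀ x, 0 ≤ f x ∧ f x ≤ 1) ∧ (∀ x, ‖x‖ ≤ r → f x = 1) ∧
      ∀ x, R ≤ ‖x‖ → f x = 0 := by
  let b : ContDiffBump (0 : E m) := ⟨r, R, hr, hR⟩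
  refine ⟨b, b.contDiff, fun x => ⟨b.nonneg, b.le_one⟩, fun x hx => ?_, fun x hx => ?_⟩
  · apply b.one_of_mem_closedBall
    rw [mem_closedBall, dist_zero_right]
    exact hx
  · apply b.zero_of_le_dist
    rw [dist_zero_right]
    exact hx

theorem p_CT3 : T_CT3 := by
  intro m
  obtain ⟨fa, a1, a2, a3, a4⟩ := CT3_bump m 2 (5 / 2) (by norm_num) (by norm_num)
  obtain ⟨fb, b1, b2, b3, b4⟩ := CT3_bump m 3 (7 / 2) (by norm_num) (by norm_num)
  obtain ⟨fc, c1, c2, c3, c4⟩ := CT3_bump m (15 / 4) 4 (by norm_num) (by norm_num)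
  exact ⟨fa, fb, fc, ⟨a1, b1, c1, a2, b2, c2, a3, a4, b3, b4, c3, c4⟩⟩

end Pool.Agent.GNS
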