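import Pool.Agent.GNS.T2

/-!
# GNS, target CTS: smooth cut-off functions
-/

set_option autoImplicit false

open Metric Set Filter Topology MeasureTheory

noncomputable section

namespace Pool.Agent.GNS

namespace CTS_

/-- The bump function for `ζ0`. -/
def b0 : ContDiffBump (0 : V) := ⟨1 / 2, 1, by norm_num, by norm_num⟩

/-- The bump function for `ζ1`. -/
def b1 : ContDiffBump (0 : V) := ⟨2, 3, by norm_num, by norm_num⟩

end CTS_

open CTS_ in
theorem p_CTS : T_CTS := by
  refine ⟨fun z => b0 z, fun z => b1 z, ?_⟩
  constructor
  · exact b0.contDiff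
  · exact b1.contDiff
  · exact fun z => b0.nonneg
  · exact fun z => b0.le_one
  · exact fun z => b1.nonneg
  · exact fun z => b1.le_one
  · intro z hz
    apply b0.one_of_mem_closedBall
    rw [mem_closedBall_zero_iff]
    exact hz
  · intro z hz
    apply b0.zero_of_le_dist
    rw [dist_zero_right]
    exact hz
  · intro z hz
    apply b1.one_of_mem_closedBall
    rw [mem_closedBall_zero_iff]
    exact hz
  · intro z hz
    apply b1.zero_of_le_dist
    rw [dist_zero_right]
    exact hz

end Pool.Agent.GNS
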