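import Pool.Agent.GNS.T5

/-!
# GNS: target DAR, the derived area measure
-/

set_option autoImplicit false

open Metric Set Filter Topology MeasureTheory

noncomputable section

namespace Pool.Agent.GNS

open Pool.Agent.GLB

namespace DAR_

variable {n : ℕ}

lemma supp_zero (u : E n) : supp (0 : ConvexBody (E n)) u = 0 := by
  have h := (gSUA n).2.2.1 (0 : ConvexBody (E n)) 0 u
  rw [add_zero] at h
  linarith

lemma zero_smul_body (K : ConvexBody (E n)) : (0 : ℝ) • K = 0 := by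
  apply (gSUL n _ _).2.1
  intro u
  rw [(gSUA n).2.2.2.1 K 0 u le_rfl, supp_zero, zero_mul]

/-- the direction of the projection -/
def dr (v : S (n + 1)) : E n := ‖prj (v : E (n + 1))‖⁻¹ • prj (v : E (n + 1))

lemma isOpen_pre (h_EMB : T_EMB) (U : Set (S n)) (hU : IsOpen U) :
    IsOpen {v : S (n + 1) | prj (v : E (n + 1)) ≠ 0 ∧ ∃ u ∈ U, (u : E n) = dr v} := by
  obtain ⟨O, hO, rfl⟩ := isOpen_induced_iff.1 hU
  have hc : Continuous (prj : E (n + 1) → E n) := (h_EMB n).2.2.2.2.2.1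
  have hp : Continuous fun v : S (n + 1) => prj (v : E (n + 1)) :=
    hc.comp continuous_subtype_val
  have h1 : IsOpen {v : S (n + 1) | prj (v : E (n + 1)) ≠ 0} :=
    isOpen_ne_fun hp continuous_const
  have h2 : ContinuousOn (fun v : S (n + 1) => dr v)
      {v : S (n + 1) | prj (v : E (n + 1)) ≠ 0} := by
    intro v hv
    have h3 : ContinuousAt (fun v : S (n + 1) => ‖prj (v : E (n + 1))‖⁻¹) v :=
      hp.norm.continuousAt.inv₀ (norm_ne_zero_iff.2 hv)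
    exact (h3.smul hp.continuousAt).continuousWithinAt
  have h4 := h2.isOpen_inter_preimage h1 hO
  have h5 : {v : S (n + 1) | prj (v : E (n + 1)) ≠ 0 ∧
      ∃ u ∈ (Subtype.val ⁻¹' O : Set (S n)), (u : E n) = dr v} =
      {v : S (n + 1) | prj (v : E (n + 1)) ≠ 0} ∩ (fun v : S (n + 1) => dr v) ⁻¹' O := by
    ext v
    constructor
    · rintro ⟨hv, u, hu, hd⟩
      refine ⟨hv, ?_⟩
      change dr v ∈ O
      rw [← hd]
      exact hu
    · rintro ⟨hv, hd⟩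
      refine ⟨hv, ⟨dr v, ?_⟩, hd, rfl⟩
      have hv' : prj (v : E (n + 1)) ≠ 0 := hv
      rw [mem_sphere_iff_norm, sub_zero, dr, norm_smul, norm_inv, norm_norm]
      exact inv_mul_cancel₀ (norm_ne_zero_iff.2 hv')
  rw [h5]
  exact h4

lemma supp_em (h_EMB : T_EMB) (K : ConvexBody (E n)) (v : S (n + 1))
    (hv : prj (v : E (n + 1)) ≠ 0) :
    supp (em K) (v : E (n + 1)) = ‖prj (v : E (n + 1))‖ * supp K (dr v) := by
  rw [(h_EMB n).2.2.2.2.2.2.2.1 K, ← (gSUH n K).1 _ (norm_nonneg _), dr, smul_smul,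
    mul_inv_cancel₀ (norm_ne_zero_iff.2 hv), one_smul]

end DAR_

theorem p_DAR (h_AF2 : T_AF2) (h_EMB : T_EMB) : T_DAR := by
  intro n k Ψ hΨ X hX
  have hem : Continuous (em : ConvexBody (E n) → ConvexBody (E (n + 1))) :=
    (h_EMB n).2.2.2.2.2.2.2.2.2.2.1
  have hcont : ∀ φ : C(S n, ℂ), Continuous fun K : ConvexBody (E n) =>
      ((Ψ (em K + Jl) - Ψ (em K)).comp X) φ := by
    intro φ
    have h1 : Continuous fun K : ConvexBody (E n) => Ψ (em K + Jl) (X φ) :=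
      (hΨ.cont (X φ)).comp (((gCTA (n + 1)).1 Jl).comp hem)
    have h2 : Continuous fun K : ConvexBody (E n) => Ψ (em K) (X φ) :=
      (hΨ.cont (X φ)).comp hem
    exact h1.sub h2
  have hpos : ∀ (K : ConvexBody (E n)) (t : ℝ), 0 < t → ∀ φ : C(S n, ℂ),
      ((Ψ (em (t • K) + Jl) - Ψ (em (t • K))).comp X) φ =
        (t : ℂ) ^ k * ((Ψ (em K + Jl) - Ψ (em K)).comp X) φ := by
    intro K t ht φ
    have h1 : em (t • K) = t • em K := (h_EMB n).2.2.2.2.2.2.2.2.2.1 K t ht.le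
    have h2 : t • em K + Jl = t • (em K + t⁻¹ • (Jl : ConvexBody (E (n + 1)))) := by
      rw [smul_add, smul_smul, mul_inv_cancel₀ ht.ne', one_smul]
    have h3 := h_AF2 n (k + 1) Ψ hΨ (X φ) (em K) t⁻¹ (inv_nonneg.2 ht.le)
    have h4 : Ψ (t • em K + Jl) (X φ) = (t : ℂ) ^ (k + 1) *
        (Ψ (em K) (X φ) + ((t⁻¹ : ℝ) : ℂ) * (Ψ (em K + Jl) (X φ) - Ψ (em K) (X φ))) := by
      rw [h2, hΨ.homog _ t ht.le, ContinuousLinearMap.smul_apply, smul_eq_mul, h3]
    have h5 : Ψ (t • em K) (X φ) = (t : ℂ) ^ (k + 1) * Ψ (em K) (X φ) := by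
      rw [hΨ.homog _ t ht.le, ContinuousLinearMap.smul_apply, smul_eq_mul]
    have h6 : (t : ℂ) ≠ 0 := by exact_mod_cast ht.ne'
    change Ψ (em (t • K) + Jl) (X φ) - Ψ (em (t • K)) (X φ) =
      (t : ℂ) ^ k * (Ψ (em K + Jl) (X φ) - Ψ (em K) (X φ))
    rw [h1, h4, h5]
    push_cast
    field_simp
    ring
  refine ⟨hcont, ?_, ?_, ?_⟩
  · intro K L U hU hKL φ hφ
    have hU' := DAR_.isOpen_pre h_EMB U hU
    have h1 : ∀ v ∈ {v : S (n + 1) | prj (v : E (n + 1)) ≠ 0 ∧ ∃ u ∈ U,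
        (u : E n) = DAR_.dr v}, supp (em K) (v : E (n + 1)) = supp (em L) (v : E (n + 1)) := by
      rintro v ⟨hv, u, hu, hd⟩
      rw [DAR_.supp_em h_EMB K v hv, DAR_.supp_em h_EMB L v hv, ← hd, hKL u hu]
    have h2 : ∀ v, v ∉ {v : S (n + 1) | prj (v : E (n + 1)) ≠ 0 ∧ ∃ u ∈ U,
        (u : E n) = DAR_.dr v} → X φ v = 0 := by
      intro v hv
      rw [hX, exf]
      split_ifs with h
      · rw [hφ, mul_zero]
        intro hu
        exact hv ⟨h, _, hu, rfl⟩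
      · rfl
    have h3 := hΨ.loc (em K) (em L) _ hU' h1 (X φ) h2
    have h4 := hΨ.loc (em K + Jl) (em L + Jl) _ hU' (by
      intro v hv
      rw [(gSUA (n + 1)).2.2.1, (gSUA (n + 1)).2.2.1, h1 v hv]) (X φ) h2
    change Ψ (em K + Jl) (X φ) - Ψ (em K) (X φ) = Ψ (em L + Jl) (X φ) - Ψ (em L) (X φ)
    rw [h3, h4]
  · intro K x
    have h1 : em (K + pt x) = em K + pt (emb x) := (h_EMB n).2.2.2.2.2.2.2.2.1 K x
    have h2 : em K + pt (emb x) + Jl = em K + Jl + pt (emb x) := add_right_comm _ _ _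
    simp only [h1, h2, hΨ.trans]
  · intro K t ht
    ext φ
    rw [ContinuousLinearMap.smul_apply, smul_eq_mul]
    rcases ht.eq_or_lt with h0 | h0
    · subst h0
      have hT : Tendsto (fun m : ℕ => ((1 / ((m : ℝ) + 1) : ℝ)) • K) atTop (𝓝 0) :=
        (gCTA n).2.2.1 K
      rw [← DAR_.zero_smul_body K] at hT
      have h1 := ((hcont φ).tendsto ((0 : ℝ) • K)).comp hT
      have h2 : Tendsto (fun m : ℕ => (((1 / ((m : ℝ) + 1) : ℝ)) : ℂ) ^ k *
          ((Ψ (em K + Jl) - Ψ (em K)).comp X) φ) atTop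
          (𝓝 (((0 : ℝ) : ℂ) ^ k * ((Ψ (em K + Jl) - Ψ (em K)).comp X) φ)) := by
        have h3 : Tendsto (fun m : ℕ => (1 / ((m : ℝ) + 1) : ℝ)) atTop (𝓝 0) :=
          tendsto_one_div_add_atTop_nhds_zero_nat
        have h4 : Tendsto (fun m : ℕ => (((1 / ((m : ℝ) + 1) : ℝ)) : ℂ)) atTop
            (𝓝 ((0 : ℝ) : ℂ)) := (Complex.continuous_ofReal.tendsto 0).comp h3
        exact (h4.pow k).mul_const _
      refine tendsto_nhds_unique h1 (h2.congr ?_)
      intro m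
      exact (hpos K _ (by positivity) φ).symm
    · exact hpos K t h0 φ

end Pool.Agent.GNS
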