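import Pool.Agent.GNS.T1

/-!
# GNS: total charges are bounded (DBF)
-/

set_option autoImplicit false

open Metric Set Filter Topology MeasureTheory

noncomputable section

namespace Pool.Agent.GNS

namespace DBF_

theorem sm_SS {w : V → ℝ} (hw : Sm w) (i : Fin 4) : Sm fun z => SS i w z := by
  unfold SS
  exact ((((hw.d i).d i).mul (((hw.d 2).d 2).add ((hw.d 3).d 3))).sub (((hw.d 2).d i).pow 2)).sub
    (((hw.d 3).d i).pow 2)

theorem sm_S01 {w : V → ℝ} (hw : Sm w) : Sm fun z => S01 w z := by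
  unfold S01
  exact ((((hw.d 1).d 0).mul (((hw.d 2).d 2).add ((hw.d 3).d 3))).sub
    (((hw.d 2).d 0).mul ((hw.d 2).d 1))).sub (((hw.d 3).d 0).mul ((hw.d 3).d 1))

theorem int_mul {χ f : V → ℝ} (hχ : Sm χ) (hc : HasCompactSupport χ) (hf : Sm f) :
    Integrable fun z => χ z * f z :=
  int_of (hχ.cont.mul hf.cont) hc.mul_right

end DBF_

open DBF_ in
theorem p_DBF (hFBD : T_FBD) (hCOF : T_COF) (hSNN : T_SNN) (hMAS : T_MAS) : T_DBF := by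
  intro ζ0 ζ1 hcut
  obtain ⟨C1, hC1⟩ := hFBD ζ0 ζ1 hcut
  have hcs : HasCompactSupport ζ1 := hcs_of hcut.out1
  obtain ⟨C2, hC20, hC2⟩ := hMAS ζ1 hcut.sm1 hcs hcut.nn1
  refine ⟨C1 + 4 * C2, ?_⟩
  intro Φ F1 F2 κ hΦ hX hF1 hF2 hκ0 hκ1 hgr hconv w hw
  have hs0 := sm_SS hw.sm 0
  have hs1 := sm_SS hw.sm 1
  have hs01 := sm_S01 hw.sm
  -- the two parts of the upper bound
  have hA : Sm fun z => d 1 (d 1 Φ) z * SS 0 w z - 2 * d 0 (d 1 Φ) z * S01 w z +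
      d 0 (d 0 Φ) z * SS 1 w z :=
    ((((hΦ.d 1).d 1).mul hs0).sub ((((hΦ.d 1).d 0).cmul 2).mul hs01)).add
      (((hΦ.d 0).d 0).mul hs1)
  have hiA := int_mul hcut.sm1 hcs hA
  have hiS0 := int_mul hcut.sm1 hcs hs0
  have hiS1 := int_mul hcut.sm1 hcs hs1
  have hiL : Integrable fun z => ζ1 z * (F2 z * SS 0 w z + F1 z * SS 1 w z) :=
    int_mul hcut.sm1 hcs ((hF2.mul hs0).add (hF1.mul hs1))
  -- pointwise bound
  have hpt : ∀ z, ζ1 z * (F2 z * SS 0 w z + F1 z * SS 1 w z) ≤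
      ζ1 z * (d 1 (d 1 Φ) z * SS 0 w z - 2 * d 0 (d 1 Φ) z * S01 w z +
        d 0 (d 0 Φ) z * SS 1 w z) + κ * (ζ1 z * SS 0 w z + ζ1 z * SS 1 w z) := by
    intro z
    by_cases hz : ‖z‖ ≤ 3
    · have h1 := hCOF (F1 z) (F2 z) κ (d 0 (d 0 Φ) z) (d 0 (d 1 Φ) z) (d 1 (d 1 Φ) z)
        (SS 0 w z) (S01 w z) (SS 1 w z) (hconv z hz) (fun a b => hSNN w hw.sm hw.cvx z a b)
      have h2 := mul_le_mul_of_nonneg_left h1 (hcut.nn1 z)
      nlinarith [h2]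
    · have h1 : ζ1 z = 0 := hcut.out1 z (not_le.1 hz).le
      rw [h1]
      simp
  have hiB : Integrable fun z => κ * (ζ1 z * SS 0 w z + ζ1 z * SS 1 w z) :=
    (hiS0.add hiS1).const_mul κ
  have hmono : ∫ z, ζ1 z * (F2 z * SS 0 w z + F1 z * SS 1 w z) ≤
      ∫ z, (ζ1 z * (d 1 (d 1 Φ) z * SS 0 w z - 2 * d 0 (d 1 Φ) z * S01 w z +
        d 0 (d 0 Φ) z * SS 1 w z) + κ * (ζ1 z * SS 0 w z + ζ1 z * SS 1 w z)) :=
    integral_mono hiL (hiA.add hiB) hpt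
  rw [integral_add hiA hiB, integral_const_mul, integral_add hiS0 hiS1] at hmono
  have hFB := hC1 Φ hΦ hX hgr w hw
  -- the masses of the minors
  have hSS : ∀ i : Fin 4, ∫ z, ζ1 z * SS i w z ≤ 2 * C2 := by
    intro i
    have e1 : ∀ k : Fin 4, Sm fun z => d i (d i w) z * d k (d k w) z - d i (d k w) z ^ 2 :=
      fun k => (((hw.sm.d i).d i).mul ((hw.sm.d k).d k)).sub (((hw.sm.d k).d i).pow 2)
    have h1 : (fun z => ζ1 z * SS i w z) = fun z =>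
        ζ1 z * (d i (d i w) z * d 2 (d 2 w) z - d i (d 2 w) z ^ 2) +
        ζ1 z * (d i (d i w) z * d 3 (d 3 w) z - d i (d 3 w) z ^ 2) := by
      funext z
      unfold SS
      ring
    rw [h1, integral_add (int_mul hcut.sm1 hcs (e1 2)) (int_mul hcut.sm1 hcs (e1 3))]
    have h2 := (hC2 w hw).2 i 2
    have h3 := (hC2 w hw).2 i 3
    linarith
  have h0 := hSS 0
  have h1 := hSS 1
  have h4 : κ * ((∫ z, ζ1 z * SS 0 w z) + ∫ z, ζ1 z * SS 1 w z) ≤ 4 * C2 := by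
    have h5 : κ * ((∫ z, ζ1 z * SS 0 w z) + ∫ z, ζ1 z * SS 1 w z) ≤ κ * (4 * C2) :=
      mul_le_mul_of_nonneg_left (by linarith) hκ0
    have h6 : κ * (4 * C2) ≤ 1 * (4 * C2) := mul_le_mul_of_nonneg_right hκ1 (by linarith)
    linarith
  linarith

end Pool.Agent.GNS
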