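import Pool.Agent.GNS.T1

/-!
# GNS: the determinant of the gradient map in the second variable (target DET)
-/

set_option autoImplicit false

open Metric Set Filter Topology MeasureTheory

noncomputable section

namespace Pool.Agent.GNS

namespace DET_

/-- coordinates -/
def cf : V ≃ₗ[ℝ] (Fin 4 → ℝ) where
  toFun v := ![v.1.1, v.1.2, v.2.1, v.2.2]
  invFun c := ((c 0, c 1), (c 2, c 3))
  map_add' v w := by
    ext i
    fin_cases i <;> simp
  map_smul' c v := by
    ext i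
    fin_cases i <;> simp
  left_inv v := by simp
  right_inv c := by
    ext i
    fin_cases i <;> simp

/-- the basis `e` -/
def bs : Module.Basis (Fin 4) ℝ V := Module.Basis.ofEquivFun cf

theorem bs_apply (i : Fin 4) : bs i = e i := by
  rw [bs, Module.Basis.coe_ofEquivFun]
  apply cf.injective
  rw [LinearEquiv.apply_symm_apply]
  ext j
  fin_cases i <;> fin_cases j <;> simp [cf, e]

theorem bs_repr (v : V) (i : Fin 4) : bs.repr v i = ![v.1.1, v.1.2, v.2.1, v.2.2] i := by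
  rw [bs, Module.Basis.ofEquivFun_repr_apply]
  rfl

/-- the derivative of the gradient map -/
theorem fd_gy {F : V → ℝ} (hF : Sm F) (z v : V) :
    fderiv ℝ (gy F) z v = (v.1, (fderiv ℝ (d 2 F) z v, fderiv ℝ (d 3 F) z v)) := by
  have h1 : HasFDerivAt (fun z : V => z.1) (ContinuousLinearMap.fst ℝ X2 X2) z :=
    hasFDerivAt_fst
  have h2 : HasFDerivAt (d 2 F) (fderiv ℝ (d 2 F) z) z := ((hF.d 2).dAt z).hasFDerivAt
  have h3 : HasFDerivAt (d 3 F) (fderiv ℝ (d 3 F) z) z := ((hF.d 3).dAt z).hasFDerivAt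
  have h := h1.prodMk (h2.prodMk h3)
  have h' : HasFDerivAt (gy F) ((ContinuousLinearMap.fst ℝ X2 X2).prod
      ((fderiv ℝ (d 2 F) z).prod (fderiv ℝ (d 3 F) z))) z := h
  rw [h'.fderiv]
  rfl

end DET_

theorem p_DET : T_DET := by
  intro F hF z
  have h0 : (fderiv ℝ (gy F) z).det = LinearMap.det ((fderiv ℝ (gy F) z : V →L[ℝ] V) : V →ₗ[ℝ] V) :=
    rfl
  rw [h0, ← LinearMap.det_toMatrix DET_.bs]
  have hM : LinearMap.toMatrix DET_.bs DET_.bs
      ((fderiv ℝ (gy F) z : V →L[ℝ] V) : V →ₗ[ℝ] V) =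
      !![1, 0, 0, 0; 0, 1, 0, 0;
        d 0 (d 2 F) z, d 1 (d 2 F) z, d 2 (d 2 F) z, d 3 (d 2 F) z;
        d 0 (d 3 F) z, d 1 (d 3 F) z, d 2 (d 3 F) z, d 3 (d 3 F) z] := by
    ext i j
    rw [LinearMap.toMatrix_apply, DET_.bs_apply, DET_.bs_repr]
    have h : ((fderiv ℝ (gy F) z : V →L[ℝ] V) : V →ₗ[ℝ] V) (e j) =
        ((e j).1, (d j (d 2 F) z, d j (d 3 F) z)) := DET_.fd_gy hF z (e j)
    rw [h]
    fin_cases i <;> fin_cases j <;> simp [e]
  rw [hM, jac, d_comm hF 3 2]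
  simp [Matrix.det_succ_row_zero, Fin.sum_univ_succ, Fin.succAbove]
  ring

end Pool.Agent.GNS
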