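import Pool.Agent.GNS.T3

/-!
# GNS: target DME (the field)
-/

set_option autoImplicit false

open Metric Set Filter Topology MeasureTheory

noncomputable section

namespace Pool.Agent.GNS

open Pool.Agent.GLB

namespace DME_

theorem co_eb {m : ℕ} (i j : Fin m) : (eb i : E m) j = if j = i then 1 else 0 := by
  unfold eb
  rw [EuclideanSpace.single_apply]

theorem norm_eb {m : ℕ} (i : Fin m) : ‖(eb i : E m)‖ = 1 := by
  unfold eb
  rw [EuclideanSpace.norm_single, norm_one]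

theorem co_le {k : ℕ} (v : E (k + 4)) (i : Fin (k + 4)) : |v i| ≤ ‖v‖ := by
  have := PiLp.norm_apply_le v i
  rwa [Real.norm_eq_abs] at this

theorem bnd {X F : Type} [TopologicalSpace X] [NormedAddCommGroup F] {K : Set X}
    (hK : IsCompact K) (f : X → F) (hf : Continuous f) : ∃ B, 0 ≤ B ∧ ∀ x ∈ K, ‖f x‖ ≤ B := by
  obtain ⟨B, hB⟩ := hK.exists_bound_of_continuousOn hf.continuousOn
  exact ⟨max B 0, le_max_right _ _, fun x hx => (hB x hx).trans (le_max_left _ _)⟩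

theorem D2_zero {n : ℕ} (x v w : E n) : D2 (fun _ : E n => (0 : ℝ)) x v w = 0 := by
  unfold D2
  have : fderiv ℝ (fun _ : E n => (0 : ℝ)) = fun _ => 0 := by
    funext y
    exact fderiv_const_apply 0
  rw [this, fderiv_const_apply]
  rfl

theorem Hs_out {k : ℕ} (ζa : E (k + 4) → ℝ) (hout : ∀ x, 5 / 2 ≤ ‖x‖ → ζa x = 0)
    (F : E (k + 4) → ℝ) (x : E (k + 4)) (hx : 4 < ‖x‖) (i j : Fin (k + 4)) :
    Hs (fun y => ζa y * F y) x i j = 0 := by
  obtain ⟨-, -, -, -, -, q6, -⟩ := gPRD (k + 4)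
  have hev : (fun y => ζa y * F y) =ᶠ[𝓝 x] fun _ => (0 : ℝ) := by
    have : ∀ᶠ y in 𝓝 x, 4 < ‖y‖ := continuous_norm.continuousAt.eventually (lt_mem_nhds hx)
    filter_upwards [this] with y hy
    rw [hout y (by linarith), zero_mul]
  unfold Hs
  rw [q6 _ _ x hev, D2_zero]

theorem small {Eo : V → ℝ} (hE : Sm Eo) {z : V}
    (h : ∀ i k : Fin 4, (i = 1 ∨ i = 3) → |d i (d k Eo) z| ≤ 1) (a b : Fin 4)
    (hab : (a = 1 ∨ a = 3) ∨ (b = 1 ∨ b = 3)) : |d a (d b Eo) z| ≤ 1 := by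
  rcases hab with h1 | h1
  · exact h a b h1
  · rw [d_comm hE]
    exact h b a h1

theorem cl0 {k : ℕ} (h : 4 ≤ k + 4) : (Fin.castLE h (0 : Fin 4) : Fin (k + 4)) = 0 := by
  apply Fin.ext
  simp

theorem cl2 {k : ℕ} (h : 4 ≤ k + 4) : (Fin.castLE h (2 : Fin 4) : Fin (k + 4)) = 2 := by
  apply Fin.ext
  rw [Fin.val_castLE]
  have : ((2 : Fin (k + 4)) : ℕ) = 2 := by
    rw [Fin.coe_ofNat_eq_mod]
    exact Nat.mod_eq_of_lt (by omega)
  rw [this]
  rfl

theorem cl_ne {k : ℕ} (h : 4 ≤ k + 4) {a b : Fin 4} (hab : a ≠ b) :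
    (Fin.castLE h a : Fin (k + 4)) ≠ Fin.castLE h b :=
  fun hh => hab (Fin.castLE_injective h hh)

/-- the double sum for two of the first four basis vectors -/
theorem pick {k : ℕ} (h : 4 ≤ k + 4) (g : Fin 4 → Fin 4 → ℝ) (a b : Fin 4) :
    ∑ i : Fin 4, ∑ j : Fin 4,
      (eb (Fin.castLE h a) : E (k + 4)) (Fin.castLE h i) *
      (eb (Fin.castLE h b) : E (k + 4)) (Fin.castLE h j) * g i j = g a b := by
  rw [Finset.sum_eq_single a, Finset.sum_eq_single b]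
  · rw [co_eb, co_eb, if_pos rfl, if_pos rfl]
    ring
  · intro j _ hj
    rw [co_eb (Fin.castLE h b) (Fin.castLE h j), if_neg (cl_ne h hj)]
    ring
  · intro hb
    exact absurd (Finset.mem_univ b) hb
  · intro i _ hi
    refine Finset.sum_eq_zero fun j _ => ?_
    rw [co_eb (Fin.castLE h a) (Fin.castLE h i), if_neg (cl_ne h hi)]
    ring
  · intro ha
    exact absurd (Finset.mem_univ a) ha

theorem bigsum {k : ℕ} (h : 4 ≤ k + 4) (g : Fin 4 → Fin 4 → ℝ)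
    (hg : ∀ a b : Fin 4, ((a = 1 ∨ a = 3) ∨ (b = 1 ∨ b = 3)) → |g a b| ≤ 1)
    (i j : Fin (k + 4)) (hij : ¬ ((i = 0 ∨ i = 2) ∧ (j = 0 ∨ j = 2))) :
    |∑ a : Fin 4, ∑ b : Fin 4,
      (eb i : E (k + 4)) (Fin.castLE h a) * (eb j : E (k + 4)) (Fin.castLE h b) * g a b| ≤ 16 := by
  have key : ∀ a b : Fin 4,
      |(eb i : E (k + 4)) (Fin.castLE h a) * (eb j : E (k + 4)) (Fin.castLE h b) * g a b| ≤ 1 := by
    intro a b
    rw [co_eb, co_eb]
    by_cases h1 : Fin.castLE h a = i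
    · by_cases h2 : Fin.castLE h b = j
      · rw [if_pos h1, if_pos h2, one_mul, one_mul]
        apply hg
        by_contra hc
        apply hij
        have ha : a = 0 ∨ a = 2 := by
          fin_cases a <;> simp at hc ⊢
        have hb : b = 0 ∨ b = 2 := by
          fin_cases b <;> simp at hc ⊢
        constructor
        · rcases ha with rfl | rfl
          · left; rw [← h1, cl0]
          · right; rw [← h1, cl2]
        · rcases hb with rfl | rfl
          · left; rw [← h2, cl0]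
          · right; rw [← h2, cl2]
      · rw [if_neg h2]
        simp
    · rw [if_neg h1]
      simp
  refine (Finset.abs_sum_le_sum_abs _ _).trans ?_
  refine (Finset.sum_le_sum (fun a _ => (Finset.abs_sum_le_sum_abs _ _).trans
    (Finset.sum_le_sum (fun b _ => key a b)))).trans ?_
  simp only [Finset.sum_const, Finset.card_univ, Fintype.card_fin, smul_eq_mul, nsmul_eq_mul]
  norm_num

theorem main (hPRJ : T_PRJ) : T_DME := by
  intro k ζa ζb ζc hc
  have ha2 : ContDiff ℝ 2 ζa := contDiff_infty.1 hc.sma 2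
  have hcf : Continuous (fderiv ℝ ζa) := ha2.continuous_fderiv (by norm_num)
  have hf1 : ContDiff ℝ 1 (fderiv ℝ ζa) := ha2.fderiv_right (by norm_num)
  have hcff : Continuous (fderiv ℝ (fderiv ℝ ζa)) := hf1.continuous_fderiv (by norm_num)
  obtain ⟨A, hA0, hA⟩ := bnd (F := E (k + 4) →L[ℝ] ℝ)
    (isCompact_closedBall (0 : E (k + 4)) 4) (fderiv ℝ ζa) hcf
  obtain ⟨B, hB0, hB⟩ := bnd (F := E (k + 4) →L[ℝ] E (k + 4) →L[ℝ] ℝ)
    (isCompact_closedBall (0 : E (k + 4)) 4) (fderiv ℝ (fderiv ℝ ζa)) hcff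
  refine ⟨16 + 8 * A + B, by positivity, ?_⟩
  intro G d1 d2 Eo M1 M2 M3 hD x
  have h1 := hD.one1 (pr x)
  have h2 := hD.one2 (pr x)
  have hs2 : 1 ≤ Real.sqrt (d2 (pr x)) := Real.one_le_sqrt.2 h2
  have hs12 : 1 ≤ Real.sqrt (d1 (pr x) * d2 (pr x)) := Real.one_le_sqrt.2 (by nlinarith)
  have hp : 1 ≤ d1 (pr x) * Real.sqrt (d2 (pr x)) := by nlinarith
  rcases lt_or_ge 4 ‖x‖ with hx | hx
  · have h0 : ∀ i j, Hs (fun y => ζa y * Eo (pr y)) x i j = 0 :=
      fun i j => Hs_out ζa hc.outa (fun y => Eo (pr y)) x hx i j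
    refine ⟨?_, ?_, ?_, fun i j _ => ?_⟩ <;> rw [h0, abs_zero] <;> positivity
  obtain ⟨hp1, -, -, hp2⟩ := hPRJ k
  obtain ⟨hEs, hEf, hED⟩ := hp2 Eo hD.smE
  have hE2 : ContDiff ℝ 2 (fun x : E (k + 4) => Eo (pr x)) := contDiff_infty.1 hEs 2
  obtain ⟨q1, -⟩ := gPRD (k + 4)
  have hz : ‖(pr x : V)‖ ≤ 4 := (hp1 x).trans hx
  have hxb : x ∈ closedBall (0 : E (k + 4)) 4 := by
    rw [mem_closedBall, dist_zero_right]
    exact hx
  have hζ := hc.nna x
  -- the lower order terms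
  have e3 : ∀ i : Fin (k + 4), |fderiv ℝ (fun x : E (k + 4) => Eo (pr x)) x (eb i)| ≤ 4 := by
    intro i
    rw [hEf]
    have hco : ∀ l : Fin (k + 4), |(eb i : E (k + 4)) l| ≤ 1 := by
      intro l
      have := co_le (eb i : E (k + 4)) l
      rwa [norm_eb] at this
    have ht : ∀ (l : Fin (k + 4)) (m : Fin 4), |(eb i : E (k + 4)) l * d m Eo (pr x)| ≤ 1 := by
      intro l m
      rw [abs_mul]
      exact mul_le_one₀ (hco l) (abs_nonneg _) (hD.bE1 _ hz m)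
    have a0 := ht 0 0
    have a1 := ht 1 1
    have a2 := ht 2 2
    have a3 := ht 3 3
    rw [abs_le] at a0 a1 a2 a3 ⊢
    constructor <;> linarith [a0.1, a0.2, a1.1, a1.2, a2.1, a2.2, a3.1, a3.2]
  have e4 : ∀ i : Fin (k + 4), |fderiv ℝ ζa x (eb i)| ≤ A := by
    intro i
    have h1 := (fderiv ℝ ζa x).le_opNorm (eb i)
    rw [Real.norm_eq_abs, norm_eb, mul_one] at h1
    exact h1.trans (hA x hxb)
  have e5 : ∀ i j : Fin (k + 4), |D2 ζa x (eb i) (eb j)| ≤ B := by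
    intro i j
    unfold D2
    have h1 := (fderiv ℝ (fderiv ℝ ζa) x).le_opNorm₂ (eb i) (eb j)
    rw [Real.norm_eq_abs, norm_eb, norm_eb, mul_one, mul_one] at h1
    exact h1.trans (hB x hxb)
  have e6 : |Eo (pr x)| ≤ 1 := hD.bE _ hz
  have main : ∀ (i j : Fin (k + 4)) (L : ℝ),
      |D2 (fun x : E (k + 4) => Eo (pr x)) x (eb i) (eb j)| ≤ L →
      |Hs (fun y => ζa y * Eo (pr y)) x i j| ≤ L + 8 * A + B := by
    intro i j L hL
    unfold Hs
    rw [q1 ζa (fun y => Eo (pr y)) ha2 hE2]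
    have t1 : |ζa x * D2 (fun x : E (k + 4) => Eo (pr x)) x (eb i) (eb j)| ≤ L := by
      rw [abs_mul, abs_of_nonneg hζ.1]
      have := mul_le_mul hζ.2 hL (abs_nonneg _) zero_le_one
      linarith
    have t2 : |fderiv ℝ ζa x (eb i) *
        fderiv ℝ (fun x : E (k + 4) => Eo (pr x)) x (eb j)| ≤ A * 4 := by
      rw [abs_mul]
      exact mul_le_mul (e4 i) (e3 j) (abs_nonneg _) hA0
    have t3 : |fderiv ℝ ζa x (eb j) *
        fderiv ℝ (fun x : E (k + 4) => Eo (pr x)) x (eb i)| ≤ A * 4 := by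
      rw [abs_mul]
      exact mul_le_mul (e4 j) (e3 i) (abs_nonneg _) hA0
    have t4 : |Eo (pr x) * D2 ζa x (eb i) (eb j)| ≤ 1 * B := by
      rw [abs_mul]
      exact mul_le_mul e6 (e5 i j) (abs_nonneg _) zero_le_one
    rw [abs_le] at t1 t2 t3 t4 ⊢
    constructor <;> linarith [t1.1, t1.2, t2.1, t2.2, t3.1, t3.2, t4.1, t4.2]
  have h4 : 4 ≤ k + 4 := by omega
  have c0 : (0 : Fin (k + 4)) = Fin.castLE h4 0 := (cl0 h4).symm
  have c2 : (2 : Fin (k + 4)) = Fin.castLE h4 2 := (cl2 h4).symm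
  have d00 : D2 (fun x : E (k + 4) => Eo (pr x)) x (eb 0) (eb 0) = d 0 (d 0 Eo) (pr x) := by
    rw [hED, c0]
    exact pick h4 (fun i j => d i (d j Eo) (pr x)) 0 0
  have d02 : D2 (fun x : E (k + 4) => Eo (pr x)) x (eb 0) (eb 2) = d 0 (d 2 Eo) (pr x) := by
    rw [hED, c0, c2]
    exact pick h4 (fun i j => d i (d j Eo) (pr x)) 0 2
  have d22 : D2 (fun x : E (k + 4) => Eo (pr x)) x (eb 2) (eb 2) = d 2 (d 2 Eo) (pr x) := by
    rw [hED, c2]
    exact pick h4 (fun i j => d i (d j Eo) (pr x)) 2 2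
  refine ⟨?_, ?_, ?_, fun i j hij => ?_⟩
  · have b1 := hD.e00 _ hz
    have b2 := hD.bM1 (pr x)
    have b3 : |D2 (fun x : E (k + 4) => Eo (pr x)) x (eb 0) (eb 0)| ≤
        16 * (d1 (pr x) * Real.sqrt (d2 (pr x))) := by
      rw [d00]
      have := abs_sub_abs_le_abs_sub (d 0 (d 0 Eo) (pr x)) (M1 (pr x))
      nlinarith
    have b4 := main 0 0 _ b3
    nlinarith
  · have b1 := hD.e02 _ hz
    have b2 := hD.bM2 (pr x)
    have b3 : |D2 (fun x : E (k + 4) => Eo (pr x)) x (eb 0) (eb 2)| ≤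
        16 * Real.sqrt (d1 (pr x) * d2 (pr x)) := by
      rw [d02]
      have := abs_sub_abs_le_abs_sub (d 0 (d 2 Eo) (pr x)) (M2 (pr x))
      nlinarith
    have b4 := main 0 2 _ b3
    nlinarith
  · have b1 := hD.e22 _ hz
    have b2 := hD.bM3 (pr x)
    have b3 : |D2 (fun x : E (k + 4) => Eo (pr x)) x (eb 2) (eb 2)| ≤
        16 * Real.sqrt (d2 (pr x)) := by
      rw [d22]
      have := abs_sub_abs_le_abs_sub (d 2 (d 2 Eo) (pr x)) (M3 (pr x))
      nlinarith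
    have b4 := main 2 2 _ b3
    nlinarith
  · apply main
    rw [hED]
    exact bigsum h4 (fun a b => d a (d b Eo) (pr x))
      (fun a b hab => small hD.smE (hD.eo _ hz) a b hab) i j hij

end DME_

theorem p_DME (hPRJ : T_PRJ) : T_DME := DME_.main hPRJ

end Pool.Agent.GNS
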