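import Pool.Agent.GNS.T3

/-!
# GNS: the target DMI, the waves are dominated
-/

set_option autoImplicit false

open Metric Set Filter Topology MeasureTheory

noncomputable section

namespace Pool.Agent.GNS

open Pool.Agent.GLB

namespace DMI_

theorem inner_eb {m : ℕ} (i : Fin m) (v : E m) : inner ℝ (eb i) v = v i := by
  unfold eb
  rw [EuclideanSpace.inner_single_left]
  simp

theorem two_ne {k : ℕ} : (2 : Fin (k + 4)) ≠ 3 := by
  intro h
  have h1 := congrArg Fin.val h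
  have h2 : ((2 : Fin (k + 4)) : ℕ) = 2 % (k + 4) := rfl
  have h3 : ((3 : Fin (k + 4)) : ℕ) = 3 % (k + 4) := rfl
  rw [h2, h3, Nat.mod_eq_of_lt (by omega), Nat.mod_eq_of_lt (by omega)] at h1
  omega

theorem sq_le {k : ℕ} (v : E (k + 4)) : v 2 ^ 2 + v 3 ^ 2 ≤ ‖v‖ ^ 2 := by
  rw [EuclideanSpace.norm_sq_eq]
  have h1 : ∑ i ∈ ({2, 3} : Finset (Fin (k + 4))), ‖v i‖ ^ 2 ≤ ∑ i, ‖v i‖ ^ 2 :=
    Finset.sum_le_sum_of_subset_of_nonneg (Finset.subset_univ _) fun i _ _ => by positivity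
  rw [Finset.sum_pair two_ne] at h1
  simpa [sq_abs] using h1

theorem sl_nonneg (t : ℝ) : 0 ≤ sl t := by
  unfold sl
  positivity

theorem sl_sm {m : ℕ} (f : E m → ℝ) (hf : SmE f) (hp : ∀ x, 0 ≤ f x) :
    SmE (fun x => sl (f x)) := by
  unfold sl
  refine ContDiff.div (hf.pow 2) ((contDiff_const.add hf).pow 4) fun x => ?_
  have := hp x
  positivity

/-- the two waves of one frequency -/
theorem two_sum {k : ℕ} (a b : ℝ) (i j : Fin (k + 4)) (v : E (k + 4)) :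
    a * inner ℝ (b • (eb i : E (k + 4)) + sg true • eb j) v ^ 2 +
      a * inner ℝ (b • (eb i : E (k + 4)) + sg false • eb j) v ^ 2 =
      2 * a * (b ^ 2 * v i ^ 2 + v j ^ 2) := by
  rw [inner_add_left, inner_add_left, inner_smul_left, inner_smul_left, inner_smul_left,
    inner_eb, inner_eb]
  simp only [sg, conj_trivial, if_true, Bool.false_eq_true, if_false]
  ring

/-- the sums of LAD -/
theorem lad (hLAD : T_LAD) (K : ℕ) (t : ℝ) (ht : 1 ≤ t) :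
    ∑ n : Fin K, sl (t / 4 ^ (n : ℕ)) ≤ 3 ∧
    ∑ n : Fin K, 4 ^ (n : ℕ) * sl (t / 4 ^ (n : ℕ)) ≤ 3 * t := by
  obtain ⟨h1, h2, -⟩ := hLAD K t ht
  constructor
  · rw [Fin.sum_univ_eq_sum_range (fun n => sl (t / 4 ^ n)) K]
    exact h1
  · rw [Fin.sum_univ_eq_sum_range (fun n => 4 ^ n * sl (t / 4 ^ n)) K]
    exact h2

/-- the sum over one family of waves -/
theorem fam {k : ℕ} (hLAD : T_LAD) (K : ℕ) (z t : ℝ) (hz : 0 ≤ z) (ht : 1 ≤ t)
    (i j : Fin (k + 4)) (v : E (k + 4)) :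
    ∑ n : Fin K, (z * sl (t / 4 ^ (n : ℕ)) / 64 *
        inner ℝ ((2 : ℝ) ^ (n : ℕ) • (eb i : E (k + 4)) + sg true • eb j) v ^ 2 +
      z * sl (t / 4 ^ (n : ℕ)) / 64 *
        inner ℝ ((2 : ℝ) ^ (n : ℕ) • (eb i : E (k + 4)) + sg false • eb j) v ^ 2) ≤
      3 / 32 * (z * (t * v i ^ 2 + v j ^ 2)) := by
  obtain ⟨h1, h2⟩ := lad hLAD K t ht
  have h3 : ∀ n : Fin K, (z * sl (t / 4 ^ (n : ℕ)) / 64 *
        inner ℝ ((2 : ℝ) ^ (n : ℕ) • (eb i : E (k + 4)) + sg true • eb j) v ^ 2 +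
      z * sl (t / 4 ^ (n : ℕ)) / 64 *
        inner ℝ ((2 : ℝ) ^ (n : ℕ) • (eb i : E (k + 4)) + sg false • eb j) v ^ 2) =
      z / 32 * v i ^ 2 * (4 ^ (n : ℕ) * sl (t / 4 ^ (n : ℕ))) +
        z / 32 * v j ^ 2 * sl (t / 4 ^ (n : ℕ)) := by
    intro n
    rw [two_sum]
    have h4 : ((2 : ℝ) ^ (n : ℕ)) ^ 2 = 4 ^ (n : ℕ) := by
      rw [← pow_mul, mul_comm, pow_mul]
      norm_num
    rw [h4]
    ring
  rw [Finset.sum_congr rfl fun n _ => h3 n, Finset.sum_add_distrib, ← Finset.mul_sum,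
    ← Finset.mul_sum]
  have h5 : z / 32 * v i ^ 2 * ∑ n : Fin K, 4 ^ (n : ℕ) * sl (t / 4 ^ (n : ℕ)) ≤
      z / 32 * v i ^ 2 * (3 * t) := mul_le_mul_of_nonneg_left h2 (by positivity)
  have h6 : z / 32 * v j ^ 2 * ∑ n : Fin K, sl (t / 4 ^ (n : ℕ)) ≤
      z / 32 * v j ^ 2 * 3 := mul_le_mul_of_nonneg_left h1 (by positivity)
  linarith

end DMI_

open DMI_ in
theorem p_DMI (hLAD : T_LAD) (hPRJ : T_PRJ) : T_DMI := by
  intro k ζa ζb ζc hC d1 d2 hd1 hd2 h1 h2 K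
  obtain ⟨-, -, -, hP⟩ := hPRJ k
  have s1 : SmE (fun x : E (k + 4) => d1 (pr x)) := (hP d1 hd1).1
  have s2 : SmE (fun x : E (k + 4) => d2 (pr x)) := (hP d2 hd2).1
  have p1 : ∀ z, 0 ≤ d1 z := fun z => zero_le_one.trans (h1 z)
  have p2 : ∀ z, 0 ≤ d2 z := fun z => zero_le_one.trans (h2 z)
  have q1 : ∀ (n : ℕ), SmE (fun x : E (k + 4) => sl (d1 (pr x) / 4 ^ n)) := fun n =>
    sl_sm _ (s1.div_const _) fun x => by
      have := p1 (pr x)
      positivity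
  have q2 : ∀ (n : ℕ), SmE (fun x : E (k + 4) => sl (d2 (pr x) / 4 ^ n)) := fun n =>
    sl_sm _ (s2.div_const _) fun x => by
      have := p2 (pr x)
      positivity
  refine ⟨?_, ?_, ?_, ?_, ?_⟩
  · rintro ((_ | _) | (⟨n, σ⟩ | ⟨n, σ⟩))
    · exact (hC.smb.mul s1).div_const _
    · exact hC.smb.div_const _
    · exact (hC.smb.mul (q1 n)).div_const _
    · exact (hC.smb.mul (q2 n)).div_const _
  · rintro ((_ | _) | (⟨n, σ⟩ | ⟨n, σ⟩)) x
    · have := p1 (pr x)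
      have := (hC.nnb x).1
      show 0 ≤ ζb x * d1 (pr x) / 8
      positivity
    · have := (hC.nnb x).1
      show 0 ≤ ζb x / 8
      positivity
    · have := (hC.nnb x).1
      have := sl_nonneg (d1 (pr x) / 4 ^ (n : ℕ))
      show 0 ≤ ζb x * sl (d1 (pr x) / 4 ^ (n : ℕ)) / 64
      positivity
    · have := (hC.nnb x).1
      have := sl_nonneg (d2 (pr x) / 4 ^ (n : ℕ))
      show 0 ≤ ζb x * sl (d2 (pr x) / 4 ^ (n : ℕ)) / 64
      positivity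
  · rintro ((_ | _) | (⟨n, σ⟩ | ⟨n, σ⟩)) x hx
    · have h3 : ζb x = 0 := hC.outb x (by linarith)
      show ζb x * d1 (pr x) / 8 = 0
      rw [h3, zero_mul, zero_div]
    · have h3 : ζb x = 0 := hC.outb x (by linarith)
      show ζb x / 8 = 0
      rw [h3, zero_div]
    · have h3 : ζb x = 0 := hC.outb x (by linarith)
      show ζb x * sl (d1 (pr x) / 4 ^ (n : ℕ)) / 64 = 0
      rw [h3, zero_mul, zero_div]
    · have h3 : ζb x = 0 := hC.outb x (by linarith)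
      show ζb x * sl (d2 (pr x) / 4 ^ (n : ℕ)) / 64 = 0
      rw [h3, zero_mul, zero_div]
  · intro x v
    obtain ⟨hz0, hz1⟩ := hC.nnb x
    have f1 := fam hLAD K (ζb x) (d1 (pr x)) hz0 (h1 _) 0 2 v
    have f2 := fam hLAD K (ζb x) (d2 (pr x)) hz0 (h2 _) 1 3 v
    have hs : ∑ a, wa K ζb d1 d2 a x * inner ℝ (wx K a) v ^ 2 =
        (ζb x / 8 * v 2 ^ 2 + ζb x * d1 (pr x) / 8 * v 0 ^ 2) +
        (∑ n : Fin K, (ζb x * sl (d1 (pr x) / 4 ^ (n : ℕ)) / 64 *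
          inner ℝ ((2 : ℝ) ^ (n : ℕ) • (eb 0 : E (k + 4)) + sg true • eb 2) v ^ 2 +
        ζb x * sl (d1 (pr x) / 4 ^ (n : ℕ)) / 64 *
          inner ℝ ((2 : ℝ) ^ (n : ℕ) • (eb 0 : E (k + 4)) + sg false • eb 2) v ^ 2) +
        ∑ n : Fin K, (ζb x * sl (d2 (pr x) / 4 ^ (n : ℕ)) / 64 *
          inner ℝ ((2 : ℝ) ^ (n : ℕ) • (eb 1 : E (k + 4)) + sg true • eb 3) v ^ 2 +
        ζb x * sl (d2 (pr x) / 4 ^ (n : ℕ)) / 64 *
          inner ℝ ((2 : ℝ) ^ (n : ℕ) • (eb 1 : E (k + 4)) + sg false • eb 3) v ^ 2)) := by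
      rw [Fintype.sum_sum_type, Fintype.sum_sum_type, Fintype.sum_prod_type,
        Fintype.sum_prod_type, Fintype.sum_bool]
      congr 1
      · show ζb x / 8 * inner ℝ (eb 2) v ^ 2 + ζb x * d1 (pr x) / 8 * inner ℝ (eb 0) v ^ 2 = _
        rw [inner_eb, inner_eb]
      · congr 1
        · refine Finset.sum_congr rfl fun n _ => ?_
          rw [Fintype.sum_bool]
          rfl
        · refine Finset.sum_congr rfl fun n _ => ?_
          rw [Fintype.sum_bool]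
          rfl
    rw [hs]
    have h3 := sq_le v
    have h4 : 0 ≤ ζb x * (d1 (pr x) * v 0 ^ 2) := by
      have := p1 (pr x)
      positivity
    have h5 : 0 ≤ ζb x * (d2 (pr x) * v 1 ^ 2) := by
      have := p2 (pr x)
      positivity
    have h6 : ζb x * v 2 ^ 2 ≤ v 2 ^ 2 := mul_le_of_le_one_left (by positivity) hz1
    have h7 : ζb x * v 3 ^ 2 ≤ v 3 ^ 2 := mul_le_of_le_one_left (by positivity) hz1
    have h8 : 0 ≤ v 2 ^ 2 := by positivity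
    have h9 : 0 ≤ v 3 ^ 2 := by positivity
    linarith
  · intro x
    obtain ⟨hz0, hz1⟩ := hC.nnb x
    obtain ⟨l1, -⟩ := lad hLAD K (d1 (pr x)) (h1 _)
    obtain ⟨l2, -⟩ := lad hLAD K (d2 (pr x)) (h2 _)
    have key : ∀ t : ℝ, ∑ n : Fin K, sl (t / 4 ^ (n : ℕ)) ≤ 3 →
        ∑ n : Fin K, ζb x * sl (t / 4 ^ (n : ℕ)) / 64 ≤ 3 / 64 := by
      intro t ht
      have h3 : ∑ n : Fin K, ζb x * sl (t / 4 ^ (n : ℕ)) / 64 =
          ζb x / 64 * ∑ n : Fin K, sl (t / 4 ^ (n : ℕ)) := by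
        rw [Finset.mul_sum]
        refine Finset.sum_congr rfl fun n _ => ?_
        ring
      rw [h3]
      have h4 : 0 ≤ ∑ n : Fin K, sl (t / 4 ^ (n : ℕ)) :=
        Finset.sum_nonneg fun n _ => sl_nonneg _
      calc ζb x / 64 * ∑ n : Fin K, sl (t / 4 ^ (n : ℕ)) ≤ 1 / 64 * 3 :=
            mul_le_mul (by linarith) ht h4 (by norm_num)
        _ = 3 / 64 := by norm_num
    exact ⟨key _ l1, key _ l2⟩

end Pool.Agent.GNS
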