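import Pool.Agent.GNS.T3

/-!
# GNS-DMK: the lower bound for the dyadic sums of squares of the amplitudes
-/

set_option autoImplicit false

open Metric Set Filter Topology MeasureTheory

noncomputable section

namespace Pool.Agent.GNS

/-- the dyadic scale of a number in `[1, 4^K)` -/
theorem DMK_scale (K : ℕ) (t : ℝ) (h1 : 1 ≤ t) (hK : t < 4 ^ K) :
    ∃ n : ℕ, n < K ∧ (4 : ℝ) ^ n ≤ t ∧ t < 4 ^ (n + 1) := by
  induction K with
  | zero => simp at hK; linarith
  | succ K ih =>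
    by_cases h : t < 4 ^ K
    · obtain ⟨n, hn, h2, h3⟩ := ih h
      exact ⟨n, by omega, h2, h3⟩
    · exact ⟨K, by omega, not_lt.mp h, hK⟩

/-- the profile is at least `16 / 625` on `[1, 4]` -/
theorem DMK_sl (u : ℝ) (h1 : 1 ≤ u) (h4 : u ≤ 4) : 16 / 625 ≤ sl u := by
  unfold sl
  rw [div_le_div_iff₀ (by norm_num) (by positivity)]
  have hb : 4 * (1 + u) ^ 2 ≤ 25 * u := by nlinarith
  have h0 : 0 ≤ 4 * (1 + u) ^ 2 := by positivity
  have := mul_self_le_mul_self h0 hb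
  nlinarith

/-- the lower bound for one family -/
theorem DMK_one (K : ℕ) (t : ℝ) (h1 : 1 ≤ t) (hK : t < 4 ^ K) :
    Real.sqrt t / 16384000 ≤
      ∑ n : Fin K, (2 : ℝ) ^ (n : ℕ) * (1 * sl (t / 4 ^ (n : ℕ)) / 64) ^ 2 := by
  obtain ⟨n, hn, h2, h3⟩ := DMK_scale K t h1 hK
  have hterm : Real.sqrt t / 16384000 ≤
      (2 : ℝ) ^ n * (1 * sl (t / 4 ^ n) / 64) ^ 2 := by
    have h4 : (0 : ℝ) < 4 ^ n := by positivity
    have hu1 : 1 ≤ t / 4 ^ n := by rw [le_div_iff₀ h4]; linarith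
    have hu4 : t / 4 ^ n ≤ 4 := by
      rw [div_le_iff₀ h4]; rw [pow_succ] at h3; linarith
    have hs := DMK_sl _ hu1 hu4
    have hsq : Real.sqrt t ≤ 2 * 2 ^ n := by
      rw [show (2 : ℝ) * 2 ^ n = Real.sqrt ((2 * 2 ^ n) ^ 2) from
        (Real.sqrt_sq (by positivity)).symm]
      apply Real.sqrt_le_sqrt
      have h5 : ((2 : ℝ) * 2 ^ n) ^ 2 = 4 ^ (n + 1) := by
        rw [mul_pow, ← pow_mul, mul_comm n 2, pow_mul, pow_succ]
        norm_num
        ring
      rw [h5]; exact h3.le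
    have hq : (1 / 2500 : ℝ) ≤ 1 * sl (t / 4 ^ n) / 64 := by linarith
    have hq2 : (1 / 6250000 : ℝ) ≤ (1 * sl (t / 4 ^ n) / 64) ^ 2 := by
      have := pow_le_pow_left₀ (by norm_num) hq 2
      norm_num at this ⊢
      linarith
    have h2n : (0 : ℝ) < 2 ^ n := by positivity
    have := mul_le_mul_of_nonneg_left hq2 h2n.le
    linarith
  refine hterm.trans ?_
  have := Finset.single_le_sum
    (f := fun m : Fin K => (2 : ℝ) ^ (m : ℕ) * (1 * sl (t / 4 ^ (m : ℕ)) / 64) ^ 2)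
    (fun i _ => by positivity) (Finset.mem_univ (⟨n, hn⟩ : Fin K))
  simpa using this

theorem p_DMK : T_DMK := by
  intro k ζa ζb ζc hc d1 d2 hd1 hd2 K x hx h1 h2
  have hb := hc.oneb x hx
  constructor
  · have := DMK_one K (d1 (pr x)) (hd1 _) h1
    simpa only [wa, hb] using this
  · have := DMK_one K (d2 (pr x)) (hd2 _) h2
    simpa only [wa, hb] using this

end Pool.Agent.GNS
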