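import Pool.Agent.GNS.T3

/-!
# GNS: target DMW (the background)
-/

set_option autoImplicit false

open Metric Set Filter Topology MeasureTheory

noncomputable section

namespace Pool.Agent.GNS

open Pool.Agent.GLB

namespace DMW_

theorem c0 (k : ℕ) (h : 4 ≤ k + 4) : (Fin.castLE h (0 : Fin 4) : Fin (k + 4)) = 0 := by
  apply Fin.ext
  simp

theorem c1 (k : ℕ) (h : 4 ≤ k + 4) : (Fin.castLE h (1 : Fin 4) : Fin (k + 4)) = 1 := by
  apply Fin.ext
  rw [Fin.val_castLE]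
  exact (Fin.val_one (k + 2)).symm

theorem two_sq {k : ℕ} (v : E (k + 4)) : v 0 ^ 2 + v 1 ^ 2 ≤ ‖v‖ ^ 2 := by
  have hne : (0 : Fin (k + 4)) ≠ 1 := by
    intro h
    have h1 := congrArg Fin.val h
    have h2 : ((1 : Fin (k + 4)) : ℕ) = 1 := Fin.val_one (k + 2)
    rw [h2] at h1
    simp at h1
  rw [EuclideanSpace.real_norm_sq_eq]
  have h := Finset.sum_le_sum_of_subset_of_nonneg
    (Finset.subset_univ ({0, 1} : Finset (Fin (k + 4))))
    (f := fun i => v i ^ 2) (fun i _ _ => sq_nonneg _)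
  rw [Finset.sum_pair hne] at h
  exact h

theorem co_le {k : ℕ} (v : E (k + 4)) (i : Fin (k + 4)) : |v i| ≤ ‖v‖ := by
  have := PiLp.norm_apply_le v i
  rwa [Real.norm_eq_abs] at this

theorem d_Xo {G : V → ℝ} (hX : Xo G) (i : Fin 4) (hi : i = 2 ∨ i = 3) (z : V) :
    d i G z = 0 := by
  have hconst : ∀ t : ℝ, G (z + t • e i) = G z := by
    intro t
    apply hX
    rcases hi with rfl | rfl <;> simp [e]
  unfold d
  by_cases hd : DifferentiableAt ℝ G z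
  · have h1 : HasDerivAt (fun t : ℝ => z + t • e i) (e i) 0 := by
      have := ((hasDerivAt_id (0 : ℝ)).smul_const (e i)).const_add z
      simpa using this
    have h2 : HasDerivAt (fun t : ℝ => G (z + t • e i)) (fderiv ℝ G z (e i)) 0 := by
      have h3 : HasFDerivAt G (fderiv ℝ G z) (z + (0 : ℝ) • e i) := by
        simpa using hd.hasFDerivAt
      exact h3.comp_hasDerivAt (0 : ℝ) h1
    have h4 : HasDerivAt (fun t : ℝ => G (z + t • e i)) 0 0 := by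
      simp only [hconst]
      exact hasDerivAt_const _ _
    exact h2.unique h4
  · rw [fderiv_zero_of_not_differentiableAt hd]
    rfl

theorem dd_Xo {G : V → ℝ} (hG : Sm G) (hX : Xo G) (i j : Fin 4)
    (hij : (i = 2 ∨ i = 3) ∨ (j = 2 ∨ j = 3)) (z : V) : d i (d j G) z = 0 := by
  have key : ∀ a b : Fin 4, (b = 2 ∨ b = 3) → d a (d b G) z = 0 := by
    intro a b hb
    have : d b G = fun _ => 0 := funext fun w => d_Xo hX b hb w
    rw [this, d_const]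
  rcases hij with h | h
  · rw [d_comm hG]
    exact key j i h
  · exact key i j h

theorem bnd {X F : Type} [TopologicalSpace X] [NormedAddCommGroup F] {K : Set X}
    (hK : IsCompact K) (f : X → F) (hf : Continuous f) : ∃ B, 0 ≤ B ∧ ∀ x ∈ K, ‖f x‖ ≤ B := by
  obtain ⟨B, hB⟩ := hK.exists_bound_of_continuousOn hf.continuousOn
  exact ⟨max B 0, le_max_right _ _, fun x hx => (hB x hx).trans (le_max_left _ _)⟩

theorem main (hPRJ : T_PRJ) (hRTS : T_RTS) : T_DMW := by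
  intro k ζa ζb ζc hc
  have hb2 : ContDiff ℝ 2 ζb := contDiff_infty.1 hc.smb 2
  have hcf : Continuous (fderiv ℝ ζb) := hb2.continuous_fderiv (by norm_num)
  have hf1 : ContDiff ℝ 1 (fderiv ℝ ζb) := hb2.fderiv_right (by norm_num)
  have hcff : Continuous (fderiv ℝ (fderiv ℝ ζb)) := hf1.continuous_fderiv (by norm_num)
  obtain ⟨A, hA0, hA⟩ := bnd (F := E (k + 4) →L[ℝ] ℝ)
    (isCompact_closedBall (0 : E (k + 4)) 4) (fderiv ℝ ζb) hcf
  obtain ⟨B, hB0, hB⟩ := bnd (F := E (k + 4) →L[ℝ] E (k + 4) →L[ℝ] ℝ)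
    (isCompact_closedBall (0 : E (k + 4)) 4) (fderiv ℝ (fderiv ℝ ζb)) hcff
  refine ⟨150 * (17 + 8 * A + B), by positivity, ?_⟩
  intro G d1 d2 Eo M1 M2 M3 hD x hx v
  set R : ℝ := 150 * (17 + 8 * A + B) with hR
  obtain ⟨hp1, -, -, hp2⟩ := hPRJ k
  obtain ⟨hGs, hGf, hGD⟩ := hp2 G hD.smG
  obtain ⟨hrs, hrD⟩ := hRTS (k + 4)
  have hG2 : ContDiff ℝ 2 (fun x : E (k + 4) => G (pr x)) := 
    contDiff_infty.1 hGs 2
  have hr2 : ContDiff ℝ 2 (rt : E (k + 4) → ℝ) := contDiff_infty.1 hrs 2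
  obtain ⟨q1, -, q3, q4, -⟩ := gPRD (k + 4)
  have hz : ‖(pr x : V)‖ ≤ 4 := (hp1 x).trans hx
  have hxb : x ∈ closedBall (0 : E (k + 4)) 4 := by
    rw [mem_closedBall, dist_zero_right]
    exact hx
  rw [q3 (fun y => R * rt y) (fun y => ζb y * G (pr y)) (contDiff_const.mul hr2)
    (hb2.mul hG2), q4 R rt hr2, q1 ζb (fun y => G (pr y)) hb2 hG2]
  -- the second derivative of `G ∘ pr`
  have e1 : D2 (fun x : E (k + 4) => G (pr x)) x v v =
      v 0 ^ 2 * d 0 (d 0 G) (pr x) + 2 * v 0 * v 1 * d 0 (d 1 G) (pr x) +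
        v 1 ^ 2 * d 1 (d 1 G) (pr x) := by
    rw [hGD]
    simp only [Fin.sum_univ_four]
    rw [c0, c1]
    rw [dd_Xo hD.smG hD.xG 0 2 (by simp), dd_Xo hD.smG hD.xG 0 3 (by simp),
      dd_Xo hD.smG hD.xG 1 2 (by simp), dd_Xo hD.smG hD.xG 1 3 (by simp),
      dd_Xo hD.smG hD.xG 2 0 (by simp), dd_Xo hD.smG hD.xG 2 1 (by simp),
      dd_Xo hD.smG hD.xG 2 2 (by simp), dd_Xo hD.smG hD.xG 2 3 (by simp),
      dd_Xo hD.smG hD.xG 3 0 (by simp), dd_Xo hD.smG hD.xG 3 1 (by simp),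
      dd_Xo hD.smG hD.xG 3 2 (by simp), dd_Xo hD.smG hD.xG 3 3 (by simp),
      d_comm hD.smG 1 0]
    ring
  have e2 : (d1 (pr x) - 15) * v 0 ^ 2 + (d2 (pr x) - 15) * v 1 ^ 2 ≤
      D2 (fun x : E (k + 4) => G (pr x)) x v v := by
    rw [e1]
    exact hD.hG (pr x) hz (v 0) (v 1)
  have e3 : |fderiv ℝ (fun x : E (k + 4) => G (pr x)) x v| ≤ 4 * ‖v‖ := by
    rw [hGf, d_Xo hD.xG 2 (by simp), d_Xo hD.xG 3 (by simp)]
    have a0 : |v 0 * d 0 G (pr x)| ≤ ‖v‖ := by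
      rw [abs_mul]
      calc |v 0| * |d 0 G (pr x)| ≤ ‖v‖ * 1 :=
            mul_le_mul (co_le v 0) (hD.bG1 _ hz 0) (abs_nonneg _) (norm_nonneg _)
        _ = ‖v‖ := mul_one _
    have a1 : |v 1 * d 1 G (pr x)| ≤ ‖v‖ := by
      rw [abs_mul]
      calc |v 1| * |d 1 G (pr x)| ≤ ‖v‖ * 1 :=
            mul_le_mul (co_le v 1) (hD.bG1 _ hz 1) (abs_nonneg _) (norm_nonneg _)
        _ = ‖v‖ := mul_one _
    rw [mul_zero, mul_zero, add_zero, add_zero]
    have := abs_add_le (v 0 * d 0 G (pr x)) (v 1 * d 1 G (pr x))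
    have := norm_nonneg v
    linarith
  have e4 : |fderiv ℝ ζb x v| ≤ A * ‖v‖ := by
    have h1 := (fderiv ℝ ζb x).le_opNorm v
    rw [Real.norm_eq_abs] at h1
    exact h1.trans (mul_le_mul_of_nonneg_right (hA x hxb) (norm_nonneg _))
  have e5 : |D2 ζb x v v| ≤ B * ‖v‖ ^ 2 := by
    unfold D2
    have h1 := (fderiv ℝ (fderiv ℝ ζb) x).le_opNorm₂ v v
    rw [Real.norm_eq_abs] at h1
    refine h1.trans ?_
    rw [mul_assoc, ← pow_two]
    exact mul_le_mul_of_nonneg_right (hB x hxb) (sq_nonneg _)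
  have e6 : |G (pr x)| ≤ 1 := hD.bG _ hz
  have e7 := hrD x (hx.trans (by norm_num)) v
  have e8 := two_sq v
  have hζ := hc.nnb x
  have hn := norm_nonneg v
  -- the four terms
  have t1 : ζb x * (d1 (pr x) * v 0 ^ 2 + d2 (pr x) * v 1 ^ 2) - 15 * ‖v‖ ^ 2 ≤
      ζb x * D2 (fun x : E (k + 4) => G (pr x)) x v v := by
    have h1 := mul_le_mul_of_nonneg_left e2 hζ.1
    have h2 : ζb x * (v 0 ^ 2 + v 1 ^ 2) ≤ 1 * ‖v‖ ^ 2 :=
      mul_le_mul hζ.2 e8 (by positivity) zero_le_one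
    nlinarith [h1, h2]
  have t2 : -(4 * A * ‖v‖ ^ 2) ≤
      fderiv ℝ ζb x v * fderiv ℝ (fun x : E (k + 4) => G (pr x)) x v := by
    have h1 : |fderiv ℝ ζb x v * fderiv ℝ (fun x : E (k + 4) => G (pr x)) x v| ≤
        (A * ‖v‖) * (4 * ‖v‖) := by
      rw [abs_mul]
      exact mul_le_mul e4 e3 (abs_nonneg _) (by positivity)
    have h2 := neg_abs_le (fderiv ℝ ζb x v * fderiv ℝ (fun x : E (k + 4) => G (pr x)) x v)
    nlinarith [h1, h2]
  have t3 : -(B * ‖v‖ ^ 2) ≤ G (pr x) * D2 ζb x v v := by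
    have h1 : |G (pr x) * D2 ζb x v v| ≤ 1 * (B * ‖v‖ ^ 2) := by
      rw [abs_mul]
      exact mul_le_mul e6 e5 (abs_nonneg _) zero_le_one
    have h2 := neg_abs_le (G (pr x) * D2 ζb x v v)
    linarith
  have t4 : (17 + 8 * A + B) * ‖v‖ ^ 2 ≤ R * D2 rt x v v := by
    have h1 : 0 ≤ R := by rw [hR]; positivity
    have h2 := mul_le_mul_of_nonneg_left e7 h1
    rw [hR] at h2 ⊢
    linarith
  linarith [t1, t2, t3, t4]

end DMW_

theorem p_DMW (hPRJ : T_PRJ) (hRTS : T_RTS) : T_DMW := DMW_.main hPRJ hRTS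

end Pool.Agent.GNS
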