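import Pool.Agent.GNS.T3

/-!
# GNS: DOM, the domination theorem
-/

set_option autoImplicit false

open Metric Set Filter Topology MeasureTheory

noncomputable section

namespace Pool.Agent.GNS

open Pool.Agent.GLB

namespace DOM_

/-! ### Calculus -/

theorem SmE.two {m : ℕ} {f : E m → ℝ} (h : SmE f) : ContDiff ℝ 2 f := contDiff_infty.1 h 2

/-- the coordinate functions -/
def cp {m : ℕ} (i : Fin m) : E m →L[ℝ] ℝ := EuclideanSpace.proj i

theorem crd {m : ℕ} (i : Fin m) : (fun y : E m => y i) = fun y => cp i y := rfl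

theorem crd_smooth {m : ℕ} (i : Fin m) : ContDiff ℝ 2 fun y : E m => y i := by
  rw [crd i]
  exact (cp i).contDiff

theorem crd_fd {m : ℕ} (i : Fin m) (x : E m) : fderiv ℝ (fun y : E m => y i) x = cp i := by
  rw [crd i]
  exact (cp i).hasFDerivAt.fderiv

theorem crd_fderiv {m : ℕ} (i : Fin m) (x v : E m) : fderiv ℝ (fun y : E m => y i) x v = v i := by
  rw [crd_fd]
  rfl

theorem crd_D2 {m : ℕ} (i : Fin m) (x v w : E m) : D2 (fun y : E m => y i) x v w = 0 := by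
  unfold D2
  have h : fderiv ℝ (fun y : E m => y i) = fun _ => cp i := by
    funext y
    exact crd_fd i y
  rw [h, (hasFDerivAt_const (cp i) x).fderiv]
  rfl

theorem eb_apply {m : ℕ} (i j : Fin m) : (eb i : E m) j = if j = i then 1 else 0 := by
  unfold eb
  rw [PiLp.single_apply]

theorem ite_mul_ (p q : Prop) [Decidable p] [Decidable q] :
    (if p ∧ q then (1 : ℝ) else 0) = (if p then 1 else 0) * (if q then 1 else 0) := by
  by_cases h1 : p
  · by_cases h2 : q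
    · rw [if_pos ⟨h1, h2⟩, if_pos h1, if_pos h2, one_mul]
    · rw [if_neg fun h => h2 h.2, if_neg h2, mul_zero]
  · rw [if_neg fun h => h1 h.1, if_neg h1, zero_mul]

/-- the second derivatives of `y_1 y_3` -/
theorem Hs_mul {m : ℕ} (a b : Fin m) (x : E m) (i j : Fin m) :
    Hs (fun y => y a * y b) x i j = sy a b x i j := by
  unfold Hs
  rw [(gPRD m).1 (fun y : E m => y a) (fun y : E m => y b) (crd_smooth a) (crd_smooth b),
    crd_D2, crd_D2, crd_fderiv, crd_fderiv, crd_fderiv, crd_fderiv, eb_apply, eb_apply,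
    eb_apply, eb_apply]
  unfold sy
  have e1 : (a = i) = (i = a) := propext ⟨Eq.symm, Eq.symm⟩
  have e2 : (b = i) = (i = b) := propext ⟨Eq.symm, Eq.symm⟩
  have e3 : (a = j) = (j = a) := propext ⟨Eq.symm, Eq.symm⟩
  have e4 : (b = j) = (j = b) := propext ⟨Eq.symm, Eq.symm⟩
  simp only [e1, e2, e3, e4, ite_mul_]
  ring

section

variable {k : ℕ} {ζa ζb ζc : E (k + 4) → ℝ}

theorem Hs_b (hc : Cut3 ζa ζb ζc) {x : E (k + 4)} (hx : ‖x‖ < 3) (i j : Fin (k + 4)) :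
    Hs (fun y => ζb y * (y 1 * y 3)) x i j = sy 1 3 x i j := by
  rw [← Hs_mul]
  unfold Hs
  refine (gPRD (k + 4)).2.2.2.2.2.1 _ _ x ?_ _ _
  have h : ∀ᶠ y : E (k + 4) in 𝓝 x, ‖y‖ < 3 := continuous_norm.continuousAt.eventually
    (gt_mem_nhds hx)
  filter_upwards [h] with y hy
  rw [hc.oneb y hy.le, one_mul]

theorem fa_smooth (hP : T_PRJ) (hc : Cut3 ζa ζb ζc) {Eo : V → ℝ} (hE : Sm Eo) :
    SmE fun y : E (k + 4) => ζa y * Eo (pr y) :=
  ContDiff.mul hc.sma ((hP k).2.2.2 Eo hE).1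

theorem Hs_cont {m : ℕ} {f : E m → ℝ} (hf : SmE f) (i j : Fin m) :
    Continuous fun x => Hs f x i j := by
  have h := (gPRD m).2.2.2.2.2.2 f (SmE.two hf)
  have h1 : Continuous fun x : E m => (x, (eb i : E m), (eb j : E m)) := by fun_prop
  exact h.comp h1

theorem Hs_symm {m : ℕ} {f : E m → ℝ} (hf : SmE f) (x : E m) (i j : Fin m) :
    Hs f x i j = Hs f x j i := (gPRD m).2.2.2.2.1 f (SmE.two hf) x _ _

theorem Hs_a_out (hP : T_PRJ) (hc : Cut3 ζa ζb ζc) {Eo : V → ℝ} (hE : Sm Eo)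
    (i j : Fin (k + 4)) {x : E (k + 4)} (hx : 5 / 2 ≤ ‖x‖) :
    Hs (fun y : E (k + 4) => ζa y * Eo (pr y)) x i j = 0 := by
  have hstrict : ∀ z : E (k + 4), 5 / 2 < ‖z‖ →
      Hs (fun y : E (k + 4) => ζa y * Eo (pr y)) z i j = 0 := by
    intro z hz
    have h : ∀ᶠ y : E (k + 4) in 𝓝 z, 5 / 2 < ‖y‖ := continuous_norm.continuousAt.eventually
      (lt_mem_nhds hz)
    have h2 : (fun y : E (k + 4) => ζa y * Eo (pr y)) =ᶠ[𝓝 z] fun y => (0 : ℝ) * ζa y := by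
      filter_upwards [h] with y hy
      rw [hc.outa y hy.le, zero_mul, mul_zero]
    unfold Hs
    rw [(gPRD (k + 4)).2.2.2.2.2.1 _ _ z h2, (gPRD (k + 4)).2.2.2.1 0 ζa (SmE.two hc.sma),
      zero_mul]
  have hcont : Continuous fun t : ℝ =>
      Hs (fun y : E (k + 4) => ζa y * Eo (pr y)) (t • x) i j :=
    (Hs_cont (fa_smooth hP hc hE) i j).comp (continuous_id.smul continuous_const)
  have h1 : Tendsto (fun t : ℝ => Hs (fun y : E (k + 4) => ζa y * Eo (pr y)) (t • x) i j)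
      (𝓝[>] 1) (𝓝 (Hs (fun y : E (k + 4) => ζa y * Eo (pr y)) ((1 : ℝ) • x) i j)) :=
    (hcont.tendsto 1).mono_left nhdsWithin_le_nhds
  have h2 : Tendsto (fun t : ℝ => Hs (fun y : E (k + 4) => ζa y * Eo (pr y)) (t • x) i j)
      (𝓝[>] 1) (𝓝 0) := by
    refine tendsto_const_nhds.congr' ?_
    filter_upwards [self_mem_nhdsWithin] with t ht
    have ht1 : (1 : ℝ) < t := ht
    refine (hstrict (t • x) ?_).symm
    rw [norm_smul, Real.norm_eq_abs, abs_of_pos (by linarith)]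
    nlinarith
  have h3 := tendsto_nhds_unique h1 h2
  rwa [one_smul] at h3

end

/-! ### The form -/

variable {m : ℕ} {Ψ : ConvexBody (E (m + 1)) → (C(S (m + 1), ℂ) →L[ℂ] ℂ)}

/-- the sum over the second pair of indices -/
def TT (Ψ : ConvexBody (E (m + 1)) → (C(S (m + 1), ℂ) →L[ℂ] ℂ)) (B : Fin m → Fin m → ℝ)
    (i j : Fin m) (g : E m → ℂ) : ℂ :=
  ∑ k, ∑ l, B4 Ψ i j k l (fun x => g x * (B k l : ℂ))

/-- the properties of `B4` used here -/
structure Lin4 (Ψ : ConvexBody (E (m + 1)) → (C(S (m + 1), ℂ) →L[ℂ] ℂ)) (c : ℝ) : Prop where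
  smul : ∀ (φ : E m → ℂ), Tf (5 / 2) φ → ∀ (i j k l : Fin m) (a : ℂ),
    B4 Ψ i j k l (fun x => a * φ x) = a * B4 Ψ i j k l φ
  bd : ∀ (φ : E m → ℂ), Tf (5 / 2) φ → ∀ (i j k l : Fin m) (M : ℝ), 0 ≤ M →
    (∀ x, ‖φ x‖ ≤ M) → ‖B4 Ψ i j k l φ‖ ≤ c * M

theorem tf_zero : Tf (5 / 2) (fun _ : E m => (0 : ℂ)) := ⟨continuous_const, fun _ _ => rfl⟩

theorem tf_mul {φ : E m → ℂ} (h : Tf (5 / 2) φ) (b : ℂ) : Tf (5 / 2) (fun x => φ x * b) :=
  ⟨h.cont.mul continuous_const, fun x hx => by rw [h.out x hx, zero_mul]⟩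

theorem B4_zero {c : ℝ} (h : Lin4 Ψ c) (i j k l : Fin m) :
    B4 Ψ i j k l (fun _ => 0) = 0 := by
  have := h.smul _ tf_zero i j k l 0
  simpa using this

theorem TT_zero {c : ℝ} (h : Lin4 Ψ c) (B : Fin m → Fin m → ℝ) (i j : Fin m) :
    TT Ψ B i j (fun _ => 0) = 0 := by
  unfold TT
  refine Finset.sum_eq_zero fun k _ => Finset.sum_eq_zero fun l _ => ?_
  simp only [zero_mul]
  exact B4_zero h i j k l

theorem TT_smul {c : ℝ} (h : Lin4 Ψ c) (B : Fin m → Fin m → ℝ) (i j : Fin m) {φ : E m → ℂ}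
    (hφ : Tf (5 / 2) φ) (a : ℂ) : TT Ψ B i j (fun x => a * φ x) = a * TT Ψ B i j φ := by
  unfold TT
  rw [Finset.mul_sum]
  refine Finset.sum_congr rfl fun k _ => ?_
  rw [Finset.mul_sum]
  refine Finset.sum_congr rfl fun l _ => ?_
  rw [← h.smul _ (tf_mul hφ _) i j k l a]
  simp only [mul_assoc]

theorem TT_bd {c : ℝ} (h : Lin4 Ψ c) {B : Fin m → Fin m → ℝ} (hB : ∀ k l, |B k l| ≤ 2)
    (i j : Fin m) {φ : E m → ℂ} (hφ : Tf (5 / 2) φ) {M : ℝ} (hM : 0 ≤ M)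
    (hb : ∀ x, ‖φ x‖ ≤ M) : ‖TT Ψ B i j φ‖ ≤ (m : ℝ) * ((m : ℝ) * (c * (2 * M))) := by
  unfold TT
  have h1 : ∀ k ∈ (Finset.univ : Finset (Fin m)),
      ‖∑ l, B4 Ψ i j k l (fun x => φ x * (B k l : ℂ))‖ ≤ (m : ℝ) * (c * (2 * M)) := by
    intro k _
    have h2 : ∀ l ∈ (Finset.univ : Finset (Fin m)),
        ‖B4 Ψ i j k l (fun x => φ x * (B k l : ℂ))‖ ≤ c * (2 * M) := by
      intro l _
      refine h.bd _ (tf_mul hφ _) i j k l _ (by positivity) fun x => ?_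
      rw [norm_mul, Complex.norm_real, Real.norm_eq_abs, mul_comm 2 M]
      exact mul_le_mul (hb x) (hB k l) (abs_nonneg _) hM
    refine (norm_sum_le_of_le _ h2).trans (le_of_eq ?_)
    rw [Finset.sum_const, Finset.card_univ, Fintype.card_fin, nsmul_eq_mul]
  refine (norm_sum_le_of_le _ h1).trans (le_of_eq ?_)
  rw [Finset.sum_const, Finset.card_univ, Fintype.card_fin, nsmul_eq_mul]

/-- `BB` with a constant second matrix -/
theorem BB_eq (A A' : E m → Fin m → Fin m → ℝ) (B : Fin m → Fin m → ℝ) (φ : E m → ℂ)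
    (hA : ∀ x i j k l, φ x * (A x i j : ℂ) * (A' x k l : ℂ) =
      φ x * (A x i j : ℂ) * (B k l : ℂ)) :
    BB Ψ A A' φ = ∑ i, ∑ j, TT Ψ B i j (fun x => φ x * (A x i j : ℂ)) := by
  unfold BB TT
  refine Finset.sum_congr rfl fun i _ => Finset.sum_congr rfl fun j _ =>
    Finset.sum_congr rfl fun k _ => Finset.sum_congr rfl fun l _ => ?_
  congr 1
  funext x
  exact hA x i j k l

theorem sum_one (f : Fin m → Fin m → ℂ) (a b : Fin m) :
    ∑ i, ∑ j, (if i = a ∧ j = b then f i j else 0) = f a b := by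
  rw [Finset.sum_eq_single a, Finset.sum_eq_single b]
  · rw [if_pos ⟨rfl, rfl⟩]
  · intro j _ hj
    rw [if_neg fun h => hj h.2]
  · intro h
    exact absurd (Finset.mem_univ _) h
  · intro i _ hi
    refine Finset.sum_eq_zero fun j _ => ?_
    rw [if_neg fun h => hi h.1]
  · intro h
    exact absurd (Finset.mem_univ _) h

theorem BB_rk {c : ℝ} (h : Lin4 Ψ c) (a : Fin m) (s : E m → Fin m → Fin m → ℝ)
    (B : Fin m → Fin m → ℝ) (hs : ∀ x k l, s x k l = B k l) (φ : E m → ℂ) :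
    BB Ψ (rk (eb a)) s φ = TT Ψ B a a φ := by
  rw [BB_eq _ _ B φ (fun x i j k l => by rw [hs]), ← sum_one (fun i j => TT Ψ B i j φ) a a]
  refine Finset.sum_congr rfl fun i _ => Finset.sum_congr rfl fun j _ => ?_
  by_cases hij : i = a ∧ j = a
  · rw [if_pos hij]
    have e : (fun x : E m => φ x * (rk (eb a) x i j : ℂ)) = φ := by
      funext x
      unfold rk
      rw [eb_apply, eb_apply, if_pos hij.1, if_pos hij.2]
      simp
    rw [e]
  · rw [if_neg hij]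
    have e : (fun x : E m => φ x * (rk (eb a) x i j : ℂ)) = fun _ => 0 := by
      funext x
      unfold rk
      rw [eb_apply, eb_apply]
      rcases not_and_or.1 hij with h1 | h1
      · rw [if_neg h1]
        simp
      · rw [if_neg h1]
        simp
    rw [e, TT_zero h]

theorem BB_sy {c : ℝ} (h : Lin4 Ψ c) (a b : Fin m) (hab : a ≠ b)
    (s : E m → Fin m → Fin m → ℝ)
    (B : Fin m → Fin m → ℝ) (hs : ∀ x k l, s x k l = B k l) (φ : E m → ℂ) :
    BB Ψ (sy a b) s φ = TT Ψ B a b φ + TT Ψ B b a φ := by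
  rw [BB_eq _ _ B φ (fun x i j k l => by rw [hs]), ← sum_one (fun i j => TT Ψ B i j φ) a b,
    ← sum_one (fun i j => TT Ψ B i j φ) b a, ← Finset.sum_add_distrib]
  refine Finset.sum_congr rfl fun i _ => ?_
  rw [← Finset.sum_add_distrib]
  refine Finset.sum_congr rfl fun j _ => ?_
  by_cases h1 : i = a ∧ j = b
  · have h2 : ¬ (i = b ∧ j = a) := fun h3 => hab (h1.1.symm.trans h3.1)
    rw [if_pos h1, if_neg h2, add_zero]
    have e : (fun x : E m => φ x * (sy a b x i j : ℂ)) = φ := by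
      funext x
      unfold sy
      rw [if_pos h1, if_neg h2]
      simp
    rw [e]
  · by_cases h2 : i = b ∧ j = a
    · rw [if_neg h1, if_pos h2, zero_add]
      have e : (fun x : E m => φ x * (sy a b x i j : ℂ)) = φ := by
        funext x
        unfold sy
        rw [if_neg h1, if_pos h2]
        simp
      rw [e]
    · rw [if_neg h1, if_neg h2, add_zero]
      have e : (fun x : E m => φ x * (sy a b x i j : ℂ)) = fun _ => 0 := by
        funext x
        unfold sy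
        rw [if_neg h1, if_neg h2]
        simp
      rw [e, TT_zero h]

/-- the four special entries -/
theorem split4 (f : Fin m → Fin m → ℂ) {a b : Fin m} (hab : a ≠ b) :
    ∑ i, ∑ j, f i j = f a a + (f a b + f b a) + f b b +
      ∑ i, ∑ j, (if ¬ ((i = a ∨ i = b) ∧ (j = a ∨ j = b)) then f i j else 0) := by
  rw [← sum_one f a a, ← sum_one f a b, ← sum_one f b a, ← sum_one f b b]
  simp only [← Finset.sum_add_distrib]
  refine Finset.sum_congr rfl fun i _ => Finset.sum_congr rfl fun j _ => ?_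
  by_cases h1 : i = a <;> by_cases h2 : i = b <;> by_cases h3 : j = a <;> by_cases h4 : j = b <;>
    simp_all

end DOM_

open DOM_

theorem p_DOM (hDX1 : T_DX1) (hDX2 : T_DX2) (hDX3 : T_DX3) (hDME : T_DME) (hB4P : T_B4P)
    (hPRJ : T_PRJ) : T_DOM := by
  intro k ζa ζb ζc hc
  obtain ⟨C1, hC1, h1⟩ := hDX1 k ζa ζb ζc hc
  obtain ⟨C2, hC2, h2⟩ := hDX2 k ζa ζb ζc hc
  obtain ⟨C3, hC3, h3⟩ := hDX3 k ζa ζb ζc hc
  obtain ⟨Ce, hCe, he⟩ := hDME k ζa ζb ζc hc
  obtain ⟨Cb, hCb, hb⟩ := hB4P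
  obtain ⟨n, hn⟩ : ∃ n : ℝ, n = ((k + 4 : ℕ) : ℝ) := ⟨_, rfl⟩
  have hn0 : 0 ≤ n := by rw [hn]; positivity
  refine ⟨Ce * (C2 + C1 + C3) + n * (n * (n * (n * (Cb * (2 * Ce))))), by positivity, ?_⟩
  intro Ψ hΨ C' hPB G d1 d2 Eo M1 M2 M3 hD
  obtain ⟨f, hf⟩ : ∃ f : E (k + 4) → ℝ, f = fun y => ζa y * Eo (pr y) := ⟨_, rfl⟩
  have hfS : SmE f := by rw [hf]; exact fa_smooth hPRJ hc hD.smE
  have hfo : ∀ i j x, 5 / 2 ≤ ‖x‖ → Hs f x i j = 0 := by
    intro i j x hx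
    rw [hf]
    exact Hs_a_out hPRJ hc hD.smE i j hx
  have hTf : ∀ i j, Tf (5 / 2) (fun x => (Hs f x i j : ℂ)) := fun i j =>
    ⟨Complex.continuous_ofReal.comp (Hs_cont hfS i j), fun x hx => by
      rw [hfo i j x hx, Complex.ofReal_zero]⟩
  have hC' : 0 ≤ C' := by
    have h := h1 Ψ hΨ C' hPB G d1 d2 Eo M1 M2 M3 hD (fun _ => 0) continuous_const
      (fun _ _ => rfl) (fun x => by rw [abs_zero]; exact Real.sqrt_nonneg _)
    exact nonneg_of_mul_nonneg_right ((norm_nonneg _).trans h) hC1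
  have hL : Lin4 Ψ (Cb * C') := by
    refine ⟨fun φ hφ i j k l a => ?_, fun φ hφ i j k l M hM hb' => ?_⟩
    · exact (hb _ Ψ hΨ (5 / 2) φ φ hφ hφ i j k l).2.1 a
    · exact (hb _ Ψ hΨ (5 / 2) φ φ hφ hφ i j k l).2.2.2 C' M hPB hM hb'
  obtain ⟨B, hB⟩ : ∃ B : Fin (k + 4) → Fin (k + 4) → ℝ, B = sy 1 3 (0 : E (k + 4)) := ⟨_, rfl⟩
  have hBs : ∀ (x : E (k + 4)) i j, sy 1 3 x i j = B i j := by
    intro x i j
    rw [hB]
    rfl
  have hB2 : ∀ i j, |B i j| ≤ 2 := by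
    intro i j
    rw [hB]
    unfold sy
    split_ifs <;> norm_num
  -- the form
  have e0 : BB Ψ (Hs f) (Hs fun y => ζb y * (y 1 * y 3)) (fun x => (ζc x : ℂ)) =
      ∑ i, ∑ j, TT Ψ B i j (fun x => (Hs f x i j : ℂ)) := by
    rw [BB_eq (Hs f) _ B _ ?_]
    · refine Finset.sum_congr rfl fun i _ => Finset.sum_congr rfl fun j _ => ?_
      congr 1
      funext x
      rcases le_or_gt (5 / 2) ‖x‖ with hx | hx
      · rw [hfo i j x hx]
        simp
      · rw [hc.onec x (by linarith), Complex.ofReal_one, one_mul]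
    · intro x i j k' l
      rcases le_or_gt (5 / 2) ‖x‖ with hx | hx
      · rw [hfo i j x hx]
        simp
      · rw [Hs_b hc (by linarith), hBs]
  rw [← hf, e0]
  -- scaling
  have hsc : ∀ i j, (fun x => (Hs f x i j : ℂ)) =
      fun x => (Ce : ℂ) * (((Hs f x i j) / Ce : ℝ) : ℂ) := by
    intro i j
    funext x
    rw [← Complex.ofReal_mul, mul_div_cancel₀ _ hCe.ne']
  have hTf' : ∀ i j, Tf (5 / 2) (fun x => (((Hs f x i j) / Ce : ℝ) : ℂ)) := fun i j =>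
    ⟨Complex.continuous_ofReal.comp ((Hs_cont hfS i j).div_const _), fun x hx => by
      rw [hfo i j x hx, zero_div, Complex.ofReal_zero]⟩
  have hnorm : ‖(Ce : ℂ)‖ = Ce := by
    rw [Complex.norm_real, Real.norm_eq_abs, abs_of_pos hCe]
  have t00 : ‖TT Ψ B 0 0 (fun x => (Hs f x 0 0 : ℂ))‖ ≤ Ce * (C2 * C') := by
    rw [hsc, TT_smul hL B 0 0 (hTf' 0 0), norm_mul, hnorm]
    refine mul_le_mul_of_nonneg_left ?_ hCe.le
    rw [← BB_rk hL 0 (sy 1 3) B hBs]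
    refine h2 Ψ hΨ C' hPB G d1 d2 Eo M1 M2 M3 hD _ ((Hs_cont hfS 0 0).div_const _)
      (fun x hx => by rw [hfo 0 0 x hx, zero_div]) fun x => ?_
    rw [abs_div, abs_of_pos hCe, div_le_iff₀ hCe, mul_comm _ Ce]
    have := (he G d1 d2 Eo M1 M2 M3 hD x).1
    rwa [← hf] at this
  have t22 : ‖TT Ψ B 2 2 (fun x => (Hs f x 2 2 : ℂ))‖ ≤ Ce * (C3 * C') := by
    rw [hsc, TT_smul hL B 2 2 (hTf' 2 2), norm_mul, hnorm]
    refine mul_le_mul_of_nonneg_left ?_ hCe.le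
    rw [← BB_rk hL 2 (sy 1 3) B hBs]
    refine h3 Ψ hΨ C' hPB G d1 d2 Eo M1 M2 M3 hD _ ((Hs_cont hfS 2 2).div_const _)
      (fun x hx => by rw [hfo 2 2 x hx, zero_div]) fun x => ?_
    rw [abs_div, abs_of_pos hCe, div_le_iff₀ hCe, mul_comm _ Ce]
    have := (he G d1 d2 Eo M1 M2 M3 hD x).2.2.1
    rwa [← hf] at this
  have h02 : (0 : Fin (k + 4)) ≠ 2 := by
    intro h
    have := congrArg Fin.val h
    rw [Fin.val_zero, Fin.val_two] at this
    omega
  have t02 : ‖TT Ψ B 0 2 (fun x => (Hs f x 0 2 : ℂ)) + TT Ψ B 2 0 (fun x => (Hs f x 2 0 : ℂ))‖ ≤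
      Ce * (C1 * C') := by
    have e1 : (fun x => (Hs f x 2 0 : ℂ)) = fun x => (Hs f x 0 2 : ℂ) := by
      funext x
      rw [Hs_symm hfS x 2 0]
    rw [e1, hsc, TT_smul hL B 0 2 (hTf' 0 2), TT_smul hL B 2 0 (hTf' 0 2), ← mul_add, norm_mul,
      hnorm]
    refine mul_le_mul_of_nonneg_left ?_ hCe.le
    rw [← BB_sy hL 0 2 h02 (sy 1 3) B hBs]
    refine h1 Ψ hΨ C' hPB G d1 d2 Eo M1 M2 M3 hD _ ((Hs_cont hfS 0 2).div_const _)
      (fun x hx => by rw [hfo 0 2 x hx, zero_div]) fun x => ?_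
    rw [abs_div, abs_of_pos hCe, div_le_iff₀ hCe, mul_comm _ Ce]
    have := (he G d1 d2 Eo M1 M2 M3 hD x).2.1
    rwa [← hf] at this
  have trest : ‖∑ i : Fin (k + 4), ∑ j : Fin (k + 4),
      (if ¬ ((i = 0 ∨ i = 2) ∧ (j = 0 ∨ j = 2)) then TT Ψ B i j (fun x => (Hs f x i j : ℂ))
      else 0)‖ ≤ n * (n * (n * (n * (Cb * C' * (2 * Ce))))) := by
    have hb0 : 0 ≤ n * (n * (Cb * C' * (2 * Ce))) := by positivity
    have h5 : ∀ i ∈ (Finset.univ : Finset (Fin (k + 4))), ‖∑ j : Fin (k + 4),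
        (if ¬ ((i = 0 ∨ i = 2) ∧ (j = 0 ∨ j = 2)) then TT Ψ B i j (fun x => (Hs f x i j : ℂ))
        else 0)‖ ≤ n * (n * (n * (Cb * C' * (2 * Ce)))) := by
      intro i _
      have h6 : ∀ j ∈ (Finset.univ : Finset (Fin (k + 4))),
          ‖if ¬ ((i = 0 ∨ i = 2) ∧ (j = 0 ∨ j = 2)) then TT Ψ B i j (fun x => (Hs f x i j : ℂ))
          else 0‖ ≤ n * (n * (Cb * C' * (2 * Ce))) := by
        intro j _
        by_cases hij : (i = 0 ∨ i = 2) ∧ (j = 0 ∨ j = 2)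
        · rw [if_neg (not_not.2 hij), norm_zero]
          exact hb0
        · rw [if_pos hij, hn]
          refine TT_bd hL hB2 i j (hTf i j) hCe.le fun x => ?_
          rw [Complex.norm_real, Real.norm_eq_abs]
          have := (he G d1 d2 Eo M1 M2 M3 hD x).2.2.2 i j hij
          rwa [← hf] at this
      refine (norm_sum_le_of_le _ h6).trans (le_of_eq ?_)
      rw [Finset.sum_const, Finset.card_univ, Fintype.card_fin, nsmul_eq_mul, ← hn]
    refine (norm_sum_le_of_le _ h5).trans (le_of_eq ?_)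
    rw [Finset.sum_const, Finset.card_univ, Fintype.card_fin, nsmul_eq_mul, ← hn]
  rw [split4 (fun i j => TT Ψ B i j (fun x => (Hs f x i j : ℂ))) h02]
  refine (norm_add_le _ _).trans ?_
  refine (add_le_add ((norm_add_le _ _).trans (add_le_add ((norm_add_le _ _).trans
    (add_le_add t00 t02)) t22)) trest).trans (le_of_eq ?_)
  ring

end Pool.Agent.GNS
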