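import Pool.Agent.GNS.T3

/-!
# GNS: the target DX1, domination of the component `sy 0 2`
-/

set_option autoImplicit false

open Metric Set Filter Topology MeasureTheory

noncomputable section

namespace Pool.Agent.GNS

open Pool.Agent.GLB

/-- the form is homogeneous in the test function -/
theorem DX1_bb_smul (hB : T_B4P) {m : ℕ}
    {Ψ : ConvexBody (E (m + 1)) → (C(S (m + 1), ℂ) →L[ℂ] ℂ)} (hΨ : IsArea (m + 1) 2 Ψ)
    {R : ℝ} {φ : E m → ℂ} (hφ : Tf R φ) {A A' : E m → Fin m → Fin m → ℝ}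
    (hA : ∀ i j, Continuous fun x => A x i j) (hA' : ∀ i j, Continuous fun x => A' x i j)
    (c : ℂ) : BB Ψ A A' (fun x => c * φ x) = c * BB Ψ A A' φ := by
  obtain ⟨C, _, hC⟩ := hB
  unfold BB
  rw [Finset.mul_sum]
  refine Finset.sum_congr rfl fun i _ => ?_
  rw [Finset.mul_sum]
  refine Finset.sum_congr rfl fun j _ => ?_
  rw [Finset.mul_sum]
  refine Finset.sum_congr rfl fun k _ => ?_
  rw [Finset.mul_sum]
  refine Finset.sum_congr rfl fun l _ => ?_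
  have htf : Tf R (fun x => φ x * (A x i j : ℂ) * (A' x k l : ℂ)) := by
    refine ⟨?_, fun x hx => ?_⟩
    · exact (hφ.cont.mul (Complex.continuous_ofReal.comp (hA i j))).mul
        (Complex.continuous_ofReal.comp (hA' k l))
    · rw [hφ.out x hx]
      simp
  rw [← (hC m Ψ hΨ R _ _ htf htf i j k l).2.1 c]
  congr 1
  funext x
  ring

theorem DX1_bb_zero (hB : T_B4P) {m : ℕ}
    {Ψ : ConvexBody (E (m + 1)) → (C(S (m + 1), ℂ) →L[ℂ] ℂ)} (hΨ : IsArea (m + 1) 2 Ψ)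
    {A A' : E m → Fin m → Fin m → ℝ}
    (hA : ∀ i j, Continuous fun x => A x i j) (hA' : ∀ i j, Continuous fun x => A' x i j) :
    BB Ψ A A' (fun _ => 0) = 0 := by
  have htf : Tf 0 (fun _ : E m => (0 : ℂ)) := ⟨continuous_const, fun _ _ => rfl⟩
  have h := DX1_bb_smul hB hΨ htf hA hA' 0
  simpa using h

/-- the test functions on the pairs of waves -/
def DX1_pp {k K : ℕ} (τ : E (k + 4) → ℝ) (al : WI K → E (k + 4) → ℝ) :
    WI K → WI K → E (k + 4) → ℂ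
  | Sum.inr (Sum.inl (n, σ)), Sum.inr (Sum.inr (n', σ')), x =>
      (sg σ : ℂ) * (sg σ' : ℂ) * ((τ x * al (Sum.inr (Sum.inl (n, true))) x *
        al (Sum.inr (Sum.inr (n', true))) x : ℝ) : ℂ)
  | _, _, _ => 0

theorem DX1_sg (σ : Bool) : ‖(sg σ : ℂ)‖ = 1 := by
  cases σ <;> simp [sg]

theorem DX1_sum {k K : ℕ} (τ : E (k + 4) → ℝ) (al : WI K → E (k + 4) → ℝ)
    (hal : ∀ a x, 0 ≤ al a x) (x : E (k + 4)) :
    ∑ a, ∑ b, ‖DX1_pp τ al a b x‖ = 4 * |τ x| *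
      (∑ n : Fin K, al (Sum.inr (Sum.inl (n, true))) x) *
      ∑ n : Fin K, al (Sum.inr (Sum.inr (n, true))) x := by
  have h1 : ∀ (n n' : Fin K) (σ σ' : Bool),
      ‖DX1_pp τ al (Sum.inr (Sum.inl (n, σ))) (Sum.inr (Sum.inr (n', σ'))) x‖ =
        |τ x| * (al (Sum.inr (Sum.inl (n, true))) x *
          al (Sum.inr (Sum.inr (n', true))) x) := by
    intro n n' σ σ'
    unfold DX1_pp
    rw [norm_mul, norm_mul, DX1_sg, DX1_sg, Complex.norm_real, Real.norm_eq_abs, abs_mul,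
      abs_mul, abs_of_nonneg (hal _ x), abs_of_nonneg (hal _ x)]
    ring
  simp only [Fintype.sum_sum_type, Fintype.sum_prod_type]
  simp only [h1]
  simp only [DX1_pp, norm_zero, Finset.sum_const_zero, add_zero, zero_add, Fintype.sum_bool]
  rw [mul_assoc (4 * |τ x|), Finset.sum_mul, Finset.mul_sum]
  refine Finset.sum_congr rfl fun n _ => ?_
  rw [← Finset.sum_add_distrib, Finset.mul_sum, Finset.mul_sum]
  refine Finset.sum_congr rfl fun n' _ => ?_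
  ring

theorem DX1_pp_tf {k K : ℕ} {τ : E (k + 4) → ℝ} {al : WI K → E (k + 4) → ℝ}
    (hτ : Continuous τ) (hτ0 : ∀ x, 4 ≤ ‖x‖ → τ x = 0) (hal : ∀ a, Continuous (al a))
    (a b : WI K) : Tf 4 (DX1_pp τ al a b) := by
  rcases a with a | ⟨n, σ⟩ | ⟨n, σ⟩ <;> rcases b with b | ⟨n', σ'⟩ | ⟨n', σ'⟩
  all_goals first
    | exact ⟨continuous_const, fun _ _ => rfl⟩
    | refine ⟨?_, fun x hx => ?_⟩
      · unfold DX1_pp
        exact continuous_const.mul (Complex.continuous_ofReal.comp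
          ((hτ.mul (hal _)).mul (hal _)))
      · simp [DX1_pp, hτ0 x hx]

theorem DX1_pp_diag {k K : ℕ} (τ : E (k + 4) → ℝ) (al : WI K → E (k + 4) → ℝ) (a : WI K)
    (x : E (k + 4)) : DX1_pp τ al a a x = 0 := by
  rcases a with a | ⟨n, σ⟩ | ⟨n, σ⟩ <;> rfl

/-- the sum over the pairs of waves -/
theorem DX1_sumW {K : ℕ} (F : WI K → WI K → ℂ) (h1 : ∀ (a : Bool) (b : WI K), F (Sum.inl a) b = 0)
    (h2 : ∀ (a : Fin K × Bool) (b : Bool), F (Sum.inr (Sum.inl a)) (Sum.inl b) = 0)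
    (h3 : ∀ a b : Fin K × Bool, F (Sum.inr (Sum.inl a)) (Sum.inr (Sum.inl b)) = 0)
    (h4 : ∀ (a : Fin K × Bool) (b : WI K), F (Sum.inr (Sum.inr a)) b = 0) :
    ∑ a, ∑ b, F a b = ∑ n, ∑ σ, ∑ n', ∑ σ',
      F (Sum.inr (Sum.inl (n, σ))) (Sum.inr (Sum.inr (n', σ'))) := by
  rw [Fintype.sum_sum_type]
  have e1 : ∑ a : Bool, ∑ b, F (Sum.inl a) b = 0 := by simp only [h1, Finset.sum_const_zero]
  rw [e1, zero_add, Fintype.sum_sum_type]
  have e2 : ∑ a : Fin K × Bool, ∑ b, F (Sum.inr (Sum.inr a)) b = 0 := by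
    simp only [h4, Finset.sum_const_zero]
  rw [e2, add_zero, Fintype.sum_prod_type]
  refine Finset.sum_congr rfl fun n _ => Finset.sum_congr rfl fun σ _ => ?_
  rw [Fintype.sum_sum_type]
  have e3 : ∑ b : Bool, F (Sum.inr (Sum.inl (n, σ))) (Sum.inl b) = 0 := by
    simp only [h2, Finset.sum_const_zero]
  rw [e3, zero_add, Fintype.sum_sum_type]
  have e4 : ∑ b : Fin K × Bool, F (Sum.inr (Sum.inl (n, σ))) (Sum.inr (Sum.inl b)) = 0 := by
    simp only [h3, Finset.sum_const_zero]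
  rw [e4, zero_add, Fintype.sum_prod_type]

/-- continuity of the matrices -/
theorem DX1_rk {m : ℕ} (ξ : E m) (i j : Fin m) : Continuous fun x => rk ξ x i j :=
  continuous_const

theorem DX1_sy {m : ℕ} (a b : Fin m) (i j : Fin m) : Continuous fun x => sy a b x i j :=
  continuous_const

/-- a bound for two continuous functions -/
theorem DX1_K {d1 d2 : V → ℝ} (h1 : Continuous d1) (h2 : Continuous d2) :
    ∃ K : ℕ, ∀ z : V, ‖z‖ ≤ 3 → d1 z < 4 ^ K ∧ d2 z < 4 ^ K := by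
  have hc : IsCompact (closedBall (0 : V) 3) := isCompact_closedBall _ _
  obtain ⟨B1, hB1⟩ := (hc.image h1).bddAbove
  obtain ⟨B2, hB2⟩ := (hc.image h2).bddAbove
  obtain ⟨K, hK⟩ := pow_unbounded_of_one_lt (max B1 B2) (show (1 : ℝ) < 4 by norm_num)
  refine ⟨K, fun z hz => ?_⟩
  have hz' : z ∈ closedBall (0 : V) 3 := by
    rw [mem_closedBall, dist_zero_right]
    exact hz
  exact ⟨((hB1 (mem_image_of_mem _ hz')).trans (le_max_left _ _)).trans_lt hK,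
    ((hB2 (mem_image_of_mem _ hz')).trans (le_max_right _ _)).trans_lt hK⟩

/-- the quotient `N / S` -/
theorem DX1_quot {n : ℕ} {N S D : E n → ℝ} {c : ℝ} (hc : 0 < c) (hN : Continuous N)
    (hS : Continuous S) (hN0 : ∀ x, 5 / 2 ≤ ‖x‖ → N x = 0) (hSD : ∀ x, ‖x‖ ≤ 3 → D x ≤ c * S x)
    (hD : ∀ x, 0 < D x) (hND : ∀ x, |N x| ≤ D x) :
    Continuous (fun x => N x / S x) ∧ (∀ x, 5 / 2 ≤ ‖x‖ → N x / S x = 0) ∧
    (∀ x, |N x / S x| ≤ c) ∧ ∀ x, N x / S x * S x = N x := by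
  have hpos : ∀ x, ‖x‖ ≤ 3 → 0 < S x := by
    intro x hx
    have h1 := hSD x hx
    have h2 := hD x
    by_contra h3
    have h4 : c * S x ≤ 0 := mul_nonpos_of_nonneg_of_nonpos hc.le (not_lt.1 h3)
    linarith
  have hz : ∀ x, 5 / 2 ≤ ‖x‖ → N x / S x = 0 := by
    intro x hx
    rw [hN0 x hx, zero_div]
  refine ⟨?_, hz, ?_, ?_⟩
  · rw [continuous_iff_continuousAt]
    intro x
    by_cases hx : ‖x‖ ≤ 3
    · exact hN.continuousAt.div hS.continuousAt (hpos x hx).ne'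
    · have h1 : ∀ᶠ y in 𝓝 x, (0 : ℝ) = N y / S y := by
        have h2 : ∀ᶠ y in 𝓝 x, 5 / 2 < ‖y‖ :=
          continuous_norm.continuousAt.eventually (lt_mem_nhds (by
            have := not_le.1 hx
            linarith))
        filter_upwards [h2] with y hy
        exact (hz y hy.le).symm
      exact continuousAt_const.congr h1
  · intro x
    by_cases hx : ‖x‖ ≤ 3
    · rw [abs_div, abs_of_pos (hpos x hx), div_le_iff₀ (hpos x hx)]
      exact (hND x).trans (hSD x hx)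
    · rw [hz x (by
        have := not_le.1 hx
        linarith), abs_zero]
      exact hc.le
  · intro x
    by_cases hx : ‖x‖ ≤ 3
    · exact div_mul_cancel₀ _ (hpos x hx).ne'
    · have h1 : 5 / 2 ≤ ‖x‖ := by
        have := not_le.1 hx
        linarith
      rw [hN0 x h1, zero_div, zero_mul]

/-- the background function -/
theorem DX1_f0 (hPRJ : T_PRJ) {k : ℕ} {ζa ζb ζc : E (k + 4) → ℝ} (hcut : Cut3 ζa ζb ζc)
    {G : V → ℝ} (hG : Sm G) (hG1 : ∀ z, ‖z‖ ≤ 4 → |G z| ≤ 1) :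
    SmE (fun x : E (k + 4) => ζb x * G (pr x)) ∧
    (∀ x : E (k + 4), 4 ≤ ‖x‖ → ζb x * G (pr x) = 0) ∧
    ∀ x : E (k + 4), |ζb x * G (pr x)| ≤ 1 := by
  obtain ⟨h1, -, -, h4⟩ := hPRJ k
  have hz : ∀ x : E (k + 4), 7 / 2 ≤ ‖x‖ → ζb x * G (pr x) = 0 := by
    intro x hx
    rw [hcut.outb x hx, zero_mul]
  refine ⟨ContDiff.mul hcut.smb (h4 G hG).1, fun x hx => hz x (by linarith), fun x => ?_⟩
  by_cases hx : ‖x‖ ≤ 4
  · rw [abs_mul, abs_of_nonneg (hcut.nnb x).1]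
    have h2 := hG1 (pr x) ((h1 x).trans hx)
    have h3 := (hcut.nnb x).2
    calc ζb x * |G (pr x)| ≤ 1 * 1 :=
          mul_le_mul h3 h2 (abs_nonneg _) zero_le_one
      _ = 1 := one_mul 1
  · rw [hz x (by
      have := not_le.1 hx
      linarith), abs_zero]
    exact zero_le_one

/-- the inequality of the waves for a general family of test functions -/
theorem DX1_wav (hWAV : T_WAV) (hDMI : T_DMI) (hPRJ : T_PRJ) {k : ℕ}
    {ζa ζb ζc : E (k + 4) → ℝ} (hcut : Cut3 ζa ζb ζc) {R : ℝ} (hR : 0 < R)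
    {G d1 d2 Eo M1 M2 M3 : V → ℝ} (hD : Dom 15 G d1 d2 Eo M1 M2 M3)
    (hW : ∀ x : E (k + 4), ‖x‖ ≤ 4 → ∀ v : E (k + 4),
      ζb x * (d1 (pr x) * v 0 ^ 2 + d2 (pr x) * v 1 ^ 2) + 2 * ‖v‖ ^ 2 ≤
        D2 (fun y => R * rt y + ζb y * G (pr y)) x v v)
    {Ψ : ConvexBody (E (k + 4 + 1)) → (C(S (k + 4 + 1), ℂ) →L[ℂ] ℂ)}
    (hΨ : IsArea (k + 4 + 1) 2 Ψ) {C' : ℝ} (hC' : PB Ψ C') (K : ℕ)
    (ψ : WI K → WI K → E (k + 4) → ℂ) (h1 : ∀ a b, Tf 4 (ψ a b)) (h2 : ∀ a x, ψ a a x = 0)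
    (h3 : ∀ x, ∑ a, ∑ b, ‖ψ a b x‖ ≤ 1) :
    ‖∑ a, ∑ b, BB Ψ (rk (wx K a)) (rk (wx K b)) (fun x => ψ a b x *
      (wa K ζb d1 d2 a x : ℂ) * (wa K ζb d1 d2 b x : ℂ))‖ ≤ 2 * (R + 1 + 1) ^ 2 * C' := by
  obtain ⟨hI1, hI2, hI3, hI4, hI5⟩ :=
    hDMI k ζa ζb ζc hcut d1 d2 hD.smd1 hD.smd2 hD.one1 hD.one2 K
  obtain ⟨hf1, hf2, hf3⟩ := DX1_f0 hPRJ hcut hD.smG hD.bG
  exact hWAV (k + 4) Ψ (by omega) hΨ C' hC' R 1 1 (fun x => ζb x * G (pr x)) hR one_pos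
    zero_le_one hf1 hf2 hf3 (WI K) (wx K) (wa K ζb d1 d2) hI1 hI2 hI3
    (fun x hx v => (hI4 x v).trans (hW x hx v)) ψ h1 h2 h3

/-- DX1. Domination of the component `sy 0 2`. -/
theorem p_DX1 (hWAV : T_WAV) (hDMI : T_DMI) (hDMK : T_DMK) (hDMW : T_DMW) (hRKA : T_RKA)
    (hPRJ : T_PRJ) (hB4P : T_B4P) : T_DX1 := by
  intro k ζa ζb ζc hcut
  obtain ⟨R, hR, hW⟩ := hDMW k ζa ζb ζc hcut
  refine ⟨16384000 ^ 2 * (R + 2) ^ 2 / 2, by positivity, ?_⟩
  intro Ψ hΨ C' hC' G d1 d2 Eo M1 M2 M3 hD N hNc hN0 hNb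
  obtain ⟨K, hK⟩ := DX1_K hD.smd1.cont hD.smd2.cont
  obtain ⟨hI1, hI2, hI3, hI4, hI5⟩ :=
    hDMI k ζa ζb ζc hcut d1 d2 hD.smd1 hD.smd2 hD.one1 hD.one2 K
  have hPR := (hPRJ k).1
  set al : WI K → E (k + 4) → ℝ := wa K ζb d1 d2 with hal
  have halc : ∀ a, Continuous (al a) := fun a => ContDiff.continuous (hI1 a)
  set S1 : E (k + 4) → ℝ :=
    fun x => ∑ n : Fin K, 2 ^ (n : ℕ) * al (Sum.inr (Sum.inl (n, true))) x ^ 2 with hS1
  set S2 : E (k + 4) → ℝ :=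
    fun x => ∑ n : Fin K, 2 ^ (n : ℕ) * al (Sum.inr (Sum.inr (n, true))) x ^ 2 with hS2
  have hS1c : Continuous S1 :=
    continuous_finsetSum _ fun n _ => continuous_const.mul ((halc _).pow 2)
  have hS2c : Continuous S2 :=
    continuous_finsetSum _ fun n _ => continuous_const.mul ((halc _).pow 2)
  have hlow : ∀ x : E (k + 4), ‖x‖ ≤ 3 →
      Real.sqrt (d1 (pr x) * d2 (pr x)) ≤ 16384000 ^ 2 * (S1 x * S2 x) := by
    intro x hx
    have hx3 := hK (pr x) ((hPR x).trans hx)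
    obtain ⟨ha, hb⟩ := hDMK k ζa ζb ζc hcut d1 d2 hD.one1 hD.one2 K x hx hx3.1 hx3.2
    have hp1 := hD.one1 (pr x)
    rw [Real.sqrt_mul (by linarith)]
    have ha' : Real.sqrt (d1 (pr x)) ≤ 16384000 * S1 x := by
      rw [div_le_iff₀ (by norm_num)] at ha
      rw [mul_comm]
      exact ha
    have hb' : Real.sqrt (d2 (pr x)) ≤ 16384000 * S2 x := by
      rw [div_le_iff₀ (by norm_num)] at hb
      rw [mul_comm]
      exact hb
    calc Real.sqrt (d1 (pr x)) * Real.sqrt (d2 (pr x))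
        ≤ (16384000 * S1 x) * (16384000 * S2 x) :=
          mul_le_mul ha' hb' (Real.sqrt_nonneg _) ((Real.sqrt_nonneg _).trans ha')
      _ = 16384000 ^ 2 * (S1 x * S2 x) := by ring
  obtain ⟨hτc, hτ0, hτb, hτS⟩ := DX1_quot (N := N) (S := fun x => S1 x * S2 x)
    (D := fun x => Real.sqrt (d1 (pr x) * d2 (pr x))) (c := 16384000 ^ 2) (by norm_num) hNc
    (hS1c.mul hS2c) hN0 hlow (fun x => Real.sqrt_pos.2 (mul_pos
      (by linarith [hD.one1 (pr x)]) (by linarith [hD.one2 (pr x)]))) hNb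
  set τ : E (k + 4) → ℝ := fun x => N x / (S1 x * S2 x) / 16384000 ^ 2 with hτ
  have hτc' : Continuous τ := hτc.div_const _
  have hτ0' : ∀ x, 4 ≤ ‖x‖ → τ x = 0 := by
    intro x hx
    rw [hτ]
    simp only
    rw [hτ0 x (by linarith), zero_div]
  have hτb' : ∀ x, |τ x| ≤ 1 := by
    intro x
    rw [hτ]
    simp only
    rw [abs_div, abs_of_pos (show (0 : ℝ) < 16384000 ^ 2 by norm_num),
      div_le_one (by norm_num)]
    exact hτb x
  have hsum : ∀ x, ∑ a, ∑ b, ‖DX1_pp τ al a b x‖ ≤ 1 := by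
    intro x
    rw [DX1_sum τ al hI2 x]
    obtain ⟨hs1, hs2⟩ := hI5 x
    have hp2 : 0 ≤ ∑ n : Fin K, al (Sum.inr (Sum.inr (n, true))) x :=
      Finset.sum_nonneg fun n _ => hI2 _ x
    have hp1 : 0 ≤ ∑ n : Fin K, al (Sum.inr (Sum.inl (n, true))) x :=
      Finset.sum_nonneg fun n _ => hI2 _ x
    have h5 : (∑ n : Fin K, al (Sum.inr (Sum.inl (n, true))) x) *
        (∑ n : Fin K, al (Sum.inr (Sum.inr (n, true))) x) ≤ 3 / 64 * (3 / 64) :=
      mul_le_mul hs1 hs2 hp2 (by norm_num)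
    have h6 := hτb' x
    have h7 : |τ x| * ((∑ n : Fin K, al (Sum.inr (Sum.inl (n, true))) x) *
        (∑ n : Fin K, al (Sum.inr (Sum.inr (n, true))) x)) ≤ 1 * (3 / 64 * (3 / 64)) :=
      mul_le_mul h6 h5 (mul_nonneg hp1 hp2) zero_le_one
    calc 4 * |τ x| * (∑ n : Fin K, al (Sum.inr (Sum.inl (n, true))) x) *
          ∑ n : Fin K, al (Sum.inr (Sum.inr (n, true))) x
        = 4 * (|τ x| * ((∑ n : Fin K, al (Sum.inr (Sum.inl (n, true))) x) *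
          (∑ n : Fin K, al (Sum.inr (Sum.inr (n, true))) x))) := by ring
      _ ≤ 4 * (1 * (3 / 64 * (3 / 64))) := by linarith
      _ ≤ 1 := by norm_num
  have hmain := DX1_wav hWAV hDMI hPRJ hcut hR hD
    (fun x hx v => hW G d1 d2 Eo M1 M2 M3 hD x hx v) hΨ hC' K (DX1_pp τ al)
    (DX1_pp_tf hτc' hτ0' halc) (DX1_pp_diag τ al) hsum
  -- the sum over the pairs
  have hzero : ∀ a b : WI K, (∀ x, DX1_pp τ al a b x = 0) →
      BB Ψ (rk (wx K a)) (rk (wx K b)) (fun x => DX1_pp τ al a b x *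
        (wa K ζb d1 d2 a x : ℂ) * (wa K ζb d1 d2 b x : ℂ)) = 0 := by
    intro a b h
    simp only [h, zero_mul]
    exact DX1_bb_zero hB4P hΨ (DX1_rk _) (DX1_rk _)
  set t : Fin K → Fin K → E (k + 4) → ℂ := fun n n' x =>
    ((τ x * al (Sum.inr (Sum.inl (n, true))) x ^ 2 *
      al (Sum.inr (Sum.inr (n', true))) x ^ 2 : ℝ) : ℂ) with ht
  have httf : ∀ n n', Tf 4 (t n n') := by
    intro n n'
    refine ⟨Complex.continuous_ofReal.comp
      ((hτc'.mul ((halc _).pow 2)).mul ((halc _).pow 2)), fun x hx => ?_⟩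
    rw [ht]
    simp only
    rw [hτ0' x hx]
    simp
  have hpair : ∀ (n n' : Fin K) (σ σ' : Bool),
      (fun x => DX1_pp τ al (Sum.inr (Sum.inl (n, σ))) (Sum.inr (Sum.inr (n', σ'))) x *
        (wa K ζb d1 d2 (Sum.inr (Sum.inl (n, σ))) x : ℂ) *
        (wa K ζb d1 d2 (Sum.inr (Sum.inr (n', σ'))) x : ℂ)) =
      fun x => (sg σ : ℂ) * (sg σ' : ℂ) * t n n' x := by
    intro n n' σ σ'
    funext x
    have h1 : wa K ζb d1 d2 (Sum.inr (Sum.inl (n, σ))) x =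
        al (Sum.inr (Sum.inl (n, true))) x := rfl
    have h2 : wa K ζb d1 d2 (Sum.inr (Sum.inr (n', σ'))) x =
        al (Sum.inr (Sum.inr (n', true))) x := rfl
    rw [h1, h2, ht]
    simp only [DX1_pp]
    push_cast
    ring
  have hall : ∑ a, ∑ b, BB Ψ (rk (wx K a)) (rk (wx K b)) (fun x => DX1_pp τ al a b x *
      (wa K ζb d1 d2 a x : ℂ) * (wa K ζb d1 d2 b x : ℂ)) =
      BB Ψ (sy 0 2) (sy 1 3)
        (fun x => ∑ n : Fin K, ∑ n' : Fin K, 4 * 2 ^ (n : ℕ) * 2 ^ (n' : ℕ) * t n n' x) := by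
    rw [← (hRKA k Ψ hΨ K).1 t httf]
    rw [DX1_sumW _ (fun a b => hzero _ _ fun x => rfl) (fun a b => hzero _ _ fun x => rfl)
      (fun a b => hzero _ _ fun x => rfl) (fun a b => hzero _ _ fun x => rfl)]
    refine Finset.sum_congr rfl fun n _ => Finset.sum_congr rfl fun σ _ =>
      Finset.sum_congr rfl fun n' _ => Finset.sum_congr rfl fun σ' _ => ?_
    rw [hpair n n' σ σ']
  have hfun : (fun x => ∑ n : Fin K, ∑ n' : Fin K,
      4 * 2 ^ (n : ℕ) * 2 ^ (n' : ℕ) * t n n' x) =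
      fun x => ((4 / 16384000 ^ 2 : ℝ) : ℂ) * (N x : ℂ) := by
    funext x
    have e1 : 4 * (τ x * (S1 x * S2 x)) = 4 / 16384000 ^ 2 * N x := by
      rw [← hτS x, hτ]
      simp only
      ring
    have e2 : ∑ n : Fin K, ∑ n' : Fin K, 4 * 2 ^ (n : ℕ) * 2 ^ (n' : ℕ) *
        (τ x * al (Sum.inr (Sum.inl (n, true))) x ^ 2 *
          al (Sum.inr (Sum.inr (n', true))) x ^ 2) = 4 * (τ x * (S1 x * S2 x)) := by
      rw [hS1, hS2]
      simp only
      rw [Finset.sum_mul_sum, Finset.mul_sum, Finset.mul_sum]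
      refine Finset.sum_congr rfl fun n _ => ?_
      rw [Finset.mul_sum, Finset.mul_sum]
      refine Finset.sum_congr rfl fun n' _ => ?_
      ring
    rw [← Complex.ofReal_mul, ← e1, ← e2, ht]
    push_cast
    rfl
  rw [hall, hfun, DX1_bb_smul hB4P hΨ (R := 4) (φ := fun x => (N x : ℂ)) ⟨
    Complex.continuous_ofReal.comp hNc, fun x hx => by rw [hN0 x (by linarith)]; simp⟩
    (DX1_sy _ _) (DX1_sy _ _), norm_mul, Complex.norm_real, Real.norm_eq_abs,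
    abs_of_pos (by norm_num)] at hmain
  have h9 : (4 / 16384000 ^ 2 : ℝ) * ‖BB Ψ (sy 0 2) (sy 1 3) (fun x => (N x : ℂ))‖ ≤
      2 * (R + 2) ^ 2 * C' := by
    have h10 : R + 1 + 1 = R + 2 := by ring
    rw [h10] at hmain
    exact hmain
  have h11 : ‖BB Ψ (sy 0 2) (sy 1 3) (fun x => (N x : ℂ))‖ =
      (16384000 ^ 2 / 4) * ((4 / 16384000 ^ 2 : ℝ) *
        ‖BB Ψ (sy 0 2) (sy 1 3) (fun x => (N x : ℂ))‖) := by
    rw [← mul_assoc]
    norm_num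
  rw [h11]
  calc (16384000 ^ 2 / 4) * ((4 / 16384000 ^ 2 : ℝ) *
        ‖BB Ψ (sy 0 2) (sy 1 3) (fun x => (N x : ℂ))‖)
      ≤ (16384000 ^ 2 / 4) * (2 * (R + 2) ^ 2 * C') :=
        mul_le_mul_of_nonneg_left h9 (by norm_num)
    _ = 16384000 ^ 2 * (R + 2) ^ 2 / 2 * C' := by ring

end Pool.Agent.GNS
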