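import Pool.Agent.GNS.T3

/-!
# GNS: domination of the component `rk e_0`
-/

set_option autoImplicit false

open Metric Set Filter Topology MeasureTheory

noncomputable section

namespace Pool.Agent.GNS

open Pool.Agent.GLB

namespace DX2_

/-- the test functions -/
def ps {k : ℕ} (K : ℕ) (τ : E (k + 4) → ℝ) (α : Fin K → E (k + 4) → ℝ) (c : ℝ) :
    WI K → WI K → E (k + 4) → ℂ
  | Sum.inl false, Sum.inr (Sum.inr (n, σ)) => fun x => ((sg σ * τ x * α n x * c : ℝ) : ℂ)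
  | _, _ => fun _ => 0

theorem tf_ps {k : ℕ} (K : ℕ) (τ : E (k + 4) → ℝ) (α : Fin K → E (k + 4) → ℝ) (c : ℝ)
    (hτ : Continuous τ) (hτ0 : ∀ x, 5 / 2 ≤ ‖x‖ → τ x = 0) (hα : ∀ n, Continuous (α n))
    (a b : WI K) : Tf 4 (ps K τ α c a b) := by
  have h0 : Tf 4 (fun _ : E (k + 4) => (0 : ℂ)) := ⟨continuous_const, fun _ _ => rfl⟩
  rcases a with (_ | _) | a
  · rcases b with b | (b | ⟨n, σ⟩)
    · exact h0
    · exact h0
    · refine ⟨?_, ?_⟩
      · have h : Continuous fun x => sg σ * τ x * α n x * c :=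
          (((continuous_const.mul hτ).mul (hα n)).mul continuous_const)
        exact Complex.continuous_ofReal.comp h
      · intro x hx
        change ((sg σ * τ x * α n x * c : ℝ) : ℂ) = 0
        rw [hτ0 x (by linarith)]
        simp
  · exact h0
  · exact h0

theorem ps_diag {k : ℕ} (K : ℕ) (τ : E (k + 4) → ℝ) (α : Fin K → E (k + 4) → ℝ) (c : ℝ)
    (a : WI K) (x : E (k + 4)) : ps K τ α c a a x = 0 := by
  rcases a with (_ | _) | a
  · rfl
  · rfl
  · rfl

theorem abs_sg (σ : Bool) : |sg σ| = 1 := by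
  cases σ <;> simp [sg]

theorem sum_only {M : Type*} [AddCommMonoid M] {K : ℕ} (F : WI K → WI K → M)
    (h2 : ∀ a b : WI K, (a ≠ Sum.inl false ∨ ∀ p, b ≠ Sum.inr (Sum.inr p)) → F a b = 0) :
    ∑ a, ∑ b, F a b = ∑ n, ∑ σ, F (Sum.inl false) (Sum.inr (Sum.inr (n, σ))) := by
  have h3 : ∀ a : WI K, a ≠ Sum.inl false → ∑ b, F a b = 0 := fun a ha =>
    Finset.sum_eq_zero fun b _ => h2 a b (Or.inl ha)
  rw [Finset.sum_eq_single (Sum.inl false) (fun a _ ha => h3 a ha)
    (fun h => absurd (Finset.mem_univ _) h)]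
  rw [Fintype.sum_sum_type, Finset.sum_eq_zero
    (fun b _ => h2 (Sum.inl false) (Sum.inl b) (Or.inr (by simp))), zero_add,
    Fintype.sum_sum_type, Finset.sum_eq_zero
    (fun b _ => h2 (Sum.inl false) (Sum.inr (Sum.inl b)) (Or.inr (by simp))), zero_add,
    Fintype.sum_prod_type]

theorem sum_ps {k : ℕ} (K : ℕ) (τ : E (k + 4) → ℝ) (α : Fin K → E (k + 4) → ℝ) (c : ℝ)
    (hc : 0 ≤ c) (hα : ∀ n x, 0 ≤ α n x) (x : E (k + 4)) :
    ∑ a, ∑ b, ‖ps K τ α c a b x‖ = 2 * (|τ x| * c * ∑ n, α n x) := by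
  have h1 : ∀ (n : Fin K) (σ : Bool),
      ‖ps K τ α c (Sum.inl false) (Sum.inr (Sum.inr (n, σ))) x‖ = |τ x| * c * α n x := by
    intro n σ
    change ‖((sg σ * τ x * α n x * c : ℝ) : ℂ)‖ = _
    rw [Complex.norm_real, Real.norm_eq_abs, abs_mul, abs_mul, abs_mul, abs_sg,
      abs_of_nonneg (hα n x), abs_of_nonneg hc]
    ring
  have h2 : ∀ a b : WI K, (a ≠ Sum.inl false ∨ ∀ p, b ≠ Sum.inr (Sum.inr p)) →
      ‖ps K τ α c a b x‖ = 0 := by
    intro a b hab
    rcases a with (_ | _) | a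
    · rcases b with b | (b | b)
      · exact norm_zero
      · exact norm_zero
      · rcases hab with h | h
        · exact absurd rfl h
        · exact absurd rfl (h b)
    · exact norm_zero
    · exact norm_zero
  rw [sum_only (fun a b => ‖ps K τ α c a b x‖) h2]
  simp only [Fintype.sum_bool, h1]
  rw [Finset.mul_sum, Finset.mul_sum]
  exact Finset.sum_congr rfl fun n _ => by ring

/-- `BB` of the zero test function -/
theorem BB_smul (hB4P : T_B4P) {k : ℕ}
    (Ψ : ConvexBody (E (k + 4 + 1)) → (C(S (k + 4 + 1), ℂ) →L[ℂ] ℂ))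
    (hΨ : IsArea (k + 4 + 1) 2 Ψ) (A A' : E (k + 4) → Fin (k + 4) → Fin (k + 4) → ℝ)
    (hA : ∀ i j, Continuous fun x => A x i j) (hA' : ∀ i j, Continuous fun x => A' x i j)
    (φ : E (k + 4) → ℂ) (hφ : Tf 4 φ) (c : ℂ) :
    BB Ψ A A' (fun x => c * φ x) = c * BB Ψ A A' φ := by
  obtain ⟨C, -, hC⟩ := hB4P
  unfold BB
  simp only [Finset.mul_sum]
  refine Finset.sum_congr rfl fun i _ => Finset.sum_congr rfl fun j _ =>
    Finset.sum_congr rfl fun p _ => Finset.sum_congr rfl fun q _ => ?_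
  have ht : Tf 4 (fun x => φ x * (A x i j : ℂ) * (A' x p q : ℂ)) := by
    refine ⟨(hφ.cont.mul (Complex.continuous_ofReal.comp (hA i j))).mul
      (Complex.continuous_ofReal.comp (hA' p q)), fun x hx => ?_⟩
    rw [hφ.out x hx]
    simp
  have h := (hC (k + 4) Ψ hΨ 4 _ _ ht ht i j p q).2.1 c
  rw [← h]
  congr 1
  funext x
  ring

theorem BB_zero (hB4P : T_B4P) {k : ℕ}
    (Ψ : ConvexBody (E (k + 4 + 1)) → (C(S (k + 4 + 1), ℂ) →L[ℂ] ℂ))
    (hΨ : IsArea (k + 4 + 1) 2 Ψ) (A A' : E (k + 4) → Fin (k + 4) → Fin (k + 4) → ℝ)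
    (hA : ∀ i j, Continuous fun x => A x i j) (hA' : ∀ i j, Continuous fun x => A' x i j) :
    BB Ψ A A' (fun _ => 0) = 0 := by
  have h := BB_smul hB4P Ψ hΨ A A' hA hA' (fun _ => 0) ⟨continuous_const, fun _ _ => rfl⟩ 0
  simpa using h

theorem rk_cont {m : ℕ} (ξ : E m) (i j : Fin m) : Continuous fun x => rk ξ x i j :=
  continuous_const

theorem sy_cont {m : ℕ} (a b i j : Fin m) : Continuous fun x => sy a b x i j :=
  continuous_const

theorem one_le_sqrt {t : ℝ} (h : 1 ≤ t) : 1 ≤ Real.sqrt t := by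
  rw [Real.le_sqrt (by norm_num) (by linarith)]
  linarith

theorem cont_pr {k : ℕ} : Continuous (pr (k := k)) := by
  unfold pr
  fun_prop

end DX2_

open DX2_ in
theorem p_DX2 (hWAV : T_WAV) (hDMI : T_DMI) (hDMK : T_DMK) (hDMW : T_DMW) (hRKA : T_RKA)
    (hB4P : T_B4P) (hPRJ : T_PRJ) : T_DX2 := by
  intro k ζa ζb ζc hcut
  obtain ⟨R, hR, hW⟩ := hDMW k ζa ζb ζc hcut
  refine ⟨16384000 * (R + 2) ^ 2, by positivity, ?_⟩
  intro Ψ hΨ C' hPB G d1 d2 Eo M1 M2 M3 hD N hN hN0 hNb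
  -- the number of waves
  have hc1 : Continuous fun x : E (k + 4) => d1 (pr x) := hD.smd1.cont.comp cont_pr
  have hc2 : Continuous fun x : E (k + 4) => d2 (pr x) := hD.smd2.cont.comp cont_pr
  obtain ⟨B1, hB1⟩ := (isCompact_closedBall (0 : E (k + 4)) 3).exists_bound_of_continuousOn
    hc1.continuousOn
  obtain ⟨B2, hB2⟩ := (isCompact_closedBall (0 : E (k + 4)) 3).exists_bound_of_continuousOn
    hc2.continuousOn
  obtain ⟨K, hK⟩ := pow_unbounded_of_one_lt (max B1 B2) (by norm_num : (1 : ℝ) < 4)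
  have hd1 : ∀ x : E (k + 4), ‖x‖ ≤ 3 → d1 (pr x) < 4 ^ K := by
    intro x hx
    have h := hB1 x (by simpa using hx)
    rw [Real.norm_eq_abs] at h
    linarith [le_abs_self (d1 (pr x)), le_max_left B1 B2]
  have hd2 : ∀ x : E (k + 4), ‖x‖ ≤ 3 → d2 (pr x) < 4 ^ K := by
    intro x hx
    have h := hB2 x (by simpa using hx)
    rw [Real.norm_eq_abs] at h
    linarith [le_abs_self (d2 (pr x)), le_max_right B1 B2]
  obtain ⟨hwa1, hwa2, hwa3, hwa4, hwa5⟩ := hDMI k ζa ζb ζc hcut d1 d2 hD.smd1 hD.smd2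
    hD.one1 hD.one2 K
  set α : Fin K → E (k + 4) → ℝ := fun n x => wa K ζb d1 d2 (Sum.inr (Sum.inr (n, true))) x
    with hα
  have hασ : ∀ (n : Fin K) (σ : Bool) (x : E (k + 4)),
      wa K ζb d1 d2 (Sum.inr (Sum.inr (n, σ))) x = α n x := fun n σ x => rfl
  have hαc : ∀ n, Continuous (α n) := fun n => ContDiff.continuous (hwa1 _)
  have hαn : ∀ n x, 0 ≤ α n x := fun n x => hwa2 _ x
  set S2 : E (k + 4) → ℝ := fun x => ∑ n : Fin K, 2 ^ (n : ℕ) * α n x ^ 2 with hS2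
  have hS2c : Continuous S2 := by
    rw [hS2]
    exact continuous_finsetSum _ fun n _ => continuous_const.mul ((hαc n).pow 2)
  have hS2l : ∀ x : E (k + 4), ‖x‖ ≤ 3 → Real.sqrt (d2 (pr x)) / 16384000 ≤ S2 x := fun x hx =>
    (hDMK k ζa ζb ζc hcut d1 d2 hD.one1 hD.one2 K x hx (hd1 x hx) (hd2 x hx)).2
  set τ : E (k + 4) → ℝ := fun x => 8 * N x / (d1 (pr x) * max (S2 x) (1 / 16384000)) with hτ
  have hden : ∀ x : E (k + 4), 0 < d1 (pr x) * max (S2 x) (1 / 16384000) := fun x =>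
    mul_pos (by linarith [hD.one1 (pr x)]) (lt_max_of_lt_right (by norm_num))
  have hτc : Continuous τ := by
    rw [hτ]
    exact (continuous_const.mul hN).div (hc1.mul (hS2c.max continuous_const))
      fun x => (hden x).ne'
  have hτ0 : ∀ x, 5 / 2 ≤ ‖x‖ → τ x = 0 := by
    intro x hx
    rw [hτ]
    simp only
    rw [hN0 x hx]
    simp
  have hmax : ∀ x : E (k + 4), ‖x‖ ≤ 3 → max (S2 x) (1 / 16384000) = S2 x := by
    intro x hx
    apply max_eq_left
    have h1 := hS2l x hx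
    have h2 := one_le_sqrt (hD.one2 (pr x))
    linarith
  have hτb : ∀ x, |τ x| ≤ 8 * 16384000 := by
    intro x
    by_cases hx : 5 / 2 ≤ ‖x‖
    · rw [hτ0 x hx]
      norm_num
    · have hx3 : ‖x‖ ≤ 3 := by linarith
      rw [hτ]
      simp only
      rw [abs_div, abs_of_pos (hden x), div_le_iff₀ (hden x), hmax x hx3, abs_mul,
        abs_of_pos (by norm_num : (0 : ℝ) < 8)]
      have h1 := hNb x
      have h2 := hS2l x hx3
      have h3 : 0 ≤ d1 (pr x) := by linarith [hD.one1 (pr x)]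
      have h4 : d1 (pr x) * (Real.sqrt (d2 (pr x)) / 16384000) ≤ d1 (pr x) * S2 x :=
        mul_le_mul_of_nonneg_left h2 h3
      nlinarith
  -- the waves
  have hsmf : SmE fun x : E (k + 4) => ζb x * G (pr x) :=
    hcut.smb.mul ((hPRJ k).2.2.2 G hD.smG).1
  have hwav := hWAV (k + 4) Ψ (by omega) hΨ C' hPB R 1 1 (fun x => ζb x * G (pr x)) hR one_pos
    zero_le_one hsmf
    (by
      intro x hx
      rw [hcut.outb x (by linarith)]
      simp)
    (by
      intro x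
      by_cases hx : 7 / 2 ≤ ‖x‖
      · rw [hcut.outb x hx]
        simp
      · rw [abs_mul, abs_of_nonneg (hcut.nnb x).1]
        have h1 := hD.bG (pr x) (((hPRJ k).1 x).trans (by linarith))
        calc ζb x * |G (pr x)| ≤ 1 * 1 :=
              mul_le_mul (hcut.nnb x).2 h1 (abs_nonneg _) zero_le_one
          _ = 1 := by norm_num)
    (WI K) (wx K) (wa K ζb d1 d2) hwa1 hwa2 hwa3
    (fun x hx v => (hwa4 x v).trans (hW G d1 d2 Eo M1 M2 M3 hD x hx v))
    (ps K τ α (1 / 16384000)) (tf_ps K τ α _ hτc hτ0 hαc) (ps_diag K τ α _)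
    (by
      intro x
      rw [sum_ps K τ α _ (by norm_num) hαn]
      have h1 := (hwa5 x).2
      have h2 : ∑ n, α n x ≤ 3 / 64 := h1
      have h3 : 0 ≤ ∑ n, α n x := Finset.sum_nonneg fun n _ => hαn n x
      have h4 := hτb x
      have h5 : |τ x| * (1 / 16384000) ≤ 8 := by linarith
      have h6 : |τ x| * (1 / 16384000) * ∑ n, α n x ≤ 8 * (3 / 64) :=
        mul_le_mul h5 h2 h3 (by norm_num)
      linarith)
  -- evaluation of the sum
  set F : WI K → WI K → ℂ := fun a b => BB Ψ (rk (wx K a)) (rk (wx K b))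
    (fun x => ps K τ α (1 / 16384000) a b x * (wa K ζb d1 d2 a x : ℂ) *
      (wa K ζb d1 d2 b x : ℂ)) with hF
  have hz : ∀ a b : WI K, (a ≠ Sum.inl false ∨ ∀ p, b ≠ Sum.inr (Sum.inr p)) → F a b = 0 := by
    intro a b hab
    have h1 : ∀ x, ps K τ α (1 / 16384000) a b x = 0 := by
      intro x
      rcases a with (_ | _) | a
      · rcases b with b | (b | b)
        · rfl
        · rfl
        · rcases hab with h | h
          · exact absurd rfl h
          · exact absurd rfl (h b)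
      · rfl
      · rfl
    rw [hF]
    simp only [h1, zero_mul]
    exact BB_zero hB4P Ψ hΨ _ _ (rk_cont _) (rk_cont _)
  set T : Fin K → E (k + 4) → ℂ := fun n x =>
    ((1 / 16384000 * τ x * α n x ^ 2 * (ζb x * d1 (pr x) / 8) : ℝ) : ℂ) with hT
  have hTt : ∀ n, Tf 4 (T n) := by
    intro n
    refine ⟨?_, ?_⟩
    · have h : Continuous fun x : E (k + 4) =>
          1 / 16384000 * τ x * α n x ^ 2 * (ζb x * d1 (pr x) / 8) :=
        ((continuous_const.mul hτc).mul ((hαc n).pow 2)).mul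
          (((ContDiff.continuous hcut.smb).mul hc1).div_const 8)
      exact Complex.continuous_ofReal.comp h
    · intro x hx
      rw [hT]
      simp only
      rw [hτ0 x (by linarith)]
      simp
  have hsum : ∑ a, ∑ b, F a b = ∑ n, ∑ σ, BB Ψ (rk (eb 0))
      (rk (wx K (Sum.inr (Sum.inr (n, σ))))) (fun x => (sg σ : ℂ) * T n x) := by
    rw [sum_only F hz]
    refine Finset.sum_congr rfl fun n _ => Finset.sum_congr rfl fun σ _ => ?_
    rw [hF]
    simp only
    congr 1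
    funext x
    rw [hT, hασ]
    change ((sg σ * τ x * α n x * (1 / 16384000) : ℝ) : ℂ) * ((ζb x * d1 (pr x) / 8 : ℝ) : ℂ) *
      (α n x : ℂ) = _
    push_cast
    ring
  have hrka := (hRKA k Ψ hΨ K).2 (rk (eb 0)) (rk_cont _) T hTt
  have hval : (fun x => ∑ n : Fin K, 2 * 2 ^ (n : ℕ) * T n x) =
      fun x => ((2 / 16384000 : ℝ) : ℂ) * (N x : ℂ) := by
    funext x
    have h1 : ∑ n : Fin K, 2 * 2 ^ (n : ℕ) * T n x =
        ((2 / 16384000 * τ x * (ζb x * d1 (pr x) / 8) * S2 x : ℝ) : ℂ) := by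
      rw [hS2, hT]
      push_cast
      rw [Finset.mul_sum]
      exact Finset.sum_congr rfl fun n _ => by ring
    rw [h1, ← Complex.ofReal_mul]
    congr 1
    by_cases hx : 5 / 2 ≤ ‖x‖
    · rw [hτ0 x hx, hN0 x hx]
      ring
    · have hx3 : ‖x‖ ≤ 3 := by linarith
      rw [hcut.oneb x hx3, hτ]
      simp only
      have hd := hden x
      rw [hmax x hx3] at hd ⊢
      have hd' : d1 (pr x) ≠ 0 := by linarith [hD.one1 (pr x)]
      have hs' : S2 x ≠ 0 := fun h => by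
        rw [h] at hd
        simp at hd
      field_simp
  have hNt : Tf 4 (fun x => (N x : ℂ)) :=
    ⟨Complex.continuous_ofReal.comp hN, fun x hx => by
      rw [hN0 x (by linarith)]
      simp⟩
  have hfin : ∑ a, ∑ b, F a b =
      ((2 / 16384000 : ℝ) : ℂ) * BB Ψ (rk (eb 0)) (sy 1 3) (fun x => (N x : ℂ)) := by
    rw [hsum, hrka, hval]
    exact BB_smul hB4P Ψ hΨ _ _ (rk_cont _) (sy_cont _ _) _ hNt _
  have hle : ‖∑ a, ∑ b, F a b‖ ≤ 2 * (R + 1 + 1) ^ 2 * C' := hwav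
  rw [hfin, norm_mul, Complex.norm_real, Real.norm_eq_abs,
    abs_of_pos (by norm_num : (0 : ℝ) < 2 / 16384000)] at hle
  have h7 : (R + 1 + 1) ^ 2 = (R + 2) ^ 2 := by ring
  rw [h7] at hle
  linarith

end Pool.Agent.GNS
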