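import Pool.Agent.GNS.T3

/-!
# GNS: DX3, the domination of the component `rk e_2`
-/

set_option autoImplicit false

open Metric Set Filter Topology MeasureTheory

noncomputable section

namespace Pool.Agent.GNS

open Pool.Agent.GLB

namespace DX3_

theorem pr_cd {k : ℕ} : ContDiff ℝ ((⊤ : ℕ∞) : WithTop ℕ∞) (fun x : E (k + 4) => (pr x : V)) := by
  unfold pr
  fun_prop

theorem pr_cont {k : ℕ} : Continuous (fun x : E (k + 4) => (pr x : V)) :=
  pr_cd.continuous

theorem pr_norm {k : ℕ} (x : E (k + 4)) : ‖(pr x : V)‖ ≤ ‖x‖ := by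
  have h : ∀ i : Fin (k + 4), ‖x i‖ ≤ ‖x‖ := fun i => PiLp.norm_apply_le x i
  unfold pr
  exact max_le (max_le (h 0) (h 1)) (max_le (h 2) (h 3))

/-- the amplitudes of the second family -/
def al {k : ℕ} (K : ℕ) (ζ : E (k + 4) → ℝ) (d1 d2 : V → ℝ) (n : Fin K) (x : E (k + 4)) : ℝ :=
  wa K ζ d1 d2 (Sum.inr (Sum.inr (n, true))) x

theorem al_eq {k : ℕ} (K : ℕ) (ζ : E (k + 4) → ℝ) (d1 d2 : V → ℝ) (n : Fin K) (σ : Bool)
    (x : E (k + 4)) : wa K ζ d1 d2 (Sum.inr (Sum.inr (n, σ))) x = al K ζ d1 d2 n x := rfl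

/-- the coefficients of the test function -/
def psi {k : ℕ} (K : ℕ) (τ : E (k + 4) → ℝ) (a : Fin K → E (k + 4) → ℝ) :
    WI K → WI K → E (k + 4) → ℂ
  | Sum.inl true, Sum.inr (Sum.inr (n, σ)) =>
      fun x => ((sg σ * (τ x * a n x / 16384000) : ℝ) : ℂ)
  | _, _ => fun _ => 0

/-- linearity in the test function -/
theorem BB_smul (h_B4P : T_B4P) {m : ℕ} (Ψ : ConvexBody (E (m + 1)) → (C(S (m + 1), ℂ) →L[ℂ] ℂ))
    (hΨ : IsArea (m + 1) 2 Ψ) (A A' : E m → Fin m → Fin m → ℝ)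
    (hA : ∀ i j, Continuous fun x => A x i j) (hA' : ∀ i j, Continuous fun x => A' x i j)
    (c : ℂ) (φ : E m → ℂ) (hφ : Tf 4 φ) :
    BB Ψ A A' (fun x => c * φ x) = c * BB Ψ A A' φ := by
  obtain ⟨C, -, hC⟩ := h_B4P
  unfold BB
  rw [Finset.mul_sum]
  refine Finset.sum_congr rfl fun i _ => ?_
  rw [Finset.mul_sum]
  refine Finset.sum_congr rfl fun j _ => ?_
  rw [Finset.mul_sum]
  refine Finset.sum_congr rfl fun p _ => ?_
  rw [Finset.mul_sum]
  refine Finset.sum_congr rfl fun q _ => ?_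
  have ht : Tf 4 (fun x => φ x * (A x i j : ℂ) * (A' x p q : ℂ)) := by
    refine ⟨?_, fun x hx => by rw [hφ.out x hx]; ring⟩
    exact (hφ.cont.mul (Complex.continuous_ofReal.comp (hA i j))).mul
      (Complex.continuous_ofReal.comp (hA' p q))
  rw [← (hC m Ψ hΨ 4 _ _ ht ht i j p q).2.1 c]
  congr 1
  funext x
  ring

theorem rk_cont {m : ℕ} (ξ : E m) (i j : Fin m) : Continuous fun x => rk ξ x i j :=
  continuous_const

theorem sy_cont {m : ℕ} (a b : Fin m) (i j : Fin m) : Continuous fun x => sy a b x i j :=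
  continuous_const

end DX3_

open DX3_ in
/-- Target DX3. -/
theorem p_DX3 (h_WAV : T_WAV) (h_DMI : T_DMI) (h_DMK : T_DMK) (h_DMW : T_DMW) (h_RKA : T_RKA)
    (h_B4P : T_B4P) : T_DX3 := by
  intro k ζa ζb ζc hcut
  obtain ⟨R, hR, hW⟩ := h_DMW k ζa ζb ζc hcut
  refine ⟨16384000 * (R + 1 + 1) ^ 2, by positivity, ?_⟩
  intro Ψ hΨ C' hC' G d1 d2 Eo M1 M2 M3 hD N hN hN0 hNb
  -- the number of waves
  obtain ⟨K, hK⟩ : ∃ K : ℕ, ∀ x : E (k + 4), ‖x‖ ≤ 3 → d1 (pr x) < 4 ^ K ∧ d2 (pr x) < 4 ^ K := by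
    have hc : IsCompact (closedBall (0 : E (k + 4)) 3) := isCompact_closedBall 0 3
    obtain ⟨B1, hB1⟩ := hc.exists_bound_of_continuousOn
      (f := fun x => d1 (pr x)) (hD.smd1.continuous.comp pr_cont).continuousOn
    obtain ⟨B2, hB2⟩ := hc.exists_bound_of_continuousOn
      (f := fun x => d2 (pr x)) (hD.smd2.continuous.comp pr_cont).continuousOn
    obtain ⟨K, hK⟩ := pow_unbounded_of_one_lt (max B1 B2) (by norm_num : (1 : ℝ) < 4)
    refine ⟨K, fun x hx => ?_⟩
    have hx' : x ∈ closedBall (0 : E (k + 4)) 3 := by simpa using hx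
    have h1 := (Real.le_norm_self _).trans (hB1 x hx')
    have h2 := (Real.le_norm_self _).trans (hB2 x hx')
    exact ⟨(h1.trans (le_max_left _ _)).trans_lt hK, (h2.trans (le_max_right _ _)).trans_lt hK⟩
  obtain ⟨i1, i2, i3, i4, i5⟩ := h_DMI k ζa ζb ζc hcut d1 d2 hD.smd1 hD.smd2 hD.one1 hD.one2 K
  set a : Fin K → E (k + 4) → ℝ := al K ζb d1 d2 with ha
  have acont : ∀ n, Continuous (a n) := fun n => (i1 (Sum.inr (Sum.inr (n, true)))).continuous
  have ann : ∀ n x, 0 ≤ a n x := fun n x => i2 (Sum.inr (Sum.inr (n, true))) x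
  have asum : ∀ x, ∑ n, a n x ≤ 3 / 64 := fun x => (i5 x).2
  -- the sum S2
  set S2 : E (k + 4) → ℝ := fun x => ∑ n : Fin K, 2 ^ (n : ℕ) * a n x ^ 2 with hS2
  have S2cont : Continuous S2 := by
    refine continuous_finsetSum _ fun n _ => ?_
    exact continuous_const.mul ((acont n).pow 2)
  have S2low : ∀ x : E (k + 4), ‖x‖ ≤ 3 → Real.sqrt (d2 (pr x)) / 16384000 ≤ S2 x := fun x hx =>
    (h_DMK k ζa ζb ζc hcut d1 d2 hD.one1 hD.one2 K x hx (hK x hx).1 (hK x hx).2).2
  have sq1 : ∀ x : E (k + 4), 1 ≤ Real.sqrt (d2 (pr x)) := fun x =>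
    Real.one_le_sqrt.2 (hD.one2 _)
  have S2pos : ∀ x : E (k + 4), ‖x‖ ≤ 3 → 0 < S2 x := fun x hx =>
    lt_of_lt_of_le (div_pos (lt_of_lt_of_le one_pos (sq1 x)) (by norm_num)) (S2low x hx)
  -- the function τ
  set τ : E (k + 4) → ℝ := fun x => 8 * N x / S2 x with hτ
  have τ0 : ∀ x, 5 / 2 ≤ ‖x‖ → τ x = 0 := by
    intro x hx
    simp only [hτ, hN0 x hx, mul_zero, zero_div]
  have τcont : Continuous τ := by
    rw [continuous_iff_continuousAt]
    intro x
    rcases lt_or_ge ‖x‖ 3 with hx | hx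
    · exact (continuousAt_const.mul hN.continuousAt).div S2cont.continuousAt
        (S2pos x hx.le).ne'
    · have hev : ∀ᶠ y in 𝓝 x, τ y = 0 := by
        have : ∀ᶠ y in 𝓝 x, (5 / 2 : ℝ) < ‖y‖ :=
          continuous_norm.continuousAt.eventually (lt_mem_nhds (by linarith))
        filter_upwards [this] with y hy
        exact τ0 y hy.le
      have h1 : τ x = 0 := τ0 x (by linarith)
      have h2 : Tendsto τ (𝓝 x) (𝓝 0) := by
        refine tendsto_const_nhds.congr' ?_
        filter_upwards [hev] with y hy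
        exact hy.symm
      unfold ContinuousAt
      rw [h1]
      exact h2
  have τbd : ∀ x, |τ x| ≤ 8 * 16384000 := by
    intro x
    rcases le_or_gt (5 / 2) ‖x‖ with hx | hx
    · rw [τ0 x hx, abs_zero]
      norm_num
    · have h3 : ‖x‖ ≤ 3 := by linarith
      have hp := S2pos x h3
      have hl := S2low x h3
      have hb := hNb x
      simp only [hτ]
      rw [abs_div, abs_of_pos hp, abs_mul, div_le_iff₀ hp]
      have h8 : |(8 : ℝ)| = 8 := abs_of_pos (by norm_num)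
      rw [h8]
      have : Real.sqrt (d2 (pr x)) ≤ 16384000 * S2 x := by
        rw [div_le_iff₀ (by norm_num : (0 : ℝ) < 16384000)] at hl
        linarith
      nlinarith
  -- the waves
  have f0sm : SmE (fun x : E (k + 4) => ζb x * G (pr x)) := hcut.smb.mul (hD.smG.comp pr_cd)
  have f0out : ∀ x : E (k + 4), 4 ≤ ‖x‖ → ζb x * G (pr x) = 0 := by
    intro x hx
    rw [hcut.outb x (by linarith), zero_mul]
  have f0bd : ∀ x : E (k + 4), |ζb x * G (pr x)| ≤ 1 := by
    intro x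
    rcases le_or_gt (7 / 2) ‖x‖ with hx | hx
    · rw [hcut.outb x hx, zero_mul, abs_zero]
      exact zero_le_one
    · have h1 := hD.bG (pr x) ((pr_norm x).trans (by linarith))
      have h2 : |ζb x| ≤ 1 := abs_le.2 ⟨by linarith [(hcut.nnb x).1], (hcut.nnb x).2⟩
      rw [abs_mul]
      exact mul_le_one₀ h2 (abs_nonneg _) h1
  have hpos : ∀ x : E (k + 4), ‖x‖ ≤ 4 → ∀ v, 1 * ‖v‖ ^ 2 +
      ∑ p, wa K ζb d1 d2 p x * inner ℝ (wx K p) v ^ 2 ≤
      D2 (fun y => R * rt y + ζb y * G (pr y)) x v v := fun x hx v =>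
    (i4 x v).trans (hW G d1 d2 Eo M1 M2 M3 hD x hx v)
  have sgabs : ∀ σ : Bool, |sg σ| = 1 := by
    intro σ
    cases σ <;> simp [sg]
  have psiTf : ∀ p q, Tf 4 (psi K τ a p q) := by
    have hz : Tf 4 (fun _ : E (k + 4) => (0 : ℂ)) := ⟨continuous_const, fun _ _ => rfl⟩
    intro p q
    rcases p with (_ | _) | p
    · rcases q with q | q <;> exact hz
    · rcases q with q | (q | ⟨n, σ⟩)
      · exact hz
      · exact hz
      · refine ⟨?_, fun x hx => ?_⟩
        · exact Complex.continuous_ofReal.comp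
            (continuous_const.mul ((τcont.mul (acont n)).div_const _))
        · have : τ x = 0 := τ0 x (by linarith)
          simp only [psi, this, zero_mul, zero_div, mul_zero, Complex.ofReal_zero]
    · rcases q with q | q <;> exact hz
  have psid : ∀ p x, psi K τ a p p x = 0 := by
    intro p x
    rcases p with (_ | _) | (p | p) <;> rfl
  have psis : ∀ x, ∑ p, ∑ q, ‖psi K τ a p q x‖ ≤ 1 := by
    intro x
    have e1 : ∑ p, ∑ q, ‖psi K τ a p q x‖ = ∑ n : Fin K, ∑ σ : Bool,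
        ‖((sg σ * (τ x * a n x / 16384000) : ℝ) : ℂ)‖ := by
      simp only [Fintype.sum_sum_type, Fintype.sum_bool, Fintype.sum_prod_type, psi, norm_zero,
        Finset.sum_const_zero, add_zero, zero_add]
    rw [e1]
    have e2 : ∀ n : Fin K, ∑ σ : Bool, ‖((sg σ * (τ x * a n x / 16384000) : ℝ) : ℂ)‖ ≤
        16 * a n x := by
      intro n
      have e3 : ∀ σ : Bool, ‖((sg σ * (τ x * a n x / 16384000) : ℝ) : ℂ)‖ ≤ 8 * a n x := by
        intro σ
        rw [Complex.norm_real, Real.norm_eq_abs, abs_mul, sgabs, one_mul, abs_div, abs_mul,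
          abs_of_nonneg (ann n x)]
        have h8 : |(16384000 : ℝ)| = 16384000 := abs_of_pos (by norm_num)
        rw [h8, div_le_iff₀ (by norm_num)]
        nlinarith [τbd x, ann n x]
      rw [Fintype.sum_bool]
      linarith [e3 true, e3 false]
    calc ∑ n : Fin K, ∑ σ : Bool, ‖((sg σ * (τ x * a n x / 16384000) : ℝ) : ℂ)‖
        ≤ ∑ n : Fin K, 16 * a n x := Finset.sum_le_sum fun n _ => e2 n
      _ = 16 * ∑ n : Fin K, a n x := by rw [Finset.mul_sum]
      _ ≤ 1 := by linarith [asum x]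
  have key := h_WAV (k + 4) Ψ (by omega) hΨ C' hC' R 1 1 (fun x => ζb x * G (pr x)) hR one_pos
    zero_le_one f0sm f0out f0bd (WI K) (wx K) (wa K ζb d1 d2) i1 i2 i3 hpos (psi K τ a) psiTf
    psid psis
  -- the sum
  have BB0 : ∀ (A A' : E (k + 4) → Fin (k + 4) → Fin (k + 4) → ℝ),
      (∀ i j, Continuous fun x => A x i j) → (∀ i j, Continuous fun x => A' x i j) →
      BB Ψ A A' (fun _ => 0) = 0 := by
    intro A A' hA hA'
    have h := BB_smul h_B4P Ψ hΨ A A' hA hA' 0 (fun _ => 0) ⟨continuous_const, fun _ _ => rfl⟩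
    simpa using h
  set T : Fin K → E (k + 4) → ℂ := fun n x =>
    (((τ x * a n x / 16384000) * (ζb x / 8) * a n x : ℝ) : ℂ) with hT
  have TTf : ∀ n, Tf 4 (T n) := by
    intro n
    refine ⟨?_, fun x hx => ?_⟩
    · exact Complex.continuous_ofReal.comp ((((τcont.mul (acont n)).div_const _).mul
        (hcut.smb.continuous.div_const _)).mul (acont n))
    · have : τ x = 0 := τ0 x (by linarith)
      simp only [hT, this, zero_mul, zero_div, Complex.ofReal_zero]
  have sum1 : ∑ p, ∑ q, BB Ψ (rk (wx K p)) (rk (wx K q))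
      (fun x => psi K τ a p q x * (wa K ζb d1 d2 p x : ℂ) * (wa K ζb d1 d2 q x : ℂ)) =
      ∑ n : Fin K, ∑ σ : Bool, BB Ψ (rk (eb 2)) (rk (wx K (Sum.inr (Sum.inr (n, σ)))))
        (fun x => (sg σ : ℂ) * T n x) := by
    have e4 : ∀ (n : Fin K) (σ : Bool), (fun x : E (k + 4) =>
        psi K τ a (Sum.inl true) (Sum.inr (Sum.inr (n, σ))) x *
        (wa K ζb d1 d2 (Sum.inl true) x : ℂ) *
        (wa K ζb d1 d2 (Sum.inr (Sum.inr (n, σ))) x : ℂ)) = fun x => (sg σ : ℂ) * T n x := by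
      intro n σ
      funext x
      rw [al_eq]
      simp only [psi, hT, wa, ha]
      push_cast
      ring
    have e5 : ∀ q : WI K, BB Ψ (rk (wx K (Sum.inl false))) (rk (wx K q))
        (fun x => psi K τ a (Sum.inl false) q x * (wa K ζb d1 d2 (Sum.inl false) x : ℂ) *
        (wa K ζb d1 d2 q x : ℂ)) = 0 := by
      intro q
      have : (fun x => psi K τ a (Sum.inl false) q x * (wa K ζb d1 d2 (Sum.inl false) x : ℂ) *
        (wa K ζb d1 d2 q x : ℂ)) = fun _ => 0 := by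
        funext x
        have : psi K τ a (Sum.inl false) q x = 0 := by
          rcases q with q | q <;> rfl
        rw [this, zero_mul, zero_mul]
      rw [this]
      exact BB0 _ _ (rk_cont _) (rk_cont _)
    have e6 : ∀ (p : (Fin K × Bool) ⊕ (Fin K × Bool)) (q : WI K),
        BB Ψ (rk (wx K (Sum.inr p))) (rk (wx K q))
        (fun x => psi K τ a (Sum.inr p) q x * (wa K ζb d1 d2 (Sum.inr p) x : ℂ) *
        (wa K ζb d1 d2 q x : ℂ)) = 0 := by
      intro p q
      have : (fun x => psi K τ a (Sum.inr p) q x * (wa K ζb d1 d2 (Sum.inr p) x : ℂ) *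
        (wa K ζb d1 d2 q x : ℂ)) = fun _ => 0 := by
        funext x
        have : psi K τ a (Sum.inr p) q x = 0 := by
          rcases q with q | q <;> rfl
        rw [this, zero_mul, zero_mul]
      rw [this]
      exact BB0 _ _ (rk_cont _) (rk_cont _)
    have e7 : ∀ q : Bool, BB Ψ (rk (wx K (Sum.inl true))) (rk (wx K (Sum.inl q)))
        (fun x => psi K τ a (Sum.inl true) (Sum.inl q) x *
        (wa K ζb d1 d2 (Sum.inl true) x : ℂ) * (wa K ζb d1 d2 (Sum.inl q) x : ℂ)) = 0 := by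
      intro q
      have : (fun x => psi K τ a (Sum.inl true) (Sum.inl q) x *
        (wa K ζb d1 d2 (Sum.inl true) x : ℂ) * (wa K ζb d1 d2 (Sum.inl q) x : ℂ)) =
          fun _ => 0 := by
        funext x
        have : psi K τ a (Sum.inl true) (Sum.inl q) x = 0 := rfl
        rw [this, zero_mul, zero_mul]
      rw [this]
      exact BB0 _ _ (rk_cont _) (rk_cont _)
    have e8 : ∀ q : Fin K × Bool, BB Ψ (rk (wx K (Sum.inl true)))
        (rk (wx K (Sum.inr (Sum.inl q))))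
        (fun x => psi K τ a (Sum.inl true) (Sum.inr (Sum.inl q)) x *
        (wa K ζb d1 d2 (Sum.inl true) x : ℂ) *
        (wa K ζb d1 d2 (Sum.inr (Sum.inl q)) x : ℂ)) = 0 := by
      intro q
      have : (fun x => psi K τ a (Sum.inl true) (Sum.inr (Sum.inl q)) x *
        (wa K ζb d1 d2 (Sum.inl true) x : ℂ) *
        (wa K ζb d1 d2 (Sum.inr (Sum.inl q)) x : ℂ)) = fun _ => 0 := by
        funext x
        have : psi K τ a (Sum.inl true) (Sum.inr (Sum.inl q)) x = 0 := rfl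
        rw [this, zero_mul, zero_mul]
      rw [this]
      exact BB0 _ _ (rk_cont _) (rk_cont _)
    rw [Fintype.sum_sum_type]
    have z1 : ∑ p : (Fin K × Bool) ⊕ (Fin K × Bool), ∑ q : WI K,
        BB Ψ (rk (wx K (Sum.inr p))) (rk (wx K q))
        (fun x => psi K τ a (Sum.inr p) q x * (wa K ζb d1 d2 (Sum.inr p) x : ℂ) *
        (wa K ζb d1 d2 q x : ℂ)) = 0 :=
      Finset.sum_eq_zero fun p _ => Finset.sum_eq_zero fun q _ => e6 p q
    rw [z1, add_zero, Fintype.sum_bool]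
    have z2 : ∑ q : WI K, BB Ψ (rk (wx K (Sum.inl false))) (rk (wx K q))
        (fun x => psi K τ a (Sum.inl false) q x * (wa K ζb d1 d2 (Sum.inl false) x : ℂ) *
        (wa K ζb d1 d2 q x : ℂ)) = 0 := Finset.sum_eq_zero fun q _ => e5 q
    rw [z2, add_zero, Fintype.sum_sum_type, Finset.sum_eq_zero (fun q _ => e7 q), zero_add,
      Fintype.sum_sum_type, Finset.sum_eq_zero (fun q _ => e8 q), zero_add,
      Fintype.sum_prod_type]
    refine Finset.sum_congr rfl fun n _ => Finset.sum_congr rfl fun σ _ => ?_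
    rw [e4 n σ]
    rfl
  rw [sum1, (h_RKA k Ψ hΨ K).2 (rk (eb 2)) (rk_cont _) T TTf] at key
  have fin1 : (fun x : E (k + 4) => ∑ n : Fin K, 2 * 2 ^ (n : ℕ) * T n x) =
      fun x => ((2 / 16384000 : ℝ) : ℂ) * (N x : ℂ) := by
    funext x
    have r1 : ∀ n : Fin K, (2 : ℂ) * 2 ^ (n : ℕ) * T n x =
        ((2 * (τ x * (ζb x / 8)) / 16384000 * (2 ^ (n : ℕ) * a n x ^ 2) : ℝ) : ℂ) := by
      intro n
      simp only [hT]
      push_cast
      ring
    rw [Finset.sum_congr rfl fun n _ => r1 n, ← Complex.ofReal_sum, ← Finset.mul_sum]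
    have r2 : 2 * (τ x * (ζb x / 8)) / 16384000 * (∑ n : Fin K, 2 ^ (n : ℕ) * a n x ^ 2) =
        2 / 16384000 * N x := by
      rcases le_or_gt (5 / 2) ‖x‖ with hx | hx
      · rw [τ0 x hx, hN0 x hx]
        ring
      · have h3 : ‖x‖ ≤ 3 := by linarith
        have hp := S2pos x h3
        have hb := hcut.oneb x h3
        have hs : (∑ n : Fin K, 2 ^ (n : ℕ) * a n x ^ 2) = S2 x := rfl
        rw [hs, hb]
        simp only [hτ]
        field_simp
    rw [r2, Complex.ofReal_mul]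
  have NTf : Tf 4 (fun x : E (k + 4) => (N x : ℂ)) := by
    refine ⟨Complex.continuous_ofReal.comp hN, fun x hx => ?_⟩
    rw [hN0 x (by linarith), Complex.ofReal_zero]
  rw [fin1, BB_smul h_B4P Ψ hΨ _ _ (rk_cont _) (sy_cont _ _) _ _ NTf, norm_mul,
    Complex.norm_real, Real.norm_eq_abs, abs_of_pos (by norm_num : (0 : ℝ) < 2 / 16384000)] at key
  nlinarith [key]

end Pool.Agent.GNS
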