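import Pool.Agent.GNS.T5

/-!
# GNS: the embedding of a hyperplane
-/

set_option autoImplicit false

open Metric Set Filter Topology MeasureTheory

noncomputable section

namespace Pool.Agent.GNS

open Pool.Agent.GLB

namespace EMB_

variable {n : ℕ}

theorem emb_cast (x : E n) (i : Fin n) : (emb x) i.castSucc = x i := by
  simp [emb]

theorem emb_last (x : E n) : (emb x) (Fin.last n) = 0 := by
  simp [emb]

theorem prj_apply (v : E (n + 1)) (i : Fin n) : (prj v) i = v i.castSucc := rfl

theorem el_cast (i : Fin n) : (el : E (n + 1)) i.castSucc = 0 := by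
  unfold el eb
  rw [EuclideanSpace.single_apply, if_neg (Fin.castSucc_lt_last i).ne]

theorem el_last : (el : E (n + 1)) (Fin.last n) = 1 := by
  unfold el eb
  rw [EuclideanSpace.single_apply, if_pos rfl]

theorem inner_emb (x : E n) (v : E (n + 1)) : inner ℝ (emb x) v = inner ℝ x (prj v) := by
  rw [PiLp.inner_apply, PiLp.inner_apply, Fin.sum_univ_castSucc]
  simp only [emb_cast, emb_last, prj_apply]
  simp

theorem dec (v : E (n + 1)) : v = emb (prj v) + hgt v • el := by
  ext i
  refine Fin.lastCases ?_ (fun i => ?_) i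
  · rw [PiLp.add_apply, PiLp.smul_apply, emb_last, el_last, smul_eq_mul, mul_one, zero_add]
    rfl
  · rw [PiLp.add_apply, PiLp.smul_apply, emb_cast, el_cast, smul_eq_mul, mul_zero, add_zero]
    rfl

theorem prj_emb (x : E n) : prj (emb x) = x := by
  ext i
  rw [prj_apply, emb_cast]

theorem nrm (v : E (n + 1)) : ‖v‖ ^ 2 = ‖prj v‖ ^ 2 + hgt v ^ 2 := by
  rw [EuclideanSpace.norm_sq_eq, EuclideanSpace.norm_sq_eq, Fin.sum_univ_castSucc]
  simp only [prj_apply, Real.norm_eq_abs, sq_abs]
  rfl

theorem inner_el (v : E (n + 1)) : inner ℝ el v = hgt v := by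
  unfold el eb
  rw [EuclideanSpace.inner_single_left]
  simp [hgt]

theorem cont_prj : Continuous (prj : E (n + 1) → E n) := by
  unfold prj
  fun_prop

/-- the inclusion as a linear map -/
def embL : E n →ₗ[ℝ] E (n + 1) where
  toFun := emb
  map_add' x y := by
    ext i
    refine Fin.lastCases ?_ (fun i => ?_) i
    · rw [PiLp.add_apply, emb_last, emb_last, emb_last, add_zero]
    · rw [PiLp.add_apply, emb_cast, emb_cast, emb_cast, PiLp.add_apply]
  map_smul' r x := by
    ext i
    refine Fin.lastCases ?_ (fun i => ?_) i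
    · rw [PiLp.smul_apply, emb_last, emb_last, smul_zero]
    · rw [PiLp.smul_apply, emb_cast, emb_cast, PiLp.smul_apply, RingHom.id_apply]

theorem cont_emb : Continuous (emb : E n → E (n + 1)) :=
  (embL (n := n)).continuous_of_finiteDimensional

theorem ex_em (K : ConvexBody (E n)) : ∃ L, IsEm K L :=
  ⟨⟨emb '' (K : Set (E n)), K.convex.linear_image embL, K.isCompact.image cont_emb,
    K.nonempty.image emb⟩, rfl⟩

theorem isEm (K : ConvexBody (E n)) : IsEm K (em K) := by
  have h := ex_em K
  unfold em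
  rw [dif_pos h]
  exact h.choose_spec

theorem supp_em (K : ConvexBody (E n)) (v : E (n + 1)) : supp (em K) v = supp K (prj v) := by
  have h := isEm K
  unfold IsEm at h
  unfold supp
  rw [h, image_image]
  simp only [inner_emb]

theorem supp_seg (a u : E n) : supp (seg a) u = max 0 (inner ℝ a u) := by
  have h0 : (0 : E n) ∈ seg a := left_mem_segment ℝ 0 a
  have h1 : a ∈ seg a := right_mem_segment ℝ 0 a
  apply le_antisymm
  · obtain ⟨x, hx, e⟩ := (gSUA n).2.1 (seg a) u
    have hx' : x ∈ segment ℝ 0 a := hx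
    rw [segment_eq_image] at hx'
    obtain ⟨θ, hθ, rfl⟩ := hx'
    rw [← e]
    simp only [smul_zero, zero_add]
    rw [inner_smul_left]
    simp only [conj_trivial]
    rcases le_total 0 (inner ℝ a u : ℝ) with h | h
    · exact (mul_le_of_le_one_left h hθ.2).trans (le_max_right _ _)
    · exact (mul_nonpos_of_nonneg_of_nonpos hθ.1 h).trans (le_max_left _ _)
  · apply max_le
    · have := (gSUA n).1 (seg a) 0 u h0
      rwa [inner_zero_left] at this
    · exact (gSUA n).1 (seg a) a u h1

theorem prj_le (v : E (n + 1)) : ‖prj v‖ ≤ ‖v‖ := by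
  have h := nrm v
  have h2 : ‖prj v‖ ^ 2 ≤ ‖v‖ ^ 2 := by nlinarith [sq_nonneg (hgt v)]
  exact (sq_le_sq₀ (norm_nonneg _) (norm_nonneg _)).1 h2

theorem dist_em (K L : ConvexBody (E n)) : dist (em K) (em L) ≤ dist K L := by
  refine (gSUD (n + 1) _ _).2 _ dist_nonneg ?_
  intro u hu
  rw [supp_em, supp_em]
  have h1 := (gSUD n K L).1 (prj u)
  have h2 := prj_le u
  rw [hu] at h2
  exact h1.trans (mul_le_of_le_one_right dist_nonneg h2)

theorem cont_em : Continuous (em : ConvexBody (E n) → ConvexBody (E (n + 1))) := by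
  rw [continuous_iff_continuousAt]
  intro K
  rw [ContinuousAt, tendsto_iff_dist_tendsto_zero]
  refine squeeze_zero (fun _ => dist_nonneg) (fun L => dist_em L K) ?_
  have h := (tendsto_iff_dist_tendsto_zero (f := fun L : ConvexBody (E n) => L) (a := K)
    (x := 𝓝 K)).1 tendsto_id
  exact h

end EMB_

open EMB_ in
theorem p_EMB : T_EMB := by
  intro n
  refine ⟨inner_emb, dec, prj_emb, nrm, inner_el, cont_prj, isEm, supp_em, ?_, ?_, cont_em, ?_⟩
  · intro K x
    refine (gSUL (n + 1) _ (em K + pt (emb x))).2.1 fun u => ?_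
    rw [supp_em, (gSUA n).2.2.1, (gSUA (n + 1)).2.2.1, supp_em, (gSUA n).2.2.2.2.1,
      (gSUA (n + 1)).2.2.2.2.1, inner_emb]
  · intro K t ht
    refine (gSUL (n + 1) _ (t • em K)).2.1 fun u => ?_
    rw [supp_em, (gSUA n).2.2.2.1 K t _ ht, (gSUA (n + 1)).2.2.2.1 _ t _ ht, supp_em]
  · intro v
    unfold Jl
    rw [supp_seg, inner_el]

end Pool.Agent.GNS
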