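import Pool.Agent.GNS.T2

/-!
# GNS, target EQD: equidistribution
-/

set_option autoImplicit false

open Metric Set Filter Topology MeasureTheory

noncomputable section

namespace Pool.Agent.GNS

namespace EQD_

theorem smL0 : Sm fun z : V => z.1.1 := by
  unfold Sm
  fun_prop

theorem smL1 : Sm fun z : V => z.1.2 := by
  unfold Sm
  fun_prop

theorem dL0 (z : V) : d 0 (fun z : V => z.1.1) z = 1 := by
  have h : HasFDerivAt (fun z : V => z.1.1)
      ((ContinuousLinearMap.fst ℝ ℝ ℝ).comp (ContinuousLinearMap.fst ℝ X2 X2)) z :=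
    ((ContinuousLinearMap.fst ℝ ℝ ℝ).comp (ContinuousLinearMap.fst ℝ X2 X2)).hasFDerivAt
  unfold d
  rw [h.fderiv]
  simp [e]

theorem dL1 (z : V) : d 1 (fun z : V => z.1.2) z = 1 := by
  have h : HasFDerivAt (fun z : V => z.1.2)
      ((ContinuousLinearMap.snd ℝ ℝ ℝ).comp (ContinuousLinearMap.fst ℝ X2 X2)) z :=
    ((ContinuousLinearMap.snd ℝ ℝ ℝ).comp (ContinuousLinearMap.fst ℝ X2 X2)).hasFDerivAt
  unfold d
  rw [h.fderiv]
  simp [e]

theorem main {θ q3 : ℝ → ℝ} {c3 C : ℝ} (smθ : ContDiff ℝ ((⊤ : ℕ∞) : WithTop ℕ∞) θ)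
    (smq : ContDiff ℝ ((⊤ : ℕ∞) : WithTop ℕ∞) q3) (hq : ∀ t, deriv q3 t = θ t ^ 3 - c3)
    (bq : ∀ t, |q3 t| ≤ C) {f : V → ℝ} (hf : Sm f) (hc : HasCompactSupport f)
    {L : V → ℝ} (hL : Sm L) (i : Fin 4) (hdL : ∀ z, d i L z = 1) {h : ℝ} (hh : 0 < h) :
    |(∫ z, f z * θ (L z / h) ^ 3) - c3 * ∫ z, f z| ≤ h * (C * ∫ z, |d i f z|) := by
  have hLh : Sm fun z => L z / h := by
    have := hL.cmul (1 / h)
    refine (show (fun z => L z / h) = fun z => 1 / h * L z from ?_) ▸ this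
    funext z
    ring
  have hdLh : ∀ z, d i (fun z => L z / h) z = 1 / h := by
    intro z
    have e1 : (fun z => L z / h) = fun z => 1 / h * L z := by
      funext z
      ring
    rw [e1, d_cmul hL, hdL, mul_one]
  have hQ0 : Sm fun z => q3 (L z / h) := hLh.comp1 smq
  have hQ : Sm fun z => h * q3 (L z / h) := hQ0.cmul h
  have hθ : Sm fun z => θ (L z / h) := hLh.comp1 smθ
  have hdQ : ∀ z, d i (fun z => h * q3 (L z / h)) z = θ (L z / h) ^ 3 - c3 := by
    intro z
    rw [d_cmul hQ0, d_comp1 hLh (smq.differentiable (by simp)), hdLh, hq]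
    field_simp
  have hi1 : Integrable fun z => f z * θ (L z / h) ^ 3 :=
    (hf.cont.mul (hθ.pow 3).cont).integrable_of_hasCompactSupport hc.mul_right
  have hi2 : Integrable f := int_of hf.cont hc
  have e1 : (∫ z, f z * θ (L z / h) ^ 3) - c3 * ∫ z, f z =
      -∫ z, (h * q3 (L z / h)) * d i f z := by
    rw [← d_ibp hQ hf hc i, ← integral_const_mul, ← integral_sub hi1 (hi2.const_mul c3)]
    refine integral_congr_ae (Eventually.of_forall fun z => ?_)
    dsimp only
    rw [hdQ]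
    ring
  have hdi : Integrable (d i f) := int_of (hf.d i).cont (hcs_d hc i)
  rw [e1, abs_neg]
  calc |∫ z, (h * q3 (L z / h)) * d i f z| ≤ ∫ z, |(h * q3 (L z / h)) * d i f z| :=
        abs_integral_le_integral_abs
    _ ≤ ∫ z, h * C * |d i f z| := by
        refine integral_mono_of_nonneg (Eventually.of_forall fun z => abs_nonneg _)
          (hdi.abs.const_mul _) (Eventually.of_forall fun z => ?_)
        dsimp only
        rw [abs_mul, abs_mul, abs_of_pos hh]
        exact mul_le_mul_of_nonneg_right (mul_le_mul_of_nonneg_left (bq _) hh.le) (abs_nonneg _)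
    _ = h * (C * ∫ z, |d i f z|) := by
        rw [integral_const_mul]
        ring

theorem small {K ε : ℝ} (hK : 0 ≤ K) (hε : 0 < ε) :
    ∀ᶠ h in 𝓝[>] (0 : ℝ), 0 < h ∧ h * K ≤ ε := by
  have h1 : ∀ᶠ h in 𝓝[>] (0 : ℝ), h < ε / (K + 1) := by
    have : Iio (ε / (K + 1)) ∈ 𝓝 (0 : ℝ) := Iio_mem_nhds (by positivity)
    exact mem_nhdsWithin_of_mem_nhds this
  filter_upwards [h1, self_mem_nhdsWithin] with h hh h0
  have h0' : 0 < h := h0
  refine ⟨h0', ?_⟩
  have h2 : h * (K + 1) < ε := (lt_div_iff₀ (by positivity)).1 hh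
  nlinarith

end EQD_

open EQD_ in
theorem p_EQD : T_EQD := by
  intro N θ σ σ2 q3 ϵ m2 c3 C hP f ε hf hc hε
  have hC : 0 ≤ C := (abs_nonneg _).trans (hP.bq 0)
  constructor
  · have hK : 0 ≤ C * ∫ z, |d 0 f z| := mul_nonneg hC (integral_nonneg fun z => abs_nonneg _)
    filter_upwards [small hK hε] with h hh
    exact (main hP.smθ hP.smq hP.hq hP.bq hf hc smL0 0 dL0 hh.1).trans hh.2
  · have hK : 0 ≤ C * ∫ z, |d 1 f z| := mul_nonneg hC (integral_nonneg fun z => abs_nonneg _)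
    filter_upwards [small hK hε] with h hh
    exact (main hP.smθ hP.smq hP.hq hP.bq hf hc smL1 1 dL1 hh.1).trans hh.2

end Pool.Agent.GNS
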