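import Pool.Agent.GNS.T1

/-!
# GNS: target FBD, integration by parts for the charges
-/

set_option autoImplicit false

open Metric Set Filter Topology MeasureTheory

noncomputable section

namespace Pool.Agent.GNS

namespace FBD_

/-- linearity of the integral, four terms -/
theorem int4 {A B C D : V → ℝ} (hA : Integrable A) (hB : Integrable B) (hC : Integrable C)
    (hD : Integrable D) : ∫ z, (A z - B z - C z - D z) =
      (∫ z, A z) - (∫ z, B z) - (∫ z, C z) - ∫ z, D z := by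
  have h1 : Integrable fun z => A z - B z := hA.sub hB
  have h2 : Integrable fun z => A z - B z - C z := h1.sub hC
  rw [integral_sub h2 hD, integral_sub h1 hC, integral_sub hA hB]

/-- linearity of the integral, five terms -/
theorem int5 {A B C D F : V → ℝ} (hA : Integrable A) (hB : Integrable B) (hC : Integrable C)
    (hD : Integrable D) (hF : Integrable F) : ∫ z, (A z + B z + C z + D z + F z) =
      (∫ z, A z) + (∫ z, B z) + (∫ z, C z) + (∫ z, D z) + ∫ z, F z := by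
  have h1 : Integrable fun z => A z + B z := hA.add hB
  have h2 : Integrable fun z => A z + B z + C z := h1.add hC
  have h3 : Integrable fun z => A z + B z + C z + D z := h2.add hD
  rw [integral_add h3 hF, integral_add h2 hD, integral_add h1 hC, integral_add hA hB]

/-- the general integration by parts -/
theorem core (a b : Fin 4) {ζ Ψ P Q m2 m3 : V → ℝ} (hζ : Sm ζ) (hc : HasCompactSupport ζ)
    (hΨ : Sm Ψ) (hP : Sm P) (hQ : Sm Q) (h2 : Sm m2) (h3 : Sm m3)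
    (e2 : ∀ z, d 2 Ψ z = 0) (e3 : ∀ z, d 3 Ψ z = 0)
    (hid : ∀ z, d a P z - d b Q z = d 2 m2 z + d 3 m3 z) :
    ∫ z, ζ z * (d a Ψ z * P z - d b Ψ z * Q z) =
      ∫ z, -(Ψ z * (d a ζ z * P z - d b ζ z * Q z - d 2 ζ z * m2 z - d 3 ζ z * m3 z)) := by
  have I : ∀ (i : Fin 4) (R : V → ℝ), Sm R →
      ∫ z, d i Ψ z * (ζ z * R z) = -∫ z, Ψ z * d i (fun z => ζ z * R z) z :=
    fun i R hR => d_ibp hΨ (hζ.mul hR) hc.mul_right i
  have J1 : ∀ (i : Fin 4) (R : V → ℝ), Sm R → Integrable fun z => d i Ψ z * (ζ z * R z) := by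
    intro i R hR
    exact int_of ((hΨ.d i).mul (hζ.mul hR)).cont (hc.mul_right (f' := R)).mul_left
  have J2 : ∀ (i : Fin 4) (R : V → ℝ), Sm R →
      Integrable fun z => Ψ z * d i (fun z => ζ z * R z) z := by
    intro i R hR
    exact int_of (hΨ.mul ((hζ.mul hR).d i)).cont
      (hcs_d (hc.mul_right (f' := R)) i).mul_left
  have E1 : ∫ z, ζ z * (d a Ψ z * P z - d b Ψ z * Q z) =
      ∫ z, (d a Ψ z * (ζ z * P z) - d b Ψ z * (ζ z * Q z) - d 2 Ψ z * (ζ z * m2 z) -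
        d 3 Ψ z * (ζ z * m3 z)) := by
    refine integral_congr_ae (Eventually.of_forall fun z => ?_)
    simp only [e2 z, e3 z]
    ring
  have E2 : ∫ z, -(Ψ z * (d a ζ z * P z - d b ζ z * Q z - d 2 ζ z * m2 z - d 3 ζ z * m3 z)) =
      -∫ z, (Ψ z * d a (fun z => ζ z * P z) z - Ψ z * d b (fun z => ζ z * Q z) z -
        Ψ z * d 2 (fun z => ζ z * m2 z) z - Ψ z * d 3 (fun z => ζ z * m3 z) z) := by
    rw [← integral_neg]
    refine integral_congr_ae (Eventually.of_forall fun z => ?_)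
    simp only
    rw [d_mul hζ hP, d_mul hζ hQ, d_mul hζ h2, d_mul hζ h3]
    have h := hid z
    linear_combination (-(Ψ z * ζ z)) * (-h)
  rw [E1, E2, int4 (J1 a P hP) (J1 b Q hQ) (J1 2 m2 h2) (J1 3 m3 h3),
    int4 (J2 a P hP) (J2 b Q hQ) (J2 2 m2 h2) (J2 3 m3 h3), I a P hP, I b Q hQ, I 2 m2 h2,
    I 3 m3 h3]
  ring

/-- the pointwise bound, integrated -/
theorem bound (a b : Fin 4) {K : ℝ} {ζ Ψ P Q m2 m3 χ T : V → ℝ} (hζ : Sm ζ)
    (hc : HasCompactSupport ζ) (hΨ : Sm Ψ) (hP : Sm P) (hQ : Sm Q) (h2 : Sm m2) (h3 : Sm m3)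
    (hχs : Sm χ) (hχc : HasCompactSupport χ) (hTs : Sm T) (hK0 : 0 ≤ K)
    (hK : ∀ i z, |d i ζ z| ≤ K) (hz : ∀ z, 3 < ‖z‖ → ∀ i, d i ζ z = 0)
    (h10 : ∀ z, ‖z‖ ≤ 3 → |Ψ z| ≤ 10) (hχ : ∀ z, 0 ≤ χ z) (hχ1 : ∀ z, ‖z‖ ≤ 3 → χ z = 1)
    (hT : ∀ z, |P z| + |Q z| + |m2 z| + |m3 z| ≤ 2 * T z) :
    ∫ z, -(Ψ z * (d a ζ z * P z - d b ζ z * Q z - d 2 ζ z * m2 z - d 3 ζ z * m3 z)) ≤
      20 * K * ∫ z, χ z * T z := by
  rw [← integral_const_mul]
  have c1 : ∀ (i : Fin 4) (R : V → ℝ), HasCompactSupport fun z => d i ζ z * R z :=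
    fun i R => (hcs_d hc i).mul_right
  have g1 : ∀ (i : Fin 4) (R : V → ℝ), Sm R → Integrable fun z => Ψ z * (d i ζ z * R z) := by
    intro i R hR
    exact int_of (hΨ.mul ((hζ.d i).mul hR)).cont (c1 i R).mul_left
  have g2 : Integrable fun z =>
      -(Ψ z * (d a ζ z * P z - d b ζ z * Q z - d 2 ζ z * m2 z - d 3 ζ z * m3 z)) := by
    have h := ((((g1 a P hP).sub (g1 b Q hQ)).sub (g1 2 m2 h2)).sub (g1 3 m3 h3)).neg
    refine h.congr (Eventually.of_forall fun z => ?_)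
    simp only [Pi.neg_apply, Pi.sub_apply]
    ring
  have g3 : Integrable fun z => 20 * K * (χ z * T z) :=
    (int_of (hχs.mul hTs).cont hχc.mul_right).const_mul _
  refine integral_mono g2 g3 fun z => ?_
  simp only
  have hT0 : 0 ≤ T z := by
    have h := hT z
    have := abs_nonneg (P z)
    have := abs_nonneg (Q z)
    have := abs_nonneg (m2 z)
    have := abs_nonneg (m3 z)
    linarith
  rcases le_or_gt ‖z‖ 3 with h | h
  · rw [hχ1 z h, one_mul]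
    have q : ∀ (i : Fin 4) (x : ℝ), |d i ζ z * x| ≤ K * |x| := by
      intro i x
      rw [abs_mul]
      exact mul_le_mul_of_nonneg_right (hK i z) (abs_nonneg _)
    have q1 := abs_le.1 (q a (P z))
    have q2 := abs_le.1 (q b (Q z))
    have q3 := abs_le.1 (q 2 (m2 z))
    have q4 := abs_le.1 (q 3 (m3 z))
    set X := d a ζ z * P z - d b ζ z * Q z - d 2 ζ z * m2 z - d 3 ζ z * m3 z with hX
    have hX1 : |X| ≤ K * (2 * T z) := by
      have h5 : K * (|P z| + |Q z| + |m2 z| + |m3 z|) ≤ K * (2 * T z) :=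
        mul_le_mul_of_nonneg_left (hT z) hK0
      refine le_trans ?_ h5
      rw [abs_le]
      constructor
      · linarith [q1.1, q2.2, q3.2, q4.2]
      · linarith [q1.2, q2.1, q3.1, q4.1]
    have h6 : -(Ψ z * X) ≤ |Ψ z * X| := neg_le_abs _
    have h7 : |Ψ z * X| ≤ 10 * (K * (2 * T z)) := by
      rw [abs_mul]
      exact mul_le_mul (h10 z h) hX1 (abs_nonneg _) (by norm_num)
    linarith
  · simp only [hz z h]
    have h8 : 0 ≤ 20 * K * (χ z * T z) := by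
      have := mul_nonneg hK0 (mul_nonneg (hχ z) hT0)
      linarith
    simpa using h8

/-- derivative of an expression of the form of `SS` -/
theorem d_form {A B C D E F G : V → ℝ} (hA : Sm A) (hB : Sm B) (hC : Sm C) (hD : Sm D)
    (hE : Sm E) (hF : Sm F) (hG : Sm G) (i : Fin 4) (z : V) :
    d i (fun z => A z * (B z + C z) - D z * E z - F z * G z) z =
      d i A z * (B z + C z) + A z * (d i B z + d i C z) - (d i D z * E z + D z * d i E z) -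
        (d i F z * G z + F z * d i G z) := by
  rw [d_sub ((hA.mul (hB.add hC)).sub (hD.mul hE)) (hF.mul hG),
    d_sub (hA.mul (hB.add hC)) (hD.mul hE), d_mul hA (hB.add hC), d_mul hD hE, d_mul hF hG,
    d_add hB hC]

/-- derivative of a minor -/
theorem d_minor {A B C D : V → ℝ} (hA : Sm A) (hB : Sm B) (hC : Sm C) (hD : Sm D)
    (i : Fin 4) (z : V) :
    d i (fun z => A z * B z - C z * D z) z =
      d i A z * B z + A z * d i B z - (d i C z * D z + C z * d i D z) := by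
  rw [d_sub (hA.mul hB) (hC.mul hD), d_mul hA hB, d_mul hC hD]

theorem SS_eq (i : Fin 4) (w : V → ℝ) : SS i w = fun z =>
    d i (d i w) z * (d 2 (d 2 w) z + d 3 (d 3 w) z) - d i (d 2 w) z * d i (d 2 w) z -
      d i (d 3 w) z * d i (d 3 w) z := by
  funext z
  unfold SS
  ring

theorem S01_eq (w : V → ℝ) : S01 w = fun z =>
    d 0 (d 1 w) z * (d 2 (d 2 w) z + d 3 (d 3 w) z) - d 0 (d 2 w) z * d 1 (d 2 w) z -
      d 0 (d 3 w) z * d 1 (d 3 w) z := rfl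

/-- the minor `w_ii w_jk - w_01 w_ik` -/
def mn (i j k : Fin 4) (w : V → ℝ) (z : V) : ℝ :=
  d i (d i w) z * d j (d k w) z - d 0 (d 1 w) z * d i (d k w) z

/-- the principal minor -/
def pm (i j : Fin 4) (w : V → ℝ) (z : V) : ℝ :=
  d i (d i w) z * d j (d j w) z - d i (d j w) z ^ 2

theorem sm_SS {w : V → ℝ} (hw : Sm w) (i : Fin 4) : Sm (SS i w) := by
  rw [SS_eq]
  exact ((((hw.d i).d i).mul (((hw.d 2).d 2).add ((hw.d 3).d 3))).sub
    (((hw.d 2).d i).mul ((hw.d 2).d i))).sub (((hw.d 3).d i).mul ((hw.d 3).d i))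

theorem sm_S01 {w : V → ℝ} (hw : Sm w) : Sm (S01 w) :=
  ((((hw.d 1).d 0).mul (((hw.d 2).d 2).add ((hw.d 3).d 3))).sub
    (((hw.d 2).d 0).mul ((hw.d 2).d 1))).sub (((hw.d 3).d 0).mul ((hw.d 3).d 1))

theorem sm_mn {w : V → ℝ} (hw : Sm w) (i j k : Fin 4) : Sm (mn i j k w) :=
  (((hw.d i).d i).mul ((hw.d k).d j)).sub (((hw.d 1).d 0).mul ((hw.d k).d i))

theorem sm_pm {w : V → ℝ} (hw : Sm w) (i j : Fin 4) : Sm (pm i j w) :=
  (((hw.d i).d i).mul ((hw.d j).d j)).sub (((hw.d j).d i).pow 2)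

/-- the first identity -/
theorem id0 {w : V → ℝ} (hw : Sm w) (z : V) :
    d 1 (SS 0 w) z - d 0 (S01 w) z = d 2 (mn 0 1 2 w) z + d 3 (mn 0 1 3 w) z := by
  rw [SS_eq, S01_eq, d_form ((hw.d 0).d 0) ((hw.d 2).d 2) ((hw.d 3).d 3) ((hw.d 2).d 0)
    ((hw.d 2).d 0) ((hw.d 3).d 0) ((hw.d 3).d 0), d_form ((hw.d 1).d 0) ((hw.d 2).d 2)
    ((hw.d 3).d 3) ((hw.d 2).d 0) ((hw.d 2).d 1) ((hw.d 3).d 0) ((hw.d 3).d 1)]
  unfold mn
  rw [d_minor ((hw.d 0).d 0) ((hw.d 2).d 1) ((hw.d 1).d 0) ((hw.d 2).d 0),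
    d_minor ((hw.d 0).d 0) ((hw.d 3).d 1) ((hw.d 1).d 0) ((hw.d 3).d 0)]
  have k1 : d 1 (d 0 (d 0 w)) z = d 0 (d 0 (d 1 w)) z := by
    rw [d_comm (hw.d 0) 1 0, d_fun_comm hw 1 0]
  have k2 : d 2 (d 0 (d 0 w)) z = d 0 (d 0 (d 2 w)) z := by
    rw [d_comm (hw.d 0) 2 0, d_fun_comm hw 2 0]
  have k3 : d 3 (d 0 (d 0 w)) z = d 0 (d 0 (d 3 w)) z := by
    rw [d_comm (hw.d 0) 3 0, d_fun_comm hw 3 0]
  have k4 : d 1 (d 0 (d 2 w)) z = d 0 (d 1 (d 2 w)) z := d_comm (hw.d 2) 1 0 z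
  have k5 : d 1 (d 0 (d 3 w)) z = d 0 (d 1 (d 3 w)) z := d_comm (hw.d 3) 1 0 z
  have k6 : d 2 (d 1 (d 2 w)) z = d 1 (d 2 (d 2 w)) z := d_comm (hw.d 2) 2 1 z
  have k7 : d 3 (d 1 (d 3 w)) z = d 1 (d 3 (d 3 w)) z := d_comm (hw.d 3) 3 1 z
  have k8 : d 2 (d 0 (d 1 w)) z = d 0 (d 1 (d 2 w)) z := by
    rw [d_comm (hw.d 1) 2 0, d_fun_comm hw 2 1]
  have k9 : d 3 (d 0 (d 1 w)) z = d 0 (d 1 (d 3 w)) z := by
    rw [d_comm (hw.d 1) 3 0, d_fun_comm hw 3 1]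
  have k10 : d 2 (d 0 (d 2 w)) z = d 0 (d 2 (d 2 w)) z := d_comm (hw.d 2) 2 0 z
  have k11 : d 3 (d 0 (d 3 w)) z = d 0 (d 3 (d 3 w)) z := d_comm (hw.d 3) 3 0 z
  rw [k1, k2, k3, k4, k5, k6, k7, k8, k9, k10, k11]
  ring

/-- the second identity -/
theorem id1 {w : V → ℝ} (hw : Sm w) (z : V) :
    d 0 (SS 1 w) z - d 1 (S01 w) z = d 2 (mn 1 0 2 w) z + d 3 (mn 1 0 3 w) z := by
  rw [SS_eq, S01_eq, d_form ((hw.d 1).d 1) ((hw.d 2).d 2) ((hw.d 3).d 3) ((hw.d 2).d 1)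
    ((hw.d 2).d 1) ((hw.d 3).d 1) ((hw.d 3).d 1), d_form ((hw.d 1).d 0) ((hw.d 2).d 2)
    ((hw.d 3).d 3) ((hw.d 2).d 0) ((hw.d 2).d 1) ((hw.d 3).d 0) ((hw.d 3).d 1)]
  unfold mn
  rw [d_minor ((hw.d 1).d 1) ((hw.d 2).d 0) ((hw.d 1).d 0) ((hw.d 2).d 1),
    d_minor ((hw.d 1).d 1) ((hw.d 3).d 0) ((hw.d 1).d 0) ((hw.d 3).d 1)]
  have k1 : d 1 (d 0 (d 1 w)) z = d 0 (d 1 (d 1 w)) z := d_comm (hw.d 1) 1 0 z
  have k2 : d 2 (d 1 (d 1 w)) z = d 1 (d 1 (d 2 w)) z := by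
    rw [d_comm (hw.d 1) 2 1, d_fun_comm hw 2 1]
  have k3 : d 3 (d 1 (d 1 w)) z = d 1 (d 1 (d 3 w)) z := by
    rw [d_comm (hw.d 1) 3 1, d_fun_comm hw 3 1]
  have k4 : d 1 (d 0 (d 2 w)) z = d 0 (d 1 (d 2 w)) z := d_comm (hw.d 2) 1 0 z
  have k5 : d 1 (d 0 (d 3 w)) z = d 0 (d 1 (d 3 w)) z := d_comm (hw.d 3) 1 0 z
  have k6 : d 2 (d 1 (d 2 w)) z = d 1 (d 2 (d 2 w)) z := d_comm (hw.d 2) 2 1 z
  have k7 : d 3 (d 1 (d 3 w)) z = d 1 (d 3 (d 3 w)) z := d_comm (hw.d 3) 3 1 z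
  have k8 : d 2 (d 0 (d 1 w)) z = d 0 (d 1 (d 2 w)) z := by
    rw [d_comm (hw.d 1) 2 0, d_fun_comm hw 2 1]
  have k9 : d 3 (d 0 (d 1 w)) z = d 0 (d 1 (d 3 w)) z := by
    rw [d_comm (hw.d 1) 3 0, d_fun_comm hw 3 1]
  have k10 : d 2 (d 0 (d 2 w)) z = d 0 (d 2 (d 2 w)) z := d_comm (hw.d 2) 2 0 z
  have k11 : d 3 (d 0 (d 3 w)) z = d 0 (d 3 (d 3 w)) z := d_comm (hw.d 3) 3 0 z
  rw [k1, k2, k3, k4, k5, k6, k7, k8, k9, k10, k11]
  ring

/-- functions of `x` only have no derivative in the direction `e k` if `(e k).1 = 0` -/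
theorem xo_d {Φ : V → ℝ} (hΦ : Sm Φ) (hX : Xo Φ) (k : Fin 4) (hk : (e k).1 = 0) (z : V) :
    d k Φ z = 0 := by
  have h1 := line_deriv hΦ z (e k) 0
  have h2 : (fun s : ℝ => Φ (z + s • e k)) = fun _ => Φ z := by
    funext s
    apply hX
    rw [Prod.fst_add, Prod.smul_fst, hk, smul_zero, add_zero]
  rw [h2] at h1
  have h3 := h1.unique (hasDerivAt_const (0 : ℝ) (Φ z))
  rw [zero_smul, add_zero] at h3
  exact h3

theorem xo_dd {Φ : V → ℝ} (hΦ : Sm Φ) (hX : Xo Φ) (i k : Fin 4) (hk : (e k).1 = 0) (z : V) :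
    d k (d i Φ) z = 0 := by
  rw [d_comm hΦ k i]
  have h : d k Φ = fun _ => 0 := funext fun z => xo_d hΦ hX k hk z
  rw [h, d_const]

end FBD_

open FBD_ in
theorem p_FBD (h_MAS : T_MAS) (h_MAB : T_MAB) (h_SNN : T_SNN) : T_FBD := by
  intro ζ0 ζ1 hcut
  have hζ : Sm ζ1 := hcut.sm1
  have hc : HasCompactSupport ζ1 := hcs_of hcut.out1
  -- a bump function
  let χb : ContDiffBump (0 : V) := ⟨3, 4, by norm_num, by norm_num⟩
  have hχs : Sm (fun z => χb z) := χb.contDiff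
  have hχc : HasCompactSupport (fun z => χb z) := χb.hasCompactSupport
  have hχ0 : ∀ z, 0 ≤ χb z := fun z => χb.nonneg
  have hχ1 : ∀ z, ‖z‖ ≤ 3 → χb z = 1 := by
    intro z hz
    apply χb.one_of_mem_closedBall
    rw [mem_closedBall, dist_zero_right]
    exact hz
  obtain ⟨C, hC0, hC⟩ := h_MAS (fun z => χb z) hχs hχc hχ0
  -- bounds for the gradient of the cut-off function
  have hK : ∃ K : ℝ, 0 ≤ K ∧ ∀ i z, |d i ζ1 z| ≤ K := by
    have h1 : ∀ i : Fin 4, ∃ K : ℝ, ∀ z, ‖d i ζ1 z‖ ≤ K := fun i =>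
      (hcs_d hc i).exists_bound_of_continuous (hζ.d i).cont
    choose K hK using h1
    refine ⟨∑ i, |K i|, Finset.sum_nonneg fun i _ => abs_nonneg _, fun i z => ?_⟩
    have h2 : |d i ζ1 z| ≤ |K i| := (hK i z).trans (le_abs_self _)
    exact h2.trans (Finset.single_le_sum (f := fun i => |K i|) (fun i _ => abs_nonneg _)
      (Finset.mem_univ i))
  obtain ⟨K, hK0, hK⟩ := hK
  have hz3 : ∀ z, 3 < ‖z‖ → ∀ i, d i ζ1 z = 0 := by
    intro z hz i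
    have h1 : ζ1 =ᶠ[𝓝 z] fun _ => (0 : ℝ) := by
      have h2 : ∀ᶠ z' in 𝓝 z, 3 < ‖z'‖ := continuous_norm.continuousAt.eventually_const_lt hz
      filter_upwards [h2] with z' hz'
      exact hcut.out1 z' hz'.le
    rw [d_congr h1 i, d_const]
  refine ⟨200 * K * C, ?_⟩
  intro Φ hΦ hX hΦ1 w hw
  have hws : Sm w := hw.sm
  set T : V → ℝ := fun z => pm 0 1 w z + pm 0 2 w z + pm 0 3 w z + pm 1 2 w z + pm 1 3 w z
    with hTdef
  have hTs : Sm T := ((((sm_pm hws 0 1).add (sm_pm hws 0 2)).add (sm_pm hws 0 3)).add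
    (sm_pm hws 1 2)).add (sm_pm hws 1 3)
  -- the total mass
  have hTint : ∫ z, χb z * T z ≤ 5 * C := by
    have g : ∀ i j, Integrable fun z => χb z * pm i j w z := fun i j =>
      int_of (hχs.mul (sm_pm hws i j)).cont hχc.mul_right
    have h1 : ∫ z, χb z * T z = (∫ z, χb z * pm 0 1 w z) + (∫ z, χb z * pm 0 2 w z) +
        (∫ z, χb z * pm 0 3 w z) + (∫ z, χb z * pm 1 2 w z) + ∫ z, χb z * pm 1 3 w z := by
      rw [← int5 (g 0 1) (g 0 2) (g 0 3) (g 1 2) (g 1 3)]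
      refine integral_congr_ae (Eventually.of_forall fun z => ?_)
      simp only [hTdef]
      ring
    have h2 := (hC w hw).2
    have a1 : ∫ z, χb z * pm 0 1 w z ≤ C := h2 0 1
    have a2 : ∫ z, χb z * pm 0 2 w z ≤ C := h2 0 2
    have a3 : ∫ z, χb z * pm 0 3 w z ≤ C := h2 0 3
    have a4 : ∫ z, χb z * pm 1 2 w z ≤ C := h2 1 2
    have a5 : ∫ z, χb z * pm 1 3 w z ≤ C := h2 1 3
    rw [h1]
    linarith
  -- pointwise estimates
  have hpm0 : ∀ z i j, 0 ≤ pm i j w z := by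
    intro z i j
    have h := h_MAB w hws hw.cvx z i j j
    have h1 : d i (d i w) z * d j (d j w) z - d i (d j w) z * d i (d j w) z = pm i j w z := by
      unfold pm
      ring
    rw [h1] at h
    have h2 : 2 * |pm i j w z| ≤ pm i j w z + pm i j w z := h
    have h3 := abs_nonneg (pm i j w z)
    linarith
  have hS0 : ∀ z, SS 0 w z = pm 0 2 w z + pm 0 3 w z := by
    intro z
    unfold SS pm
    ring
  have hS1 : ∀ z, SS 1 w z = pm 1 2 w z + pm 1 3 w z := by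
    intro z
    unfold SS pm
    ring
  have hS01 : ∀ z, 2 * |S01 w z| ≤ SS 0 w z + SS 1 w z := by
    intro z
    have h1 := h_SNN w hws hw.cvx z 1 1
    have h2 := h_SNN w hws hw.cvx z 1 (-1)
    rcases abs_cases (S01 w z) with h | h <;> rw [h.1] <;> linarith
  have hm0 : ∀ z k, 2 * |mn 0 1 k w z| ≤ pm 0 1 w z + pm 0 k w z := fun z k =>
    h_MAB w hws hw.cvx z 0 1 k
  have hm1 : ∀ z k, 2 * |mn 1 0 k w z| ≤ pm 0 1 w z + pm 1 k w z := by
    intro z k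
    have h := h_MAB w hws hw.cvx z 1 0 k
    have h1 : d 1 (d 1 w) z * d 0 (d k w) z - d 1 (d 0 w) z * d 1 (d k w) z =
        mn 1 0 k w z := by
      unfold mn
      rw [d_comm hws 1 0]
    have h2 : d 1 (d 1 w) z * d 0 (d 0 w) z - d 1 (d 0 w) z ^ 2 = pm 0 1 w z := by
      unfold pm
      rw [d_comm hws 1 0]
      ring
    rw [h1, h2] at h
    exact h
  have hT0 : ∀ z, |SS 0 w z| + |S01 w z| + |mn 0 1 2 w z| + |mn 0 1 3 w z| ≤ 2 * T z := by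
    intro z
    have b1 := hpm0 z 0 1
    have b2 := hpm0 z 0 2
    have b3 := hpm0 z 0 3
    have b4 := hpm0 z 1 2
    have b5 := hpm0 z 1 3
    have h1 : |SS 0 w z| = pm 0 2 w z + pm 0 3 w z := by
      rw [hS0 z, abs_of_nonneg (add_nonneg b2 b3)]
    have h2 := hS01 z
    rw [hS0, hS1] at h2
    have h3 := hm0 z 2
    have h4 := hm0 z 3
    simp only [hTdef]
    linarith
  have hT1 : ∀ z, |SS 1 w z| + |S01 w z| + |mn 1 0 2 w z| + |mn 1 0 3 w z| ≤ 2 * T z := by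
    intro z
    have b1 := hpm0 z 0 1
    have b2 := hpm0 z 0 2
    have b3 := hpm0 z 0 3
    have b4 := hpm0 z 1 2
    have b5 := hpm0 z 1 3
    have h1 : |SS 1 w z| = pm 1 2 w z + pm 1 3 w z := by
      rw [hS1 z, abs_of_nonneg (add_nonneg b4 b5)]
    have h2 := hS01 z
    rw [hS0, hS1] at h2
    have h3 := hm1 z 2
    have h4 := hm1 z 3
    simp only [hTdef]
    linarith
  -- the two integrals
  have ek2 : (e 2).1 = 0 := by simp [e]
  have ek3 : (e 3).1 = 0 := by simp [e]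
  have A1 := core 1 0 hζ hc (hΦ.d 1) (sm_SS hws 0) (sm_S01 hws) (sm_mn hws 0 1 2)
    (sm_mn hws 0 1 3) (xo_dd hΦ hX 1 2 ek2) (xo_dd hΦ hX 1 3 ek3) (id0 hws)
  have A2 := core 0 1 hζ hc (hΦ.d 0) (sm_SS hws 1) (sm_S01 hws) (sm_mn hws 1 0 2)
    (sm_mn hws 1 0 3) (xo_dd hΦ hX 0 2 ek2) (xo_dd hΦ hX 0 3 ek3) (id1 hws)
  have B1 := bound 1 0 hζ hc (hΦ.d 1) (sm_SS hws 0) (sm_S01 hws) (sm_mn hws 0 1 2)
    (sm_mn hws 0 1 3) hχs hχc hTs hK0 hK hz3 (fun z hz => (hΦ1 z hz).2) hχ0 hχ1 hT0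
  have B2 := bound 0 1 hζ hc (hΦ.d 0) (sm_SS hws 1) (sm_S01 hws) (sm_mn hws 1 0 2)
    (sm_mn hws 1 0 3) hχs hχc hTs hK0 hK hz3 (fun z hz => (hΦ1 z hz).1) hχ0 hχ1 hT1
  have g : ∀ (R R' : V → ℝ), Sm R → Sm R' → Integrable fun z => ζ1 z * (R z * R' z) := by
    intro R R' hR hR'
    exact int_of (hζ.mul (hR.mul hR')).cont hc.mul_right
  have G1 : Integrable fun z =>
      ζ1 z * (d 1 (d 1 Φ) z * SS 0 w z - d 0 (d 1 Φ) z * S01 w z) := by
    refine ((g _ _ ((hΦ.d 1).d 1) (sm_SS hws 0)).sub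
      (g _ _ ((hΦ.d 1).d 0) (sm_S01 hws))).congr (Eventually.of_forall fun z => ?_)
    simp only [Pi.sub_apply]
    ring
  have G2 : Integrable fun z =>
      ζ1 z * (d 0 (d 0 Φ) z * SS 1 w z - d 1 (d 0 Φ) z * S01 w z) := by
    refine ((g _ _ ((hΦ.d 0).d 0) (sm_SS hws 1)).sub
      (g _ _ ((hΦ.d 0).d 1) (sm_S01 hws))).congr (Eventually.of_forall fun z => ?_)
    simp only [Pi.sub_apply]
    ring
  have E : ∫ z, ζ1 z * (d 1 (d 1 Φ) z * SS 0 w z - 2 * d 0 (d 1 Φ) z * S01 w z +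
      d 0 (d 0 Φ) z * SS 1 w z) =
      (∫ z, ζ1 z * (d 1 (d 1 Φ) z * SS 0 w z - d 0 (d 1 Φ) z * S01 w z)) +
      ∫ z, ζ1 z * (d 0 (d 0 Φ) z * SS 1 w z - d 1 (d 0 Φ) z * S01 w z) := by
    rw [← integral_add G1 G2]
    refine integral_congr_ae (Eventually.of_forall fun z => ?_)
    simp only
    rw [d_comm hΦ 1 0]
    ring
  rw [E, A1, A2]
  have hfin : 20 * K * ∫ z, χb z * T z ≤ 20 * K * (5 * C) :=
    mul_le_mul_of_nonneg_left hTint (by positivity)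
  linarith

end Pool.Agent.GNS
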