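import Pool.Agent.GNS.Lib

/-!
# GNS: targets 2, the inductive construction

The state `Stt`, the step `stp` and the invariants are in `Pool.Agent.GNS.Defs`. In the
docstrings `θ₁ = c0 θ h`, `θ₂ = c1 θ h'`, `σ₁ = c0 σ h` etc., `A⁺ = A + 8^j/√N β² wv`, and a prime
denotes the functions of `stp ..`.
-/

set_option autoImplicit false

open Metric Set Filter Topology MeasureTheory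

noncomputable section

namespace Pool.Agent.GNS

/-- CTS. Smooth cut-off functions (`ContDiffBump` on `V`). -/
def T_CTS : Prop := ∃ ζ0 ζ1 : V → ℝ, Cuts ζ0 ζ1

/-- PRF. Profiles exist. Let `0 < δ` be small (`8 δ ≤ 1/N`, `δ < 1/16`) and `θ` a smooth
`1`-periodic function with values in `[0,1]`, `θ = 1` on `[δ, 1/4 - δ]` and `θ = 0` on
`[1/4, 1]` (modulo `1`): for instance `θ t = ∑_n g (t - n)`, or `θ t = g (fract t)` with a smooth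
bump `g` supported in `[0, 1/4]` (products of `Real.smoothTransition`). Put
`ϵ = 1 - 4 ∫_0^1 θ`, `m2 = ∫_0^1 θ²`, `c3 = ∫_0^1 θ³`; all of `∫ θ, ∫ θ², ∫ θ³` are in
`[1/4 - 2 δ, 1/4]`. For a smooth `1`-periodic `f` with mean `0`, `∫_0^t f` is smooth and
periodic, so bounded, and after subtraction of its mean a second primitive is again periodic
and bounded. Apply this to `4 θ + ϵ - 1`, `θ²/m2 - 1` (twice) and `θ³ - c3` (once). -/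
def T_PRF : Prop := ∀ N : ℕ, 3 ≤ N → ∃ (θ σ σ2 q3 : ℝ → ℝ) (ϵ m2 c3 C : ℝ),
  Prof N θ σ σ2 q3 ϵ m2 c3 C

/-! ### Elementary limits -/

/-- SM0. Let `G z = A z (h² σ(x₁/h))`. Derivatives: `d i G = A_i h² σ + [i = 0] A h σ'`,
`d i (d k G) = A_ik h² σ + [k = 0] A_i h σ' + [i = 0] A_k h σ' + [i = k = 0] A σ''`
(arguments `x₁/h`). `A`, `A_i`, `A_ik` are bounded on `‖z‖ ≤ 4`, `|σ|, |σ'| ≤ C`. -/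
def T_SM0 : Prop := ∀ (A : V → ℝ) (σ : ℝ → ℝ) (C ε : ℝ), Sm A →
  ContDiff ℝ ((⊤ : ℕ∞) : WithTop ℕ∞) σ → (∀ t, |σ t| ≤ C ∧ |deriv σ t| ≤ C) → 0 < ε →
  ∀ᶠ h in 𝓝[>] (0 : ℝ), ∀ z : V, ‖z‖ ≤ 4 →
    |A z * (h ^ 2 * c0 σ h z)| ≤ ε ∧
    (∀ i, |d i (fun z => A z * (h ^ 2 * c0 σ h z)) z| ≤ ε) ∧
    |d 0 (d 0 fun z => A z * (h ^ 2 * c0 σ h z)) z - A z * c0 (deriv (deriv σ)) h z| ≤ ε ∧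
    ∀ i k, ¬ (i = 0 ∧ k = 0) → |d i (d k fun z => A z * (h ^ 2 * c0 σ h z)) z| ≤ ε

/-- SM1. The same for `x₂`, direction `1`. -/
def T_SM1 : Prop := ∀ (A : V → ℝ) (σ : ℝ → ℝ) (C ε : ℝ), Sm A →
  ContDiff ℝ ((⊤ : ℕ∞) : WithTop ℕ∞) σ → (∀ t, |σ t| ≤ C ∧ |deriv σ t| ≤ C) → 0 < ε →
  ∀ᶠ h in 𝓝[>] (0 : ℝ), ∀ z : V, ‖z‖ ≤ 4 →
    |A z * (h ^ 2 * c1 σ h z)| ≤ ε ∧
    (∀ i, |d i (fun z => A z * (h ^ 2 * c1 σ h z)) z| ≤ ε) ∧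
    |d 1 (d 1 fun z => A z * (h ^ 2 * c1 σ h z)) z - A z * c1 (deriv (deriv σ)) h z| ≤ ε ∧
    ∀ i k, ¬ (i = 1 ∧ k = 1) → |d i (d k fun z => A z * (h ^ 2 * c1 σ h z)) z| ≤ ε

/-- SMW. The wave. With `s = (2^j x₁ + y₁)/ν`, `wv = cos s`: `d 0 wv = -(2^j/ν) sin s`,
`d 2 wv = -(1/ν) sin s`, `d 1 wv = d 3 wv = 0`, `d 0 (d 0 wv) = -(4^j/ν²) cos s`,
`d 0 (d 2 wv) = -(2^j/ν²) cos s`, `d 2 (d 2 wv) = -(1/ν²) cos s`. The other terms of the product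
rule for `A ν² wv` are `O(ν)`. -/
def T_SMW : Prop := ∀ (A : V → ℝ) (j : ℕ) (ε : ℝ), Sm A → 0 < ε →
  ∀ᶠ ν in 𝓝[>] (0 : ℝ), ∀ z : V, ‖z‖ ≤ 4 →
    |A z * (ν ^ 2 * wv j ν z)| ≤ ε ∧
    (∀ i, |d i (fun z => A z * (ν ^ 2 * wv j ν z)) z| ≤ ε) ∧
    |d 0 (d 0 fun z => A z * (ν ^ 2 * wv j ν z)) z + 4 ^ j * A z * wv j ν z| ≤ ε ∧
    |d 0 (d 2 fun z => A z * (ν ^ 2 * wv j ν z)) z + 2 ^ j * A z * wv j ν z| ≤ ε ∧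
    |d 2 (d 2 fun z => A z * (ν ^ 2 * wv j ν z)) z + A z * wv j ν z| ≤ ε ∧
    ∀ i k, (i = 1 ∨ i = 3) → |d i (d k fun z => A z * (ν ^ 2 * wv j ν z)) z| ≤ ε

/-- OSC. `wv = ν d 2 (sin s)`, so `∫ f wv = -ν ∫ (d 2 f) sin s → 0`; `wv² = (1 + cos 2s)/2` and
`cos 2s = (ν/2) d 2 (sin 2s)`. -/
def T_OSC : Prop := ∀ (f : V → ℝ) (j : ℕ) (ε : ℝ), Sm f → HasCompactSupport f → 0 < ε →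
  ∀ᶠ ν in 𝓝[>] (0 : ℝ), |∫ z, f z * wv j ν z| ≤ ε ∧
    |(∫ z, f z * wv j ν z ^ 2) - (∫ z, f z) / 2| ≤ ε

/-- EQD. `θ³ - c3 = q3'`, so `∫ f (θ(x₁/h)³ - c3) = ∫ f h d 0 (q3(x₁/h)) = -h ∫ (d 0 f) q3(x₁/h)`,
and the same for `x₂`. -/
def T_EQD : Prop := ∀ (N : ℕ) (θ σ σ2 q3 : ℝ → ℝ) (ϵ m2 c3 C : ℝ),
  Prof N θ σ σ2 q3 ϵ m2 c3 C → ∀ (f : V → ℝ) (ε : ℝ), Sm f → HasCompactSupport f → 0 < ε →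
  (∀ᶠ h in 𝓝[>] (0 : ℝ), |(∫ z, f z * c0 θ h z ^ 3) - c3 * ∫ z, f z| ≤ ε) ∧
  ∀ᶠ h in 𝓝[>] (0 : ℝ), |(∫ z, f z * c1 θ h z ^ 3) - c3 * ∫ z, f z| ≤ ε

/-! ### The step -/

/-- STA. Smoothness and ranges are preserved for all positive parameters (`c0 f h`, `c1 f h`, `wv`
are smooth for `h, ν > 0`; `0 ≤ θ ≤ 1` gives `0 ≤ g0`, `0 ≤ g1`; `|b'| ≤ 4^j + 4^j ≤ 4^(j+1)`).
`Xo`: `c0`, `c1` depend only on `x`. -/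
def T_STA : Prop := ∀ (N : ℕ) (θ σ σ2 q3 : ℝ → ℝ) (ϵ m2 c3 C : ℝ) (ζ0 ζ1 : V → ℝ),
  Prof N θ σ σ2 q3 ϵ m2 c3 C → Cuts ζ0 ζ1 → 3 ≤ N → ∀ (j : ℕ) (s : Stt), InvA j s →
  ∀ ν h h' : ℝ, 0 < ν → 0 < h → 0 < h' → InvA (j + 1) (stp N θ σ σ2 m2 ζ0 j ν h h' s)

/-- STB. All inequalities are pointwise; `1/m2 ≤ 6` (`4 m2 ≥ 2/3`), `0 ≤ β, θ₁, θ₂ ≤ 1`,
`|wv| ≤ 1`.
`M2`: `|M2'| ≤ (U + 4^j β²)/√N`. `M3`: `2^j + 2^j ≤ 2^(j+1)`. `M3'`: `M3'^2 ≤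
M3² + 2 |M3| 2^j β²/√N + 4^j β⁴/N ≤ 3 U/N + 3 · 4^j β²/N`, using `|M3| ≤ 2^j/√N`.
`A`: `|A⁺| ≤ 4 · 8^j β²/√N`, `|A'| ≤ 24 · 8^j β² θ₁² θ₂²/√N = 3 · 8^(j+1) β'²/√N`.
`M1`: `|A⁺| (θ₁²/m2)(1 - θ₂²) ≤ 24 · 8^j β² θ₁² (1 - θ₂²)/√N ≤ 48 · 8^j β² θ₁ (1 - θ₂)/√N`, and
`12 (F1' - F1) √U' ≥ 12 · 4 · 4^j β θ₁ (1 - θ₂) · 2^j √β` with `√β ≥ β`; `U' ≥ U`,
`U' ≥ 4^j β`.
`U`: `U' ≤ 2 (F1 + F2) + (3/2) 4^j β`, and `2 (F1' + F2') + 4^(j+1) β'/2 - 2 (F1 + F2) =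
4^j β (8 θ₁ (1 - θ₂) + 2 (1 - θ₁) + 2 θ₁ θ₂) = 4^j β (2 + 6 θ₁ (1 - θ₂)) ≥ 2 · 4^j β`. -/
def T_STB : Prop := ∀ (N : ℕ) (θ σ σ2 q3 : ℝ → ℝ) (ϵ m2 c3 C : ℝ) (ζ0 : V → ℝ),
  Prof N θ σ σ2 q3 ϵ m2 c3 C → 3 ≤ N → ∀ (j : ℕ) (s : Stt), InvA j s → InvB N j s →
  ∀ ν h h' : ℝ, InvB N (j + 1) (stp N θ σ σ2 m2 ζ0 j ν h h' s)

/-- STC (from SM0, SM1). `Φ' = Φ + G0 + G1`, `G0 = (4^j β)(h² σ₁)`, `G1 = (4^j β θ₁)(h'² σ₂)`. By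
SM0, SM1 (for `G1` with the function `A = 4^j β θ₁`, `h` fixed) eventually `|G_i|`, `|d k G_i|` and
all second derivatives are within `κ/8` of `0`, except
`d 0 (d 0 G0) ≈ 4^j β (4 θ₁ + ϵ - 1)`, `d 1 (d 1 G1) ≈ 4^j β θ₁ (4 θ₂ + ϵ - 1)`. So the form of
`Φ'` is at least the form of `Φ` plus `4^j β (4 θ₁ - 1) a² + 4^j β θ₁ (4 θ₂ - 1) b² - κ (a² + b²)`,
and `F1 + 4^j β + 4^j β (4 θ₁ - 1) = F1' + 4^(j+1) β'`,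
`F2 + 4^j β + 4^j β θ₁ (4 θ₂ - 1) = F2' + 4^(j+1) β'`. `Ξ' = Ξ + (Φ - q1)/N`: the form of `Φ - q1`
is at least `(4^j β - j κ - 1)(a² + b²)` (`F1, F2 ≥ 0`); `q1_00 = q1_11 = 1`, `q1_01 = 0`. -/
def T_STC : Prop := ∀ (N : ℕ) (θ σ σ2 q3 : ℝ → ℝ) (ϵ m2 c3 C : ℝ) (ζ0 : V → ℝ),
  Prof N θ σ σ2 q3 ϵ m2 c3 C → 3 ≤ N → ∀ (j : ℕ) (κ : ℝ) (s : Stt), 0 < κ → InvA j s →
  InvC N j κ s → Ev3 fun ν h h' => InvC N (j + 1) κ (stp N θ σ σ2 m2 ζ0 j ν h h' s)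

/-- STE (from SMW, SM0). `E' = E - G + G0`, `G = (2^j/√N β²)(ν² wv)`, `G0 = A⁺ (h² c0 σ2 h)`. By
SMW, `-G` contributes `8^j/√N β² wv`, `4^j/√N β² wv`, `2^j/√N β² wv` to `E_00`, `E_02`, `E_22`, the
rest is small; `G0` contributes `A⁺ (θ₁²/m2 - 1)` to `E_00` (SM0 with `A⁺`, `ν` fixed), the rest
is small. And `M1 + A⁺ + A⁺ (θ₁²/m2 - 1) = M1' + A'`. -/
def T_STE : Prop := ∀ (N : ℕ) (θ σ σ2 q3 : ℝ → ℝ) (ϵ m2 c3 C : ℝ) (ζ0 : V → ℝ),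
  Prof N θ σ σ2 q3 ϵ m2 c3 C → 3 ≤ N → ∀ (j : ℕ) (κ : ℝ) (s : Stt), 0 < κ → InvA j s →
  InvE j κ s → Ev3 fun ν h h' => InvE (j + 1) κ (stp N θ σ σ2 m2 ζ0 j ν h h' s)

/-- STD (hypothesis LI of file T1, given here as the hypothesis `hLI`). For fixed `ν > 0` apply
it with `b = 4^j β ζ0 wv`, its `β` equal to `4^j β`, `ε = κ`; `F2' - F2 = 4^j β g0`,
`F1' - F1 = 4^j β g1`; all integrands are continuous with compact support. -/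
def T_STD : Prop := ∀ (N : ℕ) (θ σ σ2 q3 : ℝ → ℝ) (ϵ m2 c3 C : ℝ) (ζ0 ζ1 : V → ℝ),
  Prof N θ σ σ2 q3 ϵ m2 c3 C → 3 ≤ N → Cuts ζ0 ζ1 →
  (∀ b β : V → ℝ, Sm b → Continuous β → Xo β → (∀ z, |b z| ≤ β z) →
    (∀ z, 1 ≤ ‖z‖ → b z = 0) → ∀ ε : ℝ, 0 < ε → ∃ h0 : ℝ, 0 < h0 ∧
    ∀ h h' : ℝ, 0 < h → h ≤ h0 → 0 < h' → h' ≤ h0 → ∀ w, Wc w →
    |∫ z, b z * T12 w z| ≤
      16 * (∫ z, ζ1 z * β z * (g0 θ h z * SS 0 w z + g1 θ h h' z * SS 1 w z)) + ε) →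
  ∀ (j : ℕ) (κ : ℝ) (s : Stt), 0 < κ → InvA j s → InvD j κ ζ1 s →
  Ev3 fun ν h h' => InvD (j + 1) κ ζ1 (stp N θ σ σ2 m2 ζ0 j ν h h' s)

/-- STP (from OSC, EQD). Mass: `β'³ = β³ θ₁³ θ₂³`; `∫ β³ ζ0 θ₁³ θ₂³ → c3 ∫ β³ ζ0 θ₁³` (`h' → 0`)
`→ c3² ∫ β³ ζ0` (`h → 0`), `16 c3² ≥ (1 - 1/N)²`, `∫ β³ ζ0 ≥ 0`. Payoff:
`b' M2' = b M2 + b 4^j β² wv/√N + 4^j β ζ0 M2 wv + 16^j β³ ζ0 wv²/√N`; by OSC the integral tends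
to `∫ b M2 + 16^j ∫ β³ ζ0 / (2 √N)` as `ν → 0`, and `16^j ∫ β³ ζ0 ≥ (1 - 1/N)^(2 j) I - j κ
≥ (1 - 1/N)^(2 N) I - N κ` for `j < N` (`I = ∫ ζ0`). -/
def T_STP : Prop := ∀ (N : ℕ) (θ σ σ2 q3 : ℝ → ℝ) (ϵ m2 c3 C : ℝ) (ζ0 ζ1 : V → ℝ),
  Prof N θ σ σ2 q3 ϵ m2 c3 C → 3 ≤ N → Cuts ζ0 ζ1 →
  ∀ (j : ℕ) (κ : ℝ) (s : Stt), j < N → 0 < κ → InvA j s → InvP N j κ ζ0 s →
  Ev3 fun ν h h' => InvP N (j + 1) κ ζ0 (stp N θ σ σ2 m2 ζ0 j ν h h' s)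

/-- BAS. The initial state satisfies everything (`q1_00 = q1_11 = 1`, `q1_01 = 0`,
`T12`-integral `0`, `∫ 1 · ζ0`). -/
def T_BAS : Prop := ∀ (N : ℕ) (κ : ℝ) (ζ0 ζ1 : V → ℝ), Cuts ζ0 ζ1 → 3 ≤ N → 0 < κ →
  InvA 0 s0 ∧ InvB N 0 s0 ∧ InvC N 0 κ s0 ∧ InvE 0 κ s0 ∧ InvD 0 κ ζ1 s0 ∧ InvP N 0 κ ζ0 s0

/-- IND (from PRF, STA, STB, STC, STE, STD, STP, BAS, and LI as hypothesis). Induction on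
`j ≤ N`: the conjunction of the `Ev3` statements (closed under conjunction; `ν, h, h' > 0`
eventually) gives parameters for the next state. -/
def T_IND : Prop := ∀ (N : ℕ) (θ σ σ2 q3 : ℝ → ℝ) (ϵ m2 c3 C : ℝ) (ζ0 ζ1 : V → ℝ),
  Prof N θ σ σ2 q3 ϵ m2 c3 C → 3 ≤ N → Cuts ζ0 ζ1 →
  (∀ b β : V → ℝ, Sm b → Continuous β → Xo β → (∀ z, |b z| ≤ β z) →
    (∀ z, 1 ≤ ‖z‖ → b z = 0) → ∀ ε : ℝ, 0 < ε → ∃ h0 : ℝ, 0 < h0 ∧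
    ∀ h h' : ℝ, 0 < h → h ≤ h0 → 0 < h' → h' ≤ h0 → ∀ w, Wc w →
    |∫ z, b z * T12 w z| ≤
      16 * (∫ z, ζ1 z * β z * (g0 θ h z * SS 0 w z + g1 θ h h' z * SS 1 w z)) + ε) →
  ∀ κ : ℝ, 0 < κ → ∃ s : Stt, InvA N s ∧ InvB N N s ∧ InvC N N κ s ∧ InvE N κ s ∧
    InvD N κ ζ1 s ∧ InvP N N κ ζ0 s

/-- PKD. Pointwise algebra: from a final state to the data of `Dom`. Put
`G = (Φ - q1) + Ξ`, `d1 = F1 + 4^N β + U/N + 1`, `d2 = F2 + 4^N β + U/N + 1`, `M1' = M1 + A`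
(`κ = 1/N`-small: `N κ ≤ 1/4`). Form of `G`: at least `(F1 + 4^N β - N κ - 1) a² +
(F2 + ..) b² + (U/N - (1 + N κ))(a² + b²)`, so `C = 15` is enough. `|G|, |d i G| ≤ N κ + N κ ≤ 1`.
`M3² ≤ 3 U/N ≤ 3 d2`. `M2² ≤ U²/N` and `d1 d2 ≥ (U/N)(F1 + F2 + 2 · 4^N β) ≥ (U/N)(U/2)` by `bU`,
so `M2² ≤ 2 d1 d2`. `|M1| ≤ 12 F1 √(U/N) ≤ 12 d1 √d2`; `|A| ≤ 3 · 8^N β² /√N
≤ 3 (4^N β)(2^N √β) ≤ 3 d1 √d2` (`β ≤ √β ≤ 1`). -/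
def T_PKD : Prop := ∀ (N : ℕ) (κ : ℝ) (s : Stt), 3 ≤ N → 0 < κ → N * κ ≤ 1 / 4 → InvA N s →
  InvB N N s → InvC N N κ s → InvE N κ s →
  Dom 15 (fun z => s.Φ z - q1 z + s.Ξ z) (fun z => s.F1 z + 4 ^ N * s.β z + s.U z / N + 1)
    (fun z => s.F2 z + 4 ^ N * s.β z + s.U z / N + 1) s.E (fun z => s.M1 z + s.A z) s.M2 s.M3

/-- PKA (hypotheses: LI and DBF of T1, IND, CTS, PRF, PKD). The package: constants `C₀`, `c₀ > 0`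
and for every `N ≥ 3` the functions. `κ = κ_N` small: `N κ ≤ 1/4` and `N κ 4^N · 256 ≤ c`,
`N κ ≤ c`. Bound: InvD, DBF with `κ' = N κ ≤ 1` (`|d i Φ| ≤ |d i q1| + 1 ≤ 5` on `‖z‖ ≤ 4`; drop
`4^N β ≥ 0`). Payoff: `∫ b E_02 ≥ ∫ b M2 - N κ ∫ |b|`, `|b| ≤ 4^N` on `‖z‖ < 1` (volume 16), and
InvP with `(1 - 1/N)^(2N) ≥ (2/3)^6`: Bernoulli or monotonicity; any positive constant will do,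
e.g. `(1 - 1/N)^(N) ≥ 1/4` for `N ≥ 2`; `∫ ζ0 > 0`. -/
def T_PKA : Prop := ∀ ζ0 ζ1 : V → ℝ, Cuts ζ0 ζ1 → ∃ C₀ c₀ : ℝ, 0 < c₀ ∧ ∀ N : ℕ, 3 ≤ N →
  ∃ b G d1 d2 Eo M1 M2 M3 : V → ℝ, Sm b ∧ (∀ z, 1 ≤ ‖z‖ → b z = 0) ∧
    Dom 15 G d1 d2 Eo M1 M2 M3 ∧ (∀ w, Wc w → |∫ z, b z * T12 w z| ≤ C₀) ∧
    c₀ * Real.sqrt N ≤ ∫ z, b z * d 0 (d 2 Eo) z

end Pool.Agent.GNS
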