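import Pool.Agent.GNS.Gl

/-!
# GNS: targets 3, the structure of area measures of degree 2 and the domination theorem

The objects `E n`, `S n`, `supp`, `pt`, `IsArea`, `D2`, `eb` are those of the project GLB. Facts on
support functions, the Hausdorff distance and `D2` are in `Pool.Agent.GNS.Gl`: `gSUA` (values of
`supp`), `gSUH` (sublinear, Lipschitz), `gSUL`, `gSUE` (every sublinear function is a support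
function), `gSUD` (Hausdorff distance), `gCTA` and `add_tendsto` (continuity of the operations),
`gBLA` (Blaschke), `gPRD` (product rule for `D2`). `Ψ` always denotes an element of
`Area_2(ℝ^(m+1))`. In the docstrings `⟨a, b⟩` is the inner product and `Ψ(K)φ` stands for
`Ψ K (HC φ)`.
-/

set_option autoImplicit false

open Metric Set Filter Topology MeasureTheory

noncomputable section

namespace Pool.Agent.GNS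

open Pool.Agent.GLB

/-! ### The chart -/

/-- CHT. Elementary facts on the chart. (`gSUA`, `gSUH`; coordinates: `up x` has the coordinates
`x i` and `1`, `kv κ c` the coordinates `κ i` and `-c`, so `⟨kv κ c, up x⟩ = ⟨κ, x⟩ - c`;
`supp (seg a)` is the maximum of the linear function `⟨·, u⟩` over the segment; `supp` is
homogeneous.) -/
def T_CHT : Prop := ∀ m : ℕ,
  (∀ (K L : ConvexBody (E (m + 1))) (x : E m), ch (K + L) x = ch K x + ch L x) ∧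
  (∀ (K : ConvexBody (E (m + 1))) (t : ℝ) (x : E m), 0 ≤ t → ch (t • K) x = t * ch K x) ∧
  (∀ (a : E (m + 1)) (x : E m), ch (pt a) x = inner ℝ a (up x)) ∧
  (∀ (κ x : E m) (c : ℝ), inner ℝ (kv κ c) (up x) = inner ℝ κ x - c) ∧
  (∀ (n : ℕ) (a u : E n), supp (seg a) u = max 0 (inner ℝ a u)) ∧
  (∀ (κ x : E m) (c : ℝ), ch (seg (kv κ c)) x = max 0 (inner ℝ κ x - c)) ∧
  (∀ v : E (m + 1), 0 < hgt v → hgt v • up (dn v) = v) ∧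
  (∀ (K : ConvexBody (E (m + 1))) (v : E (m + 1)), 0 < hgt v → supp K v = hgt v * ch K (dn v)) ∧
  (∀ κ : E m, Continuous fun c : ℝ => kv κ c) ∧
  (∀ (κ : E m) (c c' : ℝ), ‖kv κ c - kv κ c'‖ = |c - c'|) ∧
  (∀ v : E (m + 1), ‖v‖ ^ 2 = (∑ i : Fin m, v i.castSucc ^ 2) + hgt v ^ 2) ∧
  ∀ x : E m, ‖up x‖ = rt x ∧ hgt (up x) = 1 ∧ dn (up x) = x

/-- HAT (from CHT). `hatf φ` is continuous if `φ` is continuous and vanishes for `‖x‖ ≥ R`: near a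
point with positive height it is `φ ∘ dn`; near a point `v₀` with `hgt v₀ ≤ 0` it is zero, because
`0 < hgt v < δ` and `|v| = 1` imply `‖dn v‖ = √(1 - hgt²)/hgt ≥ R`. The rest is pointwise. -/
def T_HAT : Prop := ∀ (m : ℕ) (R : ℝ) (φ ψ : E m → ℂ), Tf R φ → Tf R ψ →
  Continuous (hatf φ) ∧ (∀ v, HC φ v = hatf φ v) ∧
  HC (fun x => φ x + ψ x) = HC φ + HC ψ ∧
  (∀ c : ℂ, HC (fun x => c * φ x) = c • HC φ) ∧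
  ∀ M : ℝ, 0 ≤ M → (∀ x, ‖φ x‖ ≤ M) → ‖HC φ‖ ≤ M

/-- LOC (from CHT, HAT). `K` and `L + pt a` have the same support function on the open set of the
`v ∈ S` with `0 < hgt v`, `dn v ∈ U`, and `HC φ` vanishes outside this set. Use `loc` and
`trans`. -/
def T_LOC : Prop := ∀ (m k : ℕ) (Ψ : ConvexBody (E (m + 1)) → (C(S (m + 1), ℂ) →L[ℂ] ℂ)),
  IsArea (m + 1) k Ψ → ∀ (K L : ConvexBody (E (m + 1))) (a : E (m + 1)) (U : Set (E m)),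
  IsOpen U → (∀ x ∈ U, ch K x = ch L x + inner ℝ a (up x)) → ∀ (R : ℝ) (φ : E m → ℂ), Tf R φ →
  (∀ x, x ∉ U → φ x = 0) → Ψ K (HC φ) = Ψ L (HC φ)

/-- PBE. Uniform bound: the bodies in the unit ball form a compact set (`gBLA`), `K ↦ Ψ K φ` is
continuous, so for each `φ` the values are bounded; Banach-Steinhaus (`banach_steinhaus`) for the
family `(Ψ K)`. -/
def T_PBE : Prop := ∀ (m k : ℕ) (Ψ : ConvexBody (E (m + 1)) → (C(S (m + 1), ℂ) →L[ℂ] ℂ)),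
  IsArea (m + 1) k Ψ → ∃ C : ℝ, 0 ≤ C ∧ PB Ψ C

/-- PBR. Bodies in the ball of radius `R`, by homogeneity (degree 2): `K = R • (R⁻¹ • K)`. -/
def T_PBR : Prop := ∀ (m : ℕ) (Ψ : ConvexBody (E (m + 1)) → (C(S (m + 1), ℂ) →L[ℂ] ℂ)),
  IsArea (m + 1) 2 Ψ → ∀ C : ℝ, PB Ψ C → ∀ R : ℝ, 0 < R → ∀ K : ConvexBody (E (m + 1)),
  (K : Set (E (m + 1))) ⊆ closedBall 0 R → ∀ φ : C(S (m + 1), ℂ), ‖Ψ K φ‖ ≤ R ^ 2 * C * ‖φ‖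

/-! ### Segments -/

/-- KNK (from CHT, HAT, LOC). Let `I_c = seg (kv κ c)`. For `ε > 0` write `φ = φ₋ + φ₊`,
`φ₋ x = φ x λ(⟨κ, x⟩ - c)`, `λ` continuous, `λ s = 1` for `s ≤ ε/3`, `λ s = 0` for `s ≥ 2 ε/3`. On
`⟨κ, x⟩ < c + ε`: `ch (K + t₁ I_c + t₂ I_(c+ε)) = ch (K + t₁ I_c)` and
`ch (K + t₂ I_(c+ε)) = ch K`; on `⟨κ, x⟩ > c`: `ch (K + t₁ I_c + t₂ I_(c+ε)) =
ch (K + t₂ I_(c+ε)) + ⟨t₁ (kv κ c), up x⟩` and `ch (K + t₁ I_c) = ch K + ⟨t₁ (kv κ c), up x⟩`.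
By LOC (with `φ₋`, `φ₊`)
`Ψ(K + t₁ I_c + t₂ I_(c+ε))φ = Ψ(K + t₁ I_c)φ + Ψ(K + t₂ I_(c+ε))φ - Ψ(K)φ`. Let `ε → 0`
(continuity, `add_tendsto`; `seg (kv κ c)` depends continuously on `c`, `gSUD`). -/
def T_KNK : Prop := ∀ (m k : ℕ) (Ψ : ConvexBody (E (m + 1)) → (C(S (m + 1), ℂ) →L[ℂ] ℂ)),
  IsArea (m + 1) k Ψ → ∀ (K : ConvexBody (E (m + 1))) (κ : E m) (c t t' : ℝ), 0 ≤ t → 0 ≤ t' →
  ∀ (R : ℝ) (φ : E m → ℂ), Tf R φ →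
  Ψ (K + t • seg (kv κ c) + t' • seg (kv κ c)) (HC φ) + Ψ K (HC φ) =
    Ψ (K + t • seg (kv κ c)) (HC φ) + Ψ (K + t' • seg (kv κ c)) (HC φ)

/-- AFF (from KNK). `D t = Ψ(K + t I)φ - Ψ(K)φ` is additive on `t ≥ 0`
(`(t + t') • I = t • I + t' • I`) and continuous, hence `D t = t D 1`. -/
def T_AFF : Prop := ∀ (m k : ℕ) (Ψ : ConvexBody (E (m + 1)) → (C(S (m + 1), ℂ) →L[ℂ] ℂ)),
  IsArea (m + 1) k Ψ → ∀ (K : ConvexBody (E (m + 1))) (κ : E m) (c t : ℝ), 0 ≤ t →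
  ∀ (R : ℝ) (φ : E m → ℂ), Tf R φ →
  Ψ (K + t • seg (kv κ c)) (HC φ) =
    Ψ K (HC φ) + (t : ℂ) * (Ψ (K + seg (kv κ c)) (HC φ) - Ψ K (HC φ))

/-- TRI (from AFF). Degree 2. `Ψ(0) = 0` (`t = 0` in `homog`). `Ψ(t I) = t² Ψ(I)` and `= t Ψ(I)`
(AFF, `K = 0`), so `Ψ(I) = 0`. Let `Δ(K, t, t') = Ψ(K + t I + t' J) - Ψ(K + t I) - Ψ(K + t' J)
+ Ψ(K)`; by AFF `Δ(K, t, t') = t t' Δ(K, 1, 1)`; by homogeneity
`Δ(s K, s t, s t') = s² Δ(K, t, t')`, so `Δ(s K, 1, 1) = Δ(K, 1, 1)` for `s > 0`; let `s → 0`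
(`gCTA`): `Δ(K, 1, 1) = Δ(0, 1, 1) = Ψ(I + J)`. -/
def T_TRI : Prop := ∀ (m : ℕ) (Ψ : ConvexBody (E (m + 1)) → (C(S (m + 1), ℂ) →L[ℂ] ℂ)),
  IsArea (m + 1) 2 Ψ → ∀ (κ κ' : E m) (c c' t t' : ℝ), 0 ≤ t → 0 ≤ t' → ∀ (R : ℝ) (φ : E m → ℂ),
  Tf R φ → Ψ 0 (HC φ) = 0 ∧ Ψ (t • seg (kv κ c)) (HC φ) = 0 ∧
  ∀ K : ConvexBody (E (m + 1)), Ψ (K + t • seg (kv κ c) + t' • seg (kv κ' c')) (HC φ) -
    Ψ (K + t • seg (kv κ c)) (HC φ) - Ψ (K + t' • seg (kv κ' c')) (HC φ) + Ψ K (HC φ) =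
    Ψ (t • seg (kv κ c) + t' • seg (kv κ' c')) (HC φ)

/-- ZTP (from TRI). Let `I` be a scaled segment and `Z` a zonotope. `c_K(I) = Ψ(K + I) - Ψ(K)`
satisfies `c_(K+J)(I) = c_K(I) + Ψ(I + J)` for scaled segments `J`, hence
`c_(K+Z)(I) - c_Z(I) = c_K(I) - c_0(I) = c_K(I)` (induction on `Z`), i.e.
`FF K (Z + I) = FF K Z + FF K I`. Induction on the second zonotope. `Zt` is closed under addition
and multiplication by `t ≥ 0` (induction; `t • (Z + s • I) = t • Z + (t s) • I`), and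
`FF K (t Z) = t FF K Z` (induction, AFF). -/
def T_ZTP : Prop := ∀ (m : ℕ) (Ψ : ConvexBody (E (m + 1)) → (C(S (m + 1), ℂ) →L[ℂ] ℂ)),
  IsArea (m + 1) 2 Ψ → ∀ (R : ℝ) (φ : E m → ℂ), Tf R φ → ∀ Z Z' : ConvexBody (E (m + 1)),
  Zt Z → Zt Z' → Zt (Z + Z') ∧ (∀ t : ℝ, 0 ≤ t → Zt (t • Z)) ∧
  ∀ K : ConvexBody (E (m + 1)), FF Ψ (HC φ) K (Z + Z') = FF Ψ (HC φ) K Z + FF Ψ (HC φ) K Z' ∧
    ∀ t : ℝ, 0 ≤ t → FF Ψ (HC φ) K (t • Z) = (t : ℂ) * FF Ψ (HC φ) K Z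

/-- ZND (from ZTP). The same for limits (`Ψ`, addition and multiplication are continuous). -/
def T_ZND : Prop := ∀ (m : ℕ) (Ψ : ConvexBody (E (m + 1)) → (C(S (m + 1), ℂ) →L[ℂ] ℂ)),
  IsArea (m + 1) 2 Ψ → ∀ (R : ℝ) (φ : E m → ℂ), Tf R φ → ∀ Z Z' : ConvexBody (E (m + 1)),
  Zn Z → Zn Z' → Zn (Z + Z') ∧ (∀ t : ℝ, 0 ≤ t → Zn (t • Z)) ∧
  (∀ (κ : E m) (c : ℝ), Zn (seg (kv κ c))) ∧ FF Ψ (HC φ) Z Z' = FF Ψ (HC φ) Z' Z ∧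
  ∀ K : ConvexBody (E (m + 1)), FF Ψ (HC φ) K (Z + Z') = FF Ψ (HC φ) K Z + FF Ψ (HC φ) K Z' ∧
    ∀ t : ℝ, 0 ≤ t → FF Ψ (HC φ) K (t • Z) = (t : ℂ) * FF Ψ (HC φ) K Z

/-- SGN (from ZND, LOC). Signed combinations, the bilinear form. Let `Z₊ = ∑ λ_i⁺ Z_i`,
`Z₋ = ∑ λ_i⁻ Z_i` (finite sums of bodies). `Z + Z₋` and `Z₊` agree on `U` up to a linear function,
so by LOC `FF (Z + Z₋) Y = FF Z₊ Y` (all three terms of `FF`), and both sides are additive. -/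
def T_SGN : Prop := ∀ (m : ℕ) (Ψ : ConvexBody (E (m + 1)) → (C(S (m + 1), ℂ) →L[ℂ] ℂ)),
  IsArea (m + 1) 2 Ψ → ∀ (R : ℝ) (φ : E m → ℂ), Tf R φ → ∀ (ι : Type) [Fintype ι]
  (Zf : ι → ConvexBody (E (m + 1))) (lam : ι → ℝ) (Z Y : ConvexBody (E (m + 1)))
  (a : E (m + 1)) (U : Set (E m)), IsOpen U → (∀ x, x ∉ U → φ x = 0) → (∀ i, Zn (Zf i)) →
  Zn Z → Zn Y → (∀ x ∈ U, ch Z x = (∑ i, lam i * ch (Zf i) x) + inner ℝ a (up x)) →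
  FF Ψ (HC φ) Z Y = ∑ i, (lam i : ℂ) * FF Ψ (HC φ) (Zf i) Y

/-- SGQ (from ZND, LOC). Signed combinations, the quadratic form; `K` is any body. With `Z₊, Z₋`
as in SGN, `K + Z₋` and `Z₊` agree on `U` up to a linear function. Hence for zonoids `Y`:
`FF (K + Z₋) Y = FF Z₊ Y`; and `FF (K + Z₋) Y = FF K Y + FF Z₋ Y` because
`FF K (Z₋ + Y) = FF K Z₋ + FF K Y`. So `FF K Y = FF Z₊ Y - FF Z₋ Y`. Further
`Ψ(Z₊) = Ψ(K + Z₋) = Ψ(K) + FF K Z₋ + Ψ(Z₋)` and `2 Ψ(Z) = FF Z Z` for zonoids (`Ψ(2 Z) = 4 Ψ(Z)`,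
`2 • Z = Z + Z`). So `Ψ(K) = (FF Z₊ Z₊ - 2 FF Z₊ Z₋ + FF Z₋ Z₋)/2`; expand. -/
def T_SGQ : Prop := ∀ (m : ℕ) (Ψ : ConvexBody (E (m + 1)) → (C(S (m + 1), ℂ) →L[ℂ] ℂ)),
  IsArea (m + 1) 2 Ψ → ∀ (R : ℝ) (φ : E m → ℂ), Tf R φ → ∀ (ι : Type) [Fintype ι]
  (Zf : ι → ConvexBody (E (m + 1))) (lam : ι → ℝ) (K : ConvexBody (E (m + 1)))
  (a : E (m + 1)) (U : Set (E m)), IsOpen U → (∀ x, x ∉ U → φ x = 0) → (∀ i, Zn (Zf i)) →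
  (∀ x ∈ U, ch K x = (∑ i, lam i * ch (Zf i) x) + inner ℝ a (up x)) →
  Ψ K (HC φ) = (1 / 2 : ℂ) * ∑ i, ∑ j, (lam i : ℂ) * (lam j : ℂ) * FF Ψ (HC φ) (Zf i) (Zf j)

/-! ### Ridge functions -/

/-- RDG (from CHT). The function `v ↦ ∫ f(c) max(0, ⟨kv κ c, v⟩) dc` is sublinear (`f ≥ 0`), so
`gSUE` gives the body. It is a limit of zonotopes: divide `[-ρ, ρ]` into `n` intervals
`[c_i, c_(i+1)]`, `t_i = ∫_{c_i}^{c_(i+1)} f`; the support functions of `∑ t_i • seg (kv κ c_i)`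
differ by at most `(∫ f)(2 ρ/n)|v|` (`|max(0, ⟨a, v⟩) - max(0, ⟨b, v⟩)| ≤ |a - b| |v|`);
`gSUD`. -/
def T_RDG : Prop := ∀ (m : ℕ) (κ : E m) (ρ : ℝ) (f : ℝ → ℝ), 0 ≤ ρ → Continuous f →
  (∀ t, 0 ≤ f t) → IsZr κ ρ f (Zr κ ρ f) ∧ Zn (Zr κ ρ f)

/-- RFM (from RDG, ZND, CHT). Both sides are limits of the sums `∑ t_i FF (seg (kv κ c_i)) Y` of
the zonotopes of RDG: the left side by continuity and ZTP/ZND (additivity, homogeneity), the right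
side by the uniform continuity of `c ↦ FF (seg (kv κ c)) Y`. (Alternatively differentiate in the
upper end of the interval.) -/
def T_RFM : Prop := ∀ (m : ℕ) (Ψ : ConvexBody (E (m + 1)) → (C(S (m + 1), ℂ) →L[ℂ] ℂ)),
  IsArea (m + 1) 2 Ψ → ∀ (R : ℝ) (φ : E m → ℂ), Tf R φ → ∀ (κ : E m) (ρ : ℝ) (f : ℝ → ℝ),
  0 ≤ ρ → Continuous f → (∀ t, 0 ≤ f t) → ∀ Y, Zn Y →
  Continuous (fun c : ℝ => FF Ψ (HC φ) (seg (kv κ c)) Y) ∧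
  FF Ψ (HC φ) (Zr κ ρ f) Y = ∫ c in (-ρ)..ρ, (f c : ℂ) * FF Ψ (HC φ) (seg (kv κ c)) Y

/-- SLC (from LOC, HAT, CHT, TRI). Let `I = seg (kv κ c)`. If a test function `χ` vanishes for
`|⟨κ, x⟩ - c| ≤ δ`, `δ > 0`, then `FF (HC χ) I Y = 0`: write `χ` as the sum of its parts on
`⟨κ, x⟩ < c` and `⟨κ, x⟩ > c`; there `ch I` is linear, so `Ψ(I + Y) = Ψ(Y)` (LOC), and
`Ψ(I) = 0` (TRI). Let `χ = φ (g(⟨κ, x⟩) - g c)` and `χ_δ = χ λ_δ(⟨κ, x⟩ - c)`, `λ_δ s = 0` for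
`|s| ≤ δ`, `= 1` for `|s| ≥ 2 δ`: `sup |χ - χ_δ| → 0` as `δ → 0` and the functionals `Ψ K` are
continuous. -/
def T_SLC : Prop := ∀ (m : ℕ) (Ψ : ConvexBody (E (m + 1)) → (C(S (m + 1), ℂ) →L[ℂ] ℂ)),
  IsArea (m + 1) 2 Ψ → ∀ (R : ℝ) (φ : E m → ℂ), Tf R φ → ∀ (κ : E m) (c : ℝ) (g : ℝ → ℝ),
  Continuous g → ∀ Y : ConvexBody (E (m + 1)),
  FF Ψ (HC fun x => φ x * (g (inner ℝ κ x) : ℂ)) (seg (kv κ c)) Y =
    (g c : ℂ) * FF Ψ (HC φ) (seg (kv κ c)) Y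

/-- RLC (from RFM, SLC, ZND, RDG). Apply RFM to both sides, and SLC under the integral. -/
def T_RLC : Prop := ∀ (m : ℕ) (Ψ : ConvexBody (E (m + 1)) → (C(S (m + 1), ℂ) →L[ℂ] ℂ)),
  IsArea (m + 1) 2 Ψ → ∀ (R : ℝ) (φ : E m → ℂ), Tf R φ → ∀ (κ : E m) (ρ : ℝ) (f : ℝ → ℝ),
  0 ≤ ρ → Continuous f → (∀ t, 0 ≤ f t) → ∀ Y, Zn Y →
  FF Ψ (HC φ) (Zr κ ρ f) Y =
    FF Ψ (HC fun x => φ x * (f (inner ℝ κ x) : ℂ)) (Zr κ ρ fun _ => 1) Y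

/-- CHZ (from RDG, CHT). For `|s| ≤ ρ`:
`∫_{-ρ}^{ρ} F''(c) (s - c)_+ dc = ∫_{-ρ}^{s} F''(c)(s - c) dc
= F s - F(-ρ) - F'(-ρ)(s + ρ)` (integration by parts); this is `F s` plus an affine function of
`s = ⟨κ, x⟩`, and `⟨κ, x⟩ - c = ⟨kv κ c, up x⟩`. -/
def T_CHZ : Prop := ∀ (m : ℕ) (κ : E m) (ρ : ℝ) (F : ℝ → ℝ), 0 ≤ ρ → ContDiff ℝ 2 F →
  (∀ t, 0 ≤ deriv (deriv F) t) → ∃ a : E (m + 1), ∀ x : E m, |inner ℝ κ x| ≤ ρ →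
  ch (Zr κ ρ (deriv (deriv F))) x = F (inner ℝ κ x) + inner ℝ a (up x)

/-- RK1 (from CHZ, SGN, RDG, ZND). With `q_ν(x) = ⟨ν, x⟩²/2` we have
`q_κ = ∑_ij κ_i κ_j (q_(e_i+e_j) - q_(e_i-e_j))/4`. For `‖x‖ < 5` all the bodies `Zr κ ρ 1`,
`Zr κ' ρ' 1`, `Zq (e_i ± e_j)` have the chart functions `q_ν` up to linear functions
(`F s = s²/2` in CHZ). Apply SGN in both arguments (symmetry of `FF`), `U` the ball of radius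
`5`. -/
def T_RK1 : Prop := ∀ (m : ℕ) (Ψ : ConvexBody (E (m + 1)) → (C(S (m + 1), ℂ) →L[ℂ] ℂ)),
  IsArea (m + 1) 2 Ψ → ∀ (φ : E m → ℂ), Tf 5 φ → ∀ (κ κ' : E m) (ρ ρ' : ℝ), 5 * ‖κ‖ ≤ ρ →
  5 * ‖κ'‖ ≤ ρ' →
  FF Ψ (HC φ) (Zr κ ρ fun _ => 1) (Zr κ' ρ' fun _ => 1) =
    2 * ∑ i, ∑ j, ∑ k, ∑ l, ((κ i * κ j * κ' k * κ' l : ℝ) : ℂ) * B4 Ψ i j k l φ

/-- B4P (from HAT, ZND, RDG, PBR). Properties of the coefficient functionals: linearity,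
symmetry, and the bound: the bodies `Zq ν`, `ν = e_i ± e_j`, and their sums are in a ball whose
radius is an absolute constant (`supp ≤ ∫_{-10}^{10} (‖ν‖ + |c|) dc ≤ 140` on unit vectors,
`gSUL`), use PBR. -/
def T_B4P : Prop := ∃ C : ℝ, 0 ≤ C ∧ ∀ (m : ℕ)
  (Ψ : ConvexBody (E (m + 1)) → (C(S (m + 1), ℂ) →L[ℂ] ℂ)), IsArea (m + 1) 2 Ψ →
  ∀ (R : ℝ) (φ ψ : E m → ℂ), Tf R φ → Tf R ψ → ∀ (i j k l : Fin m),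
  B4 Ψ i j k l (fun x => φ x + ψ x) = B4 Ψ i j k l φ + B4 Ψ i j k l ψ ∧
  (∀ c : ℂ, B4 Ψ i j k l (fun x => c * φ x) = c * B4 Ψ i j k l φ) ∧
  B4 Ψ i j k l φ = B4 Ψ k l i j φ ∧
  ∀ C' M : ℝ, PB Ψ C' → 0 ≤ M → (∀ x, ‖φ x‖ ≤ M) → ‖B4 Ψ i j k l φ‖ ≤ C * C' * M

/-! ### The structure theorem -/

/-- a trigonometric sum -/
def tg {m q : ℕ} (κ : Fin q → E m) (a b : Fin q → ℝ) (x : E m) : ℝ :=
  ∑ i, (a i * Real.cos (inner ℝ (κ i) x) + b i * Real.sin (inner ℝ (κ i) x))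

/-- TGD. Derivatives of trigonometric sums. -/
def T_TGD : Prop := ∀ (m q : ℕ) (κ : Fin q → E m) (a b : Fin q → ℝ), SmE (tg κ a b) ∧
  (∀ x v, fderiv ℝ (tg κ a b) x v = ∑ i, (-a i * Real.sin (inner ℝ (κ i) x) +
    b i * Real.cos (inner ℝ (κ i) x)) * inner ℝ (κ i) v) ∧
  ∀ x v w, D2 (tg κ a b) x v w = ∑ i, (-a i * Real.cos (inner ℝ (κ i) x) -
    b i * Real.sin (inner ℝ (κ i) x)) * (inner ℝ (κ i) v * inner ℝ (κ i) w)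

/-- TRG (from TGD). Approximation of smooth functions of compact support by trigonometric sums
together with the first two derivatives. Proof 1: Fourier inversion
`f x = ∫ F(ξ) exp(2 π i ⟨ξ, x⟩) dξ` with `F` a Schwartz function (`HasCompactSupport` gives a
Schwartz function, `Continuous.fourierInv_fourier_eq`); the map
`ξ ↦ (x ↦ F(ξ) e(⟨ξ, x⟩) with its first two derivatives)` into the Banach space of the continuous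
functions on `closedBall 0 5` (with values in `ℂ × E* × E* ⊗ E*`) is continuous and integrable,
so its integral is in the closed span of its values; take real parts. (Or cut off to a large
ball and divide it into finitely many sets of small diameter.) Proof 2: convolution of `f` with the
product kernel `g_n x = c ∏_i ((1 + cos(x_i / a))/2)^n` restricted to one period, `a` large; `g_n`
is a finite sum of `exp(i ⟨k, x⟩ / a)`, so `∫ f y g_n (x - y) dy` is a trigonometric sum in `x`, its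
derivatives are the convolutions of the derivatives of `f`, and these converge uniformly on
`‖x‖ ≤ 5` (for `‖x‖ ≤ 5` and `y` in the support of `f`, `x - y` is in the middle of the period). -/
def T_TRG : Prop := ∀ (m : ℕ) (f : E m → ℝ), SmE f → HasCompactSupport f → ∀ ε : ℝ, 0 < ε →
  ∃ (q : ℕ) (κ : Fin q → E m) (a b : Fin q → ℝ), ∀ x : E m, ‖x‖ ≤ 5 →
    |f x - tg κ a b x| ≤ ε ∧ (∀ v, |fderiv ℝ f x v - fderiv ℝ (tg κ a b) x v| ≤ ε * ‖v‖) ∧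
    ∀ v w, |D2 f x v w - D2 (tg κ a b) x v w| ≤ ε * ‖v‖ * ‖w‖

/-- TRB (from TGD, SGQ, CHZ, RLC, RK1, RDG, ZND, HAT). Bodies whose chart function is a
trigonometric sum `∑_k F_k(⟨κ_k, x⟩)` on `‖x‖ < 4`, `F_k s = a_k cos s + b_k sin s`,
`F_k'' = -F_k`. With `A_k = |a_k| + |b_k|` the second derivative of `F_k s + A_k s²/2` is
`f_k = A_k - F_k ≥ 0`. Put `ρ_k = 5 ‖κ_k‖`, `Z_k = Zr κ_k ρ_k f_k`, `Y_k = Zr κ_k ρ_k 1`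
(`1 = deriv (deriv (s²/2))`). By CHZ on `‖x‖ < 4` `ch K = ∑_k (ch Z_k - A_k ch Y_k)` plus an affine
function. Apply SGQ (index set `Fin q ⊕ Fin q`) to the bodies `Z_k`, `Y_k` (coefficients `1` and
`-A_k`).
By RLC (in both arguments; `FF` is symmetric, `Z_k`, `Y_k` are in `Zn`)
`FF φ Z_k Z_l = FF (φ f_k f_l) Y_k Y_l`, `FF φ Z_k Y_l = FF (φ f_k) Y_k Y_l`, so the sum is
`(1/2) ∑_kl FF (φ (f_k - A_k)(f_l - A_l)) Y_k Y_l = (1/2) ∑_kl FF (φ F_k'' F_l'') Y_k Y_l`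
(arguments `⟨κ_k, x⟩`, `⟨κ_l, x⟩`). By RK1 and TGD this is `BB Ψ (Hs t) (Hs t) φ`. -/
def T_TRB : Prop := ∀ (m : ℕ) (Ψ : ConvexBody (E (m + 1)) → (C(S (m + 1), ℂ) →L[ℂ] ℂ)),
  IsArea (m + 1) 2 Ψ → ∀ (q : ℕ) (κ : Fin q → E m) (a b : Fin q → ℝ) (K : ConvexBody (E (m + 1))),
  (∀ x, ‖x‖ < 4 → ch K x = tg κ a b x) → ∀ φ : E m → ℂ, Tf 4 φ →
  Ψ K (HC φ) = BB Ψ (Hs (tg κ a b)) (Hs (tg κ a b)) φ

/-- RTS. `rt x = √(1 + ‖x‖²)` is smooth and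
`D2 rt x v v = (1 + ‖x‖²)^(-3/2) ((1 + ‖x‖²)‖v‖² - ⟨x, v⟩²) ≥ (1 + ‖x‖²)^(-3/2) ‖v‖²`, at least
`‖v‖²/133` for `‖x‖ ≤ 5`. -/
def T_RTS : Prop := ∀ m : ℕ, SmE (rt : E m → ℝ) ∧
  ∀ x : E m, ‖x‖ ≤ 5 → ∀ v, ‖v‖ ^ 2 / 150 ≤ D2 rt x v v

/-- LFE (from RTS, CHT, HAT). Existence of the body. Let `w = R rt + f`, `f` smooth, `f = 0` for
`‖x‖ ≥ 5`, with nonnegative second derivative for `‖x‖ ≤ 5` (hence everywhere, so `w` is convex on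
`E m`). Show that `D v = R ‖v‖ + hx f v` is sublinear; then `gSUE`. Homogeneity is clear.
Continuity: `hx f` is continuous (`|hx f v| ≤ M ‖v‖`, and it vanishes near `v ≠ 0` with
`hgt v = 0`). Subadditivity for `hgt u, hgt v > 0`: `D v = hgt v · w(dn v)` (perspective of a convex
function). By continuity for `hgt u, hgt v ≥ 0`. If both `≤ 0`: norm. Mixed case `hgt u > 0`,
`hgt v < 0`: convexity of `D` along the line `s ↦ (1-s) u + s v` if it does not pass through `0`: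
on the part with height `≥ 0` it is convex; on a neighbourhood of the crossing point and on the
part of negative height `D = R ‖·‖` is convex; a continuous function which is convex on two
overlapping intervals is convex on the union. So `D((u+v)/2) ≤ (D u + D v)/2`. Lines through `0`: by
continuity (perturb `v`; here `1 ≤ m` is used). -/
def T_LFE : Prop := ∀ (m : ℕ) (R : ℝ) (f : E m → ℝ), 1 ≤ m → 0 < R → SmE f →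
  (∀ x, 5 ≤ ‖x‖ → f x = 0) → (∀ x, ‖x‖ ≤ 5 → ∀ v, 0 ≤ D2 (fun y => R * rt y + f y) x v v) →
  ∃ L : ConvexBody (E (m + 1)), IsLf R f L

/-- LFP (from CHT). For `IsLf R f L`: the chart function is `R rt + f`; the body is in the ball of
radius `R + M` if `|f| ≤ M` (`0 ≤ hgt v ≤ ‖v‖`, `gSUL`); two such bodies with the same `R` have
distance at most `sup |f - f'|` (`gSUD`). -/
def T_LFP : Prop := ∀ (m : ℕ) (R M : ℝ) (f f' : E m → ℝ) (L L' : ConvexBody (E (m + 1))),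
  0 ≤ R → 0 ≤ M → IsLf R f L → IsLf R f' L' → (∀ x, ch L x = R * rt x + f x) ∧
  ((∀ x, |f x| ≤ M) → (L : Set (E (m + 1))) ⊆ closedBall 0 (R + M)) ∧
  ((∀ x, |f x - f' x| ≤ M) → dist L L' ≤ M)

/-- BBC (from B4P, PBE). Continuity of the form: if the matrix functions `A_n` converge to `A`
uniformly on `‖x‖ ≤ 4`, then `BB Ψ A_n A_n φ → BB Ψ A A φ` for `Tf 4 φ` (all continuous); PBE gives
the bound. -/
def T_BBC : Prop := ∀ (m : ℕ) (Ψ : ConvexBody (E (m + 1)) → (C(S (m + 1), ℂ) →L[ℂ] ℂ)),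
  IsArea (m + 1) 2 Ψ → ∀ φ : E m → ℂ, Tf 4 φ → ∀ (An : ℕ → E m → Fin m → Fin m → ℝ)
  (A : E m → Fin m → Fin m → ℝ), (∀ n i j, Continuous fun x => An n x i j) →
  (∀ i j, Continuous fun x => A x i j) →
  (∀ ε : ℝ, 0 < ε → ∀ᶠ n in atTop, ∀ x, ‖x‖ ≤ 4 → ∀ i j, |An n x i j - A x i j| ≤ ε) →
  Tendsto (fun n => BB Ψ (An n) (An n) φ) atTop (𝓝 (BB Ψ A A φ))

/-- STR (from TRG, TGD, TRB, RTS, LFE, LFP, BBC). The structure theorem. `w = R rt + f`. Let `χ₁` be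
smooth, `χ₁ = 1` on `‖x‖ ≤ 6`, of compact support; let `t_n` be trigonometric sums approximating
`χ₁ w` with error `1/(n+1)` (TRG), `χ₂` smooth, `χ₂ = 1` on `‖x‖ ≤ 4`, `χ₂ = 0` for `‖x‖ ≥ 5`,
`g_n = χ₂ (t_n - w)`, which tends to `0` uniformly with its first two derivatives. For large `n`,
`w + g_n` has nonnegative second derivative on `‖x‖ ≤ 5` (`Lc`; for `4 < ‖x‖` RTS and `f = 0` near
`x`), let `L_n` be the body of `f + g_n` (LFE); `L_n → L` (LFP). On `‖x‖ < 4`,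
`ch L_n = w + g_n = t_n`, so `Ψ(L_n)φ = BB Ψ (Hs t_n) (Hs t_n) φ` by TRB. Let `n → ∞` (BBC: on
`‖x‖ ≤ 4`, `|Hs t_n - Hs w| ≤ 1/(n+1)`). -/
def T_STR : Prop := ∀ (m : ℕ) (Ψ : ConvexBody (E (m + 1)) → (C(S (m + 1), ℂ) →L[ℂ] ℂ)),
  1 ≤ m → IsArea (m + 1) 2 Ψ → ∀ (R c : ℝ) (f : E m → ℝ), 0 < R → Lc R c f →
  ∀ L : ConvexBody (E (m + 1)), IsLf R f L → ∀ φ : E m → ℂ, Tf 4 φ →
  Ψ L (HC φ) = BB Ψ (Hs fun y => R * rt y + f y) (Hs fun y => R * rt y + f y) φ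

/-! ### Domination -/

/-- the matrix `ξ ξᵀ` (constant) -/
def rk {m : ℕ} (ξ : E m) : E m → Fin m → Fin m → ℝ := fun _ i j => ξ i * ξ j

/-- the wave packet: the phases are `0, π/2, π, 3π/2` -/
def fw {m : ℕ} {ι : Type} [Fintype ι] (f0 : E m → ℝ) (ξ : ι → E m) (α : ι → E m → ℝ) (Λ : ℝ)
    (θ : ι → Fin 4) (x : E m) : ℝ :=
  f0 x - ∑ k, α k x * (Real.cos (Λ * inner ℝ (ξ k) x + ((θ k : ℕ) : ℝ) * (Real.pi / 2)) / Λ ^ 2)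

/-- PHS. Averages over independent phases. Expand the product; a term
`x_k x_l x_a x_b` (arguments `θ k` etc.), `k ≠ l`, sums to `0` unless `{a, b} = {k, l}`, because
otherwise one of the indices occurs exactly once, or (`a = b = k`) the index `l` occurs once; the
sum over `θ` factorises (`Finset.prod_univ_sum`, `Fintype.piFinset`). For `{a, b} = {k, l}` the
sum is `4^(card - 2) · 2 · 2`. (To avoid subtraction write `16 * 4^card * .. ` or use the mean.)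
Another way: induction or, for the two indices `k ≠ l`, note that flipping arguments
(`Equiv.sum_comp`) is not available in general; use the factorisation
`∑_θ ∏_i f_i (θ_i) = ∏_i ∑_j f_i j`. -/
def T_PHS : Prop := ∀ (ι : Type) [Fintype ι] [DecidableEq ι] (x : ι → Fin 4 → ℝ),
  (∀ k, ∑ j, x k j = 0) → (∀ k, ∑ j, x k j ^ 2 = 2) → ∀ k l : ι, k ≠ l → ∀ (h h' : ℝ)
  (u v : ι → ℝ), ∑ θ : ι → Fin 4, x k (θ k) * x l (θ l) * (h + ∑ a, u a * x a (θ a)) *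
    (h' + ∑ a, v a * x a (θ a)) = 4 ^ Fintype.card ι * ((u k * v l + u l * v k) / 4)

/-- WDD. Derivatives of the wave packet. The second derivative of
`-α cos(Λ⟨ξ, x⟩ + θ)/Λ²` is `α cos(..) ⟨ξ, v⟩⟨ξ, w⟩` plus
`(sin(..)/Λ)(⟨ξ, v⟩ Dα w + ⟨ξ, w⟩ Dα v) - cos(..) D2 α/Λ²`; `α`, `Dα`, `D2 α` are bounded
(smooth, compact support). -/
def T_WDD : Prop := ∀ (m : ℕ) (f0 : E m → ℝ), SmE f0 → (∀ x, 4 ≤ ‖x‖ → f0 x = 0) →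
  ∀ (ι : Type) [Fintype ι] (ξ : ι → E m) (α : ι → E m → ℝ), (∀ k, SmE (α k)) →
  (∀ k x, 4 ≤ ‖x‖ → α k x = 0) → ∃ B : ℝ, 0 ≤ B ∧ ∀ Λ : ℝ, 1 ≤ Λ → ∀ θ : ι → Fin 4,
  SmE (fw f0 ξ α Λ θ) ∧ (∀ x, 4 ≤ ‖x‖ → fw f0 ξ α Λ θ x = 0) ∧
  (∀ x, |fw f0 ξ α Λ θ x - f0 x| ≤ B / Λ) ∧
  ∀ x v w, |D2 (fw f0 ξ α Λ θ) x v w - (D2 f0 x v w +
    ∑ k, α k x * Real.cos (Λ * inner ℝ (ξ k) x + ((θ k : ℕ) : ℝ) * (Real.pi / 2)) *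
      (inner ℝ (ξ k) v * inner ℝ (ξ k) w))| ≤ B / Λ * (‖v‖ * ‖w‖)

/-- WAV (from STR, PHS, WDD, B4P, LFE, LFP, PBR, RTS, HAT). The waves. Let `f_θ = fw f0 ξ α Λ θ`,
`H_θ` the matrix of second derivatives of `R rt + f_θ`, `H` that of `R rt + f0`,
`c_k = cos(Λ⟨ξ_k, x⟩ + θ_k π/2)`. By WDD `H_θ = H + ∑_k α_k c_k ξ_k ξ_kᵀ + O(1/Λ)`; by hypothesis
the form is at least `(c/2)‖v‖²` for large `Λ`, so `Lc R (c/2) f_θ` and by LFE (RTS for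
`‖x‖ > 4`) there is a body `L_θ`, contained in the ball of radius `R + M + 1` (LFP). Put
`φ_θ = ∑_kl ψ_kl c_k c_l`, `|φ_θ| ≤ 1`. By STR `Ψ(L_θ)φ_θ = BB Ψ H_θ H_θ φ_θ`. Sum over all
`4^card` phases: the entries of `c_k c_l H_θ ⊗ H_θ` (`k ≠ l`) sum to
`4^card (1/4) α_k α_l (ξ_k² ⊗ ξ_l² + ξ_l² ⊗ ξ_k²) + O(1/Λ)` by PHS (`∑_j cos(a + jπ/2) = 0`,
`∑_j cos(a + jπ/2)² = 2`). So, by linearity and the bound of B4P and the symmetry of `B4`,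
`(1/2) ∑_kl BB (rk ξ_k) (rk ξ_l) (ψ_kl α_k α_l)` differs by `O(1/Λ)` from the mean of `Ψ(L_θ)φ_θ`,
of modulus at most `(R + M + 1)² C'` (PBR, HAT). Let `Λ → ∞`. -/
def T_WAV : Prop := ∀ (m : ℕ) (Ψ : ConvexBody (E (m + 1)) → (C(S (m + 1), ℂ) →L[ℂ] ℂ)),
  1 ≤ m → IsArea (m + 1) 2 Ψ → ∀ C' : ℝ, PB Ψ C' → ∀ (R c M : ℝ) (f0 : E m → ℝ), 0 < R → 0 < c →
  0 ≤ M → SmE f0 → (∀ x, 4 ≤ ‖x‖ → f0 x = 0) → (∀ x, |f0 x| ≤ M) →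
  ∀ (ι : Type) [Fintype ι] (ξ : ι → E m) (α : ι → E m → ℝ), (∀ k, SmE (α k)) →
  (∀ k x, 0 ≤ α k x) → (∀ k x, 4 ≤ ‖x‖ → α k x = 0) →
  (∀ x, ‖x‖ ≤ 4 → ∀ v, c * ‖v‖ ^ 2 + ∑ k, α k x * inner ℝ (ξ k) v ^ 2 ≤
    D2 (fun y => R * rt y + f0 y) x v v) →
  ∀ ψ : ι → ι → E m → ℂ, (∀ k l, Tf 4 (ψ k l)) → (∀ k x, ψ k k x = 0) →
  (∀ x, ∑ k, ∑ l, ‖ψ k l x‖ ≤ 1) →
  ‖∑ k, ∑ l, BB Ψ (rk (ξ k)) (rk (ξ l)) (fun x => ψ k l x * (α k x : ℂ) * (α l x : ℂ))‖ ≤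
    2 * (R + M + 1) ^ 2 * C'

/-- the constant matrix `e_i e_jᵀ + e_j e_iᵀ` -/
def sy {m : ℕ} (i j : Fin m) : E m → Fin m → Fin m → ℝ :=
  fun _ a b => (if a = i ∧ b = j then 1 else 0) + if a = j ∧ b = i then 1 else 0

/-- CT3. Cut-off functions on `E m` (`ContDiffBump`). -/
def T_CT3 : Prop := ∀ m : ℕ, ∃ ζa ζb ζc : E m → ℝ, Cut3 ζa ζb ζc

/-- LAD. The dyadic sums. `s t = t²/(1 + t)⁴ ≤ min(t², t⁻²)`, `s t / t ≤ min(t, t⁻³)`; the numbers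
`t_n = t/4^n`, `n < K`. -/
def T_LAD : Prop := ∀ (K : ℕ) (t : ℝ), 1 ≤ t →
  ∑ n ∈ Finset.range K, (t / 4 ^ n) ^ 2 / (1 + t / 4 ^ n) ^ 4 ≤ 3 ∧
  ∑ n ∈ Finset.range K, 4 ^ n * ((t / 4 ^ n) ^ 2 / (1 + t / 4 ^ n) ^ 4) ≤ 3 * t ∧
  (t < 4 ^ K → Real.sqrt t / 4000 ≤
    ∑ n ∈ Finset.range K, 2 ^ n * ((t / 4 ^ n) ^ 2 / (1 + t / 4 ^ n) ^ 4) ^ 2)

/-- PRJ. Composition with `pr`: second derivatives and norms. `pr` is linear, `‖pr x‖ ≤ ‖x‖`,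
`pr (eb 0) = e 0` etc., `pr (eb i) = 0` for `i ≥ 4`, `pr (inj z) = z`, `‖inj z‖ ≤ 2 ‖z‖`. -/
def T_PRJ : Prop := ∀ k : ℕ,
  (∀ x : E (k + 4), ‖(pr x : V)‖ ≤ ‖x‖) ∧ (∀ z : V, (pr (inj (k := k) z) : V) = z) ∧
  (∀ z : V, ‖inj (k := k) z‖ ≤ 2 * ‖z‖) ∧
  ∀ f : V → ℝ, Sm f → SmE (fun x : E (k + 4) => f (pr x)) ∧
    (∀ (x v : E (k + 4)), fderiv ℝ (fun x : E (k + 4) => f (pr x)) x v =
      v 0 * d 0 f (pr x) + v 1 * d 1 f (pr x) + v 2 * d 2 f (pr x) + v 3 * d 3 f (pr x)) ∧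
    ∀ (x v w : E (k + 4)), D2 (fun x : E (k + 4) => f (pr x)) x v w =
      ∑ i : Fin 4, ∑ j : Fin 4, v (Fin.castLE (by omega) i) * w (Fin.castLE (by omega) j) *
        d i (d j f) (pr x)

/-- DMW (from PRJ, RTS). The background. There is `R` depending only on the cut-off functions such
that for all `Dom 15` data, with `f0 = ζb (G ∘ pr)`:
`D²(R rt + f0)(v, v) ≥ ζb (d1 v_0² + d2 v_1²) + 2 ‖v‖²` on `‖x‖ ≤ 4`. Product rule: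
`D²(ζb (G ∘ pr)) = ζb D²(G ∘ pr) + 2 D ζb D(G ∘ pr) + (G ∘ pr) D² ζb`, with
`|G|, |d i G| ≤ 1`; the first term is at least `ζb ((d1 - 15) v_0² + (d2 - 15) v_1²)` by `hG`
(and `xG`: derivatives of `G` in the directions `2, 3` vanish); RTS. -/
def T_DMW : Prop := ∀ (k : ℕ) (ζa ζb ζc : E (k + 4) → ℝ), Cut3 ζa ζb ζc → ∃ R : ℝ, 0 < R ∧
  ∀ G d1 d2 Eo M1 M2 M3 : V → ℝ, Dom 15 G d1 d2 Eo M1 M2 M3 →
  ∀ x : E (k + 4), ‖x‖ ≤ 4 → ∀ v : E (k + 4),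
  ζb x * (d1 (pr x) * v 0 ^ 2 + d2 (pr x) * v 1 ^ 2) + 2 * ‖v‖ ^ 2 ≤
    D2 (fun y => R * rt y + ζb y * G (pr y)) x v v

/-- DME (from PRJ). The field. There is `C` depending only on the cut-off functions such that for
all `Dom 15` data the second derivatives of `ζa (Eo ∘ pr)` are bounded:
product rule; `|Eo|, |d i Eo| ≤ 1`, the bounds of `M1, M2, M3`, and `d1, d2 ≥ 1`. -/
def T_DME : Prop := ∀ (k : ℕ) (ζa ζb ζc : E (k + 4) → ℝ), Cut3 ζa ζb ζc → ∃ C : ℝ, 0 < C ∧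
  ∀ G d1 d2 Eo M1 M2 M3 : V → ℝ, Dom 15 G d1 d2 Eo M1 M2 M3 → ∀ x : E (k + 4),
  |Hs (fun y => ζa y * Eo (pr y)) x 0 0| ≤ C * (d1 (pr x) * Real.sqrt (d2 (pr x))) ∧
  |Hs (fun y => ζa y * Eo (pr y)) x 0 2| ≤ C * Real.sqrt (d1 (pr x) * d2 (pr x)) ∧
  |Hs (fun y => ζa y * Eo (pr y)) x 2 2| ≤ C * Real.sqrt (d2 (pr x)) ∧
  ∀ i j : Fin (k + 4), ¬ ((i = 0 ∨ i = 2) ∧ (j = 0 ∨ j = 2)) →
    |Hs (fun y => ζa y * Eo (pr y)) x i j| ≤ C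

/-- the index set of the waves -/
abbrev WI (K : ℕ) : Type := Bool ⊕ ((Fin K × Bool) ⊕ (Fin K × Bool))

/-- a sign -/
def sg (σ : Bool) : ℝ := if σ then 1 else -1

/-- the profile `t² / (1 + t)⁴` -/
def sl (t : ℝ) : ℝ := t ^ 2 / (1 + t) ^ 4

/-- the wave vectors: `e_0`, `e_2`, `2^n e_0 ± e_2`, `2^n e_1 ± e_3` -/
def wx {k : ℕ} (K : ℕ) : WI K → E (k + 4)
  | Sum.inl false => eb 0
  | Sum.inl true => eb 2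
  | Sum.inr (Sum.inl (n, σ)) => (2 : ℝ) ^ (n : ℕ) • eb 0 + sg σ • eb 2
  | Sum.inr (Sum.inr (n, σ)) => (2 : ℝ) ^ (n : ℕ) • eb 1 + sg σ • eb 3

/-- the amplitudes -/
def wa {k : ℕ} (K : ℕ) (ζ : E (k + 4) → ℝ) (d1 d2 : V → ℝ) : WI K → E (k + 4) → ℝ
  | Sum.inl false, x => ζ x * d1 (pr x) / 8
  | Sum.inl true, x => ζ x / 8
  | Sum.inr (Sum.inl (n, _)), x => ζ x * sl (d1 (pr x) / 4 ^ (n : ℕ)) / 64
  | Sum.inr (Sum.inr (n, _)), x => ζ x * sl (d2 (pr x) / 4 ^ (n : ℕ)) / 64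

/-- DMI (from LAD, PRJ). The waves are dominated: the sum over the signs of
`α_n ⟨2^n e_0 ± e_2, v⟩²` is `2 α_n (4^n v_0² + v_2²)`, and by LAD
`(ζ/32) ∑ s_n (4^n v_0² + v_2²) ≤ (3 ζ/32)(d1 v_0² + v_2²)`, `s_n = sl (d1/4^n)`; similarly for
`d2`, `v_1`, `v_3`. With the two waves `e_0`, `e_2` the total is at most
`(7/32) ζ (d1 v_0² + d2 v_1²) + (7/32)‖v‖²`. -/
def T_DMI : Prop := ∀ (k : ℕ) (ζa ζb ζc : E (k + 4) → ℝ), Cut3 ζa ζb ζc → ∀ (d1 d2 : V → ℝ),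
  Sm d1 → Sm d2 → (∀ z, 1 ≤ d1 z) → (∀ z, 1 ≤ d2 z) → ∀ K : ℕ,
  (∀ a, SmE (wa K ζb d1 d2 a)) ∧ (∀ a x, 0 ≤ wa K ζb d1 d2 a x) ∧
  (∀ a x, 4 ≤ ‖x‖ → wa K ζb d1 d2 a x = 0) ∧
  (∀ x v : E (k + 4), 1 * ‖v‖ ^ 2 + ∑ a, wa K ζb d1 d2 a x * inner ℝ (wx K a) v ^ 2 ≤
    ζb x * (d1 (pr x) * v 0 ^ 2 + d2 (pr x) * v 1 ^ 2) + 2 * ‖v‖ ^ 2) ∧
  ∀ x, ∑ n : Fin K, wa K ζb d1 d2 (Sum.inr (Sum.inl (n, true))) x ≤ 3 / 64 ∧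
    ∑ n : Fin K, wa K ζb d1 d2 (Sum.inr (Sum.inr (n, true))) x ≤ 3 / 64

/-- DMK (from LAD). The lower bound, where `ζb = 1` and `d1, d2 < 4^K`
(`16384000 = 4096 · 4000`). -/
def T_DMK : Prop := ∀ (k : ℕ) (ζa ζb ζc : E (k + 4) → ℝ), Cut3 ζa ζb ζc → ∀ (d1 d2 : V → ℝ),
  (∀ z, 1 ≤ d1 z) → (∀ z, 1 ≤ d2 z) → ∀ (K : ℕ) (x : E (k + 4)), ‖x‖ ≤ 3 →
  d1 (pr x) < 4 ^ K → d2 (pr x) < 4 ^ K →
  Real.sqrt (d1 (pr x)) / 16384000 ≤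
    ∑ n : Fin K, 2 ^ (n : ℕ) * wa K ζb d1 d2 (Sum.inr (Sum.inl (n, true))) x ^ 2 ∧
  Real.sqrt (d2 (pr x)) / 16384000 ≤
    ∑ n : Fin K, 2 ^ (n : ℕ) * wa K ζb d1 d2 (Sum.inr (Sum.inr (n, true))) x ^ 2

/-- RKA (from B4P, HAT). The algebra of the waves. `BB` is linear in the constant matrices and in
the test function; `rk (2^n e_0 + e_2) - rk (2^n e_0 - e_2) = 2 · 2^n sy 0 2` and the same for
`e_1`, `e_3`. So the sum over the signs gives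
(1) `∑ 4 · 2^n 2^n' BB (sy 0 2) (sy 1 3) (τ n n')`, (2) `∑ 2 · 2^n BB A (sy 1 3) (τ n)`. -/
def T_RKA : Prop := ∀ (k : ℕ) (Ψ : ConvexBody (E (k + 4 + 1)) → (C(S (k + 4 + 1), ℂ) →L[ℂ] ℂ)),
  IsArea (k + 4 + 1) 2 Ψ → ∀ K : ℕ,
  (∀ τ : Fin K → Fin K → E (k + 4) → ℂ, (∀ n n', Tf 4 (τ n n')) →
    ∑ n, ∑ σ, ∑ n', ∑ σ', BB Ψ (rk (wx K (Sum.inr (Sum.inl (n, σ)))))
      (rk (wx K (Sum.inr (Sum.inr (n', σ'))))) (fun x => (sg σ : ℂ) * (sg σ' : ℂ) * τ n n' x) =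
    BB Ψ (sy 0 2) (sy 1 3)
      (fun x => ∑ n : Fin K, ∑ n' : Fin K, 4 * 2 ^ (n : ℕ) * 2 ^ (n' : ℕ) * τ n n' x)) ∧
  ∀ (A : E (k + 4) → Fin (k + 4) → Fin (k + 4) → ℝ), (∀ i j, Continuous fun x => A x i j) →
    ∀ τ : Fin K → E (k + 4) → ℂ, (∀ n, Tf 4 (τ n)) →
    ∑ n, ∑ σ, BB Ψ A (rk (wx K (Sum.inr (Sum.inr (n, σ))))) (fun x => (sg σ : ℂ) * τ n x) =
    BB Ψ A (sy 1 3) (fun x => ∑ n : Fin K, 2 * 2 ^ (n : ℕ) * τ n x)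

/-- DX1 (from WAV, DMI, DMK, DMW, RKA). Domination of the component `sy 0 2`. Let `R` be from DMW
and `K` with `d1, d2 < 4^K` on `‖z‖ ≤ 3` (compactness). By DMI and DMW the hypothesis of WAV holds
with `c = 1`, `M = 1`, `f0 = ζb (G ∘ pr)` (`|G| ≤ 1` on `‖z‖ ≤ 4`, `ζb = 0` for `‖x‖ ≥ 7/2`),
`ξ = wx K`, `α = wa K ζb d1 d2`. Let `S1 = ∑ α_n² 2^n`, `S2 = ∑ α'_n² 2^n` (`α_n`, `α'_n` the
amplitudes of the two families), `S_i ≥ c √d_i` for `‖x‖ ≤ 3`, `c = 1/16384000` (DMK). Put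
`τ = N/(S1 S2)` (continuous, zero for `‖x‖ ≥ 5/2`, `|τ| ≤ c⁻²`) and
`ψ = sg σ sg σ' τ α_n α'_n' / C₁` on the pair of the waves `(n, σ)` of the first and `(n', σ')` of
the second family, `0` on all other pairs; `∑ |ψ| ≤ 4 c⁻² (3/64)² / C₁ ≤ 1` for
`C₁ = c⁻²`. WAV and RKA (1) bound
`(4/C₁) BB (sy 0 2) (sy 1 3) (τ S1 S2) = (4/C₁) BB (sy 0 2) (sy 1 3) N` by `2 (R + 2)² C'`. -/
def T_DX1 : Prop := ∀ (k : ℕ) (ζa ζb ζc : E (k + 4) → ℝ), Cut3 ζa ζb ζc → ∃ C : ℝ, 0 < C ∧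
  ∀ (Ψ : ConvexBody (E (k + 4 + 1)) → (C(S (k + 4 + 1), ℂ) →L[ℂ] ℂ)),
  IsArea (k + 4 + 1) 2 Ψ → ∀ C' : ℝ, PB Ψ C' →
  ∀ G d1 d2 Eo M1 M2 M3 : V → ℝ, Dom 15 G d1 d2 Eo M1 M2 M3 →
  ∀ N : E (k + 4) → ℝ, Continuous N → (∀ x, 5 / 2 ≤ ‖x‖ → N x = 0) →
  (∀ x, |N x| ≤ Real.sqrt (d1 (pr x) * d2 (pr x))) →
  ‖BB Ψ (sy 0 2) (sy 1 3) (fun x => (N x : ℂ))‖ ≤ C * C'

/-- DX2 (from WAV, DMI, DMK, DMW, RKA). The component `rk e_0`, `|N| ≤ d1 √d2`. As DX1, with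
`τ = 8 N/(d1 S2)`, `|τ| ≤ 8/c`, `ψ = sg σ τ α'_n/C₁` on the pairs (`e_0`, `2^n e_1 ± e_3`) and `0`
on all other pairs; the amplitude of the wave `e_0` is `ζb d1/8` (`= d1/8` where `N ≠ 0`); RKA (2)
with `A = rk (eb 0)`. -/
def T_DX2 : Prop := ∀ (k : ℕ) (ζa ζb ζc : E (k + 4) → ℝ), Cut3 ζa ζb ζc → ∃ C : ℝ, 0 < C ∧
  ∀ (Ψ : ConvexBody (E (k + 4 + 1)) → (C(S (k + 4 + 1), ℂ) →L[ℂ] ℂ)),
  IsArea (k + 4 + 1) 2 Ψ → ∀ C' : ℝ, PB Ψ C' →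
  ∀ G d1 d2 Eo M1 M2 M3 : V → ℝ, Dom 15 G d1 d2 Eo M1 M2 M3 →
  ∀ N : E (k + 4) → ℝ, Continuous N → (∀ x, 5 / 2 ≤ ‖x‖ → N x = 0) →
  (∀ x, |N x| ≤ d1 (pr x) * Real.sqrt (d2 (pr x))) →
  ‖BB Ψ (rk (eb 0)) (sy 1 3) (fun x => (N x : ℂ))‖ ≤ C * C'

/-- DX3 (from WAV, DMI, DMK, DMW, RKA). The component `rk e_2`, `|N| ≤ √d2`. As DX2, with
`τ = 8 N/S2` and the wave `e_2` of amplitude `ζb/8`. -/
def T_DX3 : Prop := ∀ (k : ℕ) (ζa ζb ζc : E (k + 4) → ℝ), Cut3 ζa ζb ζc → ∃ C : ℝ, 0 < C ∧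
  ∀ (Ψ : ConvexBody (E (k + 4 + 1)) → (C(S (k + 4 + 1), ℂ) →L[ℂ] ℂ)),
  IsArea (k + 4 + 1) 2 Ψ → ∀ C' : ℝ, PB Ψ C' →
  ∀ G d1 d2 Eo M1 M2 M3 : V → ℝ, Dom 15 G d1 d2 Eo M1 M2 M3 →
  ∀ N : E (k + 4) → ℝ, Continuous N → (∀ x, 5 / 2 ≤ ‖x‖ → N x = 0) →
  (∀ x, |N x| ≤ Real.sqrt (d2 (pr x))) →
  ‖BB Ψ (rk (eb 2)) (sy 1 3) (fun x => (N x : ℂ))‖ ≤ C * C'

/-- DOM (from DX1, DX2, DX3, DME, B4P). Where `ζa (Eo ∘ pr)` is not zero, `Hs (ζb x_1 x_3) = sy 1 3`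
(`ζb = 1` near the support). Decompose the matrix `N_ij = Hs (ζa (Eo ∘ pr))` (continuous, zero for
`‖x‖ ≥ 5/2`) into `N_00 rk e_0 + N_02 sy 0 2 + N_22 rk e_2` plus bounded entries (DME); for the
bounded entries use the bound of B4P. -/
def T_DOM : Prop := ∀ (k : ℕ) (ζa ζb ζc : E (k + 4) → ℝ), Cut3 ζa ζb ζc → ∃ C : ℝ, 0 < C ∧
  ∀ (Ψ : ConvexBody (E (k + 4 + 1)) → (C(S (k + 4 + 1), ℂ) →L[ℂ] ℂ)),
  IsArea (k + 4 + 1) 2 Ψ → ∀ C' : ℝ, PB Ψ C' →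
  ∀ G d1 d2 Eo M1 M2 M3 : V → ℝ, Dom 15 G d1 d2 Eo M1 M2 M3 →
  ‖BB Ψ (Hs fun y => ζa y * Eo (pr y)) (Hs fun y => ζb y * (y 1 * y 3))
    (fun x => (ζc x : ℂ))‖ ≤ C * C'

end Pool.Agent.GNS
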