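import Pool.Agent.GNS.T1
import Pool.Agent.GNS.T2
import Pool.Agent.GNS.T3
import Pool.Agent.GNS.T4

/-!
# GNS: FIN, the conclusion
-/

set_option autoImplicit false

open Metric Set Filter Topology MeasureTheory

noncomputable section

namespace Pool.Agent.GNS

open Pool.Agent.GLB

theorem FIN_th_smul {k : ℕ} (F : ConvexBody (E (k + 4 + 1)) → ℂ) (c : ℂ)
    (L : Fin 2 → Fin 2 → ConvexBody (E (k + 4 + 1))) :
    Th (fun K => c * F K) L = c * Th F L := by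
  unfold Th
  ring

/-- bound of the four-term combination -/
theorem FIN_th_le {k : ℕ} (F : ConvexBody (E (k + 4 + 1)) → ℂ) (B : ℝ)
    (L : Fin 2 → Fin 2 → ConvexBody (E (k + 4 + 1))) (h : ∀ i j, ‖F (L i j)‖ ≤ B) :
    ‖Th F L‖ ≤ 4 * B := by
  unfold Th
  have h1 := h 0 0
  have h2 := h 0 1
  have h3 := h 1 0
  have h4 := h 1 1
  calc ‖F (L 0 0) - F (L 0 1) - F (L 1 0) + F (L 1 1)‖
      ≤ ‖F (L 0 0) - F (L 0 1) - F (L 1 0)‖ + ‖F (L 1 1)‖ := norm_add_le _ _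
    _ ≤ ‖F (L 0 0) - F (L 0 1)‖ + ‖F (L 1 0)‖ + ‖F (L 1 1)‖ := by
        gcongr
        exact norm_sub_le _ _
    _ ≤ ‖F (L 0 0)‖ + ‖F (L 0 1)‖ + ‖F (L 1 0)‖ + ‖F (L 1 1)‖ := by
        gcongr
        exact norm_sub_le _ _
    _ ≤ 4 * B := by linarith

theorem p_FIN (hCTS : T_CTS) (hPKA : T_PKA) (hCT3 : T_CT3) (hLFS : T_LFS)
    (hMU1 : T_MU1) (hMU2 : T_MU2) (hVSM : T_VSM) (hVBR : T_VBR) (hGLH : T_GLH) (hTHP : T_THP)
    (hTHM : T_THM) (hDOM : T_DOM) (hPBE : T_PBE) (hPRJ : T_PRJ) : T_FIN := by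
  intro k
  by_contra hcon
  push Not at hcon
  obtain ⟨ζ0, ζ1, hcut⟩ := hCTS
  obtain ⟨ζa, ζb, ζc, hc3⟩ := hCT3 (k + 4)
  obtain ⟨C₀, c₀, hc₀, hpk⟩ := hPKA ζ0 ζ1 hcut
  obtain ⟨Cd, hCd, hdom⟩ := hDOM k ζa ζb ζc hc3
  have hpk' : ∀ N : ℕ, ∃ b G d1 d2 Eo M1 M2 M3 : V → ℝ, Sm b ∧ (∀ z, 1 ≤ ‖z‖ → b z = 0) ∧
      Dom 15 G d1 d2 Eo M1 M2 M3 ∧ (∀ w, Wc w → |∫ z, b z * T12 w z| ≤ C₀) ∧
      c₀ * Real.sqrt ((N : ℝ) + 3) ≤ ∫ z, b z * d 0 (d 2 Eo) z := by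
    intro N
    obtain ⟨b, G, d1, d2, Eo, M1, M2, M3, h1, h2, h3, h4, h5⟩ := hpk (N + 3) (by omega)
    refine ⟨b, G, d1, d2, Eo, M1, M2, M3, h1, h2, h3, h4, ?_⟩
    push_cast at h5
    exact h5
  choose b G d1 d2 Eo M1 M2 M3 hb hb1 hD hup hpay using hpk'
  have hsm1 : ∀ N, SmE (fun y : E (k + 4) => ζa y * Eo N (pr y)) := by
    intro N
    exact hc3.sma.mul (((hPRJ k).2.2.2 (Eo N) (hD N).smE).1)
  have hsm2 : SmE (fun y : E (k + 4) => ζb y * (y 1 * y 3)) := by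
    refine hc3.smb.mul ?_
    have h1 : ∀ i : Fin (k + 4), ContDiff ℝ ((⊤ : ℕ∞) : WithTop ℕ∞) fun y : E (k + 4) => y i :=
      fun i => (EuclideanSpace.proj (𝕜 := ℝ) i).contDiff
    exact (h1 1).mul (h1 3)
  have hz : ∀ N, ∀ x : E (k + 4), 7 / 2 ≤ ‖x‖ →
      ζa x * Eo N (pr x) = 0 ∧ ζb x * (x 1 * x 3) = 0 := by
    intro N x hx
    rw [hc3.outa x (by linarith), hc3.outb x hx]
    simp
  have hS : ∀ N : ℕ, ∃ s t : ℝ, 0 < s ∧ 0 < t ∧
      (∀ i j, Lc 1 (1 / 300) (pm s t (fun y : E (k + 4) => ζa y * Eo N (pr y))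
        (fun y : E (k + 4) => ζb y * (y 1 * y 3)) i j)) ∧
      ∃ L : Fin 2 → Fin 2 → ConvexBody (E (k + 4 + 1)), ∀ i j,
        IsLf 1 (pm s t (fun y : E (k + 4) => ζa y * Eo N (pr y))
          (fun y : E (k + 4) => ζb y * (y 1 * y 3)) i j) (L i j) := fun N =>
    hLFS (k + 4) _ _ (by omega) (hsm1 N) hsm2 (hz N)
  choose s t hs ht hLc L hL using hS
  have hcs : ∀ N, HasCompactSupport (b N) := fun N => hcs_of (hb1 N)
  have hval : ∀ N, IsVal (k + 4 + 1) 2 (mu (k := k) (b N)) := fun N =>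
    hMU1 k (b N) (hb N) (hcs N)
  have hbd : ∀ N, ∀ K : ConvexBody (E (k + 4 + 1)), (K : Set (E (k + 4 + 1))) ⊆ closedBall 0 1 →
      ‖mu (b N) K‖ ≤ C₀ := fun N => hMU2 k (b N) C₀ (hb N) (hcs N) (hup N)
  -- the bodies are bounded
  have hrad : ∀ N, ∃ r : ℝ, 0 < r ∧ ∀ i j, (L N i j : Set (E (k + 4 + 1))) ⊆ closedBall 0 r := by
    intro N
    have h1 : ∀ i j, ∃ r : ℝ, 0 < r ∧ (L N i j : Set (E (k + 4 + 1))) ⊆ closedBall 0 r := by
      intro i j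
      obtain ⟨r, hr⟩ := (L N i j).isBounded.subset_closedBall 0
      exact ⟨max r 1, lt_max_of_lt_right one_pos,
        hr.trans (closedBall_subset_closedBall (le_max_left _ _))⟩
    choose r hr hr' using h1
    refine ⟨r 0 0 + r 0 1 + r 1 0 + r 1 1, by
      linarith [hr 0 0, hr 0 1, hr 1 0, hr 1 1], ?_⟩
    intro i j
    refine (hr' i j).trans (closedBall_subset_closedBall ?_)
    have a := hr 0 0
    have b := hr 0 1
    have c := hr 1 0
    have d := hr 1 1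
    fin_cases i <;> fin_cases j <;> simp <;> linarith
  choose r hr hr' using hrad
  have hC0 : 0 ≤ C₀ := by
    refine le_trans (norm_nonneg _) (hbd 0 0 ?_)
    intro x hx
    have : x = 0 := by simpa using hx
    rw [this]
    simp
  -- the matrix
  obtain ⟨C, hC⟩ := hGLH (fun N M => Th (mu (b M)) (L N) / ((s N : ℂ) * (t N : ℂ)))
    (fun N => 4 * (r N ^ 2 * C₀) / (s N * t N)) (by
      intro N M
      have hst : 0 < s N * t N := mul_pos (hs N) (ht N)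
      have h1 : ‖Th (mu (b M)) (L N)‖ ≤ 4 * (r N ^ 2 * C₀) :=
        FIN_th_le _ _ _ fun i j => hVBR _ _ C₀ (hval M) (hbd M) (r N) (hr N) _ (hr' N i j)
      have h2 : ‖((s N : ℂ) * (t N : ℂ))‖ = s N * t N := by
        rw [← Complex.ofReal_mul, Complex.norm_real, Real.norm_of_nonneg hst.le]
      rw [norm_div, h2]
      exact div_le_div_of_nonneg_right h1 hst.le) (by
      intro a ha
      obtain ⟨hsum, hV⟩ := hVSM (k + 4 + 1) (fun N => mu (b N)) C₀ hval hbd a ha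
      obtain ⟨Ψ, hΨ, hΨe⟩ := hcon _ hV
      obtain ⟨C', hC', hPB⟩ := hPBE (k + 4) 2 Ψ hΨ
      refine ⟨8 * (Cd * C'), ?_⟩
      intro N
      have hst : 0 < s N * t N := mul_pos (hs N) (ht N)
      have hstc : ((s N : ℂ) * (t N : ℂ)) ≠ 0 := by
        rw [← Complex.ofReal_mul]
        exact_mod_cast hst.ne'
      have e1 : Th (fun K => ∑' M, a M * mu (b M) K) (L N) = ∑' M, a M * Th (mu (b M)) (L N) := by
        unfold Th
        rw [← (hsum (L N 0 0)).tsum_sub (hsum (L N 0 1)),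
          ← ((hsum (L N 0 0)).sub (hsum (L N 0 1))).tsum_sub (hsum (L N 1 0)),
          ← (((hsum (L N 0 0)).sub (hsum (L N 0 1))).sub (hsum (L N 1 0))).tsum_add
            (hsum (L N 1 1))]
        refine tsum_congr fun M => ?_
        ring
      have e2 : Th (fun K => Ψ K 1) (L N) = Th (fun K => ∑' M, a M * mu (b M) K) (L N) := by
        simp only [Th, hΨe]
      have e3 := hTHP k Ψ hΨ ζa ζb ζc hc3 _ _ (s N) (t N) (1 / 300) (hsm1 N) hsm2 (hz N)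
        (hLc N) (L N) (hL N)
      have e4 := hdom Ψ hΨ C' hPB (G N) (d1 N) (d2 N) (Eo N) (M1 N) (M2 N) (M3 N) (hD N)
      have e5 : ∑' M, a M * (Th (mu (b M)) (L N) / ((s N : ℂ) * (t N : ℂ))) =
          8 * BB Ψ (Hs fun y => ζa y * Eo N (pr y)) (Hs fun y => ζb y * (y 1 * y 3))
            (fun x => (ζc x : ℂ)) := by
        have : ∀ M, a M * (Th (mu (b M)) (L N) / ((s N : ℂ) * (t N : ℂ))) =
            (a M * Th (mu (b M)) (L N)) / ((s N : ℂ) * (t N : ℂ)) := fun M => by ring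
        simp_rw [this]
        rw [tsum_div_const, ← e1, ← e2, e3, div_eq_iff hstc]
        ring
      rw [e5, norm_mul]
      have : ‖(8 : ℂ)‖ = 8 := by simp
      rw [this]
      exact mul_le_mul_of_nonneg_left e4 (by norm_num))
  -- contradiction
  have h1 : ∀ N : ℕ, 4 * (c₀ * Real.sqrt ((N : ℝ) + 3)) ≤ C := by
    intro N
    have hst : 0 < s N * t N := mul_pos (hs N) (ht N)
    have e1 := hTHM k ζa ζb ζc hc3 (b N) (Eo N) (s N) (t N) (hb N) (hD N).smE (hb1 N) (L N) (hL N)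
    have e2 := hC N
    rw [e1, norm_div] at e2
    have h2 : ‖((s N : ℂ) * (t N : ℂ))‖ = s N * t N := by
      rw [← Complex.ofReal_mul, Complex.norm_real, Real.norm_of_nonneg hst.le]
    rw [h2, Complex.norm_real, Real.norm_eq_abs, div_le_iff₀ hst] at e2
    have e3 := (le_abs_self _).trans e2
    have e4 := hpay N
    have e5 : 4 * s N * t N * ∫ z, b N z * d 0 (d 2 (Eo N)) z =
        (4 * ∫ z, b N z * d 0 (d 2 (Eo N)) z) * (s N * t N) := by ring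
    rw [e5] at e3
    have e6 := le_of_mul_le_mul_right e3 hst
    linarith
  have h2 : ∀ N : ℕ, Real.sqrt ((N : ℝ) + 3) ≤ C / (4 * c₀) := by
    intro N
    rw [le_div_iff₀ (by positivity)]
    linarith [h1 N]
  obtain ⟨N, hN⟩ := exists_nat_gt ((C / (4 * c₀)) ^ 2)
  have h3 := h2 N
  have h4 : 0 ≤ Real.sqrt ((N : ℝ) + 3) := Real.sqrt_nonneg _
  have h5 : (N : ℝ) + 3 ≤ (C / (4 * c₀)) ^ 2 := by
    have h6 : Real.sqrt ((N : ℝ) + 3) ^ 2 ≤ (C / (4 * c₀)) ^ 2 := by gcongr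
    rwa [Real.sq_sqrt (by positivity)] at h6
  linarith

end Pool.Agent.GNS
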