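import Pool.Agent.GNS.T1

/-!
# GNS: Fubini with a kernel
-/

set_option autoImplicit false

open Metric Set Filter Topology MeasureTheory

noncomputable section

namespace Pool.Agent.GNS

theorem FUB_ker_supp {r : ℝ} {ρ : V → ℝ} (hK : Ker r ρ) : HasCompactSupport ρ := by
  refine HasCompactSupport.intro (isCompact_closedBall (0 : V) r) fun z hz => hK.out z ?_
  rw [mem_closedBall, dist_zero_right, not_le] at hz
  exact hz.le

theorem FUB_ker_int {r : ℝ} {ρ : V → ℝ} (hK : Ker r ρ) : Integrable ρ :=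
  hK.sm.cont.integrable_of_hasCompactSupport (FUB_ker_supp hK)

theorem FUB_supp {r : ℝ} {ρ W f : V → ℝ} (hK : Ker r ρ) (hcW : HasCompactSupport W) :
    HasCompactSupport (fun p : V × V => W p.1 * (ρ (p.1 - p.2) * f p.2)) := by
  obtain ⟨R, hR⟩ := hcW.isCompact.isBounded.subset_closedBall (0 : V)
  refine HasCompactSupport.intro
    ((isCompact_closedBall (0 : V) R).prod (isCompact_closedBall (0 : V) (R + r))) ?_
  rintro ⟨z, ζ⟩ hp
  rw [mem_prod, not_and_or] at hp
  simp only
  by_cases hz : z ∈ closedBall (0 : V) R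
  · have hζ : ζ ∉ closedBall (0 : V) (R + r) := by
      rcases hp with h | h
      · exact absurd hz h
      · exact h
    rw [mem_closedBall, dist_zero_right] at hz
    rw [mem_closedBall, dist_zero_right, not_le] at hζ
    have h1 : r ≤ ‖z - ζ‖ := by
      have h2 : ‖ζ‖ ≤ ‖z‖ + ‖z - ζ‖ := by
        have h3 := norm_sub_le z (z - ζ)
        rwa [sub_sub_cancel] at h3
      linarith
    rw [hK.out _ h1]
    ring
  · have h1 : W z = 0 := by
      by_contra hne
      exact hz (hR (subset_tsupport W hne))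
    rw [h1]
    ring

theorem p_FUB : T_FUB := by
  intro r ρ W W' f hK hW hW' hf hcW hcW' hW0 hf0 hWW
  have hρc : Continuous ρ := hK.sm.cont
  have hGc : Continuous (fun p : V × V => W p.1 * (ρ (p.1 - p.2) * f p.2)) :=
    (hW.comp continuous_fst).mul
      ((hρc.comp (continuous_fst.sub continuous_snd)).mul (hf.comp continuous_snd))
  have hGi : Integrable (fun p : V × V => W p.1 * (ρ (p.1 - p.2) * f p.2))
      ((volume : Measure V).prod (volume : Measure V)) :=
    hGc.integrable_of_hasCompactSupport (FUB_supp hK hcW)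
  have e1 : ∫ z, W z * cv ρ f z = ∫ z, ∫ ζ, W z * (ρ (z - ζ) * f ζ) := by
    refine integral_congr_ae (Eventually.of_forall fun z => ?_)
    simp only [cv]
    rw [integral_const_mul]
  have e2 : ∫ z, ∫ ζ, W z * (ρ (z - ζ) * f ζ) = ∫ ζ, ∫ z, W z * (ρ (z - ζ) * f ζ) :=
    integral_integral_swap hGi
  rw [e1, e2]
  refine integral_mono hGi.integral_prod_right
    ((hW'.mul hf).integrable_of_hasCompactSupport hcW'.mul_right) fun ζ => ?_
  simp only
  have h1 : Integrable (fun z => W z * (ρ (z - ζ) * f ζ)) :=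
    (hW.mul ((hρc.comp (continuous_id.sub continuous_const)).mul
      continuous_const)).integrable_of_hasCompactSupport hcW.mul_right
  have h2 : Integrable (fun z => W' ζ * f ζ * ρ (z - ζ)) :=
    ((FUB_ker_int hK).comp_sub_right ζ).const_mul _
  have h3 : ∫ z, W z * (ρ (z - ζ) * f ζ) ≤ ∫ z, W' ζ * f ζ * ρ (z - ζ) := by
    refine integral_mono h1 h2 fun z => ?_
    simp only
    rcases le_total r ‖z - ζ‖ with h | h
    · rw [hK.out _ h]
      simp
    · have h4 := hWW z ζ h
      have h5 : 0 ≤ ρ (z - ζ) * f ζ := mul_nonneg (hK.nn _) (hf0 _)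
      calc W z * (ρ (z - ζ) * f ζ) ≤ W' ζ * (ρ (z - ζ) * f ζ) :=
            mul_le_mul_of_nonneg_right h4 h5
        _ = W' ζ * f ζ * ρ (z - ζ) := by ring
  have h4 : ∫ z, W' ζ * f ζ * ρ (z - ζ) = W' ζ * f ζ := by
    rw [integral_const_mul, integral_sub_right_eq_self ρ ζ, hK.int, mul_one]
  exact h3.trans h4.le

end Pool.Agent.GNS
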