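import Pool.Agent.GNS.T4

/-!
# GNS: convergence of gradients of convex functions (`T_GCV`)
-/

set_option autoImplicit false

open Metric Set Filter Topology MeasureTheory

noncomputable section

namespace Pool.Agent.GNS

open Pool.Agent.GLB

namespace GCV_

theorem line {f : V → ℝ} {z : V} (hf : DifferentiableAt ℝ f z) (v : V) :
    HasDerivAt (fun s : ℝ => f (z + s • v)) (fderiv ℝ f z v) 0 := by
  have h1 : HasDerivAt (fun s : ℝ => z + s • v) v 0 := by
    have := ((hasDerivAt_id (0 : ℝ)).smul_const v).const_add z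
    simpa using this
  have h2 : HasFDerivAt f (fderiv ℝ f z) (z + (0 : ℝ) • v) := by
    rw [zero_smul, add_zero]
    exact hf.hasFDerivAt
  exact h2.comp_hasDerivAt 0 h1

theorem cvx {f : V → ℝ} (hf : ConvexOn ℝ univ f) (z v : V) :
    ConvexOn ℝ univ fun s : ℝ => f (z + s • v) := by
  refine ⟨convex_univ, ?_⟩
  intro x _ y _ a b ha hb hab
  have h1 := hf.2 (mem_univ (z + x • v)) (mem_univ (z + y • v)) ha hb hab
  have h2 : z + (a • x + b • y) • v = a • (z + x • v) + b • (z + y • v) := by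
    have h3 : z = a • z + b • z := by rw [← add_smul, hab, one_smul]
    conv_lhs => rw [h3]
    simp only [smul_add, add_smul, smul_smul, smul_eq_mul]
    abel
  show f (z + (a • x + b • y) • v) ≤ _
  rw [h2]
  exact h1

theorem upp {f : V → ℝ} (hf : ConvexOn ℝ univ f) {z : V} (hd : DifferentiableAt ℝ f z) (v : V)
    {t : ℝ} (ht : 0 < t) : fderiv ℝ f z v ≤ (f (z + t • v) - f z) / t := by
  have h := (cvx hf z v).le_slope_of_hasDerivAt (mem_univ 0) (mem_univ t) ht (line hd v)
  rw [slope_def_field] at h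
  simpa using h

theorem lo {f : V → ℝ} (hf : ConvexOn ℝ univ f) {z : V} (hd : DifferentiableAt ℝ f z) (v : V)
    {t : ℝ} (ht : t < 0) : (f (z + t • v) - f z) / t ≤ fderiv ℝ f z v := by
  have h := (cvx hf z v).slope_le_of_hasDerivAt (mem_univ t) (mem_univ 0) ht (line hd v)
  rw [slope_def_field] at h
  have h2 : (f (z + (0 : ℝ) • v) - f (z + t • v)) / (0 - t) = (f (z + t • v) - f z) / t := by
    rw [zero_smul, add_zero, ← neg_div_neg_eq]
    congr 1 <;> ring
  rw [h2] at h
  exact h

theorem lim {g : V → ℝ} {z : V} (hd : DifferentiableAt ℝ g z) (v : V) :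
    Tendsto (fun t : ℝ => (g (z + t • v) - g z) / t) (𝓝[≠] 0) (𝓝 (fderiv ℝ g z v)) := by
  have h := (line hd v)
  rw [hasDerivAt_iff_tendsto_slope] at h
  refine h.congr' (Eventually.of_forall fun t => ?_)
  rw [slope_def_field]
  simp

end GCV_

open GCV_ in
theorem p_GCV : T_GCV := by
  intro f g z hf hlim hg hd i
  have hq : ∀ t : ℝ, Tendsto (fun n => (f n (z + t • e i) - f n z) / t) atTop
      (𝓝 ((g (z + t • e i) - g z) / t)) := fun t => ((hlim _).sub (hlim _)).div_const t
  have hl := lim hg (e i)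
  rw [tendsto_order]
  constructor
  · intro a ha
    have h1 : Tendsto (fun t : ℝ => (g (z + t • e i) - g z) / t) (𝓝[<] 0)
        (𝓝 (fderiv ℝ g z (e i))) :=
      hl.mono_left (nhdsWithin_mono _ fun t (ht : t < 0) => ht.ne)
    have h2 : ∀ᶠ t in 𝓝[<] (0 : ℝ), a < (g (z + t • e i) - g z) / t :=
      h1.eventually (lt_mem_nhds ha)
    obtain ⟨t, ht1, ht2⟩ := (h2.and self_mem_nhdsWithin).exists
    have ht3 : t < 0 := ht2
    filter_upwards [(hq t).eventually (lt_mem_nhds ht1)] with n hn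
    exact hn.trans_le (lo (hf n) (hd n) (e i) ht3)
  · intro a ha
    have h1 : Tendsto (fun t : ℝ => (g (z + t • e i) - g z) / t) (𝓝[>] 0)
        (𝓝 (fderiv ℝ g z (e i))) :=
      hl.mono_left (nhdsWithin_mono _ fun t (ht : 0 < t) => ht.ne')
    have h2 : ∀ᶠ t in 𝓝[>] (0 : ℝ), (g (z + t • e i) - g z) / t < a :=
      h1.eventually (gt_mem_nhds ha)
    obtain ⟨t, ht1, ht2⟩ := (h2.and self_mem_nhdsWithin).exists
    have ht3 : 0 < t := ht2
    filter_upwards [(hq t).eventually (gt_mem_nhds ht1)] with n hn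
    exact (upp (hf n) (hd n) (e i) ht3).trans_lt hn

end Pool.Agent.GNS
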