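import Pool.Agent.GNS.T4

/-!
# GNS: gliding hump (uniform boundedness on summable sequences)
-/

set_option autoImplicit false

open Metric Set Filter Topology MeasureTheory

noncomputable section

namespace Pool.Agent.GNS

open Pool.Agent.GLB

namespace GLH_

/-- summable sequences -/
abbrev L1 : Type := lp (fun _ : ℕ => ℂ) 1

theorem one_pos' : 0 < (1 : ENNReal).toReal := by simp

theorem l1_sum (a : L1) : Summable fun M => ‖a M‖ := by
  have h := (lp.memℓp a).summable one_pos'
  simpa using h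

theorem l1_norm (a : L1) : ‖a‖ = ∑' M, ‖a M‖ := by
  have h := lp.norm_eq_tsum_rpow one_pos' a
  simpa using h

theorem sm (c : ℕ → ℂ) (B : ℝ) (hB : ∀ M, ‖c M‖ ≤ B) (a : L1) :
    Summable fun M => a M * c M := by
  refine Summable.of_norm_bounded ((l1_sum a).mul_right B) fun M => ?_
  rw [norm_mul]
  exact mul_le_mul_of_nonneg_left (hB M) (norm_nonneg _)

/-- the functional -/
def T (c : ℕ → ℂ) (B : ℝ) (hB : ∀ M, ‖c M‖ ≤ B) : L1 →L[ℂ] ℂ :=
  LinearMap.mkContinuous
    { toFun := fun a => ∑' M, a M * c M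
      map_add' := by
        intro a b
        rw [← (sm c B hB a).tsum_add (sm c B hB b)]
        refine tsum_congr fun M => ?_
        rw [lp.coeFn_add, Pi.add_apply, add_mul]
      map_smul' := by
        intro r a
        rw [RingHom.id_apply, smul_eq_mul, ← tsum_mul_left]
        refine tsum_congr fun M => ?_
        rw [lp.coeFn_smul, Pi.smul_apply, smul_eq_mul, mul_assoc] } B (by
      intro a
      have h1 : ∀ M, ‖a M * c M‖ ≤ ‖a M‖ * B := fun M => by
        rw [norm_mul]
        exact mul_le_mul_of_nonneg_left (hB M) (norm_nonneg _)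
      have h2 : Summable fun M => ‖a M‖ * B := (l1_sum a).mul_right B
      have h3 : ‖∑' M, a M * c M‖ ≤ ∑' M, ‖a M‖ * B :=
        tsum_of_norm_bounded h2.hasSum h1
      rw [tsum_mul_right, ← l1_norm, mul_comm] at h3
      exact h3)

theorem T_apply (c : ℕ → ℂ) (B : ℝ) (hB : ∀ M, ‖c M‖ ≤ B) (a : L1) :
    T c B hB a = ∑' M, a M * c M := rfl

end GLH_

open GLH_ in
theorem p_GLH : T_GLH := by
  intro c B hB h
  have h1 : ∀ a : L1, ∃ C, ∀ N, ‖T (c N) (B N) (hB N) a‖ ≤ C := by
    intro a
    obtain ⟨C, hC⟩ := h (fun M => a M) (l1_sum a)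
    exact ⟨C, fun N => by rw [T_apply]; exact hC N⟩
  obtain ⟨C, hC⟩ := banach_steinhaus h1
  refine ⟨C, fun N => ?_⟩
  have h2 : T (c N) (B N) (hB N) (lp.single 1 N (1 : ℂ)) = c N N := by
    rw [T_apply, tsum_eq_single N]
    · rw [lp.single_apply_self, one_mul]
    · intro M hM
      rw [lp.single_apply_ne (E := fun _ : ℕ => ℂ) 1 N (1 : ℂ) hM, zero_mul]
  have h3 := (T (c N) (B N) (hB N)).le_opNorm (lp.single 1 N (1 : ℂ))
  rw [h2, lp.norm_single (by simp), norm_one, mul_one] at h3
  exact h3.trans (hC N)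

end Pool.Agent.GNS
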