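import Pool.Agent.GNS.T1

/-!
# GNS: target GRD
-/

set_option autoImplicit false

open Metric Set Filter Topology MeasureTheory

noncomputable section

namespace Pool.Agent.GNS

namespace GRD_

/-- the bump function -/
def bmp : ContDiffBump (0 : V) := ⟨3, 4, by norm_num, by norm_num⟩

theorem d_out {χ : V → ℝ} (out : ∀ z, 4 ≤ ‖z‖ → χ z = 0) (i : Fin 4) (z : V)
    (hz : 4 < ‖z‖) : d i χ z = 0 := by
  have h1 : χ =ᶠ[𝓝 z] fun _ => 0 := by
    have h2 : ∀ᶠ y : V in 𝓝 z, 4 < ‖y‖ :=
      (isOpen_lt continuous_const continuous_norm).mem_nhds hz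
    filter_upwards [h2] with y hy
    exact out y hy.le
  rw [d_congr h1, d_const]

/-- the second derivatives are bounded in the mean -/
theorem sec {χ w : V → ℝ} (sχ : Sm χ) (sw : Sm w)
    (out : ∀ z, 4 ≤ ‖z‖ → χ z = 0) (bw : ∀ z, ‖z‖ ≤ 4 → ∀ i, |d i w z| ≤ 10) (i : Fin 4) :
    ∫ z, χ z * d i (d i w) z ≤ 10 * ∫ z, |d i χ z| := by
  have hc : HasCompactSupport χ := hcs_of out
  have h1 := d_ibp (sw.d i) sχ hc i
  have h2 : ∫ z, χ z * d i (d i w) z = ∫ z, d i (d i w) z * χ z := by
    congr 1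
    funext z
    ring
  rw [h2, h1, ← integral_neg, ← integral_const_mul]
  have hcd := hcs_d hc i
  apply integral_mono
  · exact (int_of ((sw.d i).cont.mul (sχ.d i).cont) hcd.mul_left).neg
  · exact (int_of (sχ.d i).cont.abs (hcd.comp_left (g := fun x : ℝ => |x|) (by simp))).const_mul _
  · intro z
    simp only
    by_cases hz : ‖z‖ ≤ 4
    · have h3 := bw z hz i
      have h4 : |d i w z * d i χ z| ≤ 10 * |d i χ z| := by
        rw [abs_mul]
        exact mul_le_mul_of_nonneg_right h3 (abs_nonneg _)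
      exact (neg_le_abs _).trans h4
    · rw [d_out out i z (not_le.1 hz)]
      simp

theorem sq {χ w w' : V → ℝ} (hPS2 : T_PS2) (sχ : Sm χ) (nn : ∀ z, 0 ≤ χ z) (sw : Sm w)
    (sw' : Sm w') (cw : ConvexOn ℝ univ w) (cw' : ConvexOn ℝ univ w')
    (out : ∀ z, 4 ≤ ‖z‖ → χ z = 0)
    (bw : ∀ z, ‖z‖ ≤ 4 → ∀ i, |d i w z| ≤ 10 ∧ |d i w' z| ≤ 10) (ε : ℝ) (hε : 0 ≤ ε)
    (hu : ∀ z, ‖z‖ ≤ 4 → |w z - w' z| ≤ ε) (i : Fin 4) :
    ∫ z, χ z * (d i w z - d i w' z) ^ 2 ≤ 40 * ε * ∫ z, |d i χ z| := by
  have hc : HasCompactSupport χ := hcs_of out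
  have hcd := hcs_d hc i
  have su : Sm fun z => w z - w' z := sw.sub sw'
  have sui : Sm fun z => d i w z - d i w' z := (sw.d i).sub (sw'.d i)
  have eui : d i (fun z => w z - w' z) = fun z => d i w z - d i w' z :=
    funext fun z => d_sub sw sw' i z
  have sg : Sm fun z => χ z * (d i w z - d i w' z) := sχ.mul sui
  have hcg : HasCompactSupport fun z => χ z * (d i w z - d i w' z) := hc.mul_right
  have h1 := d_ibp su sg hcg i
  have h2 : ∀ z, d i (fun z => χ z * (d i w z - d i w' z)) z =
      d i χ z * (d i w z - d i w' z) + χ z * (d i (d i w) z - d i (d i w') z) := by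
    intro z
    rw [d_mul sχ sui, d_sub (sw.d i) (sw'.d i)]
  have h3 : ∫ z, χ z * (d i w z - d i w' z) ^ 2 =
      ∫ z, d i (fun z => w z - w' z) z * (χ z * (d i w z - d i w' z)) := by
    congr 1
    funext z
    rw [eui]
    ring
  have iχi : Integrable fun z => |d i χ z| :=
    int_of (sχ.d i).cont.abs (hcd.comp_left (g := fun x : ℝ => |x|) (by simp))
  have i1 : Integrable fun z => χ z * d i (d i w) z :=
    int_of (sχ.cont.mul ((sw.d i).d i).cont) hc.mul_right
  have i2 : Integrable fun z => χ z * d i (d i w') z :=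
    int_of (sχ.cont.mul ((sw'.d i).d i).cont) hc.mul_right
  have h4 : ∫ z, χ z * (d i w z - d i w' z) ^ 2 ≤
      ∫ z, ε * (20 * |d i χ z| + (χ z * d i (d i w) z + χ z * d i (d i w') z)) := by
    rw [h3, h1, ← integral_neg]
    apply integral_mono
    · have : Integrable fun z => (w z - w' z) * d i (fun z => χ z * (d i w z - d i w' z)) z :=
        int_of (su.cont.mul (sg.d i).cont) (hcs_d hcg i).mul_left
      exact this.neg
    · exact ((iχi.const_mul 20).add (i1.add i2)).const_mul ε
    · intro z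
      simp only
      rw [h2]
      by_cases hz : ‖z‖ ≤ 4
      · have a1 := hu z hz
        have a2 := (bw z hz i).1
        have a3 := (bw z hz i).2
        have a4 := (hPS2 w sw cw z i i).1
        have a5 := (hPS2 w' sw' cw' z i i).1
        have a6 := nn z
        have b1 : |d i w z - d i w' z| ≤ 20 := by
          have := abs_sub (d i w z) (d i w' z)
          linarith
        have b2 : |d i (d i w) z - d i (d i w') z| ≤ d i (d i w) z + d i (d i w') z := by
          rw [abs_le]
          constructor <;> linarith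
        have b3 : |d i χ z * (d i w z - d i w' z) + χ z * (d i (d i w) z - d i (d i w') z)| ≤
            20 * |d i χ z| + (χ z * d i (d i w) z + χ z * d i (d i w') z) := by
          refine (abs_add_le _ _).trans ?_
          rw [abs_mul, abs_mul, abs_of_nonneg a6]
          have c1 := mul_le_mul_of_nonneg_left b1 (abs_nonneg (d i χ z))
          have c2 := mul_le_mul_of_nonneg_left b2 a6
          linarith
        refine (neg_le_abs _).trans ?_
        rw [abs_mul]
        exact mul_le_mul a1 b3 (abs_nonneg _) hε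
      · have hz' := not_le.1 hz
        rw [d_out out i z hz', out z hz'.le]
        simp
  refine h4.trans ?_
  have h5 : ∫ z, (χ z * d i (d i w) z + χ z * d i (d i w') z) =
      (∫ z, χ z * d i (d i w) z) + ∫ z, χ z * d i (d i w') z := integral_add i1 i2
  have h5' : ∫ z, (20 * |d i χ z| + (χ z * d i (d i w) z + χ z * d i (d i w') z)) =
      (∫ z, 20 * |d i χ z|) + ∫ z, (χ z * d i (d i w) z + χ z * d i (d i w') z) :=
    integral_add (iχi.const_mul 20) (i1.add i2)
  rw [integral_const_mul, h5', integral_const_mul, h5]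
  have h6 := sec sχ sw out (fun z hz i => (bw z hz i).1) i
  have h7 := sec sχ sw' out (fun z hz i => (bw z hz i).2) i
  have h8 : ε * (20 * (∫ z, |d i χ z|) + ((∫ z, χ z * d i (d i w) z) +
      ∫ z, χ z * d i (d i w') z)) ≤ ε * (40 * ∫ z, |d i χ z|) :=
    mul_le_mul_of_nonneg_left (by linarith) hε
  linarith

end GRD_

open GRD_ in
theorem p_GRD (hPS2 : T_PS2) : T_GRD := by
  obtain ⟨χ, sχ, nn, one, out⟩ : ∃ χ : V → ℝ, Sm χ ∧ (∀ z, 0 ≤ χ z) ∧
      (∀ z, ‖z‖ ≤ 3 → χ z = 1) ∧ (∀ z, 4 ≤ ‖z‖ → χ z = 0) := by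
    refine ⟨fun z => bmp z, bmp.contDiff, fun z => bmp.nonneg, ?_, ?_⟩
    · intro z hz
      apply bmp.one_of_mem_closedBall
      rw [mem_closedBall, dist_zero_right]
      exact hz
    · intro z hz
      apply bmp.zero_of_le_dist
      rw [dist_zero_right]
      exact hz
  have hc : HasCompactSupport χ := hcs_of out
  set Vl : ℝ := (volume : Measure V).real (closedBall (0 : V) 3) with hVl
  have hV0 : 0 ≤ Vl := measureReal_nonneg
  set K : ℝ := ∑ i, ∫ z, |d i χ z| with hK
  have hKi : ∀ i, ∫ z, |d i χ z| ≤ K := fun i =>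
    Finset.single_le_sum (f := fun i => ∫ z, |d i χ z|)
      (fun j _ => integral_nonneg fun z => abs_nonneg _) (Finset.mem_univ i)
  have hK0 : 0 ≤ K := Finset.sum_nonneg fun j _ => integral_nonneg fun z => abs_nonneg _
  refine ⟨Vl / 2 + 20 * K, by positivity, ?_⟩
  intro w w' sw sw' cw cw' bw ε hε hu i
  have h1 := sq hPS2 sχ nn sw sw' cw cw' out bw ε hε hu i
  have sui : Sm fun z => d i w z - d i w' z := (sw.d i).sub (sw'.d i)
  have iq : Integrable fun z => χ z * (d i w z - d i w' z) ^ 2 :=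
    int_of (sχ.cont.mul (sui.cont.pow 2)) hc.mul_right
  have h2 : ∀ l : ℝ, 0 < l → ∫ z in closedBall (0 : V) 3, |d i w z - d i w' z| ≤
      l * (Vl / 2) + (20 * K * ε) / l := by
    intro l hl
    have hfin : (volume : Measure V) (closedBall (0 : V) 3) ≠ ⊤ :=
      (isCompact_closedBall (0 : V) 3).measure_lt_top.ne
    have ia : IntegrableOn (fun z => |d i w z - d i w' z|) (closedBall (0 : V) 3) :=
      sui.cont.abs.continuousOn.integrableOn_compact (isCompact_closedBall _ _)
    have ic : IntegrableOn (fun _ : V => l / 2) (closedBall (0 : V) 3) :=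
      integrableOn_const hfin
    have ib : IntegrableOn (fun z => 1 / (2 * l) * (χ z * (d i w z - d i w' z) ^ 2))
        (closedBall (0 : V) 3) := (iq.const_mul _).integrableOn
    have h3 : ∫ z in closedBall (0 : V) 3, |d i w z - d i w' z| ≤
        ∫ z in closedBall (0 : V) 3,
          (l / 2 + 1 / (2 * l) * (χ z * (d i w z - d i w' z) ^ 2)) := by
      apply setIntegral_mono_on ia (ic.add ib) isClosed_closedBall.measurableSet
      intro z hz
      rw [mem_closedBall, dist_zero_right] at hz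
      change |d i w z - d i w' z| ≤ l / 2 + 1 / (2 * l) * (χ z * (d i w z - d i w' z) ^ 2)
      rw [one z hz, one_mul]
      have h4 : 0 ≤ (|d i w z - d i w' z| - l) ^ 2 := sq_nonneg _
      have h5 : |d i w z - d i w' z| ^ 2 = (d i w z - d i w' z) ^ 2 := sq_abs _
      have h6 : |d i w z - d i w' z| * (2 * l) ≤ l ^ 2 + (d i w z - d i w' z) ^ 2 := by
        rw [← h5]
        linarith [h4]
      have h7 : |d i w z - d i w' z| ≤ (l ^ 2 + (d i w z - d i w' z) ^ 2) / (2 * l) := by
        rw [le_div_iff₀ (by positivity)]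
        exact h6
      refine h7.trans (le_of_eq ?_)
      field_simp
    refine h3.trans ?_
    have h8 : ∫ z in closedBall (0 : V) 3,
          (l / 2 + 1 / (2 * l) * (χ z * (d i w z - d i w' z) ^ 2)) =
        (∫ z in closedBall (0 : V) 3, l / 2) + ∫ z in closedBall (0 : V) 3,
          1 / (2 * l) * (χ z * (d i w z - d i w' z) ^ 2) := integral_add ic ib
    rw [h8, setIntegral_const, integral_const_mul, smul_eq_mul]
    have h9 : ∫ z in closedBall (0 : V) 3, χ z * (d i w z - d i w' z) ^ 2 ≤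
        ∫ z, χ z * (d i w z - d i w' z) ^ 2 :=
      setIntegral_le_integral iq (Eventually.of_forall fun z =>
        mul_nonneg (nn z) (sq_nonneg _))
    have h10 : ∫ z in closedBall (0 : V) 3, χ z * (d i w z - d i w' z) ^ 2 ≤
        40 * ε * K := by
      refine h9.trans (h1.trans ?_)
      exact mul_le_mul_of_nonneg_left (hKi i) (by positivity)
    have h11 : 1 / (2 * l) * (∫ z in closedBall (0 : V) 3, χ z * (d i w z - d i w' z) ^ 2) ≤
        1 / (2 * l) * (40 * ε * K) := mul_le_mul_of_nonneg_left h10 (by positivity)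
    have h12 : 1 / (2 * l) * (40 * ε * K) = (20 * K * ε) / l := by
      field_simp
      ring
    rw [← hVl]
    linarith
  rcases hε.eq_or_lt with h0 | h0
  · rw [← h0] at h2 ⊢
    rw [Real.sqrt_zero, mul_zero]
    apply le_of_forall_pos_le_add
    intro δ hδ
    have hpos : 0 < δ / (Vl / 2 + 1) := by positivity
    have h3 := h2 (δ / (Vl / 2 + 1)) hpos
    rw [mul_zero, zero_div, add_zero] at h3
    refine h3.trans ?_
    rw [zero_add, div_mul_eq_mul_div, div_le_iff₀ (by positivity)]
    nlinarith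
  · have h3 := h2 (Real.sqrt ε) (Real.sqrt_pos.2 h0)
    refine h3.trans (le_of_eq ?_)
    have h4 : Real.sqrt ε * Real.sqrt ε = ε := Real.mul_self_sqrt hε
    have h5 : (20 * K * ε) / Real.sqrt ε = 20 * K * Real.sqrt ε := by
      rw [div_eq_iff (Real.sqrt_pos.2 h0).ne', mul_assoc (20 * K), h4]
    rw [h5]
    ring

end Pool.Agent.GNS
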