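import Pool.Agent.GNS.T3

/-!
# GNS: target HAT, functions in the chart
-/

set_option autoImplicit false

open Metric Set Filter Topology MeasureTheory

noncomputable section

namespace Pool.Agent.GNS

open Pool.Agent.GLB

variable {m : ℕ}

theorem HAT_hgt : Continuous fun v : S (m + 1) => hgt (v : E (m + 1)) := by
  unfold hgt
  fun_prop

theorem HAT_dn {v₀ : S (m + 1)} (h : 0 < hgt (v₀ : E (m + 1))) :
    ContinuousAt (fun v : S (m + 1) => dn (v : E (m + 1))) v₀ := by
  unfold dn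
  have h1 : ContinuousAt (fun v : S (m + 1) => fun i : Fin m =>
      (v : E (m + 1)) i.castSucc / (v : E (m + 1)) (Fin.last m)) v₀ := by
    refine continuousAt_pi.2 fun i => ?_
    refine ContinuousAt.div ?_ ?_ ?_
    · have : Continuous fun v : S (m + 1) => (v : E (m + 1)) i.castSucc := by fun_prop
      exact this.continuousAt
    · have : Continuous fun v : S (m + 1) => (v : E (m + 1)) (Fin.last m) := by fun_prop
      exact this.continuousAt
    · exact ne_of_gt h
  exact ((PiLp.continuous_toLp 2 (fun _ : Fin m => ℝ)).continuousAt).comp h1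

theorem HAT_norm {R : ℝ} {v : E (m + 1)} (hv : ‖v‖ = 1) (h : 0 < hgt v)
    (hR : hgt v < 1 / (1 + |R|)) : R ≤ ‖dn v‖ := by
  have h0 : 0 < 1 + |R| := by positivity
  have h1 : ‖v‖ ^ 2 = (∑ i : Fin m, v i.castSucc ^ 2) + hgt v ^ 2 := by
    rw [EuclideanSpace.real_norm_sq_eq, Fin.sum_univ_castSucc]
    rfl
  have h2 : ‖dn v‖ ^ 2 = (∑ i : Fin m, v i.castSucc ^ 2) / hgt v ^ 2 := by
    rw [EuclideanSpace.real_norm_sq_eq, Finset.sum_div]
    refine Finset.sum_congr rfl fun i _ => ?_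
    unfold dn hgt
    rw [← div_pow]
  have h3 : hgt v * (1 + |R|) < 1 := by
    rwa [lt_div_iff₀ h0] at hR
  have h4 : 0 ≤ |R| := abs_nonneg R
  have h5 : hgt v ^ 2 * (1 + |R| ^ 2) ≤ 1 := by
    have h6 : (hgt v * (1 + |R|)) ^ 2 ≤ 1 := by
      have h7 : 0 ≤ hgt v * (1 + |R|) := by positivity
      nlinarith
    have h8 : 0 ≤ hgt v ^ 2 * (2 * |R|) := by positivity
    nlinarith
  have h9 : |R| ^ 2 ≤ ‖dn v‖ ^ 2 := by
    rw [h2, le_div_iff₀ (by positivity)]
    rw [hv] at h1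
    nlinarith
  calc R ≤ |R| := le_abs_self R
    _ ≤ ‖dn v‖ := by
      exact (sq_le_sq₀ h4 (norm_nonneg _)).1 h9

theorem HAT_cont {R : ℝ} {φ : E m → ℂ} (hφ : Tf R φ) : Continuous (hatf φ) := by
  rw [continuous_iff_continuousAt]
  intro v₀
  by_cases h0 : 0 < hgt (v₀ : E (m + 1))
  · have h1 : ContinuousAt (fun v : S (m + 1) => φ (dn (v : E (m + 1)))) v₀ :=
      ContinuousAt.comp (f := fun v : S (m + 1) => dn (v : E (m + 1))) (g := φ)
        hφ.cont.continuousAt (HAT_dn h0)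
    refine h1.congr ?_
    have h2 : ∀ᶠ v in 𝓝 v₀, 0 < hgt ((v : S (m + 1)) : E (m + 1)) :=
      (HAT_hgt (m := m)).continuousAt.eventually (lt_mem_nhds h0)
    filter_upwards [h2] with v hv
    unfold hatf
    rw [if_pos hv]
  · have hδ : hgt (v₀ : E (m + 1)) < 1 / (1 + |R|) :=
      lt_of_le_of_lt (not_lt.1 h0) (by positivity)
    have h2 : ∀ᶠ v in 𝓝 v₀, hgt ((v : S (m + 1)) : E (m + 1)) < 1 / (1 + |R|) :=
      (HAT_hgt (m := m)).continuousAt.eventually (gt_mem_nhds hδ)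
    have h3 : ∀ᶠ v in 𝓝 v₀, (0 : ℂ) = hatf φ v := by
      filter_upwards [h2] with v hv
      unfold hatf
      split_ifs with h
      · exact (hφ.out _ (HAT_norm (by simp) h hv)).symm
      · rfl
    exact (continuousAt_const (y := (0 : ℂ))).congr h3

theorem HAT_apply {R : ℝ} {φ : E m → ℂ} (hφ : Tf R φ) (v : S (m + 1)) :
    HC φ v = hatf φ v := by
  unfold HC
  rw [dif_pos (HAT_cont hφ)]
  rfl

/-- HAT -/
theorem p_HAT : T_HAT := by
  intro m R φ ψ hφ hψ
  have hadd : Tf R (fun x => φ x + ψ x) :=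
    ⟨hφ.cont.add hψ.cont, fun x hx => by rw [hφ.out x hx, hψ.out x hx, add_zero]⟩
  refine ⟨HAT_cont hφ, HAT_apply hφ, ?_, ?_, ?_⟩
  · ext v
    rw [HAT_apply hadd, ContinuousMap.add_apply, HAT_apply hφ, HAT_apply hψ]
    unfold hatf
    split_ifs
    · rfl
    · rw [add_zero]
  · intro c
    have hc : Tf R (fun x => c * φ x) :=
      ⟨continuous_const.mul hφ.cont, fun x hx => by rw [hφ.out x hx, mul_zero]⟩
    ext v
    rw [HAT_apply hc, ContinuousMap.smul_apply, HAT_apply hφ, smul_eq_mul]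
    unfold hatf
    split_ifs
    · rfl
    · rw [mul_zero]
  · intro M hM hb
    rw [ContinuousMap.norm_le _ hM]
    intro v
    rw [HAT_apply hφ]
    unfold hatf
    split_ifs
    · exact hb _
    · rw [norm_zero]
      exact hM

end Pool.Agent.GNS
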