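import Pool.Agent.GNS.T4

/-!
# GNS: integration by parts for Lipschitz functions (IBL)
-/

set_option autoImplicit false

open Metric Set Filter Topology MeasureTheory

noncomputable section

namespace Pool.Agent.GNS

theorem p_IBL : T_IBL := by
  intro w g R hw hg hc i
  have hlip : LipschitzWith (Real.toNNReal R) w := by
    refine LipschitzWith.of_dist_le_mul fun z z' => ?_
    rw [Real.dist_eq, dist_eq_norm]
    exact (hw z z').trans
      (mul_le_mul_of_nonneg_right (Real.le_coe_toNNReal R) (norm_nonneg _))
  obtain ⟨D, hglip⟩ : ∃ D, LipschitzWith D g :=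
    ContDiff.lipschitzWith_of_hasCompactSupport hc hg.cd (by simp)
  have h1 := hlip.integral_lineDeriv_mul_eq (μ := (volume : Measure V)) hglip hc (e i)
  have h2 : ∫ z, d i w z * g z = ∫ z, lineDeriv ℝ w z (e i) * g z := by
    refine integral_congr_ae ?_
    filter_upwards [hlip.ae_differentiableAt] with z hz
    rw [hz.lineDeriv_eq_fderiv]
    rfl
  rw [h2, h1, ← integral_neg]
  refine integral_congr_ae (Eventually.of_forall fun z => ?_)
  show lineDeriv ℝ g z (-e i) * w z = -(w z * d i g z)
  rw [(hg.dAt z).lineDeriv_eq_fderiv, map_neg]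
  unfold d
  ring

end Pool.Agent.GNS
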