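import Pool.Agent.GNS.T2

/-!
# GNS: the induction
-/

set_option autoImplicit false

open Metric Set Filter Topology MeasureTheory

noncomputable section

namespace Pool.Agent.GNS

namespace IND_

theorem ev3_and {P Q : ℝ → ℝ → ℝ → Prop} (hP : Ev3 P) (hQ : Ev3 Q) :
    Ev3 fun ν h h' => P ν h h' ∧ Q ν h h' := by
  unfold Ev3 at *
  filter_upwards [hP, hQ] with ν h1 h2
  filter_upwards [h1, h2] with h h3 h4
  filter_upwards [h3, h4] with h' h5 h6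
  exact ⟨h5, h6⟩

theorem ev3_pos : Ev3 fun ν h h' => 0 < ν ∧ 0 < h ∧ 0 < h' := by
  unfold Ev3
  filter_upwards [self_mem_nhdsWithin] with ν hν
  filter_upwards [self_mem_nhdsWithin] with h hh
  filter_upwards [self_mem_nhdsWithin] with h' hh'
  exact ⟨hν, hh, hh'⟩

theorem ev3_exists {P : ℝ → ℝ → ℝ → Prop} (hP : Ev3 P) : ∃ ν h h', P ν h h' := by
  unfold Ev3 at hP
  obtain ⟨ν, h1⟩ := hP.exists
  obtain ⟨h, h2⟩ := h1.exists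
  obtain ⟨h', h3⟩ := h2.exists
  exact ⟨ν, h, h', h3⟩

end IND_

theorem p_IND (hSTA : T_STA) (hSTB : T_STB) (hSTC : T_STC) (hSTE : T_STE) (hSTD : T_STD)
    (hSTP : T_STP) (hBAS : T_BAS) : T_IND := by
  intro N θ σ σ2 q3 ϵ m2 c3 C ζ0 ζ1 hPr hN hCt hLI κ hκ
  have key : ∀ j : ℕ, j ≤ N → ∃ s : Stt, InvA j s ∧ InvB N j s ∧ InvC N j κ s ∧ InvE j κ s ∧
      InvD j κ ζ1 s ∧ InvP N j κ ζ0 s := by
    intro j
    induction j with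
    | zero =>
      intro _
      exact ⟨s0, hBAS N κ ζ0 ζ1 hCt hN hκ⟩
    | succ j ih =>
      intro hj
      obtain ⟨s, hA, hB, hC, hE, hD, hP⟩ := ih (by omega)
      have eC := hSTC N θ σ σ2 q3 ϵ m2 c3 C ζ0 hPr hN j κ s hκ hA hC
      have eE := hSTE N θ σ σ2 q3 ϵ m2 c3 C ζ0 hPr hN j κ s hκ hA hE
      have eD := hSTD N θ σ σ2 q3 ϵ m2 c3 C ζ0 ζ1 hPr hN hCt hLI j κ s hκ hA hD
      have eP := hSTP N θ σ σ2 q3 ϵ m2 c3 C ζ0 ζ1 hPr hN hCt j κ s (by omega) hκ hA hP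
      obtain ⟨ν, h, h', ⟨⟨⟨⟨hν, hh, hh'⟩, h1⟩, h2⟩, h3⟩, h4⟩ := IND_.ev3_exists
        (IND_.ev3_and (IND_.ev3_and (IND_.ev3_and (IND_.ev3_and IND_.ev3_pos eC) eE) eD) eP)
      refine ⟨stp N θ σ σ2 m2 ζ0 j ν h h' s, ?_, ?_, h1, h2, h3, h4⟩
      · exact hSTA N θ σ σ2 q3 ϵ m2 c3 C ζ0 ζ1 hPr hCt hN j s hA ν h h' hν hh hh'
      · exact hSTB N θ σ σ2 q3 ϵ m2 c3 C ζ0 hPr hN j s hA hB ν h h'
  exact key N le_rfl

end Pool.Agent.GNS
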