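import Pool.Agent.GNS.T1

/-!
# GNS: proof of `T_JEN`, the Cauchy-Schwarz inequality for the smoothed products
-/

set_option autoImplicit false

open Metric Set Filter Topology MeasureTheory

noncomputable section

namespace Pool.Agent.GNS

namespace JEN_

/-- the shifted kernel vanishes outside a ball -/
theorem shift_out {r : ℝ} {ρ : V → ℝ} (hk : Ker r ρ) (z : V) :
    HasCompactSupport fun ζ => ρ (z - ζ) := by
  apply hcs_of (R := r + ‖z‖)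
  intro ζ hζ
  apply hk.out
  have h1 : ‖ζ‖ ≤ ‖z‖ + ‖z - ζ‖ := by
    have h2 : ζ = z - (z - ζ) := by abel
    calc ‖ζ‖ = ‖z - (z - ζ)‖ := by rw [← h2]
      _ ≤ ‖z‖ + ‖z - ζ‖ := norm_sub_le _ _
  linarith

/-- the shifted kernel times a continuous function is integrable -/
theorem shift_int {r : ℝ} {ρ : V → ℝ} (hk : Ker r ρ) (z : V) {F : V → ℝ} (hF : Continuous F) :
    Integrable fun ζ => ρ (z - ζ) * F ζ :=
  int_of ((hk.sm.cont.comp (continuous_const.sub continuous_id)).mul hF)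
    (shift_out hk z).mul_right

/-- the mass of the shifted kernel -/
theorem shift_mass {r : ℝ} {ρ : V → ℝ} (hk : Ker r ρ) (z : V) : ∫ ζ, ρ (z - ζ) = 1 := by
  rw [integral_sub_left_eq_self (μ := (volume : Measure V)) ρ z]
  exact hk.int

end JEN_

open JEN_ in
theorem p_JEN : T_JEN := by
  intro r ρ g f hk hg hf hg0 hg4 z
  set A : ℝ := cv ρ (fun z => g z * f z) z with hA
  set B : ℝ := cv ρ (fun z => g z * f z ^ 2) z with hB
  have hAint : Integrable fun ζ => ρ (z - ζ) * (g ζ * f ζ) := shift_int hk z (hg.mul hf)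
  have hBint : Integrable fun ζ => ρ (z - ζ) * (g ζ * f ζ ^ 2) :=
    shift_int hk z (hg.mul (hf.pow 2))
  have hρint : Integrable fun ζ => ρ (z - ζ) := by
    simpa using shift_int hk z (F := fun _ => (1 : ℝ)) continuous_const
  set t : ℝ := A / 4 with ht
  have hexp : Integrable fun ζ => ρ (z - ζ) * (g ζ * f ζ ^ 2) -
      2 * t * (ρ (z - ζ) * (g ζ * f ζ)) + 4 * t ^ 2 * ρ (z - ζ) :=
    (hBint.sub (hAint.const_mul (2 * t))).add (hρint.const_mul (4 * t ^ 2))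
  have hval : ∫ ζ, (ρ (z - ζ) * (g ζ * f ζ ^ 2) -
      2 * t * (ρ (z - ζ) * (g ζ * f ζ)) + 4 * t ^ 2 * ρ (z - ζ)) = B - 2 * t * A + 4 * t ^ 2 := by
    have e1 : ∫ ζ, (ρ (z - ζ) * (g ζ * f ζ ^ 2) -
        2 * t * (ρ (z - ζ) * (g ζ * f ζ)) + 4 * t ^ 2 * ρ (z - ζ)) =
        (∫ ζ, (ρ (z - ζ) * (g ζ * f ζ ^ 2) - 2 * t * (ρ (z - ζ) * (g ζ * f ζ)))) +
        ∫ ζ, 4 * t ^ 2 * ρ (z - ζ) :=
      integral_add (hBint.sub (hAint.const_mul (2 * t))) (hρint.const_mul (4 * t ^ 2))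
    have e2 : (∫ ζ, (ρ (z - ζ) * (g ζ * f ζ ^ 2) - 2 * t * (ρ (z - ζ) * (g ζ * f ζ)))) =
        (∫ ζ, ρ (z - ζ) * (g ζ * f ζ ^ 2)) - ∫ ζ, 2 * t * (ρ (z - ζ) * (g ζ * f ζ)) :=
      integral_sub hBint (hAint.const_mul (2 * t))
    rw [e1, e2, integral_const_mul, integral_const_mul, shift_mass hk z]
    rw [hB, hA]
    unfold cv
    ring
  have hnn : 0 ≤ ∫ ζ, (ρ (z - ζ) * (g ζ * f ζ ^ 2) -
      2 * t * (ρ (z - ζ) * (g ζ * f ζ)) + 4 * t ^ 2 * ρ (z - ζ)) := by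
    apply integral_nonneg
    intro ζ
    have h1 : 0 ≤ ρ (z - ζ) := hk.nn _
    have h2 : 0 ≤ g ζ := hg0 ζ
    have h3 : g ζ ≤ 4 := hg4 ζ
    have h4 : 0 ≤ ρ (z - ζ) * (g ζ * (f ζ - t) ^ 2) :=
      mul_nonneg h1 (mul_nonneg h2 (sq_nonneg _))
    have h5 : 0 ≤ ρ (z - ζ) * ((4 - g ζ) * t ^ 2) :=
      mul_nonneg h1 (mul_nonneg (by linarith) (sq_nonneg _))
    have h6 : ρ (z - ζ) * (g ζ * f ζ ^ 2) -
        2 * t * (ρ (z - ζ) * (g ζ * f ζ)) + 4 * t ^ 2 * ρ (z - ζ) =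
        ρ (z - ζ) * (g ζ * (f ζ - t) ^ 2) + ρ (z - ζ) * ((4 - g ζ) * t ^ 2) := by ring
    have h7 : 0 ≤ ρ (z - ζ) * (g ζ * f ζ ^ 2) -
        2 * t * (ρ (z - ζ) * (g ζ * f ζ)) + 4 * t ^ 2 * ρ (z - ζ) := by
      rw [h6]
      exact add_nonneg h4 h5
    exact h7
  rw [hval] at hnn
  rw [ht] at hnn
  nlinarith [hnn]

end Pool.Agent.GNS
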