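import Pool.Agent.GNS.T1

/-!
# Project GNS: mollifiers (T_KER)
-/

set_option autoImplicit false

open Metric Set Filter Topology MeasureTheory

namespace Pool.Agent.GNS

theorem p_KER : T_KER := by
  intro r hr
  let f : ContDiffBump (0 : V) := ⟨r / 2, r, by linarith, by linarith⟩
  refine ⟨f.normed volume, ?_, ?_, ?_, ?_, ?_⟩
  · exact f.contDiff_normed
  · exact fun z => f.nonneg_normed z
  · exact fun z => f.normed_neg z
  · intro z hz
    have h1 : z ∉ Function.support (f.normed volume) := by
      rw [f.support_normed_eq]
      simpa [f] using hz
    exact Function.notMem_support.mp h1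
  · exact f.integral_normed

end Pool.Agent.GNS
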