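import Pool.Agent.GNS.T5

/-!
# GNS: KN2, splitting of the kink
-/

set_option autoImplicit false

open Metric Set Filter Topology MeasureTheory

noncomputable section

namespace Pool.Agent.GNS

open Pool.Agent.GLB

/-- the support function of a segment -/
lemma KN2_seg {n : ℕ} (b u : E n) : supp (seg b) u = max 0 (inner ℝ b u) := by
  apply le_antisymm
  · obtain ⟨x, hx, h⟩ := (gSUA n).2.1 (seg b) u
    have hx' : x ∈ segment ℝ (0 : E n) b := hx
    rw [segment_eq_image] at hx'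
    obtain ⟨s, hs, rfl⟩ := hx'
    rw [← h]
    simp only [smul_zero, zero_add]
    rw [real_inner_smul_left]
    rcases le_total 0 (inner ℝ b u) with h1 | h1
    · exact le_max_of_le_right (by nlinarith [hs.2])
    · exact le_max_of_le_left (by nlinarith [hs.1])
  · apply max_le
    · have h1 := (gSUA n).1 (seg b) 0 u (left_mem_segment ℝ (0 : E n) b)
      rwa [inner_zero_left] at h1
    · exact (gSUA n).1 (seg b) b u (right_mem_segment ℝ (0 : E n) b)

/-- the cut-off function -/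
def KN2_lam (s : ℝ) : ℝ := max 0 (min 1 (2 - 3 * s))

lemma KN2_lam_cont : Continuous KN2_lam := by
  unfold KN2_lam
  fun_prop

lemma KN2_lam_one (s : ℝ) (hs : s ≤ 1 / 3) : KN2_lam s = 1 := by
  unfold KN2_lam
  rw [min_eq_left (by linarith), max_eq_right zero_le_one]

lemma KN2_lam_zero (s : ℝ) (hs : 2 / 3 ≤ s) : KN2_lam s = 0 := by
  unfold KN2_lam
  rw [max_eq_left]
  exact (min_le_right _ _).trans (by linarith)

lemma KN2_hgt (hEMB : T_EMB) (n : ℕ) : Continuous (fun v : S (n + 1) => hgt (v : E (n + 1))) := by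
  have h1 : (fun v : S (n + 1) => hgt (v : E (n + 1))) =
      fun v : S (n + 1) => (inner ℝ (el : E (n + 1)) (v : E (n + 1)) : ℝ) := by
    funext v
    rw [(hEMB n).2.2.2.2.1]
  rw [h1]
  exact continuous_const.inner continuous_subtype_val

/-- where the height is positive, `h_J` is linear -/
lemma KN2_pos (hEMB : T_EMB) {n k : ℕ} (Ψ : ConvexBody (E (n + 1)) → (C(S (n + 1), ℂ) →L[ℂ] ℂ))
    (hΨ : IsArea (n + 1) k Ψ) (φ : C(S (n + 1), ℂ))
    (hφ : ∀ v : S (n + 1), hgt (v : E (n + 1)) ≤ 0 → φ v = 0) (L : ConvexBody (E (n + 1)))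
    (t : ℝ) (ht : 0 ≤ t) : Ψ (L + t • Jl) φ = Ψ L φ := by
  have h1 := hΨ.loc (L + t • Jl) (L + pt (t • el)) {v | 0 < hgt (v : E (n + 1))}
    (isOpen_lt continuous_const (KN2_hgt hEMB n)) ?_ φ ?_
  · rw [h1, hΨ.trans]
  · intro u hu
    rw [(gSUA _).2.2.1, (gSUA _).2.2.1, (gSUA _).2.2.2.1 _ _ _ ht, (gSUA _).2.2.2.2.1,
      (hEMB n).2.2.2.2.2.2.2.2.2.2.2, real_inner_smul_left, (hEMB n).2.2.2.2.1,
      max_eq_right (le_of_lt hu)]
  · intro u hu
    exact hφ u (not_lt.1 hu)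

lemma KN2_eps (hEMB : T_EMB) {n k : ℕ} (Ψ : ConvexBody (E (n + 1)) → (C(S (n + 1), ℂ) →L[ℂ] ℂ))
    (hΨ : IsArea (n + 1) k Ψ) (a : E (n + 1)) (δ : ℝ) (hδ : 0 < δ) (φ : C(S (n + 1), ℂ))
    (hφ : ∀ v : S (n + 1), inner ℝ a (v : E (n + 1)) < δ → φ v = 0)
    (K : ConvexBody (E (n + 1))) (t t' : ℝ) (ht : 0 ≤ t) (ht' : 0 ≤ t') (ε : ℝ) (hε : 0 < ε) :
    Ψ (K + t • Jl + t' • seg (el - ε • a)) φ + Ψ K φ =
      Ψ (K + t • Jl) φ + Ψ (K + t' • seg (el - ε • a)) φ := by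
  have hεδ : 0 < ε * δ := mul_pos hε hδ
  have hcl : Continuous fun v : S (n + 1) =>
      ((KN2_lam (hgt (v : E (n + 1)) / (ε * δ)) : ℝ) : ℂ) :=
    Complex.continuous_ofReal.comp (KN2_lam_cont.comp ((KN2_hgt hEMB n).div_const _))
  set lam : C(S (n + 1), ℂ) := ⟨_, hcl⟩ with hlam
  have hlamv : ∀ v : S (n + 1), lam v = ((KN2_lam (hgt (v : E (n + 1)) / (ε * δ)) : ℝ) : ℂ) :=
    fun v => rfl
  set φm : C(S (n + 1), ℂ) := φ * lam with hφm
  set φp : C(S (n + 1), ℂ) := φ - φ * lam with hφp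
  have hsum : φ = φm + φp := by rw [hφm, hφp]; abel
  have hp : ∀ v : S (n + 1), hgt (v : E (n + 1)) ≤ 0 → φp v = 0 := by
    intro v hv
    rw [hφp, ContinuousMap.sub_apply, ContinuousMap.mul_apply, hlamv, KN2_lam_one]
    · simp
    · have : hgt (v : E (n + 1)) / (ε * δ) ≤ 0 := div_nonpos_of_nonpos_of_nonneg hv hεδ.le
      linarith
  have hm : ∀ L : ConvexBody (E (n + 1)), Ψ (L + t' • seg (el - ε • a)) φm = Ψ L φm := by
    intro L
    refine hΨ.loc _ _ {v | hgt (v : E (n + 1)) < ε * inner ℝ a (v : E (n + 1))} ?_ ?_ φm ?_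
    · exact isOpen_lt (KN2_hgt hEMB n)
        (continuous_const.mul (continuous_const.inner continuous_subtype_val))
    · intro u hu
      have hu' : hgt (u : E (n + 1)) < ε * inner ℝ a (u : E (n + 1)) := hu
      rw [(gSUA _).2.2.1, (gSUA _).2.2.2.1 _ _ _ ht', KN2_seg, inner_sub_left,
        (hEMB n).2.2.2.2.1, real_inner_smul_left, max_eq_left (by linarith), mul_zero, add_zero]
    · intro u hu
      have hu' : ε * inner ℝ a (u : E (n + 1)) ≤ hgt (u : E (n + 1)) := not_lt.1 hu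
      rw [hφm, ContinuousMap.mul_apply]
      by_cases h1 : inner ℝ a (u : E (n + 1)) < δ
      · rw [hφ u h1, zero_mul]
      · have h2 : ε * δ ≤ hgt (u : E (n + 1)) :=
          (mul_le_mul_of_nonneg_left (not_lt.1 h1) hε.le).trans hu'
        rw [hlamv, KN2_lam_zero]
        · simp
        · have h3 : 1 ≤ hgt (u : E (n + 1)) / (ε * δ) := (one_le_div hεδ).2 h2
          linarith
  have e1 : K + t • Jl + t' • seg (el - ε • a) = K + t' • seg (el - ε • a) + t • Jl := by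
    abel
  have a1 := hm (K + t • Jl)
  have a2 := hm K
  have a3 := KN2_pos hEMB Ψ hΨ φp hp (K + t' • seg (el - ε • a)) t ht
  have a4 := KN2_pos hEMB Ψ hΨ φp hp K t ht
  rw [← e1] at a3
  have b1 : ∀ L : ConvexBody (E (n + 1)), Ψ L φ = Ψ L φm + Ψ L φp := by
    intro L
    conv_lhs => rw [hsum]
    exact map_add _ _ _
  rw [b1, b1 K, b1 (K + t • Jl), b1 (K + t' • seg (el - ε • a)), a1, a2, a3, a4]
  ring

lemma KN2_lim (hEMB : T_EMB) {n : ℕ} (a : E (n + 1)) :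
    Tendsto (fun j : ℕ => seg ((el : E (n + 1)) - (1 / ((j : ℝ) + 1)) • a)) atTop (𝓝 Jl) := by
  rw [tendsto_iff_dist_tendsto_zero]
  have h1 : ∀ j : ℕ, dist (seg ((el : E (n + 1)) - (1 / ((j : ℝ) + 1)) • a)) Jl ≤
      1 / ((j : ℝ) + 1) * ‖a‖ := by
    intro j
    refine (gSUD _ _ _).2 _ (by positivity) ?_
    intro u hu
    rw [KN2_seg, (hEMB n).2.2.2.2.2.2.2.2.2.2.2, inner_sub_left, (hEMB n).2.2.2.2.1,
      real_inner_smul_left]
    have h2 := abs_real_inner_le_norm a u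
    rw [hu, mul_one] at h2
    have h3 := abs_max_sub_max_le_abs (hgt u - 1 / ((j : ℝ) + 1) * inner ℝ a u) (hgt u) 0
    rw [max_comm 0, max_comm 0]
    refine h3.trans ?_
    have h4 : hgt u - 1 / ((j : ℝ) + 1) * inner ℝ a u - hgt u =
        -(1 / ((j : ℝ) + 1) * inner ℝ a u) := by ring
    rw [h4, abs_neg, abs_mul, abs_of_nonneg (by positivity : (0 : ℝ) ≤ 1 / ((j : ℝ) + 1))]
    exact mul_le_mul_of_nonneg_left h2 (by positivity)
  refine squeeze_zero (fun j => dist_nonneg) h1 ?_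
  have h5 := (tendsto_one_div_add_atTop_nhds_zero_nat (𝕜 := ℝ)).mul_const ‖a‖
  simpa using h5

/-- KN2 -/
theorem p_KN2 (hEMB : T_EMB) : T_KN2 := by
  intro n k Ψ hΨ a δ ha hδ φ hφ K t t' ht ht'
  have hcf := hΨ.cont φ
  have hsm : Tendsto (fun j : ℕ => t' • seg ((el : E (n + 1)) - (1 / ((j : ℝ) + 1)) • a)) atTop
      (𝓝 (t' • Jl)) :=
    (((gCTA (n + 1)).2.2.2.1 t' ht').tendsto _).comp (KN2_lim hEMB a)
  have hA : ∀ L : ConvexBody (E (n + 1)), Tendsto (fun j : ℕ =>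
      Ψ (L + t' • seg ((el : E (n + 1)) - (1 / ((j : ℝ) + 1)) • a)) φ) atTop
      (𝓝 (Ψ (L + t' • Jl) φ)) := fun L =>
    (hcf.tendsto _).comp (add_tendsto tendsto_const_nhds hsm)
  have h1 := (hA (K + t • Jl)).add_const (Ψ K φ)
  have h2 := (hA K).const_add (Ψ (K + t • Jl) φ)
  refine tendsto_nhds_unique (h1.congr ?_) h2
  intro j
  exact KN2_eps hEMB Ψ hΨ a δ hδ φ hφ K t t' ht ht' _ (by positivity)

end Pool.Agent.GNS
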