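import Pool.Agent.GNS.T5

set_option autoImplicit false

open Metric Set Filter Topology MeasureTheory

noncomputable section

namespace Pool.Agent.GNS

open Pool.Agent.GLB

namespace KN3_

/-- a functional which vanishes on the functions supported in the sets of a finite open cover -/
theorem cover {X : Type} [TopologicalSpace X] [CompactSpace X] {ι : Type} [Fintype ι]
    (D : C(X, ℂ) →L[ℂ] ℂ) (p : ι → X → ℝ) (hc : ∀ i, Continuous (p i))
    (h0 : ∀ i v, 0 ≤ p i v) (h1 : ∀ v, ∃ i, 0 < p i v)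
    (h : ∀ i (g : C(X, ℂ)), (∀ v, p i v = 0 → g v = 0) → D g = 0) (φ : C(X, ℂ)) : D φ = 0 := by
  have hs : ∀ v, 0 < ∑ i, p i v := by
    intro v
    obtain ⟨i, hi⟩ := h1 v
    exact Finset.sum_pos' (fun i _ => h0 i v) ⟨i, Finset.mem_univ i, hi⟩
  have hsc : Continuous fun v => ∑ i, p i v := continuous_finsetSum _ fun i _ => hc i
  let g : ι → C(X, ℂ) := fun i => ⟨fun v => φ v * ((p i v / ∑ j, p j v : ℝ) : ℂ),
    φ.continuous.mul (Complex.continuous_ofReal.comp
      ((hc i).div hsc fun v => (hs v).ne'))⟩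
  have hg : φ = ∑ i, g i := by
    ext v
    rw [ContinuousMap.sum_apply]
    have h2 : ∑ i, g i v = φ v * ((∑ i, (p i v / ∑ j, p j v) : ℝ) : ℂ) := by
      rw [Complex.ofReal_sum, Finset.mul_sum]
      rfl
    rw [h2, ← Finset.sum_div, div_self (hs v).ne']
    simp
  rw [hg, map_sum]
  refine Finset.sum_eq_zero fun i _ => h i (g i) ?_
  intro v hv
  change φ v * ((p i v / ∑ j, p j v : ℝ) : ℂ) = 0
  rw [hv]
  simp

/-- the functions of the cover -/
def pf (n : ℕ) (δ : ℝ) : Option (Fin n × Bool) → S (n + 1) → ℝ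
  | none, v => max 0 (|hgt (v : E (n + 1))| - δ)
  | some (i, true), v => max 0 ((v : E (n + 1)) i.castSucc - δ)
  | some (i, false), v => max 0 (-(v : E (n + 1)) i.castSucc - δ)

theorem pf_cont (n : ℕ) (δ : ℝ) (i : Option (Fin n × Bool)) : Continuous (pf n δ i) := by
  have hco : ∀ j : Fin (n + 1), Continuous fun v : S (n + 1) => (v : E (n + 1)) j := by
    intro j
    fun_prop
  rcases i with _ | ⟨i, b⟩
  · exact continuous_const.max (((hco (Fin.last n)).abs).sub continuous_const)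
  · rcases b with _ | _
    · exact continuous_const.max (((hco i.castSucc).neg).sub continuous_const)
    · exact continuous_const.max ((hco i.castSucc).sub continuous_const)

theorem pf_nonneg (n : ℕ) (δ : ℝ) (i : Option (Fin n × Bool)) (v : S (n + 1)) :
    0 ≤ pf n δ i v := by
  rcases i with _ | ⟨i, b⟩
  · exact le_max_left _ _
  · rcases b with _ | _
    · exact le_max_left _ _
    · exact le_max_left _ _

theorem pf_pos (n : ℕ) (δ : ℝ) (hδ : 0 < δ) (hn : (n + 1) * δ ^ 2 < 1) (v : S (n + 1)) :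
    ∃ i, 0 < pf n δ i v := by
  by_contra hc
  push Not at hc
  have h0 := hc none
  have h1 : ∀ j : Fin n, |(v : E (n + 1)) j.castSucc| ≤ δ := by
    intro j
    have a1 := (le_max_right _ _).trans (hc (some (j, true)))
    have a2 := (le_max_right _ _).trans (hc (some (j, false)))
    exact abs_le.2 ⟨by linarith, by linarith⟩
  have h2 : |(v : E (n + 1)) (Fin.last n)| ≤ δ := by
    have := (le_max_right _ _).trans h0
    have h3 : |hgt (v : E (n + 1))| = |(v : E (n + 1)) (Fin.last n)| := rfl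
    rw [h3] at this
    linarith
  have h4 : ‖(v : E (n + 1))‖ = 1 := by
    have := v.2
    rwa [mem_sphere_iff_norm, sub_zero] at this
  have h5 : ‖(v : E (n + 1))‖ ^ 2 = ∑ i, ‖(v : E (n + 1)) i‖ ^ 2 := EuclideanSpace.norm_sq_eq _
  rw [h4, Fin.sum_univ_castSucc] at h5
  have h6 : ∀ x : ℝ, |x| ≤ δ → ‖x‖ ^ 2 ≤ δ ^ 2 := fun x hx => by
    rw [Real.norm_eq_abs]
    exact pow_le_pow_left₀ (abs_nonneg x) hx 2
  have h7 : ∑ i : Fin n, ‖(v : E (n + 1)) i.castSucc‖ ^ 2 ≤ ∑ _i : Fin n, δ ^ 2 :=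
    Finset.sum_le_sum fun i _ => h6 _ (h1 i)
  rw [Finset.sum_const, Finset.card_univ, Fintype.card_fin, nsmul_eq_mul] at h7
  have h8 := h6 _ h2
  nlinarith

end KN3_

theorem p_KN3 (hKN2 : T_KN2) (hVAN : T_VAN) : T_KN3 := by
  intro n k Ψ hΨ φ K t t' ht ht'
  let D : C(S (n + 1), ℂ) →L[ℂ] ℂ :=
    Ψ (K + t • Jl + t' • Jl) + Ψ K - (Ψ (K + t • Jl) + Ψ (K + t' • Jl))
  have hD : ∀ φ, D φ = Ψ (K + t • Jl + t' • Jl) φ + Ψ K φ -
      (Ψ (K + t • Jl) φ + Ψ (K + t' • Jl) φ) := fun φ => rfl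
  have hδ : (0 : ℝ) < 1 / (n + 2) := by positivity
  have hn : ((n : ℝ) + 1) * (1 / (n + 2)) ^ 2 < 1 := by
    rw [div_pow, one_pow, mul_one_div, div_lt_one (by positivity)]
    nlinarith [(Nat.cast_nonneg n : (0 : ℝ) ≤ n)]
  suffices h : D φ = 0 by
    rw [hD] at h
    exact sub_eq_zero.1 h
  refine KN3_.cover D (KN3_.pf n (1 / (n + 2))) (KN3_.pf_cont n _) (KN3_.pf_nonneg n _)
    (KN3_.pf_pos n _ hδ hn) ?_ φ
  have hel : ∀ (i : Fin n), inner ℝ (eb i.castSucc : E (n + 1)) (el : E (n + 1)) = 0 := by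
    intro i
    unfold el eb
    rw [EuclideanSpace.inner_single_left]
    have : Fin.castSucc i ≠ Fin.last n := (Fin.castSucc_lt_last i).ne
    simp [this]
  have hin : ∀ (i : Fin n) (v : S (n + 1)), inner ℝ (eb i.castSucc : E (n + 1)) (v : E (n + 1)) =
      (v : E (n + 1)) i.castSucc := by
    intro i v
    unfold eb
    rw [EuclideanSpace.inner_single_left]
    simp
  intro i g hg
  rw [hD, sub_eq_zero]
  rcases i with _ | ⟨i, b⟩
  · have h0 : ∀ v : S (n + 1), hgt (v : E (n + 1)) = 0 → g v = 0 := by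
      intro v hv
      apply hg
      change max 0 (|hgt (v : E (n + 1))| - 1 / (n + 2)) = 0
      rw [hv, abs_zero]
      exact max_eq_left (by linarith)
    rw [hVAN n k Ψ hΨ g h0 (K + t • Jl) t' ht', hVAN n k Ψ hΨ g h0 K t' ht']
  · rcases b with _ | _
    · refine hKN2 n k Ψ hΨ (-eb i.castSucc) (1 / (n + 2)) ?_ hδ g ?_ K t t' ht ht'
      · rw [inner_neg_left, hel, neg_zero]
      · intro v hv
        rw [inner_neg_left, hin] at hv
        apply hg
        change max 0 (-(v : E (n + 1)) i.castSucc - 1 / (n + 2)) = 0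
        exact max_eq_left (by linarith)
    · refine hKN2 n k Ψ hΨ (eb i.castSucc) (1 / (n + 2)) (hel i) hδ g ?_ K t t' ht ht'
      intro v hv
      rw [hin] at hv
      apply hg
      change max 0 ((v : E (n + 1)) i.castSucc - 1 / (n + 2)) = 0
      exact max_eq_left (by linarith)

end Pool.Agent.GNS
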