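import Pool.Agent.GNS.T3

/-!
# GNS: two parallel segments
-/

set_option autoImplicit false

open Metric Set Filter Topology MeasureTheory

noncomputable section

namespace Pool.Agent.GNS

open Pool.Agent.GLB

namespace KNK_

theorem seg_dist (hC : T_CHT) {m : ℕ} (κ : E m) (c c' : ℝ) :
    dist (seg (kv κ c)) (seg (kv κ c')) ≤ |c - c'| := by
  obtain ⟨-, -, -, -, c5, -, -, -, -, c10, -, -⟩ := hC m
  refine (gSUD (m + 1) _ _).2 _ (abs_nonneg _) ?_
  intro u hu
  rw [c5, c5]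
  have h1 : |max 0 (inner ℝ (kv κ c) u) - max 0 (inner ℝ (kv κ c') u)| ≤
      |inner ℝ (kv κ c) u - inner ℝ (kv κ c') u| := by
    rw [max_comm 0 (inner ℝ (kv κ c) u), max_comm 0 (inner ℝ (kv κ c') u)]
    exact abs_max_sub_max_le_abs _ _ _
  refine h1.trans ?_
  rw [← inner_sub_left, ← c10 κ c c']
  have h2 := abs_real_inner_le_norm (kv κ c - kv κ c') u
  rwa [hu, mul_one] at h2

theorem seg_tendsto (hC : T_CHT) {m : ℕ} (κ : E m) (c t : ℝ) (ht : 0 ≤ t) :
    Tendsto (fun ε : ℝ => t • seg (kv κ (c + ε))) (𝓝[>] 0) (𝓝 (t • seg (kv κ c))) := by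
  have h1 : Tendsto (fun ε : ℝ => seg (kv κ (c + ε))) (𝓝[>] 0) (𝓝 (seg (kv κ c))) := by
    rw [tendsto_iff_dist_tendsto_zero]
    refine squeeze_zero (fun ε => dist_nonneg) (fun ε => seg_dist hC κ (c + ε) c) ?_
    have h2 : Tendsto (fun ε : ℝ => |c + ε - c|) (𝓝 0) (𝓝 |c + 0 - c|) := by
      refine Continuous.tendsto ?_ 0
      fun_prop
    have h3 : |c + 0 - c| = 0 := by simp
    rw [h3] at h2
    exact h2.mono_left nhdsWithin_le_nhds
  exact (((gCTA (m + 1)).2.2.2.1 t ht).tendsto _).comp h1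

/-- the cut-off -/
def la (ε s : ℝ) : ℝ := max 0 (min 1 (1 - s / ε))

theorem la_cont (ε : ℝ) : Continuous (la ε) := by
  unfold la
  fun_prop

theorem la_one {ε s : ℝ} (hε : 0 < ε) (hs : s ≤ 0) : la ε s = 1 := by
  unfold la
  have h1 : s / ε ≤ 0 := div_nonpos_of_nonpos_of_nonneg hs hε.le
  rw [min_eq_left (by linarith), max_eq_right zero_le_one]

theorem la_zero {ε s : ℝ} (hε : 0 < ε) (hs : ε ≤ s) : la ε s = 0 := by
  unfold la
  have h1 : 1 ≤ s / ε := by rwa [le_div_iff₀ hε, one_mul]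
  exact max_eq_left ((min_le_right _ _).trans (by linarith))

theorem key (hC : T_CHT) (hH : T_HAT) (hL : T_LOC) {m k : ℕ}
    {Ψ : ConvexBody (E (m + 1)) → (C(S (m + 1), ℂ) →L[ℂ] ℂ)} (hΨ : IsArea (m + 1) k Ψ)
    (K : ConvexBody (E (m + 1))) (κ : E m) (c t t' ε : ℝ) (ht : 0 ≤ t) (ht' : 0 ≤ t')
    (hε : 0 < ε) {R : ℝ} {φ : E m → ℂ} (hφ : Tf R φ) :
    Ψ (K + t • seg (kv κ c) + t' • seg (kv κ (c + ε))) (HC φ) + Ψ K (HC φ) =
      Ψ (K + t • seg (kv κ c)) (HC φ) + Ψ (K + t' • seg (kv κ (c + ε))) (HC φ) := by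
  obtain ⟨c1, c2, c3, c4, c5, c6, -, -, -, -, -, -⟩ := hC m
  have hk : Continuous fun x : E m => (inner ℝ κ x : ℝ) := continuous_const.inner continuous_id
  have hl : Continuous fun x : E m => la ε (inner ℝ κ x - c) :=
    (la_cont ε).comp (hk.sub continuous_const)
  -- the two parts
  let f : E m → ℂ := fun x => φ x * ((la ε (inner ℝ κ x - c) : ℝ) : ℂ)
  let g : E m → ℂ := fun x => φ x * ((1 - la ε (inner ℝ κ x - c) : ℝ) : ℂ)
  have hf : Tf R f := by
    refine ⟨hφ.cont.mul (Complex.continuous_ofReal.comp hl), fun x hx => ?_⟩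
    simp only [f, hφ.out x hx, zero_mul]
  have hg : Tf R g := by
    refine ⟨hφ.cont.mul (Complex.continuous_ofReal.comp (continuous_const.sub hl)),
      fun x hx => ?_⟩
    simp only [g, hφ.out x hx, zero_mul]
  have hfg : HC φ = HC f + HC g := by
    rw [← (hH m R f g hf hg).2.2.1]
    congr 1
    funext x
    simp only [f, g]
    push_cast
    ring
  let U : Set (E m) := {x | inner ℝ κ x - c < ε}
  let V : Set (E m) := {x | 0 < inner ℝ κ x - c}
  have hU : IsOpen U := isOpen_lt (hk.sub continuous_const) continuous_const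
  have hV : IsOpen V := isOpen_lt continuous_const (hk.sub continuous_const)
  have hfU : ∀ x, x ∉ U → f x = 0 := by
    intro x hx
    have h1 : ε ≤ inner ℝ κ x - c := not_lt.1 hx
    simp only [f, la_zero hε h1, Complex.ofReal_zero, mul_zero]
  have hgV : ∀ x, x ∉ V → g x = 0 := by
    intro x hx
    have h1 : inner ℝ κ x - c ≤ 0 := not_lt.1 hx
    simp only [g, la_one hε h1, sub_self, Complex.ofReal_zero, mul_zero]
  -- on U the second segment does not count
  have e1 : ∀ x ∈ U, ch (t' • seg (kv κ (c + ε))) x = 0 := by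
    intro x hx
    have h1 : inner ℝ κ x - c < ε := hx
    rw [c2 _ _ _ ht', c6, max_eq_left (by linarith), mul_zero]
  -- on V the first segment is linear
  have e2 : ∀ x ∈ V, ch (t • seg (kv κ c)) x = inner ℝ (t • kv κ c) (up x) := by
    intro x hx
    have h1 : 0 < inner ℝ κ x - c := hx
    rw [c2 _ _ _ ht, c6, max_eq_right h1.le, inner_smul_left, c4]
    simp
  have a1 : Ψ (K + t • seg (kv κ c) + t' • seg (kv κ (c + ε))) (HC f) =
      Ψ (K + t • seg (kv κ c)) (HC f) := by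
    refine hL m k Ψ hΨ _ _ 0 U hU (fun x hx => ?_) R f hf hfU
    rw [c1, e1 x hx, inner_zero_left]
  have a2 : Ψ (K + t' • seg (kv κ (c + ε))) (HC f) = Ψ K (HC f) := by
    refine hL m k Ψ hΨ _ _ 0 U hU (fun x hx => ?_) R f hf hfU
    rw [c1, e1 x hx, inner_zero_left]
  have a3 : Ψ (K + t • seg (kv κ c) + t' • seg (kv κ (c + ε))) (HC g) =
      Ψ (K + t' • seg (kv κ (c + ε))) (HC g) := by
    refine hL m k Ψ hΨ _ _ (t • kv κ c) V hV (fun x hx => ?_) R g hg hgV
    rw [c1, c1, e2 x hx, c1]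
    ring
  have a4 : Ψ (K + t • seg (kv κ c)) (HC g) = Ψ K (HC g) := by
    refine hL m k Ψ hΨ _ _ (t • kv κ c) V hV (fun x hx => ?_) R g hg hgV
    rw [c1, e2 x hx]
  rw [hfg]
  simp only [map_add]
  rw [a1, a2, a3, a4]
  ring

end KNK_

theorem p_KNK (hC : T_CHT) (hH : T_HAT) (hL : T_LOC) : T_KNK := by
  intro m k Ψ hΨ K κ c t t' ht ht' R φ hφ
  have h0 := KNK_.seg_tendsto hC κ c t' ht'
  have h1 : Tendsto (fun ε : ℝ => Ψ (K + t • seg (kv κ c) + t' • seg (kv κ (c + ε))) (HC φ) +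
      Ψ K (HC φ)) (𝓝[>] 0)
      (𝓝 (Ψ (K + t • seg (kv κ c) + t' • seg (kv κ c)) (HC φ) + Ψ K (HC φ))) := by
    refine Tendsto.add ?_ tendsto_const_nhds
    exact ((hΨ.cont (HC φ)).tendsto _).comp (add_tendsto tendsto_const_nhds h0)
  have h2 : Tendsto (fun ε : ℝ => Ψ (K + t • seg (kv κ c)) (HC φ) +
      Ψ (K + t' • seg (kv κ (c + ε))) (HC φ)) (𝓝[>] 0)
      (𝓝 (Ψ (K + t • seg (kv κ c)) (HC φ) + Ψ (K + t' • seg (kv κ c)) (HC φ))) := by
    refine Tendsto.add tendsto_const_nhds ?_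
    exact ((hΨ.cont (HC φ)).tendsto _).comp (add_tendsto tendsto_const_nhds h0)
  refine tendsto_nhds_unique (h1.congr' ?_) h2
  filter_upwards [self_mem_nhdsWithin] with ε hε
  exact KNK_.key hC hH hL hΨ K κ c t t' ε ht ht' hε hφ

end Pool.Agent.GNS
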