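import Pool.Agent.GNS.T3

/-!
# GNS, target LAD: the dyadic sums
-/

set_option autoImplicit false

noncomputable section

namespace Pool.Agent.GNS

/-- the telescoping function -/
def LAD_g (x : ℝ) : ℝ := x / (1 + x)

theorem LAD_p1 (x : ℝ) (hx : 0 < x) :
    x ^ 2 / (1 + x) ^ 4 ≤ LAD_g x - LAD_g (x / 4) := by
  have e : LAD_g x - LAD_g (x / 4) - x ^ 2 / (1 + x) ^ 4 =
      x * (3 + 5 * x + 8 * x ^ 2 + 3 * x ^ 3) / ((1 + x) ^ 4 * (4 + x)) := by
    unfold LAD_g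
    have h1 : (1 + x) ≠ 0 := by positivity
    have h2 : (4 + x) ≠ 0 := by positivity
    have h3 : (1 + x / 4) ≠ 0 := by positivity
    have h4 : x / 4 / (1 + x / 4) = x / (4 + x) := by
      field_simp
    rw [h4]
    field_simp
    ring
  have : 0 ≤ x * (3 + 5 * x + 8 * x ^ 2 + 3 * x ^ 3) / ((1 + x) ^ 4 * (4 + x)) := by
    positivity
  linarith

theorem LAD_p2 (x : ℝ) (hx : 0 < x) :
    x / (1 + x) ^ 4 ≤ 4 / 3 * (LAD_g x - LAD_g (x / 4)) := by
  have e : 4 / 3 * (LAD_g x - LAD_g (x / 4)) - x / (1 + x) ^ 4 =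
      x * (11 * x + 12 * x ^ 2 + 4 * x ^ 3) / ((1 + x) ^ 4 * (4 + x)) := by
    unfold LAD_g
    have h1 : (1 + x) ≠ 0 := by positivity
    have h2 : (4 + x) ≠ 0 := by positivity
    have h3 : (1 + x / 4) ≠ 0 := by positivity
    have h4 : x / 4 / (1 + x / 4) = x / (4 + x) := by
      field_simp
    rw [h4]
    field_simp
    ring
  have : 0 ≤ x * (11 * x + 12 * x ^ 2 + 4 * x ^ 3) / ((1 + x) ^ 4 * (4 + x)) := by
    positivity
  linarith

theorem LAD_tel (K : ℕ) (t : ℝ) (ht : 0 < t) :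
    ∑ n ∈ Finset.range K, (LAD_g (t / 4 ^ n) - LAD_g (t / 4 ^ n / 4)) ≤ 1 := by
  have h1 : ∀ n : ℕ, t / 4 ^ n / 4 = t / 4 ^ (n + 1) := by
    intro n
    rw [pow_succ, div_div]
  have h2 : ∑ n ∈ Finset.range K, (LAD_g (t / 4 ^ n) - LAD_g (t / 4 ^ n / 4)) =
      LAD_g (t / 4 ^ 0) - LAD_g (t / 4 ^ K) := by
    rw [← Finset.sum_range_sub' (fun n : ℕ => LAD_g (t / 4 ^ n)) K]
    exact Finset.sum_congr rfl (fun n _ => by rw [h1])
  rw [h2, pow_zero, div_one]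
  have h3 : LAD_g t ≤ 1 := by
    unfold LAD_g
    rw [div_le_one (by positivity)]
    linarith
  have h4 : 0 ≤ LAD_g (t / 4 ^ K) := by
    unfold LAD_g
    positivity
  linarith

theorem p_LAD : T_LAD := by
  intro K t ht
  have ht0 : 0 < t := by linarith
  have hpos : ∀ n : ℕ, 0 < t / 4 ^ n := fun n => by positivity
  refine ⟨?_, ?_, ?_⟩
  · have h1 : ∑ n ∈ Finset.range K, (t / 4 ^ n) ^ 2 / (1 + t / 4 ^ n) ^ 4 ≤
        ∑ n ∈ Finset.range K, (LAD_g (t / 4 ^ n) - LAD_g (t / 4 ^ n / 4)) :=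
      Finset.sum_le_sum (fun n _ => LAD_p1 _ (hpos n))
    have h2 := LAD_tel K t ht0
    linarith
  · have h1 : ∑ n ∈ Finset.range K, 4 ^ n * ((t / 4 ^ n) ^ 2 / (1 + t / 4 ^ n) ^ 4) ≤
        ∑ n ∈ Finset.range K, 4 / 3 * t * (LAD_g (t / 4 ^ n) - LAD_g (t / 4 ^ n / 4)) := by
      refine Finset.sum_le_sum (fun n _ => ?_)
      have h3 : (4 : ℝ) ^ n * ((t / 4 ^ n) ^ 2 / (1 + t / 4 ^ n) ^ 4) =
          t * ((t / 4 ^ n) / (1 + t / 4 ^ n) ^ 4) := by
        have h4 : (4 : ℝ) ^ n ≠ 0 := by positivity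
        have h5 : (1 + t / 4 ^ n) ^ 4 ≠ 0 := by have := hpos n; positivity
        have h6 : (4 : ℝ) ^ n * (t / 4 ^ n) = t := by field_simp
        calc (4 : ℝ) ^ n * ((t / 4 ^ n) ^ 2 / (1 + t / 4 ^ n) ^ 4)
            = ((4 : ℝ) ^ n * (t / 4 ^ n)) * ((t / 4 ^ n) / (1 + t / 4 ^ n) ^ 4) := by ring
          _ = _ := by rw [h6]
      rw [h3]
      have h7 := mul_le_mul_of_nonneg_left (LAD_p2 _ (hpos n)) ht0.le
      linarith
    rw [← Finset.mul_sum] at h1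
    have h2 := LAD_tel K t ht0
    have h8 := mul_le_mul_of_nonneg_left h2 (by positivity : (0 : ℝ) ≤ 4 / 3 * t)
    linarith
  · intro hK
    obtain ⟨N, hN1, hN2⟩ := exists_nat_pow_near ht (by norm_num : (1 : ℝ) < 4)
    have hNK : N < K := by
      by_contra hc
      push Not at hc
      have := pow_le_pow_right₀ (by norm_num : (1 : ℝ) ≤ 4) hc
      linarith
    set x : ℝ := t / 4 ^ N with hx
    have h4 : (0 : ℝ) < 4 ^ N := by positivity
    have hx1 : 1 ≤ x := by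
      rw [hx, le_div_iff₀ h4]
      linarith
    have hx4 : x ≤ 4 := by
      rw [hx, div_le_iff₀ h4]
      rw [pow_succ] at hN2
      linarith
    have hs : (4 / 25 : ℝ) ≤ x / (1 + x) ^ 2 := by
      rw [le_div_iff₀ (by positivity)]
      nlinarith
    have hs2 : (4 / 25 : ℝ) ^ 4 ≤ (x ^ 2 / (1 + x) ^ 4) ^ 2 := by
      have e : ∀ a b : ℝ, (a ^ 2 / b ^ 4) ^ 2 = (a / b ^ 2) ^ 4 := by
        intro a b
        rw [div_pow, div_pow, ← pow_mul, ← pow_mul, ← pow_mul]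
      rw [e]
      exact pow_le_pow_left₀ (by norm_num) hs 4
    have hsq : Real.sqrt t ≤ 2 * 2 ^ N := by
      rw [Real.sqrt_le_left (by positivity)]
      have : (2 * 2 ^ N : ℝ) ^ 2 = 4 ^ (N + 1) := by
        have h44 : (4 : ℝ) = 2 ^ 2 := by norm_num
        rw [h44, ← pow_mul]
        ring
      rw [this]
      exact hN2.le
    have hterm : Real.sqrt t / 4000 ≤ 2 ^ N * (x ^ 2 / (1 + x) ^ 4) ^ 2 := by
      have h2N : (0 : ℝ) < 2 ^ N := by positivity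
      have h9 := mul_le_mul_of_nonneg_left hs2 h2N.le
      have h10 : (2 : ℝ) ^ N / 2000 ≤ 2 ^ N * (4 / 25) ^ 4 := by
        have : (1 / 2000 : ℝ) ≤ (4 / 25) ^ 4 := by norm_num
        have h11 := mul_le_mul_of_nonneg_left this h2N.le
        linarith
      linarith
    refine hterm.trans ?_
    exact Finset.single_le_sum
      (f := fun n : ℕ => (2 : ℝ) ^ n * ((t / 4 ^ n) ^ 2 / (1 + t / 4 ^ n) ^ 4) ^ 2)
      (fun n _ => by positivity) (Finset.mem_range.2 hNK)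

end Pool.Agent.GNS
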