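import Pool.Agent.GNS.T3

/-!
# GNS, target LFE: existence of the bodies with support function `R |v| + f̃(v)`
-/

set_option autoImplicit false

open Metric Set Filter Topology MeasureTheory

noncomputable section

namespace Pool.Agent.GNS

open Pool.Agent.GLB

namespace LFE_

/-- A continuous function which is locally midpoint convex lies below its chord. -/
theorem lc (g : ℝ → ℝ) (hg : ContinuousOn g (Icc 0 1))
    (hl : ∀ t ∈ Ioo (0 : ℝ) 1, ∃ δ : ℝ, 0 < δ ∧ ∀ ε : ℝ, 0 < ε → ε < δ →
      2 * g t ≤ g (t - ε) + g (t + ε)) :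
    ∀ s ∈ Icc (0 : ℝ) 1, g s ≤ (1 - s) * g 0 + s * g 1 := by
  intro s hs
  by_contra hcon
  rw [not_le] at hcon
  set h : ℝ → ℝ := fun t => g t - ((1 - t) * g 0 + t * g 1) with hh
  have hc : ContinuousOn h (Icc 0 1) := hg.sub (by fun_prop)
  obtain ⟨t0, ht0, hmax⟩ := isCompact_Icc.exists_isMaxOn ⟨s, hs⟩ hc
  have hpos : 0 < h t0 := by
    refine lt_of_lt_of_le ?_ (hmax hs)
    simp only [hh]
    linarith
  have hSc : IsCompact (Icc (0 : ℝ) 1 ∩ h ⁻¹' {h t0}) := by
    refine isCompact_Icc.of_isClosed_subset ?_ inter_subset_left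
    exact hc.preimage_isClosed_of_isClosed isClosed_Icc isClosed_singleton
  obtain ⟨t1, ⟨ht1, ht1'⟩, hmin⟩ := hSc.exists_isLeast ⟨t0, ht0, rfl⟩
  have ht1e : h t1 = h t0 := ht1'
  have h0 : h 0 = 0 := by simp [hh]
  have h1 : h 1 = 0 := by simp [hh]
  have hn0 : t1 ≠ 0 := by
    rintro rfl
    rw [h0] at ht1e
    linarith
  have hn1 : t1 ≠ 1 := by
    rintro rfl
    rw [h1] at ht1e
    linarith
  have hl0 : 0 < t1 := lt_of_le_of_ne ht1.1 (Ne.symm hn0)
  have hl1 : t1 < 1 := lt_of_le_of_ne ht1.2 hn1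
  obtain ⟨δ, hδ, hd⟩ := hl t1 ⟨hl0, hl1⟩
  obtain ⟨ε, he0, he1, he2, he3⟩ : ∃ ε : ℝ, 0 < ε ∧ ε < δ ∧ ε ≤ t1 ∧ ε ≤ 1 - t1 := by
    refine ⟨min (δ / 2) (min t1 (1 - t1)), ?_, ?_, ?_, ?_⟩
    · exact lt_min (by linarith) (lt_min hl0 (by linarith))
    · exact lt_of_le_of_lt (min_le_left _ _) (by linarith)
    · exact (min_le_right _ _).trans (min_le_left _ _)
    · exact (min_le_right _ _).trans (min_le_right _ _)
  have hm1 : t1 - ε ∈ Icc (0 : ℝ) 1 := ⟨by linarith, by linarith⟩
  have hm2 : t1 + ε ∈ Icc (0 : ℝ) 1 := ⟨by linarith, by linarith⟩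
  have k1 : h (t1 - ε) < h t0 := by
    refine lt_of_le_of_ne (hmax hm1) fun h2 => ?_
    have h3 := hmin ⟨hm1, h2⟩
    linarith
  have k2 : h (t1 + ε) ≤ h t0 := hmax hm2
  have k3 := hd ε he0 he1
  have k4 : h (t1 - ε) + h (t1 + ε) =
      g (t1 - ε) + g (t1 + ε) - 2 * ((1 - t1) * g 0 + t1 * g 1) := by
    simp only [hh]
    ring
  have k5 : h t1 = g t1 - ((1 - t1) * g 0 + t1 * g 1) := rfl
  linarith

variable {m : ℕ}

theorem line0 (x v : E m) (s : ℝ) : HasDerivAt (fun s : ℝ => x + s • v) v s := by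
  simpa using ((hasDerivAt_id s).smul_const v).const_add x

theorem line1 {F : E m → ℝ} (hF : ContDiff ℝ 2 F) (x v : E m) (s : ℝ) :
    HasDerivAt (fun s : ℝ => F (x + s • v)) (fderiv ℝ F (x + s • v) v) s :=
  ((hF.differentiable (by norm_num)) (x + s • v)).hasFDerivAt.comp_hasDerivAt s (line0 x v s)

theorem line2 {F : E m → ℝ} (hF : ContDiff ℝ 2 F) (x v : E m) (s : ℝ) :
    HasDerivAt (fun s : ℝ => fderiv ℝ F (x + s • v) v) (D2 F (x + s • v) v v) s := by
  have h2 : ContDiff ℝ 1 (fderiv ℝ F) := hF.fderiv_right (by norm_num)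
  have h3 := ((h2.differentiable (by norm_num)) (x + s • v)).hasFDerivAt.comp_hasDerivAt s
    (line0 x v s)
  have h4 := h3.clm_apply (hasDerivAt_const s v)
  simpa [D2] using h4

theorem mid_of_pos {F : E m → ℝ} (hF : ContDiff ℝ 2 F) (x v : E m) (t : ℝ)
    (hp : 0 < D2 F (x + t • v) v v) : ∃ δ : ℝ, 0 < δ ∧ ∀ ε : ℝ, 0 < ε → ε < δ →
      2 * F (x + t • v) ≤ F (x + (t - ε) • v) + F (x + (t + ε) • v) := by
  have hc : Continuous fun s : ℝ => D2 F (x + s • v) v v := by
    have h1 := (gPRD m).2.2.2.2.2.2 F hF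
    have h2 : Continuous fun s : ℝ => ((x + s • v, v, v) : E m × E m × E m) := by fun_prop
    exact h1.comp h2
  have he : ∀ᶠ s in 𝓝 t, 0 < D2 F (x + s • v) v v := hc.continuousAt.eventually (lt_mem_nhds hp)
  obtain ⟨δ, hδ, hb⟩ := Metric.eventually_nhds_iff.1 he
  refine ⟨δ, hδ, fun ε h0 h1 => ?_⟩
  have hcv : ConvexOn ℝ (Icc (t - ε) (t + ε)) (fun s : ℝ => F (x + s • v)) := by
    refine convexOn_of_hasDerivWithinAt2_nonneg (convex_Icc _ _)
      (f' := fun s => fderiv ℝ F (x + s • v) v) (f'' := fun s => D2 F (x + s • v) v v) ?_ ?_ ?_ ?_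
    · exact fun s _ => (line1 hF x v s).continuousAt.continuousWithinAt
    · exact fun s _ => (line1 hF x v s).hasDerivWithinAt
    · exact fun s _ => (line2 hF x v s).hasDerivWithinAt
    · intro s hs
      rw [interior_Icc] at hs
      refine (hb ?_).le
      rw [Real.dist_eq, abs_lt]
      constructor <;> linarith [hs.1, hs.2]
  have hl1 : t - ε ∈ Icc (t - ε) (t + ε) := ⟨le_rfl, by linarith⟩
  have hl2 : t + ε ∈ Icc (t - ε) (t + ε) := ⟨by linarith, le_rfl⟩
  have h2 := hcv.2 hl1 hl2 (by norm_num : (0 : ℝ) ≤ 1 / 2) (by norm_num : (0 : ℝ) ≤ 1 / 2)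
    (by norm_num)
  simp only [smul_eq_mul] at h2
  have h3 : (1 / 2 : ℝ) * (t - ε) + 1 / 2 * (t + ε) = t := by ring
  rw [h3] at h2
  linarith

theorem rt_nonneg (x : E m) : 0 ≤ rt x := Real.sqrt_nonneg _

theorem up_last (x : E m) : up x (Fin.last m) = 1 := by
  simp [up]

theorem up_cast (x : E m) (i : Fin m) : up x i.castSucc = x i := by
  simp [up]

theorem rt_mid (h_CHT : T_CHT) (a b c : E m) (h : a + b = (2 : ℝ) • c) :
    2 * rt c ≤ rt a + rt b := by
  have h1 := (h_CHT m).2.2.2.2.2.2.2.2.2.2.2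
  rw [← (h1 a).1, ← (h1 b).1, ← (h1 c).1]
  have h2 : up a + up b = (2 : ℝ) • up c := by
    ext i
    refine Fin.lastCases ?_ (fun j => ?_) i
    · simp only [PiLp.add_apply, PiLp.smul_apply, up_last, smul_eq_mul]
      norm_num
    · have h3 := congrArg (fun z : E m => z j) h
      simp only [PiLp.add_apply, PiLp.smul_apply, smul_eq_mul] at h3
      simp only [PiLp.add_apply, PiLp.smul_apply, up_cast, smul_eq_mul]
      exact h3
  have h4 : ‖(2 : ℝ) • up c‖ = 2 * ‖up c‖ := by
    rw [norm_smul]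
    norm_num
  rw [← h4, ← h2]
  exact norm_add_le _ _

theorem cvx (h_RTS : T_RTS) (h_CHT : T_CHT) {R : ℝ} {f : E m → ℝ} (hR : 0 < R)
    (hf : SmE f) (h5 : ∀ x, 5 ≤ ‖x‖ → f x = 0)
    (hD : ∀ x, ‖x‖ ≤ 5 → ∀ v, 0 ≤ D2 (fun y => R * rt y + f y) x v v) (x y : E m) (s : ℝ)
    (hs : s ∈ Icc (0 : ℝ) 1) :
    R * rt (x + s • (y - x)) + f (x + s • (y - x)) ≤
      (1 - s) * (R * rt x + f x) + s * (R * rt y + f y) := by
  have hf2 : ContDiff ℝ 2 f := by exact_mod_cast contDiff_infty.1 hf 2
  have hr2 : ContDiff ℝ 2 (rt : E m → ℝ) := by exact_mod_cast contDiff_infty.1 (h_RTS m).1 2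
  have hw2 : ContDiff ℝ 2 (fun y : E m => R * rt y + f y) := (contDiff_const.mul hr2).add hf2
  set v : E m := y - x with hv
  by_cases hv0 : v = 0
  · have hyx : y = x := sub_eq_zero.1 hv0
    rw [hv0, smul_zero, add_zero, hyx]
    linarith
  have key : ∀ e : ℝ, 0 < e → e * rt (x + s • v) + (R * rt (x + s • v) + f (x + s • v)) ≤
      (1 - s) * (e * rt x + (R * rt x + f x)) + s * (e * rt y + (R * rt y + f y)) := by
    intro e he
    have hF2 : ContDiff ℝ 2 (fun y : E m => e * rt y + (R * rt y + f y)) :=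
      (contDiff_const.mul hr2).add hw2
    have h1 := lc (fun s => e * rt (x + s • v) + (R * rt (x + s • v) + f (x + s • v))) ?_ ?_ s hs
    · have h2 : x + (1 : ℝ) • v = y := by
        rw [one_smul, hv]
        abel
      have h3 : x + (0 : ℝ) • v = x := by rw [zero_smul, add_zero]
      simp only [h2, h3] at h1
      exact h1
    · have h2 : Continuous fun s : ℝ => x + s • v := by fun_prop
      exact (hF2.continuous.comp h2).continuousOn
    · intro t _
      by_cases h6 : ‖x + t • v‖ ≤ 5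
      · refine mid_of_pos hF2 x v t ?_
        have h7 := (gPRD m).2.2.1 (fun y : E m => e * rt y) (fun y : E m => R * rt y + f y)
          (contDiff_const.mul hr2) hw2 (x + t • v) v v
        have h8 := (gPRD m).2.2.2.1 e rt hr2 (x + t • v) v v
        have h9 := (h_RTS m).2 (x + t • v) h6 v
        have h10 := hD (x + t • v) h6 v
        have h11 : 0 < ‖v‖ ^ 2 / 150 := by
          have := norm_pos_iff.2 hv0
          positivity
        rw [h7, h8]
        have h12 : 0 < e * D2 rt (x + t • v) v v := mul_pos he (by linarith)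
        linarith
      · rw [not_le] at h6
        have h7 : Continuous fun s : ℝ => ‖x + s • v‖ := by fun_prop
        have h8 : ∀ᶠ s in 𝓝 t, 5 < ‖x + s • v‖ := h7.continuousAt.eventually (lt_mem_nhds h6)
        obtain ⟨δ, hδ, hb⟩ := Metric.eventually_nhds_iff.1 h8
        refine ⟨δ, hδ, fun ε h0 h1 => ?_⟩
        have h9 : f (x + t • v) = 0 := h5 _ h6.le
        have h10 : f (x + (t - ε) • v) = 0 := h5 _ (hb (by
          rw [Real.dist_eq, abs_lt]
          constructor <;> linarith)).le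
        have h11 : f (x + (t + ε) • v) = 0 := h5 _ (hb (by
          rw [Real.dist_eq, abs_lt]
          constructor <;> linarith)).le
        have h12 := rt_mid h_CHT (x + (t - ε) • v) (x + (t + ε) • v) (x + t • v) (by
          module)
        simp only [h9, h10, h11, add_zero]
        have h13 := mul_le_mul_of_nonneg_left h12 (by linarith : 0 ≤ e + R)
        linarith
  have hC : 0 ≤ (1 - s) * rt x + s * rt y :=
    add_nonneg (mul_nonneg (by linarith [hs.2]) (rt_nonneg x)) (mul_nonneg hs.1 (rt_nonneg y))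
  refine le_of_forall_pos_le_add fun η hη => ?_
  have hC1 : 0 < (1 - s) * rt x + s * rt y + 1 := by linarith
  have h1 := key (η / ((1 - s) * rt x + s * rt y + 1)) (div_pos hη hC1)
  have h2 : η / ((1 - s) * rt x + s * rt y + 1) * ((1 - s) * rt x + s * rt y) ≤ η := by
    rw [div_mul_eq_mul_div, div_le_iff₀ hC1]
    nlinarith
  have h3 : 0 ≤ η / ((1 - s) * rt x + s * rt y + 1) * rt (x + s • v) :=
    mul_nonneg (div_pos hη hC1).le (rt_nonneg _)
  have h4 : (1 - s) * (η / ((1 - s) * rt x + s * rt y + 1) * rt x + (R * rt x + f x)) +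
      s * (η / ((1 - s) * rt x + s * rt y + 1) * rt y + (R * rt y + f y)) =
      (1 - s) * (R * rt x + f x) + s * (R * rt y + f y) +
        η / ((1 - s) * rt x + s * rt y + 1) * ((1 - s) * rt x + s * rt y) := by ring
  rw [h4] at h1
  linarith

/-- The function which is to be the support function. -/
def Df (R : ℝ) (f : E m → ℝ) (v : E (m + 1)) : ℝ := R * ‖v‖ + hx f v

theorem hgt_add (u v : E (m + 1)) : hgt (u + v) = hgt u + hgt v := by
  simp [hgt]

theorem hgt_smul (t : ℝ) (v : E (m + 1)) : hgt (t • v) = t * hgt v := by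
  simp [hgt]

theorem hgt_cont : Continuous (hgt : E (m + 1) → ℝ) := by
  unfold hgt
  fun_prop

theorem norm_dn (h_CHT : T_CHT) (v : E (m + 1)) (hv : 0 < hgt v) : ‖v‖ = hgt v * rt (dn v) := by
  have h1 := (h_CHT m).2.2.2.2.2.2.1 v hv
  have h2 := ((h_CHT m).2.2.2.2.2.2.2.2.2.2.2 (dn v)).1
  have h3 := congrArg norm h1
  rw [norm_smul, h2, Real.norm_eq_abs, abs_of_pos hv] at h3
  exact h3.symm

theorem Df_pos (h_CHT : T_CHT) (R : ℝ) (f : E m → ℝ) (v : E (m + 1)) (hv : 0 < hgt v) :
    Df R f v = hgt v * (R * rt (dn v) + f (dn v)) := by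
  unfold Df hx
  rw [if_pos hv, norm_dn h_CHT v hv]
  ring

theorem Df_zero (R : ℝ) (f : E m → ℝ) : Df R f (0 : E (m + 1)) = 0 := by
  unfold Df hx
  have : hgt (0 : E (m + 1)) = 0 := by simp [hgt]
  rw [this, if_neg (lt_irrefl _)]
  simp

theorem dn_smul (t : ℝ) (ht : 0 < t) (v : E (m + 1)) : dn (t • v) = dn v := by
  ext i
  simp only [dn, PiLp.smul_apply, smul_eq_mul]
  exact mul_div_mul_left _ _ ht.ne'

theorem Df_smul (R : ℝ) (f : E m → ℝ) : Hom1 (Df R f) := by
  intro t ht v
  rcases ht.eq_or_lt with h | h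
  · rw [← h, zero_smul, Df_zero, zero_mul]
  · unfold Df hx
    rw [hgt_smul, dn_smul t h, norm_smul, Real.norm_eq_abs, abs_of_pos h]
    by_cases h1 : 0 < hgt v
    · rw [if_pos h1, if_pos (mul_pos h h1)]
      ring
    · rw [if_neg h1, if_neg (fun h2 => h1 ((mul_pos_iff_of_pos_left h).1 h2))]
      ring

theorem sub_pos (h_RTS : T_RTS) (h_CHT : T_CHT) {R : ℝ} {f : E m → ℝ} (hR : 0 < R)
    (hf : SmE f) (h5 : ∀ x, 5 ≤ ‖x‖ → f x = 0)
    (hD : ∀ x, ‖x‖ ≤ 5 → ∀ v, 0 ≤ D2 (fun y => R * rt y + f y) x v v) (u v : E (m + 1))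
    (hu : 0 < hgt u) (hv : 0 < hgt v) : Df R f (u + v) ≤ Df R f u + Df R f v := by
  have hp : 0 < hgt u + hgt v := by linarith
  have h1 : dn (u + v) = dn u + (hgt v / (hgt u + hgt v)) • (dn v - dn u) := by
    ext i
    have h2 : (u + v) (Fin.last m) = hgt u + hgt v := hgt_add u v
    simp only [dn, PiLp.add_apply, PiLp.smul_apply, PiLp.sub_apply, smul_eq_mul]
    have h3 : u (Fin.last m) = hgt u := rfl
    have h4 : v (Fin.last m) = hgt v := rfl
    rw [h3, h4]
    field_simp
    ring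
  rw [Df_pos h_CHT R f (u + v) (by rw [hgt_add]; exact hp), Df_pos h_CHT R f u hu,
    Df_pos h_CHT R f v hv, hgt_add, h1]
  have h2 := cvx h_RTS h_CHT hR hf h5 hD (dn u) (dn v) (hgt v / (hgt u + hgt v))
    ⟨by positivity, by rw [div_le_one hp]; linarith⟩
  refine (mul_le_mul_of_nonneg_left h2 hp.le).trans (le_of_eq ?_)
  field_simp
  ring

theorem hx_local (h_CHT : T_CHT) {f : E m → ℝ} (h5 : ∀ x, 5 ≤ ‖x‖ → f x = 0) (v : E (m + 1))
    (hv : v ≠ 0) (hh : hgt v ≤ 0) : ∀ᶠ u in 𝓝 v, hx f u = 0 := by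
  have hc : Continuous fun u : E (m + 1) => ‖u‖ ^ 2 - 26 * (max 0 (hgt u)) ^ 2 := by
    have := hgt_cont (m := m)
    fun_prop
  have h1 : 0 < ‖v‖ ^ 2 - 26 * (max 0 (hgt v)) ^ 2 := by
    rw [max_eq_left hh]
    have := norm_pos_iff.2 hv
    simp
    positivity
  filter_upwards [hc.continuousAt.eventually (lt_mem_nhds h1)] with u hu
  unfold hx
  split_ifs with h2
  · rw [max_eq_right h2.le, norm_dn h_CHT u h2] at hu
    have h3 : rt (dn u) ^ 2 = 1 + ‖dn u‖ ^ 2 := Real.sq_sqrt (by positivity)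
    have h4 : 0 < hgt u ^ 2 * (‖dn u‖ ^ 2 - 25) := by
      have h5 : (hgt u * rt (dn u)) ^ 2 - 26 * hgt u ^ 2 =
          hgt u ^ 2 * (rt (dn u) ^ 2 - 26) := by ring
      rw [h5, h3] at hu
      have h6 : 1 + ‖dn u‖ ^ 2 - 26 = ‖dn u‖ ^ 2 - 25 := by ring
      rw [h6] at hu
      exact hu
    have h5' : 0 < ‖dn u‖ ^ 2 - 25 := (mul_pos_iff_of_pos_left (by positivity)).1 h4
    rw [h5 (dn u) (by nlinarith [norm_nonneg (dn u)]), mul_zero]
  · rfl

theorem dn_cont (v : E (m + 1)) (hv : 0 < hgt v) : ContinuousAt (dn : E (m + 1) → E m) v := by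
  have h1 : ContinuousAt (fun u : E (m + 1) => fun i : Fin m =>
      u i.castSucc / u (Fin.last m)) v := by
    refine continuousAt_pi.2 fun i => ?_
    have h2 : Continuous fun u : E (m + 1) => u i.castSucc := by fun_prop
    have h3 : Continuous fun u : E (m + 1) => u (Fin.last m) := by fun_prop
    exact h2.continuousAt.div h3.continuousAt hv.ne'
  have h4 : Continuous (WithLp.toLp 2 : (Fin m → ℝ) → E m) := PiLp.continuous_toLp 2 _
  exact h4.continuousAt.comp h1

theorem Df_cont (h_CHT : T_CHT) (R : ℝ) {f : E m → ℝ} (hf : Continuous f)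
    (h5 : ∀ x, 5 ≤ ‖x‖ → f x = 0) : Continuous (Df R f : E (m + 1) → ℝ) := by
  rw [continuous_iff_continuousAt]
  intro v
  have h1 : ContinuousAt (fun v : E (m + 1) => R * ‖v‖) v := by fun_prop
  refine h1.add ?_
  by_cases hv : 0 < hgt v
  · have h2 : ∀ᶠ u in 𝓝 v, hgt u * f (dn u) = hx f u := by
      filter_upwards [hgt_cont.continuousAt.eventually (lt_mem_nhds hv)] with u hu
      unfold hx
      rw [if_pos hu]
    have h3 : ContinuousAt (fun u : E (m + 1) => hgt u * f (dn u)) v :=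
      hgt_cont.continuousAt.mul (hf.continuousAt.comp (dn_cont v hv))
    exact h3.congr h2
  · by_cases hv0 : v = 0
    · obtain ⟨M, hM⟩ : ∃ M : ℝ, ∀ x, |f x| ≤ M := by
        obtain ⟨C, hC⟩ := (isCompact_closedBall (0 : E m) 5).exists_bound_of_continuousOn
          hf.continuousOn
        refine ⟨max C 0, fun x => ?_⟩
        by_cases hx5 : ‖x‖ ≤ 5
        · have := hC x (mem_closedBall_zero_iff.2 hx5)
          rw [Real.norm_eq_abs] at this
          exact this.trans (le_max_left _ _)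
        · rw [h5 x (not_le.1 hx5).le, abs_zero]
          exact le_max_right _ _
      have hb : ∀ u : E (m + 1), |hx f u| ≤ |hgt u| * M := by
        intro u
        have hM0 : 0 ≤ M := (abs_nonneg _).trans (hM 0)
        unfold hx
        split_ifs
        · rw [abs_mul]
          exact mul_le_mul_of_nonneg_left (hM _) (abs_nonneg _)
        · rw [abs_zero]
          positivity
      have hz : hx f v = 0 := by
        unfold hx
        rw [if_neg hv]
      unfold ContinuousAt
      rw [hz]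
      have h2 : Tendsto (fun u : E (m + 1) => |hgt u| * M) (𝓝 v) (𝓝 0) := by
        have h3 : Continuous fun u : E (m + 1) => |hgt u| * M :=
          (hgt_cont.abs).mul continuous_const
        have h4 := h3.tendsto v
        have h6 : |hgt v| * M = 0 := by
          rw [hv0]
          simp [hgt]
        rwa [h6] at h4
      exact squeeze_zero_norm hb h2
    · have h2 := hx_local h_CHT h5 v hv0 (not_lt.1 hv)
      have h3 : ContinuousAt (fun _ : E (m + 1) => (0 : ℝ)) v := continuousAt_const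
      exact h3.congr (h2.mono fun u hu => hu.symm)

/-- Subadditivity if the segment does not contain zero. -/
theorem sub_seg (h_RTS : T_RTS) (h_CHT : T_CHT) {R : ℝ} {f : E m → ℝ} (hR : 0 < R)
    (hf : SmE f) (h5 : ∀ x, 5 ≤ ‖x‖ → f x = 0)
    (hD : ∀ x, ‖x‖ ≤ 5 → ∀ v, 0 ≤ D2 (fun y => R * rt y + f y) x v v) (u v : E (m + 1))
    (hs : ∀ s ∈ Ioo (0 : ℝ) 1, u + s • (v - u) ≠ 0) : Df R f (u + v) ≤ Df R f u + Df R f v := by
  have hcD := Df_cont (m := m) h_CHT R hf.continuous h5
  have hL : Continuous fun s : ℝ => u + s • (v - u) := by fun_prop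
  have h1 := lc (fun s => Df R f (u + s • (v - u))) (hcD.comp hL).continuousOn ?_ (1 / 2)
    ⟨by norm_num, by norm_num⟩
  · have h2 : u + (1 : ℝ) • (v - u) = v := by module
    have h3 : u + (0 : ℝ) • (v - u) = u := by module
    have h4 : u + (1 / 2 : ℝ) • (v - u) = (1 / 2 : ℝ) • (u + v) := by module
    simp only [h2, h3, h4] at h1
    rw [Df_smul R f (1 / 2) (by norm_num) (u + v)] at h1
    linarith
  · intro t ht
    have h0 := hs t ht
    have hsum : ∀ ε : ℝ, (u + (t - ε) • (v - u)) + (u + (t + ε) • (v - u)) =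
        (2 : ℝ) • (u + t • (v - u)) := by
      intro ε
      module
    by_cases hh : 0 < hgt (u + t • (v - u))
    · have h2 : ∀ᶠ s in 𝓝 t, 0 < hgt (u + s • (v - u)) :=
        (hgt_cont.comp hL).continuousAt.eventually (lt_mem_nhds hh)
      obtain ⟨δ, hδ, hb⟩ := Metric.eventually_nhds_iff.1 h2
      refine ⟨δ, hδ, fun ε k0 k1 => ?_⟩
      have h3 := sub_pos h_RTS h_CHT hR hf h5 hD (u + (t - ε) • (v - u))
        (u + (t + ε) • (v - u)) (hb (by
          rw [Real.dist_eq, abs_lt]
          constructor <;> linarith)) (hb (by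
          rw [Real.dist_eq, abs_lt]
          constructor <;> linarith))
      rw [hsum ε, Df_smul R f 2 (by norm_num)] at h3
      exact h3
    · have h2 : ∀ᶠ s in 𝓝 t, hx f (u + s • (v - u)) = 0 :=
        (hL.tendsto t).eventually (hx_local h_CHT h5 _ h0 (not_lt.1 hh))
      obtain ⟨δ, hδ, hb⟩ := Metric.eventually_nhds_iff.1 h2
      refine ⟨δ, hδ, fun ε k0 k1 => ?_⟩
      have h3 : hx f (u + t • (v - u)) = 0 := hb (by rw [dist_self]; exact hδ)
      have h4 : hx f (u + (t - ε) • (v - u)) = 0 := hb (by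
          rw [Real.dist_eq, abs_lt]
          constructor <;> linarith)
      have h6 : hx f (u + (t + ε) • (v - u)) = 0 := hb (by
          rw [Real.dist_eq, abs_lt]
          constructor <;> linarith)
      simp only [Df, h3, h4, h6, add_zero]
      have h7 := norm_add_le (u + (t - ε) • (v - u)) (u + (t + ε) • (v - u))
      rw [hsum ε, norm_smul, Real.norm_eq_abs, abs_of_pos (by norm_num : (0 : ℝ) < 2)] at h7
      have h8 := mul_le_mul_of_nonneg_left h7 hR.le
      linarith

theorem exists_out (hm : 1 ≤ m) (u : E (m + 1)) (hu : u ≠ 0) : ∃ e : E (m + 1),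
    ∀ c : ℝ, c • u ≠ e := by
  by_contra hn
  push Not at hn
  have h1 : Submodule.span ℝ {u} = ⊤ := by
    rw [eq_top_iff]
    intro e _
    obtain ⟨c, hc⟩ := hn e
    exact Submodule.mem_span_singleton.2 ⟨c, hc⟩
  have h2 := finrank_span_singleton (K := ℝ) hu
  rw [h1, finrank_top, finrank_euclideanSpace_fin] at h2
  omega

end LFE_

open LFE_ in
theorem p_LFE (h_RTS : T_RTS) (h_CHT : T_CHT) : T_LFE := by
  intro m R f hm hR hf h5 hD
  suffices hsub : ∀ u v : E (m + 1), Df R f (u + v) ≤ Df R f u + Df R f v by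
    obtain ⟨L, hL⟩ := gSUE (m + 1) (Df R f) (Df_smul R f) hsub
    exact ⟨L, hL⟩
  · intro u v
    by_cases hs : ∀ s ∈ Ioo (0 : ℝ) 1, u + s • (v - u) ≠ 0
    · exact sub_seg h_RTS h_CHT hR hf h5 hD u v hs
    · push Not at hs
      obtain ⟨s, hs, hs0⟩ := hs
      have hcD := Df_cont (m := m) h_CHT R hf.continuous h5
      by_cases hu : u = 0
      · rw [hu, zero_add, Df_zero, zero_add]
      · -- `v` is a multiple of `u`
        have hvu : v = (-((1 - s) / s)) • u := by
          have h1 : s • v = (-(1 - s)) • u := by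
            have h2 : u + s • (v - u) = s • v - (-(1 - s)) • u := by module
            rw [h2] at hs0
            exact sub_eq_zero.1 hs0
          have h3 : v = s⁻¹ • (s • v) := by
            rw [smul_smul, inv_mul_cancel₀ hs.1.ne', one_smul]
          rw [h3, h1, smul_smul]
          congr 1
          field_simp
        obtain ⟨e, he⟩ := exists_out hm u hu
        have hlim : ∀ δ : ℝ, 0 < δ → Df R f (u + (v + δ • e)) ≤ Df R f u + Df R f (v + δ • e) := by
          intro δ hδ
          refine sub_seg h_RTS h_CHT hR hf h5 hD u (v + δ • e) fun t ht h0 => ?_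
          refine he (-((1 - t) / (t * δ)) + (1 - s) / s / δ) ?_
          have h1 : (t * δ) • e = (-(1 - t)) • u + (t * ((1 - s) / s)) • u := by
            have h2 : u + t • (v + δ • e - u) =
                (t * δ) • e - ((-(1 - t)) • u + (t * ((1 - s) / s)) • u) := by
              rw [hvu]
              module
            rw [h2] at h0
            exact sub_eq_zero.1 h0
          have h3 : e = (t * δ)⁻¹ • ((t * δ) • e) := by
            rw [smul_smul, inv_mul_cancel₀ (mul_pos ht.1 hδ).ne', one_smul]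
          rw [h3, h1, ← add_smul, smul_smul]
          congr 1
          have h4 := ht.1.ne'
          have h6 := hs.1.ne'
          field_simp
        have h1 : Tendsto (fun δ : ℝ => Df R f (u + (v + δ • e))) (𝓝[>] 0)
            (𝓝 (Df R f (u + v))) := by
          have h2 : Continuous fun δ : ℝ => Df R f (u + (v + δ • e)) :=
            hcD.comp (by fun_prop)
          have h3 := h2.tendsto 0
          simp only [zero_smul, add_zero] at h3
          exact h3.mono_left nhdsWithin_le_nhds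
        have h2 : Tendsto (fun δ : ℝ => Df R f u + Df R f (v + δ • e)) (𝓝[>] 0)
            (𝓝 (Df R f u + Df R f v)) := by
          have h2 : Continuous fun δ : ℝ => Df R f u + Df R f (v + δ • e) :=
            continuous_const.add (hcD.comp (by fun_prop))
          have h3 := h2.tendsto 0
          simp only [zero_smul, add_zero] at h3
          exact h3.mono_left nhdsWithin_le_nhds
        refine le_of_tendsto_of_tendsto h1 h2 ?_
        filter_upwards [self_mem_nhdsWithin] with δ hδ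
        exact hlim δ hδ

end Pool.Agent.GNS
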