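import Pool.Agent.GNS.T3

/-!
# GNS: proof of target LFP (properties of the bodies)
-/

set_option autoImplicit false

open Metric Set Filter Topology MeasureTheory

noncomputable section

namespace Pool.Agent.GNS

open Pool.Agent.GLB

namespace LFP_

theorem hgt_le (hCHT : T_CHT) {m : ℕ} (v : E (m + 1)) : |hgt v| ≤ ‖v‖ := by
  obtain ⟨-, -, -, -, -, -, -, -, -, -, h, -⟩ := hCHT m
  refine abs_le_of_sq_le_sq ?_ (norm_nonneg v)
  rw [h v]
  have h1 : 0 ≤ ∑ i : Fin m, v i.castSucc ^ 2 := Finset.sum_nonneg fun i _ => sq_nonneg _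
  linarith

theorem hx_sub (hCHT : T_CHT) {m : ℕ} {M : ℝ} {f f' : E m → ℝ} (hM : 0 ≤ M)
    (h : ∀ x, |f x - f' x| ≤ M) (v : E (m + 1)) : |hx f v - hx f' v| ≤ M * ‖v‖ := by
  unfold hx
  split_ifs with h0
  · rw [← mul_sub, abs_mul, mul_comm M]
    exact mul_le_mul (hgt_le hCHT v) (h _) (abs_nonneg _) (norm_nonneg v)
  · simp only [sub_self, abs_zero]
    positivity

theorem hx_zero {m : ℕ} (v : E (m + 1)) : hx (fun _ => 0) v = 0 := by
  unfold hx
  simp

end LFP_

open LFP_ in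
theorem p_LFP (hCHT : T_CHT) : T_LFP := by
  intro m R M f f' L L' hR hM hL hL'
  refine ⟨fun x => ?_, fun hf => ?_, fun hff => ?_⟩
  · obtain ⟨-, -, -, -, -, -, -, -, -, -, -, h⟩ := hCHT m
    obtain ⟨h1, h2, h3⟩ := h x
    have h4 : ch L x = R * ‖up x‖ + hx f (up x) := hL (up x)
    rw [h4, h1]
    unfold hx
    rw [h2, h3, if_pos one_pos, one_mul]
  · refine (gSUL (m + 1) L L).2.2 (R + M) (add_nonneg hR hM) fun u => ?_
    rw [hL u, add_mul]
    have h1 := hx_sub hCHT (f := f) (f' := fun _ => 0) hM (fun x => by simpa using hf x) u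
    rw [hx_zero, sub_zero] at h1
    have h2 := (le_abs_self _).trans h1
    linarith
  · refine (gSUD (m + 1) L L').2 M hM fun u hu => ?_
    have h1 := hx_sub hCHT hM hff u
    rw [hu, mul_one] at h1
    rw [hL u, hL' u]
    have h2 : R * ‖u‖ + hx f u - (R * ‖u‖ + hx f' u) = hx f u - hx f' u := by ring
    rw [h2]
    exact h1

end Pool.Agent.GNS
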