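import Pool.Agent.GNS.T3
import Pool.Agent.GNS.T4

set_option autoImplicit false

/-!
# GNS, target LFS: the four bodies exist
-/

open Metric Set Filter Topology MeasureTheory

noncomputable section

namespace Pool.Agent.GNS

open Pool.Agent.GLB

namespace LFS_

variable {m : ℕ}

theorem c2 {f : E m → ℝ} (hf : SmE f) : ContDiff ℝ 2 f := contDiff_infty.1 hf 2

/-- second derivatives are bounded on a ball -/
theorem bound {f : E m → ℝ} (hf : SmE f) : ∃ B : ℝ, 0 ≤ B ∧ ∀ x, ‖x‖ ≤ 5 → ∀ v,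
    |D2 f x v v| ≤ B * ‖v‖ ^ 2 := by
  have h1 : Continuous (fderiv ℝ (fderiv ℝ f)) :=
    (GLB.PRD_.diff' (c2 hf)).continuous_fderiv (by norm_num)
  have h1n : Continuous fun x : E m => ‖fderiv ℝ (fderiv ℝ f) x‖ :=
    (continuous_norm (E := E m →L[ℝ] E m →L[ℝ] ℝ)).comp h1
  obtain ⟨B, hB⟩ := (isCompact_closedBall (0 : E m) 5).bddAbove_image h1n.continuousOn
  refine ⟨max B 0, le_max_right _ _, fun x hx v => ?_⟩
  have h2 : ‖fderiv ℝ (fderiv ℝ f) x‖ ≤ B :=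
    hB ⟨x, by rwa [mem_closedBall, dist_zero_right], rfl⟩
  have h3 := (fderiv ℝ (fderiv ℝ f) x).le_opNorm₂ v v
  rw [Real.norm_eq_abs] at h3
  unfold D2
  refine h3.trans ?_
  rw [mul_assoc, ← sq]
  exact mul_le_mul_of_nonneg_right (h2.trans (le_max_left _ _)) (sq_nonneg _)

theorem smooth_pm {f1 f2 : E m → ℝ} (h1 : SmE f1) (h2 : SmE f2) (a b : ℝ) :
    SmE fun y => a * f1 y + b * f2 y :=
  ContDiff.add (ContDiff.mul contDiff_const h1) (ContDiff.mul contDiff_const h2)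

/-- the lower bound for the second derivative -/
theorem key (h_RTS : T_RTS) {f1 f2 : E m → ℝ} (h1 : SmE f1) (h2 : SmE f2) (B : ℝ)
    (hB1 : ∀ x, ‖x‖ ≤ 5 → ∀ v, |D2 f1 x v v| ≤ B * ‖v‖ ^ 2)
    (hB2 : ∀ x, ‖x‖ ≤ 5 → ∀ v, |D2 f2 x v v| ≤ B * ‖v‖ ^ 2) (a b : ℝ)
    (ha : |a| * B ≤ 1 / 600) (hb : |b| * B ≤ 1 / 600) (x : E m) (hx : ‖x‖ ≤ 5) (v : E m) :
    1 / 300 * ‖v‖ ^ 2 ≤ D2 (fun y => 1 * rt y + (a * f1 y + b * f2 y)) x v v := by
  obtain ⟨-, -, hadd, hmul, -⟩ := gPRD m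
  obtain ⟨hrt, hr⟩ := h_RTS m
  have e1 : D2 (fun y => 1 * rt y + (a * f1 y + b * f2 y)) x v v =
      D2 rt x v v + (a * D2 f1 x v v + b * D2 f2 x v v) := by
    have c1 : ContDiff ℝ 2 (fun y : E m => 1 * rt y) := contDiff_const.mul (c2 hrt)
    have c3 : ContDiff ℝ 2 (fun y : E m => a * f1 y) := contDiff_const.mul (c2 h1)
    have c4 : ContDiff ℝ 2 (fun y : E m => b * f2 y) := contDiff_const.mul (c2 h2)
    rw [hadd _ _ c1 (c3.add c4), hadd _ _ c3 c4, hmul 1 _ (c2 hrt), hmul a _ (c2 h1),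
      hmul b _ (c2 h2), one_mul]
  rw [e1]
  have b0 := hr x hx v
  have b1 : -(1 / 600 * ‖v‖ ^ 2) ≤ a * D2 f1 x v v := by
    have h3 : |a * D2 f1 x v v| ≤ 1 / 600 * ‖v‖ ^ 2 := by
      rw [abs_mul]
      calc |a| * |D2 f1 x v v| ≤ |a| * (B * ‖v‖ ^ 2) :=
            mul_le_mul_of_nonneg_left (hB1 x hx v) (abs_nonneg a)
        _ = (|a| * B) * ‖v‖ ^ 2 := by ring
        _ ≤ 1 / 600 * ‖v‖ ^ 2 := mul_le_mul_of_nonneg_right ha (sq_nonneg _)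
    exact (abs_le.1 h3).1
  have b2 : -(1 / 600 * ‖v‖ ^ 2) ≤ b * D2 f2 x v v := by
    have h3 : |b * D2 f2 x v v| ≤ 1 / 600 * ‖v‖ ^ 2 := by
      rw [abs_mul]
      calc |b| * |D2 f2 x v v| ≤ |b| * (B * ‖v‖ ^ 2) :=
            mul_le_mul_of_nonneg_left (hB2 x hx v) (abs_nonneg b)
        _ = (|b| * B) * ‖v‖ ^ 2 := by ring
        _ ≤ 1 / 600 * ‖v‖ ^ 2 := mul_le_mul_of_nonneg_right hb (sq_nonneg _)
    exact (abs_le.1 h3).1
  linarith

end LFS_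

open LFS_ in
theorem p_LFS (h_RTS : T_RTS) (h_LFE : T_LFE) : T_LFS := by
  intro m f1 f2 hm h1 h2 hout
  obtain ⟨B1, hB1, k1⟩ := bound h1
  obtain ⟨B2, hB2, k2⟩ := bound h2
  set B : ℝ := max B1 B2 with hB
  have hB0 : 0 ≤ B := hB1.trans (le_max_left _ _)
  have k1' : ∀ x, ‖x‖ ≤ 5 → ∀ v, |D2 f1 x v v| ≤ B * ‖v‖ ^ 2 := fun x hx v =>
    (k1 x hx v).trans (mul_le_mul_of_nonneg_right (le_max_left _ _) (sq_nonneg _))
  have k2' : ∀ x, ‖x‖ ≤ 5 → ∀ v, |D2 f2 x v v| ≤ B * ‖v‖ ^ 2 := fun x hx v =>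
    (k2 x hx v).trans (mul_le_mul_of_nonneg_right (le_max_right _ _) (sq_nonneg _))
  set s : ℝ := 1 / (600 * (B + 1)) with hs
  have hs0 : 0 < s := by positivity
  have hsB : s * B ≤ 1 / 600 := by
    have e : s * (B + 1) = 1 / 600 := by
      rw [hs]
      field_simp
    have h3 : s * B ≤ s * (B + 1) := mul_le_mul_of_nonneg_left (by linarith) hs0.le
    linarith
  have hsgn : ∀ i : Fin 2, |(-1 : ℝ) ^ (i : ℕ) * s| * B ≤ 1 / 600 := by
    intro i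
    rw [abs_mul, abs_pow, abs_neg, abs_one, one_pow, one_mul, abs_of_pos hs0]
    exact hsB
  have hkey : ∀ i j : Fin 2, ∀ x : E m, ‖x‖ ≤ 5 → ∀ v, 1 / 300 * ‖v‖ ^ 2 ≤
      D2 (fun y => 1 * rt y + pm s s f1 f2 i j y) x v v := fun i j x hx v =>
    key h_RTS h1 h2 B k1' k2' _ _ (hsgn i) (hsgn j) x hx v
  have hsm : ∀ i j : Fin 2, SmE (pm s s f1 f2 i j) := fun i j => smooth_pm h1 h2 _ _
  have hzero : ∀ i j : Fin 2, ∀ x : E m, 7 / 2 ≤ ‖x‖ → pm s s f1 f2 i j x = 0 := by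
    intro i j x hx
    unfold pm
    rw [(hout x hx).1, (hout x hx).2]
    ring
  refine ⟨s, s, hs0, hs0, fun i j => ⟨hsm i j, fun x hx => hzero i j x (by linarith),
    by norm_num, fun x hx v => hkey i j x (by linarith) v⟩, ?_⟩
  have hex : ∀ i j : Fin 2, ∃ L : ConvexBody (E (m + 1)), IsLf 1 (pm s s f1 f2 i j) L := by
    intro i j
    refine h_LFE m 1 _ hm one_pos (hsm i j) (fun x hx => hzero i j x (by linarith)) ?_
    intro x hx v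
    exact le_trans (by positivity) (hkey i j x hx v)
  choose L hL using hex
  exact ⟨L, hL⟩

end Pool.Agent.GNS
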