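import Pool.Agent.GNS.T1

/-!
# GNS: the transform in the second variable, first derivatives
-/

set_option autoImplicit false

open Metric Set Filter Topology MeasureTheory

noncomputable section

namespace Pool.Agent.GNS

namespace LG1_

/-- the directional derivative in the `y` variables is increasing -/
theorem mono {η : ℝ} {F : V → ℝ} (hη : 0 < η) (hF : SC η F) (z : V) (a b : ℝ) :
    Monotone fun t : ℝ => a * d 2 F (z + t • ((0, (a, b)) : V)) +
      b * d 3 F (z + t • ((0, (a, b)) : V)) := by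
  have hd : ∀ t : ℝ, HasDerivAt (fun t : ℝ => a * d 2 F (z + t • ((0, (a, b)) : V)) +
      b * d 3 F (z + t • ((0, (a, b)) : V)))
      (a * fderiv ℝ (d 2 F) (z + t • ((0, (a, b)) : V)) (0, (a, b)) +
      b * fderiv ℝ (d 3 F) (z + t • ((0, (a, b)) : V)) (0, (a, b))) t := by
    intro t
    exact ((line_deriv (hF.sm.d 2) z (0, (a, b)) t).const_mul a).add
      ((line_deriv (hF.sm.d 3) z (0, (a, b)) t).const_mul b)
  refine monotone_of_deriv_nonneg (fun t => (hd t).differentiableAt) fun t => ?_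
  rw [(hd t).deriv, fd_eq, fd_eq]
  have h1 := hF.pos (z + t • ((0, (a, b)) : V)) a b
  have h2 := d_comm hF.sm 3 2 (z + t • ((0, (a, b)) : V))
  have h3 : 0 ≤ η * (a ^ 2 + b ^ 2) := by positivity
  simp only [Prod.fst_zero, Prod.snd_zero, zero_mul, zero_add]
  rw [h2]
  linarith

/-- convexity in the `y` variables -/
theorem key {η : ℝ} {F : V → ℝ} (hη : 0 < η) (hF : SC η F) (z : V) (y : X2) :
    F z + (d 2 F z * (y.1 - z.2.1) + d 3 F z * (y.2 - z.2.2)) ≤ F (z.1, y) := by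
  obtain ⟨a, ha⟩ : ∃ a, a = y.1 - z.2.1 := ⟨_, rfl⟩
  obtain ⟨b, hb⟩ : ∃ b, b = y.2 - z.2.2 := ⟨_, rfl⟩
  rw [← ha, ← hb]
  have hm := mono hη hF z a b
  obtain ⟨c, hc, hc'⟩ := exists_hasDerivAt_eq_slope (fun t : ℝ => F (z + t • ((0, (a, b)) : V)))
    (fun t => fderiv ℝ F (z + t • ((0, (a, b)) : V)) (0, (a, b))) (zero_lt_one' ℝ)
    (fun t _ => (line_deriv hF.sm z _ t).continuousAt.continuousWithinAt)
    (fun t _ => line_deriv hF.sm z _ t)
  have h0 := hm hc.1.le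
  have e1 : z + (1 : ℝ) • ((0, (a, b)) : V) = (z.1, y) := by
    rw [ha, hb]
    ext <;> simp
  have e0 : z + (0 : ℝ) • ((0, (a, b)) : V) = z := by simp
  simp only at h0 hc'
  rw [e0] at h0 hc'
  rw [e1, fd_eq] at hc'
  simp only [Prod.fst_zero, Prod.snd_zero, zero_mul, zero_add] at hc'
  rw [sub_zero, div_one] at hc'
  linarith

/-- the supremum is attained -/
theorem greatest {η : ℝ} {F : V → ℝ} (hη : 0 < η) (hF : SC η F) (z : V) :
    IsGreatest (range fun y : X2 => (gy F z).2.1 * y.1 + (gy F z).2.2 * y.2 -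
      F ((gy F z).1, y)) (d 2 F z * z.2.1 + d 3 F z * z.2.2 - F z) := by
  constructor
  · exact ⟨z.2, rfl⟩
  · rintro _ ⟨y, rfl⟩
    have h := key hη hF z y
    show d 2 F z * y.1 + d 3 F z * y.2 - F (z.1, y) ≤ _
    linarith

theorem leg_eq {η : ℝ} {F : V → ℝ} (hη : 0 < η) (hF : SC η F) (z : V) :
    Leg F (gy F z) = d 2 F z * z.2.1 + d 3 F z * z.2.2 - F z :=
  (greatest hη hF z).csSup_eq

/-- the affine lower bound as a smooth function -/
theorem low_sm {F : V → ℝ} (hF : Sm F) (y : X2) :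
    Sm fun q : V => q.2.1 * y.1 + q.2.2 * y.2 - F (q.1, y) := by
  have h1 : ContDiff ℝ ((⊤ : ℕ∞) : WithTop ℕ∞) fun q : V => q.2.1 * y.1 + q.2.2 * y.2 := by
    fun_prop
  have h2 : ContDiff ℝ ((⊤ : ℕ∞) : WithTop ℕ∞) fun q : V => F (q.1, y) :=
    hF.cd.comp (contDiff_fst.prodMk contDiff_const)
  exact h1.sub h2

theorem low_d {F : V → ℝ} (hF : Sm F) (y : X2) (i : Fin 4) (q : V) :
    d i (fun q : V => q.2.1 * y.1 + q.2.2 * y.2 - F (q.1, y)) q =
      (e i).2.1 * y.1 + (e i).2.2 * y.2 - fderiv ℝ F (q.1, y) ((e i).1, ((0 : ℝ), (0 : ℝ))) := by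
  have h1 : HasFDerivAt (fun q : V => q.2.1 * y.1 + q.2.2 * y.2)
      (y.1 • (ContinuousLinearMap.fst ℝ ℝ ℝ).comp (ContinuousLinearMap.snd ℝ X2 X2) +
        y.2 • (ContinuousLinearMap.snd ℝ ℝ ℝ).comp (ContinuousLinearMap.snd ℝ X2 X2)) q := by
    refine (ContinuousLinearMap.hasFDerivAt _).congr_of_eventuallyEq
      (Eventually.of_forall fun q => ?_)
    simp [mul_comm]
  have h2 : HasFDerivAt (fun q : V => F (q.1, y)) ((fderiv ℝ F (q.1, y)).comp
      ((ContinuousLinearMap.fst ℝ X2 X2).prod (0 : V →L[ℝ] X2))) q := by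
    have h3 : HasFDerivAt (fun q : V => ((q.1, y) : V))
        ((ContinuousLinearMap.fst ℝ X2 X2).prod (0 : V →L[ℝ] X2)) q :=
      hasFDerivAt_fst.prodMk (hasFDerivAt_const y q)
    exact (hF.dAt ((q.1, y) : V)).hasFDerivAt.comp q h3
  unfold d
  rw [(h1.fun_sub h2).fderiv]
  simp [mul_comm]
  rfl

end LG1_

open LG1_

theorem p_LG1 (h_INV : T_INV) : T_LG1 := by
  intro η F hη hF
  obtain ⟨H, hH, hg, -⟩ := h_INV η F hη hF
  have hle : ∀ (q : V) (y : X2), q.2.1 * y.1 + q.2.2 * y.2 - F (q.1, y) ≤ Leg F q := by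
    intro q y
    have h1 := (greatest hη hF (H q)).bddAbove
    have h2 := le_csSup h1 ⟨y, rfl⟩
    rw [hg] at h2
    exact h2
  have hLeg : ∀ q, Leg F q = q.2.1 * (H q).2.1 + q.2.2 * (H q).2.2 - F (H q) := by
    intro q
    have h1 := leg_eq hη hF (H q)
    have h2 := hg q
    rw [h2] at h1
    rw [h1, ← h2]
    have h3 : H (gy F (H q)) = H q := by rw [h2]
    simp only [h3]
    rfl
  have hsm : Sm (Leg F) := by
    have h1 : Leg F = fun q => q.2.1 * (H q).2.1 + q.2.2 * (H q).2.2 - F (H q) := funext hLeg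
    rw [h1]
    have h2 : ContDiff ℝ ((⊤ : ℕ∞) : WithTop ℕ∞) fun q => F (H q) := hF.sm.cd.comp hH
    have h3 : ContDiff ℝ ((⊤ : ℕ∞) : WithTop ℕ∞) fun q : V =>
        q.2.1 * (H q).2.1 + q.2.2 * (H q).2.2 := by
      fun_prop
    exact h3.sub h2
  refine ⟨hsm, fun z => ⟨leg_eq hη hF z, ?_⟩⟩
  have hd : ∀ i, d i (Leg F) (gy F z) =
      (e i).2.1 * z.2.1 + (e i).2.2 * z.2.2 - fderiv ℝ F z ((e i).1, ((0 : ℝ), (0 : ℝ))) := by
    intro i
    have h1 : IsLocalMin (fun q => Leg F q - (q.2.1 * z.2.1 + q.2.2 * z.2.2 - F (q.1, z.2)))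
        (gy F z) := by
      refine Eventually.of_forall fun q => ?_
      have h2 : Leg F (gy F z) - ((gy F z).2.1 * z.2.1 + (gy F z).2.2 * z.2.2 -
          F ((gy F z).1, z.2)) = 0 := by
        rw [leg_eq hη hF z]
        exact sub_self _
      simp only
      rw [h2]
      linarith [hle q z.2]
    have h3 : d i (fun q => Leg F q - (q.2.1 * z.2.1 + q.2.2 * z.2.2 - F (q.1, z.2)))
        (gy F z) = 0 := by
      unfold d
      rw [h1.fderiv_eq_zero]
      rfl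
    rw [d_sub hsm (low_sm hF.sm z.2), low_d hF.sm] at h3
    have h4 : (((gy F z).1, z.2) : V) = z := rfl
    rw [h4] at h3
    linarith
  have h0 : fderiv ℝ F z ((0, 0), (0, 0)) = 0 := map_zero _
  refine ⟨?_, ?_, ?_, ?_, fun y => hle z y⟩
  · rw [hd]
    simp [e, d]
  · rw [hd]
    simp [e, d]
  · rw [hd]
    simp [e, h0]
  · rw [hd]
    simp [e, h0]

end Pool.Agent.GNS
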