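import Pool.Agent.GNS.T1

/-!
# GNS: LG2, second derivatives of the Legendre transform
-/

set_option autoImplicit false

open Metric Set Filter Topology MeasureTheory

noncomputable section

namespace Pool.Agent.GNS

namespace LG2_

theorem d_comp_gy {F g : V → ℝ} (hF : Sm F) (hg : Sm g) (i : Fin 4) (z : V) :
    d i (fun z => g (gy F z)) z =
      (e i).1.1 * d 0 g (gy F z) + (e i).1.2 * d 1 g (gy F z) +
        d i (d 2 F) z * d 2 g (gy F z) + d i (d 3 F) z * d 3 g (gy F z) := by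
  have h2 : HasFDerivAt (d 2 F) (fderiv ℝ (d 2 F) z) z := ((hF.d 2).dAt z).hasFDerivAt
  have h3 : HasFDerivAt (d 3 F) (fderiv ℝ (d 3 F) z) z := ((hF.d 3).dAt z).hasFDerivAt
  have h1 : HasFDerivAt (gy F) ((ContinuousLinearMap.fst ℝ X2 X2).prod
      ((fderiv ℝ (d 2 F) z).prod (fderiv ℝ (d 3 F) z))) z := by
    have := (hasFDerivAt_fst (𝕜 := ℝ) (p := z)).prodMk (h2.prodMk h3)
    exact this
  have h4 : HasFDerivAt (fun z => g (gy F z)) _ z :=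
    ((hg.dAt (gy F z)).hasFDerivAt).comp z h1
  have h5 : d i (fun z => g (gy F z)) z = fderiv ℝ g (gy F z)
      (((ContinuousLinearMap.fst ℝ X2 X2).prod
      ((fderiv ℝ (d 2 F) z).prod (fderiv ℝ (d 3 F) z))) (e i)) := by
    unfold d at h4 ⊢
    rw [h4.fderiv]
    rfl
  rw [h5, fd_eq]
  rfl

theorem d_p21 (i : Fin 4) (z : V) : d i (fun z : V => z.2.1) z = (e i).2.1 := by
  have h : HasFDerivAt (fun z : V => z.2.1)
      ((ContinuousLinearMap.fst ℝ ℝ ℝ).comp (ContinuousLinearMap.snd ℝ X2 X2)) z :=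
    ((ContinuousLinearMap.fst ℝ ℝ ℝ).comp (ContinuousLinearMap.snd ℝ X2 X2)).hasFDerivAt
  unfold d
  rw [h.fderiv]
  rfl

theorem d_p22 (i : Fin 4) (z : V) : d i (fun z : V => z.2.2) z = (e i).2.2 := by
  have h : HasFDerivAt (fun z : V => z.2.2)
      ((ContinuousLinearMap.snd ℝ ℝ ℝ).comp (ContinuousLinearMap.snd ℝ X2 X2)) z :=
    ((ContinuousLinearMap.snd ℝ ℝ ℝ).comp (ContinuousLinearMap.snd ℝ X2 X2)).hasFDerivAt
  unfold d
  rw [h.fderiv]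
  rfl

theorem e0 : e 0 = ((1, 0), (0, 0)) := rfl
theorem e1 : e 1 = ((0, 1), (0, 0)) := rfl
theorem e2 : e 2 = ((0, 0), (1, 0)) := rfl
theorem e3 : e 3 = ((0, 0), (0, 1)) := rfl

/-- The algebra of the second derivatives. -/
structure Alg (f00 f11 f02 f03 f12 f13 f22 f23 f33 g00 g11 g02 g03 g12 g13 g22 g23 g33 : ℝ) :
    Prop where
  c0 : g02 + f02 * g22 + f03 * g23 = 0
  c1 : g12 + f12 * g22 + f13 * g23 = 0
  c2 : f22 * g22 + f23 * g23 = 1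
  c3 : f23 * g22 + f33 * g23 = 0
  d0 : g03 + f02 * g23 + f03 * g33 = 0
  d1 : g13 + f12 * g23 + f13 * g33 = 0
  d2 : f22 * g23 + f23 * g33 = 0
  d3 : f23 * g23 + f33 * g33 = 1
  a0 : g00 + f02 * g02 + f03 * g03 = -f00
  b1 : g11 + f12 * g12 + f13 * g13 = -f11

theorem Alg.inv {f00 f11 f02 f03 f12 f13 f22 f23 f33 g00 g11 g02 g03 g12 g13 g22 g23 g33 : ℝ}
    (h : Alg f00 f11 f02 f03 f12 f13 f22 f23 f33 g00 g11 g02 g03 g12 g13 g22 g23 g33) :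
    g22 * (f22 * f33 - f23 ^ 2) = f33 ∧ g23 * (f22 * f33 - f23 ^ 2) = -f23 ∧
      g33 * (f22 * f33 - f23 ^ 2) = f22 ∧ (g22 * g33 - g23 ^ 2) * (f22 * f33 - f23 ^ 2) = 1 := by
  have e1 : g22 * (f22 * f33 - f23 ^ 2) = f33 := by
    linear_combination f33 * h.c2 - f23 * h.c3
  have e2 : g23 * (f22 * f33 - f23 ^ 2) = -f23 := by
    linear_combination f22 * h.c3 - f23 * h.c2
  have e3 : g33 * (f22 * f33 - f23 ^ 2) = f22 := by
    linear_combination f22 * h.d3 - f23 * h.d2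
  refine ⟨e1, e2, e3, ?_⟩
  linear_combination g33 * e1 - g23 * e2 + h.d3

theorem Alg.t12 {f00 f11 f02 f03 f12 f13 f22 f23 f33 g00 g11 g02 g03 g12 g13 g22 g23 g33 : ℝ}
    (h : Alg f00 f11 f02 f03 f12 f13 f22 f23 f33 g00 g11 g02 g03 g12 g13 g22 g23 g33) :
    f02 * f13 - f03 * f12 = (g02 * g13 - g03 * g12) * (f22 * f33 - f23 ^ 2) := by
  obtain ⟨_, _, _, e4⟩ := h.inv
  have h02 : g02 = -(f02 * g22 + f03 * g23) := by linarith [h.c0]
  have h12 : g12 = -(f12 * g22 + f13 * g23) := by linarith [h.c1]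
  have h03 : g03 = -(f02 * g23 + f03 * g33) := by linarith [h.d0]
  have h13 : g13 = -(f12 * g23 + f13 * g33) := by linarith [h.d1]
  rw [h02, h12, h03, h13]
  linear_combination -(f02 * f13 - f03 * f12) * e4

theorem Alg.s0 {f00 f11 f02 f03 f12 f13 f22 f23 f33 g00 g11 g02 g03 g12 g13 g22 g23 g33 : ℝ}
    (h : Alg f00 f11 f02 f03 f12 f13 f22 f23 f33 g00 g11 g02 g03 g12 g13 g22 g23 g33)
    (hD : f22 * f33 - f23 ^ 2 ≠ 0) :
    f00 * (f22 + f33) - f02 ^ 2 - f03 ^ 2 =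
      -(g00 * (g22 + g33) - g02 ^ 2 - g03 ^ 2) * (f22 * f33 - f23 ^ 2) := by
  obtain ⟨e1, e2, e3, _⟩ := h.inv
  have h22 : g22 = f33 / (f22 * f33 - f23 ^ 2) := by rw [eq_div_iff hD]; exact e1
  have h23 : g23 = -f23 / (f22 * f33 - f23 ^ 2) := by rw [eq_div_iff hD]; exact e2
  have h33 : g33 = f22 / (f22 * f33 - f23 ^ 2) := by rw [eq_div_iff hD]; exact e3
  have h02 : g02 = -(f02 * g22 + f03 * g23) := by linarith [h.c0]
  have h03 : g03 = -(f02 * g23 + f03 * g33) := by linarith [h.d0]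
  have h00 : g00 = -(f00 + f02 * g02 + f03 * g03) := by linarith [h.a0]
  rw [h00, h02, h03, h22, h23, h33]
  field_simp
  ring

theorem Alg.s1 {f00 f11 f02 f03 f12 f13 f22 f23 f33 g00 g11 g02 g03 g12 g13 g22 g23 g33 : ℝ}
    (h : Alg f00 f11 f02 f03 f12 f13 f22 f23 f33 g00 g11 g02 g03 g12 g13 g22 g23 g33)
    (hD : f22 * f33 - f23 ^ 2 ≠ 0) :
    f11 * (f22 + f33) - f12 ^ 2 - f13 ^ 2 =
      -(g11 * (g22 + g33) - g12 ^ 2 - g13 ^ 2) * (f22 * f33 - f23 ^ 2) := by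
  obtain ⟨e1, e2, e3, _⟩ := h.inv
  have h22 : g22 = f33 / (f22 * f33 - f23 ^ 2) := by rw [eq_div_iff hD]; exact e1
  have h23 : g23 = -f23 / (f22 * f33 - f23 ^ 2) := by rw [eq_div_iff hD]; exact e2
  have h33 : g33 = f22 / (f22 * f33 - f23 ^ 2) := by rw [eq_div_iff hD]; exact e3
  have h12 : g12 = -(f12 * g22 + f13 * g23) := by linarith [h.c1]
  have h13 : g13 = -(f12 * g23 + f13 * g33) := by linarith [h.d1]
  have h11 : g11 = -(f11 + f12 * g12 + f13 * g13) := by linarith [h.b1]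
  rw [h11, h12, h13, h22, h23, h33]
  field_simp
  ring

theorem alg (h_LG1 : T_LG1) {η : ℝ} {F : V → ℝ} (hη : 0 < η) (hF : SC η F) (z : V) :
    Alg (d 0 (d 0 F) z) (d 1 (d 1 F) z) (d 0 (d 2 F) z) (d 0 (d 3 F) z) (d 1 (d 2 F) z)
      (d 1 (d 3 F) z) (d 2 (d 2 F) z) (d 2 (d 3 F) z) (d 3 (d 3 F) z)
      (d 0 (d 0 (Leg F)) (gy F z)) (d 1 (d 1 (Leg F)) (gy F z)) (d 0 (d 2 (Leg F)) (gy F z))
      (d 0 (d 3 (Leg F)) (gy F z)) (d 1 (d 2 (Leg F)) (gy F z)) (d 1 (d 3 (Leg F)) (gy F z))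
      (d 2 (d 2 (Leg F)) (gy F z)) (d 2 (d 3 (Leg F)) (gy F z))
      (d 3 (d 3 (Leg F)) (gy F z)) := by
  obtain ⟨hG, hz⟩ := h_LG1 η F hη hF
  have hFs := hF.sm
  have k0 : (fun z => d 0 (Leg F) (gy F z)) = fun z => -d 0 F z := funext fun z => (hz z).2.1
  have k1 : (fun z => d 1 (Leg F) (gy F z)) = fun z => -d 1 F z :=
    funext fun z => (hz z).2.2.1
  have k2 : (fun z => d 2 (Leg F) (gy F z)) = fun z : V => z.2.1 :=
    funext fun z => (hz z).2.2.2.1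
  have k3 : (fun z => d 3 (Leg F) (gy F z)) = fun z : V => z.2.2 :=
    funext fun z => (hz z).2.2.2.2.1
  have m2 : ∀ i, (e i).2.1 = (e i).1.1 * d 0 (d 2 (Leg F)) (gy F z) +
      (e i).1.2 * d 1 (d 2 (Leg F)) (gy F z) + d i (d 2 F) z * d 2 (d 2 (Leg F)) (gy F z) +
        d i (d 3 F) z * d 3 (d 2 (Leg F)) (gy F z) := by
    intro i
    rw [← d_comp_gy hFs (hG.d 2) i z, k2, d_p21]
  have m3 : ∀ i, (e i).2.2 = (e i).1.1 * d 0 (d 3 (Leg F)) (gy F z) +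
      (e i).1.2 * d 1 (d 3 (Leg F)) (gy F z) + d i (d 2 F) z * d 2 (d 3 (Leg F)) (gy F z) +
        d i (d 3 F) z * d 3 (d 3 (Leg F)) (gy F z) := by
    intro i
    rw [← d_comp_gy hFs (hG.d 3) i z, k3, d_p22]
  have m0 : -d 0 (d 0 F) z = (e 0).1.1 * d 0 (d 0 (Leg F)) (gy F z) +
      (e 0).1.2 * d 1 (d 0 (Leg F)) (gy F z) + d 0 (d 2 F) z * d 2 (d 0 (Leg F)) (gy F z) +
        d 0 (d 3 F) z * d 3 (d 0 (Leg F)) (gy F z) := by
    rw [← d_comp_gy hFs (hG.d 0) 0 z, k0, d_neg]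
  have m1 : -d 1 (d 1 F) z = (e 1).1.1 * d 0 (d 1 (Leg F)) (gy F z) +
      (e 1).1.2 * d 1 (d 1 (Leg F)) (gy F z) + d 1 (d 2 F) z * d 2 (d 1 (Leg F)) (gy F z) +
        d 1 (d 3 F) z * d 3 (d 1 (Leg F)) (gy F z) := by
    rw [← d_comp_gy hFs (hG.d 1) 1 z, k1, d_neg]
  have s32 := d_comm hG 3 2 (gy F z)
  have s20 := d_comm hG 2 0 (gy F z)
  have s30 := d_comm hG 3 0 (gy F z)
  have s21 := d_comm hG 2 1 (gy F z)
  have s31 := d_comm hG 3 1 (gy F z)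
  have t32 := d_comm hFs 3 2 z
  have m20 := m2 0
  have m21 := m2 1
  have m22 := m2 2
  have m23 := m2 3
  have m30 := m3 0
  have m31 := m3 1
  have m32 := m3 2
  have m33 := m3 3
  rw [e0] at m20 m30 m0
  rw [e1] at m21 m31 m1
  rw [e2] at m22 m32
  rw [e3] at m23 m33
  rw [s32] at m20 m21 m22 m23
  rw [t32] at m23 m33
  rw [s20, s30] at m0
  rw [s21, s31] at m1
  dsimp only at m20 m21 m22 m23 m30 m31 m32 m33 m0 m1
  constructor <;> linarith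

theorem jac_pos {η : ℝ} {F : V → ℝ} (hη : 0 < η) (hF : SC η F) (z : V) : 0 < jac F z := by
  have h1 := hF.pos z 1 0
  have h2 := hF.pos z (d 2 (d 3 F) z) (-d 2 (d 2 F) z)
  have h3 : η ≤ d 2 (d 2 F) z := by nlinarith [h1]
  have h4 : 0 < d 2 (d 2 F) z := by linarith
  unfold jac
  have h5 : 0 < d 2 (d 2 F) z * (d 2 (d 2 F) z * d 3 (d 3 F) z - d 2 (d 3 F) z ^ 2) := by
    have h6 : 0 < η * (d 2 (d 3 F) z ^ 2 + (-d 2 (d 2 F) z) ^ 2) := by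
      apply mul_pos hη
      have : 0 < (-d 2 (d 2 F) z) ^ 2 := by
        rw [neg_sq]; positivity
      positivity
    nlinarith [h2, h6]
  exact (mul_pos_iff_of_pos_left h4).mp h5

theorem low {η x y w : ℝ} (hη : 0 < η)
    (h : ∀ a b : ℝ, η * (a ^ 2 + b ^ 2) ≤ a ^ 2 * x + 2 * a * b * y + b ^ 2 * w) (a b : ℝ) :
    0 ≤ a ^ 2 * w - 2 * a * b * y + b ^ 2 * x := by
  have h1 := h b (-a)
  have h2 : 0 ≤ η * (b ^ 2 + (-a) ^ 2) := by positivity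
  nlinarith

theorem upp {η x y w : ℝ} (hη : 0 < η)
    (h : ∀ a b : ℝ, η * (a ^ 2 + b ^ 2) ≤ a ^ 2 * x + 2 * a * b * y + b ^ 2 * w) (a b : ℝ) :
    η * (a ^ 2 * w - 2 * a * b * y + b ^ 2 * x) ≤ (a ^ 2 + b ^ 2) * (x * w - y ^ 2) := by
  have h1 : ∀ t : ℝ, 0 ≤ (x - η) * (t * t) + 2 * y * t + (w - η) := by
    intro t
    have := h t 1
    nlinarith
  have h2 := discrim_le_zero h1
  unfold discrim at h2
  have h3 := h a b
  have h4 : 0 ≤ (x - η) * (w - η) - y ^ 2 := by nlinarith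
  have h5 : 0 ≤ (a ^ 2 + b ^ 2) * ((x - η) * (w - η) - y ^ 2) := by positivity
  have h6 : 0 ≤ η * (a ^ 2 * x + 2 * a * b * y + b ^ 2 * w - η * (a ^ 2 + b ^ 2)) := by
    apply mul_nonneg hη.le
    linarith
  nlinarith [h5, h6]

end LG2_

open LG2_ in
theorem p_LG2 (h_INV : T_INV) (h_LG1 : T_LG1) : T_LG2 := by
  intro η F hη hF z
  have hD := jac_pos hη hF z
  have hA := alg h_LG1 hη hF z
  have hD' : d 2 (d 2 F) z * d 3 (d 3 F) z - d 2 (d 3 F) z ^ 2 ≠ 0 := hD.ne'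
  refine ⟨hD, hA.t12, hA.s0 hD', hA.s1 hD', ?_⟩
  intro a b
  obtain ⟨H, _, hH, _⟩ := h_INV η F hη hF
  have hB := alg h_LG1 hη hF (H z)
  have hE := jac_pos hη hF (H z)
  rw [hH z] at hB
  obtain ⟨e1, e2, e3, _⟩ := hB.inv
  have hE' : 0 < d 2 (d 2 F) (H z) * d 3 (d 3 F) (H z) - d 2 (d 3 F) (H z) ^ 2 := hE
  have hp := hF.pos (H z)
  set x := d 2 (d 2 F) (H z)
  set y := d 2 (d 3 F) (H z)
  set w := d 3 (d 3 F) (H z)
  set g22 := d 2 (d 2 (Leg F)) z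
  set g23 := d 2 (d 3 (Leg F)) z
  set g33 := d 3 (d 3 (Leg F)) z
  have h1 : (a ^ 2 * g22 + 2 * a * b * g23 + b ^ 2 * g33) * (x * w - y ^ 2) =
      a ^ 2 * w - 2 * a * b * y + b ^ 2 * x := by
    linear_combination a ^ 2 * e1 + 2 * a * b * e2 + b ^ 2 * e3
  have h2 : a ^ 2 * g22 + 2 * a * b * g23 + b ^ 2 * g33 =
      (a ^ 2 * w - 2 * a * b * y + b ^ 2 * x) / (x * w - y ^ 2) := by
    rw [eq_div_iff hE'.ne']
    exact h1
  rw [h2]
  constructor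
  · exact div_nonneg (low hη hp a b) hE'.le
  · rw [div_le_div_iff₀ hE' hη]
    have h3 := upp hη hp a b
    linarith

end Pool.Agent.GNS
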