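import Pool.Agent.GNS.T1

/-!
# GNS: Legendre transform of a function of the class `Wc`
-/

set_option autoImplicit false

open Metric Set Filter Topology MeasureTheory

noncomputable section

namespace Pool.Agent.GNS

namespace LGC_

theorem sm_21 : Sm fun z : V => z.2.1 := by
  unfold Sm
  fun_prop

theorem sm_22 : Sm fun z : V => z.2.2 := by
  unfold Sm
  fun_prop

theorem d_21 (i : Fin 4) (z : V) : d i (fun z : V => z.2.1) z = (e i).2.1 := by
  unfold d
  have h : HasFDerivAt (fun z : V => z.2.1)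
      ((ContinuousLinearMap.fst ℝ ℝ ℝ).comp (ContinuousLinearMap.snd ℝ X2 X2)) z :=
    ((ContinuousLinearMap.fst ℝ ℝ ℝ).comp (ContinuousLinearMap.snd ℝ X2 X2)).hasFDerivAt
  rw [h.fderiv]
  rfl

theorem d_22 (i : Fin 4) (z : V) : d i (fun z : V => z.2.2) z = (e i).2.2 := by
  unfold d
  have h : HasFDerivAt (fun z : V => z.2.2)
      ((ContinuousLinearMap.snd ℝ ℝ ℝ).comp (ContinuousLinearMap.snd ℝ X2 X2)) z :=
    ((ContinuousLinearMap.snd ℝ ℝ ℝ).comp (ContinuousLinearMap.snd ℝ X2 X2)).hasFDerivAt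
  rw [h.fderiv]
  rfl

theorem q2_eq : q2 = fun z : V => (1 / 2) * (z.2.1 * z.2.1 + z.2.2 * z.2.2) := by
  funext z
  unfold q2
  ring

theorem sm_q2 : Sm q2 := by
  rw [q2_eq]
  exact ((sm_21.mul sm_21).add (sm_22.mul sm_22)).cmul _

theorem d_q2 (i : Fin 4) : d i q2 = fun z : V => (e i).2.1 * z.2.1 + (e i).2.2 * z.2.2 := by
  funext z
  rw [q2_eq, d_cmul ((sm_21.mul sm_21).add (sm_22.mul sm_22)),
    d_add (sm_21.mul sm_21) (sm_22.mul sm_22), d_mul sm_21 sm_21, d_mul sm_22 sm_22, d_21, d_22]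
  ring

theorem d_d_q2 (i j : Fin 4) (z : V) :
    d j (d i q2) z = (e i).2.1 * (e j).2.1 + (e i).2.2 * (e j).2.2 := by
  rw [d_q2, d_add (sm_21.cmul _) (sm_22.cmul _), d_cmul sm_21, d_cmul sm_22, d_21, d_22]

theorem d_F {w : V → ℝ} (hw : Sm w) (η : ℝ) (i : Fin 4) :
    d i (fun z => w z + η * q2 z) = fun z => d i w z + η * d i q2 z := by
  funext z
  rw [d_add hw (sm_q2.cmul η), d_cmul sm_q2]

theorem d_d_F {w : V → ℝ} (hw : Sm w) (η : ℝ) (i j : Fin 4) (z : V) :
    d j (d i (fun z => w z + η * q2 z)) z =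
      d j (d i w) z + η * ((e i).2.1 * (e j).2.1 + (e i).2.2 * (e j).2.2) := by
  rw [d_F hw, d_add (hw.d i) ((sm_q2.d i).cmul η), d_cmul (sm_q2.d i), d_d_q2]

theorem sq_cvx (a a' s t : ℝ) (hs : 0 ≤ s) (ht : 0 ≤ t) (hst : s + t = 1) :
    (s * a + t * a') ^ 2 ≤ s * a ^ 2 + t * a' ^ 2 := by
  have h : s * a ^ 2 + t * a' ^ 2 - (s * a + t * a') ^ 2 = s * t * (a - a') ^ 2 := by
    have ht' : t = 1 - s := by linarith
    rw [ht']
    ring
  have h2 : 0 ≤ s * t * (a - a') ^ 2 := mul_nonneg (mul_nonneg hs ht) (sq_nonneg _)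
  linarith

theorem cvx_F {w : V → ℝ} (hw : ConvexOn ℝ univ w) {η : ℝ} (hη : 0 < η) :
    ConvexOn ℝ univ (fun z => w z + η * q2 z) := by
  refine ⟨convex_univ, ?_⟩
  intro z _ z' _ s t hs ht hst
  have h1 := hw.2 (mem_univ z) (mem_univ z') hs ht hst
  have h2 := sq_cvx z.2.1 z'.2.1 s t hs ht hst
  have h3 := sq_cvx z.2.2 z'.2.2 s t hs ht hst
  have h4 : q2 (s • z + t • z') ≤ s * q2 z + t * q2 z' := by
    unfold q2
    simp only [Prod.snd_add, Prod.fst_add, Prod.smul_snd, Prod.smul_fst, smul_eq_mul]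
    nlinarith
  simp only [smul_eq_mul] at h1 ⊢
  nlinarith [mul_le_mul_of_nonneg_left h4 hη.le]

theorem psd23 (hPSD : T_PSD) {w : V → ℝ} (hw : Sm w) (hc : ConvexOn ℝ univ w) (z : V)
    (a b : ℝ) : 0 ≤ a ^ 2 * d 2 (d 2 w) z + 2 * a * b * d 2 (d 3 w) z + b ^ 2 * d 3 (d 3 w) z := by
  have h := hPSD w hw hc z ![0, 0, a, b]
  simp only [Fin.sum_univ_four, Matrix.cons_val_zero, Matrix.cons_val_one, Matrix.cons_val] at h
  rw [d_comm hw 3 2] at h
  nlinarith [h]

theorem psd01 (hPSD : T_PSD) {w : V → ℝ} (hw : Sm w) (hc : ConvexOn ℝ univ w) (z : V)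
    (a b : ℝ) : 0 ≤ a ^ 2 * d 0 (d 0 w) z + 2 * a * b * d 0 (d 1 w) z + b ^ 2 * d 1 (d 1 w) z := by
  have h := hPSD w hw hc z ![a, b, 0, 0]
  simp only [Fin.sum_univ_four, Matrix.cons_val_zero, Matrix.cons_val_one, Matrix.cons_val] at h
  rw [d_comm hw 1 0] at h
  nlinarith [h]

/-- freezing the second variable -/
def Pf (p : X2) (f : V → ℝ) (z : V) : ℝ := f (z.1, p)

theorem sm_Pf {f : V → ℝ} (hf : Sm f) (p : X2) : Sm (Pf p f) := by
  unfold Sm Pf
  have h : ContDiff ℝ ((⊤ : ℕ∞) : WithTop ℕ∞) fun z : V => ((z.1, p) : V) := by fun_prop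
  exact hf.cd.comp h

theorem d_Pf {f : V → ℝ} (hf : Sm f) (p : X2) (i : Fin 4) (hi : i = 0 ∨ i = 1) :
    d i (Pf p f) = Pf p (d i f) := by
  funext z
  unfold Pf d
  have h1 : HasFDerivAt (fun z : V => ((z.1, p) : V))
      ((ContinuousLinearMap.fst ℝ X2 X2).prod (0 : V →L[ℝ] X2)) z :=
    (ContinuousLinearMap.fst ℝ X2 X2).hasFDerivAt.prodMk (hasFDerivAt_const p z)
  have h2 : HasFDerivAt (fun z : V => f (z.1, p))
      ((fderiv ℝ f (z.1, p)).comp ((ContinuousLinearMap.fst ℝ X2 X2).prod (0 : V →L[ℝ] X2))) z :=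
    (hf.dAt (z.1, p)).hasFDerivAt.comp z h1
  rw [h2.fderiv]
  have h3 : ((ContinuousLinearMap.fst ℝ X2 X2).prod (0 : V →L[ℝ] X2)) (e i) = e i := by
    rcases hi with rfl | rfl <;> (ext <;> simp [e])
  rw [ContinuousLinearMap.comp_apply, h3]

end LGC_

open LGC_ in
theorem p_LGC (hLG1 : T_LG1) (hLG2 : T_LG2) (hINV : T_INV) (hPSD : T_PSD) : T_LGC := by
  intro η w hη hw
  have hsm := hw.sm
  have hSC : SC η (fun z => w z + η * q2 z) := by
    refine ⟨hsm.add (sm_q2.cmul η), ?_⟩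
    intro z a b
    rw [d_d_F hsm, d_d_F hsm, d_d_F hsm]
    have h := psd23 hPSD hsm hw.cvx z a b
    simp only [e, Matrix.cons_val_zero, Matrix.cons_val_one, Matrix.cons_val]
    nlinarith [h]
  have hcv := cvx_F hw.cvx hη
  refine ⟨hSC, ?_, hcv, ?_⟩
  · obtain ⟨H, -, hH1, -⟩ := hINV η _ hη hSC
    obtain ⟨hu, hL⟩ := hLG1 η _ hη hSC
    have hH0 : ∀ q, (H q).1 = q.1 := fun q => by
      have := congrArg Prod.fst (hH1 q)
      exact this
    have hH2 : ∀ q, d 2 (fun z => w z + η * q2 z) (H q) = q.2.1 := fun q => by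
      have := congrArg (fun v : V => v.2.1) (hH1 q)
      exact this
    have hH3 : ∀ q, d 3 (fun z => w z + η * q2 z) (H q) = q.2.2 := fun q => by
      have := congrArg (fun v : V => v.2.2) (hH1 q)
      exact this
    refine ⟨hu, ?_, ?_, ?_, ?_, ?_, ?_, ?_⟩
    · intro q
      have h := (hL (H q)).2.1
      rw [hH1] at h
      rw [h, abs_neg, d_F hsm, d_q2]
      have h2 := hw.bd 0 (H q)
      simpa [e] using h2
    · intro q
      have h := (hL (H q)).2.2.1
      rw [hH1] at h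
      rw [h, abs_neg, d_F hsm, d_q2]
      have h2 := hw.bd 1 (H q)
      simpa [e] using h2
    · intro z a b
      set u : V → ℝ := Leg fun z => w z + η * q2 z with hudef
      have hval : ∀ x : X2, u (x, z.2) = z.2.1 * (H (x, z.2)).2.1 + z.2.2 * (H (x, z.2)).2.2 -
          (w (x, (H (x, z.2)).2) + η * q2 (x, (H (x, z.2)).2)) := by
        intro x
        have h := (hL (H (x, z.2))).1
        rw [hH1, hH2, hH3] at h
        have h2 : H (x, z.2) = (x, (H (x, z.2)).2) := Prod.ext (hH0 (x, z.2)) rfl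
        have h3 : w (H (x, z.2)) + η * q2 (H (x, z.2)) =
            w (x, (H (x, z.2)).2) + η * q2 (x, (H (x, z.2)).2) := by
          rw [← h2]
        rw [h3] at h
        exact h
      have hcvx : ConvexOn ℝ univ (Pf z.2 fun z => -u z) := by
        refine ⟨convex_univ, ?_⟩
        intro y _ y' _ s t hs ht hst
        have h1 := hval y.1
        have h2 := hval y'.1
        set Y := (H (y.1, z.2)).2 with hY
        set Y' := (H (y'.1, z.2)).2 with hY'
        have h3 := (hL ((s • y + t • y').1, z.2)).2.2.2.2.2 (s • Y + t • Y')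
        have h4 := hcv.2 (mem_univ ((y.1, Y) : V)) (mem_univ ((y'.1, Y') : V)) hs ht hst
        simp only [smul_eq_mul] at h4
        have h5 : s • ((y.1, Y) : V) + t • ((y'.1, Y') : V) =
            (((s • y + t • y').1, s • Y + t • Y') : V) := by
          ext <;> simp
        rw [h5] at h4
        simp only [Prod.snd_add, Prod.fst_add, Prod.smul_snd, Prod.smul_fst, smul_eq_mul] at h3 h4
        simp only [Pf, smul_eq_mul, Prod.fst_add, Prod.smul_fst]
        rw [h1, h2]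
        linarith [h3, h4]
      have hneg : Sm fun z => -u z := hu.neg
      have hp := psd01 hPSD (sm_Pf hneg z.2) hcvx z a b
      have hd : ∀ i j : Fin 4, (i = 0 ∨ i = 1) → (j = 0 ∨ j = 1) →
          d i (d j (Pf z.2 fun z => -u z)) z = -d i (d j u) z := by
        intro i j hi hj
        rw [d_Pf hneg z.2 j hj, d_Pf (hneg.d j) z.2 i hi]
        have h1 : d j (fun z => -u z) = fun z => -d j u z := funext fun z => d_neg j z
        rw [h1]
        unfold Pf
        rw [d_neg]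
      rw [hd 0 0 (Or.inl rfl) (Or.inl rfl), hd 0 1 (Or.inl rfl) (Or.inr rfl),
        hd 1 1 (Or.inr rfl) (Or.inr rfl)] at hp
      linarith [hp]
    · intro z a b
      exact ((hLG2 η _ hη hSC z).2.2.2.2 a b).1
    · intro z a b
      exact ((hLG2 η _ hη hSC z).2.2.2.2 a b).2
    · intro q
      have h := (hL (H q)).2.2.2.1
      rw [hH1] at h
      have h2 := hH2 q
      rw [d_F hsm, d_q2] at h2
      have h3 := hw.bd 2 (H q)
      rw [h]
      have h4 : q.2.1 - η * (H q).2.1 = d 2 w (H q) := by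
        rw [← h2]
        simp [e]
      rw [h4]
      exact h3
    · intro q
      have h := (hL (H q)).2.2.2.2.1
      rw [hH1] at h
      have h2 := hH3 q
      rw [d_F hsm, d_q2] at h2
      have h3 := hw.bd 3 (H q)
      rw [h]
      have h4 : q.2.2 - η * (H q).2.2 = d 3 w (H q) := by
        rw [← h2]
        simp [e]
      rw [h4]
      exact h3
  · intro z
    unfold T12 SS
    simp only [d_d_F hsm]
    simp only [e, Matrix.cons_val_zero, Matrix.cons_val_one, Matrix.cons_val]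
    refine ⟨by ring, by ring, by ring⟩

end Pool.Agent.GNS
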