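import Pool.Agent.GNS.P_UBR

/-!
# GNS: the level inequality (LI)
-/

set_option autoImplicit false

open Metric Set Filter Topology MeasureTheory

noncomputable section

namespace Pool.Agent.GNS

namespace LI_

theorem sm_SS {w : V → ℝ} (hw : Sm w) (i : Fin 4) : Sm (SS i w) := by
  have h1 : Sm fun z => d i (d i w) z * (d 2 (d 2 w) z + d 3 (d 3 w) z) :=
    ((hw.d i).d i).mul (((hw.d 2).d 2).add ((hw.d 3).d 3))
  exact (h1.sub (((hw.d 2).d i).pow 2)).sub (((hw.d 3).d i).pow 2)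

theorem cont_c0 {f : ℝ → ℝ} (hf : Continuous f) (h : ℝ) : Continuous (c0 f h) := by
  unfold c0
  fun_prop

theorem cont_c1 {f : ℝ → ℝ} (hf : Continuous f) (h : ℝ) : Continuous (c1 f h) := by
  unfold c1
  fun_prop

theorem cont_g0 {f : ℝ → ℝ} (hf : Continuous f) (h : ℝ) : Continuous (g0 f h) := by
  unfold g0
  exact continuous_const.sub (cont_c0 hf h)

theorem cont_g1 {f : ℝ → ℝ} (hf : Continuous f) (h h' : ℝ) : Continuous (g1 f h h') := by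
  unfold g1
  exact (continuous_const.mul (cont_c0 hf h)).mul (continuous_const.sub (cont_c1 hf h'))

theorem dq_le (i : Fin 4) (z : V) (hz : ‖z‖ ≤ 4) : |d i q2 z| ≤ 4 := by
  have h1 : ‖z.2‖ ≤ 4 := (norm_snd_le z).trans hz
  have h2 : |z.2.1| ≤ 4 := (norm_fst_le z.2).trans h1
  have h3 : |z.2.2| ≤ 4 := (norm_snd_le z.2).trans h1
  fin_cases i
  · show |d 0 q2 z| ≤ 4
    rw [UBR_q0]
    norm_num
  · show |d 1 q2 z| ≤ 4
    rw [UBR_q1]
    norm_num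
  · show |d 2 q2 z| ≤ 4
    rw [UBR_q2]
    exact h2
  · show |d 3 q2 z| ≤ 4
    rw [UBR_q3]
    exact h3

/-- the pointwise inequality -/
theorem pw (ζ β ω γ0 γ1 S0 S1 p q η B : ℝ) (hζ : 0 ≤ ζ) (hβ : 0 ≤ β) (hω : 0 ≤ ω)
    (hB : ζ * β ≤ ζ * B) (hγ0 : 0 ≤ γ0) (hγ0' : γ0 ≤ 4) (hγ1 : 0 ≤ γ1) (hγ1' : γ1 ≤ 4)
    (hS0 : 0 ≤ S0) (hS1 : 0 ≤ S1) (hp : 0 ≤ p) (hq : 0 ≤ q) (hη : 0 ≤ η) :
    ζ * (β + ω) * (γ0 * (S0 + 2 * η * p) + γ1 * (S1 + 2 * η * q)) ≤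
      ζ * β * (γ0 * S0 + γ1 * S1) + (4 * ω * (ζ * S0 + ζ * S1) +
        8 * η * (B + ω) * (ζ * p + ζ * q)) := by
  have h1 : γ0 * S0 + γ1 * S1 ≤ 4 * (S0 + S1) := by
    nlinarith [mul_le_mul_of_nonneg_right hγ0' hS0, mul_le_mul_of_nonneg_right hγ1' hS1]
  have h2 : γ0 * p + γ1 * q ≤ 4 * (p + q) := by
    nlinarith [mul_le_mul_of_nonneg_right hγ0' hp, mul_le_mul_of_nonneg_right hγ1' hq]
  have h3 : ω * ζ * (γ0 * S0 + γ1 * S1) ≤ ω * ζ * (4 * (S0 + S1)) :=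
    mul_le_mul_of_nonneg_left h1 (mul_nonneg hω hζ)
  have h4 : 2 * η * (ζ * (β + ω)) * (γ0 * p + γ1 * q) ≤
      2 * η * (ζ * (β + ω)) * (4 * (p + q)) :=
    mul_le_mul_of_nonneg_left h2 (mul_nonneg (by linarith) (mul_nonneg hζ (by linarith)))
  have h5 : ζ * (β + ω) ≤ ζ * (B + ω) := by nlinarith
  have h6 : (8 * η * (p + q)) * (ζ * (β + ω)) ≤ (8 * η * (p + q)) * (ζ * (B + ω)) :=
    mul_le_mul_of_nonneg_left h5 (mul_nonneg (by linarith) (by linarith))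
  nlinarith [h3, h4, h6]

/-- the mass of `SS i w` -/
theorem int_SS {ζ1 w : V → ℝ} {CM : ℝ} (hz : Sm ζ1) (hcs : HasCompactSupport ζ1) (hw : Sm w)
    (hM : ∀ i j, ∫ z, ζ1 z * (d i (d i w) z * d j (d j w) z - d i (d j w) z ^ 2) ≤ CM)
    (i : Fin 4) : ∫ z, ζ1 z * SS i w z ≤ 2 * CM := by
  have hc : ∀ j : Fin 4, Integrable fun z =>
      ζ1 z * (d i (d i w) z * d j (d j w) z - d i (d j w) z ^ 2) := by
    intro j
    refine int_of ?_ hcs.mul_right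
    exact hz.cont.mul ((((hw.d i).d i).mul ((hw.d j).d j)).sub (((hw.d j).d i).pow 2)).cont
  have h1 : (fun z => ζ1 z * SS i w z) = fun z =>
      ζ1 z * (d i (d i w) z * d 2 (d 2 w) z - d i (d 2 w) z ^ 2) +
      ζ1 z * (d i (d i w) z * d 3 (d 3 w) z - d i (d 3 w) z ^ 2) := by
    funext z
    unfold SS
    ring
  rw [h1, integral_add (hc 2) (hc 3)]
  linarith [hM i 2, hM i 3]

/-- choice of the radius -/
theorem ex_r (Cb η ε : ℝ) (hε : 0 < ε) : ∃ δ : ℝ, 0 < δ ∧ ∀ r, 0 < r → r ≤ δ →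
    Cb * Real.sqrt (27 * r + r ^ 2 / η) ≤ ε := by
  have hc : Continuous fun r : ℝ => Cb * Real.sqrt (27 * r + r ^ 2 / η) := by fun_prop
  have h0 : Tendsto (fun r : ℝ => Cb * Real.sqrt (27 * r + r ^ 2 / η)) (𝓝 0) (𝓝 0) := by
    have h := hc.tendsto 0
    simpa using h
  have h1 := h0.eventually (gt_mem_nhds hε)
  obtain ⟨δ, hδ, h2⟩ := Metric.eventually_nhds_iff.1 h1
  refine ⟨δ / 2, by linarith, ?_⟩
  intro r hr hr'
  refine (h2 ?_).le
  rw [Real.dist_eq, sub_zero, abs_of_pos hr]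
  linarith

end LI_

open LI_ in
theorem p_LI (hMN : T_MN) (hKER : T_KER) (hCLS : T_CLS) (hWBR : T_WBR) (hPCT : T_PCT)
    (hLGC : T_LGC) (hMAS : T_MAS) (hSNN : T_SNN) (hPS2 : T_PS2) : T_LI := by
  intro N θ σ σ2 q3 ϵ m2 c3 C ζ0 ζ1 b β hP hN hc hb hβ hx hbβ hb1 ε hε
  have hcs1 : HasCompactSupport ζ1 := hcs_of hc.out1
  obtain ⟨CM, hCM, hM⟩ := hMAS ζ1 hc.sm1 hcs1 hc.nn1
  obtain ⟨Cb, hCb, hB⟩ := hPCT b hb (fun z hz => hb1 z (by linarith))
  obtain ⟨B, hB0, hBβ⟩ : ∃ B : ℝ, 0 ≤ B ∧ ∀ z, ζ1 z * β z ≤ ζ1 z * B := by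
    obtain ⟨B, hB⟩ := (isCompact_closedBall (0 : V) 3).exists_bound_of_continuousOn
      hβ.continuousOn
    refine ⟨max B 0, le_max_right _ _, ?_⟩
    intro z
    by_cases hz : ‖z‖ ≤ 3
    · have h1 := hB z (by rw [mem_closedBall, dist_zero_right]; exact hz)
      have h2 : β z ≤ B := (le_abs_self _).trans h1
      exact mul_le_mul_of_nonneg_left (h2.trans (le_max_left _ _)) (hc.nn1 z)
    · rw [hc.out1 z (by linarith)]
      simp
  have hβ0 : ∀ z, 0 ≤ β z := fun z => (abs_nonneg _).trans (hbβ z)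
  -- choice of the parameters
  obtain ⟨ω, hω, hω1, hωε⟩ : ∃ ω : ℝ, 0 < ω ∧ ω ≤ 1 ∧ 256 * ω * CM ≤ ε / 4 := by
    refine ⟨min 1 (ε / (1024 * (CM + 1))), lt_min one_pos (by positivity), min_le_left _ _, ?_⟩
    have h1 : min 1 (ε / (1024 * (CM + 1))) ≤ ε / (1024 * (CM + 1)) := min_le_right _ _
    have h2 : ε / (1024 * (CM + 1)) * CM ≤ ε / 1024 := by
      rw [div_mul_eq_mul_div, div_le_div_iff₀ (by positivity) (by norm_num)]
      nlinarith
    have h3 := mul_le_mul_of_nonneg_right h1 hCM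
    linarith
  obtain ⟨η, hη, hη1, hηε⟩ : ∃ η : ℝ, 0 < η ∧ η ≤ 1 ∧ 256 * η * (B + 1) * CM ≤ ε / 4 := by
    refine ⟨min 1 (ε / (1024 * ((B + 1) * CM + 1))), lt_min one_pos (by positivity),
      min_le_left _ _, ?_⟩
    have hBC : 0 ≤ (B + 1) * CM := by positivity
    have h1 : min 1 (ε / (1024 * ((B + 1) * CM + 1))) ≤ ε / (1024 * ((B + 1) * CM + 1)) :=
      min_le_right _ _
    have h2 : ε / (1024 * ((B + 1) * CM + 1)) * ((B + 1) * CM) ≤ ε / 1024 := by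
      rw [div_mul_eq_mul_div, div_le_div_iff₀ (by positivity) (by norm_num)]
      nlinarith
    have h3 := mul_le_mul_of_nonneg_right h1 hBC
    nlinarith
  obtain ⟨r0, hr0, hMN1⟩ := hMN N θ σ σ2 q3 ϵ m2 c3 C ζ0 ζ1 b β hP hN hc hb hβ hx hbβ hb1 η ω
    hη hη1 hω
  obtain ⟨δ, hδ, hδ1⟩ := ex_r Cb η (ε / 4) (by linarith)
  obtain ⟨r, hr, hr1, hr2, hr3⟩ : ∃ r : ℝ, 0 < r ∧ r ≤ 1 ∧ r ≤ r0 ∧ r ≤ δ :=
    ⟨min 1 (min r0 δ), lt_min one_pos (lt_min hr0 hδ), min_le_left _ _,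
      (min_le_right _ _).trans (min_le_left _ _), (min_le_right _ _).trans (min_le_right _ _)⟩
  obtain ⟨ρ, hρ⟩ := hKER r hr
  obtain ⟨C', hC', hMN2⟩ := hMN1 r ρ hr hr2 hρ
  refine ⟨min 1 (ε / (8 * (C' + 1))), lt_min one_pos (by positivity), ?_⟩
  intro h h' hh hh0 hh' hh0' w hw
  have hh1 : h ≤ 1 := hh0.trans (min_le_left _ _)
  have hh1' : h' ≤ 1 := hh0'.trans (min_le_left _ _)
  have hCh : C' * (h + h') ≤ ε / 4 := by
    have h1 : h ≤ ε / (8 * (C' + 1)) := hh0.trans (min_le_right _ _)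
    have h2 : h' ≤ ε / (8 * (C' + 1)) := hh0'.trans (min_le_right _ _)
    have h3 : C' * (ε / (8 * (C' + 1))) ≤ ε / 8 := by
      rw [mul_div_assoc', div_le_div_iff₀ (by positivity) (by norm_num)]
      nlinarith
    nlinarith [mul_le_mul_of_nonneg_left h1 hC', mul_le_mul_of_nonneg_left h2 hC']
  obtain ⟨hSC, hUc, hCF, hF⟩ := hLGC η w hη hw
  obtain ⟨hb1', hb2', hb3'⟩ := hWBR η r ρ _ hη hη1 hr hr1 hρ hUc
  have hclose := hCLS η r ρ w hη hη1 hr hr1 hρ hw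
  have hgF : ∀ z, ‖z‖ ≤ 4 → ∀ i, |d i (fun z => w z + η * q2 z) z| ≤ 10 := by
    intro z hz i
    rw [d_add hw.sm (UBR_smq.cmul η), d_cmul UBR_smq]
    have h1 := hw.bd i z
    have h2 := dq_le i z hz
    have h3 : |η * d i q2 z| ≤ 4 := by
      rw [abs_mul, abs_of_pos hη]
      nlinarith [abs_nonneg (d i q2 z)]
    have h4 := abs_add_le (d i w z) (η * d i q2 z)
    linarith
  have hPC := hB (fun z => w z + η * q2 z) (Leg (ub ρ r (Leg fun z => w z + η * q2 z)))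
    hSC.sm hb1' hCF hb2' (fun z hz i => ⟨hgF z hz i, hb3' z hz i⟩) (27 * r + r ^ 2 / η)
    (by positivity) (fun z hz => by rw [abs_sub_comm]; exact hclose z hz)
  have hMm := hMN2 w hw h h' hh hh1 hh' hh1'
  have hr4 := hδ1 r hr hr3
  have hT : (∫ z, b z * T12 w z) = ∫ z, b z * T12 (fun z => w z + η * q2 z) z := by
    refine integral_congr_ae (Eventually.of_forall fun z => ?_)
    show b z * T12 w z = b z * T12 (fun z => w z + η * q2 z) z
    rw [(hF z).1]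
  -- the right side
  have hcθ : Continuous θ := hP.smθ.continuous
  have hcg0 := cont_g0 hcθ h
  have hcg1 := cont_g1 hcθ h h'
  have hS0 := (sm_SS hw.sm 0).cont
  have hS1 := (sm_SS hw.sm 1).cont
  have hd0 := ((hw.sm.d 0).d 0).cont
  have hd1 := ((hw.sm.d 1).d 1).cont
  have i1 : Integrable fun z => ζ1 z * β z * (g0 θ h z * SS 0 w z + g1 θ h h' z * SS 1 w z) := by
    refine int_of ((hc.sm1.cont.mul hβ).mul ((hcg0.mul hS0).add (hcg1.mul hS1))) ?_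
    exact (hcs1.mul_right).mul_right
  have i2 : ∀ {f : V → ℝ}, Continuous f → Integrable fun z => ζ1 z * f z := by
    intro f hf
    exact int_of (hc.sm1.cont.mul hf) hcs1.mul_right
  have j1 : Integrable fun z => 4 * ω * (ζ1 z * SS 0 w z + ζ1 z * SS 1 w z) :=
    ((i2 hS0).add (i2 hS1)).const_mul _
  have j2 : Integrable fun z => 8 * η * (B + ω) * (ζ1 z * d 0 (d 0 w) z +
      ζ1 z * d 1 (d 1 w) z) := ((i2 hd0).add (i2 hd1)).const_mul _
  have i3 : Integrable fun z => 4 * ω * (ζ1 z * SS 0 w z + ζ1 z * SS 1 w z) +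
      8 * η * (B + ω) * (ζ1 z * d 0 (d 0 w) z + ζ1 z * d 1 (d 1 w) z) := j1.add j2
  have hmono : (∫ z, ζ1 z * (β z + ω) * (g0 θ h z * SS 0 (fun z => w z + η * q2 z) z +
      g1 θ h h' z * SS 1 (fun z => w z + η * q2 z) z)) ≤
      (∫ z, ζ1 z * β z * (g0 θ h z * SS 0 w z + g1 θ h h' z * SS 1 w z)) +
      (4 * ω * ((∫ z, ζ1 z * SS 0 w z) + ∫ z, ζ1 z * SS 1 w z) +
        8 * η * (B + ω) * ((∫ z, ζ1 z * d 0 (d 0 w) z) + ∫ z, ζ1 z * d 1 (d 1 w) z)) := by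
    have h1 : (∫ z, ζ1 z * β z * (g0 θ h z * SS 0 w z + g1 θ h h' z * SS 1 w z)) +
      (4 * ω * ((∫ z, ζ1 z * SS 0 w z) + ∫ z, ζ1 z * SS 1 w z) +
        8 * η * (B + ω) * ((∫ z, ζ1 z * d 0 (d 0 w) z) + ∫ z, ζ1 z * d 1 (d 1 w) z)) =
        ∫ z, (ζ1 z * β z * (g0 θ h z * SS 0 w z + g1 θ h h' z * SS 1 w z) +
        (4 * ω * (ζ1 z * SS 0 w z + ζ1 z * SS 1 w z) +
      8 * η * (B + ω) * (ζ1 z * d 0 (d 0 w) z + ζ1 z * d 1 (d 1 w) z))) := by
      rw [integral_add i1 i3, integral_add j1 j2, integral_const_mul, integral_const_mul,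
        integral_add (i2 hS0) (i2 hS1), integral_add (i2 hd0) (i2 hd1)]
    rw [h1]
    have hSF0 : Continuous (SS 0 (fun z => w z + η * q2 z)) := (sm_SS hSC.sm 0).cont
    have hSF1 : Continuous (SS 1 (fun z => w z + η * q2 z)) := (sm_SS hSC.sm 1).cont
    refine integral_mono ?_ (i1.add i3) ?_
    · refine int_of ((hc.sm1.cont.mul (hβ.add continuous_const)).mul
        ((hcg0.mul hSF0).add (hcg1.mul hSF1))) ?_
      exact (hcs1.mul_right).mul_right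
    · intro z
      have hθ0 : 0 ≤ c0 θ h z := hP.nn _
      have hθ1 : c0 θ h z ≤ 1 := hP.le _
      have hθ0' : 0 ≤ c1 θ h' z := hP.nn _
      have hθ1' : c1 θ h' z ≤ 1 := hP.le _
      have hg0 : 0 ≤ g0 θ h z := by
        unfold g0
        linarith
      have hg0' : g0 θ h z ≤ 4 := by
        unfold g0
        linarith
      have hg1 : 0 ≤ g1 θ h h' z := by
        unfold g1
        exact mul_nonneg (by linarith) (by linarith)
      have hg1' : g1 θ h h' z ≤ 4 := by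
        unfold g1
        nlinarith
      have hs0 : 0 ≤ SS 0 w z := by
        have := hSNN w hw.sm hw.cvx z 1 0
        linarith
      have hs1 : 0 ≤ SS 1 w z := by
        have := hSNN w hw.sm hw.cvx z 0 1
        linarith
      have hp := (hPS2 w hw.sm hw.cvx z 0 0).1
      have hq := (hPS2 w hw.sm hw.cvx z 1 1).1
      show ζ1 z * (β z + ω) * (g0 θ h z * SS 0 (fun z => w z + η * q2 z) z +
        g1 θ h h' z * SS 1 (fun z => w z + η * q2 z) z) ≤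
        ζ1 z * β z * (g0 θ h z * SS 0 w z + g1 θ h h' z * SS 1 w z) +
        (4 * ω * (ζ1 z * SS 0 w z + ζ1 z * SS 1 w z) +
      8 * η * (B + ω) * (ζ1 z * d 0 (d 0 w) z + ζ1 z * d 1 (d 1 w) z))
      rw [(hF z).2.1, (hF z).2.2]
      exact pw _ _ _ _ _ _ _ _ _ _ _ (hc.nn1 z) (hβ0 z) hω.le (hBβ z) hg0 hg0' hg1 hg1' hs0
        hs1 hp hq hη.le
  have hm0 := int_SS hc.sm1 hcs1 hw.sm (hM w hw).2 0
  have hm1 := int_SS hc.sm1 hcs1 hw.sm (hM w hw).2 1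
  have hm2 := (hM w hw).1 0
  have hm3 := (hM w hw).1 1
  have hfin1 : 4 * ω * ((∫ z, ζ1 z * SS 0 w z) + ∫ z, ζ1 z * SS 1 w z) ≤ 16 * ω * CM := by
    have := mul_le_mul_of_nonneg_left (add_le_add hm0 hm1) (by linarith : 0 ≤ 4 * ω)
    linarith
  have hfin2 : 8 * η * (B + ω) * ((∫ z, ζ1 z * d 0 (d 0 w) z) + ∫ z, ζ1 z * d 1 (d 1 w) z) ≤
      16 * η * (B + 1) * CM := by
    have h1 : 0 ≤ 8 * η * (B + ω) := mul_nonneg (by linarith) (by linarith)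
    have h2 := mul_le_mul_of_nonneg_left (add_le_add hm2 hm3) h1
    have h3 : 8 * η * (B + ω) * (CM + CM) ≤ 8 * η * (B + 1) * (CM + CM) := by
      refine mul_le_mul_of_nonneg_right ?_ (by linarith)
      exact mul_le_mul_of_nonneg_left (by linarith) (by linarith)
    linarith
  rw [hT]
  have htri : |∫ z, b z * T12 (fun z => w z + η * q2 z) z| ≤
      |(∫ z, b z * T12 (fun z => w z + η * q2 z) z) -
        ∫ z, b z * T12 (Leg (ub ρ r (Leg fun z => w z + η * q2 z))) z| +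
      |∫ z, b z * T12 (Leg (ub ρ r (Leg fun z => w z + η * q2 z))) z| := by
    have := abs_add_le ((∫ z, b z * T12 (fun z => w z + η * q2 z) z) -
        ∫ z, b z * T12 (Leg (ub ρ r (Leg fun z => w z + η * q2 z))) z)
      (∫ z, b z * T12 (Leg (ub ρ r (Leg fun z => w z + η * q2 z))) z)
    rwa [sub_add_cancel] at this
  linarith

end Pool.Agent.GNS
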