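import Pool.Agent.GNS.T3

/-!
# GNS: target LOC, locality in the chart
-/

set_option autoImplicit false

open Metric Set Filter Topology MeasureTheory

noncomputable section

namespace Pool.Agent.GNS

open Pool.Agent.GLB

/-- the height is continuous on the sphere -/
theorem LOC_hgt {m : ℕ} : Continuous fun v : S (m + 1) => hgt (v : E (m + 1)) := by
  unfold hgt
  fun_prop

/-- the chart coordinate is continuous where the height is positive -/
theorem LOC_dn {m : ℕ} {v₀ : S (m + 1)} (h : 0 < hgt (v₀ : E (m + 1))) :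
    ContinuousAt (fun v : S (m + 1) => dn (v : E (m + 1))) v₀ := by
  unfold dn
  have h1 : ContinuousAt (fun v : S (m + 1) => fun i : Fin m =>
      (v : E (m + 1)) i.castSucc / (v : E (m + 1)) (Fin.last m)) v₀ := by
    refine continuousAt_pi.2 fun i => ?_
    refine ContinuousAt.div ?_ ?_ ?_
    · have : Continuous fun v : S (m + 1) => (v : E (m + 1)) i.castSucc := by fun_prop
      exact this.continuousAt
    · have : Continuous fun v : S (m + 1) => (v : E (m + 1)) (Fin.last m) := by fun_prop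
      exact this.continuousAt
    · exact ne_of_gt h
  exact ((PiLp.continuous_toLp 2 (fun _ : Fin m => ℝ)).continuousAt).comp h1

/-- the part of the sphere above an open set of the chart is open -/
theorem LOC_open {m : ℕ} {U : Set (E m)} (hU : IsOpen U) :
    IsOpen {v : S (m + 1) | 0 < hgt (v : E (m + 1)) ∧ dn (v : E (m + 1)) ∈ U} := by
  rw [isOpen_iff_mem_nhds]
  rintro v₀ ⟨h1, h2⟩
  have h3 : ∀ᶠ v in 𝓝 v₀, 0 < hgt ((v : S (m + 1)) : E (m + 1)) :=
    (LOC_hgt (m := m)).continuousAt.eventually (lt_mem_nhds h1)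
  have h4 : ∀ᶠ v in 𝓝 v₀, dn ((v : S (m + 1)) : E (m + 1)) ∈ U :=
    (LOC_dn h1).eventually (hU.mem_nhds h2)
  filter_upwards [h3, h4] with v h5 h6
  exact ⟨h5, h6⟩

/-- LOC. -/
theorem p_LOC (hCHT : T_CHT) (hHAT : T_HAT) : T_LOC := by
  intro m k Ψ hΨ K L a U hU hKL R φ hφ hout
  obtain ⟨-, -, -, -, -, -, hup, hsupp, -⟩ := hCHT m
  rw [← hΨ.trans L a]
  refine hΨ.loc K (L + pt a) {v : S (m + 1) | 0 < hgt (v : E (m + 1)) ∧ dn (v : E (m + 1)) ∈ U}
    (LOC_open hU) ?_ (HC φ) ?_
  · rintro v ⟨h1, h2⟩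
    rw [(gSUA (m + 1)).2.2.1, (gSUA (m + 1)).2.2.2.2.1, hsupp K _ h1, hsupp L _ h1,
      hKL _ h2, mul_add]
    have h3 : inner ℝ a ((v : E (m + 1))) =
        hgt (v : E (m + 1)) * inner ℝ a (up (dn (v : E (m + 1)))) := by
      conv_lhs => rw [← hup _ h1]
      rw [real_inner_smul_right]
    rw [h3]
  · intro v hv
    rw [(hHAT m R φ φ hφ hφ).2.1 v]
    unfold hatf
    by_cases h1 : 0 < hgt (v : E (m + 1))
    · rw [if_pos h1]
      refine hout _ fun h2 => hv ⟨h1, h2⟩
    · rw [if_neg h1]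

end Pool.Agent.GNS
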