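import Pool.Agent.GNS.T1

/-!
# GNS: target MAB, mixed minors
-/

set_option autoImplicit false

noncomputable section

namespace Pool.Agent.GNS

/-- the test vector `α e_i + e_j + s e_k` -/
def MAB_c (α s : ℝ) (i j k a : Fin 4) : ℝ :=
  α * (if a = i then 1 else 0) + (if a = j then 1 else 0) + s * (if a = k then 1 else 0)

theorem MAB_sum (α s : ℝ) (i j k : Fin 4) (f : Fin 4 → ℝ) :
    ∑ a, MAB_c α s i j k a * f a = α * f i + f j + s * f k := by
  unfold MAB_c
  simp only [add_mul, Finset.sum_add_distrib, mul_assoc, ← Finset.mul_sum, ite_mul, one_mul,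
    zero_mul, Finset.sum_ite_eq', Finset.mem_univ, if_true]

theorem MAB_form (H : Fin 4 → Fin 4 → ℝ) (α s : ℝ) (i j k : Fin 4) :
    ∑ a, ∑ b, MAB_c α s i j k a * MAB_c α s i j k b * H a b =
      α * (α * H i i + H i j + s * H i k) + (α * H j i + H j j + s * H j k) +
        s * (α * H k i + H k j + s * H k k) := by
  have h1 : ∀ a, ∑ b, MAB_c α s i j k a * MAB_c α s i j k b * H a b =
      MAB_c α s i j k a * (α * H a i + H a j + s * H a k) := by
    intro a
    rw [← MAB_sum α s i j k (H a), Finset.mul_sum]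
    exact Finset.sum_congr rfl fun b _ => by ring
  rw [Finset.sum_congr rfl fun a _ => h1 a, MAB_sum]

/-- for a symmetric form which is nonnegative -/
theorem MAB_main (H : Fin 4 → Fin 4 → ℝ) (hs : ∀ a b, H a b = H b a)
    (hp : ∀ c : Fin 4 → ℝ, 0 ≤ ∑ a, ∑ b, c a * c b * H a b) (s : ℝ) (hs1 : s ^ 2 = 1)
    (i j k : Fin 4) :
    0 ≤ (H i i * H j j - H i j ^ 2) + (H i i * H k k - H i k ^ 2) +
      s * (2 * (H i i * H j k - H i j * H i k)) := by
  have h1 : ∀ α : ℝ, 0 ≤ H i i * (α * α) + (2 * (H i j + s * H i k)) * α +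
      (H j j + 2 * s * H j k + s ^ 2 * H k k) := by
    intro α
    have h2 := hp (MAB_c α s i j k)
    rw [MAB_form, hs j i, hs k i, hs k j] at h2
    nlinarith [h2]
  have h3 := discrim_le_zero h1
  unfold discrim at h3
  have h4 : (2 * (H i j + s * H i k)) ^ 2 - 4 * H i i * (H j j + 2 * s * H j k + s ^ 2 * H k k) =
      4 * (H i j ^ 2 + 2 * s * (H i j * H i k) + s ^ 2 * H i k ^ 2 -
        H i i * H j j - 2 * s * (H i i * H j k) - s ^ 2 * (H i i * H k k)) := by ring
  rw [h4, hs1] at h3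
  linarith [h3]

/-- MAB -/
theorem p_MAB (hPSD : T_PSD) : T_MAB := by
  intro w hw hc z i j k
  have hs : ∀ a b : Fin 4, d a (d b w) z = d b (d a w) z := fun a b => d_comm hw a b z
  have hp : ∀ c : Fin 4 → ℝ, 0 ≤ ∑ a, ∑ b, c a * c b * d a (d b w) z :=
    fun c => hPSD w hw hc z c
  have h1 := MAB_main (fun a b => d a (d b w) z) hs hp 1 (by norm_num) i j k
  have h2 := MAB_main (fun a b => d a (d b w) z) hs hp (-1) (by norm_num) i j k
  have h3 : 2 * |d i (d i w) z * d j (d k w) z - d i (d j w) z * d i (d k w) z| =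
      |2 * (d i (d i w) z * d j (d k w) z - d i (d j w) z * d i (d k w) z)| := by
    rw [abs_mul]
    norm_num
  rw [h3, abs_le]
  constructor <;> linarith [h1, h2]

end Pool.Agent.GNS
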