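import Pool.Agent.GNS.T1

/-!
# GNS, target MAS: bounds for the masses
-/

set_option autoImplicit false

open Metric Set Filter Topology MeasureTheory

noncomputable section

namespace Pool.Agent.GNS

namespace MAS_

theorem hcs_abs {g : V → ℝ} (hc : HasCompactSupport g) : HasCompactSupport fun z => |g z| :=
  hc.comp_left (g := fun t : ℝ => |t|) abs_zero

/-- the first bound -/
theorem first {χ w : V → ℝ} (hχ : Sm χ) (hc : HasCompactSupport χ) (hw : Wc w) (i : Fin 4) :
    ∫ z, χ z * d i (d i w) z ≤ ∫ z, |d i χ z| := by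
  have h1 := d_ibp (hw.sm.d i) hχ hc i
  have h2 : ∫ z, χ z * d i (d i w) z = ∫ z, -(d i w z * d i χ z) := by
    rw [integral_neg, ← h1]
    exact integral_congr_ae (Filter.Eventually.of_forall fun z => mul_comm _ _)
  rw [h2]
  have hcd := hcs_d hc i
  refine integral_mono ?_ ?_ ?_
  · exact (int_of ((hw.sm.d i).cont.mul (hχ.d i).cont) hcd.mul_left).neg
  · exact int_of ((hχ.d i).cont.abs) (hcs_abs hcd)
  · intro z
    show -(d i w z * d i χ z) ≤ |d i χ z|
    have h3 := hw.bd i z
    calc -(d i w z * d i χ z) ≤ |d i w z * d i χ z| := neg_le_abs _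
      _ = |d i w z| * |d i χ z| := abs_mul _ _
      _ ≤ 1 * |d i χ z| := mul_le_mul_of_nonneg_right h3 (abs_nonneg _)
      _ = |d i χ z| := one_mul _

theorem minor_eq {w : V → ℝ} (hw : Sm w) (i j : Fin 4) (z : V) :
    d i (d i w) z * d j (d j w) z - d i (d j w) z ^ 2 =
      d i (fun z => d i w z * d j (d j w) z) z - d j (fun z => d i w z * d i (d j w) z) z := by
  rw [d_mul (hw.d i) ((hw.d j).d j), d_mul (hw.d i) ((hw.d j).d i), d_comm hw j i z,
    d_comm (hw.d j) j i z]
  ring

theorem int_minor {χ w : V → ℝ} (hχ : Sm χ) (hc : HasCompactSupport χ) (hw : Sm w)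
    (i j : Fin 4) :
    ∫ z, χ z * (d i (d i w) z * d j (d j w) z - d i (d j w) z ^ 2) =
      ∫ z, (-(d i w z * d j (d j w) z * d i χ z) + d i w z * d i (d j w) z * d j χ z) := by
  have hF : Sm fun z => d i w z * d j (d j w) z := (hw.d i).mul ((hw.d j).d j)
  have hG : Sm fun z => d i w z * d i (d j w) z := (hw.d i).mul ((hw.d j).d i)
  have h1 := d_ibp hF hχ hc i
  have h2 := d_ibp hG hχ hc j
  have h3 : ∫ z, χ z * (d i (d i w) z * d j (d j w) z - d i (d j w) z ^ 2) =
      ∫ z, (d i (fun z => d i w z * d j (d j w) z) z * χ z -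
        d j (fun z => d i w z * d i (d j w) z) z * χ z) := by
    refine integral_congr_ae (Filter.Eventually.of_forall fun z => ?_)
    show χ z * (d i (d i w) z * d j (d j w) z - d i (d j w) z ^ 2) = _
    rw [minor_eq hw i j z]
    ring
  have i1 : Integrable fun z => d i (fun z => d i w z * d j (d j w) z) z * χ z :=
    int_of ((hF.d i).cont.mul hχ.cont) hc.mul_left
  have i2 : Integrable fun z => d j (fun z => d i w z * d i (d j w) z) z * χ z :=
    int_of ((hG.d j).cont.mul hχ.cont) hc.mul_left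
  have i3 : Integrable fun z => d i w z * d j (d j w) z * d i χ z :=
    int_of (hF.cont.mul (hχ.d i).cont) (hcs_d hc i).mul_left
  have i4 : Integrable fun z => d i w z * d i (d j w) z * d j χ z :=
    int_of (hG.cont.mul (hχ.d j).cont) (hcs_d hc j).mul_left
  have h4 : ∫ z, (-(d i w z * d j (d j w) z * d i χ z) + d i w z * d i (d j w) z * d j χ z) =
      (∫ z, -(d i w z * d j (d j w) z * d i χ z)) + ∫ z, d i w z * d i (d j w) z * d j χ z :=
    integral_add i3.neg i4
  rw [h3, integral_sub i1 i2, h1, h2, h4, integral_neg]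
  ring

/-- a larger cut-off function -/
theorem cutoff {χ : V → ℝ} (hχ : Sm χ) (hc : HasCompactSupport χ) :
    ∃ (χ' : V → ℝ) (M : ℝ), Sm χ' ∧ HasCompactSupport χ' ∧ 0 ≤ M ∧ (∀ z, 0 ≤ χ' z) ∧
      ∀ i z, |d i χ z| ≤ M * χ' z := by
  obtain ⟨R, hR⟩ := hc.isCompact.isBounded.subset_closedBall (0 : V)
  have hb : ∀ i : Fin 4, ∃ C : ℝ, ∀ z, ‖d i χ z‖ ≤ C := fun i =>
    (hcs_d hc i).exists_bound_of_continuous (hχ.d i).cont
  choose Cb hCb using hb
  have hC0 : ∀ i, 0 ≤ Cb i := fun i => (norm_nonneg _).trans (hCb i 0)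
  let B : ContDiffBump (0 : V) :=
    { rIn := |R| + 1
      rOut := |R| + 2
      rIn_pos := by positivity
      rIn_lt_rOut := by linarith }
  refine ⟨fun z => B z, ∑ i, Cb i, B.contDiff, B.hasCompactSupport,
    Finset.sum_nonneg fun i _ => hC0 i, fun z => B.nonneg, ?_⟩
  intro i z
  have h1 : |d i χ z| ≤ ∑ i, Cb i := (hCb i z).trans
    (Finset.single_le_sum (f := Cb) (fun i _ => hC0 i) (Finset.mem_univ i))
  by_cases hz : z ∈ tsupport χ
  · have h2 : ‖z‖ ≤ |R| := by
      have := hR hz
      rw [mem_closedBall, dist_zero_right] at this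
      exact this.trans (le_abs_self R)
    have h3 : B z = 1 := by
      apply B.one_of_mem_closedBall
      rw [mem_closedBall, dist_zero_right]
      show ‖z‖ ≤ |R| + 1
      linarith
    show |d i χ z| ≤ (∑ i, Cb i) * B z
    rw [h3, mul_one]
    exact h1
  · have h2 : fderiv ℝ χ z = 0 := by
      by_contra h
      exact hz (support_fderiv_subset ℝ (f := χ) h)
    have h3 : d i χ z = 0 := by
      unfold d
      rw [h2]
      rfl
    show |d i χ z| ≤ (∑ i, Cb i) * B z
    rw [h3, abs_zero]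
    exact mul_nonneg (Finset.sum_nonneg fun i _ => hC0 i) B.nonneg

theorem abs_mixed {a b c : ℝ} (ha : 0 ≤ a) (hb : 0 ≤ b) (h : c ^ 2 ≤ a * b) :
    |c| ≤ (a + b) / 2 := by
  apply abs_le_of_sq_le_sq _ (by linarith)
  nlinarith [sq_nonneg (a - b)]

end MAS_

open MAS_ in
theorem p_MAS (hPS2 : T_PS2) : T_MAS := by
  intro χ hχ hc _
  obtain ⟨χ', M, hχ', hc', hM, hχn, hdom⟩ := cutoff hχ hc
  have hA : ∀ i : Fin 4, 0 ≤ ∫ z, |d i χ z| := fun i => integral_nonneg fun z => abs_nonneg _
  have hJ : ∀ i : Fin 4, 0 ≤ ∫ z, |d i χ' z| := fun i => integral_nonneg fun z => abs_nonneg _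
  have hJs : ∀ i : Fin 4, ∫ z, |d i χ' z| ≤ ∑ i : Fin 4, ∫ z, |d i χ' z| := fun i =>
    Finset.single_le_sum (f := fun i : Fin 4 => ∫ z, |d i χ' z|) (fun i _ => hJ i)
      (Finset.mem_univ i)
  have hAs : ∀ i : Fin 4, ∫ z, |d i χ z| ≤ ∑ i : Fin 4, ∫ z, |d i χ z| := fun i =>
    Finset.single_le_sum (f := fun i : Fin 4 => ∫ z, |d i χ z|) (fun i _ => hA i)
      (Finset.mem_univ i)
  set A : ℝ := ∑ i : Fin 4, ∫ z, |d i χ z| with hAdef
  set J : ℝ := ∑ i : Fin 4, ∫ z, |d i χ' z| with hJdef
  have hA0 : 0 ≤ A := Finset.sum_nonneg fun i _ => hA i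
  have hJ0 : 0 ≤ J := Finset.sum_nonneg fun i _ => hJ i
  have hMJ : 0 ≤ M * J := mul_nonneg hM hJ0
  refine ⟨A + 2 * (M * J), by linarith, fun w hw => ⟨fun i => ?_, fun i j => ?_⟩⟩
  · have := first hχ hc hw i
    have := hAs i
    linarith
  · have hF : Sm fun z => d i w z * d j (d j w) z := (hw.sm.d i).mul ((hw.sm.d j).d j)
    have hG : Sm fun z => d i w z * d i (d j w) z := (hw.sm.d i).mul ((hw.sm.d j).d i)
    rw [int_minor hχ hc hw.sm i j]
    have i3 : Integrable fun z => d i w z * d j (d j w) z * d i χ z :=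
      int_of (hF.cont.mul (hχ.d i).cont) (hcs_d hc i).mul_left
    have i4 : Integrable fun z => d i w z * d i (d j w) z * d j χ z :=
      int_of (hG.cont.mul (hχ.d j).cont) (hcs_d hc j).mul_left
    have i5 : Integrable fun z => χ' z * d i (d i w) z :=
      int_of (hχ'.cont.mul ((hw.sm.d i).d i).cont) hc'.mul_right
    have i6 : Integrable fun z => χ' z * d j (d j w) z :=
      int_of (hχ'.cont.mul ((hw.sm.d j).d j).cont) hc'.mul_right
    have i7 : Integrable fun z => M / 2 * (χ' z * d i (d i w) z) +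
        3 * M / 2 * (χ' z * d j (d j w) z) := (i5.const_mul _).add (i6.const_mul _)
    have hle : ∫ z, (-(d i w z * d j (d j w) z * d i χ z) + d i w z * d i (d j w) z * d j χ z) ≤
        ∫ z, (M / 2 * (χ' z * d i (d i w) z) + 3 * M / 2 * (χ' z * d j (d j w) z)) := by
      refine integral_mono (i3.neg.add i4) i7 ?_
      intro z
      show -(d i w z * d j (d j w) z * d i χ z) + d i w z * d i (d j w) z * d j χ z ≤
        M / 2 * (χ' z * d i (d i w) z) + 3 * M / 2 * (χ' z * d j (d j w) z)
      obtain ⟨hii, hij⟩ := hPS2 w hw.sm hw.cvx z i j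
      have hjj := (hPS2 w hw.sm hw.cvx z j i).1
      have hmix := abs_mixed hii hjj hij
      have hb := hw.bd i z
      have h1 : -(d i w z * d j (d j w) z * d i χ z) ≤ M * χ' z * d j (d j w) z := by
        calc -(d i w z * d j (d j w) z * d i χ z)
            ≤ |d i w z * d j (d j w) z * d i χ z| := neg_le_abs _
          _ = |d i w z| * d j (d j w) z * |d i χ z| := by
              rw [abs_mul, abs_mul, abs_of_nonneg hjj]
          _ ≤ 1 * d j (d j w) z * (M * χ' z) := by
              have := hdom i z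
              gcongr
          _ = M * χ' z * d j (d j w) z := by ring
      have h2 : d i w z * d i (d j w) z * d j χ z ≤
          M * χ' z * ((d i (d i w) z + d j (d j w) z) / 2) := by
        calc d i w z * d i (d j w) z * d j χ z
            ≤ |d i w z * d i (d j w) z * d j χ z| := le_abs_self _
          _ = |d i w z| * |d i (d j w) z| * |d j χ z| := by
              rw [abs_mul, abs_mul]
          _ ≤ 1 * ((d i (d i w) z + d j (d j w) z) / 2) * (M * χ' z) := by
              have := hdom j z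
              gcongr
          _ = M * χ' z * ((d i (d i w) z + d j (d j w) z) / 2) := by ring
      calc _ ≤ M * χ' z * d j (d j w) z +
            M * χ' z * ((d i (d i w) z + d j (d j w) z) / 2) := add_le_add h1 h2
        _ = _ := by ring
    refine hle.trans ?_
    rw [integral_add (i5.const_mul _) (i6.const_mul _), integral_const_mul, integral_const_mul]
    have f1 := (first hχ' hc' hw i).trans (hJs i)
    have f2 := (first hχ' hc' hw j).trans (hJs j)
    have g1 : M / 2 * ∫ z, χ' z * d i (d i w) z ≤ M / 2 * J :=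
      mul_le_mul_of_nonneg_left f1 (by linarith)
    have g2 : 3 * M / 2 * ∫ z, χ' z * d j (d j w) z ≤ 3 * M / 2 * J :=
      mul_le_mul_of_nonneg_left f2 (by linarith)
    nlinarith [g1, g2, hA0]

end Pool.Agent.GNS
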