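import Pool.Agent.GNS.T1

/-!
# GNS: proof of the target MN (main inequality)
-/

set_option autoImplicit false

open Metric Set Filter Topology MeasureTheory

noncomputable section

namespace Pool.Agent.GNS

/-- pointwise bound of the mixed minor -/
lemma MN_alg (a b c d A B C D K : ℝ) (ha : a ^ 2 ≤ 32 * A + K) (hb : b ^ 2 ≤ 32 * B + K)
    (hc : c ^ 2 ≤ 32 * C + K) (hd : d ^ 2 ≤ 32 * D + K) :
    |a * d - b * c| ≤ 16 * (A + B + C + D) + 2 * K := by
  rw [abs_le]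
  constructor <;> nlinarith [sq_nonneg (a - d), sq_nonneg (a + d), sq_nonneg (b - c),
    sq_nonneg (b + c)]

lemma MN_sm_q2 : Sm q2 := by
  unfold Sm q2
  fun_prop

lemma MN_gy_cont {F : V → ℝ} (hF : Sm F) : Continuous (gy F) := by
  unfold gy
  have h2 := (hF.d 2).cont
  have h3 := (hF.d 3).cont
  fun_prop

lemma MN_SS_cont {F : V → ℝ} (hF : Sm F) (i : Fin 4) : Continuous (SS i F) := by
  unfold SS
  have h1 := ((hF.d i).d i).cont
  have h2 := ((hF.d 2).d 2).cont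
  have h3 := ((hF.d 3).d 3).cont
  have h4 := ((hF.d 2).d i).cont
  have h5 := ((hF.d 3).d i).cont
  fun_prop

lemma MN_g0_cont {θ : ℝ → ℝ} (hθ : Continuous θ) (h : ℝ) : Continuous (g0 θ h) := by
  unfold g0 c0
  fun_prop

lemma MN_g1_cont {θ : ℝ → ℝ} (hθ : Continuous θ) (h h' : ℝ) : Continuous (g1 θ h h') := by
  unfold g1 c0 c1
  fun_prop

/-- the two applications of FUB and one of SII for one index -/
lemma MN_one (hFUB : T_FUB) (hSII : T_SII) {η r : ℝ} {ρ w W β ζ1 g : V → ℝ}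
    {ω : ℝ} (hη : 0 < η) (hw : Wc w) (hρ : Ker r ρ)
    (hu : Sm (Leg fun z => w z + η * q2 z))
    (cW : Continuous W) (csW : HasCompactSupport W) (nW : ∀ z, 0 ≤ W z)
    (cβ : Continuous β) (xβ : Xo β) (nβ : ∀ z, 0 ≤ β z) (hω : 0 < ω)
    (cζ : Continuous ζ1) (nζ : ∀ z, 0 ≤ ζ1 z) (csζ : HasCompactSupport ζ1)
    (cg : Continuous g) (ng : ∀ z, 0 ≤ g z)
    (xg : ∀ z, g (gy (Leg fun z => w z + η * q2 z) z) = g z)
    (hWW : ∀ z z', ‖z - z'‖ ≤ r →
      W z ≤ (β z' + ω) * ζ1 (gy (Leg fun z => w z + η * q2 z) z'))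
    (i : Fin 4) (hi : i = 0 ∨ i = 1) :
    (∫ z, W z * cv ρ (fun ζ => g ζ * d 2 (d i (Leg fun z => w z + η * q2 z)) ζ ^ 2) z) +
      (∫ z, W z * cv ρ (fun ζ => g ζ * d 3 (d i (Leg fun z => w z + η * q2 z)) ζ ^ 2) z) ≤
    ∫ z, ζ1 z * (β z + ω) * g z * SS i (fun z => w z + η * q2 z) z := by
  set u : V → ℝ := Leg fun z => w z + η * q2 z with hudef
  have cgy : Continuous (gy u) := MN_gy_cont hu
  have hβgy : ∀ z, β (gy u z) = β z := fun z => xβ _ _ rfl
  -- compact support of W'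
  have h1 := (hSII η w (fun q => (β q + ω) * ζ1 q) hη hw (by fun_prop) csζ.mul_left
    (fun z => mul_nonneg (by linarith [nβ z]) (nζ z)) i hi).1
  rw [← hudef] at h1
  have csW' : HasCompactSupport (fun z' => (β z' + ω) * ζ1 (gy u z')) := by
    have e1 : (fun z' => (β z' + ω) * ζ1 (gy u z')) =
        fun z => (fun q => (β q + ω) * ζ1 q) (gy u z) := by
      funext z
      simp only [hβgy]
    rw [e1]
    exact h1
  have cW' : Continuous (fun z' => (β z' + ω) * ζ1 (gy u z')) := by fun_prop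
  have c2 := ((hu.d i).d 2).cont
  have c3 := ((hu.d i).d 3).cont
  have F2 := hFUB r ρ W (fun z' => (β z' + ω) * ζ1 (gy u z'))
    (fun ζ => g ζ * d 2 (d i u) ζ ^ 2) hρ cW cW' (by fun_prop) csW csW' nW
    (fun z => mul_nonneg (ng z) (sq_nonneg _)) hWW
  have F3 := hFUB r ρ W (fun z' => (β z' + ω) * ζ1 (gy u z'))
    (fun ζ => g ζ * d 3 (d i u) ζ ^ 2) hρ cW cW' (by fun_prop) csW csW' nW
    (fun z => mul_nonneg (ng z) (sq_nonneg _)) hWW
  have S := (hSII η w (fun q => ζ1 q * (β q + ω) * g q) hη hw (by fun_prop)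
    (csζ.mul_right.mul_right)
    (fun z => mul_nonneg (mul_nonneg (nζ z) (by linarith [nβ z])) (ng z)) i hi).2
  rw [← hudef] at S
  have i2 : Integrable fun z => (β z + ω) * ζ1 (gy u z) * (g z * d 2 (d i u) z ^ 2) :=
    int_of (by fun_prop) csW'.mul_right
  have i3 : Integrable fun z => (β z + ω) * ζ1 (gy u z) * (g z * d 3 (d i u) z ^ 2) :=
    int_of (by fun_prop) csW'.mul_right
  have e2 : (∫ z, (β z + ω) * ζ1 (gy u z) * (g z * d 2 (d i u) z ^ 2)) +
      (∫ z, (β z + ω) * ζ1 (gy u z) * (g z * d 3 (d i u) z ^ 2)) =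
      ∫ z, (fun q => ζ1 q * (β q + ω) * g q) (gy u z) *
        (d 2 (d i u) z ^ 2 + d 3 (d i u) z ^ 2) := by
    rw [← integral_add i2 i3]
    congr 1
    funext z
    simp only [hβgy, xg]
    ring
  calc _ ≤ _ := add_le_add F2 F3
    _ = _ := e2
    _ ≤ _ := S

theorem p_MN (hUIK : T_UIK) (hPWB : T_PWB) (hLGC : T_LGC) (hREG : T_REG) (hFUB : T_FUB)
    (hSII : T_SII) (hCNV : T_CNV) : T_MN := by
  intro N θ σ σ2 q3 ϵ m2 c3 C ζ0 ζ1 b β hP hN hc hb cβ xβ hbβ ob η ω hη hη1 hω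
  obtain ⟨r0, hr0, hreg⟩ := hREG b β hb.cont cβ xβ hbβ ob η ω hη hη1 hω
  refine ⟨r0, hr0, ?_⟩
  intro r ρ hr hrr hρ
  obtain ⟨C1, hC1, huik⟩ := hUIK N θ σ σ2 q3 ϵ m2 c3 C hP hN r ρ hr hρ
  have csb : HasCompactSupport b := hcs_of ob
  obtain ⟨Mb, hMb⟩ : ∃ Mb : ℝ, ∀ z, |b z| ≤ Mb := by
    obtain ⟨M, hM⟩ := hb.cont.bounded_above_of_compact_support csb
    exact ⟨M, fun z => by simpa using hM z⟩
  have hMb0 : 0 ≤ Mb := (abs_nonneg _).trans (hMb 0)
  have nβ : ∀ z, 0 ≤ β z := fun z => (abs_nonneg _).trans (hbβ z)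
  have cθ : Continuous θ := hP.smθ.continuous
  refine ⟨2 * C1 * (Mb * volume.real (closedBall (0 : V) 4)), by positivity, ?_⟩
  intro w hw h h' hh hh1 hh' hh1'
  obtain ⟨hSC, hUc, -, -⟩ := hLGC η w hη hw
  set u : V → ℝ := Leg fun z => w z + η * q2 z with hudef
  have csρ : HasCompactSupport ρ := hcs_of hρ.out
  have hubs : Sm (ub ρ r u) := by
    have h1 := (hCNV ρ u hρ.sm csρ hUc.sm.cont).1
    exact h1.add (MN_sm_q2.cmul r)
  obtain ⟨csB, eB⟩ := hPWB η r ρ u b hη hr hρ hUc hb csb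
  rw [eB]
  have cgy : Continuous (gy (ub ρ r u)) := MN_gy_cont hubs
  have cb := hb.cont
  set W : V → ℝ := fun z => |b (gy (ub ρ r u) z)| with hW
  have cW : Continuous W := by fun_prop
  have csW : HasCompactSupport W := csB.comp_left (g := fun t : ℝ => |t|) (by simp)
  have nW : ∀ z, 0 ≤ W z := fun z => abs_nonneg _
  have nζ := hc.nn1
  have cζ : Continuous ζ1 := hc.sm1.cont
  have csζ : HasCompactSupport ζ1 := hcs_of hc.out1
  have hWW : ∀ z z', ‖z - z'‖ ≤ r → W z ≤ (β z' + ω) * ζ1 (gy u z') := by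
    intro z z' hz
    by_cases h0 : b (gy (ub ρ r u) z) = 0
    · simp only [hW, h0, abs_zero]
      exact mul_nonneg (by linarith [nβ z']) (nζ _)
    · obtain ⟨-, h2, h3⟩ := hreg r ρ u hr hrr hρ hUc z z' hz h0
      rw [hc.one1 _ h2, mul_one]
      exact h3
  have ng0 : ∀ z, 0 ≤ g0 θ h z := fun z => by
    unfold g0 c0
    linarith [hP.le (z.1.1 / h)]
  have ng1 : ∀ z, 0 ≤ g1 θ h h' z := fun z => by
    unfold g1 c0 c1
    have h1 := hP.le (z.1.2 / h')
    have h2 := hP.nn (z.1.1 / h)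
    exact mul_nonneg (by linarith) (by linarith)
  have cg0 := MN_g0_cont cθ h
  have cg1 := MN_g1_cont cθ h h'
  have O0 := MN_one hFUB hSII (g := g0 θ h) hη hw hρ hUc.sm cW csW nW cβ xβ nβ hω cζ nζ
    csζ cg0 ng0 (fun z => rfl) hWW 0 (Or.inl rfl)
  have O1 := MN_one hFUB hSII (g := g1 θ h h') hη hw hρ hUc.sm cW csW nW cβ xβ nβ hω cζ nζ
    csζ cg1 ng1 (fun z => rfl) hWW 1 (Or.inr rfl)
  rw [← hudef] at O0 O1
  have c20 := ((hUc.sm.d 0).d 2).cont
  have c30 := ((hUc.sm.d 0).d 3).cont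
  have c21 := ((hUc.sm.d 1).d 2).cont
  have c31 := ((hUc.sm.d 1).d 3).cont
  have k20 : Continuous (cv ρ fun ζ => g0 θ h ζ * d 2 (d 0 u) ζ ^ 2) :=
    (hCNV ρ _ hρ.sm csρ (by fun_prop)).1.cont
  have k30 : Continuous (cv ρ fun ζ => g0 θ h ζ * d 3 (d 0 u) ζ ^ 2) :=
    (hCNV ρ _ hρ.sm csρ (by fun_prop)).1.cont
  have k21 : Continuous (cv ρ fun ζ => g1 θ h h' ζ * d 2 (d 1 u) ζ ^ 2) :=
    (hCNV ρ _ hρ.sm csρ (by fun_prop)).1.cont
  have k31 : Continuous (cv ρ fun ζ => g1 θ h h' ζ * d 3 (d 1 u) ζ ^ 2) :=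
    (hCNV ρ _ hρ.sm csρ (by fun_prop)).1.cont
  have I20 : Integrable fun z => W z * cv ρ (fun ζ => g0 θ h ζ * d 2 (d 0 u) ζ ^ 2) z :=
    int_of (cW.mul k20) csW.mul_right
  have I30 : Integrable fun z => W z * cv ρ (fun ζ => g0 θ h ζ * d 3 (d 0 u) ζ ^ 2) z :=
    int_of (cW.mul k30) csW.mul_right
  have I21 : Integrable fun z => W z * cv ρ (fun ζ => g1 θ h h' ζ * d 2 (d 1 u) ζ ^ 2) z :=
    int_of (cW.mul k21) csW.mul_right
  have I31 : Integrable fun z => W z * cv ρ (fun ζ => g1 θ h h' ζ * d 3 (d 1 u) ζ ^ 2) z :=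
    int_of (cW.mul k31) csW.mul_right
  have IW : Integrable W := int_of cW csW
  have hT : Continuous (T12 (ub ρ r u)) := by
    unfold T12
    have h1 := ((hubs.d 2).d 0).cont
    have h2 := ((hubs.d 3).d 1).cont
    have h3 := ((hubs.d 3).d 0).cont
    have h4 := ((hubs.d 2).d 1).cont
    fun_prop
  -- pointwise inequality
  have hpt : ∀ z, |b (gy (ub ρ r u) z) * T12 (ub ρ r u) z| ≤
      16 * ((W z * cv ρ (fun ζ => g0 θ h ζ * d 2 (d 0 u) ζ ^ 2) z +
        W z * cv ρ (fun ζ => g0 θ h ζ * d 3 (d 0 u) ζ ^ 2) z) +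
        (W z * cv ρ (fun ζ => g1 θ h h' ζ * d 2 (d 1 u) ζ ^ 2) z +
        W z * cv ρ (fun ζ => g1 θ h h' ζ * d 3 (d 1 u) ζ ^ 2) z)) +
        2 * (C1 * (h + h')) * W z := by
    intro z
    have u2 := huik η u hη hUc z h h' hh hh1 hh' hh1' 2 (Or.inl rfl)
    have u3 := huik η u hη hUc z h h' hh hh1 hh' hh1' 3 (Or.inr rfl)
    have hal := MN_alg _ _ _ _ _ _ _ _ _ u2.1 u3.1 u2.2 u3.2
    have e1 : T12 (ub ρ r u) z = d 2 (d 0 (ub ρ r u)) z * d 3 (d 1 (ub ρ r u)) z -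
        d 3 (d 0 (ub ρ r u)) z * d 2 (d 1 (ub ρ r u)) z := by
      unfold T12
      rw [d_comm hubs 0 2, d_comm hubs 1 3, d_comm hubs 0 3, d_comm hubs 1 2]
    rw [abs_mul, e1]
    have h2 := mul_le_mul_of_nonneg_left hal (nW z)
    simp only [hW] at h2 ⊢
    linarith
  have hI : |∫ z, b (gy (ub ρ r u) z) * T12 (ub ρ r u) z| ≤
      ∫ z, (16 * ((W z * cv ρ (fun ζ => g0 θ h ζ * d 2 (d 0 u) ζ ^ 2) z +
        W z * cv ρ (fun ζ => g0 θ h ζ * d 3 (d 0 u) ζ ^ 2) z) +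
        (W z * cv ρ (fun ζ => g1 θ h h' ζ * d 2 (d 1 u) ζ ^ 2) z +
        W z * cv ρ (fun ζ => g1 θ h h' ζ * d 3 (d 1 u) ζ ^ 2) z)) +
        2 * (C1 * (h + h')) * W z) := by
    refine (abs_integral_le_integral_abs).trans ?_
    refine integral_mono ?_ ?_ hpt
    · exact (int_of (by fun_prop) csB.mul_right).abs
    · exact (((I20.add I30).add (I21.add I31)).const_mul 16).add (IW.const_mul _)
  have A1 : Integrable fun z => W z * cv ρ (fun ζ => g0 θ h ζ * d 2 (d 0 u) ζ ^ 2) z +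
      W z * cv ρ (fun ζ => g0 θ h ζ * d 3 (d 0 u) ζ ^ 2) z := I20.add I30
  have A2 : Integrable fun z => W z * cv ρ (fun ζ => g1 θ h h' ζ * d 2 (d 1 u) ζ ^ 2) z +
      W z * cv ρ (fun ζ => g1 θ h h' ζ * d 3 (d 1 u) ζ ^ 2) z := I21.add I31
  have A3 : Integrable fun z =>
      (W z * cv ρ (fun ζ => g0 θ h ζ * d 2 (d 0 u) ζ ^ 2) z +
      W z * cv ρ (fun ζ => g0 θ h ζ * d 3 (d 0 u) ζ ^ 2) z) +
      (W z * cv ρ (fun ζ => g1 θ h h' ζ * d 2 (d 1 u) ζ ^ 2) z +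
      W z * cv ρ (fun ζ => g1 θ h h' ζ * d 3 (d 1 u) ζ ^ 2) z) := A1.add A2
  rw [integral_add (A3.const_mul 16) (IW.const_mul (2 * (C1 * (h + h')))),
    integral_const_mul, integral_const_mul, integral_add A1 A2,
    integral_add I20 I30, integral_add I21 I31] at hI
  -- the last term
  have hWint : ∫ z, W z ≤ Mb * volume.real (closedBall (0 : V) 4) := by
    have h1 : ∫ z, W z ≤ ∫ z, (closedBall (0 : V) 4).indicator (fun _ => Mb) z := by
      refine integral_mono IW ?_ ?_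
      · refine (integrableOn_const ?_).integrable_indicator measurableSet_closedBall
        exact measure_closedBall_lt_top.ne
      · intro z
        by_cases h0 : b (gy (ub ρ r u) z) = 0
        · simp only [hW, h0, abs_zero]
          exact indicator_nonneg (fun _ _ => hMb0) z
        · obtain ⟨h1, -, -⟩ := hreg r ρ u hr hrr hρ hUc z z (by simpa using hr.le) h0
          have h2 : z ∈ closedBall (0 : V) 4 := by
            rw [mem_closedBall, dist_zero_right]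
            exact h1
          rw [indicator_of_mem h2]
          exact hMb _
    rw [integral_indicator measurableSet_closedBall, setIntegral_const, smul_eq_mul,
      mul_comm] at h1
    exact h1
  have hFs : Sm fun z => w z + η * q2 z := hSC.sm
  have cS0 := MN_SS_cont hFs 0
  have cS1 := MN_SS_cont hFs 1
  have J0 : Integrable fun z => ζ1 z * (β z + ω) * g0 θ h z *
      SS 0 (fun z => w z + η * q2 z) z :=
    int_of (by fun_prop) csζ.mul_right.mul_right.mul_right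
  have J1 : Integrable fun z => ζ1 z * (β z + ω) * g1 θ h h' z *
      SS 1 (fun z => w z + η * q2 z) z :=
    int_of (by fun_prop) csζ.mul_right.mul_right.mul_right
  have eJ : (∫ z, ζ1 z * (β z + ω) * (g0 θ h z * SS 0 (fun z => w z + η * q2 z) z +
      g1 θ h h' z * SS 1 (fun z => w z + η * q2 z) z)) =
      (∫ z, ζ1 z * (β z + ω) * g0 θ h z * SS 0 (fun z => w z + η * q2 z) z) +
      ∫ z, ζ1 z * (β z + ω) * g1 θ h h' z * SS 1 (fun z => w z + η * q2 z) z := by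
    rw [← integral_add J0 J1]
    congr 1
    funext z
    ring
  rw [eJ]
  have hK : 2 * (C1 * (h + h')) * ∫ z, W z ≤
      2 * C1 * (Mb * volume.real (closedBall (0 : V) 4)) * (h + h') := by
    have h1 := mul_le_mul_of_nonneg_left hWint
      (show 0 ≤ 2 * (C1 * (h + h')) by positivity)
    linarith
  linarith

end Pool.Agent.GNS
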