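import Pool.Agent.GNS.T5

/-!
# GNS: MSP, the integral over the sections of a product body
-/

set_option autoImplicit false

open Metric Set Filter Topology MeasureTheory

noncomputable section

namespace Pool.Agent.GNS

open Pool.Agent.GLB

lemma MSP_prj {n : ℕ} (x : E n) (a : ℝ) : prj (emb x + a • (el : E (n + 1))) = x := by
  ext i
  simp [prj, emb, el, eb, Fin.snoc]

lemma MSP_hgt {n : ℕ} (x : E n) (a : ℝ) : hgt (emb x + a • (el : E (n + 1))) = a := by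
  simp [hgt, emb, el, eb, Fin.snoc]

lemma MSP_mem {n : ℕ} (hEMB : T_EMB) (K : ConvexBody (E n)) (t : ℝ) (v : E (n + 1)) :
    v ∈ em K + t • (Jl : ConvexBody (E (n + 1))) ↔
      ∃ x ∈ K, ∃ s ∈ Icc (0 : ℝ) 1, v = emb x + (t * s) • el := by
  have h1 : ((em K : ConvexBody (E (n + 1))) : Set (E (n + 1))) = emb '' (K : Set (E n)) :=
    (hEMB n).2.2.2.2.2.2.1 K
  have h2 : v ∈ em K + t • (Jl : ConvexBody (E (n + 1))) ↔
      v ∈ ((em K + t • (Jl : ConvexBody (E (n + 1))) : ConvexBody (E (n + 1))) :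
        Set (E (n + 1))) := Iff.rfl
  rw [h2, ConvexBody.coe_add, ConvexBody.coe_smul, h1, Set.mem_add]
  constructor
  · rintro ⟨a, ⟨x, hx, rfl⟩, b, hb, rfl⟩
    obtain ⟨c, hc, rfl⟩ := Set.mem_smul_set.1 hb
    have hc' : c ∈ segment ℝ (0 : E (n + 1)) el := hc
    rw [segment_eq_image] at hc'
    obtain ⟨s, hs, rfl⟩ := hc'
    refine ⟨x, hx, s, hs, ?_⟩
    simp [smul_smul]
  · rintro ⟨x, hx, s, hs, rfl⟩
    refine ⟨emb x, ⟨x, hx, rfl⟩, (t * s) • el, ?_, rfl⟩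
    refine Set.mem_smul_set.2 ⟨s • el, ?_, by rw [smul_smul]⟩
    show s • (el : E (n + 1)) ∈ segment ℝ (0 : E (n + 1)) el
    rw [segment_eq_image]
    exact ⟨s, hs, by simp⟩

lemma MSP_sec {n : ℕ} (hEMB : T_EMB) (K : ConvexBody (E n)) (t ζ : ℝ) (h0 : 0 ≤ ζ)
    (h1 : ζ ≤ t) : IsSec (em K + t • (Jl : ConvexBody (E (n + 1)))) ζ K := by
  unfold IsSec sec
  ext x
  rw [Set.mem_setOf_eq, MSP_mem hEMB]
  constructor
  · intro hx
    rcases eq_or_lt_of_le (h0.trans h1) with ht | ht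
    · refine ⟨x, hx, 0, ⟨le_rfl, zero_le_one⟩, ?_⟩
      have h2 : ζ = 0 := le_antisymm (ht ▸ h1) h0
      rw [h2, mul_zero]
    · refine ⟨x, hx, ζ / t, ⟨by positivity, (div_le_one ht).2 h1⟩, ?_⟩
      rw [mul_div_cancel₀ _ ht.ne']
  · rintro ⟨y, hy, s, hs, h⟩
    have h2 := congrArg prj h
    rw [MSP_prj, MSP_prj] at h2
    rw [h2]
    exact hy

lemma MSP_emp {n : ℕ} (hEMB : T_EMB) (K : ConvexBody (E n)) (t ζ : ℝ) (ht : 0 ≤ t)
    (h : ζ ∉ Icc 0 t) : sec (em K + t • (Jl : ConvexBody (E (n + 1)))) ζ = ∅ := by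
  rw [Set.eq_empty_iff_forall_notMem]
  intro x hx
  unfold sec at hx
  rw [Set.mem_setOf_eq, MSP_mem hEMB] at hx
  obtain ⟨y, hy, s, hs, h1⟩ := hx
  have h2 := congrArg hgt h1
  rw [MSP_hgt, MSP_hgt] at h2
  apply h
  rw [h2]
  exact ⟨mul_nonneg ht hs.1, by nlinarith [hs.2]⟩

/-- MSP -/
theorem p_MSP (hVSA : T_VSA) (hEMB : T_EMB) : T_MSP := by
  intro n μ K t ht
  have h1 : (fun ζ => vs μ (em K + t • (Jl : ConvexBody (E (n + 1)))) ζ) =
      (Icc (0 : ℝ) t).indicator (fun _ => μ K) := by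
    funext ζ
    by_cases h : ζ ∈ Icc (0 : ℝ) t
    · rw [indicator_of_mem h]
      exact (hVSA n μ _ ζ).1 K (MSP_sec hEMB K t ζ h.1 h.2)
    · rw [indicator_of_notMem h]
      exact (hVSA n μ _ ζ).2.1 (MSP_emp hEMB K t ζ ht h)
  unfold muS
  rw [h1, integral_indicator_const _ measurableSet_Icc, Measure.real, Real.volume_Icc, sub_zero,
    ENNReal.toReal_ofReal ht]
  simp

end Pool.Agent.GNS
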