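import Pool.Agent.GNS.T5

/-!
# GNS: MSV, the integral over the sections is a valuation
-/

set_option autoImplicit false

open Metric Set Filter Topology MeasureTheory

noncomputable section

namespace Pool.Agent.GNS

open Pool.Agent.GLB

/-- a dominating function -/
def MSV_bd (R C : ℝ) (ζ : ℝ) : ℝ := (Icc (-R) R).indicator (fun _ => C) ζ

theorem MSV_bd_int (R C : ℝ) : Integrable (MSV_bd R C) volume := by
  unfold MSV_bd
  rw [integrable_indicator_iff measurableSet_Icc]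
  exact integrableOn_const (by simp)

theorem MSV_le (hVSC : T_VSC) {n k : ℕ} {μ : ConvexBody (E n) → ℂ} (hμ : IsVal n k μ) (R : ℝ) :
    ∃ C : ℝ, ∀ K : ConvexBody (E (n + 1)), (K : Set (E (n + 1))) ⊆ closedBall 0 R →
      ∀ ζ, ‖vs μ K ζ‖ ≤ MSV_bd R C ζ := by
  obtain ⟨C, hC⟩ := (hVSC n k μ hμ).2.2 R
  refine ⟨C, fun K hK ζ => ?_⟩
  obtain ⟨h1, h2⟩ := hC K hK ζ
  unfold MSV_bd
  by_cases hζ : ζ ∈ Icc (-R) R
  · rw [indicator_of_mem hζ]
    exact h1
  · rw [indicator_of_notMem hζ]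
    have h3 : R < |ζ| := by
      by_contra h
      exact hζ (abs_le.1 (not_lt.1 h))
    rw [h2 h3, norm_zero]

theorem MSV_int (hVSC : T_VSC) {n k : ℕ} {μ : ConvexBody (E n) → ℂ} (hμ : IsVal n k μ)
    (K : ConvexBody (E (n + 1))) : Integrable (vs μ K) volume := by
  obtain ⟨R, hR⟩ := K.isBounded.subset_closedBall 0
  obtain ⟨C, hC⟩ := MSV_le hVSC hμ R
  exact (MSV_bd_int R C).mono' ((hVSC n k μ hμ).2.1 K) (Eventually.of_forall (hC K hR))

/-- a convergent sequence of bodies is bounded -/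
theorem MSV_bounded {m : ℕ} {Kj : ℕ → ConvexBody (E m)} {K : ConvexBody (E m)}
    (h : Tendsto Kj atTop (𝓝 K)) : ∃ R : ℝ, ∀ j, (Kj j : Set (E m)) ⊆ closedBall 0 R := by
  obtain ⟨R0, hR0⟩ := K.isBounded.subset_closedBall 0
  obtain ⟨D, hD⟩ := (tendsto_iff_dist_tendsto_zero.1 h).bddAbove_range
  refine ⟨|R0| + |D|, fun j => ?_⟩
  refine (gSUL m (Kj j) K).2.2 _ (by positivity) fun u => ?_
  have h1 := (gSUD m (Kj j) K).1 u
  have h2 := ((gSUH m K).2.2.2.2 R0 hR0).1 u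
  have h3 : dist (Kj j) K ≤ D := hD ⟨j, rfl⟩
  have h4 : dist (Kj j) K * ‖u‖ ≤ |D| * ‖u‖ :=
    mul_le_mul_of_nonneg_right (h3.trans (le_abs_self D)) (norm_nonneg u)
  have h5 : R0 * ‖u‖ ≤ |R0| * ‖u‖ :=
    mul_le_mul_of_nonneg_right (le_abs_self R0) (norm_nonneg u)
  have h6 := (abs_le.1 h1).2
  have h7 := (abs_le.1 h2).2
  rw [add_mul]
  linarith

theorem MSV_zero_smul {m : ℕ} (K : ConvexBody (E m)) : (0 : ℝ) • K = 0 := by
  refine (gSUL m _ _).2.1 fun u => ?_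
  rw [(gSUA m).2.2.2.1 K 0 u le_rfl, zero_mul]
  have h := (gSUA m).2.2.1 0 0 u
  rw [add_zero] at h
  linarith

theorem MSV_cont (hVSC : T_VSC) {n k : ℕ} {μ : ConvexBody (E n) → ℂ} (hμ : IsVal n k μ) :
    Continuous (muS μ : ConvexBody (E (n + 1)) → ℂ) := by
  refine SeqContinuous.continuous fun Kj K hK => ?_
  obtain ⟨R, hR⟩ := MSV_bounded hK
  obtain ⟨C, hC⟩ := MSV_le hVSC hμ R
  refine tendsto_integral_of_dominated_convergence (MSV_bd R C)
    (fun j => (hVSC n k μ hμ).2.1 (Kj j)) (MSV_bd_int R C)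
    (fun j => Eventually.of_forall (hC (Kj j) (hR j))) ?_
  exact (hVSC n k μ hμ).1 Kj K hK

theorem p_MSV (hVSB : T_VSB) (hVSC : T_VSC) : T_MSV := by
  intro n k μ hμ
  have hcont := MSV_cont hVSC hμ
  have hpos : ∀ (K : ConvexBody (E (n + 1))) (t : ℝ), 0 < t →
      muS μ (t • K) = (t : ℂ) ^ (k + 1) * muS μ K := by
    intro K t ht
    unfold muS
    rw [integral_congr_ae (Eventually.of_forall fun ζ => (hVSB n k μ hμ).2.1 K t ζ ht),
      integral_const_mul, Measure.integral_comp_div (vs μ K) t, abs_of_pos ht, pow_succ]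
    rw [Complex.real_smul]
    ring
  refine ⟨hcont, ?_, ?_, ?_⟩
  · intro K x
    unfold muS
    rw [integral_congr_ae (Eventually.of_forall fun ζ => (hVSB n k μ hμ).1 K x ζ)]
    exact integral_sub_right_eq_self (vs μ K) (hgt x)
  · intro K t ht
    rcases ht.eq_or_lt with h0 | hp
    · rw [← h0, MSV_zero_smul]
      have h1 : Tendsto (fun m : ℕ => muS μ (((1 / ((m : ℝ) + 1) : ℝ)) • K)) atTop
          (𝓝 (muS μ 0)) := (hcont.tendsto 0).comp ((gCTA (n + 1)).2.2.1 K)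
      have h2 : Tendsto (fun m : ℕ => (((1 / ((m : ℝ) + 1) : ℝ)) : ℂ) ^ (k + 1) * muS μ K) atTop
          (𝓝 ((0 : ℂ) ^ (k + 1) * muS μ K)) := by
        refine Tendsto.mul_const _ (Tendsto.pow ?_ _)
        have h3 : Tendsto (fun m : ℕ => (1 / ((m : ℝ) + 1) : ℝ)) atTop (𝓝 0) :=
          tendsto_one_div_add_atTop_nhds_zero_nat
        exact (Complex.continuous_ofReal.tendsto 0).comp h3
      have h4 : (fun m : ℕ => muS μ (((1 / ((m : ℝ) + 1) : ℝ)) • K)) =
          fun m : ℕ => (((1 / ((m : ℝ) + 1) : ℝ)) : ℂ) ^ (k + 1) * muS μ K :=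
        funext fun m => hpos K _ (by positivity)
      rw [h4] at h1
      rw [tendsto_nhds_unique h1 h2]
      simp
    · exact hpos K t hp
  · intro K L M N hM hN
    unfold muS
    rw [← integral_add (MSV_int hVSC hμ M) (MSV_int hVSC hμ N),
      ← integral_add (MSV_int hVSC hμ K) (MSV_int hVSC hμ L)]
    exact integral_congr_ae (Eventually.of_forall fun ζ =>
      (hVSB n k μ hμ).2.2 K L M N hM hN ζ)

end Pool.Agent.GNS
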