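import Pool.Agent.GNS.T4

/-!
# GNS: target MU1, `mu b` is in `Val_2`
-/

set_option autoImplicit false

open Metric Set Filter Topology MeasureTheory

noncomputable section

namespace Pool.Agent.GNS

open Pool.Agent.GLB

/-- a body is contained in a ball -/
theorem MU1_ball {n : ℕ} (K : ConvexBody (E n)) :
    ∃ R : ℝ, 0 ≤ R ∧ (K : Set (E n)) ⊆ closedBall 0 R := by
  obtain ⟨r, hr⟩ := K.isBounded.subset_closedBall 0
  exact ⟨max r 0, le_max_right _ _, hr.trans (closedBall_subset_closedBall (le_max_left _ _))⟩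

/-- a convergent sequence of bodies is contained in a ball -/
theorem MU1_seq {n : ℕ} {f : ℕ → ConvexBody (E n)} {K : ConvexBody (E n)}
    (h : Tendsto f atTop (𝓝 K)) :
    ∃ R : ℝ, 0 ≤ R ∧ ∀ j, (f j : Set (E n)) ⊆ closedBall 0 R := by
  obtain ⟨R, hR, hK⟩ := MU1_ball K
  have h1 : Tendsto (fun j => dist (f j) K) atTop (𝓝 0) := tendsto_iff_dist_tendsto_zero.1 h
  obtain ⟨D, hD⟩ := h1.bddAbove_range
  have hD1 : ∀ j, dist (f j) K ≤ D := fun j => hD ⟨j, rfl⟩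
  have hD0 : 0 ≤ D := dist_nonneg.trans (hD1 0)
  refine ⟨R + D, by positivity, fun j => ?_⟩
  refine (gSUL n (f j) K).2.2 _ (by positivity) fun u => ?_
  have h2 := (gSUD n (f j) K).1 u
  have h3 := ((gSUH n K).2.2.2.2 R hK).1 u
  have h4 : dist (f j) K * ‖u‖ ≤ D * ‖u‖ := mul_le_mul_of_nonneg_right (hD1 j) (norm_nonneg _)
  have h5 := (le_abs_self _).trans h2
  have h6 := (le_abs_self _).trans h3
  have h7 : (R + D) * ‖u‖ = R * ‖u‖ + D * ‖u‖ := by ring
  rw [h7]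
  linarith

theorem MU1_cont (hWKL : T_WKL) (hQCV : T_QCV) (k : ℕ) (b : V → ℝ) (hb : Sm b)
    (hc : HasCompactSupport b) : Continuous (mu (k := k) b) := by
  unfold mu
  refine Complex.continuous_ofReal.comp ?_
  rw [continuous_iff_seqContinuous]
  intro f K hf
  obtain ⟨R, hR, hfR⟩ := MU1_seq hf
  obtain ⟨w1, w2, w3, -, -⟩ := hWKL k
  refine hQCV b hb hc (fun j => wK (f j)) (wK K) R (fun j => (w1 (f j)).1) ?_ (w1 K).2.2
    (fun j => (w1 (f j)).2.2) (fun j z i => (w2 (f j) R hR (hfR j)).2.2 z i)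
  intro z
  rw [tendsto_iff_dist_tendsto_zero]
  have h1 : Tendsto (fun j => dist (f j) K * (1 + 2 * ‖z‖)) atTop (𝓝 0) := by
    have h2 := (tendsto_iff_dist_tendsto_zero.1 hf).mul_const (1 + 2 * ‖z‖)
    rwa [zero_mul] at h2
  refine squeeze_zero (fun j => dist_nonneg) (fun j => ?_) h1
  rw [Real.dist_eq]
  exact w3 (f j) K z

theorem MU1_trans (hWKL : T_WKL) (hQTI : T_QTI) (k : ℕ) (b : V → ℝ) (hb : Sm b)
    (hc : HasCompactSupport b) (K : ConvexBody (E (k + 4 + 1))) (a : E (k + 4 + 1)) :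
    mu (k := k) b (K + pt a) = mu b K := by
  obtain ⟨-, w2, -, w4, -⟩ := hWKL k
  obtain ⟨R, hR, hKR⟩ := MU1_ball K
  obtain ⟨ℓ, c, h⟩ := w4 K a
  have h1 : wK (K + pt a) = fun z => wK K z + ℓ z + c := funext h
  unfold mu
  rw [h1, hQTI b (wK K) (4 * R) hb hc (w2 K R hR hKR).1 ℓ c]

theorem MU1_dmul (t : ℝ) (w : V → ℝ) (i : Fin 4) (z : V) :
    d i (fun z => t * w z) z = t * d i w z := by
  unfold d
  have h1 : (fun z => t * w z) = t • w := rfl
  rw [h1, fderiv_const_smul_field]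
  rfl

theorem MU1_Qmul (b w : V → ℝ) (t : ℝ) : Qb b (fun z => t * w z) = t ^ 2 * Qb b w := by
  unfold Qb
  rw [mul_left_comm]
  refine congrArg (fun x : ℝ => -(1 / 2) * x) ?_
  rw [← integral_const_mul]
  refine integral_congr_ae (Eventually.of_forall fun z => ?_)
  simp only [MU1_dmul]
  ring

theorem MU1_homog (hWKL : T_WKL) (k : ℕ) (b : V → ℝ) (K : ConvexBody (E (k + 4 + 1))) (t : ℝ)
    (ht : 0 ≤ t) : mu (k := k) b (t • K) = (t : ℂ) ^ 2 * mu b K := by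
  obtain ⟨-, -, -, -, w5⟩ := hWKL k
  have h1 : wK (t • K) = fun z => t * wK K z := funext (w5 K t ht)
  unfold mu
  rw [h1, MU1_Qmul]
  push_cast
  ring

theorem MU1_val (hSUV : T_SUV) (hWKL : T_WKL) (hQVA : T_QVA) (k : ℕ) (b : V → ℝ) (hb : Sm b)
    (hc : HasCompactSupport b) (K L M N : ConvexBody (E (k + 4 + 1)))
    (hM : (M : Set (E (k + 4 + 1))) = (K : Set (E (k + 4 + 1))) ∪ L)
    (hN : (N : Set (E (k + 4 + 1))) = (K : Set (E (k + 4 + 1))) ∩ L) :
    mu (k := k) b M + mu b N = mu b K + mu b L := by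
  obtain ⟨w1, w2, -, -, -⟩ := hWKL k
  obtain ⟨R, hR, hMR⟩ := MU1_ball M
  have hKR : (K : Set (E (k + 4 + 1))) ⊆ closedBall 0 R := by
    rw [hM] at hMR
    exact subset_union_left.trans hMR
  have hLR : (L : Set (E (k + 4 + 1))) ⊆ closedBall 0 R := by
    rw [hM] at hMR
    exact subset_union_right.trans hMR
  have hNR : (N : Set (E (k + 4 + 1))) ⊆ closedBall 0 R := by
    rw [hN]
    exact inter_subset_left.trans hKR
  have h1 := hSUV _ K L M N hM hN
  have h2 : Qb b (wK M) + Qb b (wK N) = Qb b (wK K) + Qb b (wK L) :=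
    hQVA b hb hc (wK K) (wK L) (wK M) (wK N) R (w1 K).2.1 (w1 L).2.1
      (fun z => (h1 (up (inj z))).1) (fun z => (h1 (up (inj z))).2) (w1 K).2.2 (w1 L).2.2
      (w1 M).2.2 (w1 N).2.2 fun z i => ⟨(w2 K R hR hKR).2.2 z i, (w2 L R hR hLR).2.2 z i,
        (w2 M R hR hMR).2.2 z i, (w2 N R hR hNR).2.2 z i⟩
  unfold mu
  rw [← Complex.ofReal_add, ← Complex.ofReal_add, h2]

/-- MU1 -/
theorem p_MU1 (hSUV : T_SUV) (hWKL : T_WKL) (hQCV : T_QCV) (hQTI : T_QTI) (hQVA : T_QVA) :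
    T_MU1 := by
  intro k b hb hc
  exact ⟨MU1_cont hWKL hQCV k b hb hc, fun K x => MU1_trans hWKL hQTI k b hb hc K x,
    fun K t ht => MU1_homog hWKL k b K t ht,
    fun K L M N hM hN => MU1_val hSUV hWKL hQVA k b hb hc K L M N hM hN⟩

end Pool.Agent.GNS
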