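import Pool.Agent.GNS.Lib

/-!
# GNS: targets 1, the upper bound (level inequality)

Each target is a proposition `T_XXX`; its docstring contains a complete proof. A proof of
`T_XXX` may take other targets as hypotheses. Lower indices denote coordinate derivatives,
`w_i = d i w`, `w_ij = d i (d j w)`; directions `0, 1` are the `x` variables, `2, 3` the `y` (or
`p`) variables. Basic rules are in `Pool.Agent.GNS.Lib` (`Sm.d`, `d_mul`, `d_comm`, `d_ibp`, ...).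
-/

set_option autoImplicit false

open Metric Set Filter Topology MeasureTheory

noncomputable section

namespace Pool.Agent.GNS

/-! ### Convex functions -/

/-- PSD. The second derivative of a smooth convex function is positive semidefinite. Proof: with
`v = ∑ c_i e_i` the function `φ t = w (z + t v)` is convex and smooth, `φ' t = fderiv w (z + t v) v`
(`line_deriv`, `fd_eq`), `φ'' 0 = ∑ ∑ c_i c_j w_ij z`; the derivative of a convex function is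
monotone (`ConvexOn.monotoneOn_derivWithin` or slopes), so `φ'' 0 ≥ 0`. -/
def T_PSD : Prop := ∀ w : V → ℝ, Sm w → ConvexOn ℝ univ w → ∀ (z : V) (c : Fin 4 → ℝ),
  0 ≤ ∑ i, ∑ j, c i * c j * d i (d j w) z

/-- PS2 (from PSD). Take `c = a e_i + b e_j` (for `i = j` both claims are trivial from
`c = e_i`): the quadratic form `a² w_ii + 2 a b w_ij + b² w_jj` is nonnegative. -/
def T_PS2 : Prop := ∀ w : V → ℝ, Sm w → ConvexOn ℝ univ w → ∀ (z : V) (i j : Fin 4),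
  0 ≤ d i (d i w) z ∧ d i (d j w) z ^ 2 ≤ d i (d i w) z * d j (d j w) z

/-- SNN (from PSD). For `k = 2, 3` and `v = a e_0 + b e_1`, the form on the span of `v`, `e_k`
is nonnegative, so `(a w_0k + b w_1k)² ≤ (a² w_00 + 2 a b w_01 + b² w_11) w_kk`; add `k = 2, 3`. -/
def T_SNN : Prop := ∀ w : V → ℝ, Sm w → ConvexOn ℝ univ w → ∀ (z : V) (a b : ℝ),
  0 ≤ a ^ 2 * SS 0 w z + 2 * a * b * S01 w z + b ^ 2 * SS 1 w z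

/-- MAS (from PS2). (1) `∫ χ w_ii = -∫ χ_i w_i ≤ ∫ |χ_i|`. (2) For `i ≠ j`,
`w_ii w_jj - w_ij² = ∂_i (w_i w_jj) - ∂_j (w_i w_ij)`, so the integral is
`-∫ χ_i w_i w_jj + ∫ χ_j w_i w_ij ≤ ∫ |χ_i| w_jj + ∫ |χ_j| (w_ii + w_jj) / 2`; `|χ_i| ≤ M χ'` with
a smooth `χ' ≥ 0` of compact support, `χ' = 1` on the support of `χ` (`ContDiffBump`); use (1) for
`χ'`. -/
def T_MAS : Prop := ∀ χ : V → ℝ, Sm χ → HasCompactSupport χ → (∀ z, 0 ≤ χ z) →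
  ∃ C : ℝ, 0 ≤ C ∧ ∀ w, Wc w → (∀ i, ∫ z, χ z * d i (d i w) z ≤ C) ∧
    ∀ i j, ∫ z, χ z * (d i (d i w) z * d j (d j w) z - d i (d j w) z ^ 2) ≤ C

/-- MAB (from PSD, PS2). Fix `i` and let `c = (c_j)`. The form
`∑_jk c_j c_k (w_ii w_jk - w_ij w_ik)` is nonnegative: it is `w_ii` times the value of the second
derivative at `c` minus the square of `∑ c_j w_ij` (Cauchy-Schwarz for the semidefinite form).
So its entries satisfy `2 |m_jk| ≤ m_jj + m_kk` (take `c = e_j ± e_k`). -/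
def T_MAB : Prop := ∀ w : V → ℝ, Sm w → ConvexOn ℝ univ w → ∀ (z : V) (i j k : Fin 4),
  2 * |d i (d i w) z * d j (d k w) z - d i (d j w) z * d i (d k w) z| ≤
    (d i (d i w) z * d j (d j w) z - d i (d j w) z ^ 2) +
    (d i (d i w) z * d k (d k w) z - d i (d k w) z ^ 2)

/-- FBD (from MAS, MAB, SNN). Write `ζ = ζ1`. As `Φ_11 = ∂_1 Φ_1`, `Φ_01 = ∂_0 Φ_1`, integration
by parts gives
`∫ ζ (Φ_11 S_0 - Φ_01 S_01) = -∫ Φ_1 (∂_1 (ζ S_0) - ∂_0 (ζ S_01))` (`S_0 = SS 0 w` etc.), and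
similarly `∫ ζ (Φ_00 S_1 - Φ_01 S_01) = -∫ Φ_0 (∂_0 (ζ S_1) - ∂_1 (ζ S_01))`. Identities:
`∂_1 S_0 - ∂_0 S_01 = ∑_{k=2,3} ∂_k (w_00 w_1k - w_01 w_0k)`,
`∂_0 S_1 - ∂_1 S_01 = ∑_{k=2,3} ∂_k (w_11 w_0k - w_01 w_1k)` (expand). As `Φ` depends only on
`x`, `∂_k Φ_1 = 0` and `∫ Φ_1 ζ ∂_k m = -∫ Φ_1 ζ_k m`. Hence the integral is
`-∫ Φ_1 (ζ_1 S_0 - ζ_0 S_01 - ∑_k ζ_k (w_00 w_1k - w_01 w_0k)) -
∫ Φ_0 (ζ_0 S_1 - ζ_1 S_01 - ∑_k ζ_k (w_11 w_0k - w_01 w_1k))`, bounded by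
`10 sup |∇ζ| ∫_{|z| ≤ 3}` of the sum of the absolute values of these minors. By MAB they are
bounded by sums of the principal minors, whose integrals over `|z| ≤ 3` are bounded by MAS (with
`χ = 1` on `|z| ≤ 3`). (`|S_01| ≤ (S_0 + S_1) / 2` by SNN.) -/
def T_FBD : Prop := ∀ ζ0 ζ1 : V → ℝ, Cuts ζ0 ζ1 → ∃ C : ℝ, ∀ Φ : V → ℝ, Sm Φ → Xo Φ →
  (∀ z, ‖z‖ ≤ 3 → |d 0 Φ z| ≤ 10 ∧ |d 1 Φ z| ≤ 10) → ∀ w, Wc w →
  ∫ z, ζ1 z * (d 1 (d 1 Φ) z * SS 0 w z - 2 * d 0 (d 1 Φ) z * S01 w z +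
    d 0 (d 0 Φ) z * SS 1 w z) ≤ C

/-- COF. Let `P` be the difference matrix `p - diag (F1, F2) + κ`, positive semidefinite, and
`s` the positive semidefinite matrix `(s0, s01; s01, s1)`. The claim is
`P11 s0 - 2 P01 s01 + P00 s1 ≥ 0`, which follows from `P01² ≤ P00 P11`, `s01² ≤ s0 s1` and
`P11 s0 + P00 s1 ≥ 2 √(P00 P11 s0 s1)`. -/
def T_COF : Prop := ∀ F1 F2 κ p00 p01 p11 s0 s01 s1 : ℝ,
  (∀ a b : ℝ, F1 * a ^ 2 + F2 * b ^ 2 - κ * (a ^ 2 + b ^ 2) ≤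
    a ^ 2 * p00 + 2 * a * b * p01 + b ^ 2 * p11) →
  (∀ a b : ℝ, 0 ≤ a ^ 2 * s0 + 2 * a * b * s01 + b ^ 2 * s1) →
  F2 * s0 + F1 * s1 - κ * (s0 + s1) ≤ p11 * s0 - 2 * p01 * s01 + p00 * s1

/-- DBF (from FBD, COF, SNN, MAS). Integrate COF (with `SNN`) against `ζ1` (zero for `|z| ≥ 3`);
`κ ∫ ζ1 (S_0 + S_1)` is bounded by MAS (`S_i` is a sum of principal minors). -/
def T_DBF : Prop := ∀ ζ0 ζ1 : V → ℝ, Cuts ζ0 ζ1 → ∃ C : ℝ, ∀ (Φ F1 F2 : V → ℝ) (κ : ℝ),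
  Sm Φ → Xo Φ → Sm F1 → Sm F2 → 0 ≤ κ → κ ≤ 1 →
  (∀ z, ‖z‖ ≤ 3 → |d 0 Φ z| ≤ 10 ∧ |d 1 Φ z| ≤ 10) →
  (∀ z, ‖z‖ ≤ 3 → ∀ a b : ℝ, F1 z * a ^ 2 + F2 z * b ^ 2 - κ * (a ^ 2 + b ^ 2) ≤
    a ^ 2 * d 0 (d 0 Φ) z + 2 * a * b * d 0 (d 1 Φ) z + b ^ 2 * d 1 (d 1 Φ) z) →
  ∀ w, Wc w → ∫ z, ζ1 z * (F2 z * SS 0 w z + F1 z * SS 1 w z) ≤ C

/-! ### The functional in weak form, continuity -/

/-- WKF. Integrate by parts twice (`d_ibp`) in each of the four terms of `Qb b w`; the sum of the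
second derivatives of the products `w_j w_l` is `-2 (w_02 w_13 - w_03 w_12)`. -/
def T_WKF : Prop := ∀ b w : V → ℝ, Sm b → HasCompactSupport b → Sm w →
  Qb b w = ∫ z, b z * T12 w z

/-- GRD. Let `χ` be smooth with values in `[0,1]`, `χ = 1` on `|z| ≤ 3`, `χ = 0` for `|z| ≥ 4`,
and `u = w - w'`. Then `∑_i ∫ χ u_i² = -∑ ∫ χ u u_ii - ∑ ∫ χ_i u u_i
≤ ε ∑ ∫ χ (w_ii + w'_ii) + 20 ε ∑ ∫ |χ_i|` (`w_ii, w'_ii ≥ 0`), and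
`∫ χ w_ii = -∫ χ_i w_i ≤ 10 ∫ |χ_i|`. So `∑ ∫ χ u_i² ≤ C ε`; Cauchy-Schwarz. Hypothesis: PS2. -/
def T_GRD : Prop := ∃ C : ℝ, 0 ≤ C ∧ ∀ w w' : V → ℝ, Sm w → Sm w' → ConvexOn ℝ univ w →
  ConvexOn ℝ univ w' → (∀ z, ‖z‖ ≤ 4 → ∀ i, |d i w z| ≤ 10 ∧ |d i w' z| ≤ 10) →
  ∀ ε : ℝ, 0 ≤ ε → (∀ z, ‖z‖ ≤ 4 → |w z - w' z| ≤ ε) → ∀ i,
  ∫ z in closedBall (0 : V) 3, |d i w z - d i w' z| ≤ C * Real.sqrt ε

/-- PCT (from WKF, GRD). `|w_i w_k - w'_i w'_k| ≤ 10 (|w_i - w'_i| + |w_k - w'_k|)` on the support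
of `b`, and the second derivatives of `b` are bounded. -/
def T_PCT : Prop := ∀ b : V → ℝ, Sm b → (∀ z, 3 ≤ ‖z‖ → b z = 0) → ∃ C : ℝ, 0 ≤ C ∧
  ∀ w w' : V → ℝ, Sm w → Sm w' → ConvexOn ℝ univ w → ConvexOn ℝ univ w' →
  (∀ z, ‖z‖ ≤ 4 → ∀ i, |d i w z| ≤ 10 ∧ |d i w' z| ≤ 10) →
  ∀ ε : ℝ, 0 ≤ ε → (∀ z, ‖z‖ ≤ 4 → |w z - w' z| ≤ ε) →
  |(∫ z, b z * T12 w z) - ∫ z, b z * T12 w' z| ≤ C * Real.sqrt ε

/-! ### The transform in the second variable -/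

/-- INV. The gradient map in `y` is a diffeomorphism. Injective: for fixed `x`,
`(∇_y F(x, y) - ∇_y F(x, y')) · (y - y') ≥ η |y - y'|²` (integrate along the segment).
Surjective: for `q = (x, p)` the function `y ↦ F(x, y) - p · y` is at least
`F(x, 0) + ∇_y F(x, 0) · y + η |y|² / 2 - p · y`, so it has a minimum, where `∇_y F = p`.
Smoothness: the derivative of `gy F` at `z` is `(v, v') ↦ (v, F_yx v + F_yy v')`, which is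
injective, hence invertible; by the inverse function theorem (`ContDiffAt.to_localInverse`) there
is a smooth local inverse, which coincides with `H` by injectivity. -/
def T_INV : Prop := ∀ (η : ℝ) (F : V → ℝ), 0 < η → SC η F → ∃ H : V → V,
  ContDiff ℝ ((⊤ : ℕ∞) : WithTop ℕ∞) H ∧ (∀ q, gy F (H q) = q) ∧ ∀ z, H (gy F z) = z

/-- LG1 (from INV). For `q = gy F z` the supremum in `Leg F q` is attained at `y = z.2` (the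
function `y ↦ p · y - F(x, y)` is concave with gradient `0` there), so with `H` from INV
`Leg F q = p · Y(q) - F(x, Y(q))`, `(x, Y(q)) = H q`, smooth. Differentiate, using
`∇_y F (H q) = p`: `d 2 (Leg F) q = Y_1`, `d 3 (Leg F) q = Y_2`, `d i (Leg F) q = - d i F (H q)`
for `i = 0, 1`. -/
def T_LG1 : Prop := ∀ (η : ℝ) (F : V → ℝ), 0 < η → SC η F → Sm (Leg F) ∧ ∀ z : V,
  Leg F (gy F z) = d 2 F z * z.2.1 + d 3 F z * z.2.2 - F z ∧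
  d 0 (Leg F) (gy F z) = - d 0 F z ∧ d 1 (Leg F) (gy F z) = - d 1 F z ∧
  d 2 (Leg F) (gy F z) = z.2.1 ∧ d 3 (Leg F) (gy F z) = z.2.2 ∧
  ∀ y : X2, z.2.1 * y.1 + z.2.2 * y.2 - F (z.1, y) ≤ Leg F z

/-- LG2 (from LG1). Write `G = Leg F`, `D = jac F z > 0`, `q = gy F z`. Differentiate the
identities of LG1 in `z`: from `G_2(gy F z) = z.2.1`, `G_3(gy F z) = z.2.2` (derivatives in the
directions `2, 3`) the matrix `(G_22, G_23; G_23, G_33)` at `q` is the inverse of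
`(F_22, F_23; F_23, F_33)`. From `G_i(gy F z) = -F_i` in the directions `2, 3`:
`(G_i2, G_i3)(q) = -(F_22, F_23; F_23, F_33)⁻¹ (F_i2, F_i3)`; in the direction `i`:
`G_ii(q) + G_i2(q) F_i2 + G_i3(q) F_i3 = -F_ii`. Now compute (use `field_simp; ring`).
The bound `1/η`: the eigenvalues of the inverse matrix; or for `(a, b) = M (a', b')`, `M` the
matrix of `F`, `G(a, b) = M(a', b')`, `|M v|² ≥ η M(v, v)`. -/
def T_LG2 : Prop := ∀ (η : ℝ) (F : V → ℝ), 0 < η → SC η F → ∀ z : V, 0 < jac F z ∧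
  T12 F z = T12 (Leg F) (gy F z) * jac F z ∧
  SS 0 F z = - SS 0 (Leg F) (gy F z) * jac F z ∧
  SS 1 F z = - SS 1 (Leg F) (gy F z) * jac F z ∧
  ∀ a b : ℝ, 0 ≤ a ^ 2 * d 2 (d 2 (Leg F)) z + 2 * a * b * d 2 (d 3 (Leg F)) z +
      b ^ 2 * d 3 (d 3 (Leg F)) z ∧
    a ^ 2 * d 2 (d 2 (Leg F)) z + 2 * a * b * d 2 (d 3 (Leg F)) z +
      b ^ 2 * d 3 (d 3 (Leg F)) z ≤ (a ^ 2 + b ^ 2) / η

/-- DET. The derivative of `gy F` at `z` is `(v, v') ↦ (v, F_yx v + F_yy v')`; its determinant is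
`jac F z` (the matrix in the basis `e 0, .., e 3` is block triangular; for instance
`LinearMap.det_toLin`, `Matrix.det_succ_row_zero`; or write the map as a composition of
`(v, v') ↦ (v, F_yy v')`, `LinearMap.det_prodMap`, and a shear). -/
def T_DET : Prop := ∀ F : V → ℝ, Sm F → ∀ z : V, (fderiv ℝ (gy F) z).det = jac F z

/-- CHG (from INV, DET). Change of variables `q = gy F z`
(`MeasureTheory.integral_image_eq_integral_abs_det_fderiv_smul` on `univ`; `gy F` is bijective);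
`jac F z > 0`. `G ∘ gy F` has compact support since `gy F` has the continuous inverse `H`. -/
def T_CHG : Prop := ∀ (η : ℝ) (F : V → ℝ), 0 < η → SC η F → ∀ G : V → ℝ, Continuous G →
  HasCompactSupport G → HasCompactSupport (fun z => G (gy F z)) ∧
    ∫ q, G q = ∫ z, G (gy F z) * jac F z

/-- LGC (from LG1, LG2, INV, PSD). `F = w + η q2`; `SC` from PSD in the directions `2, 3`. With
`u = Leg F`: `|d i u| = |d i F| = |d i w| ≤ 1` for `i = 0, 1` (`q2` does not depend on `x`);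
`z.2.1 = d 2 F (H z) = d 2 w (H z) + η d 2 u z` gives `gr2`, similarly `gr3`. Concavity in `x`:
`-u(x, p) = inf_y (F(x, y) - p · y)` is convex in `x` because `F` is convex (take the minimisers
`y, y'` for `x, x'` and the convex combination), so its second derivative in directions of the
`x`-plane is nonnegative (as PSD). `T12` and `SS` by expansion: only `F_22 = w_22 + η`,
`F_33 = w_33 + η` change. -/
def T_LGC : Prop := ∀ (η : ℝ) (w : V → ℝ), 0 < η → Wc w →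
  SC η (fun z => w z + η * q2 z) ∧ Uc η (Leg fun z => w z + η * q2 z) ∧
  ConvexOn ℝ univ (fun z => w z + η * q2 z) ∧
  ∀ z, T12 (fun z => w z + η * q2 z) z = T12 w z ∧
    SS 0 (fun z => w z + η * q2 z) z = SS 0 w z + 2 * η * d 0 (d 0 w) z ∧
    SS 1 (fun z => w z + η * q2 z) z = SS 1 w z + 2 * η * d 1 (d 1 w) z

/-! ### Regularisation -/

/-- KER. A normalised `ContDiffBump` centred at `0` (it is even). -/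
def T_KER : Prop := ∀ r : ℝ, 0 < r → ∃ ρ : V → ℝ, Ker r ρ

/-- CNV. Convolution with a smooth function of compact support
(`HasCompactSupport.contDiff_convolution_left` etc.; or `cv ρ f z = ∫ ρ ζ f (z - ζ)`). -/
def T_CNV : Prop := ∀ ρ f : V → ℝ, Sm ρ → HasCompactSupport ρ → Continuous f →
  Sm (cv ρ f) ∧ (∀ i z, d i (cv ρ f) z = cv (d i ρ) f z) ∧
  (∀ z, cv ρ f z = ∫ ζ, ρ ζ * f (z - ζ)) ∧
  (Sm f → ∀ i z, d i (cv ρ f) z = cv ρ (d i f) z)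

/-- UBR (from CNV). `ub ρ r u = cv ρ u + r q2`; all derivatives of `u` of first and second order
are averaged (`cv ρ (d i (d j u))`), and inequalities for quadratic forms are preserved by
averaging (`ρ ≥ 0`, `∫ ρ = 1`). -/
def T_UBR : Prop := ∀ (η r : ℝ) (ρ u : V → ℝ), 0 < η → 0 < r → Ker r ρ → Uc η u →
  SC r (ub ρ r u) ∧ (∀ z, |d 0 (ub ρ r u) z| ≤ 1 ∧ |d 1 (ub ρ r u) z| ≤ 1) ∧
  (∀ (z : V) (a b : ℝ), a ^ 2 * d 0 (d 0 (ub ρ r u)) z + 2 * a * b * d 0 (d 1 (ub ρ r u)) z +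
    b ^ 2 * d 1 (d 1 (ub ρ r u)) z ≤ 0) ∧
  (∀ (z : V) (i : Fin 4), (i = 0 ∨ i = 1) → d 2 (d i (ub ρ r u)) z = cv ρ (d 2 (d i u)) z ∧
    d 3 (d i (ub ρ r u)) z = cv ρ (d 3 (d i u)) z) ∧
  ∀ z, d 2 (ub ρ r u) z = cv ρ (d 2 u) z + r * z.2.1 ∧
    d 3 (ub ρ r u) z = cv ρ (d 3 u) z + r * z.2.2

/-- CLS (from LG1, LGC, UBR, CNV). Let `F = w + η q2`, `u = Leg F`, `ū = ub ρ r u`, `w̄ = Leg ū`.
Upper bound: `cv ρ u (x, p) ≥ u (x, p) - 2 r`, because `u` changes by at most `2 r` when `x`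
changes by at most `r` in both coordinates, and the average over `p'` of `u (x, p - p')` with the
even kernel is `≥ u (x, p)` (convexity in `p`, from `lo`). So for all `p`
`p · y - ū (x, p) ≤ p · y - u (x, p) + 2 r ≤ F (x, y) + 2 r` (the last part of LG1), hence
`w̄ ≤ F + 2 r`. Lower bound: take `p = ∇_y F (x, y)`, then `u (x, p) = p · y - F (x, y)`,
`|p_k| ≤ 1 + 4 η ≤ 5`; `ū (x, p) ≤ u (x, p) + 2 r + r² / η + r (p_1² + p_2²) / 2` since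
`u (x, p - p') ≤ u (x, p) - ∇_p u · p' + |p'|² / (2 η)` (from `hi`), `|p'|² ≤ 2 r²`, and the linear
term has average `0`. So `w̄ ≥ p · y - ū (x, p) ≥ F - 2 r - r² / η - 25 r` (last part of LG1 for
`ū`). -/
def T_CLS : Prop := ∀ (η r : ℝ) (ρ w : V → ℝ), 0 < η → η ≤ 1 → 0 < r → r ≤ 1 → Ker r ρ →
  Wc w → ∀ z : V, ‖z‖ ≤ 4 →
  |Leg (ub ρ r (Leg fun z => w z + η * q2 z)) z - (w z + η * q2 z)| ≤ 27 * r + r ^ 2 / η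

/-- WBR (from LG1, UBR, INV). `w̄ = Leg ū` with `ū = ub ρ r u`, `SC r ū`. Smooth by LG1. Convex:
`w̄ (x, y) = sup_p (p · y - ū (x, p))` and for each `p` the function
`(x, y) ↦ p · y - ū (x, p)` is convex (`ū` is concave in `x`). Gradient: let
`(x, y) = gy ū (x, p)`. `|d i w̄| = |d i ū| ≤ 1` for `i = 0, 1`. `d 2 w̄ (x, y) = p_1` and
`y_1 = d 2 ū (x, p) = cv ρ (d 2 u) (x, p) + r p_1`; by `gr2` `η d 2 u (x', p') ≥ p'_1 - 1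
≥ p_1 - r - 1` on the support of the kernel, so if `p_1 ≥ 0`, `η y_1 ≥ p_1 - r - 1`, hence
`p_1 ≤ 4 + 2`; similarly from below; `d 3` in the same way. -/
def T_WBR : Prop := ∀ (η r : ℝ) (ρ u : V → ℝ), 0 < η → η ≤ 1 → 0 < r → r ≤ 1 → Ker r ρ →
  Uc η u → Sm (Leg (ub ρ r u)) ∧ ConvexOn ℝ univ (Leg (ub ρ r u)) ∧
  ∀ z, ‖z‖ ≤ 4 → ∀ i, |d i (Leg (ub ρ r u)) z| ≤ 10

/-! ### Averages -/

/-- AVB. Let `|k| ≤ M χ`, `χ ≥ 0` smooth with compact support (`ContDiffBump`). For `i = 0, 1`,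
`u_ii ≤ 0` (`cc`), and `∫ χ (z - ζ) (-u_ii ζ) dζ = -∫ (∂_i χ)(z - ζ) u_i ζ dζ ≤ ∫ |∂_i χ|` (`d_ibp`
with the function `ζ ↦ χ (z - ζ)`, whose derivative is `-(∂_i χ)(z - ζ)`; `bd0`, `bd1`). And
`|u_01| ≤ (|u_00| + |u_11|)/2` by `cc` (`a = 1`, `b = ± 1`). -/
def T_AVB : Prop := ∀ k : V → ℝ, Continuous k → HasCompactSupport k → ∃ C' : ℝ, 0 ≤ C' ∧
  ∀ (η : ℝ) (u : V → ℝ), Uc η u → ∀ z : V, ∫ ζ, |k (z - ζ)| * |d 0 (d 0 u) ζ| ≤ C' ∧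
    ∫ ζ, |k (z - ζ)| * |d 1 (d 1 u) ζ| ≤ C' ∧ ∫ ζ, |k (z - ζ)| * |d 0 (d 1 u) ζ| ≤ C'

/-- AV0 (from AVB). `θ t - (1 - ϵ)/4 = σ'' t / 4`, so
`g0 ζ - (3 + ϵ)/4 = -(h/4) ∂_0 (σ'(ζ_0/h))`. Integrate by parts in `ζ`: the integral is at most
`(h C / 4) ∫ (|(∂_0 k)(z - ζ)| |u_0| + |k (z - ζ)| |u_00|) dζ`; `|u_0| ≤ 1`, AVB. -/
def T_AV0 : Prop := ∀ (N : ℕ) (θ σ σ2 q3 : ℝ → ℝ) (ϵ m2 c3 C : ℝ),
  Prof N θ σ σ2 q3 ϵ m2 c3 C → 1 ≤ N → ∀ k : V → ℝ, Sm k → HasCompactSupport k →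
  ∃ C' : ℝ, 0 ≤ C' ∧ ∀ (η : ℝ) (u : V → ℝ), Uc η u → ∀ (z : V) (h : ℝ), 0 < h → h ≤ 1 →
    |∫ ζ, k (z - ζ) * ((g0 θ h ζ - (3 + ϵ) / 4) * d 0 u ζ)| ≤ C' * h

/-- AV1 (from AVB). With `θ̄ = (1 - ϵ)/4`, `γ1 = 4 θ̄ (1 - θ̄) = (1 - ϵ)(3 + ϵ)/4`,
`θ_h = c0 θ h`, `θ'_h' = c1 θ h'`: `g1 - γ1 = 4 (1 - θ̄) (θ_h - θ̄) - 4 θ_h (θ'_h' - θ̄)`. The first
term is `(1 - θ̄) h ∂_0 (σ'(ζ_0/h))`, the second `-θ_h h' ∂_1 (σ'(ζ_1/h'))`, and `θ_h` does not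
depend on `ζ_1`. Integrate by parts in `ζ`; `|σ'| ≤ C`, `|θ_h| ≤ 1`, `|u_1| ≤ 1`, AVB for
`u_01` and `u_11`. -/
def T_AV1 : Prop := ∀ (N : ℕ) (θ σ σ2 q3 : ℝ → ℝ) (ϵ m2 c3 C : ℝ),
  Prof N θ σ σ2 q3 ϵ m2 c3 C → 1 ≤ N → ∀ k : V → ℝ, Sm k → HasCompactSupport k →
  ∃ C' : ℝ, 0 ≤ C' ∧ ∀ (η : ℝ) (u : V → ℝ), Uc η u → ∀ (z : V) (h h' : ℝ), 0 < h → h ≤ 1 →
    0 < h' → h' ≤ 1 →
    |∫ ζ, k (z - ζ) * ((g1 θ h h' ζ - (1 - ϵ) * (3 + ϵ) / 4) * d 1 u ζ)| ≤ C' * (h + h')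

/-- JEN. Cauchy-Schwarz with the weight `ρ (z - ζ) g ζ`, whose total mass is at most `4`. -/
def T_JEN : Prop := ∀ (r : ℝ) (ρ g f : V → ℝ), Ker r ρ → Continuous g → Continuous f →
  (∀ z, 0 ≤ g z) → (∀ z, g z ≤ 4) → ∀ z,
  cv ρ (fun z => g z * f z) z ^ 2 ≤ 4 * cv ρ (fun z => g z * f z ^ 2) z

/-- YMD. Let `z = (x, p)`, `z' = (x', p')`. (1) Same `x`: the gradient in `p` is
`1/η`-Lipschitz (from `lo`, `hi`: the form `M` satisfies `0 ≤ M ≤ 1/η`, so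
`|M (v, v')| ≤ |v| |v'| / η`), so `|u_k(x, p) - u_k(x, p')| ≤ |p - p'| / η`, Euclidean norm at
most `2 ‖z - z'‖`. (2) Same `p`: `f = u(x, ·)`, `g = u(x', ·)`; `|f - g| ≤ c := 2 ‖z - z'‖`; for all
`v`, `g(p) + ∇g · v ≤ g(p + v) ≤ f(p + v) + c ≤ f(p) + ∇f · v + |v|²/(2η) + c
≤ g(p) + 2 c + ∇f · v + |v|²/(2η)`; with `v = η (∇g - ∇f)`: `|∇g - ∇f|² ≤ 4 c / η`. -/
def T_YMD : Prop := ∀ (η : ℝ) (u : V → ℝ), 0 < η → Uc η u → ∀ z z' : V,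
  |d 2 u z - d 2 u z'| ≤ 2 * ‖z - z'‖ / η + Real.sqrt (8 * ‖z - z'‖ / η) ∧
  |d 3 u z - d 3 u z'| ≤ 2 * ‖z - z'‖ / η + Real.sqrt (8 * ‖z - z'‖ / η)

/-- REG (from YMD, UBR). Let `z = (x, p)` with `‖gy ū z‖ < 1` (otherwise `b = 0`),
`ū = ub ρ r u`. As in WBR (`gr2`), `|p_k| ≤ 3`: `|d 2 ū z| < 1`, `d 2 ū z = cv ρ (d 2 u) z + r p_1`
and `|p'_1 - η d 2 u (x', p')| ≤ 1`, `|p' - p| ≤ r`. So `|d k ū z - cv ρ (d k u) z| ≤ 3 r`, and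
for `‖z - z'‖ ≤ r`, `|cv ρ (d k u) z - d k u z'| ≤ 4 r / η + √(16 r / η)` by YMD (the kernel
lives on `‖z - z''‖ ≤ r`, `‖z' - z''‖ ≤ 2 r`). So `‖gy ū z - gy u z'‖` is small with `r`,
uniformly; in particular `‖gy u z'‖ ≤ 2`, and by uniform continuity of `b` (compact support)
`|b (gy ū z)| ≤ |b (gy u z')| + ω ≤ β (gy u z') + ω = β z' + ω` (`Xo β`, same first
component). -/
def T_REG : Prop := ∀ b β : V → ℝ, Continuous b → Continuous β → Xo β → (∀ z, |b z| ≤ β z) →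
  (∀ z, 1 ≤ ‖z‖ → b z = 0) → ∀ η ω : ℝ, 0 < η → η ≤ 1 → 0 < ω → ∃ r0 : ℝ, 0 < r0 ∧
  ∀ (r : ℝ) (ρ u : V → ℝ), 0 < r → r ≤ r0 → Ker r ρ → Uc η u → ∀ z z' : V, ‖z - z'‖ ≤ r →
    b (gy (ub ρ r u) z) ≠ 0 → ‖z‖ ≤ 4 ∧ ‖gy u z'‖ ≤ 2 ∧ |b (gy (ub ρ r u) z)| ≤ β z' + ω

/-- SII (from LG1, LG2, LGC, CHG, INV). `F = w + η q2`, `u = Leg F`. By LG1 `gy u (gy F z) = z`.
CHG for `F` and `G q = χ (gy u q) (-SS i u q)`: `∫ G = ∫ χ z (-SS i u (gy F z)) jac F z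
= ∫ χ z SS i F z` by LG2. (`G` has compact support: `q` in the support implies `gy u q` in the
support of `χ`, and `q = gy F (gy u q)`.) Finally `-SS i u = u_i2² + u_i3² - u_ii (u_22 + u_33)
≥ u_i2² + u_i3²` by `cc` and `lo`. -/
def T_SII : Prop := ∀ (η : ℝ) (w χ : V → ℝ), 0 < η → Wc w → Continuous χ →
  HasCompactSupport χ → (∀ z, 0 ≤ χ z) → ∀ i : Fin 4, (i = 0 ∨ i = 1) →
  HasCompactSupport (fun z => χ (gy (Leg fun z => w z + η * q2 z) z)) ∧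
  ∫ z, χ (gy (Leg fun z => w z + η * q2 z) z) *
    (d 2 (d i (Leg fun z => w z + η * q2 z)) z ^ 2 +
      d 3 (d i (Leg fun z => w z + η * q2 z)) z ^ 2) ≤
  ∫ z, χ z * SS i (fun z => w z + η * q2 z) z

/-- PWB (from LG1, LG2, CHG, UBR). `ū = ub ρ r u`, `SC r ū`. CHG for `F = ū`,
`G q = b q T12 (Leg ū) q`, and LG2. -/
def T_PWB : Prop := ∀ (η r : ℝ) (ρ u b : V → ℝ), 0 < η → 0 < r → Ker r ρ → Uc η u → Sm b →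
  HasCompactSupport b → HasCompactSupport (fun z => b (gy (ub ρ r u) z)) ∧
  ∫ z, b z * T12 (Leg (ub ρ r u)) z = ∫ z, b (gy (ub ρ r u) z) * T12 (ub ρ r u) z

/-- FUB. If `0 ≤ W z ≤ W' z'` whenever `‖z - z'‖ ≤ r`, `W, W', f` continuous, `f ≥ 0`, `W` and `W'`
of compact support, then `∫ W (cv ρ f) ≤ ∫ W' f`. Proof: Fubini; the left side is
`∫∫ W z ρ (z - ζ) f ζ dζ dz ≤ ∫∫ W' ζ ρ (z - ζ) f ζ dz dζ = ∫ W' f` (`ρ (z - ζ) = 0` unless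
`‖z - ζ‖ < r`). -/
def T_FUB : Prop := ∀ (r : ℝ) (ρ W W' f : V → ℝ), Ker r ρ → Continuous W → Continuous W' →
  Continuous f → HasCompactSupport W → HasCompactSupport W' → (∀ z, 0 ≤ W z) →
  (∀ z, 0 ≤ f z) → (∀ z z', ‖z - z'‖ ≤ r → W z ≤ W' z') →
  ∫ z, W z * cv ρ f z ≤ ∫ z, W' z * f z

/-- UIK (from AV0, AV1, UBR, CNV, JEN). Let `γ0 = (3 + ϵ)/4 ≥ 1/2`,
`γ1 = (1 - ϵ)(3 + ϵ)/4 ≥ 1/2` (`0 ≤ ϵ ≤ 1/3`), `ū = ub ρ r u`. For `i = 0, 1`, `k = 2, 3`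
(`g_0 = g0`, `g_1 = g1`), by UBR
`ū_ki = cv ρ (u_ki) = γ_i⁻¹ cv ρ (g_i u_ki) - γ_i⁻¹ cv ρ ((g_i - γ_i) u_ki)`;
as `g_i` does not depend on `p`, integration by parts gives
`cv ρ ((g_i - γ_i) u_ki) = cv (d k ρ) ((g_i - γ_i) u_i)`, at most `C' (h + h')` by AV0, AV1 with
the function `d k ρ`. Hence (JEN, `0 ≤ g_i ≤ 4`)
`ū_ki² ≤ 2 γ_i⁻² 4 cv ρ (g_i u_ki²) + 2 γ_i⁻² C'² (h + h')² ≤
32 cv ρ (g_i u_ki²) + 16 C'² (h + h')`. -/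
def T_UIK : Prop := ∀ (N : ℕ) (θ σ σ2 q3 : ℝ → ℝ) (ϵ m2 c3 C : ℝ),
  Prof N θ σ σ2 q3 ϵ m2 c3 C → 3 ≤ N → ∀ (r : ℝ) (ρ : V → ℝ), 0 < r → Ker r ρ →
  ∃ C' : ℝ, 0 ≤ C' ∧ ∀ (η : ℝ) (u : V → ℝ), 0 < η → Uc η u → ∀ (z : V) (h h' : ℝ), 0 < h →
    h ≤ 1 → 0 < h' → h' ≤ 1 → ∀ k : Fin 4, (k = 2 ∨ k = 3) →
    d k (d 0 (ub ρ r u)) z ^ 2 ≤
      32 * cv ρ (fun ζ => g0 θ h ζ * d k (d 0 u) ζ ^ 2) z + C' * (h + h') ∧
    d k (d 1 (ub ρ r u)) z ^ 2 ≤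
      32 * cv ρ (fun ζ => g1 θ h h' ζ * d k (d 1 u) ζ ^ 2) z + C' * (h + h')

/-- MN (from UIK, PWB, LGC, REG, FUB, SII, CNV). Let `F = w + η q2`, `u = Leg F`, `ū = ub ρ r u`,
`r0` from REG. By PWB `∫ b T12 (Leg ū) = ∫ b(gy ū) T12 ū`, and
`|T12 ū| ≤ (ū_02² + ū_03² + ū_12² + ū_13²)/2` (`d_comm`). By UIK `|∫ b T12 (Leg ū)|` is at most
`16 ∑_i ∫ |b(gy ū)| cv ρ (g_i (u_2i² + u_3i²)) + ∫ |b (gy ū)| 2 C' (h + h')`. The last integral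
is over a subset of `‖z‖ ≤ 4` (REG). For the first one use FUB with `W = |b ∘ gy ū|` and
`W' = (β z' + ω) ζ1 (gy u z')` (REG, `ζ1 = 1` on `‖·‖ ≤ 2`; compact support by SII with
`χ = (β + ω) ζ1`), and `f = g_i (u_2i² + u_3i²)`; finally SII with `χ = ζ1 (β + ω) g_i`; `β` and
`g_i` depend only on `x`, so `χ (gy u z) = ζ1 (gy u z) (β z + ω) g_i z`. -/
def T_MN : Prop := ∀ (N : ℕ) (θ σ σ2 q3 : ℝ → ℝ) (ϵ m2 c3 C : ℝ) (ζ0 ζ1 b β : V → ℝ),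
  Prof N θ σ σ2 q3 ϵ m2 c3 C → 3 ≤ N → Cuts ζ0 ζ1 → Sm b → Continuous β → Xo β →
  (∀ z, |b z| ≤ β z) → (∀ z, 1 ≤ ‖z‖ → b z = 0) → ∀ η ω : ℝ, 0 < η → η ≤ 1 → 0 < ω →
  ∃ r0 : ℝ, 0 < r0 ∧ ∀ (r : ℝ) (ρ : V → ℝ), 0 < r → r ≤ r0 → Ker r ρ → ∃ C' : ℝ, 0 ≤ C' ∧
  ∀ w, Wc w → ∀ h h' : ℝ, 0 < h → h ≤ 1 → 0 < h' → h' ≤ 1 →
  |∫ z, b z * T12 (Leg (ub ρ r (Leg fun z => w z + η * q2 z))) z| ≤
    16 * (∫ z, ζ1 z * (β z + ω) * (g0 θ h z * SS 0 (fun z => w z + η * q2 z) z +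
      g1 θ h h' z * SS 1 (fun z => w z + η * q2 z) z)) + C' * (h + h')

/-- LI (from MN, KER, CLS, WBR, PCT, LGC, MAS, SNN, PS2). The level inequality. By LGC
`∫ b T12 w = ∫ b T12 F`, `F = w + η q2`, `SS i F = SS i w + 2 η w_ii`. By PCT (`|F_i| ≤ 1 + 4 η`,
WBR) and CLS `|∫ b T12 F - ∫ b T12 (Leg ū)| ≤ C_b √(27 r + r²/η)`. By MN the second integral is at
most `16 ∫ ζ1 β (g0 SS 0 w + g1 SS 1 w) + 16 ∫ ζ1 (β + ω) 4 · 2 η (w_00 + w_11) +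
16 ω ∫ ζ1 4 (SS 0 w + SS 1 w) + C' (h + h')` (`0 ≤ g_i ≤ 4`). The integrals
`∫ ζ1 w_ii`, `∫ ζ1 SS i w` are bounded uniformly in `w` (MAS; `β` is bounded on the support of
`ζ1`). Choose first `η` and `ω`, then `r` (and a kernel, KER), then `h0`. -/
def T_LI : Prop := ∀ (N : ℕ) (θ σ σ2 q3 : ℝ → ℝ) (ϵ m2 c3 C : ℝ) (ζ0 ζ1 b β : V → ℝ),
  Prof N θ σ σ2 q3 ϵ m2 c3 C → 3 ≤ N → Cuts ζ0 ζ1 → Sm b → Continuous β → Xo β →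
  (∀ z, |b z| ≤ β z) → (∀ z, 1 ≤ ‖z‖ → b z = 0) → ∀ ε : ℝ, 0 < ε → ∃ h0 : ℝ, 0 < h0 ∧
  ∀ h h' : ℝ, 0 < h → h ≤ h0 → 0 < h' → h' ≤ h0 → ∀ w, Wc w →
  |∫ z, b z * T12 w z| ≤
    16 * (∫ z, ζ1 z * β z * (g0 θ h z * SS 0 w z + g1 θ h h' z * SS 1 w z)) + ε

end Pool.Agent.GNS
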