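import Pool.Agent.GNS.T4
import Pool.Agent.GNS.T1

/-!
# GNS: the bound for the valuation `mu b` (MU2)
-/

set_option autoImplicit false

open Metric Set Filter Topology MeasureTheory

noncomputable section

namespace Pool.Agent.GNS

open Pool.Agent.GLB

namespace MU2_

/-- the integrand of a convolution is integrable -/
theorem int_cv {ρ f : V → ℝ} (hρ : Continuous ρ) (hc : HasCompactSupport ρ) (hf : Continuous f)
    (z : V) : Integrable fun ζ => ρ ζ * f (z - ζ) :=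
  int_of (hρ.mul (hf.comp (continuous_const.sub continuous_id))) hc.mul_right

/-- averages of bounded functions -/
theorem avg_le {ρ g : V → ℝ} {r : ℝ} (hk : Ker r ρ) (hcs : HasCompactSupport ρ) {M : ℝ}
    (hM : ∀ ζ, ρ ζ ≠ 0 → |g ζ| ≤ M) : |∫ ζ, ρ ζ * g ζ| ≤ M := by
  have h1 : Integrable fun ζ => ρ ζ * M := (int_of hk.sm.cont hcs).mul_const M
  have h2 : ‖∫ ζ, ρ ζ * g ζ‖ ≤ ∫ ζ, ρ ζ * M := by
    refine norm_integral_le_of_norm_le h1 (Eventually.of_forall fun ζ => ?_)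
    rw [Real.norm_eq_abs, abs_mul, abs_of_nonneg (hk.nn ζ)]
    by_cases h0 : ρ ζ = 0
    · rw [h0, zero_mul, zero_mul]
    · exact mul_le_mul_of_nonneg_left (hM ζ h0) (hk.nn ζ)
  rw [integral_mul_const, hk.int, one_mul] at h2
  exact h2

/-- the difference of a convolution and a number -/
theorem cv_sub {ρ f g : V → ℝ} {r : ℝ} (hk : Ker r ρ) (hcs : HasCompactSupport ρ)
    (hf : Continuous f) (hg : Continuous g) {M : ℝ} (hM : ∀ ζ, ρ ζ ≠ 0 → |f ζ - g ζ| ≤ M) :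
    |(∫ ζ, ρ ζ * f ζ) - ∫ ζ, ρ ζ * g ζ| ≤ M := by
  have h1 : Integrable fun ζ => ρ ζ * f ζ := int_of (hk.sm.cont.mul hf) hcs.mul_right
  have h2 : Integrable fun ζ => ρ ζ * g ζ := int_of (hk.sm.cont.mul hg) hcs.mul_right
  rw [← integral_sub h1 h2]
  have h3 : (fun ζ => ρ ζ * f ζ - ρ ζ * g ζ) = fun ζ => ρ ζ * (f ζ - g ζ) := by
    funext ζ
    ring
  rw [h3]
  exact avg_le hk hcs hM

/-- convolutions of convex functions are convex -/
theorem cv_convex (h_CNV : T_CNV) {ρ w : V → ℝ} {r : ℝ} (hk : Ker r ρ)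
    (hcs : HasCompactSupport ρ) (hw : Continuous w) (hcx : ConvexOn ℝ univ w) :
    ConvexOn ℝ univ (cv ρ w) := by
  obtain ⟨-, -, hsw, -⟩ := h_CNV ρ w hk.sm hcs hw
  refine ⟨convex_univ, ?_⟩
  intro z _ z' _ a b ha hb hab
  rw [hsw, hsw z, hsw z']
  have i1 := int_cv hk.sm.cont hcs hw z
  have i2 := int_cv hk.sm.cont hcs hw z'
  have i3 := int_cv hk.sm.cont hcs hw (a • z + b • z')
  have h1 : a • (∫ ζ, ρ ζ * w (z - ζ)) + b • (∫ ζ, ρ ζ * w (z' - ζ)) =
      ∫ ζ, (a * (ρ ζ * w (z - ζ)) + b * (ρ ζ * w (z' - ζ))) := by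
    rw [integral_add (i1.const_mul a) (i2.const_mul b), integral_const_mul, integral_const_mul]
    rfl
  rw [h1]
  refine integral_mono i3 ((i1.const_mul a).add (i2.const_mul b)) ?_
  intro ζ
  have h2 : a • z + b • z' - ζ = a • (z - ζ) + b • (z' - ζ) := by
    have h3 : ζ = (a + b) • ζ := by rw [hab, one_smul]
    conv_lhs => rw [h3]
    module
  have h4 := hcx.2 (mem_univ (z - ζ)) (mem_univ (z' - ζ)) ha hb hab
  have h5 : w (a • z + b • z' - ζ) ≤ a * w (z - ζ) + b * w (z' - ζ) := by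
    rw [h2]
    simpa using h4
  have h6 := mul_le_mul_of_nonneg_left h5 (hk.nn ζ)
  calc ρ ζ * w (a • z + b • z' - ζ) ≤ ρ ζ * (a * w (z - ζ) + b * w (z' - ζ)) := h6
    _ = a * (ρ ζ * w (z - ζ)) + b * (ρ ζ * w (z' - ζ)) := by ring

/-- the derivatives of the convolution -/
theorem cv_der (h_CNV : T_CNV) {ρ w : V → ℝ} {r : ℝ} (hk : Ker r ρ)
    (hcs : HasCompactSupport ρ) (hw : Continuous w)
    (hl : ∀ (z : V) (t : ℝ) (i : Fin 4), |w (z + t • e i) - w z| ≤ |t|) (i : Fin 4) (z : V) :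
    |d i (cv ρ w) z| ≤ 1 := by
  obtain ⟨hsm, -, hsw, -⟩ := h_CNV ρ w hk.sm hcs hw
  have h1 := line_deriv hsm z (e i) 0
  rw [zero_smul, add_zero] at h1
  have h2 : ∀ t : ℝ, |cv ρ w (z + t • e i) - cv ρ w z| ≤ |t| := by
    intro t
    rw [hsw, hsw z]
    refine cv_sub hk hcs (hw.comp (continuous_const.sub continuous_id))
      (hw.comp (continuous_const.sub continuous_id)) ?_
    intro ζ _
    have h3 : z + t • e i - ζ = z - ζ + t • e i := by abel
    change |w (z + t • e i - ζ) - w (z - ζ)| ≤ |t|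
    rw [h3]
    exact hl (z - ζ) t i
  have h4 : ‖fderiv ℝ (cv ρ w) z (e i)‖ ≤ 1 := by
    refine h1.le_of_lip' zero_le_one (Eventually.of_forall fun t => ?_)
    rw [zero_smul, add_zero, sub_zero, one_mul, Real.norm_eq_abs, Real.norm_eq_abs]
    exact h2 t
  exact h4

/-- the distance of the convolution -/
theorem cv_dist (h_CNV : T_CNV) {ρ w : V → ℝ} {r : ℝ} (hk : Ker r ρ)
    (hcs : HasCompactSupport ρ) (hw : Continuous w)
    (hl : ∀ z z', |w z - w z'| ≤ 4 * ‖z - z'‖) (z : V) : |cv ρ w z - w z| ≤ 4 * r := by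
  obtain ⟨-, -, hsw, -⟩ := h_CNV ρ w hk.sm hcs hw
  rw [hsw]
  have h1 : w z = ∫ ζ, ρ ζ * w z := by
    rw [integral_mul_const, hk.int, one_mul]
  conv_lhs => rw [h1]
  refine cv_sub hk hcs (hw.comp (continuous_const.sub continuous_id)) continuous_const ?_
  intro ζ h0
  have h2 : ‖ζ‖ ≤ r := by
    by_contra h3
    exact h0 (hk.out ζ (not_le.1 h3).le)
  have h4 := hl (z - ζ) z
  have h5 : z - ζ - z = -ζ := by abel
  rw [h5, norm_neg] at h4
  exact h4.trans (mul_le_mul_of_nonneg_left h2 (by norm_num))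

end MU2_

open MU2_ in
theorem p_MU2 (h_WKL : T_WKL) (h_QCV : T_QCV) (h_KER : T_KER) (h_CNV : T_CNV)
    (h_WKF : T_WKF) : T_MU2 := by
  intro k b C hb hc hC K hK
  obtain ⟨hw1, hw2, -⟩ := h_WKL k
  obtain ⟨hcx, hcont, hae⟩ := hw1 K
  obtain ⟨hL, hl, hd⟩ := hw2 K 1 zero_le_one hK
  have hpos : ∀ n : ℕ, (0 : ℝ) < 1 / ((n : ℝ) + 1) := fun n => by positivity
  choose ρ hρ using fun n : ℕ => h_KER (1 / ((n : ℝ) + 1)) (hpos n)
  have hcs : ∀ n, HasCompactSupport (ρ n) := fun n => hcs_of (hρ n).out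
  have hsm : ∀ n, Sm (cv (ρ n) (wK K)) := fun n =>
    (h_CNV (ρ n) (wK K) (hρ n).sm (hcs n) hcont).1
  have hconv : ∀ n, ConvexOn ℝ univ (cv (ρ n) (wK K)) := fun n =>
    cv_convex h_CNV (hρ n) (hcs n) hcont hcx
  have hder : ∀ n (z : V) (i : Fin 4), |d i (cv (ρ n) (wK K)) z| ≤ 1 := fun n z i =>
    cv_der h_CNV (hρ n) (hcs n) hcont (fun z t i => by simpa using hl z t i) i z
  have hdist : ∀ n z, |cv (ρ n) (wK K) z - wK K z| ≤ 4 * (1 / ((n : ℝ) + 1)) := fun n z =>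
    cv_dist h_CNV (hρ n) (hcs n) hcont (fun z z' => by simpa using hL z z') z
  have hlim : ∀ z, Tendsto (fun n => cv (ρ n) (wK K) z) atTop (𝓝 (wK K z)) := by
    intro z
    rw [tendsto_iff_dist_tendsto_zero]
    refine squeeze_zero (fun n => dist_nonneg) (fun n => hdist n z) ?_
    have := tendsto_one_div_add_atTop_nhds_zero_nat (𝕜 := ℝ)
    simpa using this.const_mul 4
  have hQ := h_QCV b hb hc (fun n => cv (ρ n) (wK K)) (wK K) 1 hconv hlim hae
    (fun n => Eventually.of_forall fun z => (hsm n).dAt z) hder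
  have hbd : ∀ n, |Qb b (cv (ρ n) (wK K))| ≤ C := by
    intro n
    rw [h_WKF b _ hb hc (hsm n)]
    exact hC _ ⟨hsm n, hconv n, fun i z => hder n z i⟩
  have hfin : |Qb b (wK K)| ≤ C := le_of_tendsto' hQ.abs hbd
  unfold mu
  rw [Complex.norm_real]
  exact hfin

end Pool.Agent.GNS
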