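import Pool.Agent.GNS.T2

set_option autoImplicit false

open Metric Set Filter Topology MeasureTheory

noncomputable section

namespace Pool.Agent.GNS

namespace OSC_

/-- the phase -/
def ph (j : ℕ) (c : ℝ) (z : V) : ℝ := c * (2 ^ j * z.1.1 + z.2.1)

theorem ph_sm (j : ℕ) (c : ℝ) : Sm (ph j c) := by
  unfold Sm ph
  fun_prop

theorem ph_d (j : ℕ) (c : ℝ) (z : V) : d 2 (ph j c) z = c := by
  have h := line_deriv (ph_sm j c) z (e 2) 0
  have h2 : HasDerivAt (fun s : ℝ => ph j c (z + s • e 2)) c 0 := by
    have h3 : (fun s : ℝ => ph j c (z + s • e 2)) =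
        fun s : ℝ => c * (2 ^ j * z.1.1 + z.2.1) + c * s := by
      funext s
      simp [ph, e]
      ring
    rw [h3]
    have := ((hasDerivAt_id (0 : ℝ)).const_mul c).const_add (c * (2 ^ j * z.1.1 + z.2.1))
    simpa using this
  have h4 := h.unique h2
  simpa [d] using h4

theorem key (g : V → ℝ) (hg : Sm g) (hc : HasCompactSupport g) (j : ℕ) (c : ℝ) (h0 : 0 < c) :
    |∫ z, g z * Real.cos (ph j c z)| ≤ (∫ z, |d 2 g z|) / c := by
  have hs : Sm fun z => Real.sin (ph j c z) := (ph_sm j c).comp1 Real.contDiff_sin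
  have h1 := d_ibp hs hg hc 2
  have h2 : ∀ z, d 2 (fun z => Real.sin (ph j c z)) z = Real.cos (ph j c z) * c := by
    intro z
    rw [d_comp1 (ph_sm j c) Real.differentiable_sin, Real.deriv_sin, ph_d]
  have h3 : ∫ z, d 2 (fun z => Real.sin (ph j c z)) z * g z =
      c * ∫ z, g z * Real.cos (ph j c z) := by
    rw [← integral_const_mul]
    refine integral_congr_ae (Filter.Eventually.of_forall fun z => ?_)
    simp only [h2]
    ring
  rw [h3] at h1
  have h4 : |∫ z, Real.sin (ph j c z) * d 2 g z| ≤ ∫ z, |d 2 g z| := by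
    refine (abs_integral_le_integral_abs).trans ?_
    refine integral_mono_of_nonneg (Filter.Eventually.of_forall fun z => abs_nonneg _) ?_ ?_
    · exact (int_of (hg.d 2).cont (hcs_d hc 2)).abs
    · refine Filter.Eventually.of_forall fun z => ?_
      simp only [abs_mul]
      exact mul_le_of_le_one_left (abs_nonneg _) (Real.abs_sin_le_one _)
  rw [le_div_iff₀ h0, ← abs_of_pos h0, ← abs_mul, abs_of_pos h0, mul_comm, h1, abs_neg]
  exact h4

end OSC_

open OSC_ in
/-- OSC. -/
theorem p_OSC : T_OSC := by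
  intro f j ε hf hc hε
  set I : ℝ := ∫ z, |d 2 f z| with hI
  have hI0 : 0 ≤ I := integral_nonneg fun z => abs_nonneg _
  have hI1 : 0 < I + 1 := by linarith
  have hpos : (0 : ℝ) < ε / (I + 1) := div_pos hε hI1
  filter_upwards [Ioo_mem_nhdsGT hpos] with ν hν
  obtain ⟨hν0, hν1⟩ := hν
  have hνI : I * ν ≤ ε := by
    have h1 : ν * (I + 1) < ε := by rwa [lt_div_iff₀ hI1] at hν1
    nlinarith
  constructor
  · have h1 := key f hf hc j (1 / ν) (by positivity)
    have h2 : ∀ z, Real.cos (ph j (1 / ν) z) = wv j ν z := by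
      intro z
      unfold ph wv
      congr 1
      ring
    simp only [h2] at h1
    refine h1.trans ?_
    rw [← hI, div_div_eq_mul_div, div_one]
    exact hνI
  · have h1 := key f hf hc j (2 / ν) (by positivity)
    have h2 : ∀ z, wv j ν z ^ 2 = 1 / 2 + Real.cos (ph j (2 / ν) z) / 2 := by
      intro z
      unfold ph wv
      rw [Real.cos_sq]
      congr 3
      ring
    have h3 : (∫ z, f z * wv j ν z ^ 2) = (∫ z, f z) / 2 +
        (∫ z, f z * Real.cos (ph j (2 / ν) z)) / 2 := by
      rw [← integral_div, ← integral_div, ← integral_add]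
      · refine integral_congr_ae (Filter.Eventually.of_forall fun z => ?_)
        simp only [h2]
        ring
      · exact (int_of hf.cont hc).div_const 2
      · refine Integrable.div_const ?_ 2
        refine int_of ?_ hc.mul_right
        exact hf.cont.mul (Real.continuous_cos.comp (ph_sm j _).cont)
    rw [h3, add_sub_cancel_left, abs_div, abs_of_pos (by norm_num : (0 : ℝ) < 2)]
    have h4 : I / (2 / ν) = I * ν / 2 := by
      rw [div_div_eq_mul_div]
    rw [← hI, h4] at h1
    have h5 : 0 ≤ I * ν := by positivity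
    linarith

end Pool.Agent.GNS
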