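import Pool.Agent.GNS.T3

set_option autoImplicit false

open Metric Set Filter Topology MeasureTheory

noncomputable section

namespace Pool.Agent.GNS

open Pool.Agent.GLB

/-- the target PBE -/
theorem p_PBE : T_PBE := by
  intro m k Ψ hΨ
  let I := {K : ConvexBody (E (m + 1)) // (K : Set (E (m + 1))) ⊆ closedBall 0 1}
  let g : I → (C(S (m + 1), ℂ) →L[ℂ] ℂ) := fun K => Ψ K.1
  have hcomp : IsCompact {K : ConvexBody (E (m + 1)) | (K : Set (E (m + 1))) ⊆ closedBall 0 1} :=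
    gBLA (m + 1) 1
  have hpt : ∀ φ : C(S (m + 1), ℂ), ∃ C : ℝ, ∀ i : I, ‖g i φ‖ ≤ C := by
    intro φ
    obtain ⟨C, hC⟩ := hcomp.exists_bound_of_continuousOn (hΨ.cont φ).continuousOn
    exact ⟨C, fun i => hC i.1 i.2⟩
  obtain ⟨C, hC⟩ := banach_steinhaus hpt
  refine ⟨max C 0, le_max_right _ _, ?_⟩
  intro K hK φ
  have h1 : ‖Ψ K φ‖ ≤ ‖g ⟨K, hK⟩‖ * ‖φ‖ := (g ⟨K, hK⟩).le_opNorm φ
  exact h1.trans (mul_le_mul_of_nonneg_right ((hC ⟨K, hK⟩).trans (le_max_left _ _))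
    (norm_nonneg φ))

end Pool.Agent.GNS
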