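import Pool.Agent.GNS.T3

/-!
# GNS: target PBR (bodies in the ball of radius `R`)
-/

set_option autoImplicit false

open Metric Set Filter Topology MeasureTheory

noncomputable section

namespace Pool.Agent.GNS

open Pool.Agent.GLB

theorem p_PBR : T_PBR := by
  intro m Ψ hΨ C hC R hR K hK φ
  have h1 : R • ((R⁻¹ : ℝ) • K) = K := (gCTA (m + 1)).2.2.2.2.2 K R hR
  have h2 : (((R⁻¹ : ℝ) • K : ConvexBody (E (m + 1))) : Set (E (m + 1))) ⊆ closedBall 0 1 := by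
    intro x hx
    rw [ConvexBody.coe_smul] at hx
    obtain ⟨y, hy, rfl⟩ := Set.mem_smul_set.1 hx
    have h3 := hK hy
    rw [mem_closedBall, dist_zero_right] at h3 ⊢
    rw [norm_smul, norm_inv, Real.norm_of_nonneg hR.le]
    calc R⁻¹ * ‖y‖ ≤ R⁻¹ * R := by gcongr
      _ = 1 := inv_mul_cancel₀ hR.ne'
  have h4 := hC _ h2 φ
  have h5 := hΨ.homog ((R⁻¹ : ℝ) • K) R hR.le
  rw [h1] at h5
  rw [h5]
  have h6 : ‖(((R : ℂ) ^ 2) • Ψ ((R⁻¹ : ℝ) • K)) φ‖ = R ^ 2 * ‖Ψ ((R⁻¹ : ℝ) • K) φ‖ := by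
    rw [smul_apply, norm_smul, norm_pow, Complex.norm_real, Real.norm_of_nonneg hR.le]
  rw [h6, mul_assoc]
  gcongr

end Pool.Agent.GNS
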