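import Pool.Agent.GNS.T1

/-!
# GNS: PCT, Hoelder continuity of the functional (helper14)
-/

set_option autoImplicit false

open Metric Set Filter Topology MeasureTheory

noncomputable section

namespace Pool.Agent.GNS

namespace PCT_

/-- the integrand of the functional in weak form -/
def II (b w : V → ℝ) (z : V) : ℝ :=
  d 0 (d 2 b) z * (d 1 w z * d 3 w z) - d 1 (d 2 b) z * (d 0 w z * d 3 w z) -
    d 0 (d 3 b) z * (d 1 w z * d 2 w z) + d 1 (d 3 b) z * (d 0 w z * d 2 w z)

theorem II_cont {b w : V → ℝ} (hb : Sm b) (hw : Sm w) : Continuous (II b w) := by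
  have h1 := fun i j : Fin 4 => ((hb.d j).d i).cont
  have h2 := fun i : Fin 4 => (hw.d i).cont
  unfold II
  exact ((((h1 0 2).mul ((h2 1).mul (h2 3))).sub ((h1 1 2).mul ((h2 0).mul (h2 3)))).sub
    ((h1 0 3).mul ((h2 1).mul (h2 2)))).add ((h1 1 3).mul ((h2 0).mul (h2 2)))

/-- second derivatives vanish where the function vanishes locally -/
theorem dd_zero {b : V → ℝ} (hb : ∀ z, 3 ≤ ‖z‖ → b z = 0) (i j : Fin 4) (z : V)
    (hz : 3 < ‖z‖) : d i (d j b) z = 0 := by
  have h1 : ∀ y : V, 3 < ‖y‖ → b =ᶠ[𝓝 y] fun _ => 0 := by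
    intro y hy
    filter_upwards [(isOpen_lt continuous_const continuous_norm).mem_nhds hy] with x hx
    exact hb x (le_of_lt hx)
  have h2 : ∀ y : V, 3 < ‖y‖ → d j b y = 0 := by
    intro y hy
    rw [d_congr (h1 y hy) j, d_const]
  have h3 : d j b =ᶠ[𝓝 z] fun _ => 0 := by
    filter_upwards [(isOpen_lt continuous_const continuous_norm).mem_nhds hz] with x hx
    exact h2 x hx
  rw [d_congr h3 i, d_const]

theorem II_zero {b : V → ℝ} (w : V → ℝ) (hb : ∀ z, 3 ≤ ‖z‖ → b z = 0) (z : V)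
    (hz : 3 < ‖z‖) : II b w z = 0 := by
  unfold II
  rw [dd_zero hb 0 2 z hz, dd_zero hb 1 2 z hz, dd_zero hb 0 3 z hz, dd_zero hb 1 3 z hz]
  ring

theorem prod_diff (a b a' b' : ℝ) (h1 : |a| ≤ 10) (h2 : |b'| ≤ 10) :
    |a * b - a' * b'| ≤ 10 * (|a - a'| + |b - b'|) := by
  have e : a * b - a' * b' = a * (b - b') + (a - a') * b' := by ring
  rw [e]
  refine le_trans (abs_add_le _ _) ?_
  rw [abs_mul, abs_mul]
  have h3 := mul_le_mul_of_nonneg_right h1 (abs_nonneg (b - b'))
  have h4 := mul_le_mul_of_nonneg_left h2 (abs_nonneg (a - a'))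
  linarith

/-- one term -/
theorem term_le (M q a b a' b' : ℝ) (hq : |q| ≤ M) (h1 : |a| ≤ 10) (h2 : |b'| ≤ 10) :
    |q * (a * b) - q * (a' * b')| ≤ 10 * M * (|a - a'| + |b - b'|) := by
  rw [← mul_sub, abs_mul]
  have h3 := prod_diff a b a' b' h1 h2
  have h4 : 0 ≤ 10 * (|a - a'| + |b - b'|) := by positivity
  calc |q| * |a * b - a' * b'| ≤ |q| * (10 * (|a - a'| + |b - b'|)) :=
        mul_le_mul_of_nonneg_left h3 (abs_nonneg q)
    _ ≤ M * (10 * (|a - a'| + |b - b'|)) := mul_le_mul_of_nonneg_right hq h4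
    _ = 10 * M * (|a - a'| + |b - b'|) := by ring

/-- the difference of the integrands -/
theorem II_diff (b w w' : V → ℝ) (M : ℝ) (z : V)
    (hM : |d 0 (d 2 b) z| + |d 1 (d 2 b) z| + |d 0 (d 3 b) z| + |d 1 (d 3 b) z| ≤ M)
    (hw : ∀ i, |d i w z| ≤ 10) (hw' : ∀ i, |d i w' z| ≤ 10) :
    |II b w z - II b w' z| ≤ 20 * M * (|d 0 w z - d 0 w' z| + |d 1 w z - d 1 w' z| +
      |d 2 w z - d 2 w' z| + |d 3 w z - d 3 w' z|) := by
  have a1 := abs_nonneg (d 0 (d 2 b) z)
  have a2 := abs_nonneg (d 1 (d 2 b) z)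
  have a3 := abs_nonneg (d 0 (d 3 b) z)
  have a4 := abs_nonneg (d 1 (d 3 b) z)
  have t1 := term_le M (d 0 (d 2 b) z) (d 1 w z) (d 3 w z) (d 1 w' z) (d 3 w' z)
    (by linarith) (hw 1) (hw' 3)
  have t2 := term_le M (d 1 (d 2 b) z) (d 0 w z) (d 3 w z) (d 0 w' z) (d 3 w' z)
    (by linarith) (hw 0) (hw' 3)
  have t3 := term_le M (d 0 (d 3 b) z) (d 1 w z) (d 2 w z) (d 1 w' z) (d 2 w' z)
    (by linarith) (hw 1) (hw' 2)
  have t4 := term_le M (d 1 (d 3 b) z) (d 0 w z) (d 2 w z) (d 0 w' z) (d 2 w' z)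
    (by linarith) (hw 0) (hw' 2)
  rw [abs_le] at t1 t2 t3 t4 ⊢
  unfold II
  constructor <;> linarith [t1.1, t1.2, t2.1, t2.2, t3.1, t3.2, t4.1, t4.2]

end PCT_

open PCT_ in
theorem p_PCT (hWKF : T_WKF) (hGRD : T_GRD) : T_PCT := by
  intro b hb hb0
  obtain ⟨C, hC, hG⟩ := hGRD
  have hcb : HasCompactSupport b := hcs_of hb0
  have hcont : Continuous fun z => |d 0 (d 2 b) z| + |d 1 (d 2 b) z| + |d 0 (d 3 b) z| +
      |d 1 (d 3 b) z| :=
    ((((hb.d 2).d 0).cont.abs.add ((hb.d 2).d 1).cont.abs).add ((hb.d 3).d 0).cont.abs).add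
      ((hb.d 3).d 1).cont.abs
  obtain ⟨M0, hM0⟩ := (isCompact_closedBall (0 : V) 3).exists_bound_of_continuousOn
    hcont.continuousOn
  set M : ℝ := |M0| with hMdef
  have hM : ∀ z ∈ closedBall (0 : V) 3, |d 0 (d 2 b) z| + |d 1 (d 2 b) z| +
      |d 0 (d 3 b) z| + |d 1 (d 3 b) z| ≤ M := by
    intro z hz
    exact le_trans (le_trans (le_abs_self _) (hM0 z hz)) (le_abs_self _)
  have hM' : 0 ≤ M := abs_nonneg _
  refine ⟨40 * M * C, by positivity, ?_⟩
  intro w w' hw hw' cw cw' hd ε hε hww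
  rw [← hWKF b w hb hcb hw, ← hWKF b w' hb hcb hw']
  have e1 : ∀ v : V → ℝ, Qb b v = -(1 / 2) * ∫ z, II b v z := fun v => rfl
  have hcs : ∀ v : V → ℝ, HasCompactSupport (II b v) := by
    intro v
    refine HasCompactSupport.intro (isCompact_closedBall (0 : V) 3) ?_
    intro z hz
    rw [mem_closedBall, dist_zero_right, not_le] at hz
    exact II_zero v hb0 z hz
  have i1 : Integrable (II b w) := int_of (II_cont hb hw) (hcs w)
  have i2 : Integrable (II b w') := int_of (II_cont hb hw') (hcs w')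
  have e2 : Qb b w - Qb b w' = -(1 / 2) * ∫ z, (II b w z - II b w' z) := by
    rw [e1, e1, integral_sub i1 i2]
    ring
  have hK : ∀ i, IntegrableOn (fun z => |d i w z - d i w' z|) (closedBall (0 : V) 3) :=
    fun i => (((hw.d i).cont.sub (hw'.d i).cont).abs).continuousOn.integrableOn_compact
      (isCompact_closedBall _ _)
  have e3 : |∫ z, (II b w z - II b w' z)| ≤ 80 * M * (C * Real.sqrt ε) := by
    calc |∫ z, (II b w z - II b w' z)|
        ≤ ∫ z, |II b w z - II b w' z| := abs_integral_le_integral_abs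
      _ = ∫ z in closedBall (0 : V) 3, |II b w z - II b w' z| := by
          symm
          apply setIntegral_eq_integral_of_forall_compl_eq_zero
          intro z hz
          rw [mem_closedBall, dist_zero_right, not_le] at hz
          rw [II_zero w hb0 z hz, II_zero w' hb0 z hz]
          simp
      _ ≤ ∫ z in closedBall (0 : V) 3, 20 * M * (|d 0 w z - d 0 w' z| + |d 1 w z - d 1 w' z| +
            |d 2 w z - d 2 w' z| + |d 3 w z - d 3 w' z|) := by
          apply setIntegral_mono_on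
          · exact (((II_cont hb hw).sub (II_cont hb hw')).abs).continuousOn.integrableOn_compact
              (isCompact_closedBall _ _)
          · exact ((((hK 0).add (hK 1)).add (hK 2)).add (hK 3)).const_mul _
          · exact measurableSet_closedBall
          · intro z hz
            have hz' : ‖z‖ ≤ 4 := by
              rw [mem_closedBall, dist_zero_right] at hz
              linarith
            exact II_diff b w w' M z (hM z hz) (fun i => (hd z hz' i).1)
              (fun i => (hd z hz' i).2)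
      _ = 20 * M * ((∫ z in closedBall (0 : V) 3, |d 0 w z - d 0 w' z|) +
            (∫ z in closedBall (0 : V) 3, |d 1 w z - d 1 w' z|) +
            (∫ z in closedBall (0 : V) 3, |d 2 w z - d 2 w' z|) +
            ∫ z in closedBall (0 : V) 3, |d 3 w z - d 3 w' z|) := by
          rw [integral_const_mul]
          congr 1
          have hA : IntegrableOn (fun z => |d 0 w z - d 0 w' z| + |d 1 w z - d 1 w' z|)
            (closedBall (0 : V) 3) := (hK 0).add (hK 1)
          have hB : IntegrableOn (fun z => |d 0 w z - d 0 w' z| + |d 1 w z - d 1 w' z| +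
            |d 2 w z - d 2 w' z|) (closedBall (0 : V) 3) := hA.add (hK 2)
          rw [integral_add hB (hK 3), integral_add hA (hK 2), integral_add (hK 0) (hK 1)]
      _ ≤ 80 * M * (C * Real.sqrt ε) := by
          have h := fun i => hG w w' hw hw' cw cw' hd ε hε hww i
          have h5 : (∫ z in closedBall (0 : V) 3, |d 0 w z - d 0 w' z|) +
            (∫ z in closedBall (0 : V) 3, |d 1 w z - d 1 w' z|) +
            (∫ z in closedBall (0 : V) 3, |d 2 w z - d 2 w' z|) +
            (∫ z in closedBall (0 : V) 3, |d 3 w z - d 3 w' z|) ≤ 4 * (C * Real.sqrt ε) := by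
            linarith [h 0, h 1, h 2, h 3]
          calc _ ≤ 20 * M * (4 * (C * Real.sqrt ε)) :=
                mul_le_mul_of_nonneg_left h5 (by positivity)
            _ = _ := by ring
  rw [e2, abs_mul]
  have e4 : |(-(1 / 2) : ℝ)| = 1 / 2 := by
    rw [abs_neg, abs_of_pos (by norm_num)]
  rw [e4]
  linarith

end Pool.Agent.GNS
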