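import Pool.Agent.GNS.T3

/-!
# GNS: PHS, averages over independent phases
-/

set_option autoImplicit false

open Metric Set Filter Topology MeasureTheory

noncomputable section

namespace Pool.Agent.GNS

section

variable {ι : Type} [Fintype ι] [DecidableEq ι]

/-- the sum over the phases factorises -/
theorem PHS_mom (x : ι → Fin 4 → ℝ) (n : ι → ℕ) :
    ∑ θ : ι → Fin 4, ∏ i, x i (θ i) ^ n i = ∏ i, ∑ j, x i j ^ n i := by
  rw [Finset.prod_univ_sum, Fintype.piFinset_univ]

theorem PHS_zero (x : ι → Fin 4 → ℝ) (hx : ∀ k, ∑ j, x k j = 0) (n : ι → ℕ) (i : ι)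
    (hi : n i = 1) : ∑ θ : ι → Fin 4, ∏ i, x i (θ i) ^ n i = 0 := by
  rw [PHS_mom]
  apply Finset.prod_eq_zero (Finset.mem_univ i)
  rw [hi]
  simpa using hx i

/-- the exponent vector of one factor -/
def PHS_e (k i : ι) : ℕ := if k = i then 1 else 0

theorem PHS_one (y : ι → ℝ) (k : ι) : ∏ i, y i ^ PHS_e k i = y k := by
  unfold PHS_e
  rw [Finset.prod_pow_boole]
  simp

theorem PHS_m2 (x : ι → Fin 4 → ℝ) (hx : ∀ k, ∑ j, x k j = 0) (k l : ι) (hkl : k ≠ l) :
    ∑ θ : ι → Fin 4, x k (θ k) * x l (θ l) = 0 := by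
  have h := PHS_zero x hx (fun i => PHS_e k i + PHS_e l i) k (by simp [PHS_e, hkl.symm])
  rw [← h]
  apply Finset.sum_congr rfl
  intro θ _
  simp only [pow_add, Finset.prod_mul_distrib]
  rw [PHS_one (fun i => x i (θ i)), PHS_one (fun i => x i (θ i))]

theorem PHS_m3 (x : ι → Fin 4 → ℝ) (hx : ∀ k, ∑ j, x k j = 0) (k l : ι) (hkl : k ≠ l) (a : ι) :
    ∑ θ : ι → Fin 4, x k (θ k) * x l (θ l) * x a (θ a) = 0 := by
  have h : ∑ θ : ι → Fin 4, ∏ i, x i (θ i) ^ (PHS_e k i + PHS_e l i + PHS_e a i) = 0 := by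
    by_cases hak : a = k
    · apply PHS_zero x hx (fun i => PHS_e k i + PHS_e l i + PHS_e a i) l
      rw [hak]
      simp [PHS_e, hkl]
    · apply PHS_zero x hx (fun i => PHS_e k i + PHS_e l i + PHS_e a i) k
      simp [PHS_e, hkl.symm, hak]
  rw [← h]
  apply Finset.sum_congr rfl
  intro θ _
  simp only [pow_add, Finset.prod_mul_distrib]
  rw [PHS_one (fun i => x i (θ i)), PHS_one (fun i => x i (θ i)), PHS_one (fun i => x i (θ i))]

theorem PHS_m4 (x : ι → Fin 4 → ℝ) (hx : ∀ k, ∑ j, x k j = 0) (hx2 : ∀ k, ∑ j, x k j ^ 2 = 2)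
    (k l : ι) (hkl : k ≠ l) (a b : ι) :
    ∑ θ : ι → Fin 4, x k (θ k) * x l (θ l) * x a (θ a) * x b (θ b) =
      4 ^ Fintype.card ι / 4 * ((if a = k then 1 else 0) * (if b = l then 1 else 0) +
        (if a = l then 1 else 0) * (if b = k then 1 else 0)) := by
  have h : ∑ θ : ι → Fin 4, x k (θ k) * x l (θ l) * x a (θ a) * x b (θ b) =
      ∑ θ : ι → Fin 4, ∏ i, x i (θ i) ^ (PHS_e k i + PHS_e l i + PHS_e a i + PHS_e b i) := by
    apply Finset.sum_congr rfl
    intro θ _
    simp only [pow_add, Finset.prod_mul_distrib]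
    rw [PHS_one (fun i => x i (θ i)), PHS_one (fun i => x i (θ i)),
      PHS_one (fun i => x i (θ i)), PHS_one (fun i => x i (θ i))]
  have hmain : ∑ θ : ι → Fin 4, ∏ i, x i (θ i) ^ (PHS_e k i + PHS_e l i + PHS_e k i + PHS_e l i) =
      4 ^ Fintype.card ι / 4 := by
    rw [PHS_mom x (fun i => PHS_e k i + PHS_e l i + PHS_e k i + PHS_e l i)]
    have hf : ∀ i, ∑ j, x i j ^ (PHS_e k i + PHS_e l i + PHS_e k i + PHS_e l i) =
        4 * ((1 / 2 : ℝ) ^ PHS_e k i * (1 / 2 : ℝ) ^ PHS_e l i) := by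
      intro i
      by_cases hik : k = i
      · subst hik
        have : PHS_e k k + PHS_e l k + PHS_e k k + PHS_e l k = 2 := by
          simp [PHS_e, hkl.symm]
        rw [this, hx2 k]
        simp [PHS_e, hkl.symm]
        norm_num
      · by_cases hil : l = i
        · subst hil
          have : PHS_e k l + PHS_e l l + PHS_e k l + PHS_e l l = 2 := by
            simp [PHS_e, hkl]
          rw [this, hx2 l]
          simp [PHS_e, hkl]
          norm_num
        · have : PHS_e k i + PHS_e l i + PHS_e k i + PHS_e l i = 0 := by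
            simp [PHS_e, hik, hil]
          rw [this]
          simp [PHS_e, hik, hil]
    simp only [hf]
    rw [Finset.prod_mul_distrib, Finset.prod_mul_distrib,
      PHS_one (fun _ => (1 / 2 : ℝ)), PHS_one (fun _ => (1 / 2 : ℝ)), Finset.prod_const,
      Finset.card_univ]
    ring
  rw [h]
  by_cases hak : a = k
  · by_cases hbl : b = l
    · subst hak hbl
      rw [hmain]
      simp [hkl]
    · rw [PHS_zero x hx (fun i => PHS_e k i + PHS_e l i + PHS_e a i + PHS_e b i) l
        (by subst hak; simp [PHS_e, hkl, hbl])]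
      subst hak
      simp [hkl, hbl]
  · by_cases hal : a = l
    · by_cases hbk : b = k
      · subst hal hbk
        have h3 : ∀ i, PHS_e b i + PHS_e a i + PHS_e a i + PHS_e b i =
            PHS_e b i + PHS_e a i + PHS_e b i + PHS_e a i := fun i => by ring
        simp only [h3]
        rw [hmain]
        simp [hkl, hak]
      · rw [PHS_zero x hx (fun i => PHS_e k i + PHS_e l i + PHS_e a i + PHS_e b i) k
          (by simp [PHS_e, hkl.symm, hak, hbk])]
        simp [hak, hbk]
    · by_cases hbk : b = k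
      · rw [PHS_zero x hx (fun i => PHS_e k i + PHS_e l i + PHS_e a i + PHS_e b i) l
          (by subst hbk; simp [PHS_e, hkl, hal])]
        simp [hak, hal]
      · rw [PHS_zero x hx (fun i => PHS_e k i + PHS_e l i + PHS_e a i + PHS_e b i) k
          (by simp [PHS_e, hkl.symm, hak, hbk])]
        simp [hak, hal]

end

theorem p_PHS : T_PHS := by
  intro ι _ _ x hx hx2 k l hkl h h' u v
  have hexp : ∀ θ : ι → Fin 4, x k (θ k) * x l (θ l) * (h + ∑ a, u a * x a (θ a)) *
      (h' + ∑ a, v a * x a (θ a)) =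
      h * h' * (x k (θ k) * x l (θ l)) +
      ∑ b, (h * v b) * (x k (θ k) * x l (θ l) * x b (θ b)) +
      ∑ a, (h' * u a) * (x k (θ k) * x l (θ l) * x a (θ a)) +
      ∑ a, ∑ b, (u a * v b) * (x k (θ k) * x l (θ l) * x a (θ a) * x b (θ b)) := by
    intro θ
    have h1 : (∑ a, u a * x a (θ a)) * (∑ b, v b * x b (θ b)) =
        ∑ a, ∑ b, (u a * x a (θ a)) * (v b * x b (θ b)) := Finset.sum_mul_sum _ _ _ _
    have h2 : ∑ a, ∑ b, (u a * v b) * (x k (θ k) * x l (θ l) * x a (θ a) * x b (θ b)) =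
        x k (θ k) * x l (θ l) * ∑ a, ∑ b, (u a * x a (θ a)) * (v b * x b (θ b)) := by
      rw [Finset.mul_sum]
      apply Finset.sum_congr rfl
      intro a _
      rw [Finset.mul_sum]
      apply Finset.sum_congr rfl
      intro b _
      ring
    have h3 : ∑ b, (h * v b) * (x k (θ k) * x l (θ l) * x b (θ b)) =
        x k (θ k) * x l (θ l) * h * ∑ b, v b * x b (θ b) := by
      rw [Finset.mul_sum]
      apply Finset.sum_congr rfl
      intro b _
      ring
    have h4 : ∑ a, (h' * u a) * (x k (θ k) * x l (θ l) * x a (θ a)) =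
        x k (θ k) * x l (θ l) * h' * ∑ a, u a * x a (θ a) := by
      rw [Finset.mul_sum]
      apply Finset.sum_congr rfl
      intro b _
      ring
    rw [h2, h3, h4, ← h1]
    ring
  simp only [hexp]
  rw [Finset.sum_add_distrib, Finset.sum_add_distrib, Finset.sum_add_distrib]
  have s1 : ∑ θ : ι → Fin 4, h * h' * (x k (θ k) * x l (θ l)) = 0 := by
    rw [← Finset.mul_sum, PHS_m2 x hx k l hkl, mul_zero]
  have s2 : ∑ θ : ι → Fin 4, ∑ b, (h * v b) * (x k (θ k) * x l (θ l) * x b (θ b)) = 0 := by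
    rw [Finset.sum_comm]
    apply Finset.sum_eq_zero
    intro b _
    rw [← Finset.mul_sum, PHS_m3 x hx k l hkl b, mul_zero]
  have s3 : ∑ θ : ι → Fin 4, ∑ a, (h' * u a) * (x k (θ k) * x l (θ l) * x a (θ a)) = 0 := by
    rw [Finset.sum_comm]
    apply Finset.sum_eq_zero
    intro a _
    rw [← Finset.mul_sum, PHS_m3 x hx k l hkl a, mul_zero]
  have s4 : ∑ θ : ι → Fin 4, ∑ a, ∑ b,
      (u a * v b) * (x k (θ k) * x l (θ l) * x a (θ a) * x b (θ b)) =
      4 ^ Fintype.card ι * ((u k * v l + u l * v k) / 4) := by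
    rw [Finset.sum_comm]
    have s5 : ∀ a, ∑ θ : ι → Fin 4, ∑ b,
        (u a * v b) * (x k (θ k) * x l (θ l) * x a (θ a) * x b (θ b)) =
        (4 ^ Fintype.card ι / 4 * u a * v l) * (if a = k then 1 else 0) +
          (4 ^ Fintype.card ι / 4 * u a * v k) * (if a = l then 1 else 0) := by
      intro a
      rw [Finset.sum_comm]
      have s6 : ∀ b, ∑ θ : ι → Fin 4,
          (u a * v b) * (x k (θ k) * x l (θ l) * x a (θ a) * x b (θ b)) =
          (4 ^ Fintype.card ι / 4 * u a * (if a = k then 1 else 0)) *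
            (v b * (if b = l then 1 else 0)) +
          (4 ^ Fintype.card ι / 4 * u a * (if a = l then 1 else 0)) *
            (v b * (if b = k then 1 else 0)) := by
        intro b
        rw [← Finset.mul_sum, PHS_m4 x hx hx2 k l hkl a b]
        ring
      rw [Finset.sum_congr rfl fun b _ => s6 b, Finset.sum_add_distrib, ← Finset.mul_sum,
        ← Finset.mul_sum]
      have s7 : ∀ c, ∑ b, v b * (if b = c then (1 : ℝ) else 0) = v c := by
        intro c
        simp
      rw [s7, s7]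
      ring
    rw [Finset.sum_congr rfl fun a _ => s5 a, Finset.sum_add_distrib]
    have s8 : ∀ (w : ι → ℝ) c, ∑ b, w b * (if b = c then (1 : ℝ) else 0) = w c := by
      intro w c
      simp
    rw [s8 (fun a => 4 ^ Fintype.card ι / 4 * u a * v l),
      s8 (fun a => 4 ^ Fintype.card ι / 4 * u a * v k)]
    ring
  rw [s1, s2, s3, s4]
  ring

end Pool.Agent.GNS
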