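import Pool.Agent.GNS.T1
import Pool.Agent.GNS.T2

/-!
# GNS: the package PKA
-/

set_option autoImplicit false

open Metric Set Filter Topology MeasureTheory

noncomputable section

namespace Pool.Agent.GNS

namespace PKA_

theorem smx0 : Sm fun z : V => z.1.1 := contDiff_fst.fst

theorem smx1 : Sm fun z : V => z.1.2 := contDiff_fst.snd

theorem dx00 (z : V) : d 0 (fun z : V => z.1.1) z = 1 := by
  unfold d
  have h : HasFDerivAt (fun z : V => z.1.1)
      ((ContinuousLinearMap.fst ℝ ℝ ℝ).comp (ContinuousLinearMap.fst ℝ X2 X2)) z :=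
    ((ContinuousLinearMap.fst ℝ ℝ ℝ).comp (ContinuousLinearMap.fst ℝ X2 X2)).hasFDerivAt
  rw [h.fderiv]
  simp [e]

theorem dx01 (z : V) : d 0 (fun z : V => z.1.2) z = 0 := by
  unfold d
  have h : HasFDerivAt (fun z : V => z.1.2)
      ((ContinuousLinearMap.snd ℝ ℝ ℝ).comp (ContinuousLinearMap.fst ℝ X2 X2)) z :=
    ((ContinuousLinearMap.snd ℝ ℝ ℝ).comp (ContinuousLinearMap.fst ℝ X2 X2)).hasFDerivAt
  rw [h.fderiv]
  simp [e]

theorem dx10 (z : V) : d 1 (fun z : V => z.1.1) z = 0 := by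
  unfold d
  have h : HasFDerivAt (fun z : V => z.1.1)
      ((ContinuousLinearMap.fst ℝ ℝ ℝ).comp (ContinuousLinearMap.fst ℝ X2 X2)) z :=
    ((ContinuousLinearMap.fst ℝ ℝ ℝ).comp (ContinuousLinearMap.fst ℝ X2 X2)).hasFDerivAt
  rw [h.fderiv]
  simp [e]

theorem dx11 (z : V) : d 1 (fun z : V => z.1.2) z = 1 := by
  unfold d
  have h : HasFDerivAt (fun z : V => z.1.2)
      ((ContinuousLinearMap.snd ℝ ℝ ℝ).comp (ContinuousLinearMap.fst ℝ X2 X2)) z :=
    ((ContinuousLinearMap.snd ℝ ℝ ℝ).comp (ContinuousLinearMap.fst ℝ X2 X2)).hasFDerivAt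
  rw [h.fderiv]
  simp [e]

theorem q1_eq : q1 = fun z : V => (1 / 2 : ℝ) * (z.1.1 * z.1.1 + z.1.2 * z.1.2) := by
  funext z
  unfold q1
  ring

theorem d0q (z : V) : d 0 q1 z = z.1.1 := by
  rw [q1_eq, d_cmul ((smx0.mul smx0).add (smx1.mul smx1)), d_add (smx0.mul smx0) (smx1.mul smx1),
    d_mul smx0 smx0, d_mul smx1 smx1, dx00, dx01]
  ring

theorem d1q (z : V) : d 1 q1 z = z.1.2 := by
  rw [q1_eq, d_cmul ((smx0.mul smx0).add (smx1.mul smx1)), d_add (smx0.mul smx0) (smx1.mul smx1),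
    d_mul smx0 smx0, d_mul smx1 smx1, dx10, dx11]
  ring

theorem x0le (z : V) : |z.1.1| ≤ ‖z‖ := by
  calc |z.1.1| = ‖z.1.1‖ := (Real.norm_eq_abs _).symm
    _ ≤ ‖z.1‖ := norm_fst_le z.1
    _ ≤ ‖z‖ := norm_fst_le z

theorem x1le (z : V) : |z.1.2| ≤ ‖z‖ := by
  calc |z.1.2| = ‖z.1.2‖ := (Real.norm_eq_abs _).symm
    _ ≤ ‖z.1‖ := norm_snd_le z.1
    _ ≤ ‖z‖ := norm_fst_le z

/-- the power is bounded below -/
theorem powlow {N : ℕ} (hN : 3 ≤ N) : Real.exp (-3) ≤ (1 - 1 / (N : ℝ)) ^ (2 * N) := by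
  have hN' : (3 : ℝ) ≤ N := by exact_mod_cast hN
  have h1 : (0 : ℝ) < (N : ℝ) - 1 := by linarith
  have h2 : Real.exp (-(1 / ((N : ℝ) - 1))) ≤ 1 - 1 / (N : ℝ) := by
    rw [Real.exp_neg]
    have h3 : 1 + 1 / ((N : ℝ) - 1) ≤ Real.exp (1 / ((N : ℝ) - 1)) := by
      have := Real.add_one_le_exp (1 / ((N : ℝ) - 1))
      linarith
    have h4 : (0 : ℝ) < 1 + 1 / ((N : ℝ) - 1) := by positivity
    calc (Real.exp (1 / ((N : ℝ) - 1)))⁻¹ ≤ (1 + 1 / ((N : ℝ) - 1))⁻¹ :=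
          inv_anti₀ h4 h3
      _ = 1 - 1 / (N : ℝ) := by
          field_simp
          ring
  calc Real.exp (-3) ≤ Real.exp ((2 * N : ℕ) * (-(1 / ((N : ℝ) - 1)))) := by
        apply Real.exp_le_exp.2
        push_cast
        have h5 : 2 * (N : ℝ) / ((N : ℝ) - 1) ≤ 3 := by
          rw [div_le_iff₀ h1]
          linarith
        have h6 : 2 * (N : ℝ) * (-(1 / ((N : ℝ) - 1))) = -(2 * (N : ℝ) / ((N : ℝ) - 1)) := by
          ring
        rw [h6]
        linarith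
    _ = Real.exp (-(1 / ((N : ℝ) - 1))) ^ (2 * N) := by
        rw [← Real.exp_nat_mul]
    _ ≤ (1 - 1 / (N : ℝ)) ^ (2 * N) := pow_le_pow_left₀ (Real.exp_pos _).le h2 _

theorem I_pos {ζ0 ζ1 : V → ℝ} (hC : Cuts ζ0 ζ1) : 0 < ∫ z, ζ0 z := by
  have hcs : HasCompactSupport ζ0 := hcs_of hC.out0
  apply hC.sm0.cont.integral_pos_of_hasCompactSupport_nonneg_nonzero hcs (fun z => hC.nn0 z)
    (x := 0)
  rw [hC.one0 0 (by simp)]
  norm_num

/-- the volume of the unit ball -/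
def vb : ℝ := (volume (closedBall (0 : V) 1)).toReal

theorem vb_nonneg : 0 ≤ vb := ENNReal.toReal_nonneg

theorem int_small {f : V → ℝ} {c : ℝ} (h1 : ∀ z, 1 ≤ ‖z‖ → f z = 0)
    (h2 : ∀ z, ‖z‖ ≤ 1 → |f z| ≤ c) : |∫ z, f z| ≤ c * vb := by
  have h3 : ∫ z, f z = ∫ z in closedBall (0 : V) 1, f z := by
    symm
    apply setIntegral_eq_integral_of_forall_compl_eq_zero
    intro z hz
    apply h1
    rw [mem_closedBall, dist_zero_right, not_le] at hz
    exact hz.le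
  rw [h3, ← Real.norm_eq_abs]
  have h4 := norm_setIntegral_le_of_norm_le_const (μ := (volume : Measure V))
    (s := closedBall (0 : V) 1) (f := f) (C := c)
    (isCompact_closedBall (0 : V) 1).measure_lt_top (fun z hz => by
      rw [Real.norm_eq_abs]
      apply h2
      rwa [mem_closedBall, dist_zero_right] at hz)
  exact h4

end PKA_

theorem p_PKA (hLI : T_LI) (hDBF : T_DBF) (hIND : T_IND) (hPRF : T_PRF) (hPKD : T_PKD) :
    T_PKA := by
  intro ζ0 ζ1 hC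
  obtain ⟨C1, hC1⟩ := hDBF ζ0 ζ1 hC
  have hI := PKA_.I_pos hC
  set I := ∫ z, ζ0 z with hIdef
  have hc1 : 0 < Real.exp (-3) * I / 2 := by positivity
  set c1 := Real.exp (-3) * I / 2 with hc1def
  refine ⟨16 * C1 + 1, c1 / 4, by positivity, ?_⟩
  intro N hN
  have hN' : (3 : ℝ) ≤ N := by exact_mod_cast hN
  have hN0 : (0 : ℝ) < N := by linarith
  have hv := PKA_.vb_nonneg
  set κ : ℝ := min (1 / (4 * N)) (c1 / (4 * N * 4 ^ N * (PKA_.vb + 1))) with hκdef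
  have hκ : 0 < κ := by
    apply lt_min
    · positivity
    · positivity
  have hκ1 : N * κ ≤ 1 / 4 := by
    have h1 : κ ≤ 1 / (4 * N) := min_le_left _ _
    calc (N : ℝ) * κ ≤ N * (1 / (4 * N)) := by gcongr
      _ = 1 / 4 := by
          field_simp
  have hκ2 : N * κ * (4 ^ N * (PKA_.vb + 1)) ≤ c1 / 4 := by
    have h1 : κ ≤ c1 / (4 * N * 4 ^ N * (PKA_.vb + 1)) := min_le_right _ _
    have h2 : (0 : ℝ) < PKA_.vb + 1 := by linarith
    calc N * κ * (4 ^ N * (PKA_.vb + 1))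
        ≤ N * (c1 / (4 * N * 4 ^ N * (PKA_.vb + 1))) * (4 ^ N * (PKA_.vb + 1)) := by gcongr
      _ = c1 / 4 := by
          field_simp
  have hNκ0 : 0 ≤ N * κ := by positivity
  have h4N : (1 : ℝ) ≤ 4 ^ N := one_le_pow₀ (by norm_num)
  have hκ3 : N * κ ≤ c1 / 4 := by
    calc N * κ = N * κ * 1 := by ring
      _ ≤ N * κ * (4 ^ N * (PKA_.vb + 1)) := by
          apply mul_le_mul_of_nonneg_left _ hNκ0
          nlinarith
      _ ≤ c1 / 4 := hκ2
  have hκ4 : N * κ * (4 ^ N * PKA_.vb) ≤ c1 / 4 := by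
    refine le_trans ?_ hκ2
    apply mul_le_mul_of_nonneg_left _ hNκ0
    apply mul_le_mul_of_nonneg_left _ (by positivity)
    linarith
  obtain ⟨θ, σ, σ2, q3, ϵ, m2, c3, C, hPr⟩ := hPRF N hN
  obtain ⟨s, hA, hB, hCC, hE, hD, hP⟩ := hIND N θ σ σ2 q3 ϵ m2 c3 C ζ0 ζ1 hPr hN hC
    (fun b β h1 h2 h3 h4 h5 => hLI N θ σ σ2 q3 ϵ m2 c3 C ζ0 ζ1 b β hPr hN hC h1 h2 h3 h4 h5)
    κ hκ
  refine ⟨s.b, fun z => s.Φ z - q1 z + s.Ξ z, fun z => s.F1 z + 4 ^ N * s.β z + s.U z / N + 1,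
    fun z => s.F2 z + 4 ^ N * s.β z + s.U z / N + 1, s.E, fun z => s.M1 z + s.A z, s.M2, s.M3,
    hA.smb, hA.ob, hPKD N κ s hN hκ hκ1 hA hB hCC hE, ?_, ?_⟩
  · intro w hw
    have h1 := hD w hw
    have h2 : ∫ z, ζ1 z * (s.F2 z * SS 0 w z + s.F1 z * SS 1 w z) ≤ C1 := by
      apply hC1 s.Φ s.F1 s.F2 (N * κ) hA.smΦ hA.xΦ hA.smF1 hA.smF2 hNκ0 (by linarith) ?_ ?_ w hw
      · intro z hz
        have hz4 : ‖z‖ ≤ 4 := by linarith
        have e0 := hCC.phi1 z hz4 0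
        have e1 := hCC.phi1 z hz4 1
        rw [PKA_.d0q] at e0
        rw [PKA_.d1q] at e1
        have b0 := PKA_.x0le z
        have b1 := PKA_.x1le z
        constructor
        · have : |d 0 s.Φ z| ≤ |d 0 s.Φ z - z.1.1| + |z.1.1| := by
            have := abs_add_le (d 0 s.Φ z - z.1.1) z.1.1
            rwa [sub_add_cancel] at this
          linarith
        · have : |d 1 s.Φ z| ≤ |d 1 s.Φ z - z.1.2| + |z.1.2| := by
            have := abs_add_le (d 1 s.Φ z - z.1.2) z.1.2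
            rwa [sub_add_cancel] at this
          linarith
      · intro z hz a b
        have hz4 : ‖z‖ ≤ 4 := by linarith
        have e0 := hCC.phi z hz4 a b
        have hb := hA.nβ z
        have e1 : 0 ≤ 4 ^ N * s.β z * a ^ 2 := by positivity
        have e2 : 0 ≤ 4 ^ N * s.β z * b ^ 2 := by positivity
        linarith
    calc |∫ z, s.b z * T12 w z| ≤
        16 * (∫ z, ζ1 z * (s.F2 z * SS 0 w z + s.F1 z * SS 1 w z)) + N * κ := h1
      _ ≤ 16 * C1 + 1 := by linarith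
  · have hpay := hP.pay
    have hsq : (0 : ℝ) < Real.sqrt N := Real.sqrt_pos.2 hN0
    have hsq1 : 1 ≤ Real.sqrt N := by
      rw [Real.one_le_sqrt]
      linarith
    have hss : Real.sqrt N * Real.sqrt N = N := Real.mul_self_sqrt hN0.le
    have h3 : N * ((1 - 1 / (N : ℝ)) ^ (2 * N) * I / 2 - N * κ) / Real.sqrt N =
        Real.sqrt N * ((1 - 1 / (N : ℝ)) ^ (2 * N) * I / 2 - N * κ) := by
      rw [div_eq_iff hsq.ne']
      calc N * ((1 - 1 / (N : ℝ)) ^ (2 * N) * I / 2 - N * κ)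
          = (Real.sqrt N * Real.sqrt N) * ((1 - 1 / (N : ℝ)) ^ (2 * N) * I / 2 - N * κ) := by
            rw [hss]
        _ = _ := by ring
    rw [h3] at hpay
    have h4 := PKA_.powlow hN
    have h5 : c1 ≤ (1 - 1 / (N : ℝ)) ^ (2 * N) * I / 2 := by
      rw [hc1def]
      gcongr
    have h6 : Real.sqrt N * (c1 - c1 / 4) ≤
        Real.sqrt N * ((1 - 1 / (N : ℝ)) ^ (2 * N) * I / 2 - N * κ) := by
      apply mul_le_mul_of_nonneg_left _ hsq.le
      linarith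
    have hcsb : HasCompactSupport s.b := hcs_of hA.ob
    have i1 : Integrable fun z => s.b z * s.M2 z :=
      int_of (hA.smb.cont.mul hA.smM2.cont) hcsb.mul_right
    have i2 : Integrable fun z => s.b z * d 0 (d 2 s.E) z :=
      int_of (hA.smb.cont.mul ((hA.smE.d 2).d 0).cont) hcsb.mul_right
    have h7 : |∫ z, s.b z * (d 0 (d 2 s.E) z - s.M2 z)| ≤ 4 ^ N * (N * κ) * PKA_.vb := by
      apply PKA_.int_small
      · intro z hz
        rw [hA.ob z hz, zero_mul]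
      · intro z hz
        rw [abs_mul]
        exact mul_le_mul (hA.bb z) (hE.e02 z (by linarith)) (abs_nonneg _) (by positivity)
    have h8 : ∫ z, s.b z * (d 0 (d 2 s.E) z - s.M2 z) =
        (∫ z, s.b z * d 0 (d 2 s.E) z) - ∫ z, s.b z * s.M2 z := by
      rw [← integral_sub i2 i1]
      congr 1
      funext z
      ring
    rw [h8] at h7
    have h9 := (abs_le.1 h7).1
    have h10 : 4 ^ N * (N * κ) * PKA_.vb = N * κ * (4 ^ N * PKA_.vb) := by ring
    rw [h10] at h9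
    have h11 : c1 / 4 ≤ Real.sqrt N * (c1 / 4) := by
      nlinarith
    nlinarith

end Pool.Agent.GNS
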