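import Pool.Agent.GNS.T2

/-!
# GNS: the target PKD (from a final state to the data of `Dom`)
-/

set_option autoImplicit false

open Metric Set Filter Topology MeasureTheory

noncomputable section

namespace Pool.Agent.GNS

theorem PKD_smx : Sm fun z : V => z.1.1 := by
  unfold Sm
  fun_prop

theorem PKD_smy : Sm fun z : V => z.1.2 := by
  unfold Sm
  fun_prop

theorem PKD_q1 : q1 = fun z : V => 1 / 2 * (z.1.1 * z.1.1 + z.1.2 * z.1.2) := by
  funext z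
  unfold q1
  ring

theorem PKD_smq : Sm q1 := by
  rw [PKD_q1]
  exact ((PKD_smx.mul PKD_smx).add (PKD_smy.mul PKD_smy)).cmul _

theorem PKD_dx (i : Fin 4) (z : V) : d i (fun z : V => z.1.1) z = (e i).1.1 := by
  unfold d
  have h : HasFDerivAt (fun z : V => z.1.1)
      ((ContinuousLinearMap.fst ℝ ℝ ℝ).comp (ContinuousLinearMap.fst ℝ X2 X2)) z :=
    ((ContinuousLinearMap.fst ℝ ℝ ℝ).comp (ContinuousLinearMap.fst ℝ X2 X2)).hasFDerivAt
  rw [h.fderiv]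
  rfl

theorem PKD_dy (i : Fin 4) (z : V) : d i (fun z : V => z.1.2) z = (e i).1.2 := by
  unfold d
  have h : HasFDerivAt (fun z : V => z.1.2)
      ((ContinuousLinearMap.snd ℝ ℝ ℝ).comp (ContinuousLinearMap.fst ℝ X2 X2)) z :=
    ((ContinuousLinearMap.snd ℝ ℝ ℝ).comp (ContinuousLinearMap.fst ℝ X2 X2)).hasFDerivAt
  rw [h.fderiv]
  rfl

theorem PKD_dq (i : Fin 4) :
    d i q1 = fun z : V => z.1.1 * (e i).1.1 + z.1.2 * (e i).1.2 := by
  funext z
  rw [PKD_q1, d_cmul ((PKD_smx.mul PKD_smx).add (PKD_smy.mul PKD_smy)),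
    d_add (PKD_smx.mul PKD_smx) (PKD_smy.mul PKD_smy), d_mul PKD_smx PKD_smx,
    d_mul PKD_smy PKD_smy, PKD_dx, PKD_dy]
  ring

theorem PKD_ddq (i k : Fin 4) (z : V) :
    d k (d i q1) z = (e k).1.1 * (e i).1.1 + (e k).1.2 * (e i).1.2 := by
  rw [PKD_dq, d_add (PKD_smx.mul (Sm.const _)) (PKD_smy.mul (Sm.const _)),
    d_mul PKD_smx (Sm.const _), d_mul PKD_smy (Sm.const _), PKD_dx, PKD_dy, d_const, d_const]
  ring

theorem PKD_d (s : Stt) (h1 : Sm s.Φ) (h2 : Sm s.Ξ) (i : Fin 4) :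
    d i (fun z => s.Φ z - q1 z + s.Ξ z) = fun z => d i s.Φ z - d i q1 z + d i s.Ξ z := by
  funext z
  rw [d_add (h1.sub PKD_smq) h2, d_sub h1 PKD_smq]

theorem PKD_dd (s : Stt) (h1 : Sm s.Φ) (h2 : Sm s.Ξ) (i k : Fin 4) (z : V) :
    d k (d i (fun z => s.Φ z - q1 z + s.Ξ z)) z =
      d k (d i s.Φ) z - d k (d i q1) z + d k (d i s.Ξ) z := by
  rw [PKD_d s h1 h2, d_add ((h1.d i).sub (PKD_smq.d i)) (h2.d i),
    d_sub (h1.d i) (PKD_smq.d i)]

/-- the bound for `M2` -/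
theorem PKD_m2 {N : ℕ} (hN : 3 ≤ N) {U F1 F2 B m : ℝ} (hU : 0 ≤ U) (hF1 : 0 ≤ F1)
    (hF2 : 0 ≤ F2) (hB : 0 ≤ B) (hm : |m| ≤ U / Real.sqrt N)
    (hb : U ≤ 2 * (F1 + F2) + B / 2) :
    |m| ≤ 15 * Real.sqrt ((F1 + B + U / N + 1) * (F2 + B + U / N + 1)) := by
  have hN0 : (0 : ℝ) < N := by exact_mod_cast (by omega : 0 < N)
  have hu : 0 ≤ U / N := by positivity
  have h1 : U / N * (U / 2) ≤ (F1 + B + U / N + 1) * (F2 + B + U / N + 1) := by
    have h2 : U / N * (U / 2) ≤ U / N * (F1 + F2 + 2 * B) :=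
      mul_le_mul_of_nonneg_left (by linarith) hu
    have h3 : 0 ≤ F1 * F2 := mul_nonneg hF1 hF2
    have h4 : 0 ≤ F1 * B := mul_nonneg hF1 hB
    have h5 : 0 ≤ F2 * B := mul_nonneg hF2 hB
    have h6 : 0 ≤ B * B := mul_nonneg hB hB
    have h7 : 0 ≤ U / N * (U / N) := mul_nonneg hu hu
    nlinarith
  have h8 : (U / Real.sqrt N) ^ 2 ≤
      (15 * Real.sqrt ((F1 + B + U / N + 1) * (F2 + B + U / N + 1))) ^ 2 := by
    have h9 : 0 ≤ (F1 + B + U / N + 1) * (F2 + B + U / N + 1) := by positivity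
    rw [mul_pow, Real.sq_sqrt h9, div_pow, Real.sq_sqrt hN0.le]
    have h10 : U ^ 2 / N = 2 * (U / N * (U / 2)) := by ring
    rw [h10]
    nlinarith
  exact hm.trans (le_of_sq_le_sq h8 (by positivity))

/-- the bound for `M3` -/
theorem PKD_m3 {N : ℕ} (hN : 3 ≤ N) {U F2 B m : ℝ} (hU : 0 ≤ U)
    (hF2 : 0 ≤ F2) (hB : 0 ≤ B) (hm : m ^ 2 ≤ 3 * U / N) :
    |m| ≤ 15 * Real.sqrt (F2 + B + U / N + 1) := by
  have hN0 : (0 : ℝ) < N := by exact_mod_cast (by omega : 0 < N)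
  have hu : 0 ≤ U / N := by positivity
  have h9 : 0 ≤ F2 + B + U / N + 1 := by positivity
  refine abs_le_of_sq_le_sq ?_ (by positivity)
  rw [mul_pow, Real.sq_sqrt h9]
  have h10 : 3 * U / N = 3 * (U / N) := by ring
  rw [h10] at hm
  nlinarith

/-- the bound for `M1` -/
theorem PKD_m1 {N : ℕ} (hN : 3 ≤ N) {U F1 F2 β m a : ℝ} (hU : 0 ≤ U) (hF1 : 0 ≤ F1)
    (hF2 : 0 ≤ F2) (hβ : 0 ≤ β) (hβ1 : β ≤ 1) (hm : |m| ≤ 12 * F1 * Real.sqrt U / Real.sqrt N)
    (ha : |a| ≤ 3 * 8 ^ N * β ^ 2 / Real.sqrt N) :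
    |m + a| ≤ 15 * (F1 + 4 ^ N * β + U / N + 1) *
      Real.sqrt (F2 + 4 ^ N * β + U / N + 1) := by
  have hN0 : (0 : ℝ) < N := by exact_mod_cast (by omega : 0 < N)
  have hN1 : (1 : ℝ) ≤ N := by exact_mod_cast (by omega : 1 ≤ N)
  have hs1 : 1 ≤ Real.sqrt N := Real.one_le_sqrt.2 hN1
  have hu : 0 ≤ U / N := by positivity
  have hB : 0 ≤ 4 ^ N * β := by positivity
  set r : ℝ := Real.sqrt (F2 + 4 ^ N * β + U / N + 1) with hr
  have hr0 : 0 ≤ r := Real.sqrt_nonneg _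
  have h1 : 12 * F1 * Real.sqrt U / Real.sqrt N ≤ 12 * (F1 + 4 ^ N * β + U / N + 1) * r := by
    have h2 : 12 * F1 * Real.sqrt U / Real.sqrt N = 12 * F1 * Real.sqrt (U / N) := by
      rw [Real.sqrt_div' U hN0.le]
      ring
    rw [h2]
    refine mul_le_mul (by linarith) (Real.sqrt_le_sqrt (by linarith)) (Real.sqrt_nonneg _)
      (by positivity)
  have h3 : 3 * 8 ^ N * β ^ 2 / Real.sqrt N ≤ 3 * (F1 + 4 ^ N * β + U / N + 1) * r := by
    have h4 : 3 * 8 ^ N * β ^ 2 / Real.sqrt N ≤ 3 * 8 ^ N * β ^ 2 :=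
      div_le_self (by positivity) hs1
    have h5 : (3 : ℝ) * 8 ^ N * β ^ 2 = 3 * (4 ^ N * β) * (2 ^ N * β) := by
      have : (8 : ℝ) ^ N = 4 ^ N * 2 ^ N := by rw [← mul_pow]; norm_num
      rw [this]
      ring
    have h6 : 2 ^ N * β ≤ r := by
      refine (le_abs_self _).trans (Real.abs_le_sqrt ?_)
      have h7 : (2 ^ N * β) ^ 2 = 4 ^ N * β ^ 2 := by
        rw [mul_pow, ← pow_mul, mul_comm N 2, pow_mul]
        norm_num
      have h8 : β ^ 2 ≤ β := by nlinarith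
      have h9 : (4 : ℝ) ^ N * β ^ 2 ≤ 4 ^ N * β := mul_le_mul_of_nonneg_left h8 (by positivity)
      rw [h7]
      linarith
    refine h4.trans (h5.le.trans ?_)
    refine mul_le_mul (by linarith) h6 (by positivity) (by positivity)
  calc |m + a| ≤ |m| + |a| := abs_add_le _ _
    _ ≤ 12 * (F1 + 4 ^ N * β + U / N + 1) * r + 3 * (F1 + 4 ^ N * β + U / N + 1) * r :=
      add_le_add (hm.trans h1) (ha.trans h3)
    _ = _ := by ring

theorem p_PKD : T_PKD := by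
  intro N κ s hN hκ hNκ hA hB hC hE
  have hN0 : (0 : ℝ) < N := by exact_mod_cast (by omega : 0 < N)
  have hnu : ∀ z, 0 ≤ s.U z / N := fun z => div_nonneg (hA.nU z) hN0.le
  have hnb : ∀ z, 0 ≤ 4 ^ N * s.β z := fun z => mul_nonneg (by positivity) (hA.nβ z)
  have hxx : (N : ℝ) * (N * κ) / N = N * κ := by field_simp
  have hsmU : Sm fun z => s.U z / N := by
    have := hA.smU.cmul (1 / (N : ℝ))
    have h2 : (fun z => s.U z / N) = fun z => 1 / (N : ℝ) * s.U z := by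
      funext z
      ring
    rw [h2]
    exact this
  refine
    { smG := (hA.smΦ.sub PKD_smq).add hA.smΞ
      smd1 := ((hA.smF1.add (hA.smβ.cmul _)).add hsmU).add (Sm.const 1)
      smd2 := ((hA.smF2.add (hA.smβ.cmul _)).add hsmU).add (Sm.const 1)
      smE := hA.smE
      smM1 := hA.smM1.add hA.smA
      smM2 := hA.smM2
      smM3 := hA.smM3
      xG := ?_
      one1 := fun z => ?_
      one2 := fun z => ?_
      bG := fun z hz => ?_
      bG1 := fun z hz i => ?_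
      hG := fun z hz a b => ?_
      bE := fun z hz => (hE.e0 z hz).trans (by linarith)
      bE1 := fun z hz i => (hE.e1 z hz i).trans (by linarith)
      e00 := fun z hz => (hE.e00 z hz).trans (by linarith)
      e02 := fun z hz => (hE.e02 z hz).trans (by linarith)
      e22 := fun z hz => (hE.e22 z hz).trans (by linarith)
      eo := fun z hz i k h => (hE.eo z hz i k h).trans (by linarith)
      bM1 := fun z => ?_
      bM2 := fun z => ?_
      bM3 := fun z => ?_ }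
  · intro z z' hzz
    show s.Φ z - q1 z + s.Ξ z = s.Φ z' - q1 z' + s.Ξ z'
    rw [hA.xΦ z z' hzz, hA.xΞ z z' hzz]
    unfold q1
    rw [hzz]
  · have h1 := hA.nF1 z
    have h2 := hnu z
    have h3 := hnb z
    linarith
  · have h1 := hA.nF2 z
    have h2 := hnu z
    have h3 := hnb z
    linarith
  · have h1 := hC.phi0 z hz
    have h2 := hC.xi0 z hz
    rw [hxx] at h2
    exact (abs_add_le _ _).trans (by linarith)
  · have h1 := hC.phi1 z hz i
    have h2 := hC.xi1 z hz i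
    rw [hxx] at h2
    rw [PKD_d s hA.smΦ hA.smΞ i]
    exact (abs_add_le _ _).trans (by linarith)
  · have h1 := hC.phi z hz a b
    have h2 := hC.xi z hz a b
    rw [PKD_dd s hA.smΦ hA.smΞ, PKD_dd s hA.smΦ hA.smΞ, PKD_dd s hA.smΦ hA.smΞ, PKD_ddq,
      PKD_ddq, PKD_ddq]
    have e0 : e 0 = ((1, 0), (0, 0)) := rfl
    have e1 : e 1 = ((0, 1), (0, 0)) := rfl
    rw [e0, e1]
    have h3 : (N : ℝ) * (1 + N * κ) / N = 1 + N * κ := by field_simp
    rw [h3] at h2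
    have h4 : 0 ≤ (1 / 4 - N * κ) * (a ^ 2 + b ^ 2) :=
      mul_nonneg (by linarith) (by positivity)
    have h5 : 0 ≤ a ^ 2 + b ^ 2 := by positivity
    dsimp only
    nlinarith
  · exact PKD_m1 hN (hA.nU z) (hA.nF1 z) (hA.nF2 z) (hA.nβ z) (hA.lβ z) (hB.bM1 z) (hB.bA z)
  · refine PKD_m2 hN (hA.nU z) (hA.nF1 z) (hA.nF2 z) (hnb z) (hB.bM2 z) ?_
    have := hB.bU z
    linarith
  · exact PKD_m3 hN (hA.nU z) (hA.nF2 z) (hnb z) (hB.bM3' z)

end Pool.Agent.GNS
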