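import Pool.Agent.GNS.T2

/-!
# GNS: proof of PRF (profiles exist)
-/

set_option autoImplicit false

open Metric Set Filter Topology MeasureTheory

noncomputable section

namespace Pool.Agent.GNS

namespace PRF_

/-- smooth functions of one variable -/
abbrev S1 (f : ℝ → ℝ) : Prop := ContDiff ℝ ((⊤ : ℕ∞) : WithTop ℕ∞) f

/-- a periodic continuous function is bounded -/
theorem bdd {f : ℝ → ℝ} (hf : Continuous f) (hp : Function.Periodic f 1) :
    ∃ C, ∀ t, |f t| ≤ C := by
  obtain ⟨C, hC⟩ := isCompact_Icc.exists_bound_of_continuousOn (s := Icc (0 : ℝ) 1)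
    (f := f) hf.continuousOn
  refine ⟨C, fun t => ?_⟩
  obtain ⟨y, hy, hxy⟩ := hp.exists_mem_Ico₀ one_pos t
  rw [hxy]
  exact hC y ⟨hy.1, hy.2.le⟩

/-- the primitive -/
theorem prim_smooth {f : ℝ → ℝ} (hf : S1 f) (c : ℝ) :
    S1 (fun t => (∫ s in (0 : ℝ)..t, f s) - c) ∧
      ∀ t, deriv (fun t => (∫ s in (0 : ℝ)..t, f s) - c) t = f t := by
  have hd : ∀ t, HasDerivAt (fun t => (∫ s in (0 : ℝ)..t, f s) - c) (f t) t := by
    intro t
    have := (hf.continuous.integral_hasStrictDerivAt 0 t).hasDerivAt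
    exact this.sub_const c
  have hdd : deriv (fun t => (∫ s in (0 : ℝ)..t, f s) - c) = f := funext fun t => (hd t).deriv
  refine ⟨?_, fun t => by rw [hdd]⟩
  unfold S1
  rw [contDiff_infty_iff_deriv]
  exact ⟨fun t => (hd t).differentiableAt, by rw [hdd]; exact hf⟩

/-- a smooth periodic function with mean `0` has a smooth periodic primitive with mean `0` -/
theorem prim {f : ℝ → ℝ} (hf : S1 f) (hp : Function.Periodic f 1)
    (hm : ∫ t in (0 : ℝ)..1, f t = 0) :
    ∃ F : ℝ → ℝ, S1 F ∧ Function.Periodic F 1 ∧ (∫ t in (0 : ℝ)..1, F t) = 0 ∧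
      ∀ t, deriv F t = f t := by
  set c : ℝ := ∫ t in (0 : ℝ)..1, ∫ s in (0 : ℝ)..t, f s with hc
  obtain ⟨h1, h2⟩ := prim_smooth hf c
  have hii : ∀ a b : ℝ, IntervalIntegrable f volume a b := fun a b =>
    hf.continuous.intervalIntegrable a b
  refine ⟨fun t => (∫ s in (0 : ℝ)..t, f s) - c, h1, ?_, ?_, h2⟩
  · intro t
    have h3 : (∫ s in (0 : ℝ)..(t + 1), f s) =
        (∫ s in (0 : ℝ)..t, f s) + ∫ s in t..(t + 1), f s :=
      (intervalIntegral.integral_add_adjacent_intervals (hii 0 t) (hii t (t + 1))).symm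
    have h4 : (∫ s in t..(t + 1), f s) = ∫ s in (0 : ℝ)..(0 + 1), f s :=
      hp.intervalIntegral_add_eq t 0
    simp only [h3, h4, zero_add, hm, add_zero]
  · have hcont : Continuous fun t : ℝ => ∫ s in (0 : ℝ)..t, f s :=
      intervalIntegral.continuous_primitive hii 0
    rw [intervalIntegral.integral_sub (hcont.intervalIntegrable 0 1)
      (continuous_const.intervalIntegrable 0 1)]
    simp [hc]

/-- the second primitive -/
theorem prim2 {f : ℝ → ℝ} (hf : S1 f) (hp : Function.Periodic f 1)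
    (hm : ∫ t in (0 : ℝ)..1, f t = 0) :
    ∃ (σ : ℝ → ℝ) (C : ℝ), S1 σ ∧ (∀ t, deriv (deriv σ) t = f t) ∧
      ∀ t, |σ t| ≤ C ∧ |deriv σ t| ≤ C := by
  obtain ⟨F, hF, hFp, hFm, hFd⟩ := prim hf hp hm
  obtain ⟨G, hG, hGp, -, hGd⟩ := prim hF hFp hFm
  obtain ⟨C1, hC1⟩ := bdd hF.continuous hFp
  obtain ⟨C2, hC2⟩ := bdd hG.continuous hGp
  have hdG : deriv G = F := funext hGd
  refine ⟨G, max C1 C2, hG, fun t => by rw [hdG, hFd], fun t => ⟨?_, ?_⟩⟩
  · exact (hC2 t).trans (le_max_right _ _)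
  · rw [hdG]
    exact (hC1 t).trans (le_max_left _ _)

/-- the profile -/
def th (M : ℝ) (t : ℝ) : ℝ :=
  Real.smoothTransition (M * (Real.cos (2 * Real.pi * t) - Real.cos (Real.pi / 4)))

theorem th_smooth (M : ℝ) : S1 (th M) := by
  unfold S1 th
  apply Real.smoothTransition.contDiff.comp
  fun_prop

theorem th_nn (M t : ℝ) : 0 ≤ th M t := Real.smoothTransition.nonneg _

theorem th_le (M t : ℝ) : th M t ≤ 1 := Real.smoothTransition.le_one _

theorem th_per (M : ℝ) : Function.Periodic (th M) 1 := by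
  intro t
  unfold th
  have : 2 * Real.pi * (t + 1) = 2 * Real.pi * t + 2 * Real.pi := by ring
  rw [this, Real.cos_add_two_pi]

/-- cosines of small arguments -/
theorem cos_lt {t δ : ℝ} (ht : |t| ≤ δ) (hδ : δ ≤ 1 / 2) :
    Real.cos (2 * Real.pi * δ) ≤ Real.cos (2 * Real.pi * t) := by
  rw [← Real.cos_abs (2 * Real.pi * t)]
  have hpi := Real.pi_pos
  apply Real.cos_le_cos_of_nonneg_of_le_pi (abs_nonneg _)
  · nlinarith
  · rw [abs_mul, abs_of_pos (by positivity : (0 : ℝ) < 2 * Real.pi)]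
    nlinarith

theorem th_zero {M : ℝ} (hM : 0 ≤ M) {t : ℝ} (h1 : 1 / 8 ≤ |t|) (h2 : |t| ≤ 1 / 2) :
    th M t = 0 := by
  unfold th
  apply Real.smoothTransition.zero_of_nonpos
  have hpi := Real.pi_pos
  have h3 : Real.cos (2 * Real.pi * t) ≤ Real.cos (Real.pi / 4) := by
    rw [← Real.cos_abs (2 * Real.pi * t), abs_mul,
      abs_of_pos (by positivity : (0 : ℝ) < 2 * Real.pi)]
    apply Real.cos_le_cos_of_nonneg_of_le_pi (by positivity)
    · nlinarith
    · nlinarith
  nlinarith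

theorem th_one {δ : ℝ} (hδ : 0 < δ) (hδ' : δ < 1 / 8) {t : ℝ} (h1 : |t| ≤ 1 / 8 - δ) :
    th (1 / (Real.cos (2 * Real.pi * (1 / 8 - δ)) - Real.cos (Real.pi / 4))) t = 1 := by
  unfold th
  apply Real.smoothTransition.one_of_one_le
  have hpi := Real.pi_pos
  have h2 : Real.cos (Real.pi / 4) < Real.cos (2 * Real.pi * (1 / 8 - δ)) := by
    apply Real.cos_lt_cos_of_nonneg_of_le_pi
    · have : 0 ≤ 1 / 8 - δ := by linarith
      positivity
    · linarith
    · nlinarith
  have h3 := cos_lt h1 (by linarith)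
  rw [div_mul_eq_mul_div, one_mul, le_div_iff₀ (by linarith)]
  linarith

/-- the integral of powers -/
theorem int_pow {δ : ℝ} (hδ : 0 < δ) (hδ' : δ < 1 / 8) (n : ℕ) (hn : n ≠ 0) {M : ℝ}
    (hM : M = 1 / (Real.cos (2 * Real.pi * (1 / 8 - δ)) - Real.cos (Real.pi / 4))) :
    1 / 4 - 2 * δ ≤ ∫ t in (0 : ℝ)..1, th M t ^ n ∧ ∫ t in (0 : ℝ)..1, th M t ^ n ≤ 1 / 4 := by
  have hpi := Real.pi_pos
  have h2 : Real.cos (Real.pi / 4) < Real.cos (2 * Real.pi * (1 / 8 - δ)) := by
    apply Real.cos_lt_cos_of_nonneg_of_le_pi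
    · have : 0 ≤ 1 / 8 - δ := by linarith
      positivity
    · linarith
    · nlinarith
  have hM0 : 0 ≤ M := by
    rw [hM]
    have : 0 < Real.cos (2 * Real.pi * (1 / 8 - δ)) - Real.cos (Real.pi / 4) := by linarith
    positivity
  have hcont : Continuous fun t => th M t ^ n := (th_smooth M).continuous.pow n
  have hii : ∀ a b : ℝ, IntervalIntegrable (fun t => th M t ^ n) volume a b := fun a b =>
    hcont.intervalIntegrable a b
  have hper : Function.Periodic (fun t => th M t ^ n) 1 := by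
    intro t
    simp only [th_per M t]
  have e1 : ∫ t in (0 : ℝ)..1, th M t ^ n = ∫ t in (-(1 / 2) : ℝ)..(1 / 2), th M t ^ n := by
    have := hper.intervalIntegral_add_eq 0 (-(1 / 2))
    rw [zero_add] at this
    rw [this]
    norm_num
  have e2 : ∫ t in (-(1 / 2) : ℝ)..(1 / 2), th M t ^ n =
      (∫ t in (-(1 / 2) : ℝ)..(-(1 / 8)), th M t ^ n) +
        (∫ t in (-(1 / 8) : ℝ)..(1 / 8), th M t ^ n) +
        ∫ t in (1 / 8 : ℝ)..(1 / 2), th M t ^ n := by
    rw [intervalIntegral.integral_add_adjacent_intervals (hii _ _) (hii _ _),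
      intervalIntegral.integral_add_adjacent_intervals (hii _ _) (hii _ _)]
  have e3 : ∫ t in (-(1 / 2) : ℝ)..(-(1 / 8)), th M t ^ n = 0 := by
    have : ∫ t in (-(1 / 2) : ℝ)..(-(1 / 8)), th M t ^ n =
        ∫ t in (-(1 / 2) : ℝ)..(-(1 / 8)), (0 : ℝ) := by
      apply intervalIntegral.integral_congr
      intro t ht
      rw [uIcc_of_le (by norm_num)] at ht
      have ht1 : t ≤ -(1 / 8) := ht.2
      have ht2 : -(1 / 2) ≤ t := ht.1
      have h5 : |t| = -t := abs_of_nonpos (by linarith)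
      simp only
      rw [th_zero hM0 (by rw [h5]; linarith) (by rw [h5]; linarith), zero_pow hn]
    rw [this]
    simp
  have e4 : ∫ t in (1 / 8 : ℝ)..(1 / 2), th M t ^ n = 0 := by
    have : ∫ t in (1 / 8 : ℝ)..(1 / 2), th M t ^ n =
        ∫ t in (1 / 8 : ℝ)..(1 / 2), (0 : ℝ) := by
      apply intervalIntegral.integral_congr
      intro t ht
      rw [uIcc_of_le (by norm_num)] at ht
      have ht1 : t ≤ 1 / 2 := ht.2
      have ht2 : 1 / 8 ≤ t := ht.1
      have h5 : |t| = t := abs_of_nonneg (by linarith)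
      simp only
      rw [th_zero hM0 (by rw [h5]; linarith) (by rw [h5]; linarith), zero_pow hn]
    rw [this]
    simp
  have e5 : ∫ t in (0 : ℝ)..1, th M t ^ n = ∫ t in (-(1 / 8) : ℝ)..(1 / 8), th M t ^ n := by
    rw [e1, e2, e3, e4]
    ring
  have hpn : ∀ t, 0 ≤ th M t ^ n := fun t => pow_nonneg (th_nn M t) n
  constructor
  · rw [e5]
    have h6 : ∫ t in (-(1 / 8) : ℝ)..(1 / 8), th M t ^ n =
        (∫ t in (-(1 / 8) : ℝ)..(-(1 / 8 - δ)), th M t ^ n) +
        (∫ t in (-(1 / 8 - δ))..(1 / 8 - δ), th M t ^ n) +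
        ∫ t in (1 / 8 - δ)..(1 / 8), th M t ^ n := by
      rw [intervalIntegral.integral_add_adjacent_intervals (hii _ _) (hii _ _),
        intervalIntegral.integral_add_adjacent_intervals (hii _ _) (hii _ _)]
    have h7 : 0 ≤ ∫ t in (-(1 / 8) : ℝ)..(-(1 / 8 - δ)), th M t ^ n :=
      intervalIntegral.integral_nonneg (by linarith) fun t _ => hpn t
    have h8 : 0 ≤ ∫ t in (1 / 8 - δ)..(1 / 8), th M t ^ n :=
      intervalIntegral.integral_nonneg (by linarith) fun t _ => hpn t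
    have h9 : ∫ t in (-(1 / 8 - δ))..(1 / 8 - δ), th M t ^ n =
        ∫ t in (-(1 / 8 - δ))..(1 / 8 - δ), (1 : ℝ) := by
      apply intervalIntegral.integral_congr
      intro t ht
      rw [uIcc_of_le (by linarith)] at ht
      have ht1 : |t| ≤ 1 / 8 - δ := abs_le.2 ⟨ht.1, ht.2⟩
      simp only
      rw [hM, th_one hδ hδ' ht1, one_pow]
    rw [intervalIntegral.integral_const, smul_eq_mul, mul_one] at h9
    rw [h6, h9]
    linarith
  · rw [e5]
    have h10 : ∫ t in (-(1 / 8) : ℝ)..(1 / 8), th M t ^ n ≤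
        ∫ t in (-(1 / 8) : ℝ)..(1 / 8), (1 : ℝ) := by
      apply intervalIntegral.integral_mono_on (by norm_num) (hii _ _)
        (continuous_const.intervalIntegrable _ _)
      intro t _
      exact pow_le_one₀ (th_nn M t) (th_le M t)
    rw [intervalIntegral.integral_const, smul_eq_mul, mul_one] at h10
    linarith

end PRF_

open PRF_ in
theorem p_PRF : T_PRF := by
  intro N hN
  have hNR : (3 : ℝ) ≤ N := by exact_mod_cast hN
  have hN0 : (0 : ℝ) < N := by linarith
  set δ : ℝ := 1 / (8 * N) with hδdef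
  have hδ : 0 < δ := by positivity
  have hδN : 8 * δ = 1 / N := by
    rw [hδdef]
    field_simp
  have hN3 : 1 / (N : ℝ) ≤ 1 / 3 := one_div_le_one_div_of_le (by norm_num) hNR
  have hδ' : δ < 1 / 8 := by linarith
  set M : ℝ := 1 / (Real.cos (2 * Real.pi * (1 / 8 - δ)) - Real.cos (Real.pi / 4)) with hM
  obtain ⟨a1, b1⟩ := int_pow hδ hδ' 1 one_ne_zero hM
  obtain ⟨a2, b2⟩ := int_pow hδ hδ' 2 two_ne_zero hM
  obtain ⟨a3, b3⟩ := int_pow hδ hδ' 3 three_ne_zero hM
  set I1 : ℝ := ∫ t in (0 : ℝ)..1, th M t ^ 1 with hI1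
  set I2 : ℝ := ∫ t in (0 : ℝ)..1, th M t ^ 2 with hI2
  set I3 : ℝ := ∫ t in (0 : ℝ)..1, th M t ^ 3 with hI3
  have hcont : ∀ n : ℕ, Continuous fun t => th M t ^ n := fun n =>
    (th_smooth M).continuous.pow n
  have hI2pos : 0 < I2 := by linarith
  have s1 : S1 fun t => 4 * th M t + (1 - 4 * I1) - 1 :=
    ((contDiff_const.mul (th_smooth M)).add contDiff_const).sub contDiff_const
  have s2 : S1 fun t => th M t ^ 2 / I2 - 1 :=
    (((th_smooth M).pow 2).div_const I2).sub contDiff_const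
  have s3 : S1 fun t => th M t ^ 3 - I3 := ((th_smooth M).pow 3).sub contDiff_const
  have p1 : Function.Periodic (fun t => 4 * th M t + (1 - 4 * I1) - 1) 1 := by
    intro t
    simp only [th_per M t]
  have p2 : Function.Periodic (fun t => th M t ^ 2 / I2 - 1) 1 := by
    intro t
    simp only [th_per M t]
  have p3 : Function.Periodic (fun t => th M t ^ 3 - I3) 1 := by
    intro t
    simp only [th_per M t]
  have m1 : ∫ t in (0 : ℝ)..1, (4 * th M t + (1 - 4 * I1) - 1) = 0 := by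
    have h1 : (fun t => 4 * th M t + (1 - 4 * I1) - 1) =
        fun t => 4 * th M t ^ 1 - 4 * I1 := by
      funext t
      ring
    have h2 : IntervalIntegrable (fun t => 4 * th M t ^ 1) volume 0 1 :=
      Continuous.intervalIntegrable (continuous_const.mul (hcont 1)) 0 1
    rw [h1, intervalIntegral.integral_sub h2
      (continuous_const.intervalIntegrable 0 1), intervalIntegral.integral_const_mul, ← hI1]
    simp
  have m2 : ∫ t in (0 : ℝ)..1, (th M t ^ 2 / I2 - 1) = 0 := by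
    rw [intervalIntegral.integral_sub (((hcont 2).div_const I2).intervalIntegrable 0 1)
      (continuous_const.intervalIntegrable 0 1), intervalIntegral.integral_div, ← hI2,
      div_self hI2pos.ne']
    simp
  have m3 : ∫ t in (0 : ℝ)..1, (th M t ^ 3 - I3) = 0 := by
    rw [intervalIntegral.integral_sub ((hcont 3).intervalIntegrable 0 1)
      (continuous_const.intervalIntegrable 0 1), ← hI3]
    simp
  obtain ⟨σ, C1, hσ, hσd, hσb⟩ := prim2 s1 p1 m1
  obtain ⟨σ2, C2, hσ2, hσ2d, hσ2b⟩ := prim2 s2 p2 m2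
  obtain ⟨q, hq, hqp, -, hqd⟩ := prim s3 p3 m3
  obtain ⟨C3, hC3⟩ := bdd hq.continuous hqp
  refine ⟨th M, σ, σ2, q, 1 - 4 * I1, I2, I3, max C1 (max C2 C3), ?_⟩
  have hb1 : C1 ≤ max C1 (max C2 C3) := le_max_left _ _
  have hb2 : C2 ≤ max C1 (max C2 C3) := (le_max_left _ _).trans (le_max_right _ _)
  have hb3 : C3 ≤ max C1 (max C2 C3) := (le_max_right _ _).trans (le_max_right _ _)
  exact
    { smθ := th_smooth M
      smσ := hσ
      smσ2 := hσ2
      smq := hq
      nn := th_nn M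
      le := th_le M
      hσ := hσd
      hσ2 := hσ2d
      hq := hqd
      ϵnn := by linarith
      ϵle := by linarith
      m2lo := by linarith
      m2hi := by linarith
      c3lo := by linarith
      bσ := fun t => ⟨(hσb t).1.trans hb1, (hσb t).2.trans hb1⟩
      bσ2 := fun t => ⟨(hσ2b t).1.trans hb2, (hσ2b t).2.trans hb2⟩
      bq := fun t => (hC3 t).trans hb3 }

end Pool.Agent.GNS
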