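import Pool.Agent.GNS.T3

/-!
# GNS: PRJ, composition with `pr`
-/

set_option autoImplicit false

open Metric Set Filter Topology MeasureTheory

noncomputable section

namespace Pool.Agent.GNS

open Pool.Agent.GLB

/-- the map `pr` as a continuous linear map -/
def PRJ_L (k : ℕ) : E (k + 4) →L[ℝ] V :=
  ((EuclideanSpace.proj (𝕜 := ℝ) (0 : Fin (k + 4))).prod
    (EuclideanSpace.proj (𝕜 := ℝ) (1 : Fin (k + 4)))).prod
  ((EuclideanSpace.proj (𝕜 := ℝ) (2 : Fin (k + 4))).prod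
    (EuclideanSpace.proj (𝕜 := ℝ) (3 : Fin (k + 4))))

theorem PRJ_Lpr {k : ℕ} (x : E (k + 4)) : PRJ_L k x = pr x := rfl

theorem PRJ_coord {k : ℕ} (x : E (k + 4)) (i : Fin (k + 4)) : |x i| ≤ ‖x‖ := by
  have h := EuclideanSpace.norm_eq x
  rw [h]
  apply Real.le_sqrt_of_sq_le
  have h2 : ‖x i‖ ^ 2 ≤ ∑ j, ‖x j‖ ^ 2 :=
    Finset.single_le_sum (f := fun j => ‖x j‖ ^ 2) (fun j _ => sq_nonneg _) (Finset.mem_univ i)
  simpa [Real.norm_eq_abs, sq_abs] using h2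

theorem PRJ_norm {k : ℕ} (x : E (k + 4)) : ‖(pr x : V)‖ ≤ ‖x‖ := by
  unfold pr
  simp only [Prod.norm_def, Real.norm_eq_abs]
  exact max_le (max_le (PRJ_coord x _) (PRJ_coord x _)) (max_le (PRJ_coord x _) (PRJ_coord x _))

theorem PRJ_eb {k : ℕ} (i j : Fin (k + 4)) : (eb i : E (k + 4)) j = if j = i then 1 else 0 := by
  unfold eb
  simp [PiLp.single_apply]

theorem PRJ_ne (k : ℕ) : (0 : Fin (k + 4)) ≠ 1 ∧ (0 : Fin (k + 4)) ≠ 2 ∧ (0 : Fin (k + 4)) ≠ 3 ∧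
    (1 : Fin (k + 4)) ≠ 2 ∧ (1 : Fin (k + 4)) ≠ 3 ∧ (2 : Fin (k + 4)) ≠ 3 := by
  have h0 : ((0 : Fin (k + 4)) : ℕ) = 0 := rfl
  have h1 : ((1 : Fin (k + 4)) : ℕ) = 1 := Nat.mod_eq_of_lt (show 1 < k + 4 by omega)
  have h2 : ((2 : Fin (k + 4)) : ℕ) = 2 := Nat.mod_eq_of_lt (show 2 < k + 4 by omega)
  have h3 : ((3 : Fin (k + 4)) : ℕ) = 3 := Nat.mod_eq_of_lt (show 3 < k + 4 by omega)
  refine ⟨?_, ?_, ?_, ?_, ?_, ?_⟩ <;> intro h <;> have h' := congrArg Fin.val h <;> omega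

theorem PRJ_inj {k : ℕ} (z : V) : (pr (inj (k := k) z) : V) = z := by
  obtain ⟨h01, h02, h03, h12, h13, h23⟩ := PRJ_ne k
  unfold pr inj
  ext <;> simp [PRJ_eb, h01, h02, h03, h12, h13, h23, h01.symm, h02.symm, h03.symm, h12.symm,
    h13.symm, h23.symm]

theorem PRJ_ebn {k : ℕ} (i : Fin (k + 4)) : ‖(eb i : E (k + 4))‖ = 1 := by
  unfold eb
  simp

theorem PRJ_injn {k : ℕ} (z : V) : ‖inj (k := k) z‖ ≤ 2 * ‖z‖ := by
  obtain ⟨h01, h02, h03, h12, h13, h23⟩ := PRJ_ne k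
  have hz : ∀ t : ℝ, |t| ≤ ‖z‖ → t ^ 2 ≤ ‖z‖ ^ 2 := fun t ht => by
    have := pow_le_pow_left₀ (abs_nonneg t) ht 2
    rwa [sq_abs] at this
  have a0 : |z.1.1| ≤ ‖z‖ := (norm_fst_le z.1).trans (norm_fst_le z)
  have a1 : |z.1.2| ≤ ‖z‖ := (norm_snd_le z.1).trans (norm_fst_le z)
  have a2 : |z.2.1| ≤ ‖z‖ := (norm_fst_le z.2).trans (norm_snd_le z)
  have a3 : |z.2.2| ≤ ‖z‖ := (norm_snd_le z.2).trans (norm_snd_le z)
  have hin : ∀ i j : Fin (k + 4), i ≠ j → inner ℝ (eb i : E (k + 4)) (eb j) = 0 := by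
    intro i j hij
    unfold eb
    simp [EuclideanSpace.inner_single_left, hij]
  have hii : ∀ i : Fin (k + 4), inner ℝ (eb i : E (k + 4)) (eb i) = 1 := by
    intro i
    rw [real_inner_self_eq_norm_sq, PRJ_ebn]
    norm_num
  have h : ‖inj (k := k) z‖ ^ 2 = z.1.1 ^ 2 + z.1.2 ^ 2 + z.2.1 ^ 2 + z.2.2 ^ 2 := by
    rw [← real_inner_self_eq_norm_sq]
    unfold inj
    simp only [inner_add_left, inner_add_right, real_inner_smul_left, real_inner_smul_right, hii,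
      hin _ _ h01, hin _ _ h02, hin _ _ h03, hin _ _ h12, hin _ _ h13, hin _ _ h23,
      hin _ _ h01.symm, hin _ _ h02.symm, hin _ _ h03.symm, hin _ _ h12.symm, hin _ _ h13.symm,
      hin _ _ h23.symm]
    ring
  have h2 : ‖inj (k := k) z‖ ^ 2 ≤ (2 * ‖z‖) ^ 2 := by
    rw [h]
    have b0 := hz _ a0
    have b1 := hz _ a1
    have b2 := hz _ a2
    have b3 := hz _ a3
    nlinarith
  exact le_of_sq_le_sq h2 (by positivity)

theorem PRJ_fd {k : ℕ} {f : V → ℝ} (hf : Sm f) (x v : E (k + 4)) :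
    fderiv ℝ (fun x : E (k + 4) => f (pr x)) x v =
      v 0 * d 0 f (pr x) + v 1 * d 1 f (pr x) + v 2 * d 2 f (pr x) + v 3 * d 3 f (pr x) := by
  have h : HasFDerivAt (fun x : E (k + 4) => f (PRJ_L k x))
      ((fderiv ℝ f (PRJ_L k x)).comp (PRJ_L k)) x :=
    (hf.dAt _).hasFDerivAt.comp x (PRJ_L k).hasFDerivAt
  have h1 : fderiv ℝ (fun x : E (k + 4) => f (pr x)) x =
      (fderiv ℝ f (PRJ_L k x)).comp (PRJ_L k) := h.fderiv
  rw [h1, ContinuousLinearMap.comp_apply, fd_eq]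
  rfl

theorem PRJ_sm {k : ℕ} {f : V → ℝ} (hf : Sm f) : SmE (fun x : E (k + 4) => f (pr x)) :=
  ContDiff.comp (g := f) (f := fun x : E (k + 4) => PRJ_L k x) hf (PRJ_L k).contDiff

theorem PRJ_D2 {k : ℕ} {f : V → ℝ} (hf : Sm f) (x v w : E (k + 4)) :
    D2 (fun x : E (k + 4) => f (pr x)) x v w =
      ∑ i : Fin 4, ∑ j : Fin 4, v (Fin.castLE (by omega) i) * w (Fin.castLE (by omega) j) *
        d i (d j f) (pr x) := by
  have hg := PRJ_sm (k := k) hf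
  have h1 : ContDiff ℝ ((⊤ : ℕ∞) : WithTop ℕ∞) (fderiv ℝ (fun x : E (k + 4) => f (pr x))) :=
    ContDiff.fderiv_right hg (by simp)
  have h2 : DifferentiableAt ℝ (fderiv ℝ (fun x : E (k + 4) => f (pr x))) x :=
    (h1.differentiable (by simp)) x
  have h3 : fderiv ℝ (fun y => fderiv ℝ (fun x : E (k + 4) => f (pr x)) y w) x v =
      fderiv ℝ (fderiv ℝ (fun x : E (k + 4) => f (pr x))) x v w := by
    have h4 := (h2.hasFDerivAt.clm_apply (hasFDerivAt_const w x)).fderiv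
    rw [h4]
    simp
  unfold D2
  rw [← h3]
  have h5 : (fun y => fderiv ℝ (fun x : E (k + 4) => f (pr x)) y w) = fun y : E (k + 4) =>
      (fun z : V => w 0 * d 0 f z + w 1 * d 1 f z + w 2 * d 2 f z + w 3 * d 3 f z) (pr y) := by
    funext y
    rw [PRJ_fd hf]
  have hs : Sm fun z : V => w 0 * d 0 f z + w 1 * d 1 f z + w 2 * d 2 f z + w 3 * d 3 f z :=
    ((((hf.d 0).cmul _).add ((hf.d 1).cmul _)).add ((hf.d 2).cmul _)).add ((hf.d 3).cmul _)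
  have hd : ∀ (i : Fin 4) (z : V),
      d i (fun z : V => w 0 * d 0 f z + w 1 * d 1 f z + w 2 * d 2 f z + w 3 * d 3 f z) z =
      w 0 * d i (d 0 f) z + w 1 * d i (d 1 f) z + w 2 * d i (d 2 f) z + w 3 * d i (d 3 f) z := by
    intro i z
    rw [d_add ((((hf.d 0).cmul _).add ((hf.d 1).cmul _)).add ((hf.d 2).cmul _))
      ((hf.d 3).cmul _), d_add (((hf.d 0).cmul _).add ((hf.d 1).cmul _)) ((hf.d 2).cmul _),
      d_add ((hf.d 0).cmul _) ((hf.d 1).cmul _), d_cmul (hf.d 0), d_cmul (hf.d 1),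
      d_cmul (hf.d 2), d_cmul (hf.d 3)]
  rw [h5, PRJ_fd hs]
  have c0 : (Fin.castLE (by omega) (0 : Fin 4) : Fin (k + 4)) = 0 := rfl
  have c1 : (Fin.castLE (by omega) (1 : Fin 4) : Fin (k + 4)) = 1 := by
    apply Fin.ext
    have : ((1 : Fin (k + 4)) : ℕ) = 1 := Nat.mod_eq_of_lt (show 1 < k + 4 by omega)
    rw [this]
    rfl
  have c2 : (Fin.castLE (by omega) (2 : Fin 4) : Fin (k + 4)) = 2 := by
    apply Fin.ext
    have : ((2 : Fin (k + 4)) : ℕ) = 2 := Nat.mod_eq_of_lt (show 2 < k + 4 by omega)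
    rw [this]
    rfl
  have c3 : (Fin.castLE (by omega) (3 : Fin 4) : Fin (k + 4)) = 3 := by
    apply Fin.ext
    have : ((3 : Fin (k + 4)) : ℕ) = 3 := Nat.mod_eq_of_lt (show 3 < k + 4 by omega)
    rw [this]
    rfl
  simp only [Fin.sum_univ_four, c0, c1, c2, c3, hd]
  ring

theorem p_PRJ : T_PRJ := by
  intro k
  exact ⟨PRJ_norm, PRJ_inj, PRJ_injn, fun f hf => ⟨PRJ_sm hf, PRJ_fd hf, PRJ_D2 hf⟩⟩

end Pool.Agent.GNS
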