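import Pool.Agent.GNS.T1

/-!
# GNS: PS2, the minors of the second derivative
-/

set_option autoImplicit false

open Metric Set Filter Topology MeasureTheory

noncomputable section

namespace Pool.Agent.GNS

/-- the quadratic form on the span of two basis vectors -/
theorem PS2_quad (M : Fin 4 → Fin 4 → ℝ) (i j : Fin 4) (a b : ℝ) :
    (∑ k, ∑ l, (a * (if k = i then (1 : ℝ) else 0) + b * (if k = j then (1 : ℝ) else 0)) *
      (a * (if l = i then (1 : ℝ) else 0) + b * (if l = j then (1 : ℝ) else 0)) * M k l) =
    a ^ 2 * M i i + a * b * M i j + a * b * M j i + b ^ 2 * M j j := by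
  have h1 : ∀ (g : Fin 4 → ℝ), (∑ l, (a * (if l = i then (1 : ℝ) else 0) +
      b * (if l = j then (1 : ℝ) else 0)) * g l) = a * g i + b * g j := by
    intro g
    simp only [add_mul, Finset.sum_add_distrib, mul_ite, mul_one, mul_zero, ite_mul, zero_mul,
      Finset.sum_ite_eq', Finset.mem_univ, if_true]
  have h2 : ∀ k, (∑ l, (a * (if k = i then (1 : ℝ) else 0) +
      b * (if k = j then (1 : ℝ) else 0)) *
      (a * (if l = i then (1 : ℝ) else 0) + b * (if l = j then (1 : ℝ) else 0)) * M k l) =
      (a * (if k = i then (1 : ℝ) else 0) + b * (if k = j then (1 : ℝ) else 0)) *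
        (a * M k i + b * M k j) := by
    intro k
    rw [← h1 (fun l => M k l), Finset.mul_sum]
    refine Finset.sum_congr rfl fun l _ => ?_
    ring
  rw [Finset.sum_congr rfl fun k _ => h2 k, h1 (fun k => a * M k i + b * M k j)]
  ring

theorem p_PS2 (hPSD : T_PSD) : T_PS2 := by
  intro w hw hc z i j
  have hq : ∀ (k l : Fin 4) (a b : ℝ), 0 ≤ a ^ 2 * d k (d k w) z +
      2 * (a * b) * d k (d l w) z + b ^ 2 * d l (d l w) z := by
    intro k l a b
    have h := hPSD w hw hc z (fun m => a * (if m = k then (1 : ℝ) else 0) +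
      b * (if m = l then (1 : ℝ) else 0))
    rw [PS2_quad (fun m n => d m (d n w) z) k l a b] at h
    rw [d_comm hw l k z] at h
    linarith
  refine ⟨?_, ?_⟩
  · have h := hq i i 1 0
    simpa using h
  · have h : discrim (d j (d j w) z) (2 * d i (d j w) z) (d i (d i w) z) ≤ 0 := by
      apply discrim_le_zero
      intro x
      have h' := hq i j 1 x
      nlinarith
    unfold discrim at h
    nlinarith

end Pool.Agent.GNS
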