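import Pool.Agent.GNS.T1

set_option autoImplicit false

open Metric Set Filter Topology MeasureTheory

noncomputable section

namespace Pool.Agent.GNS

theorem PSD_mono {g : ℝ → ℝ} {g' x : ℝ} (hg : Monotone g) (h : HasDerivAt g g' x) : 0 ≤ g' := by
  have h1 := hasDerivAt_iff_tendsto_slope.1 h
  refine ge_of_tendsto h1 (Eventually.of_forall fun y => ?_)
  rw [slope_def_field]
  rcases le_total x y with hxy | hxy
  · exact div_nonneg (sub_nonneg.2 (hg hxy)) (sub_nonneg.2 hxy)
  · exact div_nonneg_of_nonpos (sub_nonpos.2 (hg hxy)) (sub_nonpos.2 hxy)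

theorem p_PSD : T_PSD := by
  intro w hw hcx z c
  set v : V := ((c 0, c 1), (c 2, c 3)) with hv
  have hder : ∀ {f : V → ℝ}, Sm f → ∀ y : V, fderiv ℝ f y v = ∑ j, c j * d j f y := by
    intro f hf y
    rw [fd_eq, Fin.sum_univ_four]
  have hphi : ConvexOn ℝ univ (fun t : ℝ => w (z + t • v)) := by
    refine ⟨convex_univ, fun s _ t _ a b ha hb hab => ?_⟩
    have h := hcx.2 (mem_univ (z + s • v)) (mem_univ (z + t • v)) ha hb hab
    have he : z + (a • s + b • t) • v = a • (z + s • v) + b • (z + t • v) := by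
      have : a • z + b • z = z := by rw [← add_smul, hab, one_smul]
      calc z + (a • s + b • t) • v = (a • z + b • z) + (a • s + b • t) • v := by rw [this]
        _ = a • (z + s • v) + b • (z + t • v) := by
          simp only [smul_add, add_smul, smul_eq_mul, mul_smul]
          abel
    show w (z + (a • s + b • t) • v) ≤ _
    rw [he]
    exact h
  have hd : ∀ t : ℝ, HasDerivAt (fun s : ℝ => w (z + s • v)) (fderiv ℝ w (z + t • v) v) t :=
    fun t => line_deriv hw z v t
  have hmono : Monotone (fun t : ℝ => fderiv ℝ w (z + t • v) v) := by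
    have h1 := hphi.monotoneOn_deriv (fun t _ => (hd t).differentiableAt)
    intro s t hst
    have h2 := h1 (mem_univ s) (mem_univ t) hst
    rw [(hd s).deriv, (hd t).deriv] at h2
    exact h2
  have hd2 : HasDerivAt (fun t : ℝ => fderiv ℝ w (z + t • v) v)
      (∑ i, c i * ∑ j, c j * d j (d i w) z) 0 := by
    have h1 : HasDerivAt (fun t : ℝ => ∑ i, c i * d i w (z + t • v))
        (∑ i, c i * fderiv ℝ (d i w) (z + (0 : ℝ) • v) v) 0 := by
      refine HasDerivAt.fun_sum fun i _ => ?_
      exact (line_deriv (hw.d i) z v 0).const_mul (c i)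
    have h2 : (fun t : ℝ => fderiv ℝ w (z + t • v) v) =
        fun t : ℝ => ∑ i, c i * d i w (z + t • v) := funext fun t => hder hw _
    rw [h2]
    refine h1.congr_deriv ?_
    refine Finset.sum_congr rfl fun i _ => ?_
    rw [hder (hw.d i), zero_smul, add_zero]
  have h0 := PSD_mono hmono hd2
  refine h0.trans (le_of_eq ?_)
  refine Finset.sum_congr rfl fun i _ => ?_
  rw [Finset.mul_sum]
  refine Finset.sum_congr rfl fun j _ => ?_
  rw [d_comm hw j i]
  ring

end Pool.Agent.GNS
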