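import Pool.Agent.GNS.T1

/-!
# GNS, target PWB: the functional after the transform
-/

set_option autoImplicit false

open Metric Set Filter Topology MeasureTheory

noncomputable section

namespace Pool.Agent.GNS

/-- the minor of a smooth function is continuous -/
theorem PWB_cont {f : V → ℝ} (h : Sm f) : Continuous (T12 f) := by
  unfold T12
  exact ((((h.d 2).d 0).cont).mul (((h.d 3).d 1).cont)).sub
    ((((h.d 3).d 0).cont).mul (((h.d 2).d 1).cont))

theorem p_PWB (hLG1 : T_LG1) (hLG2 : T_LG2) (hCHG : T_CHG) (hUBR : T_UBR) : T_PWB := by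
  intro η r ρ u b hη hr hK hU hb hcb
  have hSC : SC r (ub ρ r u) := (hUBR η r ρ u hη hr hK hU).1
  have hL : Sm (Leg (ub ρ r u)) := (hLG1 r _ hr hSC).1
  refine ⟨(hCHG r _ hr hSC b hb.cont hcb).1, ?_⟩
  have h1 := (hCHG r _ hr hSC (fun q => b q * T12 (Leg (ub ρ r u)) q)
    (hb.cont.mul (PWB_cont hL)) hcb.mul_right).2
  rw [h1]
  refine integral_congr_ae (Eventually.of_forall fun z => ?_)
  have h2 := (hLG2 r _ hr hSC z).2.1
  change b (gy (ub ρ r u) z) * T12 (Leg (ub ρ r u)) (gy (ub ρ r u) z) * jac (ub ρ r u) z =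
    b (gy (ub ρ r u) z) * T12 (ub ρ r u) z
  rw [h2]
  ring

end Pool.Agent.GNS
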