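import Pool.Agent.GNS.T4

/-!
# GNS-QCV: continuity of the quadratic functional
-/

set_option autoImplicit false

open Metric Set Filter Topology MeasureTheory

noncomputable section

namespace Pool.Agent.GNS

namespace QCV_

theorem meas (w : V → ℝ) (i : Fin 4) : Measurable (d i w) :=
  measurable_fderiv_apply_const ℝ w (e i)

theorem bnd (c p q R : ℝ) (hp : |p| ≤ R) (hq : |q| ≤ R) :
    |c * (p * q)| ≤ R ^ 2 * |c| := by
  have hR : 0 ≤ R := (abs_nonneg p).trans hp
  rw [abs_mul, abs_mul]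
  have h : |p| * |q| ≤ R * R := mul_le_mul hp hq (abs_nonneg _) hR
  calc |c| * (|p| * |q|) ≤ |c| * (R * R) := mul_le_mul_of_nonneg_left h (abs_nonneg _)
    _ = R ^ 2 * |c| := by ring

theorem four (a1 a2 a3 a4 : ℝ) : |a1 - a2 - a3 + a4| ≤ |a1| + |a2| + |a3| + |a4| := by
  have h1 := abs_add_le (a1 - a2 - a3) a4
  have h2 := abs_sub (a1 - a2) a3
  have h3 := abs_sub a1 a2
  linarith

theorem intg {c : V → ℝ} (hc : Sm c) (hs : HasCompactSupport c) (R : ℝ) :
    Integrable fun z => R ^ 2 * |c z| :=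
  ((int_of hc.cont hs).abs).const_mul _

end QCV_

open QCV_ in
theorem p_QCV (hGCV : T_GCV) : T_QCV := by
  intro b hb hcs f g R hf hlim hg hfd hR
  have h02 := hcs_d (hcs_d hcs 2) 0
  have h12 := hcs_d (hcs_d hcs 2) 1
  have h03 := hcs_d (hcs_d hcs 3) 0
  have h13 := hcs_d (hcs_d hcs 3) 1
  have s02 : Sm (d 0 (d 2 b)) := (hb.d 2).d 0
  have s12 : Sm (d 1 (d 2 b)) := (hb.d 2).d 1
  have s03 : Sm (d 0 (d 3 b)) := (hb.d 3).d 0
  have s13 : Sm (d 1 (d 3 b)) := (hb.d 3).d 1
  unfold Qb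
  apply Tendsto.const_mul
  apply tendsto_integral_of_dominated_convergence (fun z => R ^ 2 * |d 0 (d 2 b) z| +
    R ^ 2 * |d 1 (d 2 b) z| + R ^ 2 * |d 0 (d 3 b) z| + R ^ 2 * |d 1 (d 3 b) z|)
  · intro n
    apply Measurable.aestronglyMeasurable
    have m0 := meas (f n) 0
    have m1 := meas (f n) 1
    have m2 := meas (f n) 2
    have m3 := meas (f n) 3
    exact (((s02.cont.measurable.mul (m1.mul m3)).sub (s12.cont.measurable.mul (m0.mul m3))).sub
      (s03.cont.measurable.mul (m1.mul m2))).add (s13.cont.measurable.mul (m0.mul m2))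
  · exact (((intg s02 h02 R).add (intg s12 h12 R)).add (intg s03 h03 R)).add (intg s13 h13 R)
  · intro n
    refine Eventually.of_forall fun z => ?_
    rw [Real.norm_eq_abs]
    refine (four _ _ _ _).trans ?_
    have b1 := bnd (d 0 (d 2 b) z) _ _ R (hR n z 1) (hR n z 3)
    have b2 := bnd (d 1 (d 2 b) z) _ _ R (hR n z 0) (hR n z 3)
    have b3 := bnd (d 0 (d 3 b) z) _ _ R (hR n z 1) (hR n z 2)
    have b4 := bnd (d 1 (d 3 b) z) _ _ R (hR n z 0) (hR n z 2)
    linarith
  · filter_upwards [hg, ae_all_iff.2 hfd] with z hz hz2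
    have t : ∀ i, Tendsto (fun n => d i (f n) z) atTop (𝓝 (d i g z)) :=
      hGCV f g z hf hlim hz hz2
    exact ((((t 1).mul (t 3)).const_mul _).sub (((t 0).mul (t 3)).const_mul _)).sub
      (((t 1).mul (t 2)).const_mul _) |>.add (((t 0).mul (t 2)).const_mul _)

end Pool.Agent.GNS
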