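import Pool.Agent.GNS.T4

/-!
# GNS: proof of the target QTI (affine invariance of `Qb`)
-/

set_option autoImplicit false

open Metric Set Filter Topology MeasureTheory

noncomputable section

namespace Pool.Agent.GNS

lemma QTI_int {f g : V → ℝ} {M : ℝ} (hf : Continuous f) (hc : HasCompactSupport f)
    (hg : Measurable g) (hM : ∀ z, |g z| ≤ M) : Integrable fun z => f z * g z := by
  have h1 : Integrable fun z => |f z| * M := (int_of hf hc).abs.mul_const M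
  refine h1.mono' (hf.measurable.mul hg).aestronglyMeasurable ?_
  filter_upwards with z
  rw [Real.norm_eq_abs, abs_mul]
  exact mul_le_mul_of_nonneg_left (hM z) (abs_nonneg _)

lemma QTI_meas (w : V → ℝ) (i : Fin 4) : Measurable (d i w) :=
  measurable_fderiv_apply_const ℝ w (e i)

/-- the integral of a derivative of a function of compact support -/
lemma QTI_zero {g : V → ℝ} (hg : Sm g) (hc : HasCompactSupport g) (i : Fin 4) :
    ∫ z, d i g z = 0 := by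
  have h := d_ibp (Sm.const 1) hg hc i
  simp only [d_const, zero_mul, integral_zero, one_mul] at h
  linarith

/-- the integral of `b_ij w_k` -/
lemma QTI_sym (hIBL : T_IBL) {b w : V → ℝ} {R : ℝ} (hb : Sm b) (hc : HasCompactSupport b)
    (hw : ∀ z z', |w z - w z'| ≤ R * ‖z - z'‖) (i j k : Fin 4) :
    ∫ z, d i (d j b) z * d k w z = -∫ z, w z * d k (d i (d j b)) z := by
  have h := hIBL w (d i (d j b)) R hw ((hb.d j).d i) (hcs_d (hcs_d hc j) i) k
  rw [← h]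
  congr 1
  funext z
  ring

/-- symmetry of the third derivatives -/
lemma QTI_c1 {b : V → ℝ} (hb : Sm b) (i j k : Fin 4) :
    d k (d i (d j b)) = d i (d k (d j b)) := d_fun_comm (hb.d j) k i

lemma QTI_c2 {b : V → ℝ} (hb : Sm b) (i j k : Fin 4) :
    d k (d i (d j b)) = d j (d i (d k b)) := by
  rw [QTI_c1 hb, d_fun_comm hb k j, d_fun_comm (hb.d k) i j]

theorem p_QTI (hIBL : T_IBL) : T_QTI := by
  intro b w R hb hc hw ℓ c
  have hLip : LipschitzWith (Real.toNNReal R) w := by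
    apply LipschitzWith.of_dist_le_mul
    intro z z'
    rw [Real.dist_eq, dist_eq_norm]
    exact (hw z z').trans (mul_le_mul_of_nonneg_right (Real.le_coe_toNNReal R) (norm_nonneg _))
  have hdiff : ∀ᵐ z, DifferentiableAt ℝ w z := hLip.ae_differentiableAt
  have hbd : ∀ (z : V) (i : Fin 4), |d i w z| ≤ Real.toNNReal R * (‖e 0‖ + ‖e 1‖ + ‖e 2‖ +
      ‖e 3‖) := by
    intro z i
    have h1 : ‖fderiv ℝ w z‖ ≤ Real.toNNReal R := norm_fderiv_le_of_lipschitz ℝ hLip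
    have h2 : ‖fderiv ℝ w z (e i)‖ ≤ ‖fderiv ℝ w z‖ * ‖e i‖ := ContinuousLinearMap.le_opNorm _ _
    have h3 : ‖e i‖ ≤ ‖e 0‖ + ‖e 1‖ + ‖e 2‖ + ‖e 3‖ := by
      have n0 := norm_nonneg (e 0)
      have n1 := norm_nonneg (e 1)
      have n2 := norm_nonneg (e 2)
      have n3 := norm_nonneg (e 3)
      fin_cases i
      · show ‖e 0‖ ≤ _
        linarith
      · show ‖e 1‖ ≤ _
        linarith
      · show ‖e 2‖ ≤ _
        linarith
      · show ‖e 3‖ ≤ _
        linarith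
    calc |d i w z| = ‖fderiv ℝ w z (e i)‖ := rfl
      _ ≤ ‖fderiv ℝ w z‖ * ‖e i‖ := h2
      _ ≤ _ := mul_le_mul h1 h3 (norm_nonneg _) (NNReal.coe_nonneg _)
  set M : ℝ := Real.toNNReal R * (‖e 0‖ + ‖e 1‖ + ‖e 2‖ + ‖e 3‖) with hM
  have hM0 : 0 ≤ M := (abs_nonneg _).trans (hbd 0 0)
  have cs : ∀ i j : Fin 4, HasCompactSupport (d i (d j b)) := fun i j => hcs_d (hcs_d hc j) i
  have ct : ∀ i j : Fin 4, Continuous (d i (d j b)) := fun i j => ((hb.d j).d i).cont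
  -- derivatives of the sum
  have hW : ∀ᵐ z, ∀ i, d i (fun z => w z + ℓ z + c) z = d i w z + ℓ (e i) := by
    filter_upwards [hdiff] with z hz i
    unfold d
    have h1 : HasFDerivAt (fun z => w z + ℓ z + c) (fderiv ℝ w z + ℓ) z :=
      (hz.hasFDerivAt.add ℓ.hasFDerivAt).add_const c
    rw [h1.fderiv]
    rfl
  set a0 := ℓ (e 0) with ha0
  set a1 := ℓ (e 1) with ha1
  set a2 := ℓ (e 2) with ha2
  set a3 := ℓ (e 3) with ha3
  -- integrability
  have I2 : ∀ i j k l : Fin 4, Integrable fun z => d i (d j b) z * (d k w z * d l w z) := by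
    intro i j k l
    refine QTI_int (ct i j) (cs i j) ((QTI_meas w k).mul (QTI_meas w l)) (M := M * M) ?_
    intro z
    rw [abs_mul]
    exact mul_le_mul (hbd z k) (hbd z l) (abs_nonneg _) hM0
  have I1 : ∀ i j k : Fin 4, Integrable fun z => d i (d j b) z * d k w z := by
    intro i j k
    exact QTI_int (ct i j) (cs i j) (QTI_meas w k) (M := M) fun z => hbd z k
  have I0 : ∀ i j : Fin 4, Integrable fun z => d i (d j b) z := fun i j =>
    int_of (ct i j) (cs i j)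
  -- the value of the integral
  have e1 : (∫ z, (d 0 (d 2 b) z * (d 1 (fun z => w z + ℓ z + c) z *
      d 3 (fun z => w z + ℓ z + c) z) - d 1 (d 2 b) z * (d 0 (fun z => w z + ℓ z + c) z *
      d 3 (fun z => w z + ℓ z + c) z) - d 0 (d 3 b) z * (d 1 (fun z => w z + ℓ z + c) z *
      d 2 (fun z => w z + ℓ z + c) z) + d 1 (d 3 b) z * (d 0 (fun z => w z + ℓ z + c) z *
      d 2 (fun z => w z + ℓ z + c) z))) =
      ∫ z, ((d 0 (d 2 b) z * (d 1 w z * d 3 w z) - d 1 (d 2 b) z * (d 0 w z * d 3 w z) -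
        d 0 (d 3 b) z * (d 1 w z * d 2 w z) + d 1 (d 3 b) z * (d 0 w z * d 2 w z)) +
        ((a3 * (d 0 (d 2 b) z * d 1 w z - d 1 (d 2 b) z * d 0 w z) +
        a1 * (d 0 (d 2 b) z * d 3 w z - d 0 (d 3 b) z * d 2 w z) +
        a0 * (d 1 (d 3 b) z * d 2 w z - d 1 (d 2 b) z * d 3 w z) +
        a2 * (d 1 (d 3 b) z * d 0 w z - d 0 (d 3 b) z * d 1 w z)) +
        (a1 * a3 * d 0 (d 2 b) z - a0 * a3 * d 1 (d 2 b) z - a1 * a2 * d 0 (d 3 b) z +
        a0 * a2 * d 1 (d 3 b) z))) := by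
    apply integral_congr_ae
    filter_upwards [hW] with z hz
    simp only [hz]
    ring
  have J2 : Integrable fun z => (d 0 (d 2 b) z * (d 1 w z * d 3 w z) -
      d 1 (d 2 b) z * (d 0 w z * d 3 w z) - d 0 (d 3 b) z * (d 1 w z * d 2 w z) +
      d 1 (d 3 b) z * (d 0 w z * d 2 w z)) :=
    (((I2 0 2 1 3).sub (I2 1 2 0 3)).sub (I2 0 3 1 2)).add (I2 1 3 0 2)
  have K3 : Integrable fun z => a3 * (d 0 (d 2 b) z * d 1 w z - d 1 (d 2 b) z * d 0 w z) :=
    ((I1 0 2 1).sub (I1 1 2 0)).const_mul a3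
  have K1 : Integrable fun z => a1 * (d 0 (d 2 b) z * d 3 w z - d 0 (d 3 b) z * d 2 w z) :=
    ((I1 0 2 3).sub (I1 0 3 2)).const_mul a1
  have K0 : Integrable fun z => a0 * (d 1 (d 3 b) z * d 2 w z - d 1 (d 2 b) z * d 3 w z) :=
    ((I1 1 3 2).sub (I1 1 2 3)).const_mul a0
  have K2 : Integrable fun z => a2 * (d 1 (d 3 b) z * d 0 w z - d 0 (d 3 b) z * d 1 w z) :=
    ((I1 1 3 0).sub (I1 0 3 1)).const_mul a2
  have L1 : Integrable fun z =>
      a3 * (d 0 (d 2 b) z * d 1 w z - d 1 (d 2 b) z * d 0 w z) +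
      a1 * (d 0 (d 2 b) z * d 3 w z - d 0 (d 3 b) z * d 2 w z) := K3.add K1
  have L2 : Integrable fun z =>
      a3 * (d 0 (d 2 b) z * d 1 w z - d 1 (d 2 b) z * d 0 w z) +
      a1 * (d 0 (d 2 b) z * d 3 w z - d 0 (d 3 b) z * d 2 w z) +
      a0 * (d 1 (d 3 b) z * d 2 w z - d 1 (d 2 b) z * d 3 w z) := L1.add K0
  have J1 : Integrable fun z =>
      a3 * (d 0 (d 2 b) z * d 1 w z - d 1 (d 2 b) z * d 0 w z) +
      a1 * (d 0 (d 2 b) z * d 3 w z - d 0 (d 3 b) z * d 2 w z) +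
      a0 * (d 1 (d 3 b) z * d 2 w z - d 1 (d 2 b) z * d 3 w z) +
      a2 * (d 1 (d 3 b) z * d 0 w z - d 0 (d 3 b) z * d 1 w z) := L2.add K2
  have N1 : Integrable fun z => a1 * a3 * d 0 (d 2 b) z := (I0 0 2).const_mul _
  have N2 : Integrable fun z => a0 * a3 * d 1 (d 2 b) z := (I0 1 2).const_mul _
  have N3 : Integrable fun z => a1 * a2 * d 0 (d 3 b) z := (I0 0 3).const_mul _
  have N4 : Integrable fun z => a0 * a2 * d 1 (d 3 b) z := (I0 1 3).const_mul _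
  have O1 : Integrable fun z => a1 * a3 * d 0 (d 2 b) z - a0 * a3 * d 1 (d 2 b) z :=
    N1.sub N2
  have O2 : Integrable fun z => a1 * a3 * d 0 (d 2 b) z - a0 * a3 * d 1 (d 2 b) z -
      a1 * a2 * d 0 (d 3 b) z := O1.sub N3
  have J0 : Integrable fun z => a1 * a3 * d 0 (d 2 b) z - a0 * a3 * d 1 (d 2 b) z -
      a1 * a2 * d 0 (d 3 b) z + a0 * a2 * d 1 (d 3 b) z := O2.add N4
  have J10 : Integrable fun z =>
      (a3 * (d 0 (d 2 b) z * d 1 w z - d 1 (d 2 b) z * d 0 w z) +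
      a1 * (d 0 (d 2 b) z * d 3 w z - d 0 (d 3 b) z * d 2 w z) +
      a0 * (d 1 (d 3 b) z * d 2 w z - d 1 (d 2 b) z * d 3 w z) +
      a2 * (d 1 (d 3 b) z * d 0 w z - d 0 (d 3 b) z * d 1 w z)) +
      (a1 * a3 * d 0 (d 2 b) z - a0 * a3 * d 1 (d 2 b) z -
      a1 * a2 * d 0 (d 3 b) z + a0 * a2 * d 1 (d 3 b) z) := J1.add J0
  have z1 : ∀ i j : Fin 4, ∫ z, d i (d j b) z = 0 := fun i j =>
    QTI_zero (hb.d j) (hcs_d hc j) i
  have s3 : ∫ z, (d 0 (d 2 b) z * d 1 w z - d 1 (d 2 b) z * d 0 w z) = 0 := by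
    rw [integral_sub (I1 0 2 1) (I1 1 2 0), QTI_sym hIBL hb hc hw, QTI_sym hIBL hb hc hw,
      QTI_c1 hb 0 2 1]
    ring
  have s1 : ∫ z, (d 0 (d 2 b) z * d 3 w z - d 0 (d 3 b) z * d 2 w z) = 0 := by
    rw [integral_sub (I1 0 2 3) (I1 0 3 2), QTI_sym hIBL hb hc hw, QTI_sym hIBL hb hc hw,
      QTI_c2 hb 0 2 3]
    ring
  have s0 : ∫ z, (d 1 (d 3 b) z * d 2 w z - d 1 (d 2 b) z * d 3 w z) = 0 := by
    rw [integral_sub (I1 1 3 2) (I1 1 2 3), QTI_sym hIBL hb hc hw, QTI_sym hIBL hb hc hw,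
      QTI_c2 hb 1 3 2]
    ring
  have s2 : ∫ z, (d 1 (d 3 b) z * d 0 w z - d 0 (d 3 b) z * d 1 w z) = 0 := by
    rw [integral_sub (I1 1 3 0) (I1 0 3 1), QTI_sym hIBL hb hc hw, QTI_sym hIBL hb hc hw,
      QTI_c1 hb 1 3 0]
    ring
  unfold Qb
  rw [e1, integral_add J2 J10, integral_add J1 J0, integral_add L2 K2, integral_add L1 K0,
    integral_add K3 K1, integral_add O2 N4, integral_sub O1 N3, integral_sub N1 N2]
  simp only [integral_const_mul, z1, s0, s1, s2, s3]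
  ring

end Pool.Agent.GNS
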