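import Pool.Agent.GNS.T4

/-!
# GNS: proof of the target QVA (valuation property of `Qb`)
-/

set_option autoImplicit false

open Metric Set Filter Topology MeasureTheory

noncomputable section

namespace Pool.Agent.GNS

/-- measurability of the coordinate derivatives -/
lemma QVA_meas (w : V → ℝ) (i : Fin 4) : Measurable (d i w) :=
  measurable_fderiv_apply_const ℝ w (e i)

/-- integrability of one term -/
lemma QVA_int {f g : V → ℝ} {M : ℝ} (hf : Continuous f) (hc : HasCompactSupport f)
    (hg : Measurable g) (hM : ∀ z, |g z| ≤ M) : Integrable fun z => f z * g z := by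
  have h1 : Integrable fun z => |f z| * M := (int_of hf hc).abs.mul_const M
  refine h1.mono' (hf.measurable.mul hg).aestronglyMeasurable ?_
  filter_upwards with z
  rw [Real.norm_eq_abs, abs_mul]
  exact mul_le_mul_of_nonneg_left (hM z) (abs_nonneg _)

/-- the integrand of `Qb` -/
def QVA_I (b w : V → ℝ) (z : V) : ℝ :=
  d 0 (d 2 b) z * (d 1 w z * d 3 w z) - d 1 (d 2 b) z * (d 0 w z * d 3 w z) -
    d 0 (d 3 b) z * (d 1 w z * d 2 w z) + d 1 (d 3 b) z * (d 0 w z * d 2 w z)

lemma QVA_Qb (b w : V → ℝ) : Qb b w = -(1 / 2) * ∫ z, QVA_I b w z := rfl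

lemma QVA_hc {b : V → ℝ} (hc : HasCompactSupport b) (i j : Fin 4) :
    HasCompactSupport (d i (d j b)) := hcs_d (hcs_d hc j) i

lemma QVA_intI {b w : V → ℝ} {R : ℝ} (hb : Sm b) (hc : HasCompactSupport b)
    (hR : ∀ z i, |d i w z| ≤ R) : Integrable (QVA_I b w) := by
  have hR0 : 0 ≤ R := (abs_nonneg _).trans (hR 0 0)
  have h1 : ∀ i j k l : Fin 4, Integrable fun z => d i (d j b) z * (d k w z * d l w z) := by
    intro i j k l
    refine QVA_int ((hb.d j).d i).cont (QVA_hc hc i j)
      ((QVA_meas w k).mul (QVA_meas w l)) (M := R * R) ?_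
    intro z
    rw [abs_mul]
    exact mul_le_mul (hR z k) (hR z l) (abs_nonneg _) hR0
  exact (((h1 0 2 1 3).sub (h1 1 2 0 3)).sub (h1 0 3 1 2)).add (h1 1 3 0 2)

/-- at a common point of differentiability -/
lemma QVA_pt {p q P Q : V → ℝ} (cp : Continuous p) (cq : Continuous q)
    (hP : ∀ z, P z = max (p z) (q z)) (hQ : ∀ z, Q z = min (p z) (q z)) {z : V}
    (dp : DifferentiableAt ℝ p z) (dq : DifferentiableAt ℝ q z)
    (dP : DifferentiableAt ℝ P z) (dQ : DifferentiableAt ℝ Q z) :
    ((∀ i, d i P z = d i p z) ∧ ∀ i, d i Q z = d i q z) ∨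
      ((∀ i, d i P z = d i q z) ∧ ∀ i, d i Q z = d i p z) := by
  rcases lt_trichotomy (p z) (q z) with h | h | h
  · right
    have h1 : ∀ᶠ z' in 𝓝 z, p z' < q z' := cp.continuousAt.eventually_lt cq.continuousAt h
    constructor
    · intro i
      apply d_congr
      filter_upwards [h1] with z' hz
      rw [hP, max_eq_right hz.le]
    · intro i
      apply d_congr
      filter_upwards [h1] with z' hz
      rw [hQ, min_eq_left hz.le]
  · left
    have key : ∀ f g : V → ℝ, DifferentiableAt ℝ f z → DifferentiableAt ℝ g z →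
        (∀ z', g z' ≤ f z') → f z = g z → fderiv ℝ f z = fderiv ℝ g z := by
      intro f g hf hg hle heq
      have h2 : IsLocalMin (fun z' => f z' - g z') z := by
        filter_upwards with z'
        simp only [heq, sub_self]
        linarith [hle z']
      have h3 := h2.fderiv_eq_zero
      rw [fderiv_fun_sub hf hg] at h3
      exact sub_eq_zero.1 h3
    have e1 : fderiv ℝ P z = fderiv ℝ p z := by
      refine key P p dP dp (fun z' => by rw [hP]; exact le_max_left _ _) ?_
      rw [hP, h, max_self]
    have e2 : fderiv ℝ P z = fderiv ℝ q z := by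
      refine key P q dP dq (fun z' => by rw [hP]; exact le_max_right _ _) ?_
      rw [hP, h, max_self]
    have e3 : fderiv ℝ p z = fderiv ℝ Q z := by
      refine key p Q dp dQ (fun z' => by rw [hQ]; exact min_le_left _ _) ?_
      rw [hQ, h, min_self]
    constructor
    · intro i
      unfold d
      rw [e1]
    · intro i
      unfold d
      rw [← e3, ← e1, e2]
  · left
    have h1 : ∀ᶠ z' in 𝓝 z, q z' < p z' := cq.continuousAt.eventually_lt cp.continuousAt h
    constructor
    · intro i
      apply d_congr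
      filter_upwards [h1] with z' hz
      rw [hP, max_eq_left hz.le]
    · intro i
      apply d_congr
      filter_upwards [h1] with z' hz
      rw [hQ, min_eq_right hz.le]

theorem p_QVA : T_QVA := by
  intro b hb hc p q P Q R cp cq hP hQ dp dq dP dQ hR
  rw [QVA_Qb, QVA_Qb, QVA_Qb, QVA_Qb, ← mul_add, ← mul_add,
    ← integral_add (QVA_intI hb hc fun z i => (hR z i).2.2.1)
      (QVA_intI hb hc fun z i => (hR z i).2.2.2),
    ← integral_add (QVA_intI hb hc fun z i => (hR z i).1)
      (QVA_intI hb hc fun z i => (hR z i).2.1)]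
  congr 1
  apply integral_congr_ae
  filter_upwards [dp, dq, dP, dQ] with z h1 h2 h3 h4
  rcases QVA_pt cp cq hP hQ h1 h2 h3 h4 with ⟨e1, e2⟩ | ⟨e1, e2⟩
  · unfold QVA_I
    simp only [e1, e2]
  · unfold QVA_I
    simp only [e1, e2]
    ring

end Pool.Agent.GNS
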