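import Pool.Agent.GNS.T3

/-!
# GNS: ridge bodies
-/

set_option autoImplicit false

open Metric Set Filter Topology MeasureTheory

noncomputable section

namespace Pool.Agent.GNS

open Pool.Agent.GLB

namespace RDG_

variable {m : ℕ}

/-- the integrand -/
theorem cont_int (h_CHT : T_CHT) (κ : E m) {f : ℝ → ℝ} (hf : Continuous f) (v : E (m + 1)) :
    Continuous fun c : ℝ => f c * max 0 (inner ℝ (kv κ c) v) := by
  have h1 : Continuous fun c : ℝ => kv κ c := (h_CHT m).2.2.2.2.2.2.2.2.1 κ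
  exact hf.mul (continuous_const.max (h1.inner continuous_const))

theorem exists_zr (h_CHT : T_CHT) (κ : E m) {ρ : ℝ} (hρ : 0 ≤ ρ) {f : ℝ → ℝ}
    (hf : Continuous f) (hf0 : ∀ t, 0 ≤ f t) : ∃ Z, IsZr κ ρ f Z := by
  obtain ⟨Z, hZ⟩ := gSUE (m + 1) (fun v => ∫ c in (-ρ)..ρ, f c * max 0 (inner ℝ (kv κ c) v))
    (by
      intro t ht v
      show ∫ c in (-ρ)..ρ, f c * max 0 (inner ℝ (kv κ c) (t • v)) =
        t * ∫ c in (-ρ)..ρ, f c * max 0 (inner ℝ (kv κ c) v)
      rw [← intervalIntegral.integral_const_mul]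
      refine intervalIntegral.integral_congr fun c _ => ?_
      show f c * max 0 (inner ℝ (kv κ c) (t • v)) = t * (f c * max 0 (inner ℝ (kv κ c) v))
      have h1 : max 0 (t * inner ℝ (kv κ c) v) = t * max 0 (inner ℝ (kv κ c) v) := by
        rw [mul_max_of_nonneg _ _ ht, mul_zero]
      rw [inner_smul_right, h1]
      ring)
    (by
      intro u v
      show ∫ c in (-ρ)..ρ, f c * max 0 (inner ℝ (kv κ c) (u + v)) ≤
        (∫ c in (-ρ)..ρ, f c * max 0 (inner ℝ (kv κ c) u)) +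
        ∫ c in (-ρ)..ρ, f c * max 0 (inner ℝ (kv κ c) v)
      have i1 := (cont_int h_CHT κ hf u).intervalIntegrable (μ := volume) (-ρ) ρ
      have i2 := (cont_int h_CHT κ hf v).intervalIntegrable (μ := volume) (-ρ) ρ
      have i3 := (cont_int h_CHT κ hf (u + v)).intervalIntegrable (μ := volume) (-ρ) ρ
      rw [← intervalIntegral.integral_add i1 i2]
      refine intervalIntegral.integral_mono_on (by linarith) i3 (i1.add i2) fun c _ => ?_
      show f c * max 0 (inner ℝ (kv κ c) (u + v)) ≤ f c * max 0 (inner ℝ (kv κ c) u) +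
        f c * max 0 (inner ℝ (kv κ c) v)
      rw [← mul_add, inner_add_right]
      refine mul_le_mul_of_nonneg_left (max_le ?_ ?_) (hf0 c)
      · exact add_nonneg (le_max_left _ _) (le_max_left _ _)
      · exact add_le_add (le_max_right _ _) (le_max_right _ _))
  exact ⟨Z, hZ⟩

theorem isZr_zr {κ : E m} {ρ : ℝ} {f : ℝ → ℝ} (h : ∃ Z, IsZr κ ρ f Z) :
    IsZr κ ρ f (Zr κ ρ f) := by
  unfold Zr
  rw [dif_pos h]
  exact h.choose_spec

/-- the approximating sums -/
def zs (κ : E m) (f : ℝ → ℝ) (c : ℕ → ℝ) : ℕ → ConvexBody (E (m + 1))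
  | 0 => 0
  | k + 1 => zs κ f c k + (∫ x in (c k)..(c (k + 1)), f x) • seg (kv κ (c k))

theorem zs_zt (κ : E m) {f : ℝ → ℝ} (hf0 : ∀ t, 0 ≤ f t) {c : ℕ → ℝ}
    (hc : ∀ k, c k ≤ c (k + 1)) (k : ℕ) : Zt (zs κ f c k) := by
  induction k with
  | zero => exact Zt.zero
  | succ k ih =>
    exact Zt.add _ κ (c k) _ (intervalIntegral.integral_nonneg (hc k) fun x _ => hf0 x) ih

theorem supp_zero {n : ℕ} (u : E n) : supp (0 : ConvexBody (E n)) u = 0 := by
  have h1 := (gSUA n).2.2.1 0 0 u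
  rw [add_zero] at h1
  linarith

theorem supp_zs (h_CHT : T_CHT) (κ : E m) {f : ℝ → ℝ} (hf0 : ∀ t, 0 ≤ f t) {c : ℕ → ℝ}
    (hc : ∀ k, c k ≤ c (k + 1)) (k : ℕ) (v : E (m + 1)) : supp (zs κ f c k) v =
      ∑ i ∈ Finset.range k, (∫ x in (c i)..(c (i + 1)), f x) *
        max 0 (inner ℝ (kv κ (c i)) v) := by
  induction k with
  | zero =>
    rw [Finset.sum_range_zero]
    exact supp_zero v
  | succ k ih =>
    rw [Finset.sum_range_succ, ← ih]
    show supp (zs κ f c k + (∫ x in (c k)..(c (k + 1)), f x) • seg (kv κ (c k))) v = _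
    rw [(gSUA (m + 1)).2.2.1, (gSUA (m + 1)).2.2.2.1 _ _ _
      (intervalIntegral.integral_nonneg (hc k) fun x _ => hf0 x), (h_CHT m).2.2.2.2.1]

theorem max_lip (h_CHT : T_CHT) (κ : E m) (v : E (m + 1)) (c c' : ℝ) :
    |max 0 (inner ℝ (kv κ c) v) - max 0 (inner ℝ (kv κ c') v)| ≤ |c - c'| * ‖v‖ := by
  have h1 := abs_max_sub_max_le_abs (inner ℝ (kv κ c) v) (inner ℝ (kv κ c') v) 0
  rw [max_comm 0, max_comm 0]
  refine h1.trans ?_
  rw [← inner_sub_left, ← (h_CHT m).2.2.2.2.2.2.2.2.2.1 κ c c']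
  exact abs_real_inner_le_norm _ _

/-- the error of one interval -/
theorem err (h_CHT : T_CHT) (κ : E m) {f : ℝ → ℝ} (hf : Continuous f) (hf0 : ∀ t, 0 ≤ f t)
    (v : E (m + 1)) {a b h : ℝ} (hab : a ≤ b) (hb : b - a ≤ h) :
    |(∫ c in a..b, f c * max 0 (inner ℝ (kv κ c) v)) -
      (∫ c in a..b, f c) * max 0 (inner ℝ (kv κ a) v)| ≤ (h * ‖v‖) * ∫ c in a..b, f c := by
  have i2 : IntervalIntegrable (fun x => f x * max 0 (inner ℝ (kv κ a) v)) volume a b :=
    (hf.mul continuous_const).intervalIntegrable _ _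
  rw [← intervalIntegral.integral_mul_const, ← intervalIntegral.integral_sub
    ((cont_int h_CHT κ hf v).intervalIntegrable _ _) i2, ← intervalIntegral.integral_const_mul]
  rw [← Real.norm_eq_abs]
  refine intervalIntegral.norm_integral_le_of_norm_le hab (Eventually.of_forall fun c hc => ?_)
    ((continuous_const.mul hf).intervalIntegrable _ _)
  rw [← mul_sub, Real.norm_eq_abs, abs_mul, abs_of_nonneg (hf0 c), mul_comm]
  refine mul_le_mul_of_nonneg_right ((max_lip h_CHT κ v c a).trans ?_) (hf0 c)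
  refine mul_le_mul_of_nonneg_right ?_ (norm_nonneg v)
  rw [abs_of_nonneg (by linarith [hc.1])]
  linarith [hc.2]

end RDG_

open RDG_

theorem p_RDG (h_CHT : T_CHT) : T_RDG := by
  intro m κ ρ f hρ hf hf0
  have hZ := isZr_zr (exists_zr h_CHT κ hρ hf hf0)
  refine ⟨hZ, ?_⟩
  unfold Zn
  rw [Metric.mem_closure_iff]
  intro ε hε
  obtain ⟨I, hI⟩ : ∃ I : ℝ, I = ∫ c in (-ρ)..ρ, f c := ⟨_, rfl⟩
  have hI0 : 0 ≤ I := by
    rw [hI]
    exact intervalIntegral.integral_nonneg (by linarith) fun x _ => hf0 x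
  obtain ⟨n, hn⟩ := exists_nat_gt (2 * ρ * I / ε)
  have hn0 : 0 < n := by
    have h1 : (0 : ℝ) < n := lt_of_le_of_lt (by positivity) hn
    exact_mod_cast h1
  have hnR : (0 : ℝ) < n := by exact_mod_cast hn0
  obtain ⟨h, hh⟩ : ∃ h : ℝ, h = 2 * ρ / n := ⟨_, rfl⟩
  have hh0 : 0 ≤ h := by
    rw [hh]
    positivity
  obtain ⟨c, hc⟩ : ∃ c : ℕ → ℝ, ∀ k, c k = -ρ + k * h := ⟨fun k => -ρ + k * h, fun _ => rfl⟩
  have hc0 : c 0 = -ρ := by
    rw [hc]
    simp
  have hcn : c n = ρ := by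
    rw [hc, hh]
    field_simp
    ring
  have hcs : ∀ k, c (k + 1) = c k + h := by
    intro k
    rw [hc, hc]
    push_cast
    ring
  have hcm : ∀ k, c k ≤ c (k + 1) := by
    intro k
    rw [hcs]
    linarith
  refine ⟨zs κ f c n, zs_zt κ hf0 hcm n, ?_⟩
  have hkey : ∀ u : E (m + 1), ‖u‖ = 1 →
      |supp (Zr κ ρ f) u - supp (zs κ f c n) u| ≤ h * I := by
    intro u hu
    rw [hZ u, supp_zs h_CHT κ hf0 hcm n u]
    have h1 := intervalIntegral.sum_integral_adjacent_intervals (μ := volume) (a := c) (n := n)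
      (f := fun x => f x * max 0 (inner ℝ (kv κ x) u))
      (fun k _ => (cont_int h_CHT κ hf u).intervalIntegrable _ _)
    have h2 := intervalIntegral.sum_integral_adjacent_intervals (μ := volume) (a := c) (n := n)
      (f := f) (fun k _ => hf.intervalIntegrable _ _)
    rw [hc0, hcn] at h1 h2
    rw [← h1, ← Finset.sum_sub_distrib, hI, ← h2, Finset.mul_sum]
    refine (Finset.abs_sum_le_sum_abs _ _).trans (Finset.sum_le_sum fun k _ => ?_)
    have h3 := err h_CHT κ hf hf0 u (hcm k) (h := h) (by rw [hcs]; linarith)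
    rwa [hu, mul_one] at h3
  have hlt : h * I < ε := by
    rw [div_lt_iff₀ hε] at hn
    rw [hh, div_mul_eq_mul_div, div_lt_iff₀ hnR]
    linarith
  exact lt_of_le_of_lt ((gSUD (m + 1) _ _).2 _ (by positivity) hkey) hlt

end Pool.Agent.GNS
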