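import Pool.Agent.GNS.T5

/-!
# GNS: the reduction (RED)
-/

set_option autoImplicit false

open Metric Set Filter Topology MeasureTheory

noncomputable section

namespace Pool.Agent.GNS

open Pool.Agent.GLB

namespace RED_

theorem zero_smul_body {n : ℕ} (K : ConvexBody (E n)) : (0 : ℝ) • K = 0 := by
  apply SetLike.coe_injective
  rw [ConvexBody.coe_smul, ConvexBody.coe_zero]
  exact Set.zero_smul_set K.nonempty

theorem equator {n : ℕ} (hEMB : T_EMB) (X : C(S n, ℂ) →L[ℂ] C(S (n + 1), ℂ))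
    (hX : ∀ φ v, X φ v = exf φ v) (v : S (n + 1)) (hv : hgt (v : E (n + 1)) = 0) :
    (X 1 - 1) v = 0 := by
  have h1 := (hEMB n).2.2.2.1 (v : E (n + 1))
  have h2 : ‖(v : E (n + 1))‖ = 1 := by
    have := v.2
    rwa [mem_sphere_iff_norm, sub_zero] at this
  rw [h2, hv] at h1
  have h3 : ‖prj (v : E (n + 1))‖ = 1 := by
    have h4 : ‖prj (v : E (n + 1))‖ ^ 2 = 1 := by linarith
    have h5 : 0 ≤ ‖prj (v : E (n + 1))‖ := norm_nonneg _
    nlinarith
  have h6 : prj (v : E (n + 1)) ≠ 0 := by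
    intro h0
    rw [h0, norm_zero] at h3
    exact zero_ne_one h3
  rw [ContinuousMap.sub_apply, hX]
  unfold exf
  rw [dif_pos h6, ContinuousMap.one_apply, ContinuousMap.one_apply, h3]
  push_cast
  ring

end RED_

theorem p_RED (hMSV : T_MSV) (hMSP : T_MSP) (hEXF : T_EXF) (hDAR : T_DAR) (hVAN : T_VAN)
    (hEMB : T_EMB) : T_RED := by
  intro n k hsurj μ hμ
  obtain ⟨Ψ', hΨ', h1⟩ := hsurj (muS μ) (hMSV n k μ hμ)
  obtain ⟨X, hX⟩ := hEXF n
  refine ⟨fun K => (Ψ' (em K + Jl) - Ψ' (em K)).comp X, hDAR n k Ψ' hΨ' X hX, ?_⟩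
  intro K
  have h2 := hVAN n (k + 1) Ψ' hΨ' (X 1 - 1) (RED_.equator hEMB X hX) (em K) 1 zero_le_one
  rw [one_smul, map_sub, map_sub] at h2
  have h3 := hMSP n μ K 1 zero_le_one
  have h4 := hMSP n μ K 0 le_rfl
  rw [one_smul] at h3
  rw [RED_.zero_smul_body, add_zero] at h4
  rw [← h1] at h3 h4
  have h5 : ((Ψ' (em K + Jl) - Ψ' (em K)).comp X) 1 =
      Ψ' (em K + Jl) (X 1) - Ψ' (em K) (X 1) := rfl
  show ((Ψ' (em K + Jl) - Ψ' (em K)).comp X) 1 = μ K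
  rw [h5]
  have h6 : Ψ' (em K + Jl) (X 1) - Ψ' (em K) (X 1) = Ψ' (em K + Jl) 1 - Ψ' (em K) 1 := by
    linear_combination h2
  rw [h6, h3, h4]
  push_cast
  ring

end Pool.Agent.GNS
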