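import Pool.Agent.GNS.T1

/-!
# GNS: target REG
-/

set_option autoImplicit false

open Metric Set Filter Topology MeasureTheory

noncomputable section

namespace Pool.Agent.GNS

/-- averages with a kernel of small support -/
theorem REG_cvb (r : ℝ) (ρ f : V → ℝ) (hK : Ker r ρ) (hf : Continuous f) (z : V) (c ε : ℝ)
    (h : ∀ ζ, ‖z - ζ‖ < r → |f ζ - c| ≤ ε) : |cv ρ f z - c| ≤ ε := by
  have hρ : Continuous fun ζ : V => ρ (z - ζ) :=
    hK.sm.cont.comp (continuous_const.sub continuous_id)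
  have hs : HasCompactSupport fun ζ : V => ρ (z - ζ) := by
    refine hcs_of (R := r + ‖z‖) ?_
    intro ζ hζ
    apply hK.out
    have h1 : ‖ζ‖ ≤ ‖z - ζ‖ + ‖z‖ := by
      calc ‖ζ‖ = ‖z - (z - ζ)‖ := by rw [sub_sub_cancel]
        _ ≤ ‖z‖ + ‖z - ζ‖ := norm_sub_le _ _
        _ = ‖z - ζ‖ + ‖z‖ := add_comm _ _
    linarith
  have h1 : ∫ ζ, ρ (z - ζ) = 1 := by
    have h2 : (fun ζ => ρ (z - ζ)) = fun ζ => ρ (ζ - z) := by
      funext ζ
      rw [← hK.even (ζ - z), neg_sub]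
    rw [h2, integral_sub_right_eq_self (fun ζ => ρ ζ) z]
    exact hK.int
  have i1 : Integrable fun ζ => ρ (z - ζ) * f ζ :=
    (hρ.mul hf).integrable_of_hasCompactSupport hs.mul_right
  have i2 : Integrable fun ζ => ρ (z - ζ) * c :=
    (hρ.mul continuous_const).integrable_of_hasCompactSupport hs.mul_right
  have i3 : Integrable fun ζ => ρ (z - ζ) * ε :=
    (hρ.mul continuous_const).integrable_of_hasCompactSupport hs.mul_right
  have e1 : cv ρ f z - c = ∫ ζ, (ρ (z - ζ) * f ζ - ρ (z - ζ) * c) := by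
    rw [integral_sub i1 i2, integral_mul_const, h1, one_mul]
    rfl
  rw [e1]
  calc |∫ ζ, (ρ (z - ζ) * f ζ - ρ (z - ζ) * c)|
      ≤ ∫ ζ, |ρ (z - ζ) * f ζ - ρ (z - ζ) * c| := abs_integral_le_integral_abs
    _ ≤ ∫ ζ, ρ (z - ζ) * ε := by
        refine integral_mono_of_nonneg (Eventually.of_forall fun _ => abs_nonneg _) i3
          (Eventually.of_forall fun ζ => ?_)
        show |ρ (z - ζ) * f ζ - ρ (z - ζ) * c| ≤ ρ (z - ζ) * ε
        rw [← mul_sub, abs_mul, abs_of_nonneg (hK.nn _)]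
        by_cases hz : ‖z - ζ‖ < r
        · exact mul_le_mul_of_nonneg_left (h ζ hz) (hK.nn _)
        · rw [hK.out _ (not_lt.1 hz)]
          simp
    _ = ε := by rw [integral_mul_const, h1, one_mul]

theorem REG_one (η r : ℝ) (ρ D p : V → ℝ) (hη : 0 < η) (hη1 : η ≤ 1) (hr : 0 < r)
    (hr1 : r ≤ 1 / 10) (hK : Ker r ρ) (hD : Continuous D)
    (hp : ∀ z z' : V, |p z - p z'| ≤ ‖z - z'‖) (hg : ∀ z, |p z - η * D z| ≤ 1)
    (hm : ∀ z z' : V, |D z - D z'| ≤ 2 * ‖z - z'‖ / η + Real.sqrt (8 * ‖z - z'‖ / η))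
    (z z' : V) (hz : ‖z - z'‖ ≤ r) (B : ℝ) (hB : B = cv ρ D z + r * p z) (hB1 : |B| < 1) :
    |p z| ≤ 3 ∧ |B - D z'| ≤ 3 * r + (4 * r / η + Real.sqrt (16 * r / η)) := by
  have h1 : |cv ρ D z - p z / η| ≤ (1 + r) / η := by
    refine REG_cvb r ρ D hK hD z _ _ ?_
    intro ζ hζ
    have h2 := hg ζ
    have h3 := hp ζ z
    rw [norm_sub_rev] at h3
    have h4 : D ζ - p z / η = (η * D ζ - p z) / η := by
      field_simp
    rw [h4, abs_div, abs_of_pos hη]
    refine div_le_div_of_nonneg_right ?_ hη.le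
    rw [abs_le] at h2 h3 ⊢
    constructor <;> linarith [h2.1, h2.2, h3.1, h3.2]
  have h2 : |η * cv ρ D z - p z| ≤ 1 + r := by
    have h3 : η * cv ρ D z - p z = η * (cv ρ D z - p z / η) := by
      field_simp
    rw [h3, abs_mul, abs_of_pos hη]
    calc η * |cv ρ D z - p z / η| ≤ η * ((1 + r) / η) := mul_le_mul_of_nonneg_left h1 hη.le
      _ = 1 + r := by field_simp
  have hp3 : |p z| ≤ 3 := by
    have h3 : cv ρ D z = B - r * p z := by rw [hB]; ring
    have h4 : |cv ρ D z| ≤ 1 + r * |p z| := by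
      rw [h3]
      calc |B - r * p z| ≤ |B| + |r * p z| := abs_sub _ _
        _ ≤ 1 + r * |p z| := by rw [abs_mul, abs_of_pos hr]; linarith
    have h5 : |p z| ≤ |η * cv ρ D z| + (1 + r) := by
      calc |p z| = |η * cv ρ D z - (η * cv ρ D z - p z)| := by rw [sub_sub_cancel]
        _ ≤ |η * cv ρ D z| + |η * cv ρ D z - p z| := abs_sub _ _
        _ ≤ |η * cv ρ D z| + (1 + r) := by linarith
    rw [abs_mul, abs_of_pos hη] at h5
    have h6 : η * |cv ρ D z| ≤ |cv ρ D z| := by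
      nlinarith [abs_nonneg (cv ρ D z)]
    have h7 : r * |p z| ≤ 1 / 10 * |p z| := mul_le_mul_of_nonneg_right hr1 (abs_nonneg _)
    linarith
  refine ⟨hp3, ?_⟩
  have h3 : |cv ρ D z - D z'| ≤ 4 * r / η + Real.sqrt (16 * r / η) := by
    refine REG_cvb r ρ D hK hD z _ _ ?_
    intro ζ hζ
    have h4 : ‖ζ - z'‖ ≤ 2 * r := by
      calc ‖ζ - z'‖ = ‖(z - z') - (z - ζ)‖ := by
            congr 1
            abel
        _ ≤ ‖z - z'‖ + ‖z - ζ‖ := norm_sub_le _ _
        _ ≤ 2 * r := by linarith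
    refine (hm ζ z').trans (add_le_add ?_ (Real.sqrt_le_sqrt ?_))
    · refine div_le_div_of_nonneg_right ?_ hη.le
      linarith
    · refine div_le_div_of_nonneg_right ?_ hη.le
      linarith
  have h4 : B - D z' = (cv ρ D z - D z') + r * p z := by rw [hB]; ring
  rw [h4]
  calc |(cv ρ D z - D z') + r * p z| ≤ |cv ρ D z - D z'| + |r * p z| := abs_add_le _ _
    _ ≤ (4 * r / η + Real.sqrt (16 * r / η)) + r * 3 := by
        refine add_le_add h3 ?_
        rw [abs_mul, abs_of_pos hr]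
        exact mul_le_mul_of_nonneg_left hp3 hr.le
    _ = 3 * r + (4 * r / η + Real.sqrt (16 * r / η)) := by ring

theorem REG_small (η m : ℝ) (hm : 0 < m) : ∃ r0 : ℝ, 0 < r0 ∧ ∀ r : ℝ, 0 < r → r ≤ r0 →
    3 * r + (4 * r / η + Real.sqrt (16 * r / η)) < m := by
  have hc : Continuous fun r : ℝ => 3 * r + (4 * r / η + Real.sqrt (16 * r / η)) := by
    have h1 : Continuous fun r : ℝ => 4 * r / η := (continuous_const.mul continuous_id).div_const _
    have h2 : Continuous fun r : ℝ => Real.sqrt (16 * r / η) :=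
      Real.continuous_sqrt.comp ((continuous_const.mul continuous_id).div_const _)
    exact (continuous_const.mul continuous_id).add (h1.add h2)
  have h0 := hc.tendsto 0
  simp only [mul_zero, zero_div, Real.sqrt_zero, add_zero] at h0
  have h1 : ∀ᶠ r in 𝓝 (0 : ℝ), 3 * r + (4 * r / η + Real.sqrt (16 * r / η)) < m :=
    h0.eventually (gt_mem_nhds hm)
  obtain ⟨ε, hε, h⟩ := Metric.eventually_nhds_iff.1 h1
  refine ⟨ε / 2, by positivity, ?_⟩
  intro r hr hr1
  apply h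
  rw [dist_zero_right, Real.norm_eq_abs, abs_of_pos hr]
  linarith

theorem REG_norm (x y : ℝ × ℝ) : ‖((x, y) : V)‖ = max ‖x‖ ‖y‖ := rfl

theorem p_REG (hYMD : T_YMD) (hUBR : T_UBR) : T_REG := by
  intro b β hb hβ hX hbβ hb0 η ω hη hη1 hω
  have hbs : HasCompactSupport b := hcs_of hb0
  have hu : UniformContinuous b := hbs.uniformContinuous_of_continuous hb
  obtain ⟨δ, hδ, hud⟩ := Metric.uniformContinuous_iff.1 hu ω hω
  obtain ⟨r0, hr0, hsm⟩ := REG_small η (min 1 δ) (lt_min one_pos hδ)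
  refine ⟨min r0 (1 / 10), lt_min hr0 (by norm_num), ?_⟩
  intro r ρ u hr hrr hK hU z z' hzz hne
  have hr1 : r ≤ 1 / 10 := hrr.trans (min_le_right _ _)
  have hs := hsm r hr (hrr.trans (min_le_left _ _))
  have hn : ‖gy (ub ρ r u) z‖ < 1 := by
    by_contra h
    exact hne (hb0 _ (not_lt.1 h))
  have hn' : max ‖z.1‖ (max |d 2 (ub ρ r u) z| |d 3 (ub ρ r u) z|) < 1 := hn
  have hz1 : ‖z.1‖ < 1 := lt_of_le_of_lt (le_max_left _ _) hn'
  have hd2 : |d 2 (ub ρ r u) z| < 1 :=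
    lt_of_le_of_lt ((le_max_left _ _).trans (le_max_right _ _)) hn'
  have hd3 : |d 3 (ub ρ r u) z| < 1 :=
    lt_of_le_of_lt ((le_max_right _ _).trans (le_max_right _ _)) hn'
  have hub := (hUBR η r ρ u hη hr hK hU).2.2.2.2 z
  have k2 := REG_one η r ρ (d 2 u) (fun z => z.2.1) hη hη1 hr hr1 hK (hU.sm.d 2).cont
    (fun z z' => (norm_fst_le (z - z').2).trans (norm_snd_le (z - z')))
    hU.gr2 (fun z z' => (hYMD η u hη hU z z').1) z z' hzz _ hub.1 hd2
  have k3 := REG_one η r ρ (d 3 u) (fun z => z.2.2) hη hη1 hr hr1 hK (hU.sm.d 3).cont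
    (fun z z' => (norm_snd_le (z - z').2).trans (norm_snd_le (z - z')))
    hU.gr3 (fun z z' => (hYMD η u hη hU z z').2) z z' hzz _ hub.2 hd3
  have hdist : ‖gy (ub ρ r u) z - gy u z'‖ < min 1 δ := by
    have h1 : ‖gy (ub ρ r u) z - gy u z'‖ = max ‖z.1 - z'.1‖
        (max |d 2 (ub ρ r u) z - d 2 u z'| |d 3 (ub ρ r u) z - d 3 u z'|) := rfl
    rw [h1]
    refine max_lt ?_ (max_lt (lt_of_le_of_lt k2.2 hs) (lt_of_le_of_lt k3.2 hs))
    have h2 : ‖z.1 - z'.1‖ ≤ r := (norm_fst_le (z - z')).trans hzz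
    have h3 : 0 ≤ 4 * r / η := by positivity
    have h4 := Real.sqrt_nonneg (16 * r / η)
    linarith
  have hdist1 : ‖gy (ub ρ r u) z - gy u z'‖ < 1 := lt_of_lt_of_le hdist (min_le_left _ _)
  have hdist2 : ‖gy (ub ρ r u) z - gy u z'‖ < δ := lt_of_lt_of_le hdist (min_le_right _ _)
  refine ⟨?_, ?_, ?_⟩
  · have h1 : ‖z‖ = max ‖z.1‖ (max |z.2.1| |z.2.2|) := rfl
    rw [h1]
    have h2 : |z.2.1| ≤ 3 := k2.1
    have h3 : |z.2.2| ≤ 3 := k3.1
    exact max_le (by linarith) (max_le (by linarith) (by linarith))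
  · calc ‖gy u z'‖ = ‖gy (ub ρ r u) z - (gy (ub ρ r u) z - gy u z')‖ := by rw [sub_sub_cancel]
      _ ≤ ‖gy (ub ρ r u) z‖ + ‖gy (ub ρ r u) z - gy u z'‖ := norm_sub_le _ _
      _ ≤ 2 := by linarith
  · have h1 : |b (gy (ub ρ r u) z) - b (gy u z')| < ω := by
      have := hud (a := gy (ub ρ r u) z) (b := gy u z') (by rwa [dist_eq_norm])
      rwa [Real.dist_eq] at this
    have h2 : β (gy u z') = β z' := hX _ _ rfl
    have h3 := hbβ (gy u z')
    rw [h2] at h3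
    calc |b (gy (ub ρ r u) z)| = |(b (gy (ub ρ r u) z) - b (gy u z')) + b (gy u z')| := by
          rw [sub_add_cancel]
      _ ≤ |b (gy (ub ρ r u) z) - b (gy u z')| + |b (gy u z')| := abs_add_le _ _
      _ ≤ β z' + ω := by linarith

end Pool.Agent.GNS
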