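import Pool.Agent.GNS.P_RDG

/-!
# GNS: the ridge formula
-/

set_option autoImplicit false

open Metric Set Filter Topology MeasureTheory

noncomputable section

namespace Pool.Agent.GNS

open Pool.Agent.GLB

namespace RFM_

variable {m : ℕ}

/-- segments depend continuously on the end point -/
theorem seg_cont (h_CHT : T_CHT) (κ : E m) : Continuous fun c : ℝ => seg (kv κ c) := by
  rw [Metric.continuous_iff]
  intro c ε hε
  refine ⟨ε / 2, by linarith, fun c' hc' => ?_⟩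
  have h1 : dist (seg (kv κ c')) (seg (kv κ c)) ≤ |c' - c| := by
    refine (gSUD (m + 1) _ _).2 _ (abs_nonneg _) ?_
    intro u hu
    rw [(h_CHT m).2.2.2.2.1, (h_CHT m).2.2.2.2.1]
    have h2 := RDG_.max_lip h_CHT κ u c' c
    rwa [hu, mul_one] at h2
  rw [Real.dist_eq] at hc'
  linarith

/-- the difference form is continuous along continuous families -/
theorem FF_tendsto {Ψ : ConvexBody (E (m + 1)) → (C(S (m + 1), ℂ) →L[ℂ] ℂ)}
    (hΨ : IsArea (m + 1) 2 Ψ) (φ : C(S (m + 1), ℂ)) {ι : Type} {l : Filter ι}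
    {f : ι → ConvexBody (E (m + 1))} {K Y : ConvexBody (E (m + 1))} (hf : Tendsto f l (𝓝 K)) :
    Tendsto (fun i => FF Ψ φ (f i) Y) l (𝓝 (FF Ψ φ K Y)) := by
  unfold FF
  have h1 := ((hΨ.cont φ).tendsto (K + Y)).comp (add_tendsto hf (tendsto_const_nhds (x := Y)))
  have h2 := ((hΨ.cont φ).tendsto K).comp hf
  exact (h1.sub h2).sub tendsto_const_nhds

theorem zn_zt {Z : ConvexBody (E (m + 1))} (h : Zt Z) : Zn Z := subset_closure h

/-- the form on the approximating sums -/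
theorem FF_zs (h_ZND : T_ZND) {Ψ : ConvexBody (E (m + 1)) → (C(S (m + 1), ℂ) →L[ℂ] ℂ)}
    (hΨ : IsArea (m + 1) 2 Ψ) {R : ℝ} {φ : E m → ℂ} (hφ : Tf R φ) (κ : E m) {f : ℝ → ℝ}
    (hf0 : ∀ t, 0 ≤ f t) {Y : ConvexBody (E (m + 1))} (hY : Zn Y) {c : ℕ → ℝ}
    (hc : ∀ k, c k ≤ c (k + 1)) (k : ℕ) : FF Ψ (HC φ) (RDG_.zs κ f c k) Y =
      ∑ i ∈ Finset.range k, ((∫ x in (c i)..(c (i + 1)), f x : ℝ) : ℂ) *
        FF Ψ (HC φ) (seg (kv κ (c i))) Y := by
  have hsym : ∀ Z, Zn Z → FF Ψ (HC φ) Z Y = FF Ψ (HC φ) Y Z := fun Z hZ =>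
    (h_ZND m Ψ hΨ R φ hφ Z Y hZ hY).2.2.2.1
  induction k with
  | zero =>
    rw [Finset.sum_range_zero]
    have h0 : Zn (0 : ConvexBody (E (m + 1))) := zn_zt Zt.zero
    have h1 := ((h_ZND m Ψ hΨ R φ hφ 0 0 h0 h0).2.2.2.2 Y).1
    rw [add_zero] at h1
    show FF Ψ (HC φ) 0 Y = 0
    rw [hsym 0 h0]
    have h2 : FF Ψ (HC φ) Y 0 + 0 = FF Ψ (HC φ) Y 0 + FF Ψ (HC φ) Y 0 := by
      rw [add_zero]
      exact h1
    exact (add_left_cancel h2).symm
  | succ k ih =>
    rw [Finset.sum_range_succ, ← ih]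
    have hI : (0 : ℝ) ≤ ∫ x in (c k)..(c (k + 1)), f x :=
      intervalIntegral.integral_nonneg (hc k) fun x _ => hf0 x
    have hz : Zn (RDG_.zs κ f c k) := zn_zt (RDG_.zs_zt κ hf0 hc k)
    have hseg : Zn (seg (kv κ (c k))) := (h_ZND m Ψ hΨ R φ hφ Y Y hY hY).2.2.1 κ (c k)
    have hts : Zn ((∫ x in (c k)..(c (k + 1)), f x) • seg (kv κ (c k))) :=
      (h_ZND m Ψ hΨ R φ hφ _ Y hseg hY).2.1 _ hI
    show FF Ψ (HC φ) (RDG_.zs κ f c k + (∫ x in (c k)..(c (k + 1)), f x) •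
      seg (kv κ (c k))) Y = _
    rw [hsym _ (h_ZND m Ψ hΨ R φ hφ _ _ hz hts).1,
      ((h_ZND m Ψ hΨ R φ hφ _ _ hz hts).2.2.2.2 Y).1, ← hsym _ hz,
      ((h_ZND m Ψ hΨ R φ hφ _ Y hseg hY).2.2.2.2 Y).2 _ hI, ← hsym _ hseg]

/-- the error of one interval -/
theorem err {f : ℝ → ℝ} (hf : Continuous f) (hf0 : ∀ t, 0 ≤ f t) {G : ℝ → ℂ}
    (hG : Continuous G) {a b ε : ℝ} (hab : a ≤ b) (hb : ∀ c, a < c → c ≤ b → ‖G c - G a‖ ≤ ε) :
    ‖(∫ c in a..b, (f c : ℂ) * G c) - ((∫ c in a..b, f c : ℝ) : ℂ) * G a‖ ≤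
      ε * ∫ c in a..b, f c := by
  have hfc : Continuous fun c : ℝ => (f c : ℂ) := Complex.continuous_ofReal.comp hf
  have i2 : IntervalIntegrable (fun x => (f x : ℂ) * G a) volume a b :=
    (hfc.mul continuous_const).intervalIntegrable _ _
  have i1 : IntervalIntegrable (fun x => (f x : ℂ) * G x) volume a b :=
    (hfc.mul hG).intervalIntegrable _ _
  rw [← intervalIntegral.integral_ofReal, ← intervalIntegral.integral_mul_const,
    ← intervalIntegral.integral_sub i1 i2, ← intervalIntegral.integral_const_mul]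
  refine intervalIntegral.norm_integral_le_of_norm_le hab (Eventually.of_forall fun c hc => ?_)
    ((continuous_const.mul hf).intervalIntegrable _ _)
  rw [← mul_sub, norm_mul, Complex.norm_real, Real.norm_eq_abs, abs_of_nonneg (hf0 c), mul_comm]
  exact mul_le_mul_of_nonneg_right (hb c hc.1 hc.2) (hf0 c)

end RFM_

open RFM_

theorem p_RFM (h_CHT : T_CHT) (h_ZND : T_ZND) : T_RFM := by
  intro m Ψ hΨ R φ hφ κ ρ f hρ hf hf0 Y hY
  have hG : Continuous (fun c : ℝ => FF Ψ (HC φ) (seg (kv κ c)) Y) := by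
    rw [continuous_iff_continuousAt]
    intro c
    exact FF_tendsto hΨ (HC φ) ((seg_cont h_CHT κ).tendsto c)
  refine ⟨hG, ?_⟩
  obtain ⟨G, hGd⟩ : ∃ G : ℝ → ℂ, G = fun c : ℝ => FF Ψ (HC φ) (seg (kv κ c)) Y := ⟨_, rfl⟩
  rw [← hGd] at hG
  have hGv : ∀ c, FF Ψ (HC φ) (seg (kv κ c)) Y = G c := fun c => by rw [hGd]
  simp only [hGv]
  have hZ := RDG_.isZr_zr (RDG_.exists_zr h_CHT κ hρ hf hf0)
  obtain ⟨I, hI⟩ : ∃ I : ℝ, I = ∫ c in (-ρ)..ρ, f c := ⟨_, rfl⟩
  have hI0 : 0 ≤ I := by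
    rw [hI]
    exact intervalIntegral.integral_nonneg (by linarith) fun x _ => hf0 x
  -- partitions
  obtain ⟨h, hh⟩ : ∃ h : ℕ → ℝ, ∀ n, h n = 2 * ρ / (n + 1) := ⟨fun n => 2 * ρ / (n + 1),
    fun _ => rfl⟩
  have hh0 : ∀ n, 0 ≤ h n := by
    intro n
    rw [hh]
    positivity
  obtain ⟨c, hc⟩ : ∃ c : ℕ → ℕ → ℝ, ∀ n k, c n k = -ρ + k * h n :=
    ⟨fun n k => -ρ + k * h n, fun _ _ => rfl⟩
  have hc0 : ∀ n, c n 0 = -ρ := by
    intro n
    rw [hc]
    simp
  have hcn : ∀ n, c n (n + 1) = ρ := by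
    intro n
    rw [hc, hh]
    have h1 : ((n : ℝ) + 1) ≠ 0 := by positivity
    push_cast
    field_simp
    ring
  have hcs : ∀ n k, c n (k + 1) = c n k + h n := by
    intro n k
    rw [hc, hc]
    push_cast
    ring
  have hcm : ∀ n k, c n k ≤ c n (k + 1) := by
    intro n k
    rw [hcs]
    linarith [hh0 n]
  have hlim : Tendsto h atTop (𝓝 0) := by
    have h1 : Tendsto (fun n : ℕ => (2 * ρ) * (1 / ((n : ℝ) + 1))) atTop (𝓝 ((2 * ρ) * 0)) :=
      tendsto_one_div_add_atTop_nhds_zero_nat.const_mul _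
    rw [mul_zero] at h1
    refine h1.congr fun n => ?_
    rw [hh]
    ring
  -- the bodies converge
  have hdist : ∀ n, dist (RDG_.zs κ f (c n) (n + 1)) (Zr κ ρ f) ≤ h n * I := by
    intro n
    rw [dist_comm]
    refine (gSUD (m + 1) _ _).2 _ (mul_nonneg (hh0 n) hI0) ?_
    intro u hu
    rw [hZ u, RDG_.supp_zs h_CHT κ hf0 (hcm n) (n + 1) u]
    have h1 := intervalIntegral.sum_integral_adjacent_intervals (μ := volume) (a := c n)
      (n := n + 1) (f := fun x => f x * max 0 (inner ℝ (kv κ x) u))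
      (fun k _ => (RDG_.cont_int h_CHT κ hf u).intervalIntegrable _ _)
    have h2 := intervalIntegral.sum_integral_adjacent_intervals (μ := volume) (a := c n)
      (n := n + 1) (f := f) (fun k _ => hf.intervalIntegrable _ _)
    rw [hc0, hcn] at h1 h2
    rw [← h1, ← Finset.sum_sub_distrib, hI, ← h2, Finset.mul_sum]
    refine (Finset.abs_sum_le_sum_abs _ _).trans (Finset.sum_le_sum fun k _ => ?_)
    have h3 := RDG_.err h_CHT κ hf hf0 u (hcm n k) (h := h n) (by rw [hcs]; linarith)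
    rwa [hu, mul_one] at h3
  have hconv : Tendsto (fun n => RDG_.zs κ f (c n) (n + 1)) atTop (𝓝 (Zr κ ρ f)) := by
    rw [tendsto_iff_dist_tendsto_zero]
    have h1 : Tendsto (fun n => h n * I) atTop (𝓝 0) := by
      have h2 := hlim.mul_const I
      rwa [zero_mul] at h2
    exact squeeze_zero (fun n => dist_nonneg) hdist h1
  have hleft := FF_tendsto (Y := Y) hΨ (HC φ) hconv
  -- the sums converge to the integral
  have hright : Tendsto (fun n => FF Ψ (HC φ) (RDG_.zs κ f (c n) (n + 1)) Y) atTop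
      (𝓝 (∫ c in (-ρ)..ρ, (f c : ℂ) * G c)) := by
    have huc : UniformContinuousOn G (Icc (-ρ) ρ) :=
      isCompact_Icc.uniformContinuousOn_of_continuous hG.continuousOn
    rw [Metric.uniformContinuousOn_iff] at huc
    rw [Metric.tendsto_atTop]
    intro ε hε
    have hε1 : 0 < ε / (I + 1) := by positivity
    obtain ⟨δ, hδ, hδ'⟩ := huc (ε / (I + 1)) hε1
    obtain ⟨N, hN⟩ := (Metric.tendsto_atTop.1 hlim) δ hδ
    refine ⟨N, fun n hn => ?_⟩
    have hhn : h n < δ := by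
      have h1 := hN n hn
      rw [Real.dist_eq, sub_zero, abs_of_nonneg (hh0 n)] at h1
      exact h1
    have hck : ∀ k, k ≤ n + 1 → c n k ∈ Icc (-ρ) ρ := by
      intro k hk
      have h1 : (k : ℝ) * h n ≤ ((n : ℝ) + 1) * h n := by
        refine mul_le_mul_of_nonneg_right ?_ (hh0 n)
        exact_mod_cast hk
      have h2 := hcn n
      rw [hc] at h2
      push_cast at h2
      have h3 : 0 ≤ (k : ℝ) * h n := mul_nonneg (Nat.cast_nonneg k) (hh0 n)
      rw [hc]
      constructor <;> linarith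
    rw [FF_zs h_ZND hΨ hφ κ hf0 hY (hcm n) (n + 1), dist_comm, dist_eq_norm]
    simp only [hGv]
    have hfc : Continuous fun c : ℝ => (f c : ℂ) := Complex.continuous_ofReal.comp hf
    have h1 := intervalIntegral.sum_integral_adjacent_intervals (μ := volume) (a := c n)
      (n := n + 1) (f := fun x => (f x : ℂ) * G x)
      (fun k _ => (hfc.mul hG).intervalIntegrable _ _)
    have h2 := intervalIntegral.sum_integral_adjacent_intervals (μ := volume) (a := c n)
      (n := n + 1) (f := f) (fun k _ => hf.intervalIntegrable _ _)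
    rw [hc0, hcn] at h1 h2
    rw [← h1, ← Finset.sum_sub_distrib]
    have h4 : ∀ k ∈ Finset.range (n + 1),
        ‖(∫ x in (c n k)..(c n (k + 1)), (f x : ℂ) * G x) -
          ((∫ x in (c n k)..(c n (k + 1)), f x : ℝ) : ℂ) * G (c n k)‖ ≤
        ε / (I + 1) * ∫ x in (c n k)..(c n (k + 1)), f x := by
      intro k hk
      have hk' := Finset.mem_range.1 hk
      refine err hf hf0 hG (hcm n k) fun x hx hx' => ?_
      have h5 := hck k (by omega)
      have h6 := hck (k + 1) (by omega)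
      have h7 := hδ' x ⟨by linarith [h5.1], by linarith [h6.2]⟩ (c n k) h5 (by
        rw [Real.dist_eq, abs_of_nonneg (by linarith)]
        have := hcs n k
        linarith)
      rw [dist_eq_norm] at h7
      exact h7.le
    refine lt_of_le_of_lt ((norm_sum_le _ _).trans (Finset.sum_le_sum h4)) ?_
    rw [← Finset.mul_sum, h2, ← hI, div_mul_eq_mul_div, div_lt_iff₀ (by linarith)]
    nlinarith
  exact tendsto_nhds_unique hleft hright

end Pool.Agent.GNS
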