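import Pool.Agent.GNS.T3

/-!
# GNS: the target RK1 (quadratic ridge bodies)
-/

set_option autoImplicit false

open Metric Set Filter Topology MeasureTheory

noncomputable section

namespace Pool.Agent.GNS

open Pool.Agent.GLB

theorem RK1_dd : deriv (deriv fun s : ℝ => s ^ 2 / 2) = fun _ => 1 := by
  have h1 : (deriv fun s : ℝ => s ^ 2 / 2) = fun s => s := by
    funext s
    have h : HasDerivAt (fun s : ℝ => s ^ 2 / 2) (((2 : ℕ) : ℝ) * s ^ (2 - 1) / 2) s :=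
      (hasDerivAt_pow 2 s).div_const 2
    rw [h.deriv]
    norm_num
  rw [h1]
  funext s
  exact deriv_id s

/-- the chart function of a quadratic ridge body -/
theorem RK1_ch (hCHZ : T_CHZ) {m : ℕ} (κ : E m) (ρ : ℝ) (hρ : 5 * ‖κ‖ ≤ ρ) :
    ∃ a : E (m + 1), ∀ x : E m, ‖x‖ < 5 →
      ch (Zr κ ρ fun _ => 1) x = (inner ℝ κ x) ^ 2 / 2 + inner ℝ a (up x) := by
  have hρ0 : 0 ≤ ρ := le_trans (by positivity) hρ
  have hF : ContDiff ℝ 2 (fun s : ℝ => s ^ 2 / 2) := (contDiff_id.pow 2).div_const 2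
  obtain ⟨a, ha⟩ := hCHZ m κ ρ (fun s => s ^ 2 / 2) hρ0 hF (by
    intro t
    rw [RK1_dd]
    exact zero_le_one)
  rw [RK1_dd] at ha
  refine ⟨a, fun x hx => ha x ?_⟩
  calc |inner ℝ κ x| ≤ ‖κ‖ * ‖x‖ := abs_real_inner_le_norm κ x
    _ ≤ ‖κ‖ * 5 := mul_le_mul_of_nonneg_left hx.le (norm_nonneg κ)
    _ ≤ ρ := by linarith

theorem RK1_nb {m : ℕ} (i : Fin m) : ‖(eb i : E m)‖ = 1 := by
  unfold eb
  simp

theorem RK1_ib {m : ℕ} (i : Fin m) (x : E m) : inner ℝ (eb i) x = x i := by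
  unfold eb
  rw [EuclideanSpace.inner_single_left]
  simp

/-- the index type of the quadratic ridge functions -/
abbrev RK1_I (m : ℕ) : Type := Fin m × Fin m × Bool

/-- the ridge directions -/
def RK1_v {m : ℕ} (p : RK1_I m) : E m :=
  if p.2.2 then eb p.1 + eb p.2.1 else eb p.1 - eb p.2.1

/-- the coefficients -/
def RK1_c {m : ℕ} (κ : E m) (p : RK1_I m) : ℝ :=
  if p.2.2 then κ p.1 * κ p.2.1 / 4 else -(κ p.1 * κ p.2.1 / 4)

theorem RK1_vn {m : ℕ} (p : RK1_I m) : 5 * ‖RK1_v p‖ ≤ 10 := by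
  unfold RK1_v
  split_ifs
  · have := norm_add_le (eb p.1 : E m) (eb p.2.1)
    rw [RK1_nb, RK1_nb] at this
    linarith
  · have := norm_sub_le (eb p.1 : E m) (eb p.2.1)
    rw [RK1_nb, RK1_nb] at this
    linarith

theorem RK1_q {m : ℕ} (κ x : E m) :
    (inner ℝ κ x) ^ 2 / 2 = ∑ p : RK1_I m, RK1_c κ p * ((inner ℝ (RK1_v p) x) ^ 2 / 2) := by
  have h1 : inner ℝ κ x = ∑ i, κ i * x i := by
    rw [PiLp.inner_apply]
    refine Finset.sum_congr rfl fun i _ => ?_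
    simp [mul_comm]
  rw [Fintype.sum_prod_type]
  have h2 : ∀ i : Fin m, (∑ q : Fin m × Bool, RK1_c κ (i, q) *
      ((inner ℝ (RK1_v (i, q)) x) ^ 2 / 2)) = ∑ j, (κ i * x i) * (κ j * x j) / 2 := by
    intro i
    rw [Fintype.sum_prod_type]
    refine Finset.sum_congr rfl fun j _ => ?_
    rw [Fintype.sum_bool]
    simp only [RK1_c, RK1_v, if_true, Bool.false_eq_true, if_false, inner_add_left,
      inner_sub_left, RK1_ib]
    ring
  rw [Finset.sum_congr rfl fun i _ => h2 i, h1, sq, Finset.sum_mul_sum, Finset.sum_div]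
  refine Finset.sum_congr rfl fun i _ => ?_
  rw [Finset.sum_div]

theorem RK1_sy {m : ℕ} (Ψ : ConvexBody (E (m + 1)) → (C(S (m + 1), ℂ) →L[ℂ] ℂ))
    (φ : C(S (m + 1), ℂ)) (K L : ConvexBody (E (m + 1))) : FF Ψ φ K L = FF Ψ φ L K := by
  unfold FF
  rw [add_comm K L]
  ring

/-- one argument -/
theorem RK1_one (hCHZ : T_CHZ) (hSGN : T_SGN) (hRDG : T_RDG) {m : ℕ}
    {Ψ : ConvexBody (E (m + 1)) → (C(S (m + 1), ℂ) →L[ℂ] ℂ)} (hΨ : IsArea (m + 1) 2 Ψ)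
    {φ : E m → ℂ} (hφ : Tf 5 φ) (κ : E m) (ρ : ℝ) (hρ : 5 * ‖κ‖ ≤ ρ)
    (Y : ConvexBody (E (m + 1))) (hY : Zn Y) :
    FF Ψ (HC φ) (Zr κ ρ fun _ => 1) Y =
      ∑ p : RK1_I m, (RK1_c κ p : ℂ) * FF Ψ (HC φ) (Zq (RK1_v p)) Y := by
  have hρ0 : 0 ≤ ρ := le_trans (by positivity) hρ
  obtain ⟨a, ha⟩ := RK1_ch hCHZ κ ρ hρ
  choose b hb using fun p : RK1_I m => RK1_ch hCHZ (RK1_v p) 10 (RK1_vn p)
  refine hSGN m Ψ hΨ 5 φ hφ (RK1_I m) (fun p => Zq (RK1_v p)) (RK1_c κ) (Zr κ ρ fun _ => 1) Y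
    (a - ∑ p, RK1_c κ p • b p) (ball 0 5) isOpen_ball ?_ ?_ ?_ hY ?_
  · intro x hx
    rw [mem_ball, dist_zero_right, not_lt] at hx
    exact hφ.out x hx
  · intro p
    exact (hRDG m (RK1_v p) 10 (fun _ => 1) (by norm_num) continuous_const
      (fun _ => zero_le_one)).2
  · exact (hRDG m κ ρ (fun _ => 1) hρ0 continuous_const (fun _ => zero_le_one)).2
  · intro x hx
    rw [mem_ball, dist_zero_right] at hx
    rw [ha x hx, RK1_q κ x, inner_sub_left, sum_inner]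
    have h1 : ∀ p : RK1_I m, RK1_c κ p * ch (Zq (RK1_v p)) x =
        RK1_c κ p * ((inner ℝ (RK1_v p) x) ^ 2 / 2) + inner ℝ (RK1_c κ p • b p) (up x) := by
      intro p
      have h2 : ch (Zq (RK1_v p)) x = (inner ℝ (RK1_v p) x) ^ 2 / 2 + inner ℝ (b p) (up x) :=
        hb p x hx
      rw [h2, real_inner_smul_left]
      ring
    rw [Finset.sum_congr rfl fun p _ => h1 p, Finset.sum_add_distrib]
    ring

theorem p_RK1 (hCHZ : T_CHZ) (hSGN : T_SGN) (hRDG : T_RDG) : T_RK1 := by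
  intro m Ψ hΨ φ hφ κ κ' ρ ρ' hρ hρ'
  have hρ0 : 0 ≤ ρ' := le_trans (by positivity) hρ'
  have hZ' : Zn (Zr κ' ρ' fun _ => 1) :=
    (hRDG m κ' ρ' (fun _ => 1) hρ0 continuous_const (fun _ => zero_le_one)).2
  rw [RK1_one hCHZ hSGN hRDG hΨ hφ κ ρ hρ _ hZ']
  have h1 : ∀ p : RK1_I m, FF Ψ (HC φ) (Zq (RK1_v p)) (Zr κ' ρ' fun _ => 1) =
      ∑ r : RK1_I m, (RK1_c κ' r : ℂ) * FF Ψ (HC φ) (Zq (RK1_v p)) (Zq (RK1_v r)) := by
    intro p
    rw [RK1_sy, RK1_one hCHZ hSGN hRDG hΨ hφ κ' ρ' hρ' (Zq (RK1_v p))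
      ((hRDG m (RK1_v p) 10 (fun _ => 1) (by norm_num) continuous_const
        (fun _ => zero_le_one)).2)]
    exact Finset.sum_congr rfl fun r _ => by rw [RK1_sy]
  rw [Finset.sum_congr rfl fun p _ => by rw [h1 p], Fintype.sum_prod_type, Finset.mul_sum]
  refine Finset.sum_congr rfl fun i _ => ?_
  rw [Fintype.sum_prod_type, Finset.mul_sum]
  refine Finset.sum_congr rfl fun j _ => ?_
  rw [Fintype.sum_bool, Fintype.sum_prod_type, Fintype.sum_prod_type, Finset.mul_sum,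
    Finset.mul_sum, Finset.mul_sum, ← Finset.sum_add_distrib]
  refine Finset.sum_congr rfl fun k _ => ?_
  rw [Fintype.sum_prod_type, Fintype.sum_prod_type, Finset.mul_sum,
    Finset.mul_sum, Finset.mul_sum, ← Finset.sum_add_distrib]
  refine Finset.sum_congr rfl fun l _ => ?_
  rw [Fintype.sum_bool, Fintype.sum_bool]
  simp only [RK1_c, RK1_v, B4, if_true, Bool.false_eq_true, if_false]
  push_cast
  ring

end Pool.Agent.GNS
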