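import Pool.Agent.GNS.T3

/-!
# GNS: RKA, the algebra of the waves
-/

set_option autoImplicit false

open Metric Set Filter Topology MeasureTheory

noncomputable section

namespace Pool.Agent.GNS

open Pool.Agent.GLB

namespace RKA_

variable {m : ℕ}

theorem tf_mul {R : ℝ} {φ : E m → ℂ} (h : Tf R φ) {g : E m → ℂ} (hg : Continuous g) :
    Tf R (fun x => φ x * g x) :=
  ⟨h.cont.mul hg, fun x hx => by rw [h.out x hx, zero_mul]⟩

theorem tf_cmul {R : ℝ} {φ : E m → ℂ} (h : Tf R φ) (c : ℂ) : Tf R (fun x => c * φ x) :=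
  ⟨continuous_const.mul h.cont, fun x hx => by rw [h.out x hx, mul_zero]⟩

theorem tf_zero {R : ℝ} : Tf R (fun _ : E m => (0 : ℂ)) := ⟨continuous_const, fun _ _ => rfl⟩

theorem tf_sum {R : ℝ} {ι : Type} (s : Finset ι) (φ : ι → E m → ℂ) (h : ∀ a, Tf R (φ a)) :
    Tf R (fun x => ∑ a ∈ s, φ a x) :=
  ⟨continuous_finsetSum _ fun a _ => (h a).cont,
    fun x hx => Finset.sum_eq_zero fun a _ => (h a).out x hx⟩

variable {Ψ : ConvexBody (E (m + 1)) → (C(S (m + 1), ℂ) →L[ℂ] ℂ)}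

theorem b4_cmul (hB : T_B4P) (hΨ : IsArea (m + 1) 2 Ψ) {R : ℝ} {φ : E m → ℂ} (h : Tf R φ)
    (i j a b : Fin m) (c : ℂ) :
    B4 Ψ i j a b (fun x => c * φ x) = c * B4 Ψ i j a b φ := by
  obtain ⟨C, -, hC⟩ := hB
  exact (hC m Ψ hΨ R φ φ h h i j a b).2.1 c

theorem b4_add (hB : T_B4P) (hΨ : IsArea (m + 1) 2 Ψ) {R : ℝ} {φ ψ : E m → ℂ} (h : Tf R φ)
    (h' : Tf R ψ) (i j a b : Fin m) :
    B4 Ψ i j a b (fun x => φ x + ψ x) = B4 Ψ i j a b φ + B4 Ψ i j a b ψ := by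
  obtain ⟨C, -, hC⟩ := hB
  exact (hC m Ψ hΨ R φ ψ h h' i j a b).1

theorem b4_zero (hB : T_B4P) (hΨ : IsArea (m + 1) 2 Ψ) (i j a b : Fin m) :
    B4 Ψ i j a b (fun _ => 0) = 0 := by
  have h := b4_cmul hB hΨ (tf_zero (m := m) (R := 1)) i j a b 0
  simpa using h

theorem b4_sum (hB : T_B4P) (hΨ : IsArea (m + 1) 2 Ψ) {R : ℝ} {ι : Type} (s : Finset ι)
    (φ : ι → E m → ℂ) (h : ∀ a, Tf R (φ a)) (i j a b : Fin m) :
    B4 Ψ i j a b (fun x => ∑ t ∈ s, φ t x) = ∑ t ∈ s, B4 Ψ i j a b (φ t) := by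
  classical
  induction s using Finset.induction_on with
  | empty => simpa using b4_zero hB hΨ i j a b
  | insert t s ht ih =>
    have e : (fun x => ∑ t ∈ insert t s, φ t x) = fun x => φ t x + ∑ t ∈ s, φ t x := by
      funext x
      rw [Finset.sum_insert ht]
    rw [e, b4_add hB hΨ (h t) (tf_sum s φ h), ih, Finset.sum_insert ht]

theorem bb_sum (hB : T_B4P) (hΨ : IsArea (m + 1) 2 Ψ) {R : ℝ} {ι : Type} (s : Finset ι)
    (φ : ι → E m → ℂ) (h : ∀ a, Tf R (φ a)) (A A' : E m → Fin m → Fin m → ℝ)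
    (hA : ∀ i j, Continuous fun x => A x i j) (hA' : ∀ i j, Continuous fun x => A' x i j) :
    BB Ψ A A' (fun x => ∑ t ∈ s, φ t x) = ∑ t ∈ s, BB Ψ A A' (φ t) := by
  unfold BB
  refine Eq.trans ?_ Finset.sum_comm
  refine Finset.sum_congr rfl fun i _ => ?_
  refine Eq.trans ?_ Finset.sum_comm
  refine Finset.sum_congr rfl fun j _ => ?_
  refine Eq.trans ?_ Finset.sum_comm
  refine Finset.sum_congr rfl fun a _ => ?_
  refine Eq.trans ?_ Finset.sum_comm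
  refine Finset.sum_congr rfl fun b _ => ?_
  have hc : Continuous fun x => ((A x i j : ℝ) : ℂ) := Complex.continuous_ofReal.comp (hA i j)
  have hc' : Continuous fun x => ((A' x a b : ℝ) : ℂ) :=
    Complex.continuous_ofReal.comp (hA' a b)
  have e : (fun x => (∑ t ∈ s, φ t x) * (A x i j : ℂ) * (A' x a b : ℂ)) =
      fun x => ∑ t ∈ s, φ t x * (A x i j : ℂ) * (A' x a b : ℂ) := by
    funext x
    rw [Finset.sum_mul, Finset.sum_mul]
  rw [e]
  exact b4_sum hB hΨ s (fun t x => φ t x * (A x i j : ℂ) * (A' x a b : ℂ))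
    (fun t => tf_mul (tf_mul (h t) hc) hc') i j a b

theorem rk_cont (ξ : E m) (i j : Fin m) : Continuous fun x => rk ξ x i j := continuous_const

theorem sy_cont (p q : Fin m) (i j : Fin m) : Continuous fun x : E m => sy p q x i j :=
  continuous_const

theorem eb_apply (p i : Fin m) : (eb p : E m) i = if i = p then 1 else 0 := by
  unfold eb
  exact PiLp.single_apply 2 ℝ p 1 i

theorem sy_eq (p q : Fin m) (x : E m) (i j : Fin m) :
    sy p q x i j = (eb p : E m) i * (eb q : E m) j + (eb q : E m) i * (eb p : E m) j := by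
  simp only [sy, eb_apply, ite_and]
  split_ifs <;> norm_num

end RKA_

open RKA_

theorem p_RKA (hB : T_B4P) : T_RKA := by
  intro k Ψ hΨ K
  have e1 : ∀ (σ : Bool) (n : Fin K) (i : Fin (k + 4)),
      (wx K (Sum.inr (Sum.inl (n, σ))) : E (k + 4)) i =
        2 ^ (n : ℕ) * (eb 0 : E (k + 4)) i + sg σ * (eb 2 : E (k + 4)) i := fun _ _ _ => rfl
  have e2 : ∀ (σ : Bool) (n : Fin K) (i : Fin (k + 4)),
      (wx K (Sum.inr (Sum.inr (n, σ))) : E (k + 4)) i =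
        2 ^ (n : ℕ) * (eb 1 : E (k + 4)) i + sg σ * (eb 3 : E (k + 4)) i := fun _ _ _ => rfl
  have st : sg true = 1 := rfl
  have sf : sg false = -1 := rfl
  refine ⟨fun τ hτ => ?_, fun A hA τ hτ => ?_⟩
  · have key : ∀ n n' : Fin K, ∑ σ, ∑ σ', BB Ψ (rk (wx K (Sum.inr (Sum.inl (n, σ)))))
        (rk (wx K (Sum.inr (Sum.inr (n', σ')))))
        (fun x => (sg σ : ℂ) * (sg σ' : ℂ) * τ n n' x) =
        BB Ψ (sy 0 2) (sy 1 3) (fun x => 4 * 2 ^ (n : ℕ) * 2 ^ (n' : ℕ) * τ n n' x) := by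
      intro n n'
      simp only [Fintype.sum_bool, BB, ← Finset.sum_add_distrib]
      refine Finset.sum_congr rfl fun i _ => Finset.sum_congr rfl fun j _ =>
        Finset.sum_congr rfl fun a _ => Finset.sum_congr rfl fun b _ => ?_
      have hr : ∀ (s : ℂ) (p q : ℝ), B4 Ψ i j a b (fun x => s * τ n n' x * (p : ℂ) * (q : ℂ)) =
          s * (p : ℂ) * (q : ℂ) * B4 Ψ i j a b (τ n n') := by
        intro s p q
        rw [← b4_cmul hB hΨ (hτ n n')]
        refine congrArg _ (funext fun x => ?_)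
        ring
      have hs : ∀ s : ℂ, B4 Ψ i j a b (fun x => s * τ n n' x *
          ((sy 0 2 x i j : ℝ) : ℂ) * ((sy 1 3 x a b : ℝ) : ℂ)) =
          s * ((sy 0 2 (0 : E (k + 4)) i j : ℝ) : ℂ) * ((sy 1 3 (0 : E (k + 4)) a b : ℝ) : ℂ) *
            B4 Ψ i j a b (τ n n') := fun s => hr s _ _
      have hk : ∀ (s : ℂ) (ξ η : E (k + 4)), B4 Ψ i j a b (fun x => s * τ n n' x *
          ((rk ξ x i j : ℝ) : ℂ) * ((rk η x a b : ℝ) : ℂ)) =
          s * ((ξ i * ξ j : ℝ) : ℂ) * ((η a * η b : ℝ) : ℂ) * B4 Ψ i j a b (τ n n') :=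
        fun s ξ η => hr s _ _
      rw [hk, hk, hk, hk, hs, sy_eq, sy_eq]
      simp only [e1, e2, st, sf]
      push_cast
      ring
    have h1 : ∀ n : Fin K, ∑ σ, ∑ n', ∑ σ', BB Ψ (rk (wx K (Sum.inr (Sum.inl (n, σ)))))
        (rk (wx K (Sum.inr (Sum.inr (n', σ')))))
        (fun x => (sg σ : ℂ) * (sg σ' : ℂ) * τ n n' x) =
        ∑ n' : Fin K, BB Ψ (sy 0 2) (sy 1 3)
          (fun x => 4 * 2 ^ (n : ℕ) * 2 ^ (n' : ℕ) * τ n n' x) := by
      intro n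
      rw [Finset.sum_comm]
      exact Finset.sum_congr rfl fun n' _ => key n n'
    rw [Finset.sum_congr rfl fun n _ => h1 n]
    have h2 : ∀ n n' : Fin K, Tf 4 (fun x => 4 * 2 ^ (n : ℕ) * 2 ^ (n' : ℕ) * τ n n' x) :=
      fun n n' => tf_cmul (hτ n n') _
    have h3 : ∀ n : Fin K, Tf 4 (fun x => ∑ n' : Fin K, 4 * 2 ^ (n : ℕ) * 2 ^ (n' : ℕ) *
        τ n n' x) := fun n => tf_sum Finset.univ
          (fun (n' : Fin K) x => 4 * 2 ^ (n : ℕ) * 2 ^ (n' : ℕ) * τ n n' x) (h2 n)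
    rw [bb_sum hB hΨ Finset.univ (fun (n : Fin K) x => ∑ n' : Fin K, 4 * 2 ^ (n : ℕ) *
      2 ^ (n' : ℕ) * τ n n' x) h3 _ _ (sy_cont 0 2) (sy_cont 1 3)]
    refine Finset.sum_congr rfl fun n _ => ?_
    rw [bb_sum hB hΨ Finset.univ (fun (n' : Fin K) x => 4 * 2 ^ (n : ℕ) * 2 ^ (n' : ℕ) *
      τ n n' x)
      (h2 n) _ _ (sy_cont 0 2) (sy_cont 1 3)]
  · have key : ∀ n : Fin K, ∑ σ, BB Ψ A (rk (wx K (Sum.inr (Sum.inr (n, σ)))))
        (fun x => (sg σ : ℂ) * τ n x) =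
        BB Ψ A (sy 1 3) (fun x => 2 * 2 ^ (n : ℕ) * τ n x) := by
      intro n
      simp only [Fintype.sum_bool, BB, ← Finset.sum_add_distrib]
      refine Finset.sum_congr rfl fun i _ => Finset.sum_congr rfl fun j _ =>
        Finset.sum_congr rfl fun a _ => Finset.sum_congr rfl fun b _ => ?_
      have hc : Continuous fun x => ((A x i j : ℝ) : ℂ) :=
        Complex.continuous_ofReal.comp (hA i j)
      have hr : ∀ (s : ℂ) (q : ℝ), B4 Ψ i j a b (fun x => s * τ n x * (A x i j : ℂ) * (q : ℂ)) =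
          s * (q : ℂ) * B4 Ψ i j a b (fun x => τ n x * (A x i j : ℂ)) := by
        intro s q
        rw [← b4_cmul hB hΨ (tf_mul (hτ n) hc)]
        refine congrArg _ (funext fun x => ?_)
        ring
      have hs : ∀ s : ℂ, B4 Ψ i j a b (fun x => s * τ n x *
          (A x i j : ℂ) * ((sy 1 3 x a b : ℝ) : ℂ)) =
          s * ((sy 1 3 (0 : E (k + 4)) a b : ℝ) : ℂ) *
            B4 Ψ i j a b (fun x => τ n x * (A x i j : ℂ)) := fun s => hr s _
      have hk : ∀ (s : ℂ) (η : E (k + 4)), B4 Ψ i j a b (fun x => s * τ n x *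
          (A x i j : ℂ) * ((rk η x a b : ℝ) : ℂ)) =
          s * ((η a * η b : ℝ) : ℂ) * B4 Ψ i j a b (fun x => τ n x * (A x i j : ℂ)) :=
        fun s η => hr s _
      rw [hk, hk, hs, sy_eq]
      simp only [e2, st, sf]
      push_cast
      ring
    rw [Finset.sum_congr rfl fun n _ => key n]
    rw [bb_sum hB hΨ Finset.univ (fun (n : Fin K) x => 2 * 2 ^ (n : ℕ) * τ n x)
      (fun n => tf_cmul (hτ n) _) _ _ hA (sy_cont 1 3)]

end Pool.Agent.GNS
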