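import Pool.Agent.GNS.T3

/-!
# GNS: the target RLC (locality of ridge bodies)
-/

set_option autoImplicit false

open Metric Set Filter Topology MeasureTheory

noncomputable section

namespace Pool.Agent.GNS

open Pool.Agent.GLB

theorem RLC_tf {m : ℕ} {R : ℝ} {φ : E m → ℂ} (hφ : Tf R φ) (κ : E m) {f : ℝ → ℝ}
    (hf : Continuous f) : Tf R (fun x => φ x * (f (inner ℝ κ x) : ℂ)) := by
  refine ⟨?_, ?_⟩
  · refine hφ.cont.mul (Complex.continuous_ofReal.comp (hf.comp ?_))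
    exact continuous_const.inner continuous_id
  · intro x hx
    show φ x * _ = 0
    rw [hφ.out x hx, zero_mul]

theorem p_RLC (hRFM : T_RFM) (hSLC : T_SLC) : T_RLC := by
  intro m Ψ hΨ R φ hφ κ ρ f hρ hf hf0 Y hY
  rw [(hRFM m Ψ hΨ R φ hφ κ ρ f hρ hf hf0 Y hY).2,
    (hRFM m Ψ hΨ R _ (RLC_tf hφ κ hf) κ ρ (fun _ => 1) hρ continuous_const
      (fun _ => zero_le_one) Y hY).2]
  refine intervalIntegral.integral_congr fun c _ => ?_
  show (f c : ℂ) * _ = ((1 : ℝ) : ℂ) * _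
  rw [hSLC m Ψ hΨ R φ hφ κ c f hf Y, Complex.ofReal_one, one_mul]

end Pool.Agent.GNS
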