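import Pool.Agent.GNS.T3

/-!
# GNS: the second derivative of `rt`
-/

set_option autoImplicit false

open Metric Set Filter Topology MeasureTheory

noncomputable section

namespace Pool.Agent.GNS

open Pool.Agent.GLB

theorem RTS_pos {m : ℕ} (x : E m) : 0 < rt x := by
  unfold rt
  apply Real.sqrt_pos.2
  positivity

theorem RTS_sq {m : ℕ} (x : E m) : rt x ^ 2 = 1 + ‖x‖ ^ 2 := by
  unfold rt
  exact Real.sq_sqrt (by positivity)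

theorem RTS_sm {m : ℕ} : SmE (rt : E m → ℝ) := by
  unfold SmE rt
  refine ContDiff.sqrt (contDiff_const.add (contDiff_norm_sq ℝ)) ?_
  intro x
  positivity

theorem RTS_h1 {m : ℕ} (x : E m) : HasFDerivAt (rt : E m → ℝ) ((rt x)⁻¹ • innerSL ℝ x) x := by
  have h1 : HasFDerivAt (fun y : E m => 1 + ‖y‖ ^ 2) (2 • innerSL ℝ x) x :=
    (hasStrictFDerivAt_norm_sq x).hasFDerivAt.const_add 1
  have h2 : (1 + ‖x‖ ^ 2) ≠ 0 := by positivity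
  have h3 := h1.sqrt h2
  have h4 : (1 / (2 * Real.sqrt (1 + ‖x‖ ^ 2))) • (2 • innerSL ℝ x) =
      (rt x)⁻¹ • innerSL ℝ x := by
    have h5 : Real.sqrt (1 + ‖x‖ ^ 2) = rt x := rfl
    have h6 : rt x ≠ 0 := (RTS_pos x).ne'
    rw [h5]
    ext v
    simp only [smul_apply, smul_eq_mul, nsmul_eq_mul]
    push_cast
    field_simp
  rw [h4] at h3
  exact h3

theorem RTS_fd {m : ℕ} : fderiv ℝ (rt : E m → ℝ) = fun x => (rt x)⁻¹ • innerSL ℝ x :=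
  funext fun x => (RTS_h1 x).fderiv

theorem RTS_d2 {m : ℕ} (x v : E m) :
    D2 rt x v v = (rt x)⁻¹ * ‖v‖ ^ 2 - ((rt x) ^ 2)⁻¹ * (rt x)⁻¹ * (inner ℝ x v) ^ 2 := by
  unfold D2
  rw [RTS_fd]
  have h0 : rt x ≠ 0 := (RTS_pos x).ne'
  have h1 : HasFDerivAt (fun y : E m => (rt y)⁻¹)
      ((-((rt x) ^ 2)⁻¹) • ((rt x)⁻¹ • innerSL ℝ x)) x :=
    (hasDerivAt_inv h0).comp_hasFDerivAt x (RTS_h1 x)
  have h2 : HasFDerivAt (fun y : E m => innerSL ℝ y) (innerSL ℝ) x :=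
    (innerSL ℝ : E m →L[ℝ] E m →L[ℝ] ℝ).hasFDerivAt
  have h3 : HasFDerivAt (fun y : E m => (rt y)⁻¹ • innerSL ℝ y) _ x := h1.smul h2
  rw [h3.fderiv]
  simp only [add_apply, smul_apply, ContinuousLinearMap.smulRight_apply, innerSL_apply_apply,
    smul_eq_mul]
  have h4 : innerSL ℝ v v = ‖v‖ ^ 2 := real_inner_self_eq_norm_sq v
  rw [h4]
  ring

theorem p_RTS : T_RTS := by
  intro m
  refine ⟨RTS_sm, ?_⟩
  intro x hx v
  rw [RTS_d2]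
  have h0 := RTS_pos x
  have h1 := RTS_sq x
  have h2 : (inner ℝ x v) ^ 2 ≤ ‖x‖ ^ 2 * ‖v‖ ^ 2 := by
    rw [← mul_pow]
    exact sq_le_sq' (by linarith [neg_abs_le (inner ℝ x v), abs_real_inner_le_norm x v])
      ((le_abs_self _).trans (abs_real_inner_le_norm x v))
  have hx0 : 0 ≤ ‖x‖ := norm_nonneg x
  have h3 : ‖x‖ ^ 2 ≤ 25 := by nlinarith
  have h4 : rt x ^ 2 ≤ 26 := by linarith
  have h5 : rt x ≤ 5.1 := by nlinarith
  have h6 : rt x ^ 3 ≤ 150 := by nlinarith [mul_le_mul h4 h5 h0.le (by norm_num : (0 : ℝ) ≤ 26)]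
  have h7 : (rt x)⁻¹ * ‖v‖ ^ 2 - ((rt x) ^ 2)⁻¹ * (rt x)⁻¹ * (inner ℝ x v) ^ 2 =
      (rt x ^ 2 * ‖v‖ ^ 2 - (inner ℝ x v) ^ 2) / rt x ^ 3 := by
    field_simp
  rw [h7, h1, le_div_iff₀ (by positivity)]
  have h8 : ‖v‖ ^ 2 / 150 * rt x ^ 3 ≤ ‖v‖ ^ 2 := by
    have : ‖v‖ ^ 2 * rt x ^ 3 ≤ ‖v‖ ^ 2 * 150 :=
      mul_le_mul_of_nonneg_left h6 (by positivity)
    linarith
  nlinarith

end Pool.Agent.GNS
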