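import Pool.Agent.GNS.T5

/-!
# GNS: proof of SCN (convergence of sections)
-/

set_option autoImplicit false

open Metric Set Filter Topology MeasureTheory

noncomputable section

namespace Pool.Agent.GNS

open Pool.Agent.GLB

namespace SCN_

variable {n : ℕ}

theorem hgt_add (v w : E (n + 1)) : hgt (v + w) = hgt v + hgt w := rfl

theorem hgt_sub (v w : E (n + 1)) : hgt (v - w) = hgt v - hgt w := rfl

theorem hgt_smul (t : ℝ) (v : E (n + 1)) : hgt (t • v) = t * hgt v := rfl

theorem prj_add (v w : E (n + 1)) : prj (v + w) = prj v + prj w := rfl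

theorem prj_sub (v w : E (n + 1)) : prj (v - w) = prj v - prj w := rfl

theorem prj_smul (t : ℝ) (v : E (n + 1)) : prj (t • v) = t • prj v := rfl

theorem hgt_el : hgt (el : E (n + 1)) = 1 := by
  simp [hgt, el, eb]

theorem prj_el : prj (el : E (n + 1)) = 0 := by
  ext i
  simp [prj, el, eb]

theorem hgt_emb (x : E n) : hgt (emb x) = 0 := by
  simp [hgt, emb]

theorem near (hEMB : T_EMB) {A B : ConvexBody (E (n + 1))} {ζ ε c D : ℝ} (hε : 0 ≤ ε)
    (hc : 0 < c) (hAB : ∀ x ∈ A, ∃ y ∈ B, dist x y ≤ ε) (hp : ∃ p ∈ B, hgt p ≤ ζ - c)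
    (hq : ∃ q ∈ B, ζ + c ≤ hgt q) (hD : ∀ x ∈ B, ∀ y ∈ B, dist x y ≤ D) (x : E n)
    (hx : x ∈ sec A ζ) : ∃ y ∈ sec B ζ, dist x y ≤ ε + ε / c * D := by
  obtain ⟨-, e2, e3, e4, -⟩ := hEMB n
  have hnp : ∀ v : E (n + 1), ‖prj v‖ ≤ ‖v‖ := by
    intro v
    have := e4 v
    exact abs_le_of_sq_le_sq' (by nlinarith [sq_nonneg (hgt v)]) (norm_nonneg v) |>.2
  have hnh : ∀ v : E (n + 1), |hgt v| ≤ ‖v‖ := by
    intro v
    have := e4 v
    exact abs_le_of_sq_le_sq (by nlinarith [sq_nonneg ‖prj v‖]) (norm_nonneg v)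
  have hX : emb x + ζ • el ∈ A := hx
  obtain ⟨x', hx', hd⟩ := hAB _ hX
  have hh : |hgt x' - ζ| ≤ ε := by
    have h1 : hgt (x' - (emb x + ζ • el)) = hgt x' - ζ := by
      rw [hgt_sub, hgt_add, hgt_smul, hgt_emb, hgt_el]
      ring
    rw [← h1]
    refine (hnh _).trans ?_
    rw [← dist_eq_norm, dist_comm]
    exact hd
  -- moving towards a point on the other side
  have key : ∀ q ∈ B, ∀ s : ℝ, 0 ≤ s → s ≤ 1 → s ≤ ε / c →
      (1 - s) * hgt x' + s * hgt q = ζ → ∃ y ∈ sec B ζ, dist x y ≤ ε + ε / c * D := by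
    intro q hqB s hs0 hs1 hs2 hs3
    set y' : E (n + 1) := (1 - s) • x' + s • q with hy'
    have hyB : y' ∈ B := B.convex hx' hqB (by linarith) hs0 (by ring)
    have hhy : hgt y' = ζ := by
      rw [hy', hgt_add, hgt_smul, hgt_smul]
      exact hs3
    refine ⟨prj y', ?_, ?_⟩
    · have h1 : emb (prj y') + ζ • el = y' := by
        conv_rhs => rw [e2 y', hhy]
      change emb (prj y') + ζ • el ∈ B
      rw [h1]
      exact hyB
    · have h2 : x = prj (emb x + ζ • el) := by
        rw [prj_add, prj_smul, prj_el, e3]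
        simp
      have h3 : dist x (prj y') ≤ dist (emb x + ζ • el) y' := by
        conv_lhs => rw [h2]
        rw [dist_eq_norm, dist_eq_norm, ← prj_sub]
        exact hnp _
      have h4 : dist x' y' ≤ s * D := by
        have h5 : x' - y' = s • (x' - q) := by
          rw [hy']
          module
        rw [dist_eq_norm, h5, norm_smul, Real.norm_of_nonneg hs0, ← dist_eq_norm]
        exact mul_le_mul_of_nonneg_left (hD _ hx' _ hqB) hs0
      have hD0 : 0 ≤ D := dist_nonneg.trans (hD _ hx' _ hx')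
      calc dist x (prj y') ≤ dist (emb x + ζ • el) y' := h3
        _ ≤ dist (emb x + ζ • el) x' + dist x' y' := dist_triangle _ _ _
        _ ≤ ε + s * D := add_le_add hd h4
        _ ≤ ε + ε / c * D := by
          have := mul_le_mul_of_nonneg_right hs2 hD0
          linarith
  rcases le_total (hgt x') ζ with hcase | hcase
  · obtain ⟨q, hqB, hqh⟩ := hq
    have hpos : 0 < hgt q - hgt x' := by linarith
    apply key q hqB ((ζ - hgt x') / (hgt q - hgt x'))
    · apply div_nonneg <;> linarith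
    · rw [div_le_one hpos]
      linarith
    · have h1 : ζ - hgt x' ≤ ε := by
        have := (abs_le.1 hh).1
        linarith
      exact div_le_div₀ hε h1 hc (by linarith)
    · field_simp
      ring
  · obtain ⟨q, hqB, hqh⟩ := hp
    have hpos : 0 < hgt x' - hgt q := by linarith
    apply key q hqB ((hgt x' - ζ) / (hgt x' - hgt q))
    · apply div_nonneg <;> linarith
    · rw [div_le_one hpos]
      linarith
    · have h1 : hgt x' - ζ ≤ ε := (abs_le.1 hh).2
      exact div_le_div₀ hε h1 hc (by linarith)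
    · field_simp
      ring

/-- sections between a lower and an upper point are nonempty -/
theorem nonempty (hEMB : T_EMB) {B : ConvexBody (E (n + 1))} {ζ : ℝ} (hp : ∃ p ∈ B, hgt p < ζ)
    (hq : ∃ q ∈ B, ζ < hgt q) : (sec B ζ).Nonempty := by
  obtain ⟨p, hpB, hp⟩ := hp
  obtain ⟨q, hqB, hq⟩ := hq
  obtain ⟨-, e2, -⟩ := hEMB n
  have hpos : 0 < hgt q - hgt p := by linarith
  set s : ℝ := (ζ - hgt p) / (hgt q - hgt p) with hs
  have hs0 : 0 ≤ s := by
    apply div_nonneg <;> linarith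
  have hs1 : s ≤ 1 := by
    rw [hs, div_le_one hpos]
    linarith
  set y' : E (n + 1) := (1 - s) • p + s • q with hy'
  have hyB : y' ∈ B := B.convex hpB hqB (by linarith) hs0 (by ring)
  have hhy : hgt y' = ζ := by
    rw [hy', hgt_add, hgt_smul, hgt_smul, hs]
    field_simp
    ring
  refine ⟨prj y', ?_⟩
  have h1 : emb (prj y') + ζ • el = y' := by
    conv_rhs => rw [e2 y', hhy]
  change emb (prj y') + ζ • el ∈ B
  rw [h1]
  exact hyB

end SCN_

open SCN_ in
open Classical in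
theorem p_SCN (hEMB : T_EMB) (hVSA : T_VSA) : T_SCN := by
  intro n Kj K ζ hK hp hq
  obtain ⟨L, hL⟩ := (hVSA n (fun _ => 0) K ζ).2.2 (nonempty hEMB hp hq)
  refine ⟨L, hL, fun j => if h : ∃ L', IsSec (Kj j) ζ L' then h.choose else L, ?_⟩
  obtain ⟨p, hpK, hpz⟩ := hp
  obtain ⟨q, hqK, hqz⟩ := hq
  set c : ℝ := min (ζ - hgt p) (hgt q - ζ) / 2 with hc
  have hc0 : 0 < c := by
    have : 0 < min (ζ - hgt p) (hgt q - ζ) := lt_min (by linarith) (by linarith)
    positivity
  have hc1 : 2 * c ≤ ζ - hgt p := by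
    have := min_le_left (ζ - hgt p) (hgt q - ζ)
    rw [hc]
    linarith
  have hc2 : 2 * c ≤ hgt q - ζ := by
    have := min_le_right (ζ - hgt p) (hgt q - ζ)
    rw [hc]
    linarith
  obtain ⟨R, hR⟩ := K.isBounded.exists_norm_le
  have hR0 : 0 ≤ R := (norm_nonneg _).trans (hR p hpK)
  obtain ⟨-, -, -, e4, -⟩ := hEMB n
  have hnh : ∀ v : E (n + 1), |hgt v| ≤ ‖v‖ := by
    intro v
    have := e4 v
    exact abs_le_of_sq_le_sq (by nlinarith [sq_nonneg ‖prj v‖]) (norm_nonneg v)
  -- consequences of a small Hausdorff distance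
  have main : ∀ (j : ℕ) (ε : ℝ), ε ≤ c → ε ≤ 1 → dist (Kj j) K < ε →
      (∃ L', IsSec (Kj j) ζ L') ∧ ∀ L', IsSec (Kj j) ζ L' →
        dist L' L ≤ ε + ε / c * (2 * R + 2) := by
    intro j ε hεc hε1 hd
    have hε0 : 0 ≤ ε := dist_nonneg.trans hd.le
    have hd1 : hausdorffDist (Kj j : Set (E (n + 1))) K < ε := hd
    have h1 : ∀ x ∈ Kj j, ∃ y ∈ K, dist x y ≤ ε := by
      intro x hx
      obtain ⟨y, hy, hxy⟩ := exists_dist_lt_of_hausdorffDist_lt hx hd1
        (ConvexBody.hausdorffEDist_ne_top)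
      exact ⟨y, hy, hxy.le⟩
    have h2 : ∀ x ∈ K, ∃ y ∈ Kj j, dist x y ≤ ε := by
      intro x hx
      obtain ⟨y, hy, hxy⟩ := exists_dist_lt_of_hausdorffDist_lt' hx hd1
        (ConvexBody.hausdorffEDist_ne_top)
      refine ⟨y, hy, ?_⟩
      rw [dist_comm]
      exact hxy.le
    have hnorm : ∀ x ∈ Kj j, ‖x‖ ≤ R + 1 := by
      intro x hx
      obtain ⟨y, hy, hxy⟩ := h1 x hx
      have := hR y hy
      have h3 : ‖x‖ ≤ ‖y‖ + dist x y := by
        rw [dist_eq_norm]
        have := norm_add_le y (x - y)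
        rwa [add_sub_cancel] at this
      linarith
    have hDj : ∀ x ∈ Kj j, ∀ y ∈ Kj j, dist x y ≤ 2 * R + 2 := by
      intro x hx y hy
      have := norm_sub_le x y
      rw [dist_eq_norm]
      have a1 := hnorm x hx
      have a2 := hnorm y hy
      linarith
    have hDK : ∀ x ∈ K, ∀ y ∈ K, dist x y ≤ 2 * R + 2 := by
      intro x hx y hy
      have := norm_sub_le x y
      rw [dist_eq_norm]
      have a1 := hR x hx
      have a2 := hR y hy
      linarith
    have hpj : ∃ p' ∈ Kj j, hgt p' ≤ ζ - c := by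
      obtain ⟨p', hp', hpp⟩ := h2 p hpK
      refine ⟨p', hp', ?_⟩
      have h4 := hnh (p - p')
      rw [← dist_eq_norm, hgt_sub] at h4
      have h5 := (abs_le.1 (h4.trans hpp)).1
      linarith
    have hqj : ∃ q' ∈ Kj j, ζ + c ≤ hgt q' := by
      obtain ⟨q', hq', hqq⟩ := h2 q hqK
      refine ⟨q', hq', ?_⟩
      have h4 := hnh (q - q')
      rw [← dist_eq_norm, hgt_sub] at h4
      have h5 := (abs_le.1 (h4.trans hqq)).2
      linarith
    refine ⟨(hVSA n (fun _ => 0) (Kj j) ζ).2.2 (nonempty hEMB ?_ ?_), ?_⟩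
    · obtain ⟨p', hp', h⟩ := hpj
      exact ⟨p', hp', by linarith⟩
    · obtain ⟨q', hq', h⟩ := hqj
      exact ⟨q', hq', by linarith⟩
    · intro L' hL'
      have hLs : (L : Set (E n)) = sec K ζ := hL
      have hLs' : (L' : Set (E n)) = sec (Kj j) ζ := hL'
      change hausdorffDist (L' : Set (E n)) L ≤ _
      rw [hLs, hLs']
      apply hausdorffDist_le_of_mem_dist
      · positivity
      · intro x hx
        exact near hEMB hε0 hc0 h1 ⟨p, hpK, by linarith⟩ ⟨q, hqK, by linarith⟩ hDK x hx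
      · intro x hx
        exact near hEMB hε0 hc0 h2 hpj hqj hDj x hx
  rw [tendsto_iff_dist_tendsto_zero] at hK
  constructor
  · have h1 : ∀ᶠ j in atTop, dist (Kj j) K < min c 1 :=
      (tendsto_order.1 hK).2 _ (lt_min hc0 one_pos)
    filter_upwards [h1] with j hj
    obtain ⟨h2, -⟩ := main j (min c 1) (min_le_left _ _) (min_le_right _ _) hj
    rw [dif_pos h2]
    exact h2.choose_spec
  · rw [Metric.tendsto_atTop]
    intro δ hδ
    set C : ℝ := 1 + (2 * R + 2) / c with hC
    have hC0 : 0 < C := by positivity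
    set ε : ℝ := min (min c 1) (δ / (2 * C)) with hε
    have hε0 : 0 < ε := lt_min (lt_min hc0 one_pos) (by positivity)
    have h1 : ∀ᶠ j in atTop, dist (Kj j) K < ε := (tendsto_order.1 hK).2 _ hε0
    obtain ⟨N, hN⟩ := eventually_atTop.1 h1
    refine ⟨N, fun j hj => ?_⟩
    obtain ⟨h2, h3⟩ := main j ε ((min_le_left _ _).trans (min_le_left _ _))
      ((min_le_left _ _).trans (min_le_right _ _)) (hN j hj)
    simp only [dif_pos h2]
    refine (h3 _ h2.choose_spec).trans_lt ?_
    have h4 : ε ≤ δ / (2 * C) := min_le_right _ _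
    calc ε + ε / c * (2 * R + 2) = ε * C := by
          rw [hC]
          ring
      _ ≤ δ / (2 * C) * C := mul_le_mul_of_nonneg_right h4 hC0.le
      _ = δ / 2 := by
          field_simp
      _ < δ := by linarith

end Pool.Agent.GNS
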