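import Pool.Agent.GNS.T3

/-!
# GNS: SGN, signed combinations of zonoids in the bilinear form
-/

set_option autoImplicit false

open Metric Set Filter Topology MeasureTheory

noncomputable section

namespace Pool.Agent.GNS

open Pool.Agent.GLB

theorem SGN_comm {m : ℕ} (Ψ : ConvexBody (E (m + 1)) → (C(S (m + 1), ℂ) →L[ℂ] ℂ))
    (φ : C(S (m + 1), ℂ)) (K L : ConvexBody (E (m + 1))) : FF Ψ φ K L = FF Ψ φ L K := by
  unfold FF
  rw [add_comm K L]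
  ring

theorem SGN_zn0 {m : ℕ} : Zn (0 : ConvexBody (E (m + 1))) := subset_closure Zt.zero

theorem SGN_ch0 (hCHT : T_CHT) {m : ℕ} (x : E m) : ch (0 : ConvexBody (E (m + 1))) x = 0 := by
  have h := (hCHT m).1 0 0 x
  rw [add_zero] at h
  linarith

/-- finite sums -/
theorem SGN_sum (hZND : T_ZND) (hCHT : T_CHT) {m : ℕ}
    {Ψ : ConvexBody (E (m + 1)) → (C(S (m + 1), ℂ) →L[ℂ] ℂ)} (hΨ : IsArea (m + 1) 2 Ψ)
    {R : ℝ} {φ : E m → ℂ} (hφ : Tf R φ) {ι : Type} (s : Finset ι)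
    (Zf : ι → ConvexBody (E (m + 1))) (c : ι → ℝ) (hc : ∀ i, 0 ≤ c i) (hZ : ∀ i, Zn (Zf i)) :
    Zn (∑ i ∈ s, c i • Zf i) ∧
    (∀ x, ch (∑ i ∈ s, c i • Zf i) x = ∑ i ∈ s, c i * ch (Zf i) x) ∧
    ∀ K : ConvexBody (E (m + 1)), Zn K → FF Ψ (HC φ) K (∑ i ∈ s, c i • Zf i) =
      ∑ i ∈ s, (c i : ℂ) * FF Ψ (HC φ) K (Zf i) := by
  classical
  induction s using Finset.induction_on with
  | empty =>
    refine ⟨by simpa using SGN_zn0, ?_, ?_⟩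
    · intro x
      simpa using SGN_ch0 hCHT x
    · intro K hK
      simp only [Finset.sum_empty]
      have h := ((hZND m Ψ hΨ R φ hφ 0 0 SGN_zn0 SGN_zn0).2.2.2.2 K).1
      rw [add_zero] at h
      have h2 : FF Ψ (HC φ) K 0 + 0 = FF Ψ (HC φ) K 0 + FF Ψ (HC φ) K 0 := by
        rw [add_zero]
        exact h
      exact (add_left_cancel h2).symm
  | insert i s hi ih =>
    obtain ⟨ih1, ih2, ih3⟩ := ih
    have hci : Zn (c i • Zf i) := (hZND m Ψ hΨ R φ hφ (Zf i) (Zf i) (hZ i) (hZ i)).2.1 (c i) (hc i)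
    have hz := hZND m Ψ hΨ R φ hφ (c i • Zf i) (∑ i ∈ s, c i • Zf i) hci ih1
    refine ⟨?_, ?_, ?_⟩
    · rw [Finset.sum_insert hi]
      exact hz.1
    · intro x
      rw [Finset.sum_insert hi, Finset.sum_insert hi, (hCHT m).1, (hCHT m).2.1 _ _ _ (hc i), ih2]
    · intro K hK
      rw [Finset.sum_insert hi, Finset.sum_insert hi, (hz.2.2.2.2 K).1, ih3 K hK,
        ((hZND m Ψ hΨ R φ hφ (Zf i) (Zf i) (hZ i) (hZ i)).2.2.2.2 K).2 (c i) (hc i)]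

theorem p_SGN (hZND : T_ZND) (hLOC : T_LOC) (hCHT : T_CHT) : T_SGN := by
  intro m Ψ hΨ R φ hφ ι _ Zf lam Z Y a U hU hout hZf hZ hY hrel
  obtain ⟨p1, p2, p3⟩ := SGN_sum hZND hCHT hΨ hφ Finset.univ Zf (fun i => max (lam i) 0)
    (fun i => le_max_right _ _) hZf
  obtain ⟨n1, n2, n3⟩ := SGN_sum hZND hCHT hΨ hφ Finset.univ Zf (fun i => max (-lam i) 0)
    (fun i => le_max_right _ _) hZf
  set Zp := ∑ i, max (lam i) 0 • Zf i with hZp
  set Zm := ∑ i, max (-lam i) 0 • Zf i with hZm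
  have hl : ∀ t : ℝ, max t 0 = t + max (-t) 0 := by
    intro t
    rcases le_total t 0 with h | h
    · rw [max_eq_right h, max_eq_left (by linarith)]
      ring
    · rw [max_eq_left h, max_eq_right (by linarith)]
      ring
  have hagree : ∀ x ∈ U, ch (Z + Zm) x = ch Zp x + inner ℝ a (up x) := by
    intro x hx
    rw [(hCHT m).1, hrel x hx, p2, n2]
    have : ∑ i, max (lam i) 0 * ch (Zf i) x =
        ∑ i, lam i * ch (Zf i) x + ∑ i, max (-lam i) 0 * ch (Zf i) x := by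
      rw [← Finset.sum_add_distrib]
      refine Finset.sum_congr rfl fun i _ => ?_
      rw [hl (lam i)]
      ring
    rw [this]
    ring
  have e1 : Ψ (Z + Zm) (HC φ) = Ψ Zp (HC φ) :=
    hLOC m 2 Ψ hΨ (Z + Zm) Zp a U hU hagree R φ hφ hout
  have e2 : Ψ (Z + Zm + Y) (HC φ) = Ψ (Zp + Y) (HC φ) := by
    refine hLOC m 2 Ψ hΨ (Z + Zm + Y) (Zp + Y) a U hU ?_ R φ hφ hout
    intro x hx
    rw [(hCHT m).1, hagree x hx, (hCHT m).1 Zp Y]
    ring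
  have e3 : FF Ψ (HC φ) (Z + Zm) Y = FF Ψ (HC φ) Zp Y := by
    unfold FF
    rw [e1, e2]
  have e4 : FF Ψ (HC φ) (Z + Zm) Y = FF Ψ (HC φ) Z Y + FF Ψ (HC φ) Zm Y := by
    rw [SGN_comm, ((hZND m Ψ hΨ R φ hφ Z Zm hZ n1).2.2.2.2 Y).1, SGN_comm Ψ _ Y Z,
      SGN_comm Ψ _ Y Zm]
  have e5 : FF Ψ (HC φ) Z Y = FF Ψ (HC φ) Zp Y - FF Ψ (HC φ) Zm Y := by
    rw [← e3, e4]
    ring
  rw [e5, SGN_comm Ψ _ Zp Y, SGN_comm Ψ _ Zm Y, p3 Y hY, n3 Y hY, ← Finset.sum_sub_distrib]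
  refine Finset.sum_congr rfl fun i _ => ?_
  rw [SGN_comm Ψ _ (Zf i) Y, hl (lam i)]
  push_cast
  ring

end Pool.Agent.GNS
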