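import Pool.Agent.GNS.T3

/-!
# GNS, job SGQ: signed combinations, the quadratic form
-/

set_option autoImplicit false

open Metric Set Filter Topology MeasureTheory

noncomputable section

namespace Pool.Agent.GNS

open Pool.Agent.GLB

namespace SGQ_

variable {m : ℕ}

/-- The chart function of a finite combination. -/
theorem ch_sum {ι : Type} (Zf : ι → ConvexBody (E (m + 1))) (t : ι → ℝ) (ht : ∀ i, 0 ≤ t i)
    (s : Finset ι) (x : E m) :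
    ch (∑ i ∈ s, t i • Zf i) x = ∑ i ∈ s, t i * ch (Zf i) x := by
  classical
  induction s using Finset.induction_on with
  | empty =>
    rw [Finset.sum_empty, Finset.sum_empty]
    have h := (gSUA (m + 1)).2.2.1 (0 : ConvexBody (E (m + 1))) 0 (up x)
    rw [add_zero] at h
    unfold ch
    linarith
  | insert a s ha ih =>
    rw [Finset.sum_insert ha, Finset.sum_insert ha, ← ih]
    unfold ch
    rw [(gSUA (m + 1)).2.2.1, (gSUA (m + 1)).2.2.2.1 _ _ _ (ht a)]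

/-- The difference form of a finite combination. -/
theorem sum_zn (hZND : T_ZND) (Ψ : ConvexBody (E (m + 1)) → (C(S (m + 1), ℂ) →L[ℂ] ℂ))
    (hΨ : IsArea (m + 1) 2 Ψ) (R : ℝ) (φ : E m → ℂ) (hφ : Tf R φ) {ι : Type}
    (Zf : ι → ConvexBody (E (m + 1))) (hZ : ∀ i, Zn (Zf i)) (t : ι → ℝ) (ht : ∀ i, 0 ≤ t i)
    (s : Finset ι) :
    Zn (∑ i ∈ s, t i • Zf i) ∧ ∀ K : ConvexBody (E (m + 1)),
      FF Ψ (HC φ) K (∑ i ∈ s, t i • Zf i) = ∑ i ∈ s, (t i : ℂ) * FF Ψ (HC φ) K (Zf i) := by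
  classical
  have h0 : Zn (0 : ConvexBody (E (m + 1))) := subset_closure Zt.zero
  induction s using Finset.induction_on with
  | empty =>
    refine ⟨by simpa using h0, fun K => ?_⟩
    have h := (hZND m Ψ hΨ R φ hφ 0 0 h0 h0).2.2.2.2 K
    have h1 := h.1
    rw [add_zero] at h1
    rw [Finset.sum_empty, Finset.sum_empty]
    linear_combination -h1
  | insert a s ha ih =>
    have h1 := hZND m Ψ hΨ R φ hφ (Zf a) (Zf a) (hZ a) (hZ a)
    have h2 : Zn (t a • Zf a) := h1.2.1 (t a) (ht a)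
    have h3 := hZND m Ψ hΨ R φ hφ _ _ h2 ih.1
    rw [Finset.sum_insert ha]
    refine ⟨h3.1, fun K => ?_⟩
    rw [(h3.2.2.2.2 K).1, (h1.2.2.2.2 K).2 (t a) (ht a), ih.2 K, Finset.sum_insert ha]

/-- Twice a body. -/
theorem two_body (Z : ConvexBody (E (m + 1))) : (2 : ℝ) • Z = Z + Z := by
  refine (gSUL (m + 1) _ _).2.1 fun u => ?_
  rw [(gSUA (m + 1)).2.2.1, (gSUA (m + 1)).2.2.2.1 _ _ _ (by norm_num)]
  ring

theorem ff_self (Ψ : ConvexBody (E (m + 1)) → (C(S (m + 1), ℂ) →L[ℂ] ℂ))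
    (hΨ : IsArea (m + 1) 2 Ψ) (φ : C(S (m + 1), ℂ)) (Z : ConvexBody (E (m + 1))) :
    FF Ψ φ Z Z = 2 * Ψ Z φ := by
  unfold FF
  rw [← two_body, hΨ.homog Z 2 (by norm_num)]
  simp only [smul_apply, smul_eq_mul]
  push_cast
  ring

end SGQ_

open SGQ_ in
/-- SGQ. -/
theorem p_SGQ (hZND : T_ZND) (hLOC : T_LOC) : T_SGQ := by
  intro m Ψ hΨ R φ hφ ι _ Zf lam K a U hU hφU hZ hK
  obtain ⟨p, hp⟩ : ∃ p : ι → ℝ, p = fun i => max (lam i) 0 := ⟨_, rfl⟩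
  obtain ⟨q, hq⟩ : ∃ q : ι → ℝ, q = fun i => max (-lam i) 0 := ⟨_, rfl⟩
  have hp0 : ∀ i, 0 ≤ p i := by
    intro i; rw [hp]; exact le_max_right _ _
  have hq0 : ∀ i, 0 ≤ q i := by
    intro i; rw [hq]; exact le_max_right _ _
  have hpq : ∀ i, lam i = p i - q i := by
    intro i
    rw [hp, hq]
    simp only
    rcases le_total 0 (lam i) with h | h
    · rw [max_eq_left h, max_eq_right (by linarith)]; ring
    · rw [max_eq_right h, max_eq_left (by linarith)]; ring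
  obtain ⟨P, hP⟩ : ∃ P, P = ∑ i, p i • Zf i := ⟨_, rfl⟩
  obtain ⟨N, hN⟩ : ∃ N, N = ∑ i, q i • Zf i := ⟨_, rfl⟩
  have sP := sum_zn hZND Ψ hΨ R φ hφ Zf hZ p hp0 Finset.univ
  have sN := sum_zn hZND Ψ hΨ R φ hφ Zf hZ q hq0 Finset.univ
  rw [← hP] at sP
  rw [← hN] at sN
  obtain ⟨zP, fP⟩ := sP
  obtain ⟨zN, fN⟩ := sN
  -- `K + N` and `P` agree on `U`
  have hch : ∀ x ∈ U, ch (K + N) x = ch P x + inner ℝ a (up x) := by
    intro x hx
    have h1 : ch (K + N) x = ch K x + ch N x := (gSUA (m + 1)).2.2.1 _ _ _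
    rw [h1, hK x hx, hN, hP, ch_sum Zf q hq0, ch_sum Zf p hp0]
    have h2 : (∑ i, lam i * ch (Zf i) x) = (∑ i, p i * ch (Zf i) x) -
        ∑ i, q i * ch (Zf i) x := by
      rw [← Finset.sum_sub_distrib]
      refine Finset.sum_congr rfl fun i _ => ?_
      rw [hpq i]; ring
    rw [h2]; ring
  have hch2 : ∀ Y : ConvexBody (E (m + 1)), ∀ x ∈ U,
      ch (K + N + Y) x = ch (P + Y) x + inner ℝ a (up x) := by
    intro Y x hx
    have h1 : ch (K + N + Y) x = ch (K + N) x + ch Y x := (gSUA (m + 1)).2.2.1 _ _ _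
    have h2 : ch (P + Y) x = ch P x + ch Y x := (gSUA (m + 1)).2.2.1 _ _ _
    rw [h1, h2, hch x hx]; ring
  have l1 : Ψ (K + N) (HC φ) = Ψ P (HC φ) := hLOC m 2 Ψ hΨ _ _ a U hU hch R φ hφ hφU
  have l2 : ∀ Y, Ψ (K + N + Y) (HC φ) = Ψ (P + Y) (HC φ) := fun Y =>
    hLOC m 2 Ψ hΨ _ _ a U hU (hch2 Y) R φ hφ hφU
  -- the form with `N`
  have zNN := hZND m Ψ hΨ R φ hφ N N zN zN
  have zPN := hZND m Ψ hΨ R φ hφ P N zP zN
  have hKN : FF Ψ (HC φ) K N = FF Ψ (HC φ) P N - FF Ψ (HC φ) N N := by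
    have h1 := (zNN.2.2.2.2 K).1
    have h2 := l2 N
    rw [add_assoc] at h2
    unfold FF at h1 ⊢
    rw [h2] at h1
    linear_combination -h1 - l1
  have e1 := ff_self Ψ hΨ (HC φ) P
  have e2 := ff_self Ψ hΨ (HC φ) N
  have main : Ψ K (HC φ) = (1 / 2 : ℂ) *
      (FF Ψ (HC φ) P P - 2 * FF Ψ (HC φ) P N + FF Ψ (HC φ) N N) := by
    have h1 : FF Ψ (HC φ) K N = Ψ (K + N) (HC φ) - Ψ K (HC φ) - Ψ N (HC φ) := rfl
    rw [l1] at h1
    linear_combination h1 - hKN - (1 / 2 : ℂ) * e1 + (1 / 2 : ℂ) * e2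
  -- expansion
  have sym : ∀ i j, FF Ψ (HC φ) (Zf i) (Zf j) = FF Ψ (HC φ) (Zf j) (Zf i) := fun i j =>
    (hZND m Ψ hΨ R φ hφ (Zf i) (Zf j) (hZ i) (hZ j)).2.2.2.1
  have hPj : ∀ j, FF Ψ (HC φ) P (Zf j) = ∑ i, (p i : ℂ) * FF Ψ (HC φ) (Zf i) (Zf j) := by
    intro j
    rw [(hZND m Ψ hΨ R φ hφ P (Zf j) zP (hZ j)).2.2.2.1, fP]
    exact Finset.sum_congr rfl fun i _ => by rw [sym]
  have hNj : ∀ j, FF Ψ (HC φ) N (Zf j) = ∑ i, (q i : ℂ) * FF Ψ (HC φ) (Zf i) (Zf j) := by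
    intro j
    rw [(hZND m Ψ hΨ R φ hφ N (Zf j) zN (hZ j)).2.2.2.1, fN]
    exact Finset.sum_congr rfl fun i _ => by rw [sym]
  have aPP : FF Ψ (HC φ) P P =
      ∑ i, ∑ j, (p i : ℂ) * (p j : ℂ) * FF Ψ (HC φ) (Zf i) (Zf j) := by
    rw [fP, Finset.sum_comm]
    refine Finset.sum_congr rfl fun j _ => ?_
    rw [hPj, Finset.mul_sum]
    exact Finset.sum_congr rfl fun i _ => by ring
  have aNN : FF Ψ (HC φ) N N =
      ∑ i, ∑ j, (q i : ℂ) * (q j : ℂ) * FF Ψ (HC φ) (Zf i) (Zf j) := by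
    rw [fN, Finset.sum_comm]
    refine Finset.sum_congr rfl fun j _ => ?_
    rw [hNj, Finset.mul_sum]
    exact Finset.sum_congr rfl fun i _ => by ring
  have aPN : FF Ψ (HC φ) P N =
      ∑ i, ∑ j, (p i : ℂ) * (q j : ℂ) * FF Ψ (HC φ) (Zf i) (Zf j) := by
    rw [fN, Finset.sum_comm]
    refine Finset.sum_congr rfl fun j _ => ?_
    rw [hPj, Finset.mul_sum]
    exact Finset.sum_congr rfl fun i _ => by ring
  have aPN' : FF Ψ (HC φ) P N =
      ∑ i, ∑ j, (q i : ℂ) * (p j : ℂ) * FF Ψ (HC φ) (Zf i) (Zf j) := by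
    rw [aPN, Finset.sum_comm]
    refine Finset.sum_congr rfl fun j _ => Finset.sum_congr rfl fun i _ => ?_
    rw [sym i j]; ring
  have exp : (∑ i, ∑ j, (lam i : ℂ) * (lam j : ℂ) * FF Ψ (HC φ) (Zf i) (Zf j)) =
      FF Ψ (HC φ) P P - FF Ψ (HC φ) P N - FF Ψ (HC φ) P N + FF Ψ (HC φ) N N := by
    nth_rewrite 2 [aPN']
    rw [aPP, aPN, aNN, ← Finset.sum_sub_distrib, ← Finset.sum_sub_distrib,
      ← Finset.sum_add_distrib]
    refine Finset.sum_congr rfl fun i _ => ?_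
    rw [← Finset.sum_sub_distrib, ← Finset.sum_sub_distrib, ← Finset.sum_add_distrib]
    refine Finset.sum_congr rfl fun j _ => ?_
    rw [hpq i, hpq j]
    push_cast
    ring
  rw [main, exp]
  ring

end Pool.Agent.GNS
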