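import Pool.Agent.GNS.T3

/-!
# GNS: proof of SLC (locality on a hyperplane)
-/

set_option autoImplicit false

open Metric Set Filter Topology MeasureTheory

noncomputable section

namespace Pool.Agent.GNS

open Pool.Agent.GLB

namespace SLC_

variable {m : ℕ}

theorem FF_add (Ψ : ConvexBody (E (m + 1)) → (C(S (m + 1), ℂ) →L[ℂ] ℂ))
    (φ ψ : C(S (m + 1), ℂ)) (K L : ConvexBody (E (m + 1))) :
    FF Ψ (φ + ψ) K L = FF Ψ φ K L + FF Ψ ψ K L := by
  unfold FF
  rw [map_add, map_add, map_add]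
  ring

theorem FF_smul (Ψ : ConvexBody (E (m + 1)) → (C(S (m + 1), ℂ) →L[ℂ] ℂ))
    (c : ℂ) (φ : C(S (m + 1), ℂ)) (K L : ConvexBody (E (m + 1))) :
    FF Ψ (c • φ) K L = c * FF Ψ φ K L := by
  unfold FF
  rw [map_smul, map_smul, map_smul]
  simp only [smul_eq_mul]
  ring

theorem FF_bd (Ψ : ConvexBody (E (m + 1)) → (C(S (m + 1), ℂ) →L[ℂ] ℂ))
    (φ : C(S (m + 1), ℂ)) (K L : ConvexBody (E (m + 1))) :
    ‖FF Ψ φ K L‖ ≤ (‖Ψ (K + L)‖ + ‖Ψ K‖ + ‖Ψ L‖) * ‖φ‖ := by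
  unfold FF
  have h1 := (Ψ (K + L)).le_opNorm φ
  have h2 := (Ψ K).le_opNorm φ
  have h3 := (Ψ L).le_opNorm φ
  calc ‖Ψ (K + L) φ - Ψ K φ - Ψ L φ‖ ≤ ‖Ψ (K + L) φ - Ψ K φ‖ + ‖Ψ L φ‖ := norm_sub_le _ _
    _ ≤ ‖Ψ (K + L) φ‖ + ‖Ψ K φ‖ + ‖Ψ L φ‖ := by
      linarith [norm_sub_le (Ψ (K + L) φ) (Ψ K φ)]
    _ ≤ _ := by
      rw [add_mul, add_mul]
      linarith

/-- products of test functions with continuous functions -/
theorem Tf.mul' {R : ℝ} {φ : E m → ℂ} (h : Tf R φ) {f : E m → ℂ} (hf : Continuous f) :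
    Tf R fun x => φ x * f x :=
  ⟨h.cont.mul hf, fun x hx => by simp [h.out x hx]⟩

theorem Tf.bd {R : ℝ} {φ : E m → ℂ} (h : Tf R φ) : ∃ M : ℝ, 0 ≤ M ∧ ∀ x, ‖φ x‖ ≤ M := by
  obtain ⟨M, hM⟩ := (isCompact_closedBall (0 : E m) R).exists_bound_of_continuousOn
    h.cont.continuousOn
  refine ⟨max M 0, le_max_right _ _, fun x => ?_⟩
  by_cases hx : ‖x‖ ≤ R
  · exact (hM x (by simpa using hx)).trans (le_max_left _ _)
  · rw [h.out x (not_le.1 hx).le, norm_zero]
    exact le_max_right _ _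

/-- the cut function -/
def lam (δ s : ℝ) : ℝ := max 0 (min 1 (-s / δ))

theorem lam_cont (δ : ℝ) : Continuous (lam δ) := by
  unfold lam
  fun_prop

theorem lam_zero {δ s : ℝ} (hδ : 0 < δ) (hs : 0 ≤ s) : lam δ s = 0 := by
  unfold lam
  apply max_eq_left
  refine (min_le_right _ _).trans ?_
  exact div_nonpos_of_nonpos_of_nonneg (by linarith) hδ.le

theorem lam_one {δ s : ℝ} (hδ : 0 < δ) (hs : s ≤ -δ) : lam δ s = 1 := by
  unfold lam
  have : 1 ≤ -s / δ := by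
    rw [le_div_iff₀ hδ]
    linarith
  rw [min_eq_left this, max_eq_right zero_le_one]

/-- the second cut function -/
def mu' (δ s : ℝ) : ℝ := max 0 (min 1 (|s| / δ - 1))

theorem mu'_cont (δ : ℝ) : Continuous (mu' δ) := by
  unfold mu'
  fun_prop

theorem mu'_zero {δ s : ℝ} (hδ : 0 < δ) (hs : |s| ≤ δ) : mu' δ s = 0 := by
  unfold mu'
  apply max_eq_left
  refine (min_le_right _ _).trans ?_
  have : |s| / δ ≤ 1 := by
    rw [div_le_one hδ]
    exact hs
  linarith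

theorem mu'_one {δ s : ℝ} (hδ : 0 < δ) (hs : 2 * δ ≤ |s|) : mu' δ s = 1 := by
  unfold mu'
  have : 2 ≤ |s| / δ := by
    rw [le_div_iff₀ hδ]
    linarith
  rw [min_eq_left (by linarith), max_eq_right zero_le_one]

theorem mu'_mem (δ s : ℝ) : 0 ≤ mu' δ s ∧ mu' δ s ≤ 1 :=
  ⟨le_max_left _ _, max_le zero_le_one (min_le_left _ _)⟩

theorem inner_cont (κ : E m) : Continuous fun x : E m => inner ℝ κ x := by fun_prop

/-- the statement for functions which vanish near the hyperplane -/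
theorem away (hLOC : T_LOC) (hHAT : T_HAT) (hCHT : T_CHT) (hTRI : T_TRI)
    (Ψ : ConvexBody (E (m + 1)) → (C(S (m + 1), ℂ) →L[ℂ] ℂ)) (hΨ : IsArea (m + 1) 2 Ψ)
    {R : ℝ} {χ : E m → ℂ} (hχ : Tf R χ) (κ : E m) (c : ℝ) {δ : ℝ} (hδ : 0 < δ)
    (h0 : ∀ x, |inner ℝ κ x - c| ≤ δ → χ x = 0) (Y : ConvexBody (E (m + 1))) :
    FF Ψ (HC χ) (seg (kv κ c)) Y = 0 := by
  have hl : Continuous fun x : E m => (lam δ (inner ℝ κ x - c) : ℂ) :=
    Complex.continuous_ofReal.comp ((lam_cont δ).comp ((inner_cont κ).sub continuous_const))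
  have hl' : Continuous fun x : E m => (1 - (lam δ (inner ℝ κ x - c) : ℂ)) :=
    continuous_const.sub hl
  set χ1 : E m → ℂ := fun x => χ x * (lam δ (inner ℝ κ x - c) : ℂ) with hχ1
  set χ2 : E m → ℂ := fun x => χ x * (1 - (lam δ (inner ℝ κ x - c) : ℂ)) with hχ2
  have t1 : Tf R χ1 := Tf.mul' hχ hl
  have t2 : Tf R χ2 := Tf.mul' hχ hl'
  have hsum : χ = fun x => χ1 x + χ2 x := by
    funext x
    simp only [hχ1, hχ2]
    ring
  have hHC : HC χ = HC χ1 + HC χ2 := by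
    conv_lhs => rw [hsum]
    exact (hHAT m R χ1 χ2 t1 t2).2.2.1
  have hopen1 : IsOpen {x : E m | inner ℝ κ x < c} :=
    isOpen_lt (inner_cont κ) continuous_const
  have hopen2 : IsOpen {x : E m | c < inner ℝ κ x} :=
    isOpen_lt continuous_const (inner_cont κ)
  obtain ⟨c1, -, -, c4, -, c6, -⟩ := hCHT m
  have hz : ∀ (χ' : E m → ℂ), Tf R χ' → Ψ (seg (kv κ c)) (HC χ') = 0 := by
    intro χ' h'
    have := (hTRI m Ψ hΨ κ κ c c 1 1 zero_le_one zero_le_one R χ' h').2.1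
    rwa [one_smul] at this
  have e1 : Ψ (seg (kv κ c) + Y) (HC χ1) = Ψ Y (HC χ1) := by
    apply hLOC m 2 Ψ hΨ _ _ 0 {x : E m | inner ℝ κ x < c} hopen1 _ R χ1 t1
    · intro x hx
      simp only [mem_ofPred_eq, not_lt] at hx
      simp only [hχ1]
      rw [lam_zero hδ (by linarith)]
      simp
    · intro x hx
      have hx' : inner ℝ κ x < c := hx
      rw [c1, c6, max_eq_left (by linarith), inner_zero_left]
      ring
  have e2 : Ψ (seg (kv κ c) + Y) (HC χ2) = Ψ Y (HC χ2) := by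
    apply hLOC m 2 Ψ hΨ _ _ (kv κ c) {x : E m | c < inner ℝ κ x} hopen2 _ R χ2 t2
    · intro x hx
      simp only [mem_ofPred_eq, not_lt] at hx
      simp only [hχ2]
      by_cases hd : inner ℝ κ x - c ≤ -δ
      · rw [lam_one hδ hd]
        simp
      · rw [h0 x (abs_le.2 ⟨by linarith, by linarith⟩)]
        simp
    · intro x hx
      have hx' : c < inner ℝ κ x := hx
      rw [c1, c6, max_eq_right (by linarith), c4]
      ring
  rw [hHC, FF_add]
  unfold FF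
  rw [e1, e2, hz χ1 t1, hz χ2 t2]
  ring

end SLC_

open SLC_ in
theorem p_SLC (hLOC : T_LOC) (hHAT : T_HAT) (hCHT : T_CHT) (hTRI : T_TRI) : T_SLC := by
  intro m Ψ hΨ R φ hφ κ c g hg Y
  set I := seg (kv κ c) with hI
  have hgc : Continuous fun x : E m => ((g (inner ℝ κ x) - g c : ℝ) : ℂ) :=
    Complex.continuous_ofReal.comp ((hg.comp (inner_cont κ)).sub continuous_const)
  set χ : E m → ℂ := fun x => φ x * ((g (inner ℝ κ x) - g c : ℝ) : ℂ) with hχ
  have tχ : Tf R χ := Tf.mul' hφ hgc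
  obtain ⟨M, hM0, hM⟩ := Tf.bd hφ
  set B : ℝ := ‖Ψ (I + Y)‖ + ‖Ψ I‖ + ‖Ψ Y‖ with hB
  have hB0 : 0 ≤ B := by positivity
  have hzero : FF Ψ (HC χ) I Y = 0 := by
    rw [← norm_eq_zero]
    apply le_antisymm _ (norm_nonneg _)
    apply le_of_forall_pos_le_add
    intro ε hε
    rw [zero_add]
    set ε' : ℝ := ε / (B * M + 1) with hε'
    have hBM : 0 < B * M + 1 := by positivity
    have hε'0 : 0 < ε' := by positivity
    obtain ⟨δ, hδ, hδg⟩ := Metric.continuousAt_iff.1 (hg.continuousAt (x := c)) ε' hε'0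
    set δ' : ℝ := δ / 2 with hδ'
    have hδ'0 : 0 < δ' := by positivity
    have hm : Continuous fun x : E m => (mu' δ' (inner ℝ κ x - c) : ℂ) :=
      Complex.continuous_ofReal.comp
        ((mu'_cont δ').comp ((inner_cont κ).sub continuous_const))
    set χ1 : E m → ℂ := fun x => χ x * (mu' δ' (inner ℝ κ x - c) : ℂ) with hχ1
    set χ2 : E m → ℂ := fun x => χ x * (1 - (mu' δ' (inner ℝ κ x - c) : ℂ)) with hχ2
    have t1 : Tf R χ1 := Tf.mul' tχ hm
    have t2 : Tf R χ2 := Tf.mul' tχ (continuous_const.sub hm)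
    have hsum : χ = fun x => χ1 x + χ2 x := by
      funext x
      simp only [hχ1, hχ2]
      ring
    have hHC : HC χ = HC χ1 + HC χ2 := by
      conv_lhs => rw [hsum]
      exact (hHAT m R χ1 χ2 t1 t2).2.2.1
    have h1 : FF Ψ (HC χ1) I Y = 0 := by
      apply away hLOC hHAT hCHT hTRI Ψ hΨ t1 κ c hδ'0
      intro x hx
      simp only [hχ1]
      rw [mu'_zero hδ'0 hx]
      simp
    have h2 : ‖HC χ2‖ ≤ M * ε' := by
      apply (hHAT m R χ2 χ2 t2 t2).2.2.2.2 (M * ε') (by positivity)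
      intro x
      simp only [hχ2, hχ]
      rw [norm_mul, norm_mul]
      have hmu := mu'_mem δ' (inner ℝ κ x - c)
      have e1 : ‖(1 - (mu' δ' (inner ℝ κ x - c) : ℂ))‖ = 1 - mu' δ' (inner ℝ κ x - c) := by
        rw [← Complex.ofReal_one, ← Complex.ofReal_sub, Complex.norm_real,
          Real.norm_of_nonneg (by linarith [hmu.2])]
      rw [e1, Complex.norm_real]
      by_cases hs : 2 * δ' ≤ |inner ℝ κ x - c|
      · rw [mu'_one hδ'0 hs, sub_self, mul_zero]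
        positivity
      · have hs' : dist (inner ℝ κ x) c < δ := by
          rw [Real.dist_eq]
          have : 2 * δ' = δ := by rw [hδ']; ring
          linarith
        have h3 := hδg hs'
        rw [Real.dist_eq, ← Real.norm_eq_abs] at h3
        calc ‖φ x‖ * ‖g (inner ℝ κ x) - g c‖ * (1 - mu' δ' (inner ℝ κ x - c))
            ≤ ‖φ x‖ * ‖g (inner ℝ κ x) - g c‖ * 1 := by
              apply mul_le_mul_of_nonneg_left _ (by positivity)
              linarith [hmu.1]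
          _ = ‖φ x‖ * ‖g (inner ℝ κ x) - g c‖ := mul_one _
          _ ≤ M * ε' := mul_le_mul (hM x) h3.le (norm_nonneg _) hM0
    rw [hHC, FF_add, h1, zero_add]
    refine (FF_bd Ψ _ _ _).trans ?_
    calc B * ‖HC χ2‖ ≤ B * (M * ε') := mul_le_mul_of_nonneg_left h2 hB0
      _ = (B * M) * ε' := by ring
      _ ≤ (B * M + 1) * ε' := by
        apply mul_le_mul_of_nonneg_right _ hε'0.le
        linarith
      _ = ε := by
        rw [hε']
        field_simp
  have hc : Tf R fun x => (g c : ℂ) * φ x :=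
    ⟨continuous_const.mul hφ.cont, fun x hx => by simp [hφ.out x hx]⟩
  have hfun : (fun x => φ x * (g (inner ℝ κ x) : ℂ)) = fun x => χ x + (g c : ℂ) * φ x := by
    funext x
    simp only [hχ]
    push_cast
    ring
  rw [hfun, (hHAT m R χ _ tχ hc).2.2.1, FF_add, hzero, zero_add,
    (hHAT m R φ φ hφ hφ).2.2.2.1 (g c : ℂ), FF_smul]

end Pool.Agent.GNS
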