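import Pool.Agent.GNS.T2
import Pool.Agent.GNS.Lib

/-!
# GNS: target SM0, small oscillating terms
-/

set_option autoImplicit false

open Metric Set Filter Topology MeasureTheory

noncomputable section

namespace Pool.Agent.GNS

namespace SM0_

/-- `1` for the direction `0`, otherwise `0` -/
def del (i : Fin 4) : ℝ := if i = 0 then 1 else 0

theorem del_abs (i : Fin 4) : |del i| ≤ 1 := by
  unfold del
  split_ifs <;> simp

theorem sm_x (h : ℝ) : Sm fun z : V => z.1.1 / h :=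
  (contDiff_fst.fst).div_const h

theorem d_x (h : ℝ) (i : Fin 4) (z : V) : d i (fun z : V => z.1.1 / h) z = del i / h := by
  unfold d
  have h1 : HasFDerivAt (fun z : V => z.1.1 / h)
      ((1 / h) • ((ContinuousLinearMap.fst ℝ ℝ ℝ).comp (ContinuousLinearMap.fst ℝ X2 X2))) z := by
    have h2 : HasFDerivAt (fun z : V => z.1.1)
        ((ContinuousLinearMap.fst ℝ ℝ ℝ).comp (ContinuousLinearMap.fst ℝ X2 X2)) z :=
      ((ContinuousLinearMap.fst ℝ ℝ ℝ).comp (ContinuousLinearMap.fst ℝ X2 X2)).hasFDerivAt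
    have h3 := h2.const_mul (1 / h)
    refine h3.congr_of_eventuallyEq (Eventually.of_forall fun w => ?_)
    show w.1.1 / h = 1 / h * w.1.1
    ring
  rw [h1.fderiv]
  fin_cases i <;> simp [e, del]

theorem sm_c0 {f : ℝ → ℝ} (hf : ContDiff ℝ ((⊤ : ℕ∞) : WithTop ℕ∞) f) (h : ℝ) : Sm (c0 f h) :=
  (sm_x h).comp1 hf

theorem d_c0 {f : ℝ → ℝ} (hf : ContDiff ℝ ((⊤ : ℕ∞) : WithTop ℕ∞) f) (h : ℝ) (i : Fin 4)
    (z : V) : d i (c0 f h) z = del i / h * c0 (deriv f) h z := by
  have h1 := d_comp1 (sm_x h) (hf.differentiable (by simp)) i z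
  rw [d_x] at h1
  have h2 : d i (c0 f h) z = d i (fun z : V => f (z.1.1 / h)) z := rfl
  rw [h2, h1]
  show deriv f (z.1.1 / h) * (del i / h) = del i / h * deriv f (z.1.1 / h)
  ring

theorem sm_deriv {f : ℝ → ℝ} (hf : ContDiff ℝ ((⊤ : ℕ∞) : WithTop ℕ∞) f) :
    ContDiff ℝ ((⊤ : ℕ∞) : WithTop ℕ∞) (deriv f) :=
  (contDiff_infty_iff_deriv.1 hf).2

theorem bdd {f : V → ℝ} (hf : Continuous f) : ∃ K : ℝ, ∀ z : V, ‖z‖ ≤ 4 → |f z| ≤ K := by
  obtain ⟨K, hK⟩ := (isCompact_closedBall (0 : V) 4).exists_bound_of_continuousOn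
    hf.continuousOn
  exact ⟨K, fun z hz => hK z (by rw [mem_closedBall, dist_zero_right]; exact hz)⟩

/-- The derivatives of a product with an oscillating factor. -/
theorem deriv_one {A : V → ℝ} (hA : Sm A) {S0 S1 : V → ℝ} (hS0 : Sm S0)
    (h01 : ∀ i z, d i S0 z = del i * S1 z) (i : Fin 4) (z : V) :
    d i (fun z => A z * S0 z) z = d i A z * S0 z + A z * (del i * S1 z) := by
  rw [d_mul hA hS0, h01]

theorem deriv_two {A : V → ℝ} (hA : Sm A) {S0 S1 S2 : V → ℝ} (hS0 : Sm S0) (hS1 : Sm S1)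
    (h01 : ∀ i z, d i S0 z = del i * S1 z) (h12 : ∀ i z, d i S1 z = del i * S2 z)
    (i k : Fin 4) (z : V) :
    d i (d k fun z => A z * S0 z) z = d i (d k A) z * S0 z + d k A z * (del i * S1 z) +
      (d i A z * (del k * S1 z) + A z * (del k * (del i * S2 z))) := by
  have e : (d k fun z => A z * S0 z) = fun z => d k A z * S0 z + A z * (del k * S1 z) :=
    funext fun z => deriv_one hA hS0 h01 k z
  rw [e, d_add ((hA.d k).mul hS0) (hA.mul (hS1.cmul (del k))), d_mul (hA.d k) hS0,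
    d_mul hA (hS1.cmul (del k)), d_cmul hS1, h01, h12]

end SM0_

open SM0_

/-- Target SM0. -/
theorem p_SM0 : T_SM0 := by
  intro A σ C ε hA hσ hC hε
  obtain ⟨K0, hK0⟩ := bdd hA.cont
  choose K1 hK1 using fun i => bdd (hA.d i).cont
  choose K2 hK2 using fun i k => bdd ((hA.d k).d i).cont
  have hC0 : 0 ≤ C := (abs_nonneg _).trans (hC 0).1
  set K : ℝ := |K0| + ∑ i, |K1 i| + ∑ i, ∑ k, |K2 i k| with hK
  have hs1 : ∀ i, |K1 i| ≤ ∑ i, |K1 i| := fun i =>
    Finset.single_le_sum (f := fun i => |K1 i|) (fun _ _ => abs_nonneg _) (Finset.mem_univ i)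
  have hs2 : ∀ i k, |K2 i k| ≤ ∑ i, ∑ k, |K2 i k| := fun i k =>
    (Finset.single_le_sum (f := fun k => |K2 i k|) (fun _ _ => abs_nonneg _)
      (Finset.mem_univ k)).trans
      (Finset.single_le_sum (f := fun i => ∑ k, |K2 i k|)
        (fun _ _ => Finset.sum_nonneg fun _ _ => abs_nonneg _) (Finset.mem_univ i))
  have hs1' : 0 ≤ ∑ i, |K1 i| := Finset.sum_nonneg fun _ _ => abs_nonneg _
  have hs2' : 0 ≤ ∑ i, ∑ k, |K2 i k| :=
    Finset.sum_nonneg fun _ _ => Finset.sum_nonneg fun _ _ => abs_nonneg _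
  have hKnn : 0 ≤ K := by have := abs_nonneg K0; linarith
  have b0 : ∀ z : V, ‖z‖ ≤ 4 → |A z| ≤ K := fun z hz =>
    (hK0 z hz).trans ((le_abs_self K0).trans (by linarith))
  have b1 : ∀ (i) (z : V), ‖z‖ ≤ 4 → |d i A z| ≤ K := fun i z hz =>
    (hK1 i z hz).trans ((le_abs_self (K1 i)).trans (by
      have := hs1 i; have := abs_nonneg K0; linarith))
  have b2 : ∀ (i k) (z : V), ‖z‖ ≤ 4 → |d i (d k A) z| ≤ K := fun i k z hz =>
    (hK2 i k z hz).trans ((le_abs_self (K2 i k)).trans (by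
      have := hs2 i k; have := abs_nonneg K0; linarith))
  have hδ : 0 < min 1 (ε / (3 * (K * C) + 1)) := by
    have : 0 ≤ K * C := mul_nonneg hKnn hC0
    positivity
  filter_upwards [Ioo_mem_nhdsGT hδ] with h hh z hz
  obtain ⟨hh0, hh1⟩ := hh
  have hh2 : h ≤ 1 := (hh1.trans_le (min_le_left _ _)).le
  have hKC : 0 ≤ K * C := mul_nonneg hKnn hC0
  have hh3 : 3 * (K * C) * h ≤ ε := by
    have h5 : h < ε / (3 * (K * C) + 1) := hh1.trans_le (min_le_right _ _)
    rw [lt_div_iff₀ (by positivity)] at h5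
    nlinarith
  have hsq : h ^ 2 ≤ h := by nlinarith
  have hσ1 := sm_deriv hσ
  -- the three functions
  have smS0 : Sm fun z => h ^ 2 * c0 σ h z := (sm_c0 hσ h).cmul (h ^ 2)
  have smS1 : Sm fun z => h * c0 (deriv σ) h z := (sm_c0 hσ1 h).cmul h
  have h01 : ∀ i z, d i (fun z => h ^ 2 * c0 σ h z) z = del i * (h * c0 (deriv σ) h z) := by
    intro i z
    have e1 := d_cmul (sm_c0 hσ h) (h ^ 2) i z
    rw [e1, d_c0 hσ]
    field_simp
  have h12 : ∀ i z, d i (fun z => h * c0 (deriv σ) h z) z =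
      del i * c0 (deriv (deriv σ)) h z := by
    intro i z
    have e1 := d_cmul (sm_c0 hσ1 h) h i z
    rw [e1, d_c0 hσ1]
    field_simp
  have B0 : |h ^ 2 * c0 σ h z| ≤ h * C := by
    rw [abs_mul, abs_of_nonneg (sq_nonneg h)]
    exact mul_le_mul hsq (hC _).1 (abs_nonneg _) hh0.le
  have B1 : |h * c0 (deriv σ) h z| ≤ h * C := by
    rw [abs_mul, abs_of_pos hh0]
    exact mul_le_mul_of_nonneg_left (hC _).2 hh0.le
  have hhC : 0 ≤ h * C := mul_nonneg hh0.le hC0
  have Bd : ∀ i, |del i * (h * c0 (deriv σ) h z)| ≤ h * C := by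
    intro i
    rw [abs_mul]
    have := mul_le_mul (del_abs i) B1 (abs_nonneg _) zero_le_one
    linarith
  have prod : ∀ x y : ℝ, |x| ≤ K → |y| ≤ h * C → |x * y| ≤ K * (h * C) := by
    intro x y hx hy
    rw [abs_mul]
    exact mul_le_mul hx hy (abs_nonneg _) hKnn
  have hKhC : 3 * (K * (h * C)) ≤ ε := by nlinarith
  have hKhC0 : 0 ≤ K * (h * C) := mul_nonneg hKnn hhC
  have two := deriv_two hA smS0 smS1 h01 h12
  have key : ∀ i k, |d i (d k fun z => A z * (h ^ 2 * c0 σ h z)) z -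
      A z * (del k * (del i * c0 (deriv (deriv σ)) h z))| ≤ ε := by
    intro i k
    rw [two i k z]
    have p1 := prod _ _ (b2 i k z hz) B0
    have p2 := prod _ _ (b1 k z hz) (Bd i)
    have p3 := prod _ _ (b1 i z hz) (Bd k)
    have e1 : ∀ p q r s : ℝ, p + q + (r + s) - s = p + q + r := fun p q r s => by ring
    rw [e1]
    have p4 := abs_add_three (d i (d k A) z * (h ^ 2 * c0 σ h z))
      (d k A z * (del i * (h * c0 (deriv σ) h z))) (d i A z * (del k * (h * c0 (deriv σ) h z)))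
    linarith
  refine ⟨?_, ?_, ?_, ?_⟩
  · have := prod _ _ (b0 z hz) B0
    linarith
  · intro i
    rw [deriv_one hA smS0 h01 i z]
    have p1 := prod _ _ (b1 i z hz) B0
    have p2 := prod _ _ (b0 z hz) (Bd i)
    have p3 := abs_add_le (d i A z * (h ^ 2 * c0 σ h z))
      (A z * (del i * (h * c0 (deriv σ) h z)))
    linarith
  · have := key 0 0
    simpa [del] using this
  · intro i k hik
    have := key i k
    have e1 : del k * (del i * c0 (deriv (deriv σ)) h z) = 0 := by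
      unfold del
      by_cases hi : i = 0
      · have hk : ¬ k = 0 := fun hk => hik ⟨hi, hk⟩
        rw [if_neg hk, zero_mul]
      · rw [if_neg hi, zero_mul, mul_zero]
    rw [e1, mul_zero, sub_zero] at this
    exact this

end Pool.Agent.GNS
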