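import Pool.Agent.GNS.T2

/-!
# GNS: small oscillating terms in `x₂` (`T_SM1`)
-/

set_option autoImplicit false

open Metric Set Filter Topology MeasureTheory

noncomputable section

namespace Pool.Agent.GNS

namespace SM1_

/-- the factor `1` in the direction `1`, `0` otherwise -/
def g (i : Fin 4) : ℝ := if i = 1 then 1 else 0

theorem gone : g 1 = 1 := if_pos rfl

theorem gne {i : Fin 4} (h : i ≠ 1) : g i = 0 := if_neg h

theorem gcase (i : Fin 4) : g i = 0 ∨ g i = 1 := by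
  by_cases h : i = 1
  · right; rw [h, gone]
  · left; exact gne h

theorem bdd {f : V → ℝ} (hf : Continuous f) : ∃ B : ℝ, 0 ≤ B ∧ ∀ z, ‖z‖ ≤ 4 → |f z| ≤ B := by
  obtain ⟨B, hB⟩ := (isCompact_closedBall (0 : V) 4).exists_bound_of_continuousOn
    (f := f) hf.continuousOn
  refine ⟨max B 0, le_max_right _ _, fun z hz => ?_⟩
  have h1 := hB z (by rw [mem_closedBall, dist_zero_right]; exact hz)
  rw [Real.norm_eq_abs] at h1
  exact h1.trans (le_max_left _ _)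

theorem smL (h : ℝ) : Sm fun z : V => z.1.2 / h := by
  unfold Sm
  fun_prop

theorem dL (h : ℝ) (i : Fin 4) (z : V) : d i (fun z : V => z.1.2 / h) z = g i / h := by
  unfold d
  have h1 : HasFDerivAt (fun z : V => z.1.2)
      ((ContinuousLinearMap.snd ℝ ℝ ℝ).comp (ContinuousLinearMap.fst ℝ X2 X2)) z :=
    ((ContinuousLinearMap.snd ℝ ℝ ℝ).comp (ContinuousLinearMap.fst ℝ X2 X2)).hasFDerivAt
  have h2 : HasFDerivAt (fun z : V => z.1.2 / h)
      (h⁻¹ • (ContinuousLinearMap.snd ℝ ℝ ℝ).comp (ContinuousLinearMap.fst ℝ X2 X2)) z := by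
    have h3 := h1.mul_const h⁻¹
    simpa only [div_eq_mul_inv] using h3
  rw [h2.fderiv]
  fin_cases i <;> simp [e, g, div_eq_mul_inv]

theorem smc {σ : ℝ → ℝ} (hσ : ContDiff ℝ ((⊤ : ℕ∞) : WithTop ℕ∞) σ) (h : ℝ) : Sm (c1 σ h) :=
  (smL h).comp1 hσ

theorem dc {σ : ℝ → ℝ} (hσ : ContDiff ℝ ((⊤ : ℕ∞) : WithTop ℕ∞) σ) (h : ℝ) (i : Fin 4) (z : V) :
    d i (c1 σ h) z = c1 (deriv σ) h z * (g i / h) := by
  have h1 := d_comp1 (smL h) (g := σ) (hσ.differentiable (by simp)) i z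
  rw [dL] at h1
  exact h1

theorem dder {σ : ℝ → ℝ} (hσ : ContDiff ℝ ((⊤ : ℕ∞) : WithTop ℕ∞) σ) :
    ContDiff ℝ ((⊤ : ℕ∞) : WithTop ℕ∞) (deriv σ) :=
  (contDiff_infty_iff_deriv.1 hσ).2

/-- the first derivatives -/
theorem first {A : V → ℝ} {σ : ℝ → ℝ} (hA : Sm A)
    (hσ : ContDiff ℝ ((⊤ : ℕ∞) : WithTop ℕ∞) σ) {h : ℝ} (hh : 0 < h) (i : Fin 4) (z : V) :
    d i (fun z => A z * (h ^ 2 * c1 σ h z)) z =
      d i A z * (h ^ 2 * c1 σ h z) + g i * (A z * (h * c1 (deriv σ) h z)) := by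
  rw [d_mul hA ((smc hσ h).cmul (h ^ 2)), d_cmul (smc hσ h), dc hσ]
  have h0 : h ≠ 0 := hh.ne'
  field_simp

/-- the second derivatives -/
theorem second {A : V → ℝ} {σ : ℝ → ℝ} (hA : Sm A)
    (hσ : ContDiff ℝ ((⊤ : ℕ∞) : WithTop ℕ∞) σ) {h : ℝ} (hh : 0 < h) (i k : Fin 4) (z : V) :
    d i (d k fun z => A z * (h ^ 2 * c1 σ h z)) z =
      d i (d k A) z * (h ^ 2 * c1 σ h z) + g i * (d k A z * (h * c1 (deriv σ) h z)) +
      g k * (d i A z * (h * c1 (deriv σ) h z)) +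
      g k * g i * (A z * c1 (deriv (deriv σ)) h z) := by
  have h0 : h ≠ 0 := hh.ne'
  have h1 : (d k fun z => A z * (h ^ 2 * c1 σ h z)) =
      fun z => d k A z * (h ^ 2 * c1 σ h z) + g k * (A z * (h * c1 (deriv σ) h z)) :=
    funext fun z => first hA hσ hh k z
  have s1 := smc hσ h
  have s2 := smc (dder hσ) h
  rw [h1, d_add ((hA.d k).mul (s1.cmul _)) ((hA.mul (s2.cmul _)).cmul _),
    first (hA.d k) hσ hh i z, d_cmul (hA.mul (s2.cmul _)), d_mul hA (s2.cmul _),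
    d_cmul s2, dc (dder hσ)]
  field_simp
  ring

theorem small {x y B C h : ℝ} (hx : |x| ≤ B) (hy : |y| ≤ C) (hh : 0 ≤ h) :
    |x * (h * y)| ≤ h * (B * C) := by
  have h1 : |x * (h * y)| = h * (|x| * |y|) := by
    rw [abs_mul, abs_mul, abs_of_nonneg hh]
    ring
  rw [h1]
  have hB : 0 ≤ B := (abs_nonneg x).trans hx
  exact mul_le_mul_of_nonneg_left (mul_le_mul hx hy (abs_nonneg y) hB) hh

theorem gsmall (i : Fin 4) {x M : ℝ} (hx : |x| ≤ M) : |g i * x| ≤ M := by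
  have hM : 0 ≤ M := (abs_nonneg x).trans hx
  rcases gcase i with h | h
  · rw [h, zero_mul, abs_zero]; exact hM
  · rw [h, one_mul]; exact hx

end SM1_

open SM1_ in
theorem p_SM1 : T_SM1 := by
  intro A σ C ε hA hσ hC hε
  obtain ⟨B0, hB0, b0⟩ := bdd hA.cont
  choose B1 hB1 b1 using fun i : Fin 4 => bdd (hA.d i).cont
  choose B2 hB2 b2 using fun p : Fin 4 × Fin 4 => bdd ((hA.d p.2).d p.1).cont
  set B : ℝ := B0 + ∑ i, B1 i + ∑ p, B2 p with hBdef
  have hS1 : 0 ≤ ∑ i, B1 i := Finset.sum_nonneg fun i _ => hB1 i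
  have hS2 : 0 ≤ ∑ p, B2 p := Finset.sum_nonneg fun p _ => hB2 p
  have hB : 0 ≤ B := by positivity
  have c0' : ∀ z : V, ‖z‖ ≤ 4 → |A z| ≤ B := fun z hz => (b0 z hz).trans (by rw [hBdef]; linarith)
  have c1' : ∀ i, ∀ z : V, ‖z‖ ≤ 4 → |d i A z| ≤ B := by
    intro i z hz
    have h1 := Finset.single_le_sum (f := B1) (fun i _ => hB1 i) (Finset.mem_univ i)
    exact (b1 i z hz).trans (by rw [hBdef]; linarith)
  have c2' : ∀ i k, ∀ z : V, ‖z‖ ≤ 4 → |d i (d k A) z| ≤ B := by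
    intro i k z hz
    have h1 := Finset.single_le_sum (f := B2) (fun p _ => hB2 p) (Finset.mem_univ (i, k))
    exact (b2 (i, k) z hz).trans (by rw [hBdef]; linarith)
  have hC0 : 0 ≤ C := (abs_nonneg (σ 0)).trans (hC 0).1
  have hBC : 0 ≤ B * C := mul_nonneg hB hC0
  have hpos : 0 < min 1 (ε / (3 * (B * C) + 1)) := by positivity
  filter_upwards [Ioo_mem_nhdsGT hpos] with h hh z hz
  have hh0 : 0 < h := hh.1
  have hh1 : h ≤ 1 := (hh.2.le).trans (min_le_left _ _)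
  have hh2 : h * (3 * (B * C) + 1) ≤ ε := by
    have h1 : h ≤ ε / (3 * (B * C) + 1) := (hh.2.le).trans (min_le_right _ _)
    rwa [le_div_iff₀ (by positivity)] at h1
  have hsq : h ^ 2 ≤ h := by nlinarith
  have k0 : 0 ≤ h * (B * C) := mul_nonneg hh0.le hBC
  have hs : ∀ w : V, |c1 σ h w| ≤ C := fun w => (hC _).1
  have hs' : ∀ w : V, |c1 (deriv σ) h w| ≤ C := fun w => (hC _).2
  have e0 : ∀ x : ℝ, |x| ≤ B → |x * (h ^ 2 * c1 σ h z)| ≤ h * (B * C) := by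
    intro x hx
    exact (small hx (hs z) (sq_nonneg h)).trans (mul_le_mul_of_nonneg_right hsq hBC)
  have e1 : ∀ x : ℝ, |x| ≤ B → |x * (h * c1 (deriv σ) h z)| ≤ h * (B * C) := by
    intro x hx
    exact small hx (hs' z) hh0.le
  have key : ∀ i k, |d i (d k A) z * (h ^ 2 * c1 σ h z) +
      g i * (d k A z * (h * c1 (deriv σ) h z)) +
      g k * (d i A z * (h * c1 (deriv σ) h z))| ≤ ε := by
    intro i k
    have t1 := e0 _ (c2' i k z hz)
    have t2 := gsmall i (e1 _ (c1' k z hz))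
    have t3 := gsmall k (e1 _ (c1' i z hz))
    have t4 := abs_add_three (d i (d k A) z * (h ^ 2 * c1 σ h z))
      (g i * (d k A z * (h * c1 (deriv σ) h z))) (g k * (d i A z * (h * c1 (deriv σ) h z)))
    nlinarith
  refine ⟨?_, fun i => ?_, ?_, fun i k hik => ?_⟩
  · have := e0 _ (c0' z hz)
    nlinarith
  · rw [first hA hσ hh0]
    have t1 := e0 _ (c1' i z hz)
    have t2 := gsmall i (e1 _ (c0' z hz))
    have t3 := abs_add_le (d i A z * (h ^ 2 * c1 σ h z)) (g i * (A z * (h * c1 (deriv σ) h z)))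
    nlinarith
  · rw [second hA hσ hh0]
    have := key 1 1
    have h2 : d 1 (d 1 A) z * (h ^ 2 * c1 σ h z) + g 1 * (d 1 A z * (h * c1 (deriv σ) h z)) +
        g 1 * (d 1 A z * (h * c1 (deriv σ) h z)) +
        g 1 * g 1 * (A z * c1 (deriv (deriv σ)) h z) - A z * c1 (deriv (deriv σ)) h z =
        d 1 (d 1 A) z * (h ^ 2 * c1 σ h z) + g 1 * (d 1 A z * (h * c1 (deriv σ) h z)) +
        g 1 * (d 1 A z * (h * c1 (deriv σ) h z)) := by
      rw [gone]; ring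
    rw [h2]
    exact this
  · rw [second hA hσ hh0]
    have h1 : g k * g i = 0 := by
      by_cases hi : i = 1
      · have hk : k ≠ 1 := fun hk => hik ⟨hi, hk⟩
        rw [gne hk, zero_mul]
      · rw [gne hi, mul_zero]
    rw [h1, zero_mul, add_zero]
    exact key i k

end Pool.Agent.GNS
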