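import Pool.Agent.GNS.T2

/-!
# GNS: SMW, the wave
-/

set_option autoImplicit false

open Metric Set Filter Topology MeasureTheory

noncomputable section

namespace Pool.Agent.GNS

namespace SMW_

/-- the coefficients of the phase -/
def kf (j : ℕ) (i : Fin 4) : ℝ := (![2 ^ j, 0, 1, 0] : Fin 4 → ℝ) i

/-- the phase -/
def ph (j : ℕ) (ν : ℝ) (z : V) : ℝ := (2 ^ j * z.1.1 + z.2.1) / ν

/-- the sine wave -/
def sn (j : ℕ) (ν : ℝ) (z : V) : ℝ := Real.sin (ph j ν z)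

theorem kf_nonneg (j : ℕ) (i : Fin 4) : 0 ≤ kf j i := by
  fin_cases i <;> simp [kf]

theorem kf_le (j : ℕ) (i : Fin 4) : kf j i ≤ 2 ^ j := by
  have h : (1 : ℝ) ≤ 2 ^ j := one_le_pow₀ (by norm_num)
  fin_cases i
  · simp [kf]
  · simp [kf]
  · simpa [kf] using h
  · simp [kf]

theorem sm_ph (j : ℕ) (ν : ℝ) : Sm (ph j ν) := by
  unfold Sm ph
  fun_prop

theorem wv_eq (j : ℕ) (ν : ℝ) : wv j ν = fun z => Real.cos (ph j ν z) := rfl

theorem sm_wv (j : ℕ) (ν : ℝ) : Sm (wv j ν) := by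
  rw [wv_eq]
  exact (sm_ph j ν).comp1 Real.contDiff_cos

theorem sm_sn (j : ℕ) (ν : ℝ) : Sm (sn j ν) :=
  (sm_ph j ν).comp1 Real.contDiff_sin

/-- the phase as a continuous linear map -/
def phL (j : ℕ) (ν : ℝ) : V →L[ℝ] ℝ :=
  (2 ^ j / ν) • ((ContinuousLinearMap.fst ℝ ℝ ℝ).comp (ContinuousLinearMap.fst ℝ X2 X2)) +
    (1 / ν) • ((ContinuousLinearMap.fst ℝ ℝ ℝ).comp (ContinuousLinearMap.snd ℝ X2 X2))

theorem phL_apply (j : ℕ) (ν : ℝ) (z : V) :
    phL j ν z = 2 ^ j / ν * z.1.1 + 1 / ν * z.2.1 := rfl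

theorem d_ph (j : ℕ) (ν : ℝ) (i : Fin 4) (z : V) : d i (ph j ν) z = kf j i / ν := by
  have h : ph j ν = phL j ν := by
    funext z
    rw [phL_apply]
    unfold ph
    ring
  unfold d
  rw [h, ContinuousLinearMap.fderiv, phL_apply]
  fin_cases i <;> simp [e, kf]

theorem d_wv (j : ℕ) (ν : ℝ) (i : Fin 4) (z : V) :
    d i (wv j ν) z = -(kf j i / ν) * sn j ν z := by
  rw [wv_eq, d_comp1 (sm_ph j ν) Real.differentiable_cos, d_ph, Real.deriv_cos]
  unfold sn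
  ring

theorem d_sn (j : ℕ) (ν : ℝ) (i : Fin 4) (z : V) :
    d i (sn j ν) z = kf j i / ν * wv j ν z := by
  have h : sn j ν = fun z => Real.sin (ph j ν z) := rfl
  rw [h, d_comp1 (sm_ph j ν) Real.differentiable_sin, d_ph, Real.deriv_sin, wv_eq]
  ring

theorem d_one {A : V → ℝ} (hA : Sm A) (j : ℕ) {ν : ℝ} (hν : ν ≠ 0) (i : Fin 4) (z : V) :
    d i (fun z => A z * (ν ^ 2 * wv j ν z)) z =
      ν ^ 2 * (d i A z * wv j ν z) - ν * kf j i * (A z * sn j ν z) := by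
  rw [d_mul hA ((sm_wv j ν).cmul (ν ^ 2)), d_cmul (sm_wv j ν), d_wv]
  field_simp
  ring

theorem d_two {A : V → ℝ} (hA : Sm A) (j : ℕ) {ν : ℝ} (hν : ν ≠ 0) (i k : Fin 4) (z : V) :
    d i (d k fun z => A z * (ν ^ 2 * wv j ν z)) z =
      ν ^ 2 * (d i (d k A) z * wv j ν z) -
        ν * ((kf j i * d k A z + kf j k * d i A z) * sn j ν z) -
        kf j i * kf j k * (A z * wv j ν z) := by
  have h : d k (fun z => A z * (ν ^ 2 * wv j ν z)) = fun z =>
      ν ^ 2 * (d k A z * wv j ν z) - ν * kf j k * (A z * sn j ν z) :=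
    funext fun z => d_one hA j hν k z
  rw [h, d_sub (((hA.d k).mul (sm_wv j ν)).cmul _) ((hA.mul (sm_sn j ν)).cmul _),
    d_cmul ((hA.d k).mul (sm_wv j ν)), d_cmul (hA.mul (sm_sn j ν)),
    d_mul (hA.d k) (sm_wv j ν), d_mul hA (sm_sn j ν), d_wv, d_sn]
  field_simp
  ring

theorem abs_wv (j : ℕ) (ν : ℝ) (z : V) : |wv j ν z| ≤ 1 := Real.abs_cos_le_one _

theorem abs_sn (j : ℕ) (ν : ℝ) (z : V) : |sn j ν z| ≤ 1 := Real.abs_sin_le_one _

theorem bdd {f : V → ℝ} (hf : Continuous f) : ∃ M, 0 ≤ M ∧ ∀ z : V, ‖z‖ ≤ 4 → |f z| ≤ M := by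
  obtain ⟨M, hM⟩ := (isCompact_closedBall (0 : V) 4).exists_bound_of_continuousOn
    hf.continuousOn
  have h0 : |f 0| ≤ M := hM 0 (by simp)
  refine ⟨M, (abs_nonneg _).trans h0, fun z hz => hM z ?_⟩
  rwa [mem_closedBall, dist_zero_right]

end SMW_

open SMW_

theorem p_SMW : T_SMW := by
  intro A j ε hA hε
  -- one bound for all derivatives of order at most two
  obtain ⟨M0, hM0, hb0⟩ := bdd hA.cont
  choose M1 hM1 hb1 using fun i : Fin 4 => bdd (hA.d i).cont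
  choose M2 hM2 hb2 using fun i : Fin 4 => fun k : Fin 4 => bdd ((hA.d k).d i).cont
  obtain ⟨M, hM, hA0, hA1, hA2⟩ : ∃ M : ℝ, 0 ≤ M ∧ (∀ z : V, ‖z‖ ≤ 4 → |A z| ≤ M) ∧
      (∀ (i : Fin 4) (z : V), ‖z‖ ≤ 4 → |d i A z| ≤ M) ∧
      ∀ (i k : Fin 4) (z : V), ‖z‖ ≤ 4 → |d i (d k A) z| ≤ M := by
    refine ⟨M0 + ∑ i, M1 i + ∑ i, ∑ k, M2 i k, ?_, ?_, ?_, ?_⟩
    · have h1 : 0 ≤ ∑ i, M1 i := Finset.sum_nonneg fun i _ => hM1 i
      have h2 : 0 ≤ ∑ i, ∑ k, M2 i k :=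
        Finset.sum_nonneg fun i _ => Finset.sum_nonneg fun k _ => hM2 i k
      linarith
    · intro z hz
      have h1 : 0 ≤ ∑ i, M1 i := Finset.sum_nonneg fun i _ => hM1 i
      have h2 : 0 ≤ ∑ i, ∑ k, M2 i k :=
        Finset.sum_nonneg fun i _ => Finset.sum_nonneg fun k _ => hM2 i k
      linarith [hb0 z hz]
    · intro i z hz
      have h1 : M1 i ≤ ∑ i, M1 i :=
        Finset.single_le_sum (f := M1) (fun i _ => hM1 i) (Finset.mem_univ i)
      have h2 : 0 ≤ ∑ i, ∑ k, M2 i k :=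
        Finset.sum_nonneg fun i _ => Finset.sum_nonneg fun k _ => hM2 i k
      linarith [hb1 i z hz]
    · intro i k z hz
      have h1 : 0 ≤ ∑ i, M1 i := Finset.sum_nonneg fun i _ => hM1 i
      have h2 : ∑ k, M2 i k ≤ ∑ i, ∑ k, M2 i k :=
        Finset.single_le_sum (f := fun i => ∑ k, M2 i k)
          (fun i _ => Finset.sum_nonneg fun k _ => hM2 i k) (Finset.mem_univ i)
      have h3 : M2 i k ≤ ∑ k, M2 i k :=
        Finset.single_le_sum (f := fun k => M2 i k) (fun k _ => hM2 i k) (Finset.mem_univ k)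
      linarith [hb2 i k z hz]
  set B : ℝ := M + 2 * 2 ^ j * M with hB
  have hK : (0 : ℝ) ≤ 2 ^ j := by positivity
  have hBnn : 0 ≤ B := by positivity
  have hev : ∀ᶠ ν in 𝓝[>] (0 : ℝ), 0 < ν ∧ ν ≤ 1 ∧ ν * B ≤ ε := by
    have h1 : ∀ᶠ ν in 𝓝[>] (0 : ℝ), ν < min 1 (ε / (B + 1)) :=
      nhdsWithin_le_nhds (gt_mem_nhds (lt_min one_pos (by positivity)))
    filter_upwards [h1, self_mem_nhdsWithin] with ν hν hν0
    have hν0 : 0 < ν := hν0
    have h2 : ν < 1 := lt_of_lt_of_le hν (min_le_left _ _)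
    have h3 : ν < ε / (B + 1) := lt_of_lt_of_le hν (min_le_right _ _)
    rw [lt_div_iff₀ (by positivity)] at h3
    refine ⟨hν0, h2.le, ?_⟩
    nlinarith
  filter_upwards [hev] with ν hν z hz
  obtain ⟨hν0, hν1, hνB⟩ := hν
  have hνne : ν ≠ 0 := hν0.ne'
  have hν2 : ν ^ 2 ≤ ν := by nlinarith
  have hν2' : 0 ≤ ν ^ 2 := sq_nonneg ν
  have hw := abs_wv j ν z
  have hs := abs_sn j ν z
  -- products with the waves
  have pw : ∀ t : ℝ, |t| ≤ M → |ν ^ 2 * (t * wv j ν z)| ≤ ν * M := by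
    intro t ht
    rw [abs_mul, abs_mul, abs_of_nonneg hν2']
    have h1 : |t| * |wv j ν z| ≤ M * 1 := mul_le_mul ht hw (abs_nonneg _) hM
    calc ν ^ 2 * (|t| * |wv j ν z|) ≤ ν * (M * 1) :=
          mul_le_mul hν2 h1 (by positivity) hν0.le
      _ = ν * M := by ring
  have ps : ∀ t c : ℝ, |t| ≤ c → |ν * (t * sn j ν z)| ≤ ν * c := by
    intro t c ht
    rw [abs_mul, abs_mul, abs_of_pos hν0]
    have h1 : |t| * |sn j ν z| ≤ c * 1 :=
      mul_le_mul ht hs (abs_nonneg _) ((abs_nonneg _).trans ht)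
    calc ν * (|t| * |sn j ν z|) ≤ ν * (c * 1) := mul_le_mul_of_nonneg_left h1 hν0.le
      _ = ν * c := by ring
  have hk : ∀ (i : Fin 4) (t : ℝ), |t| ≤ M → |kf j i * t| ≤ 2 ^ j * M := by
    intro i t ht
    rw [abs_mul, abs_of_nonneg (kf_nonneg j i)]
    exact mul_le_mul (kf_le j i) ht (abs_nonneg _) hK
  have h1le : ν * M ≤ ε := by
    have : ν * M ≤ ν * B := mul_le_mul_of_nonneg_left (by rw [hB]; nlinarith) hν0.le
    linarith
  have hsec : ∀ i k : Fin 4,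
      |d i (d k fun z => A z * (ν ^ 2 * wv j ν z)) z + kf j i * kf j k * (A z * wv j ν z)| ≤
        ε := by
    intro i k
    rw [d_two hA j hνne i k z]
    have h1 := pw _ (hA2 i k z hz)
    have h2 : |kf j i * d k A z + kf j k * d i A z| ≤ 2 * 2 ^ j * M := by
      have h3 := hk i _ (hA1 k z hz)
      have h4 := hk k _ (hA1 i z hz)
      have h5 := abs_add_le (kf j i * d k A z) (kf j k * d i A z)
      linarith
    have h3 := ps _ _ h2
    have h4 : ν ^ 2 * (d i (d k A) z * wv j ν z) -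
        ν * ((kf j i * d k A z + kf j k * d i A z) * sn j ν z) -
        kf j i * kf j k * (A z * wv j ν z) + kf j i * kf j k * (A z * wv j ν z) =
        ν ^ 2 * (d i (d k A) z * wv j ν z) -
        ν * ((kf j i * d k A z + kf j k * d i A z) * sn j ν z) := by ring
    rw [h4]
    have h5 := abs_sub (ν ^ 2 * (d i (d k A) z * wv j ν z))
      (ν * ((kf j i * d k A z + kf j k * d i A z) * sn j ν z))
    have h6 : ν * M + ν * (2 * 2 ^ j * M) = ν * B := by rw [hB]; ring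
    linarith
  have k0 : kf j 0 = 2 ^ j := rfl
  have k1 : kf j 1 = 0 := rfl
  have k2 : kf j 2 = 1 := rfl
  have k3 : kf j 3 = 0 := rfl
  refine ⟨?_, ?_, ?_, ?_, ?_, ?_⟩
  · have h1 := pw _ (hA0 z hz)
    have h2 : A z * (ν ^ 2 * wv j ν z) = ν ^ 2 * (A z * wv j ν z) := by ring
    rw [h2]
    exact h1.trans h1le
  · intro i
    rw [d_one hA j hνne i z]
    have h1 := pw _ (hA1 i z hz)
    have h2 := ps _ _ (hk i _ (hA0 z hz))
    have h3 : ν * kf j i * (A z * sn j ν z) = ν * (kf j i * A z * sn j ν z) := by ring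
    rw [h3]
    have h5 := abs_sub (ν ^ 2 * (d i A z * wv j ν z)) (ν * (kf j i * A z * sn j ν z))
    have h6 : ν * M + ν * (2 ^ j * M) ≤ ν * B := by
      rw [hB]
      have : 0 ≤ ν * (2 ^ j * M) := by positivity
      nlinarith
    linarith
  · have h := hsec 0 0
    rw [k0] at h
    have h2 : (4 : ℝ) ^ j = 2 ^ j * 2 ^ j := by
      rw [← mul_pow]
      norm_num
    rw [h2, show (2 : ℝ) ^ j * 2 ^ j * A z * wv j ν z =
      2 ^ j * 2 ^ j * (A z * wv j ν z) by ring]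
    exact h
  · have h := hsec 0 2
    rw [k0, k2, mul_one] at h
    rw [show (2 : ℝ) ^ j * A z * wv j ν z = 2 ^ j * (A z * wv j ν z) by ring]
    exact h
  · have h := hsec 2 2
    rw [k2, mul_one, one_mul] at h
    exact h
  · intro i k hik
    have h := hsec i k
    have hi : kf j i = 0 := by
      rcases hik with rfl | rfl
      · exact k1
      · exact k3
    rw [hi, zero_mul, zero_mul, add_zero] at h
    exact h

end Pool.Agent.GNS
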