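import Pool.Agent.GNS.T1

/-!
# GNS: the target SNN, the form `SS` is nonnegative
-/

set_option autoImplicit false

open Metric Set Filter Topology MeasureTheory

noncomputable section

namespace Pool.Agent.GNS

/-- a nonnegative binary quadratic form has a nonnegative determinant -/
theorem SNN_disc {P Q R : ℝ} (h : ∀ s : ℝ, 0 ≤ P * (s * s) + 2 * Q * s + R) :
    Q ^ 2 ≤ P * R := by
  have h1 : discrim P (2 * Q) R ≤ 0 := discrim_le_zero h
  unfold discrim at h1
  nlinarith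

/-- the form on the span of `a e_0 + b e_1` and `e_2` -/
theorem SNN_two (hPSD : T_PSD) {w : V → ℝ} (hw : Sm w) (hc : ConvexOn ℝ univ w) (z : V)
    (a b : ℝ) : (a * d 0 (d 2 w) z + b * d 1 (d 2 w) z) ^ 2 ≤
      (a ^ 2 * d 0 (d 0 w) z + 2 * a * b * d 0 (d 1 w) z + b ^ 2 * d 1 (d 1 w) z) *
        d 2 (d 2 w) z := by
  refine SNN_disc fun s => ?_
  have h := hPSD w hw hc z ![s * a, s * b, 1, 0]
  simp only [Fin.sum_univ_four, Matrix.cons_val_zero, Matrix.cons_val_one, Matrix.cons_val] at h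
  rw [d_comm hw 1 0 z, d_comm hw 2 0 z, d_comm hw 2 1 z] at h
  linarith

/-- the form on the span of `a e_0 + b e_1` and `e_3` -/
theorem SNN_three (hPSD : T_PSD) {w : V → ℝ} (hw : Sm w) (hc : ConvexOn ℝ univ w) (z : V)
    (a b : ℝ) : (a * d 0 (d 3 w) z + b * d 1 (d 3 w) z) ^ 2 ≤
      (a ^ 2 * d 0 (d 0 w) z + 2 * a * b * d 0 (d 1 w) z + b ^ 2 * d 1 (d 1 w) z) *
        d 3 (d 3 w) z := by
  refine SNN_disc fun s => ?_
  have h := hPSD w hw hc z ![s * a, s * b, 0, 1]
  simp only [Fin.sum_univ_four, Matrix.cons_val_zero, Matrix.cons_val_one, Matrix.cons_val] at h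
  rw [d_comm hw 1 0 z, d_comm hw 3 0 z, d_comm hw 3 1 z] at h
  linarith

/-- SNN. The form `a² SS_0 + 2 a b S_01 + b² SS_1` is nonnegative. -/
theorem p_SNN (hPSD : T_PSD) : T_SNN := by
  intro w hw hc z a b
  have h2 := SNN_two hPSD hw hc z a b
  have h3 := SNN_three hPSD hw hc z a b
  unfold SS S01
  nlinarith

end Pool.Agent.GNS
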