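import Pool.Agent.GNS.T2

/-!
# GNS: target STB, the algebraic inequalities of the inductive step
-/

set_option autoImplicit false

open Metric Set Filter Topology MeasureTheory

noncomputable section

namespace Pool.Agent.GNS

namespace STB_

/-- powers of `2` -/
lemma pow4 (j : ℕ) : (4 : ℝ) ^ j = (2 ^ j) ^ 2 := by
  rw [← pow_mul, mul_comm, pow_mul]; norm_num

lemma pow8 (j : ℕ) : (8 : ℝ) ^ j = (2 ^ j) ^ 3 := by
  rw [← pow_mul, mul_comm, pow_mul]; norm_num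

/-- `β² |w| ≤ β²` and the like -/
lemma absmul {a b w : ℝ} (hb : 0 ≤ b) (ha : |a| ≤ b) (hw : |w| ≤ 1) : |a * w| ≤ b := by
  rw [abs_mul]
  calc |a| * |w| ≤ b * 1 := mul_le_mul ha hw (abs_nonneg _) hb
    _ = b := mul_one b

lemma m2 {M U D P β w : ℝ} (hD : 0 < D) (hP : 0 ≤ P) (hβ : 0 ≤ β) (hβ1 : β ≤ 1)
    (hw : |w| ≤ 1) (hM : |M| ≤ U / D) : |M + P / D * β ^ 2 * w| ≤ (U + P * β) / D := by
  have h1 : |P / D * β ^ 2 * w| ≤ P / D * β := by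
    refine absmul (by positivity) ?_ hw
    rw [abs_of_nonneg (by positivity)]
    exact mul_le_mul_of_nonneg_left (by nlinarith) (by positivity)
  calc |M + P / D * β ^ 2 * w| ≤ |M| + |P / D * β ^ 2 * w| := abs_add_le _ _
    _ ≤ U / D + P / D * β := add_le_add hM h1
    _ = (U + P * β) / D := by ring

lemma m3 {M D P β w : ℝ} (hD : 0 < D) (hP : 0 ≤ P) (hβ : 0 ≤ β) (hβ1 : β ≤ 1)
    (hw : |w| ≤ 1) (hM : |M| ≤ P / D) : |M + P / D * β ^ 2 * w| ≤ 2 * P / D := by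
  have h1 : |P / D * β ^ 2 * w| ≤ P / D := by
    refine absmul (by positivity) ?_ hw
    rw [abs_of_nonneg (by positivity)]
    calc P / D * β ^ 2 ≤ P / D * 1 :=
          mul_le_mul_of_nonneg_left (by nlinarith) (by positivity)
      _ = P / D := mul_one _
  calc |M + P / D * β ^ 2 * w| ≤ |M| + |P / D * β ^ 2 * w| := abs_add_le _ _
    _ ≤ P / D + P / D := add_le_add hM h1
    _ = 2 * P / D := by ring

lemma m3' {M U D P β w n : ℝ} (hD : 0 < D) (hn : D ^ 2 = n) (hP : 0 ≤ P) (hβ : 0 ≤ β)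
    (hβ1 : β ≤ 1) (hw : |w| ≤ 1) (hM : |M| ≤ P / D) (hM2 : M ^ 2 ≤ 3 * U / n) :
    (M + P / D * β ^ 2 * w) ^ 2 ≤ 3 * (U + P ^ 2 * β) / n := by
  have hn0 : 0 < n := by rw [← hn]; positivity
  have h1 : |P / D * β ^ 2 * w| ≤ P / D * β ^ 2 := by
    refine absmul (by positivity) ?_ hw
    rw [abs_of_nonneg (by positivity)]
  have hb4 : β ^ 4 ≤ β := by
    have h2 : β ^ 2 ≤ β := by nlinarith
    have h3 : 0 ≤ β ^ 2 := by positivity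
    nlinarith
  have hb2 : β ^ 2 ≤ β := by nlinarith
  have h2 : M * (P / D * β ^ 2 * w) ≤ P / D * (P / D * β ^ 2) := by
    calc M * (P / D * β ^ 2 * w) ≤ |M * (P / D * β ^ 2 * w)| := le_abs_self _
      _ = |M| * |P / D * β ^ 2 * w| := abs_mul _ _
      _ ≤ P / D * (P / D * β ^ 2) := mul_le_mul hM h1 (abs_nonneg _) (by positivity)
  have h3 : (P / D * β ^ 2 * w) ^ 2 ≤ (P / D * β ^ 2) ^ 2 := by
    rw [← sq_abs (P / D * β ^ 2 * w)]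
    exact pow_le_pow_left₀ (abs_nonneg _) h1 2
  have h4 : P / D * (P / D * β ^ 2) = P ^ 2 / n * β ^ 2 := by
    rw [← hn]; field_simp
  have h5 : (P / D * β ^ 2) ^ 2 = P ^ 2 / n * β ^ 4 := by
    rw [← hn]; field_simp
  have h6 : P ^ 2 / n * β ^ 2 ≤ P ^ 2 / n * β := mul_le_mul_of_nonneg_left hb2 (by positivity)
  have h7 : P ^ 2 / n * β ^ 4 ≤ P ^ 2 / n * β := mul_le_mul_of_nonneg_left hb4 (by positivity)
  calc (M + P / D * β ^ 2 * w) ^ 2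
      = M ^ 2 + 2 * (M * (P / D * β ^ 2 * w)) + (P / D * β ^ 2 * w) ^ 2 := by ring
    _ ≤ 3 * U / n + 2 * (P ^ 2 / n * β) + P ^ 2 / n * β := by linarith
    _ = 3 * (U + P ^ 2 * β) / n := by ring

lemma aplus {A D P β w : ℝ} (hD : 0 < D) (hP : 0 ≤ P) (hw : |w| ≤ 1)
    (hA : |A| ≤ 3 * P * β ^ 2 / D) : |A + P / D * β ^ 2 * w| ≤ 4 * P * β ^ 2 / D := by
  have h1 : |P / D * β ^ 2 * w| ≤ P / D * β ^ 2 := by
    refine absmul (by positivity) ?_ hw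
    rw [abs_of_nonneg (by positivity)]
  calc |A + P / D * β ^ 2 * w| ≤ |A| + |P / D * β ^ 2 * w| := abs_add_le _ _
    _ ≤ 3 * P * β ^ 2 / D + P / D * β ^ 2 := add_le_add hA h1
    _ = 4 * P * β ^ 2 / D := by ring

lemma inv6 {m : ℝ} (hm : 2 / 3 ≤ 4 * m) : 1 / m ≤ 6 := by
  have h0 : 0 < m := by linarith
  rw [div_le_iff₀ h0]
  linarith

lemma aa {X D P β m t1 t2 : ℝ} (hD : 0 < D) (hP : 0 ≤ P)
    (hm : 2 / 3 ≤ 4 * m) (hX : |X| ≤ 4 * P * β ^ 2 / D) :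
    |X * (t1 ^ 2 / m) * t2 ^ 2| ≤ 3 * (P * 8) * (β * t1 * t2) ^ 2 / D := by
  have h0 : 0 < m := by linarith
  have h1 : t1 ^ 2 / m ≤ 6 * t1 ^ 2 := by
    have h2 := mul_le_mul_of_nonneg_left (inv6 hm) (sq_nonneg t1)
    calc t1 ^ 2 / m = t1 ^ 2 * (1 / m) := by ring
      _ ≤ t1 ^ 2 * 6 := h2
      _ = 6 * t1 ^ 2 := by ring
  rw [abs_mul, abs_mul, abs_of_nonneg (show 0 ≤ t1 ^ 2 / m by positivity),
    abs_of_nonneg (show 0 ≤ t2 ^ 2 by positivity)]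
  calc |X| * (t1 ^ 2 / m) * t2 ^ 2 ≤ (4 * P * β ^ 2 / D) * (6 * t1 ^ 2) * t2 ^ 2 := by
        gcongr
    _ = 3 * (P * 8) * (β * t1 * t2) ^ 2 / D := by ring

lemma m1 {M X F U D P β m t1 t2 : ℝ} (hD : 0 < D) (hP : 0 ≤ P) (hβ : 0 ≤ β)
    (hβ1 : β ≤ 1) (h1 : 0 ≤ t1) (h1' : t1 ≤ 1) (h2 : 0 ≤ t2) (h2' : t2 ≤ 1) (hm : 2 / 3 ≤ 4 * m)
    (hF : 0 ≤ F) (hU : 0 ≤ U) (hM : |M| ≤ 12 * F * Real.sqrt U / D)
    (hX : |X| ≤ 4 * P ^ 3 * β ^ 2 / D) :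
    |M + X * (t1 ^ 2 / m) * (1 - t2 ^ 2)| ≤
      12 * (F + P ^ 2 * β * (4 * t1 * (1 - t2))) * Real.sqrt (U + P ^ 2 * β) / D := by
  have h0 : 0 < m := by linarith
  have e1 : t1 ^ 2 / m ≤ 6 * t1 := by
    have e2 : t1 ^ 2 ≤ t1 := by nlinarith
    calc t1 ^ 2 / m = t1 ^ 2 * (1 / m) := by ring
      _ ≤ t1 * 6 := mul_le_mul e2 (inv6 hm) (by positivity) h1
      _ = 6 * t1 := by ring
  have e2 : 1 - t2 ^ 2 ≤ 2 * (1 - t2) := by nlinarith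
  have e3 : 0 ≤ 1 - t2 ^ 2 := by nlinarith
  have e4 : |X * (t1 ^ 2 / m) * (1 - t2 ^ 2)| ≤
      48 * (P ^ 2 * β * (t1 * (1 - t2))) * (P * β) / D := by
    rw [abs_mul, abs_mul, abs_of_nonneg (show 0 ≤ t1 ^ 2 / m by positivity),
      abs_of_nonneg e3]
    calc |X| * (t1 ^ 2 / m) * (1 - t2 ^ 2)
        ≤ (4 * P ^ 3 * β ^ 2 / D) * (6 * t1) * (2 * (1 - t2)) := by
          gcongr
      _ = 48 * (P ^ 2 * β * (t1 * (1 - t2))) * (P * β) / D := by ring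
  have e5 : P * β ≤ Real.sqrt (U + P ^ 2 * β) := by
    apply Real.le_sqrt_of_sq_le
    have e6 : P ^ 2 * β ^ 2 ≤ P ^ 2 * β :=
      mul_le_mul_of_nonneg_left (by nlinarith) (by positivity)
    calc (P * β) ^ 2 = P ^ 2 * β ^ 2 := by ring
      _ ≤ P ^ 2 * β := e6
      _ ≤ U + P ^ 2 * β := by linarith
  have e6 : Real.sqrt U ≤ Real.sqrt (U + P ^ 2 * β) := by
    apply Real.sqrt_le_sqrt
    have : 0 ≤ P ^ 2 * β := by positivity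
    linarith
  have e7 : 0 ≤ 1 - t2 := by linarith
  have e8 : 12 * F * Real.sqrt U / D ≤ 12 * F * Real.sqrt (U + P ^ 2 * β) / D := by
    gcongr
  have e9 : 48 * (P ^ 2 * β * (t1 * (1 - t2))) * (P * β) / D ≤
      48 * (P ^ 2 * β * (t1 * (1 - t2))) * Real.sqrt (U + P ^ 2 * β) / D := by
    gcongr
  calc |M + X * (t1 ^ 2 / m) * (1 - t2 ^ 2)|
      ≤ |M| + |X * (t1 ^ 2 / m) * (1 - t2 ^ 2)| := abs_add_le _ _
    _ ≤ 12 * F * Real.sqrt (U + P ^ 2 * β) / D +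
        48 * (P ^ 2 * β * (t1 * (1 - t2))) * Real.sqrt (U + P ^ 2 * β) / D := by
        linarith
    _ = 12 * (F + P ^ 2 * β * (4 * t1 * (1 - t2))) * Real.sqrt (U + P ^ 2 * β) / D := by ring

lemma uu {U F1 F2 P β t1 t2 : ℝ} (hP : 0 ≤ P) (hβ : 0 ≤ β) (h1 : 0 ≤ t1) (h2' : t2 ≤ 1)
    (hU : U ≤ 2 * (F1 + F2) + P * β / 2) :
    U + P * β ≤ 2 * (F1 + P * β * (4 * t1 * (1 - t2)) + (F2 + P * β * (1 - t1))) +
      P * 4 * (β * t1 * t2) / 2 := by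
  have e1 : 0 ≤ P * β := by positivity
  have e2 : 0 ≤ P * β * (t1 * (1 - t2)) := by
    have : 0 ≤ 1 - t2 := by linarith
    positivity
  nlinarith

end STB_

theorem p_STB : T_STB := by
  intro N θ σ σ2 q3 ϵ m2 c3 C ζ0 hp hN j s hA hB ν h h'
  have hN' : (3 : ℝ) ≤ N := by exact_mod_cast hN
  have hD : 0 < Real.sqrt N := Real.sqrt_pos.2 (by linarith)
  have hD2 : Real.sqrt N ^ 2 = (N : ℝ) := Real.sq_sqrt (by linarith)
  have hm : 2 / 3 ≤ 4 * m2 := by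
    have h1 : 1 / (N : ℝ) ≤ 1 / 3 := one_div_le_one_div_of_le (by norm_num) hN'
    have h2 := hp.m2lo
    linarith
  have hP : (0 : ℝ) ≤ 2 ^ j := by positivity
  have hw : ∀ z, |wv j ν z| ≤ 1 := fun z => Real.abs_cos_le_one _
  have t1 : ∀ z, 0 ≤ c0 θ h z ∧ c0 θ h z ≤ 1 := fun z => ⟨hp.nn _, hp.le _⟩
  have t2 : ∀ z, 0 ≤ c1 θ h' z ∧ c1 θ h' z ≤ 1 := fun z => ⟨hp.nn _, hp.le _⟩
  have hX : ∀ z, |s.A z + 8 ^ j / Real.sqrt N * s.β z ^ 2 * wv j ν z| ≤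
      4 * 8 ^ j * s.β z ^ 2 / Real.sqrt N := fun z =>
    STB_.aplus hD (by positivity) (hw z) (hB.bA z)
  refine ⟨fun z => ?_, fun z => ?_, fun z => ?_, fun z => ?_, fun z => ?_, fun z => ?_⟩
  · exact STB_.m2 hD (by positivity) (hA.nβ z) (hA.lβ z) (hw z) (hB.bM2 z)
  · have := STB_.m3 hD hP (hA.nβ z) (hA.lβ z) (hw z) (hB.bM3 z)
    rw [pow_succ, mul_comm ((2 : ℝ) ^ j) 2]
    exact this
  · have := STB_.m3' hD hD2 hP (hA.nβ z) (hA.lβ z) (hw z) (hB.bM3 z) (hB.bM3' z)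
    rw [← STB_.pow4] at this
    exact this
  · have := STB_.aa (t1 := c0 θ h z) (t2 := c1 θ h' z) hD
      (show (0 : ℝ) ≤ 8 ^ j by positivity) hm (hX z)
    rw [pow_succ]
    exact this
  · have hX' := hX z
    rw [STB_.pow8] at hX'
    have := STB_.m1 hD hP (hA.nβ z) (hA.lβ z) (t1 z).1 (t1 z).2 (t2 z).1 (t2 z).2 hm
      (hA.nF1 z) (hA.nU z) (hB.bM1 z) hX'
    rw [← STB_.pow8, ← STB_.pow4] at this
    exact this
  · have := STB_.uu (P := 4 ^ j) (by positivity) (hA.nβ z) (t1 z).1 (t2 z).2 (hB.bU z)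
    rw [pow_succ]
    exact this

end Pool.Agent.GNS
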