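import Pool.Agent.GNS.T2

/-!
# GNS: the step for the convex functions
-/

set_option autoImplicit false

open Metric Set Filter Topology MeasureTheory

noncomputable section

namespace Pool.Agent.GNS

namespace STC_

theorem smx0 : Sm fun z : V => z.1.1 := contDiff_fst.comp contDiff_fst

theorem smx1 : Sm fun z : V => z.1.2 := contDiff_snd.comp contDiff_fst

theorem dx0 (i : Fin 4) (z : V) : d i (fun z : V => z.1.1) z = (e i).1.1 := by
  have h : HasFDerivAt (fun z : V => z.1.1)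
      ((ContinuousLinearMap.fst ℝ ℝ ℝ).comp (ContinuousLinearMap.fst ℝ X2 X2)) z :=
    ((ContinuousLinearMap.fst ℝ ℝ ℝ).comp (ContinuousLinearMap.fst ℝ X2 X2)).hasFDerivAt
  unfold d
  rw [h.fderiv]
  rfl

theorem dx1 (i : Fin 4) (z : V) : d i (fun z : V => z.1.2) z = (e i).1.2 := by
  have h : HasFDerivAt (fun z : V => z.1.2)
      ((ContinuousLinearMap.snd ℝ ℝ ℝ).comp (ContinuousLinearMap.fst ℝ X2 X2)) z :=
    ((ContinuousLinearMap.snd ℝ ℝ ℝ).comp (ContinuousLinearMap.fst ℝ X2 X2)).hasFDerivAt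
  unfold d
  rw [h.fderiv]
  rfl

theorem smdiv {f : V → ℝ} (hf : Sm f) (h : ℝ) : Sm fun z => f z / h := by
  have : (fun z => f z / h) = fun z => h⁻¹ * f z := by
    funext z
    rw [div_eq_inv_mul]
  rw [this]
  exact hf.cmul _

theorem smc0 {f : ℝ → ℝ} (hf : ContDiff ℝ ((⊤ : ℕ∞) : WithTop ℕ∞) f) (h : ℝ) :
    Sm (c0 f h) := (smdiv smx0 h).comp1 hf

theorem smc1 {f : ℝ → ℝ} (hf : ContDiff ℝ ((⊤ : ℕ∞) : WithTop ℕ∞) f) (h : ℝ) :
    Sm (c1 f h) := (smdiv smx1 h).comp1 hf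

theorem q1_eq : q1 = fun z : V => 1 / 2 * (z.1.1 * z.1.1) + 1 / 2 * (z.1.2 * z.1.2) := by
  funext z
  unfold q1
  ring

theorem smq1 : Sm q1 := by
  rw [q1_eq]
  exact ((smx0.mul smx0).cmul _).add ((smx1.mul smx1).cmul _)

theorem d_q1 (k : Fin 4) : d k q1 = fun z : V => (e k).1.1 * z.1.1 + (e k).1.2 * z.1.2 := by
  funext z
  rw [q1_eq, d_add ((smx0.mul smx0).cmul _) ((smx1.mul smx1).cmul _),
    d_cmul (smx0.mul smx0), d_cmul (smx1.mul smx1), d_mul smx0 smx0, d_mul smx1 smx1, dx0, dx1]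
  ring

theorem dd_q1 (i k : Fin 4) (z : V) :
    d i (d k q1) z = (e k).1.1 * (e i).1.1 + (e k).1.2 * (e i).1.2 := by
  rw [d_q1, d_add (smx0.cmul _) (smx1.cmul _), d_cmul smx0, d_cmul smx1, dx0, dx1]

theorem q00 (z : V) : d 0 (d 0 q1) z = 1 := by
  rw [dd_q1]
  simp [e]

theorem q01 (z : V) : d 0 (d 1 q1) z = 0 := by
  rw [dd_q1]
  simp [e]

theorem q11 (z : V) : d 1 (d 1 q1) z = 1 := by
  rw [dd_q1]
  simp [e]

theorem dd_add {f g : V → ℝ} (hf : Sm f) (hg : Sm g) (i k : Fin 4) (z : V) :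
    d i (d k fun z => f z + g z) z = d i (d k f) z + d i (d k g) z := by
  have h : (d k fun z => f z + g z) = fun z => d k f z + d k g z := funext (d_add hf hg k)
  rw [h, d_add (hf.d k) (hg.d k)]

theorem d_quot {f g : V → ℝ} (hf : Sm f) (hg : Sm g) (N : ℝ) (k : Fin 4) (z : V) :
    d k (fun z => (f z - g z) / N) z = (d k f z - d k g z) / N := by
  have h : (fun z => (f z - g z) / N) = fun z => N⁻¹ * (f z - g z) := by
    funext z
    rw [div_eq_inv_mul]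
  rw [h, d_cmul (hf.sub hg), d_sub hf hg, div_eq_inv_mul]

theorem dd_quot {f g : V → ℝ} (hf : Sm f) (hg : Sm g) (N : ℝ) (i k : Fin 4) (z : V) :
    d i (d k fun z => (f z - g z) / N) z = (d i (d k f) z - d i (d k g) z) / N := by
  have h : (d k fun z => (f z - g z) / N) = fun z => (d k f z - d k g z) / N :=
    funext (d_quot hf hg N k)
  rw [h, d_quot (hf.d k) (hg.d k)]

/-- the algebra for the form of `Φ'` -/
theorem alg (F1 F2 B t1 t2 ep K κ a b p00 p01 p11 g00 g01 g11 k00 k01 k11 : ℝ)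
    (hB : 0 ≤ B) (ht1 : 0 ≤ t1) (hep : 0 ≤ ep) (hκ : 0 < κ)
    (hp : (F1 + B) * a ^ 2 + (F2 + B) * b ^ 2 - K * κ * (a ^ 2 + b ^ 2) ≤
      a ^ 2 * p00 + 2 * a * b * p01 + b ^ 2 * p11)
    (h00 : |g00 - B * (4 * t1 + ep - 1)| ≤ κ / 8) (h01 : |g01| ≤ κ / 8) (h11 : |g11| ≤ κ / 8)
    (l00 : |k00| ≤ κ / 8) (l01 : |k01| ≤ κ / 8)
    (l11 : |k11 - B * t1 * (4 * t2 + ep - 1)| ≤ κ / 8) :
    (F1 + B * (4 * t1)) * a ^ 2 + (F2 + B * (1 - t1) + B * (4 * (t1 * t2))) * b ^ 2 -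
      (K + 1) * κ * (a ^ 2 + b ^ 2) ≤
    a ^ 2 * (p00 + g00 + k00) + 2 * a * b * (p01 + g01 + k01) + b ^ 2 * (p11 + g11 + k11) := by
  have e1 : 0 ≤ a ^ 2 * (g00 - B * (4 * t1 + ep - 1) + κ / 8) :=
    mul_nonneg (sq_nonneg a) (by linarith [(abs_le.1 h00).1])
  have e2 : 0 ≤ a ^ 2 * (k00 + κ / 8) :=
    mul_nonneg (sq_nonneg a) (by linarith [(abs_le.1 l00).1])
  have e3 : 0 ≤ b ^ 2 * (g11 + κ / 8) :=
    mul_nonneg (sq_nonneg b) (by linarith [(abs_le.1 h11).1])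
  have e4 : 0 ≤ b ^ 2 * (k11 - B * t1 * (4 * t2 + ep - 1) + κ / 8) :=
    mul_nonneg (sq_nonneg b) (by linarith [(abs_le.1 l11).1])
  have e5 : |2 * a * b * (g01 + k01)| ≤ (a ^ 2 + b ^ 2) * (κ / 4) := by
    rw [abs_mul]
    have h1 : |2 * a * b| ≤ a ^ 2 + b ^ 2 := by
      rw [abs_le]
      constructor
      · nlinarith [sq_nonneg (a + b)]
      · nlinarith [sq_nonneg (a - b)]
    have h2 : |g01 + k01| ≤ κ / 4 := by
      have := abs_add_le g01 k01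
      linarith
    exact mul_le_mul h1 h2 (abs_nonneg _) (by positivity)
  have e6 := (abs_le.1 e5).1
  have e7 : 0 ≤ a ^ 2 * (B * ep) := by positivity
  have e8 : 0 ≤ b ^ 2 * (B * t1 * ep) := by positivity
  have e9 : 0 ≤ κ * a ^ 2 := by positivity
  have e10 : 0 ≤ κ * b ^ 2 := by positivity
  linarith

/-- the algebra for the form of `Ξ'` -/
theorem alg2 (N F1 F2 B U j κ a b p00 p01 p11 x00 x01 x11 : ℝ) (hN : 0 < N) (hj : 0 ≤ j)
    (hκ : 0 < κ) (hF1 : 0 ≤ F1) (hF2 : 0 ≤ F2)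
    (hp : (F1 + B) * a ^ 2 + (F2 + B) * b ^ 2 - j * κ * (a ^ 2 + b ^ 2) ≤
      a ^ 2 * p00 + 2 * a * b * p01 + b ^ 2 * p11)
    (hx : (U / N - j * (1 + j * κ) / N) * (a ^ 2 + b ^ 2) ≤
      a ^ 2 * x00 + 2 * a * b * x01 + b ^ 2 * x11) :
    ((U + B) / N - (j + 1) * (1 + (j + 1) * κ) / N) * (a ^ 2 + b ^ 2) ≤
      a ^ 2 * (x00 + (p00 - 1) / N) + 2 * a * b * (x01 + (p01 - 0) / N) +
        b ^ 2 * (x11 + (p11 - 1) / N) := by
  have h1 : 0 ≤ F1 * a ^ 2 := by positivity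
  have h2 : 0 ≤ F2 * b ^ 2 := by positivity
  have h3 : (B - j * κ - 1) * (a ^ 2 + b ^ 2) ≤
      a ^ 2 * (p00 - 1) + 2 * a * b * (p01 - 0) + b ^ 2 * (p11 - 1) := by linarith
  have h4 : (B - (j + 1) * (1 + (j + 1) * κ) + j * (1 + j * κ)) * (a ^ 2 + b ^ 2) ≤
      (B - j * κ - 1) * (a ^ 2 + b ^ 2) := by
    apply mul_le_mul_of_nonneg_right _ (by positivity)
    nlinarith [mul_nonneg hj hκ.le]
  have h5 := div_le_div_of_nonneg_right (h4.trans h3) hN.le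
  have h6 : ((U + B) / N - (j + 1) * (1 + (j + 1) * κ) / N) * (a ^ 2 + b ^ 2) =
      (U / N - j * (1 + j * κ) / N) * (a ^ 2 + b ^ 2) +
      (B - (j + 1) * (1 + (j + 1) * κ) + j * (1 + j * κ)) * (a ^ 2 + b ^ 2) / N := by
    field_simp
    ring
  have h7 : a ^ 2 * (x00 + (p00 - 1) / N) + 2 * a * b * (x01 + (p01 - 0) / N) +
        b ^ 2 * (x11 + (p11 - 1) / N) = (a ^ 2 * x00 + 2 * a * b * x01 + b ^ 2 * x11) +
      (a ^ 2 * (p00 - 1) + 2 * a * b * (p01 - 0) + b ^ 2 * (p11 - 1)) / N := by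
    field_simp
    ring
  rw [h6, h7]
  exact add_le_add hx h5

/-- the algebra for the bounds of `Ξ'` -/
theorem alg3 (N j κ x y : ℝ) (hN : 0 < N) (hj : 0 ≤ j) (hκ : 0 < κ)
    (hx : |x| ≤ j * (j * κ) / N) (hy : |y| ≤ j * κ) :
    |x + y / N| ≤ (j + 1) * ((j + 1) * κ) / N := by
  have h1 : |y / N| ≤ j * κ / N := by
    rw [abs_div, abs_of_pos hN]
    exact div_le_div_of_nonneg_right hy hN.le
  have h2 := abs_add_le x (y / N)
  have h3 : j * (j * κ) / N + j * κ / N ≤ (j + 1) * ((j + 1) * κ) / N := by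
    rw [← add_div]
    apply div_le_div_of_nonneg_right _ hN.le
    nlinarith [mul_nonneg hj hκ.le]
  linarith

end STC_

open STC_ in
theorem p_STC (hSM0 : T_SM0) (hSM1 : T_SM1) : T_STC := by
  intro N θ σ σ2 q3 ϵ m2 c3 C ζ0 hPr hN j κ s hκ hA hC
  have hN0 : (0 : ℝ) < N := by
    have : (3 : ℝ) ≤ N := by exact_mod_cast hN
    linarith
  have hj0 : (0 : ℝ) ≤ j := Nat.cast_nonneg j
  have smB : Sm fun z => 4 ^ j * s.β z := hA.smβ.cmul _
  unfold Ev3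
  refine Eventually.of_forall fun ν => ?_
  filter_upwards [hSM0 (fun z => 4 ^ j * s.β z) σ C (κ / 8) smB hPr.smσ hPr.bσ (by positivity)]
    with h h0
  have smT : Sm fun z => 4 ^ j * (s.β z * c0 θ h z) :=
    (hA.smβ.mul (smc0 hPr.smθ h)).cmul _
  filter_upwards [hSM1 (fun z => 4 ^ j * (s.β z * c0 θ h z)) σ C (κ / 8) smT hPr.smσ hPr.bσ
    (by positivity)] with h' h1
  have smG0 : Sm fun z => 4 ^ j * s.β z * (h ^ 2 * c0 σ h z) :=
    smB.mul ((smc0 hPr.smσ h).cmul _)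
  have smG1 : Sm fun z => 4 ^ j * (s.β z * c0 θ h z) * (h' ^ 2 * c1 σ h' z) :=
    smT.mul ((smc1 hPr.smσ h').cmul _)
  have smP : Sm fun z => s.Φ z + 4 ^ j * s.β z * (h ^ 2 * c0 σ h z) := hA.smΦ.add smG0
  have hdP : ∀ (i : Fin 4) (z : V),
      d i (stp N θ σ σ2 m2 ζ0 j ν h h' s).Φ z = d i s.Φ z +
        d i (fun z => 4 ^ j * s.β z * (h ^ 2 * c0 σ h z)) z +
        d i (fun z => 4 ^ j * (s.β z * c0 θ h z) * (h' ^ 2 * c1 σ h' z)) z := by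
    intro i z
    have e1 := d_add smP smG1 i z
    have e2 := d_add hA.smΦ smG0 i z
    have e3 : d i (stp N θ σ σ2 m2 ζ0 j ν h h' s).Φ z = d i (fun z => (s.Φ z +
      4 ^ j * s.β z * (h ^ 2 * c0 σ h z)) +
      4 ^ j * (s.β z * c0 θ h z) * (h' ^ 2 * c1 σ h' z)) z := rfl
    rw [e3, e1, e2]
  have hddP : ∀ (i k : Fin 4) (z : V),
      d i (d k (stp N θ σ σ2 m2 ζ0 j ν h h' s).Φ) z = d i (d k s.Φ) z +
        d i (d k fun z => 4 ^ j * s.β z * (h ^ 2 * c0 σ h z)) z +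
        d i (d k fun z => 4 ^ j * (s.β z * c0 θ h z) * (h' ^ 2 * c1 σ h' z)) z := by
    intro i k z
    have e1 := dd_add smP smG1 i k z
    have e2 := dd_add hA.smΦ smG0 i k z
    have e3 : d i (d k (stp N θ σ σ2 m2 ζ0 j ν h h' s).Φ) z = d i (d k fun z => (s.Φ z +
      4 ^ j * s.β z * (h ^ 2 * c0 σ h z)) +
      4 ^ j * (s.β z * c0 θ h z) * (h' ^ 2 * c1 σ h' z)) z := rfl
    rw [e3, e1, e2]
  have smQ : Sm fun z => (s.Φ z - q1 z) / (N : ℝ) := smdiv (hA.smΦ.sub smq1) _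
  have hdX : ∀ (i : Fin 4) (z : V),
      d i (stp N θ σ σ2 m2 ζ0 j ν h h' s).Ξ z = d i s.Ξ z + (d i s.Φ z - d i q1 z) / N := by
    intro i z
    have e1 := d_add hA.smΞ smQ i z
    have e3 : d i (stp N θ σ σ2 m2 ζ0 j ν h h' s).Ξ z =
      d i (fun z => s.Ξ z + (s.Φ z - q1 z) / (N : ℝ)) z := rfl
    rw [e3, e1, d_quot hA.smΦ smq1]
  have hddX : ∀ (i k : Fin 4) (z : V),
      d i (d k (stp N θ σ σ2 m2 ζ0 j ν h h' s).Ξ) z = d i (d k s.Ξ) z +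
        (d i (d k s.Φ) z - d i (d k q1) z) / N := by
    intro i k z
    have e1 := dd_add hA.smΞ smQ i k z
    have e3 : d i (d k (stp N θ σ σ2 m2 ζ0 j ν h h' s).Ξ) z =
      d i (d k fun z => s.Ξ z + (s.Φ z - q1 z) / (N : ℝ)) z := rfl
    rw [e3, e1, dd_quot hA.smΦ smq1]
  refine ⟨?_, ?_, ?_, ?_, ?_, ?_⟩
  · intro z hz a b
    obtain ⟨-, -, g00, gr⟩ := h0 z hz
    obtain ⟨-, -, k11, kr⟩ := h1 z hz
    have g01 := gr 0 1 (by decide)
    have g11 := gr 1 1 (by decide)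
    have k00 := kr 0 0 (by decide)
    have k01 := kr 0 1 (by decide)
    have f0 : c0 (deriv (deriv σ)) h z = 4 * c0 θ h z + ϵ - 1 := hPr.hσ _
    have f1 : c1 (deriv (deriv σ)) h' z = 4 * c1 θ h' z + ϵ - 1 := hPr.hσ _
    rw [f0] at g00
    rw [f1] at k11
    have k11' : |d 1 (d 1 fun z => 4 ^ j * (s.β z * c0 θ h z) * (h' ^ 2 * c1 σ h' z)) z -
        4 ^ j * s.β z * c0 θ h z * (4 * c1 θ h' z + ϵ - 1)| ≤ κ / 8 := by
      have : 4 ^ j * s.β z * c0 θ h z * (4 * c1 θ h' z + ϵ - 1) =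
        4 ^ j * (s.β z * c0 θ h z) * (4 * c1 θ h' z + ϵ - 1) := by ring
      rw [this]
      exact k11
    have hB : 0 ≤ 4 ^ j * s.β z := mul_nonneg (by positivity) (hA.nβ z)
    have key := alg (s.F1 z) (s.F2 z) (4 ^ j * s.β z) (c0 θ h z) (c1 θ h' z) ϵ j κ a b _ _ _ _ _ _
      _ _ _ hB (hPr.nn _) hPr.ϵnn hκ (hC.phi z hz a b) g00 g01 g11 k00 k01 k11'
    rw [hddP, hddP, hddP]
    refine le_trans (le_of_eq ?_) key
    simp only [stp, g0, g1]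
    push_cast
    ring
  · intro z hz
    obtain ⟨g0', -, -, -⟩ := h0 z hz
    obtain ⟨k0', -, -, -⟩ := h1 z hz
    have hp := hC.phi0 z hz
    have e1 : (stp N θ σ σ2 m2 ζ0 j ν h h' s).Φ z - q1 z = (s.Φ z - q1 z) +
      4 ^ j * s.β z * (h ^ 2 * c0 σ h z) +
      4 ^ j * (s.β z * c0 θ h z) * (h' ^ 2 * c1 σ h' z) := by
      simp only [stp]
      ring
    rw [e1]
    have e2 := abs_add_le ((s.Φ z - q1 z) + 4 ^ j * s.β z * (h ^ 2 * c0 σ h z))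
      (4 ^ j * (s.β z * c0 θ h z) * (h' ^ 2 * c1 σ h' z))
    have e3 := abs_add_le (s.Φ z - q1 z) (4 ^ j * s.β z * (h ^ 2 * c0 σ h z))
    push_cast
    linarith
  · intro z hz i
    obtain ⟨-, g0', -, -⟩ := h0 z hz
    obtain ⟨-, k0', -, -⟩ := h1 z hz
    have hp := hC.phi1 z hz i
    have g := g0' i
    have k := k0' i
    rw [hdP]
    have e2 := abs_add_le ((d i s.Φ z - d i q1 z) +
      d i (fun z => 4 ^ j * s.β z * (h ^ 2 * c0 σ h z)) z)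
      (d i (fun z => 4 ^ j * (s.β z * c0 θ h z) * (h' ^ 2 * c1 σ h' z)) z)
    have e3 := abs_add_le (d i s.Φ z - d i q1 z)
      (d i (fun z => 4 ^ j * s.β z * (h ^ 2 * c0 σ h z)) z)
    have e4 : d i s.Φ z + d i (fun z => 4 ^ j * s.β z * (h ^ 2 * c0 σ h z)) z +
      d i (fun z => 4 ^ j * (s.β z * c0 θ h z) * (h' ^ 2 * c1 σ h' z)) z - d i q1 z =
      (d i s.Φ z - d i q1 z) + d i (fun z => 4 ^ j * s.β z * (h ^ 2 * c0 σ h z)) z +
      d i (fun z => 4 ^ j * (s.β z * c0 θ h z) * (h' ^ 2 * c1 σ h' z)) z := by ring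
    rw [e4]
    push_cast
    linarith
  · intro z hz a b
    rw [hddX, hddX, hddX, q00, q01, q11]
    have key := alg2 N (s.F1 z) (s.F2 z) (4 ^ j * s.β z) (s.U z) j κ a b _ _ _ _ _ _ hN0 hj0 hκ
      (hA.nF1 z) (hA.nF2 z) (hC.phi z hz a b) (hC.xi z hz a b)
    refine le_trans (le_of_eq ?_) key
    simp only [stp]
    push_cast
    ring
  · intro z hz
    have key := alg3 N j κ (s.Ξ z) (s.Φ z - q1 z) hN0 hj0 hκ (hC.xi0 z hz) (hC.phi0 z hz)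
    have e1 : (stp N θ σ σ2 m2 ζ0 j ν h h' s).Ξ z = s.Ξ z + (s.Φ z - q1 z) / N := rfl
    rw [e1]
    push_cast
    exact key
  · intro z hz i
    have key := alg3 N j κ (d i s.Ξ z) (d i s.Φ z - d i q1 z) hN0 hj0 hκ (hC.xi1 z hz i)
      (hC.phi1 z hz i)
    rw [hdX]
    push_cast
    exact key

end Pool.Agent.GNS
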