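import Pool.Agent.GNS.T2

set_option autoImplicit false

open Metric Set Filter Topology MeasureTheory

noncomputable section

namespace Pool.Agent.GNS

theorem STD_smT12 {w : V → ℝ} (hw : Sm w) : Sm fun z => T12 w z := by
  unfold T12
  exact (((hw.d 2).d 0).mul ((hw.d 3).d 1)).sub (((hw.d 3).d 0).mul ((hw.d 2).d 1))

theorem STD_smSS {w : V → ℝ} (hw : Sm w) (i : Fin 4) : Sm fun z => SS i w z := by
  unfold SS
  exact ((((hw.d i).d i).mul (((hw.d 2).d 2).add ((hw.d 3).d 3))).sub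
    (((hw.d 2).d i).pow 2)).sub (((hw.d 3).d i).pow 2)

theorem STD_smwv (j : ℕ) (ν : ℝ) : Sm fun z => wv j ν z := by
  unfold wv Sm
  exact Real.contDiff_cos.comp
    (((contDiff_const.mul (contDiff_fst.comp contDiff_fst)).add
      (contDiff_fst.comp contDiff_snd)).div_const ν)

theorem STD_c0 {f : ℝ → ℝ} (hf : Continuous f) (h : ℝ) : Continuous fun z => c0 f h z := by
  unfold c0
  exact hf.comp ((continuous_fst.comp continuous_fst).div_const h)

theorem STD_c1 {f : ℝ → ℝ} (hf : Continuous f) (h : ℝ) : Continuous fun z => c1 f h z := by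
  unfold c1
  exact hf.comp ((continuous_snd.comp continuous_fst).div_const h)

theorem p_STD : T_STD := by
  intro N θ σ σ2 q3 ϵ m2 c3 C ζ0 ζ1 hP hN hC hLI j κ s hκ hA hD
  have hθ : Continuous θ := hP.smθ.continuous
  unfold Ev3
  filter_upwards [self_mem_nhdsWithin] with ν hν
  obtain ⟨h0, hh0, hLI'⟩ := hLI (fun z => 4 ^ j * s.β z * ζ0 z * wv j ν z)
    (fun z => 4 ^ j * s.β z) (((hA.smβ.cmul (4 ^ j)).mul hC.sm0).mul (STD_smwv j ν))
    (hA.smβ.cmul (4 ^ j)).cont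
    (fun z z' hz => by
      show 4 ^ j * s.β z = 4 ^ j * s.β z'
      rw [hA.xβ z z' hz])
    (fun z => by
      have h1 : 0 ≤ 4 ^ j * s.β z := mul_nonneg (by positivity) (hA.nβ z)
      have h2 : |wv j ν z| ≤ 1 := Real.abs_cos_le_one _
      have h3 := hC.nn0 z
      have h4 := hC.le0 z
      show |4 ^ j * s.β z * ζ0 z * wv j ν z| ≤ 4 ^ j * s.β z
      rw [abs_mul, abs_mul, abs_of_nonneg h1, abs_of_nonneg h3]
      calc 4 ^ j * s.β z * ζ0 z * |wv j ν z| ≤ 4 ^ j * s.β z * 1 * 1 := by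
            apply mul_le_mul _ h2 (abs_nonneg _) (by linarith)
            exact mul_le_mul_of_nonneg_left h4 h1
        _ = 4 ^ j * s.β z := by ring)
    (fun z hz => by
      show 4 ^ j * s.β z * ζ0 z * wv j ν z = 0
      rw [hC.out0 z hz]
      ring) κ hκ
  have hIoc : ∀ᶠ h in 𝓝[>] (0 : ℝ), h ∈ Ioc 0 h0 := Ioc_mem_nhdsGT hh0
  filter_upwards [hIoc] with h hh
  filter_upwards [hIoc] with h' hh'
  intro w hw
  have hL := hLI' h h' hh.1 hh.2 hh'.1 hh'.2 w hw
  have hD' := hD w hw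
  have hT : Continuous fun z => T12 w z := (STD_smT12 hw.sm).cont
  have hS0 : Continuous fun z => SS 0 w z := (STD_smSS hw.sm 0).cont
  have hS1 : Continuous fun z => SS 1 w z := (STD_smSS hw.sm 1).cont
  have hg0 : Continuous fun z => g0 θ h z := by
    unfold g0
    exact continuous_const.sub (STD_c0 hθ h)
  have hg1 : Continuous fun z => g1 θ h h' z := by
    unfold g1
    exact (continuous_const.mul (STD_c0 hθ h)).mul (continuous_const.sub (STD_c1 hθ h'))
  have i1 : Integrable fun z => s.b z * T12 w z :=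
    int_of (hA.smb.cont.mul hT) (hcs_of (R := 1) fun z hz => by rw [hA.ob z hz, zero_mul])
  have i2 : Integrable fun z => (4 ^ j * s.β z * ζ0 z * wv j ν z) * T12 w z :=
    int_of ((((hA.smβ.cmul (4 ^ j)).mul hC.sm0).mul (STD_smwv j ν)).cont.mul hT)
      (hcs_of (R := 1) fun z hz => by rw [hC.out0 z hz]; ring)
  have i3 : Integrable fun z => ζ1 z * (s.F2 z * SS 0 w z + s.F1 z * SS 1 w z) :=
    int_of (hC.sm1.cont.mul ((hA.smF2.cont.mul hS0).add (hA.smF1.cont.mul hS1)))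
      (hcs_of (R := 3) fun z hz => by rw [hC.out1 z hz, zero_mul])
  have i4 : Integrable fun z => ζ1 z * (4 ^ j * s.β z) *
      (g0 θ h z * SS 0 w z + g1 θ h h' z * SS 1 w z) :=
    int_of ((hC.sm1.cont.mul (hA.smβ.cmul (4 ^ j)).cont).mul ((hg0.mul hS0).add (hg1.mul hS1)))
      (hcs_of (R := 3) fun z hz => by rw [hC.out1 z hz]; ring)
  have e1 : ∫ z, (stp N θ σ σ2 m2 ζ0 j ν h h' s).b z * T12 w z =
      (∫ z, s.b z * T12 w z) + ∫ z, (4 ^ j * s.β z * ζ0 z * wv j ν z) * T12 w z := by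
    rw [← integral_add i1 i2]
    refine integral_congr_ae (Eventually.of_forall fun z => ?_)
    show (s.b z + 4 ^ j * s.β z * ζ0 z * wv j ν z) * T12 w z = _
    ring
  have e2 : ∫ z, ζ1 z * ((stp N θ σ σ2 m2 ζ0 j ν h h' s).F2 z * SS 0 w z +
      (stp N θ σ σ2 m2 ζ0 j ν h h' s).F1 z * SS 1 w z) =
      (∫ z, ζ1 z * (s.F2 z * SS 0 w z + s.F1 z * SS 1 w z)) +
      ∫ z, ζ1 z * (4 ^ j * s.β z) * (g0 θ h z * SS 0 w z + g1 θ h h' z * SS 1 w z) := by
    rw [← integral_add i3 i4]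
    refine integral_congr_ae (Eventually.of_forall fun z => ?_)
    show ζ1 z * ((s.F2 z + 4 ^ j * s.β z * g0 θ h z) * SS 0 w z +
      (s.F1 z + 4 ^ j * s.β z * g1 θ h h' z) * SS 1 w z) = _
    ring
  rw [e1, e2]
  have h5 := abs_add_le (∫ z, s.b z * T12 w z)
    (∫ z, (4 ^ j * s.β z * ζ0 z * wv j ν z) * T12 w z)
  push_cast
  linarith

end Pool.Agent.GNS
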