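import Pool.Agent.GNS.T2

/-!
# GNS: the step for the potential `E`
-/

set_option autoImplicit false

open Metric Set Filter Topology MeasureTheory

noncomputable section

namespace Pool.Agent.GNS

namespace STE_

theorem sm_wv (j : ℕ) (ν : ℝ) : Sm (wv j ν) := by
  have h1 : Sm fun z : V => (2 ^ j * z.1.1 + z.2.1) / ν := by
    refine ContDiff.div_const ?_ ν
    refine ContDiff.add (contDiff_const.mul ?_) ?_
    · exact contDiff_fst.comp contDiff_fst
    · exact contDiff_fst.comp contDiff_snd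
  exact Real.contDiff_cos.comp h1

theorem sm_c0 {f : ℝ → ℝ} (hf : ContDiff ℝ ((⊤ : ℕ∞) : WithTop ℕ∞) f) (h : ℝ) :
    Sm (c0 f h) := by
  have h1 : Sm fun z : V => z.1.1 / h := by
    refine ContDiff.div_const ?_ h
    exact contDiff_fst.comp contDiff_fst
  exact ContDiff.comp hf h1

theorem d_three {f g k : V → ℝ} (hf : Sm f) (hg : Sm g) (hk : Sm k) (i : Fin 4) :
    d i (fun z => f z - g z + k z) = fun z => d i f z - d i g z + d i k z := by
  funext z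
  rw [d_add (hf.sub hg) hk, d_sub hf hg]

theorem dd_three {f g k : V → ℝ} (hf : Sm f) (hg : Sm g) (hk : Sm k) (i l : Fin 4) (z : V) :
    d i (d l (fun z => f z - g z + k z)) z =
      d i (d l f) z - d i (d l g) z + d i (d l k) z := by
  rw [d_three hf hg hk, d_three (hf.d l) (hg.d l) (hk.d l)]

theorem abs3 {a b c x y w : ℝ} (h1 : |a| ≤ x) (h2 : |b| ≤ y) (h3 : |c| ≤ w) :
    |a - b + c| ≤ x + y + w := by
  have e1 := abs_le.1 h1
  have e2 := abs_le.1 h2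
  have e3 := abs_le.1 h3
  rw [abs_le]
  constructor <;> linarith [e1.1, e1.2, e2.1, e2.2, e3.1, e3.2]

end STE_

open STE_ in
theorem p_STE (hSMW : T_SMW) (hSM0 : T_SM0) : T_STE := by
  intro N θ σ σ2 q3 ϵ m2 c3 C ζ0 hP hN j κ s hκ hA hE
  have hB : Sm fun z => 2 ^ j / Real.sqrt N * s.β z ^ 2 :=
    (Sm.const _).mul (hA.smβ.pow 2)
  unfold Ev3
  filter_upwards [hSMW _ j (κ / 4) hB (by positivity)] with ν hν
  have hAp : Sm fun z => s.A z + 8 ^ j / Real.sqrt N * s.β z ^ 2 * wv j ν z :=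
    hA.smA.add (((Sm.const _).mul (hA.smβ.pow 2)).mul (sm_wv j ν))
  filter_upwards [hSM0 _ σ2 C (κ / 4) hAp hP.smσ2 hP.bσ2 (by positivity)] with h hh
  refine Eventually.of_forall fun h' => ?_
  have hG : Sm fun z => 2 ^ j / Real.sqrt N * s.β z ^ 2 * (ν ^ 2 * wv j ν z) :=
    hB.mul ((Sm.const _).mul (sm_wv j ν))
  have hG0 : Sm fun z => (s.A z + 8 ^ j / Real.sqrt N * s.β z ^ 2 * wv j ν z) *
      (h ^ 2 * c0 σ2 h z) := hAp.mul ((Sm.const _).mul (sm_c0 hP.smσ2 h))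
  have hEd : ∀ i, d i (stp N θ σ σ2 m2 ζ0 j ν h h' s).E = fun z => d i s.E z -
      d i (fun z => 2 ^ j / Real.sqrt N * s.β z ^ 2 * (ν ^ 2 * wv j ν z)) z +
      d i (fun z => (s.A z + 8 ^ j / Real.sqrt N * s.β z ^ 2 * wv j ν z) *
        (h ^ 2 * c0 σ2 h z)) z := fun i => d_three hA.smE hG hG0 i
  have hEdd : ∀ (i l : Fin 4) (z : V), d i (d l (stp N θ σ σ2 m2 ζ0 j ν h h' s).E) z =
      d i (d l s.E) z -
      d i (d l (fun z => 2 ^ j / Real.sqrt N * s.β z ^ 2 * (ν ^ 2 * wv j ν z))) z +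
      d i (d l (fun z => (s.A z + 8 ^ j / Real.sqrt N * s.β z ^ 2 * wv j ν z) *
        (h ^ 2 * c0 σ2 h z))) z := fun i l z => dd_three hA.smE hG hG0 i l z
  have hsum : (j : ℝ) * κ + κ / 4 + κ / 4 ≤ ((j + 1 : ℕ) : ℝ) * κ := by
    push_cast
    nlinarith
  have h8 : (8 : ℝ) ^ j = 4 ^ j * 2 ^ j := by
    rw [← mul_pow]
    norm_num
  have h4 : (4 : ℝ) ^ j = 2 ^ j * 2 ^ j := by
    rw [← mul_pow]
    norm_num
  refine ⟨?_, ?_, ?_, ?_, ?_, ?_⟩
  · intro z hz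
    exact (abs3 (hE.e0 z hz) (hν z hz).1 (hh z hz).1).trans hsum
  · intro z hz i
    rw [hEd i]
    exact (abs3 (hE.e1 z hz i) ((hν z hz).2.1 i) ((hh z hz).2.1 i)).trans hsum
  · intro z hz
    rw [hEdd 0 0 z]
    have k1 := abs_le.1 (hE.e00 z hz)
    have k2 := abs_le.1 (hν z hz).2.2.1
    have k3 := abs_le.1 (hh z hz).2.2.1
    have k4 : c0 (deriv (deriv σ2)) h z = c0 θ h z ^ 2 / m2 - 1 := hP.hσ2 _
    rw [k4] at k3
    have k5 : (stp N θ σ σ2 m2 ζ0 j ν h h' s).M1 z + (stp N θ σ σ2 m2 ζ0 j ν h h' s).A z =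
        s.M1 z + s.A z + 4 ^ j * (2 ^ j / Real.sqrt N * s.β z ^ 2) * wv j ν z +
        (s.A z + 8 ^ j / Real.sqrt N * s.β z ^ 2 * wv j ν z) *
          (c0 θ h z ^ 2 / m2 - 1) := by
      simp only [stp]
      rw [h8]
      ring
    rw [k5]
    refine le_trans (abs_le.2 ⟨?_, ?_⟩) hsum
    · linarith [k1.1, k2.2, k3.1]
    · linarith [k1.2, k2.1, k3.2]
  · intro z hz
    rw [hEdd 0 2 z]
    have k1 := abs_le.1 (hE.e02 z hz)
    have k2 := abs_le.1 (hν z hz).2.2.2.1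
    have k3 := abs_le.1 ((hh z hz).2.2.2 0 2 (by decide))
    have k5 : (stp N θ σ σ2 m2 ζ0 j ν h h' s).M2 z =
        s.M2 z + 2 ^ j * (2 ^ j / Real.sqrt N * s.β z ^ 2) * wv j ν z := by
      simp only [stp]
      rw [h4]
      ring
    rw [k5]
    refine le_trans (abs_le.2 ⟨?_, ?_⟩) hsum
    · linarith [k1.1, k2.2, k3.1]
    · linarith [k1.2, k2.1, k3.2]
  · intro z hz
    rw [hEdd 2 2 z]
    have k1 := abs_le.1 (hE.e22 z hz)
    have k2 := abs_le.1 (hν z hz).2.2.2.2.1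
    have k3 := abs_le.1 ((hh z hz).2.2.2 2 2 (by decide))
    have k5 : (stp N θ σ σ2 m2 ζ0 j ν h h' s).M3 z =
        s.M3 z + (2 ^ j / Real.sqrt N * s.β z ^ 2) * wv j ν z := by
      simp only [stp]
    rw [k5]
    refine le_trans (abs_le.2 ⟨?_, ?_⟩) hsum
    · linarith [k1.1, k2.2, k3.1]
    · linarith [k1.2, k2.1, k3.2]
  · intro z hz i k hi
    rw [hEdd i k z]
    have hne : ¬ (i = 0 ∧ k = 0) := by
      rintro ⟨h0, -⟩
      rcases hi with h1 | h1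
      · rw [h0] at h1
        exact absurd h1 (by decide)
      · rw [h0] at h1
        exact absurd h1 (by decide)
    exact (abs3 (hE.eo z hz i k hi) ((hν z hz).2.2.2.2.2 i k hi)
      ((hh z hz).2.2.2 i k hne)).trans hsum

end Pool.Agent.GNS
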