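import Pool.Agent.GNS.T2

set_option autoImplicit false

open Metric Set Filter Topology MeasureTheory

noncomputable section

namespace Pool.Agent.GNS

theorem STP_c0 {f : ℝ → ℝ} (hf : ContDiff ℝ ((⊤ : ℕ∞) : WithTop ℕ∞) f) (h : ℝ) :
    Sm (c0 f h) := by
  unfold Sm c0
  exact hf.comp ((contDiff_fst.comp contDiff_fst).div_const h)

theorem STP_wv (j : ℕ) (ν : ℝ) : Sm (wv j ν) := by
  unfold Sm wv
  refine Real.contDiff_cos.comp ?_
  refine ContDiff.div_const ?_ ν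
  exact (contDiff_const.mul (contDiff_fst.comp contDiff_fst)).add
    (contDiff_fst.comp contDiff_snd)

/-- the mass after one step -/
theorem STP_mass (hEQD : T_EQD) (N : ℕ) (θ σ σ2 q3 : ℝ → ℝ) (ϵ m2 c3 C : ℝ) (ζ0 ζ1 : V → ℝ)
    (hP : Prof N θ σ σ2 q3 ϵ m2 c3 C) (hN : 3 ≤ N) (hC : Cuts ζ0 ζ1) (j : ℕ) (κ : ℝ) (s : Stt)
    (hκ : 0 < κ) (hA : InvA j s)
    (hm : (1 - 1 / (N : ℝ)) ^ (2 * j) * (∫ z, ζ0 z) - j * κ ≤ 16 ^ j * ∫ z, s.β z ^ 3 * ζ0 z) :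
    ∀ᶠ h in 𝓝[>] (0 : ℝ), ∀ᶠ h' in 𝓝[>] (0 : ℝ),
      (1 - 1 / (N : ℝ)) ^ (2 * (j + 1)) * (∫ z, ζ0 z) - ((j : ℝ) + 1) * κ ≤
        16 ^ (j + 1) * ∫ z, (s.β z * c0 θ h z * c1 θ h' z) ^ 3 * ζ0 z := by
  set f : V → ℝ := fun z => s.β z ^ 3 * ζ0 z with hf
  have hζc : HasCompactSupport ζ0 := hcs_of hC.out0
  have hfs : Sm f := (hA.smβ.pow 3).mul hC.sm0
  have hfc : HasCompactSupport f := hζc.mul_left
  have hN1 : (1 : ℝ) / N ≤ 1 / 3 := by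
    have : (3 : ℝ) ≤ N := by exact_mod_cast hN
    exact one_div_le_one_div_of_le (by norm_num) this
  have hN0 : (0 : ℝ) ≤ 1 / N := by positivity
  have hc3 : 0 ≤ c3 := by have := hP.c3lo; linarith
  have hε : 0 < κ / (16 ^ (j + 1) * (c3 + 1)) := by positivity
  set ε := κ / (16 ^ (j + 1) * (c3 + 1)) with hεd
  obtain ⟨h1, -⟩ := hEQD N θ σ σ2 q3 ϵ m2 c3 C hP f ε hfs hfc hε
  filter_upwards [h1] with h hh
  have hgs : Sm (fun z => f z * c0 θ h z ^ 3) := hfs.mul ((STP_c0 hP.smθ h).pow 3)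
  have hgc : HasCompactSupport (fun z => f z * c0 θ h z ^ 3) := hfc.mul_right
  obtain ⟨-, h2⟩ := hEQD N θ σ σ2 q3 ϵ m2 c3 C hP _ ε hgs hgc hε
  filter_upwards [h2] with h' hh'
  have e1 : ∫ z, (s.β z * c0 θ h z * c1 θ h' z) ^ 3 * ζ0 z =
      ∫ z, (f z * c0 θ h z ^ 3) * c1 θ h' z ^ 3 := by
    refine integral_congr_ae (Eventually.of_forall fun z => ?_)
    simp only [hf]
    ring
  rw [e1]
  have hI : 0 ≤ ∫ z, f z := integral_nonneg fun z => mul_nonneg (pow_nonneg (hA.nβ z) 3) (hC.nn0 z)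
  have h3 := (abs_le.1 hh).1
  have h4 := (abs_le.1 hh').1
  set I1 := ∫ z, f z * c0 θ h z ^ 3 with hI1
  set I2 := ∫ z, (f z * c0 θ h z ^ 3) * c1 θ h' z ^ 3 with hI2
  set I0 := ∫ z, f z with hI0
  set Z := ∫ z, ζ0 z with hZ
  have h5 : c3 * (c3 * I0 - ε) - ε ≤ I2 := by
    have : c3 * (c3 * I0 - ε) ≤ c3 * I1 := mul_le_mul_of_nonneg_left (by linarith) hc3
    linarith
  have h6 : 16 ^ (j + 1) * (c3 ^ 2 * I0) - κ ≤ 16 ^ (j + 1) * I2 := by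
    have h7 : (16 : ℝ) ^ (j + 1) * (c3 * (c3 * I0 - ε) - ε) ≤ 16 ^ (j + 1) * I2 :=
      mul_le_mul_of_nonneg_left h5 (by positivity)
    have h8 : (16 : ℝ) ^ (j + 1) * (c3 * (c3 * I0 - ε) - ε) =
        16 ^ (j + 1) * (c3 ^ 2 * I0) - (16 ^ (j + 1) * (c3 + 1)) * ε := by ring
    have h9 : (16 ^ (j + 1) * (c3 + 1)) * ε = κ := by
      rw [hεd]; field_simp
    rw [h8, h9] at h7
    exact h7
  set q : ℝ := 1 - 1 / (N : ℝ) with hq
  have hq0 : 0 ≤ q := by linarith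
  have hq1 : q ≤ 1 := by linarith
  have h10 : q ^ 2 ≤ 16 * c3 ^ 2 := by
    have := hP.c3lo
    nlinarith
  have hJ : 0 ≤ (16 : ℝ) ^ j * I0 := by positivity
  have h11 : q ^ 2 * (16 ^ j * I0) ≤ 16 ^ (j + 1) * (c3 ^ 2 * I0) := by
    have := mul_le_mul_of_nonneg_right h10 hJ
    have e : 16 * c3 ^ 2 * ((16 : ℝ) ^ j * I0) = 16 ^ (j + 1) * (c3 ^ 2 * I0) := by ring
    linarith
  have h12 : q ^ 2 * (q ^ (2 * j) * Z - j * κ) ≤ q ^ 2 * (16 ^ j * I0) :=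
    mul_le_mul_of_nonneg_left hm (by positivity)
  have h13 : q ^ 2 * (q ^ (2 * j) * Z - j * κ) = q ^ (2 * (j + 1)) * Z - q ^ 2 * (j * κ) := by
    ring
  have h14 : q ^ 2 * (j * κ) ≤ j * κ := by
    have : q ^ 2 ≤ 1 := by nlinarith
    have h15 : (0 : ℝ) ≤ j * κ := by positivity
    nlinarith
  linarith

/-- the payoff after one step -/
theorem STP_pay (hOSC : T_OSC) (N : ℕ) (ζ0 ζ1 : V → ℝ) (hC : Cuts ζ0 ζ1) (hN : 3 ≤ N)
    (j : ℕ) (κ : ℝ) (s : Stt) (hj : j < N) (hκ : 0 < κ) (hA : InvA j s)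
    (hI : InvP N j κ ζ0 s) :
    ∀ᶠ ν in 𝓝[>] (0 : ℝ),
      ((j : ℝ) + 1) * ((1 - 1 / (N : ℝ)) ^ (2 * N) * (∫ z, ζ0 z) / 2 - N * κ) / Real.sqrt N -
        ((j : ℝ) + 1) * κ ≤
      ∫ z, (s.b z + 4 ^ j * s.β z * ζ0 z * wv j ν z) *
        (s.M2 z + 4 ^ j / Real.sqrt N * s.β z ^ 2 * wv j ν z) := by
  have hζc : HasCompactSupport ζ0 := hcs_of hC.out0
  have hbc : HasCompactSupport s.b := hcs_of hA.ob
  have hN3 : (3 : ℝ) ≤ N := by exact_mod_cast hN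
  have hr : 0 < Real.sqrt N := Real.sqrt_pos.2 (by linarith)
  set r := Real.sqrt N with hrd
  set g : V → ℝ := fun z => s.b z * (4 ^ j / r * s.β z ^ 2) + ζ0 z * (4 ^ j * s.β z * s.M2 z)
    with hg
  set k : V → ℝ := fun z => ζ0 z * (16 ^ j / r * s.β z ^ 3) with hk
  have hgs : Sm g := (hA.smb.mul ((hA.smβ.pow 2).cmul _)).add
    (hC.sm0.mul ((hA.smβ.cmul _).mul hA.smM2))
  have hks : Sm k := hC.sm0.mul ((hA.smβ.pow 3).cmul _)
  have hgc : HasCompactSupport g := hbc.mul_right.add hζc.mul_right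
  have hkc : HasCompactSupport k := hζc.mul_right
  have e1 := hOSC g j (κ / 2) hgs hgc (by positivity)
  have e2 := hOSC k j (κ / 2) hks hkc (by positivity)
  filter_upwards [e1, e2] with ν h1 h2
  have i0 : Integrable (fun z => s.b z * s.M2 z) :=
    int_of (hA.smb.cont.mul hA.smM2.cont) hbc.mul_right
  have i1 : Integrable (fun z => g z * wv j ν z) :=
    int_of (hgs.cont.mul (STP_wv j ν).cont) hgc.mul_right
  have i2 : Integrable (fun z => k z * wv j ν z ^ 2) :=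
    int_of (hks.cont.mul ((STP_wv j ν).cont.pow 2)) hkc.mul_right
  have e3 : ∫ z, (s.b z + 4 ^ j * s.β z * ζ0 z * wv j ν z) *
        (s.M2 z + 4 ^ j / r * s.β z ^ 2 * wv j ν z) =
      (∫ z, s.b z * s.M2 z) + (∫ z, g z * wv j ν z) + ∫ z, k z * wv j ν z ^ 2 := by
    have i3 : Integrable (fun z => s.b z * s.M2 z + g z * wv j ν z) := i0.add i1
    rw [← integral_add i0 i1, ← integral_add i3 i2]
    refine integral_congr_ae (Eventually.of_forall fun z => ?_)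
    simp only [hg, hk]
    have : (16 : ℝ) ^ j = 4 ^ j * 4 ^ j := by rw [← mul_pow]; norm_num
    rw [this]
    ring
  have e4 : ∫ z, k z = (16 ^ j * ∫ z, s.β z ^ 3 * ζ0 z) / r := by
    rw [← integral_const_mul, ← integral_div]
    refine integral_congr_ae (Eventually.of_forall fun z => ?_)
    simp only [hk]
    ring
  rw [e3]
  have h3 := (abs_le.1 h1.1).1
  have h4 := (abs_le.1 h2.2).1
  have h5 := hI.pay
  have h6 := hI.mass
  rw [e4] at h4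
  set Z := ∫ z, ζ0 z with hZ
  set q : ℝ := 1 - 1 / (N : ℝ) with hq
  set P := 16 ^ j * ∫ z, s.β z ^ 3 * ζ0 z with hP
  have hN1 : (1 : ℝ) / N ≤ 1 / 3 := one_div_le_one_div_of_le (by norm_num) hN3
  have hN0 : (0 : ℝ) ≤ 1 / N := by positivity
  have hq0 : 0 ≤ q := by linarith
  have hq1 : q ≤ 1 := by linarith
  have hZ0 : 0 ≤ Z := integral_nonneg hC.nn0
  have hjN : (j : ℝ) ≤ N := by exact_mod_cast hj.le
  have h7 : q ^ (2 * N) * Z - N * κ ≤ P := by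
    have a1 : q ^ (2 * N) ≤ q ^ (2 * j) := pow_le_pow_of_le_one hq0 hq1 (by omega)
    have a2 : q ^ (2 * N) * Z ≤ q ^ (2 * j) * Z := mul_le_mul_of_nonneg_right a1 hZ0
    have a3 : (j : ℝ) * κ ≤ N * κ := mul_le_mul_of_nonneg_right hjN hκ.le
    linarith
  have h8 : (q ^ (2 * N) * Z / 2 - N * κ) / r ≤ P / r / 2 := by
    have a1 : q ^ (2 * N) * Z / 2 - N * κ ≤ P / 2 := by
      have : (0 : ℝ) ≤ N * κ := by positivity
      linarith
    have a2 := div_le_div_of_nonneg_right a1 hr.le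
    have a3 : P / 2 / r = P / r / 2 := by ring
    linarith
  have h9 : ((j : ℝ) + 1) * (q ^ (2 * N) * Z / 2 - N * κ) / r =
      j * (q ^ (2 * N) * Z / 2 - N * κ) / r + (q ^ (2 * N) * Z / 2 - N * κ) / r := by ring
  rw [h9]
  linarith

theorem p_STP (hOSC : T_OSC) (hEQD : T_EQD) : T_STP := by
  intro N θ σ σ2 q3 ϵ m2 c3 C ζ0 ζ1 hP hN hC j κ s hj hκ hA hI
  have h1 := STP_pay hOSC N ζ0 ζ1 hC hN j κ s hj hκ hA hI
  have h2 := STP_mass hEQD N θ σ σ2 q3 ϵ m2 c3 C ζ0 ζ1 hP hN hC j κ s hκ hA hI.mass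
  unfold Ev3
  filter_upwards [h1] with ν k1
  filter_upwards [h2] with h k2
  filter_upwards [k2] with h' k3
  refine ⟨?_, ?_⟩
  · push_cast
    exact k3
  · push_cast
    exact k1

end Pool.Agent.GNS
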