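import Pool.Agent.GNS.T3

set_option autoImplicit false

open Metric Set Filter Topology MeasureTheory

noncomputable section

namespace Pool.Agent.GNS

open Pool.Agent.GLB

theorem STR_two {m : ℕ} {f : E m → ℝ} (h : SmE f) : ContDiff ℝ 2 f := contDiff_infty.1 h 2

theorem STR_diff {m : ℕ} {f : E m → ℝ} (h : SmE f) : Differentiable ℝ f :=
  ContDiff.differentiable h (by simp)

theorem STR_hs_cont {m : ℕ} {f : E m → ℝ} (h : SmE f) (i j : Fin m) :
    Continuous fun x => Hs f x i j := by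
  have h1 := (gPRD m).2.2.2.2.2.2 f (STR_two h)
  have h2 : Continuous fun x : E m => (x, (eb i : E m), (eb j : E m)) := by fun_prop
  exact h1.comp h2

theorem STR_norm_eb {m : ℕ} (i : Fin m) : ‖(eb i : E m)‖ = 1 := by
  unfold eb
  simp

theorem STR_bounds {m : ℕ} {χ : E m → ℝ} (h : SmE χ) : ∃ B : ℝ, 0 ≤ B ∧
    ∀ x : E m, ‖x‖ ≤ 5 → (∀ v, |fderiv ℝ χ x v| ≤ B * ‖v‖) ∧
      ∀ v w, |D2 χ x v w| ≤ B * ‖v‖ * ‖w‖ := by
  have h1 : ContDiff ℝ ((⊤ : ℕ∞) : WithTop ℕ∞) (fderiv ℝ χ) :=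
    ContDiff.fderiv_right h (by simp)
  have h2 : ContDiff ℝ ((⊤ : ℕ∞) : WithTop ℕ∞) (fderiv ℝ (fderiv ℝ χ)) :=
    ContDiff.fderiv_right h1 (by simp)
  have h2c : Continuous (fderiv ℝ (fderiv ℝ χ)) := h2.continuous
  have h3 : Continuous fun x => ‖fderiv ℝ χ x‖ + ‖fderiv ℝ (fderiv ℝ χ) x‖ := by
    have h3a : Continuous fun x => ‖fderiv ℝ χ x‖ := h1.continuous.norm
    have h3b : Continuous fun x => ‖fderiv ℝ (fderiv ℝ χ) x‖ :=
      (continuous_norm (E := E m →L[ℝ] E m →L[ℝ] ℝ)).comp h2c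
    exact h3a.add h3b
  obtain ⟨B, hB⟩ := (isCompact_closedBall (0 : E m) 5).bddAbove_image h3.continuousOn
  refine ⟨max B 0, le_max_right _ _, fun x hx => ?_⟩
  have h4 : ‖fderiv ℝ χ x‖ + ‖fderiv ℝ (fderiv ℝ χ) x‖ ≤ max B 0 := by
    refine le_trans (hB ⟨x, ?_, rfl⟩) (le_max_left _ _)
    rw [mem_closedBall, dist_zero_right]
    exact hx
  have h5 := norm_nonneg (fderiv ℝ χ x)
  have h6 := norm_nonneg (fderiv ℝ (fderiv ℝ χ) x)
  constructor
  · intro v
    rw [← Real.norm_eq_abs]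
    refine ((fderiv ℝ χ x).le_opNorm v).trans ?_
    exact mul_le_mul_of_nonneg_right (by linarith) (norm_nonneg _)
  · intro v w
    unfold D2
    rw [← Real.norm_eq_abs]
    refine ((fderiv ℝ (fderiv ℝ χ) x).le_opNorm₂ v w).trans ?_
    have h7 : ‖fderiv ℝ (fderiv ℝ χ) x‖ ≤ max B 0 := by linarith
    gcongr

/-- one approximating body -/
theorem STR_step (hTRG : T_TRG) (hTGD : T_TGD) (hTRB : T_TRB) (hRTS : T_RTS) (hLFE : T_LFE)
    (hLFP : T_LFP) (m : ℕ) (Ψ : ConvexBody (E (m + 1)) → (C(S (m + 1), ℂ) →L[ℂ] ℂ))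
    (hm : 1 ≤ m) (hΨ : IsArea (m + 1) 2 Ψ) (R c : ℝ) (f : E m → ℝ) (hR : 0 < R)
    (hf : Lc R c f) (L : ConvexBody (E (m + 1))) (hL : IsLf R f L) (φ : E m → ℂ) (hφ : Tf 4 φ)
    (ε : ℝ) (hε : 0 < ε) :
    ∃ (A : E m → Fin m → Fin m → ℝ) (L' : ConvexBody (E (m + 1))),
      (∀ i j, Continuous fun x => A x i j) ∧
      (∀ x, ‖x‖ ≤ 4 → ∀ i j, |A x i j - Hs (fun y => R * rt y + f y) x i j| ≤ ε) ∧
      dist L' L ≤ ε ∧ Ψ L' (HC φ) = BB Ψ A A φ := by
  obtain ⟨P1, -, P3, P4, -, P6, -⟩ := gPRD m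
  have hrt : SmE (rt : E m → ℝ) := (hRTS m).1
  -- the function
  set w : E m → ℝ := fun y => R * rt y + f y with hw
  have hRrt : SmE (fun y : E m => R * rt y) := contDiff_const.mul hrt
  have hwS : SmE w := hRrt.add hf.sm
  -- cut-off functions
  let b1 : ContDiffBump (0 : E m) := ⟨6, 7, by norm_num, by norm_num⟩
  let b2 : ContDiffBump (0 : E m) := ⟨4, 5, by norm_num, by norm_num⟩
  have hb1 : SmE (b1 : E m → ℝ) := b1.contDiff
  have hb2 : SmE (b2 : E m → ℝ) := b2.contDiff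
  have hb1c : HasCompactSupport (b1 : E m → ℝ) := b1.hasCompactSupport
  obtain ⟨B, hB0, hB⟩ := STR_bounds hb2
  -- the lower bound of the second derivative
  obtain ⟨c', hc', hlow⟩ : ∃ c' : ℝ, 0 < c' ∧ ∀ x : E m, ‖x‖ ≤ 5 → ∀ v,
      c' * ‖v‖ ^ 2 ≤ D2 w x v v := by
    refine ⟨min c (R / 150), lt_min hf.cpos (by positivity), fun x hx v => ?_⟩
    have hv : 0 ≤ ‖v‖ ^ 2 := by positivity
    rcases le_or_gt ‖x‖ 4 with h4 | h4
    · exact (mul_le_mul_of_nonneg_right (min_le_left _ _) hv).trans (hf.cvx x h4 v)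
    · have h5 : w =ᶠ[𝓝 x] fun y => R * rt y := by
        have h6 : IsOpen {y : E m | 4 < ‖y‖} := isOpen_lt continuous_const continuous_norm
        filter_upwards [h6.mem_nhds h4] with y hy
        have hy' : (4 : ℝ) ≤ ‖y‖ := le_of_lt hy
        rw [hw]
        simp only
        rw [hf.out y hy', add_zero]
      rw [P6 w _ x h5, P4 R rt (STR_two hrt)]
      have h7 := (hRTS m).2 x hx v
      have h8 : min c (R / 150) * ‖v‖ ^ 2 ≤ R / 150 * ‖v‖ ^ 2 :=
        mul_le_mul_of_nonneg_right (min_le_right _ _) hv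
      have h9 := mul_le_mul_of_nonneg_left h7 hR.le
      linarith
  -- the accuracy
  obtain ⟨δ, hδ, hδε, hδc⟩ : ∃ δ : ℝ, 0 < δ ∧ δ ≤ ε ∧ δ * (3 * B + 1) ≤ c' := by
    refine ⟨min ε (c' / (3 * B + 1)), lt_min hε (by positivity), min_le_left _ _, ?_⟩
    have h1 : min ε (c' / (3 * B + 1)) ≤ c' / (3 * B + 1) := min_le_right _ _
    rwa [le_div_iff₀ (by positivity)] at h1
  -- the trigonometric sum
  have hFS : SmE (fun x => b1 x * w x) := hb1.mul hwS
  obtain ⟨q, κ, a, b, happ⟩ := hTRG m (fun x => b1 x * w x) hFS hb1c.mul_right δ hδ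
  set t : E m → ℝ := tg κ a b with ht
  have htS : SmE t := (hTGD m q κ a b).1
  have hFw : ∀ x : E m, ‖x‖ ≤ 5 → (fun x => b1 x * w x) =ᶠ[𝓝 x] w := by
    intro x hx
    have h6 : IsOpen {y : E m | ‖y‖ < 6} := isOpen_lt continuous_norm continuous_const
    have hx6 : x ∈ {y : E m | ‖y‖ < 6} := lt_of_le_of_lt hx (by norm_num)
    filter_upwards [h6.mem_nhds hx6] with y hy
    have h7 : b1 y = 1 := b1.one_of_mem_closedBall (by
      rw [mem_closedBall, dist_zero_right]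
      exact le_of_lt hy)
    rw [h7, one_mul]
  have u0 : ∀ x : E m, ‖x‖ ≤ 5 → |t x - w x| ≤ δ := by
    intro x hx
    have h1 := (happ x hx).1
    have h2 := (hFw x hx).eq_of_nhds
    rw [h2, abs_sub_comm] at h1
    exact h1
  have u1 : ∀ x : E m, ‖x‖ ≤ 5 → ∀ v, |fderiv ℝ t x v - fderiv ℝ w x v| ≤ δ * ‖v‖ := by
    intro x hx v
    have h1 := (happ x hx).2.1 v
    rw [(hFw x hx).fderiv_eq, abs_sub_comm] at h1
    exact h1
  have u2 : ∀ x : E m, ‖x‖ ≤ 5 → ∀ v z, |D2 t x v z - D2 w x v z| ≤ δ * ‖v‖ * ‖z‖ := by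
    intro x hx v z
    have h1 := (happ x hx).2.2 v z
    rw [P6 _ _ x (hFw x hx), abs_sub_comm] at h1
    exact h1
  -- the perturbation
  set u : E m → ℝ := fun x => t x + (-1) * w x with hu
  have hmw : SmE (fun x => (-1) * w x) := contDiff_const.mul hwS
  have huS : SmE u := htS.add hmw
  have uu0 : ∀ x : E m, ‖x‖ ≤ 5 → |u x| ≤ δ := by
    intro x hx
    have h1 := u0 x hx
    have h2 : u x = t x - w x := by rw [hu]; ring
    rw [h2]
    exact h1
  have uu1 : ∀ x : E m, ‖x‖ ≤ 5 → ∀ v, |fderiv ℝ u x v| ≤ δ * ‖v‖ := by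
    intro x hx v
    have h1 := u1 x hx v
    have h2 : fderiv ℝ u x v = fderiv ℝ t x v - fderiv ℝ w x v := by
      have h3 : fderiv ℝ u x = fderiv ℝ t x - fderiv ℝ w x := by
        have h4 : u = fun x => t x - w x := by
          funext x
          rw [hu]
          ring
        rw [h4]
        exact fderiv_fun_sub ((STR_diff htS) x) ((STR_diff hwS) x)
      rw [h3]
      rfl
    rw [h2]
    exact h1
  have uu2 : ∀ x : E m, ‖x‖ ≤ 5 → ∀ v z, |D2 u x v z| ≤ δ * ‖v‖ * ‖z‖ := by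
    intro x hx v z
    have h1 := u2 x hx v z
    have h2 : D2 u x v z = D2 t x v z - D2 w x v z := by
      rw [hu, P3 t (fun x => (-1) * w x) (STR_two htS) (STR_two hmw), P4 (-1) w (STR_two hwS)]
      ring
    rw [h2]
    exact h1
  set g : E m → ℝ := fun x => b2 x * u x with hg
  have hgS : SmE g := hb2.mul huS
  have hgout : ∀ x, 5 ≤ ‖x‖ → g x = 0 := by
    intro x hx
    have h1 : b2 x = 0 := b2.zero_of_le_dist (by rw [dist_zero_right]; exact hx)
    rw [hg]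
    simp only
    rw [h1, zero_mul]
  have hg2 : ∀ x : E m, ‖x‖ ≤ 5 → ∀ v, |D2 g x v v| ≤ c' * ‖v‖ ^ 2 := by
    intro x hx v
    rw [hg, P1 b2 u (STR_two hb2) (STR_two huS)]
    have h1 := (hB x hx).1 v
    have h2 := (hB x hx).2 v v
    have h3 := uu0 x hx
    have h4 := uu1 x hx v
    have h5 := uu2 x hx v v
    have h6 : 0 ≤ b2 x := b2.nonneg
    have h7 : b2 x ≤ 1 := b2.le_one
    have hv := norm_nonneg v
    have k1 : |b2 x * D2 u x v v| ≤ δ * ‖v‖ * ‖v‖ := by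
      rw [abs_mul, abs_of_nonneg h6]
      calc b2 x * |D2 u x v v| ≤ 1 * (δ * ‖v‖ * ‖v‖) :=
            mul_le_mul h7 h5 (abs_nonneg _) zero_le_one
        _ = δ * ‖v‖ * ‖v‖ := one_mul _
    have k2 : |fderiv ℝ b2 x v * fderiv ℝ u x v| ≤ (B * ‖v‖) * (δ * ‖v‖) := by
      rw [abs_mul]
      exact mul_le_mul h1 h4 (abs_nonneg _) (by positivity)
    have k3 : |u x * D2 b2 x v v| ≤ δ * (B * ‖v‖ * ‖v‖) := by
      rw [abs_mul]
      exact mul_le_mul h3 h2 (abs_nonneg _) hδ.le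
    have k4 : |b2 x * D2 u x v v + fderiv ℝ b2 x v * fderiv ℝ u x v +
        fderiv ℝ b2 x v * fderiv ℝ u x v + u x * D2 b2 x v v| ≤
        δ * ‖v‖ * ‖v‖ + (B * ‖v‖) * (δ * ‖v‖) + (B * ‖v‖) * (δ * ‖v‖) +
          δ * (B * ‖v‖ * ‖v‖) := by
      refine (abs_add_le _ _).trans (add_le_add ?_ k3)
      refine (abs_add_le _ _).trans (add_le_add ?_ k2)
      exact (abs_add_le _ _).trans (add_le_add k1 k2)
    refine k4.trans ?_
    have k5 := mul_le_mul_of_nonneg_right hδc (sq_nonneg ‖v‖)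
    nlinarith [k5]
  -- the body
  have hfg : SmE (fun x => f x + g x) := hf.sm.add hgS
  obtain ⟨L', hL'⟩ := hLFE m R (fun x => f x + g x) hm hR hfg (by
    intro x hx
    rw [hf.out x (by linarith), hgout x hx, add_zero]) (by
    intro x hx v
    have h1 : (fun y : E m => R * rt y + (f y + g y)) = fun y => w y + g y := by
      funext y
      rw [hw]
      ring
    rw [h1, P3 w g (STR_two hwS) (STR_two hgS)]
    have h2 := hlow x hx v
    have h3 := (abs_le.1 (hg2 x hx v)).1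
    linarith)
  refine ⟨Hs t, L', fun i j => STR_hs_cont htS i j, ?_, ?_, ?_⟩
  · intro x hx i j
    have h1 := u2 x (by linarith) (eb i) (eb j)
    rw [STR_norm_eb, STR_norm_eb, mul_one, mul_one] at h1
    exact h1.trans hδε
  · have h1 := (hLFP m R δ (fun x => f x + g x) f L' L hR.le hδ.le hL' hL).2.2
    refine le_trans (h1 ?_) hδε
    intro x
    have h2 : f x + g x - f x = g x := by ring
    rw [h2]
    rcases le_or_gt ‖x‖ 5 with h5 | h5
    · rw [hg]
      simp only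
      rw [abs_mul, abs_of_nonneg b2.nonneg]
      calc b2 x * |u x| ≤ 1 * δ := mul_le_mul b2.le_one (uu0 x h5) (abs_nonneg _) zero_le_one
        _ = δ := one_mul _
    · rw [hgout x h5.le, abs_zero]
      exact hδ.le
  · refine hTRB m Ψ hΨ q κ a b L' ?_ φ hφ
    intro x hx
    have h1 := (hLFP m R δ (fun x => f x + g x) f L' L hR.le hδ.le hL' hL).1 x
    rw [h1]
    have h2 : b2 x = 1 := b2.one_of_mem_closedBall (by
      rw [mem_closedBall, dist_zero_right]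
      exact le_of_lt hx)
    have h3 : g x = t x - w x := by
      rw [hg]
      simp only
      rw [h2, hu]
      ring
    rw [h3, hw]
    simp only
    rw [← ht]
    ring

theorem p_STR (hTRG : T_TRG) (hTGD : T_TGD) (hTRB : T_TRB) (hRTS : T_RTS) (hLFE : T_LFE)
    (hLFP : T_LFP) (hBBC : T_BBC) : T_STR := by
  intro m Ψ hm hΨ R c f hR hf L hL φ hφ
  have hrt : SmE (rt : E m → ℝ) := (hRTS m).1
  have hRrt : SmE (fun y : E m => R * rt y) := contDiff_const.mul hrt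
  have hwS : SmE (fun y => R * rt y + f y) := hRrt.add hf.sm
  have h0 : ∀ n : ℕ, (0 : ℝ) < 1 / ((n : ℝ) + 1) := fun n => by positivity
  choose A L' hA1 hA2 hA3 hA4 using fun n : ℕ => STR_step hTRG hTGD hTRB hRTS hLFE hLFP m Ψ hm
    hΨ R c f hR hf L hL φ hφ (1 / ((n : ℝ) + 1)) (h0 n)
  have hlim : Tendsto (fun n : ℕ => 1 / ((n : ℝ) + 1)) atTop (𝓝 0) :=
    tendsto_one_div_add_atTop_nhds_zero_nat
  have hLL : Tendsto L' atTop (𝓝 L) := by
    rw [tendsto_iff_dist_tendsto_zero]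
    exact squeeze_zero (fun n => dist_nonneg) hA3 hlim
  have h1 : Tendsto (fun n => Ψ (L' n) (HC φ)) atTop (𝓝 (Ψ L (HC φ))) :=
    ((hΨ.cont (HC φ)).tendsto L).comp hLL
  have h2 := hBBC m Ψ hΨ φ hφ A (Hs fun y => R * rt y + f y) hA1
    (fun i j => STR_hs_cont hwS i j) (by
      intro ε hε
      filter_upwards [hlim.eventually (gt_mem_nhds hε)] with n hn
      intro x hx i j
      exact (hA2 n x hx i j).trans hn.le)
  have h3 : (fun n => BB Ψ (A n) (A n) φ) = fun n => Ψ (L' n) (HC φ) := by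
    funext n
    exact (hA4 n).symm
  rw [h3] at h2
  exact tendsto_nhds_unique h1 h2

end Pool.Agent.GNS
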