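import Pool.Agent.GNS.T4

/-!
# GNS: support functions of unions and intersections
-/

set_option autoImplicit false

open Metric Set Filter Topology MeasureTheory

noncomputable section

namespace Pool.Agent.GNS

open Pool.Agent.GLB

/-- support functions of unions and intersections -/
theorem p_SUV : T_SUV := by
  intro n K L M N hM hN u
  obtain ⟨hA, hB, -⟩ := gSUA n
  have memM : ∀ x : E n, x ∈ M ↔ x ∈ K ∨ x ∈ L := by
    intro x
    rw [← SetLike.mem_coe, hM, Set.mem_union, SetLike.mem_coe, SetLike.mem_coe]
  have memN : ∀ x : E n, x ∈ N ↔ x ∈ K ∧ x ∈ L := by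
    intro x
    rw [← SetLike.mem_coe, hN, Set.mem_inter_iff, SetLike.mem_coe, SetLike.mem_coe]
  obtain ⟨x, hx, hxu⟩ := hB K u
  obtain ⟨y, hy, hyu⟩ := hB L u
  obtain ⟨m, hm, hmu⟩ := hB M u
  obtain ⟨p, hp, hpu⟩ := hB N u
  constructor
  · apply le_antisymm
    · rw [← hmu]
      rcases (memM m).1 hm with h | h
      · exact (hA K m u h).trans (le_max_left _ _)
      · exact (hA L m u h).trans (le_max_right _ _)
    · apply max_le
      · rw [← hxu]
        exact hA M x u ((memM x).2 (Or.inl hx))
      · rw [← hyu]
        exact hA M y u ((memM y).2 (Or.inr hy))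
  · apply le_antisymm
    · rw [← hpu]
      exact le_min (hA K p u ((memN p).1 hp).1) (hA L p u ((memN p).1 hp).2)
    · have hseg : segment ℝ x y ⊆ (M : Set (E n)) :=
        M.convex.segment_subset ((memM x).2 (Or.inl hx)) ((memM y).2 (Or.inr hy))
      have hc := isPreconnected_closed_iff.1 (convex_segment (𝕜 := ℝ) x y).isPreconnected
        (K : Set (E n)) (L : Set (E n)) K.isCompact.isClosed L.isCompact.isClosed
        (by rw [← hM]; exact hseg) ⟨x, left_mem_segment ℝ x y, hx⟩
        ⟨y, right_mem_segment ℝ x y, hy⟩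
      obtain ⟨q, ⟨a, b, ha, hb, hab, rfl⟩, hqK, hqL⟩ := hc
      have h1 := hA N _ u ((memN (a • x + b • y)).2 ⟨hqK, hqL⟩)
      rw [inner_add_left, real_inner_smul_left, real_inner_smul_left, hxu, hyu] at h1
      have h2 : min (supp K u) (supp L u) =
          a * min (supp K u) (supp L u) + b * min (supp K u) (supp L u) := by
        rw [← add_mul, hab, one_mul]
      have h3 := mul_le_mul_of_nonneg_left (min_le_left (supp K u) (supp L u)) ha
      have h4 := mul_le_mul_of_nonneg_left (min_le_right (supp K u) (supp L u)) hb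
      linarith

end Pool.Agent.GNS
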