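import Pool.Agent.GNS.T3

set_option autoImplicit false

open Metric Set Filter Topology MeasureTheory

noncomputable section

namespace Pool.Agent.GNS

open Pool.Agent.GLB

namespace TGD_

variable {m q : ℕ}

/-- one wave and its derivative -/
theorem one (κ : E m) (a b : ℝ) (x : E m) :
    HasFDerivAt (fun x : E m => a * Real.cos (inner ℝ κ x) + b * Real.sin (inner ℝ κ x))
      ((-a * Real.sin (inner ℝ κ x) + b * Real.cos (inner ℝ κ x)) • innerSL ℝ κ) x := by
  have h : HasFDerivAt (fun x : E m => inner ℝ κ x) (innerSL ℝ κ) x :=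
    (innerSL ℝ κ).hasFDerivAt
  have h1 := (h.cos.const_mul a).add (h.sin.const_mul b)
  have e : (-a * Real.sin (inner ℝ κ x) + b * Real.cos (inner ℝ κ x)) • innerSL ℝ κ =
      a • (-Real.sin (inner ℝ κ x) • innerSL ℝ κ) + b • (Real.cos (inner ℝ κ x) • innerSL ℝ κ) := by
    rw [smul_smul, smul_smul, ← add_smul]
    congr 1
    ring
  rw [e]
  exact h1

theorem sum (κ : Fin q → E m) (a b : Fin q → ℝ) (x : E m) :
    HasFDerivAt (tg κ a b) (∑ i, (-a i * Real.sin (inner ℝ (κ i) x) +
      b i * Real.cos (inner ℝ (κ i) x)) • innerSL ℝ (κ i)) x := by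
  have h := HasFDerivAt.fun_sum (u := Finset.univ) fun i _ => one (κ i) (a i) (b i) x
  exact h

theorem fd (κ : Fin q → E m) (a b : Fin q → ℝ) :
    fderiv ℝ (tg κ a b) = fun x => ∑ i, (-a i * Real.sin (inner ℝ (κ i) x) +
      b i * Real.cos (inner ℝ (κ i) x)) • innerSL ℝ (κ i) :=
  funext fun x => (sum κ a b x).fderiv

theorem sm (κ : Fin q → E m) (a b : Fin q → ℝ) : SmE (tg κ a b) := by
  unfold SmE tg
  refine ContDiff.sum fun i _ => ?_
  have h : ContDiff ℝ ((⊤ : ℕ∞) : WithTop ℕ∞) (fun x : E m => inner ℝ (κ i) x) :=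
    (innerSL ℝ (κ i)).contDiff
  exact (contDiff_const.mul h.cos).add (contDiff_const.mul h.sin)

end TGD_

theorem p_TGD : T_TGD := by
  intro m q κ a b
  refine ⟨TGD_.sm κ a b, ?_, ?_⟩
  · intro x v
    rw [TGD_.fd]
    simp
  · intro x v w
    unfold D2
    rw [TGD_.fd]
    have h1 : ∀ i, HasFDerivAt (fun x : E m => (-a i * Real.sin (inner ℝ (κ i) x) +
        b i * Real.cos (inner ℝ (κ i) x)) • innerSL ℝ (κ i))
        (((-a i * Real.cos (inner ℝ (κ i) x) - b i * Real.sin (inner ℝ (κ i) x)) •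
          innerSL ℝ (κ i)).smulRight (innerSL ℝ (κ i))) x := by
      intro i
      have h2 := TGD_.one (κ i) (b i) (-a i) x
      have h3 : HasFDerivAt (fun x : E m => -a i * Real.sin (inner ℝ (κ i) x) +
          b i * Real.cos (inner ℝ (κ i) x)) ((-a i * Real.cos (inner ℝ (κ i) x) -
          b i * Real.sin (inner ℝ (κ i) x)) • innerSL ℝ (κ i)) x := by
        have e : (-a i * Real.cos (inner ℝ (κ i) x) - b i * Real.sin (inner ℝ (κ i) x)) =
            (-b i * Real.sin (inner ℝ (κ i) x) + -a i * Real.cos (inner ℝ (κ i) x)) := by ring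
        rw [e]
        refine h2.congr_of_eventuallyEq (Eventually.of_forall fun y => ?_)
        ring
      exact h3.smul_const (innerSL ℝ (κ i))
    have h4 := HasFDerivAt.fun_sum (u := Finset.univ) fun i _ => h1 i
    rw [h4.fderiv]
    simp only [sum_apply, ContinuousLinearMap.smulRight_apply,
      smul_apply, innerSL_apply_apply, smul_eq_mul]
    refine Finset.sum_congr rfl fun i _ => ?_
    ring

end Pool.Agent.GNS
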