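import Pool.Agent.GNS.T3

set_option autoImplicit false

/-!
# GNS: TRB, bodies whose chart function is a trigonometric sum
-/

open Metric Set Filter Topology MeasureTheory

noncomputable section

namespace Pool.Agent.GNS

open Pool.Agent.GLB

namespace TRB_

variable {m : ℕ}

theorem tf_mul {R : ℝ} {φ : E m → ℂ} (hφ : Tf R φ) {g : E m → ℝ} (hg : Continuous g) :
    Tf R (fun x => φ x * (g x : ℂ)) where
  cont := hφ.cont.mul (Complex.continuous_ofReal.comp hg)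
  out := fun x hx => by simp [hφ.out x hx]

theorem tf_mono {R R' : ℝ} {φ : E m → ℂ} (hφ : Tf R φ) (h : R ≤ R') : Tf R' φ where
  cont := hφ.cont
  out := fun x hx => hφ.out x (h.trans hx)

theorem tf_sum {ι : Type} {R : ℝ} (s : Finset ι) (c : ι → ℂ) (ψ : ι → E m → ℂ)
    (h : ∀ p, Tf R (ψ p)) : Tf R (fun x => ∑ p ∈ s, c p * ψ p x) where
  cont := continuous_finsetSum s fun p _ => continuous_const.mul (h p).cont
  out := fun x hx => Finset.sum_eq_zero fun p _ => by rw [(h p).out x hx, mul_zero]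

theorem tf_const {R : ℝ} {ψ : E m → ℂ} (h : Tf R ψ) (c : ℂ) : Tf R (fun x => c * ψ x) where
  cont := continuous_const.mul h.cont
  out := fun x hx => by rw [h.out x hx, mul_zero]

theorem tf_zero {R : ℝ} : Tf R (fun _ : E m => (0 : ℂ)) where
  cont := continuous_const
  out := fun _ _ => rfl

theorem HCsum (hHAT : T_HAT) {ι : Type} {R : ℝ} (s : Finset ι) (c : ι → ℂ) (ψ : ι → E m → ℂ)
    (h : ∀ p, Tf R (ψ p)) : HC (fun x => ∑ p ∈ s, c p * ψ p x) = ∑ p ∈ s, c p • HC (ψ p) := by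
  classical
  induction s using Finset.induction_on with
  | empty =>
    simp only [Finset.sum_empty]
    have h1 := (hHAT m R _ _ (tf_zero (R := R)) (tf_zero (R := R))).2.2.2.1 0
    simp only [zero_mul] at h1
    rw [h1]
    ext v
    simp
  | insert p s hp ih =>
    simp only [Finset.sum_insert hp]
    rw [(hHAT m R _ _ (tf_const (h p) (c p)) (tf_sum s c ψ h)).2.2.1, ih,
      (hHAT m R _ _ (h p) (h p)).2.2.2.1 (c p)]

theorem FFsum (hHAT : T_HAT) {ι : Type} {R : ℝ} (s : Finset ι) (c : ι → ℂ) (ψ : ι → E m → ℂ)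
    (h : ∀ p, Tf R (ψ p)) (Ψ : ConvexBody (E (m + 1)) → (C(S (m + 1), ℂ) →L[ℂ] ℂ))
    (K L : ConvexBody (E (m + 1))) :
    FF Ψ (HC (fun x => ∑ p ∈ s, c p * ψ p x)) K L = ∑ p ∈ s, c p * FF Ψ (HC (ψ p)) K L := by
  rw [HCsum hHAT s c ψ h]
  unfold FF
  simp only [map_sum, map_smul, smul_eq_mul, mul_sub, Finset.sum_sub_distrib]

theorem B4sum (hHAT : T_HAT) {ι : Type} {R : ℝ} (s : Finset ι) (c : ι → ℂ) (ψ : ι → E m → ℂ)
    (h : ∀ p, Tf R (ψ p)) (Ψ : ConvexBody (E (m + 1)) → (C(S (m + 1), ℂ) →L[ℂ] ℂ))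
    (i j k l : Fin m) :
    B4 Ψ i j k l (fun x => ∑ p ∈ s, c p * ψ p x) = ∑ p ∈ s, c p * B4 Ψ i j k l (ψ p) := by
  unfold B4
  simp only [FFsum hHAT s c ψ h]
  simp only [mul_sub, mul_add, Finset.mul_sum, ← Finset.sum_sub_distrib, ← Finset.sum_add_distrib]
  refine Finset.sum_congr rfl fun p _ => ?_
  ring

/-- the function of one variable -/
def Fn (a b s : ℝ) : ℝ := a * Real.cos s + b * Real.sin s

/-- the majorant -/
def Gn (a b s : ℝ) : ℝ := Fn a b s + (|a| + |b|) * (s ^ 2 / 2)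

theorem deriv_Fn (a b : ℝ) : deriv (Fn a b) = fun s => -a * Real.sin s + b * Real.cos s := by
  funext s
  have h1 : HasDerivAt (Fn a b) (a * (-Real.sin s) + b * Real.cos s) s :=
    ((Real.hasDerivAt_cos s).const_mul a).add ((Real.hasDerivAt_sin s).const_mul b)
  rw [h1.deriv]
  ring

theorem hasDeriv_sq (s : ℝ) : HasDerivAt (fun s : ℝ => s ^ 2 / 2) s s := by
  have h1 := (hasDerivAt_pow 2 s).div_const 2
  have e : ((2 : ℕ) : ℝ) * s ^ (2 - 1) / 2 = s := by norm_num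
  rwa [e] at h1

theorem hasDeriv_Gn (a b s : ℝ) : HasDerivAt (Gn a b)
    (-a * Real.sin s + b * Real.cos s + (|a| + |b|) * s) s := by
  have h1 : HasDerivAt (Fn a b) (a * (-Real.sin s) + b * Real.cos s) s :=
    ((Real.hasDerivAt_cos s).const_mul a).add ((Real.hasDerivAt_sin s).const_mul b)
  have h2 : HasDerivAt (fun s : ℝ => s ^ 2 / 2) s s := hasDeriv_sq s
  have h3 : HasDerivAt (Gn a b) (a * (-Real.sin s) + b * Real.cos s + (|a| + |b|) * s) s :=
    h1.add (h2.const_mul (|a| + |b|))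
  have e : a * (-Real.sin s) + b * Real.cos s + (|a| + |b|) * s =
      -a * Real.sin s + b * Real.cos s + (|a| + |b|) * s := by ring
  rwa [e] at h3

theorem deriv2_Gn (a b : ℝ) : deriv (deriv (Gn a b)) = fun s => (|a| + |b|) - Fn a b s := by
  have h0 : deriv (Gn a b) = fun s => -a * Real.sin s + b * Real.cos s + (|a| + |b|) * s := by
    funext s
    exact (hasDeriv_Gn a b s).deriv
  rw [h0]
  funext s
  have h1 := (((Real.hasDerivAt_sin s).const_mul (-a)).add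
    ((Real.hasDerivAt_cos s).const_mul b)).add ((hasDerivAt_id s).const_mul (|a| + |b|))
  have h2 : HasDerivAt (fun s => -a * Real.sin s + b * Real.cos s + (|a| + |b|) * s)
      (-a * Real.cos s + b * -Real.sin s + (|a| + |b|) * 1) s := h1
  rw [h2.deriv]
  unfold Fn
  ring

theorem contDiff_Gn (a b : ℝ) : ContDiff ℝ 2 (Gn a b) := by
  unfold Gn Fn
  exact ((contDiff_const.mul Real.contDiff_cos).add (contDiff_const.mul Real.contDiff_sin)).add
    (contDiff_const.mul ((contDiff_id.pow 2).div_const 2))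

theorem Fn_le (a b s : ℝ) : Fn a b s ≤ |a| + |b| := by
  unfold Fn
  have h1 : a * Real.cos s ≤ |a| := by
    calc a * Real.cos s ≤ |a * Real.cos s| := le_abs_self _
      _ = |a| * |Real.cos s| := abs_mul _ _
      _ ≤ |a| * 1 := mul_le_mul_of_nonneg_left (Real.abs_cos_le_one s) (abs_nonneg _)
      _ = |a| := mul_one _
  have h2 : b * Real.sin s ≤ |b| := by
    calc b * Real.sin s ≤ |b * Real.sin s| := le_abs_self _
      _ = |b| * |Real.sin s| := abs_mul _ _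
      _ ≤ |b| * 1 := mul_le_mul_of_nonneg_left (Real.abs_sin_le_one s) (abs_nonneg _)
      _ = |b| := mul_one _
  linarith

theorem continuous_Fn (a b : ℝ) : Continuous (Fn a b) := by
  unfold Fn
  fun_prop

theorem deriv2_sq : deriv (deriv fun s : ℝ => s ^ 2 / 2) = fun _ => 1 := by
  have h0 : deriv (fun s : ℝ => s ^ 2 / 2) = fun s => s := by
    funext s
    exact (hasDeriv_sq s).deriv
  rw [h0]
  funext s
  exact (hasDerivAt_id s).deriv

end TRB_

open TRB_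

theorem p_TRB (hTGD : T_TGD) (hSGQ : T_SGQ) (hCHZ : T_CHZ) (hRLC : T_RLC) (hRK1 : T_RK1)
    (hRDG : T_RDG) (hZND : T_ZND) (hHAT : T_HAT) : T_TRB := by
  intro m Ψ hΨ q κ a b K hK φ hφ
  -- abbreviations
  set A : Fin q → ℝ := fun k => |a k| + |b k| with hA
  set f : Fin q → ℝ → ℝ := fun k s => A k - Fn (a k) (b k) s with hf
  have hf0 : ∀ k s, 0 ≤ f k s := fun k s => sub_nonneg.2 (Fn_le _ _ _)
  have hfc : ∀ k, Continuous (f k) := fun k => continuous_const.sub (continuous_Fn _ _)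
  have hρ : ∀ k, 0 ≤ 5 * ‖κ k‖ := fun k => by positivity
  set Z : Fin q → ConvexBody (E (m + 1)) := fun k => Zr (κ k) (5 * ‖κ k‖) (f k) with hZ
  set Y : Fin q → ConvexBody (E (m + 1)) := fun k => Zr (κ k) (5 * ‖κ k‖) (fun _ => 1) with hY
  have hZn : ∀ k, Zn (Z k) := fun k => (hRDG m (κ k) _ (f k) (hρ k) (hfc k) (hf0 k)).2
  have hYn : ∀ k, Zn (Y k) := fun k => (hRDG m (κ k) _ (fun _ => 1) (hρ k) continuous_const
    (fun _ => zero_le_one)).2
  have hcz : ∀ k, ∃ c : E (m + 1), ∀ x : E m, |inner ℝ (κ k) x| ≤ 5 * ‖κ k‖ →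
      ch (Z k) x = Gn (a k) (b k) (inner ℝ (κ k) x) + inner ℝ c (up x) := by
    intro k
    have h1 := hCHZ m (κ k) (5 * ‖κ k‖) (Gn (a k) (b k)) (hρ k) (contDiff_Gn _ _)
      (by rw [deriv2_Gn]; exact hf0 k)
    rw [deriv2_Gn] at h1
    exact h1
  have hcy : ∀ k, ∃ c : E (m + 1), ∀ x : E m, |inner ℝ (κ k) x| ≤ 5 * ‖κ k‖ →
      ch (Y k) x = (inner ℝ (κ k) x) ^ 2 / 2 + inner ℝ c (up x) := by
    intro k
    have h1 := hCHZ m (κ k) (5 * ‖κ k‖) (fun s => s ^ 2 / 2) (hρ k)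
      ((contDiff_id.pow 2).div_const 2) (by rw [deriv2_sq]; exact fun _ => zero_le_one)
    rw [deriv2_sq] at h1
    exact h1
  choose α hα using hcz
  choose β hβ using hcy
  have hsm : ∀ (x : E m), x ∈ ball (0 : E m) 4 → ∀ k, |inner ℝ (κ k) x| ≤ 5 * ‖κ k‖ := by
    intro x hx k
    rw [mem_ball_zero_iff] at hx
    calc |inner ℝ (κ k) x| ≤ ‖κ k‖ * ‖x‖ := abs_real_inner_le_norm _ _
      _ ≤ ‖κ k‖ * 5 := mul_le_mul_of_nonneg_left (by linarith) (norm_nonneg _)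
      _ = 5 * ‖κ k‖ := mul_comm _ _
  have hout : ∀ x, x ∉ ball (0 : E m) 4 → φ x = 0 := by
    intro x hx
    rw [mem_ball_zero_iff, not_lt] at hx
    exact hφ.out x hx
  have hkey := hSGQ m Ψ hΨ 4 φ hφ (Fin q ⊕ Fin q) (Sum.elim Z Y) (Sum.elim (fun _ => 1)
    fun k => -A k) K (-∑ k, (α k - A k • β k)) (ball 0 4) isOpen_ball hout
    (by
      rintro (k | k)
      · exact hZn k
      · exact hYn k)
    (by
      intro x hx
      rw [hK x (by simpa using hx), Fintype.sum_sum_type]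
      simp only [Sum.elim_inl, Sum.elim_inr, one_mul]
      rw [inner_neg_left, sum_inner, ← Finset.sum_add_distrib, ← sub_eq_add_neg,
        ← Finset.sum_sub_distrib]
      unfold tg
      refine Finset.sum_congr rfl fun k _ => ?_
      rw [hα k x (hsm x hx k), hβ k x (hsm x hx k), inner_sub_left, real_inner_smul_left]
      unfold Gn Fn
      simp only [hA]
      ring)
  -- the forms
  have hsym : ∀ (R : ℝ) (ψ : E m → ℂ), Tf R ψ → ∀ P Q : ConvexBody (E (m + 1)), Zn P → Zn Q →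
      FF Ψ (HC ψ) P Q = FF Ψ (HC ψ) Q P := fun R ψ hψ P Q hP hQ =>
    (hZND m Ψ hΨ R ψ hψ P Q hP hQ).2.2.2.1
  set fx : Fin q → E m → ℝ := fun k x => f k (inner ℝ (κ k) x) with hfx
  have hfxc : ∀ k, Continuous (fx k) := fun k => (hfc k).comp (by fun_prop)
  have hZY : ∀ (ψ : E m → ℂ), Tf 4 ψ → ∀ (k : Fin q) (P : ConvexBody (E (m + 1))), Zn P →
      FF Ψ (HC ψ) (Z k) P = FF Ψ (HC fun x => ψ x * (fx k x : ℂ)) (Y k) P :=
    fun ψ hψ k P hP => hRLC m Ψ hΨ 4 ψ hψ (κ k) _ (f k) (hρ k) (hfc k) (hf0 k) P hP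
  have e1 : ∀ k l, FF Ψ (HC φ) (Z k) (Z l) =
      FF Ψ (HC fun x => φ x * (fx k x : ℂ) * (fx l x : ℂ)) (Y k) (Y l) := by
    intro k l
    rw [hZY φ hφ k _ (hZn l), hsym 4 _ (tf_mul hφ (hfxc k)) _ _ (hYn k) (hZn l),
      hZY _ (tf_mul hφ (hfxc k)) l _ (hYn k),
      hsym 4 _ (tf_mul (tf_mul hφ (hfxc k)) (hfxc l)) _ _ (hYn l) (hYn k)]
  have e2 : ∀ k l, FF Ψ (HC φ) (Z k) (Y l) =
      FF Ψ (HC fun x => φ x * (fx k x : ℂ)) (Y k) (Y l) := fun k l => hZY φ hφ k _ (hYn l)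
  have e3 : ∀ k l, FF Ψ (HC φ) (Y k) (Z l) =
      FF Ψ (HC fun x => φ x * (fx l x : ℂ)) (Y k) (Y l) := by
    intro k l
    rw [hsym 4 _ hφ _ _ (hYn k) (hZn l), e2 l k,
      hsym 4 _ (tf_mul hφ (hfxc l)) _ _ (hYn l) (hYn k)]
  set F : Fin q → E m → ℝ := fun k x => Fn (a k) (b k) (inner ℝ (κ k) x) with hF
  have hFc : ∀ k, Continuous (F k) := fun k => (continuous_Fn _ _).comp (by fun_prop)
  set ψ : Fin q → Fin q → E m → ℂ := fun k l x => φ x * (F k x : ℂ) * (F l x : ℂ) with hψ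
  have hψT : ∀ k l, Tf 4 (ψ k l) := fun k l => tf_mul (tf_mul hφ (hFc k)) (hFc l)
  have e4 : ∀ k l, FF Ψ (HC φ) (Z k) (Z l) + (-(A l : ℂ)) * FF Ψ (HC φ) (Z k) (Y l) +
      ((-(A k : ℂ)) * FF Ψ (HC φ) (Y k) (Z l) + (A k : ℂ) * (A l : ℂ) * FF Ψ (HC φ) (Y k) (Y l)) =
      FF Ψ (HC (ψ k l)) (Y k) (Y l) := by
    intro k l
    have h1 := FFsum hHAT (R := 4) (Finset.univ : Finset (Fin 4))
      ![1, -(A l : ℂ), -(A k : ℂ), (A k : ℂ) * (A l : ℂ)]
      ![fun x => φ x * (fx k x : ℂ) * (fx l x : ℂ), fun x => φ x * (fx k x : ℂ),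
        fun x => φ x * (fx l x : ℂ), φ]
      (by
        intro p
        fin_cases p
        · exact tf_mul (tf_mul hφ (hfxc k)) (hfxc l)
        · exact tf_mul hφ (hfxc k)
        · exact tf_mul hφ (hfxc l)
        · exact hφ) Ψ (Y k) (Y l)
    simp only [Fin.sum_univ_four, Matrix.cons_val_zero, Matrix.cons_val_one, Matrix.cons_val,
      one_mul] at h1
    have h2 : (fun x => φ x * (fx k x : ℂ) * (fx l x : ℂ) + -(A l : ℂ) * (φ x * (fx k x : ℂ)) +
        -(A k : ℂ) * (φ x * (fx l x : ℂ)) + (A k : ℂ) * (A l : ℂ) * φ x) = ψ k l := by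
      funext x
      simp only [hψ, hF, hfx, hf]
      push_cast
      ring
    rw [h2] at h1
    rw [h1, e1, e2, e3]
    ring
  have e5 : Ψ K (HC φ) = (1 / 2 : ℂ) * ∑ k, ∑ l, FF Ψ (HC (ψ k l)) (Y k) (Y l) := by
    rw [hkey, Fintype.sum_sum_type]
    simp only [Fintype.sum_sum_type, Sum.elim_inl, Sum.elim_inr]
    rw [← Finset.sum_add_distrib]
    congr 1
    refine Finset.sum_congr rfl fun k _ => ?_
    rw [← Finset.sum_add_distrib, ← Finset.sum_add_distrib, ← Finset.sum_add_distrib]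
    refine Finset.sum_congr rfl fun l _ => ?_
    rw [← e4]
    push_cast
    ring
  have e6 : ∀ k l, FF Ψ (HC (ψ k l)) (Y k) (Y l) = 2 * ∑ i, ∑ j, ∑ r, ∑ s,
      ((κ k i * κ k j * κ l r * κ l s : ℝ) : ℂ) * B4 Ψ i j r s (ψ k l) := fun k l =>
    hRK1 m Ψ hΨ (ψ k l) (tf_mono (hψT k l) (by norm_num)) (κ k) (κ l) _ _ le_rfl le_rfl
  -- the other side
  have hHs : ∀ (x : E m) (i j : Fin m), Hs (tg κ a b) x i j = ∑ k, -F k x * (κ k i * κ k j) := by
    intro x i j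
    unfold Hs
    rw [(hTGD m q κ a b).2.2 x (eb i) (eb j)]
    refine Finset.sum_congr rfl fun k _ => ?_
    have hin : ∀ i : Fin m, inner ℝ (κ k) (eb i) = κ k i := by
      intro i
      simp [eb, EuclideanSpace.inner_single_right]
    rw [hin i, hin j]
    simp only [hF, Fn]
    ring
  have e7 : ∀ i j r s : Fin m, B4 Ψ i j r s (fun x => φ x * (Hs (tg κ a b) x i j : ℂ) *
      (Hs (tg κ a b) x r s : ℂ)) = ∑ p : Fin q × Fin q,
      ((κ p.1 i * κ p.1 j * κ p.2 r * κ p.2 s : ℝ) : ℂ) * B4 Ψ i j r s (ψ p.1 p.2) := by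
    intro i j r s
    rw [← B4sum hHAT (R := 4) (Finset.univ : Finset (Fin q × Fin q))
      (fun p => ((κ p.1 i * κ p.1 j * κ p.2 r * κ p.2 s : ℝ) : ℂ)) (fun p => ψ p.1 p.2)
      (fun p => hψT p.1 p.2) Ψ i j r s]
    congr 1
    funext x
    rw [hHs, hHs, Fintype.sum_prod_type, mul_assoc, ← Complex.ofReal_mul, Finset.sum_mul_sum,
      Complex.ofReal_sum, Finset.mul_sum]
    refine Finset.sum_congr rfl fun k _ => ?_
    rw [Complex.ofReal_sum, Finset.mul_sum]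
    refine Finset.sum_congr rfl fun l _ => ?_
    simp only [hψ]
    push_cast
    ring
  unfold BB
  simp only [e7, Fintype.sum_prod_type]
  rw [e5]
  simp only [e6]
  have e8 : (1 / 2 : ℂ) * ∑ k, ∑ l, 2 * ∑ i, ∑ j, ∑ r, ∑ s,
      ((κ k i * κ k j * κ l r * κ l s : ℝ) : ℂ) * B4 Ψ i j r s (ψ k l) =
      ∑ k, ∑ l, ∑ i, ∑ j, ∑ r, ∑ s,
      ((κ k i * κ k j * κ l r * κ l s : ℝ) : ℂ) * B4 Ψ i j r s (ψ k l) := by
    rw [Finset.mul_sum]
    refine Finset.sum_congr rfl fun k _ => ?_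
    rw [Finset.mul_sum]
    refine Finset.sum_congr rfl fun l _ => ?_
    ring
  rw [e8]
  -- exchange the sums
  have e9 : ∀ G : Fin q → Fin q → Fin m → Fin m → Fin m → Fin m → ℂ,
      ∑ k, ∑ l, ∑ i, ∑ j, ∑ r, ∑ s, G k l i j r s =
      ∑ i, ∑ j, ∑ r, ∑ s, ∑ k, ∑ l, G k l i j r s := by
    intro G
    have h1 : ∀ H : Fin q → Fin q → Fin m → ℂ, ∑ k, ∑ l, ∑ i, H k l i = ∑ i, ∑ k, ∑ l, H k l i := by
      intro H
      rw [Finset.sum_comm]
      rw [Finset.sum_comm (s := (Finset.univ : Finset (Fin m)))]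
      rw [Finset.sum_comm]
      refine Finset.sum_congr rfl fun k _ => ?_
      exact Finset.sum_comm
    rw [h1]
    refine Finset.sum_congr rfl fun i _ => ?_
    rw [h1]
    refine Finset.sum_congr rfl fun j _ => ?_
    rw [h1]
    refine Finset.sum_congr rfl fun r _ => ?_
    rw [h1]
  exact e9 _

end Pool.Agent.GNS
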