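import Pool.Agent.GNS.T3

/-!
# GNS: TRI, third differences vanish in degree 2
-/

set_option autoImplicit false

open Metric Set Filter Topology MeasureTheory

noncomputable section

namespace Pool.Agent.GNS

open Pool.Agent.GLB

lemma TRI_supp0 {n : ℕ} (u : E n) : supp (0 : ConvexBody (E n)) u = 0 := by
  have h := (gSUA n).2.2.1 0 0 u
  rw [add_zero] at h
  linarith

lemma TRI_one {n : ℕ} (I : ConvexBody (E n)) : (1 : ℝ) • I = I := by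
  refine (gSUL n _ _).2.1 ?_
  intro u
  rw [(gSUA n).2.2.2.1 _ _ _ zero_le_one, one_mul]

lemma TRI_zero {n : ℕ} (I : ConvexBody (E n)) : (0 : ℝ) • I = 0 := by
  refine (gSUL n _ _).2.1 ?_
  intro u
  rw [(gSUA n).2.2.2.1 _ _ _ le_rfl, zero_mul, TRI_supp0]

/-- `s • (K + s⁻¹ • I) = s • K + I` -/
lemma TRI_sc {n : ℕ} (K I : ConvexBody (E n)) (s : ℝ) (hs : 0 < s) :
    s • (K + s⁻¹ • I) = s • K + I := by
  refine (gSUL n _ _).2.1 ?_
  intro u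
  rw [(gSUA n).2.2.2.1 _ _ _ hs.le, (gSUA n).2.2.1, (gSUA n).2.2.1, (gSUA n).2.2.2.1 _ _ _ hs.le,
    (gSUA n).2.2.2.1 _ _ _ (inv_pos.2 hs).le]
  field_simp

/-- `s • (K + s⁻¹ • I + s⁻¹ • J) = s • K + I + J` -/
lemma TRI_sc2 {n : ℕ} (K I J : ConvexBody (E n)) (s : ℝ) (hs : 0 < s) :
    s • (K + s⁻¹ • I + s⁻¹ • J) = s • K + I + J := by
  rw [TRI_sc _ J s hs, TRI_sc _ I s hs]

/-- TRI -/
theorem p_TRI (hAFF : T_AFF) : T_TRI := by
  intro m Ψ hΨ κ κ' c c' t t' ht ht' R φ hφ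
  have hcomm : ∀ K L : ConvexBody (E (m + 1)), K + L = L + K := (gCTA (m + 1)).2.2.2.2.1
  have hhom : ∀ (K : ConvexBody (E (m + 1))) (s : ℝ), 0 ≤ s →
      Ψ (s • K) (HC φ) = (s : ℂ) ^ 2 * Ψ K (HC φ) := by
    intro K s hs
    rw [hΨ.homog K s hs]
    simp
  have hz : Ψ 0 (HC φ) = 0 := by
    have h1 := hhom 0 0 le_rfl
    rw [TRI_zero] at h1
    rw [h1]
    simp
  -- `Ψ (I) = 0`
  have hI : ∀ (κ : E m) (c : ℝ), Ψ (seg (kv κ c)) (HC φ) = 0 := by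
    intro κ c
    have h1 := hhom (seg (kv κ c)) 2 (by norm_num)
    have h2 := hAFF m 2 Ψ hΨ 0 κ c 2 (by norm_num) R φ hφ
    rw [zero_add, zero_add, hz, h1] at h2
    push_cast at h2
    have h3 : (2 : ℂ) * Ψ (seg (kv κ c)) (HC φ) = 0 := by linear_combination h2
    simpa using h3
  have hsI : ∀ (κ : E m) (c s : ℝ), 0 ≤ s → Ψ (s • seg (kv κ c)) (HC φ) = 0 := by
    intro κ c s hs
    rw [hhom _ _ hs, hI, mul_zero]
  -- bilinearity of the second difference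
  have hΔ : ∀ (K : ConvexBody (E (m + 1))) (s s' : ℝ), 0 ≤ s → 0 ≤ s' →
      Ψ (K + s • seg (kv κ c) + s' • seg (kv κ' c')) (HC φ) -
        Ψ (K + s • seg (kv κ c)) (HC φ) - Ψ (K + s' • seg (kv κ' c')) (HC φ) + Ψ K (HC φ) =
      (s : ℂ) * s' * (Ψ (K + seg (kv κ c) + seg (kv κ' c')) (HC φ) -
        Ψ (K + seg (kv κ c)) (HC φ) - Ψ (K + seg (kv κ' c')) (HC φ) + Ψ K (HC φ)) := by
    intro K s s' hs hs'
    have h1 := hAFF m 2 Ψ hΨ (K + s • seg (kv κ c)) κ' c' s' hs' R φ hφ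
    have h2 := hAFF m 2 Ψ hΨ K κ' c' s' hs' R φ hφ
    have h3 := hAFF m 2 Ψ hΨ (K + seg (kv κ' c')) κ c s hs R φ hφ
    have h4 := hAFF m 2 Ψ hΨ K κ c s hs R φ hφ
    have e1 : K + seg (kv κ' c') + s • seg (kv κ c) = K + s • seg (kv κ c) + seg (kv κ' c') := by
      rw [add_assoc, hcomm (seg (kv κ' c')), ← add_assoc]
    have e2 : K + seg (kv κ' c') + seg (kv κ c) = K + seg (kv κ c) + seg (kv κ' c') := by
      rw [add_assoc, hcomm (seg (kv κ' c')), ← add_assoc]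
    rw [e1, e2] at h3
    linear_combination h1 - h2 + (s' : ℂ) * h3 - (s' : ℂ) * h4
  -- the second difference does not depend on `K`
  have hg : ∀ K : ConvexBody (E (m + 1)),
      Ψ (K + seg (kv κ c) + seg (kv κ' c')) (HC φ) -
        Ψ (K + seg (kv κ c)) (HC φ) - Ψ (K + seg (kv κ' c')) (HC φ) + Ψ K (HC φ) =
      Ψ (seg (kv κ c) + seg (kv κ' c')) (HC φ) := by
    intro K
    have hs : ∀ s : ℝ, 0 < s →
        Ψ (s • K + seg (kv κ c) + seg (kv κ' c')) (HC φ) -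
          Ψ (s • K + seg (kv κ c)) (HC φ) - Ψ (s • K + seg (kv κ' c')) (HC φ) +
          Ψ (s • K) (HC φ) =
        Ψ (K + seg (kv κ c) + seg (kv κ' c')) (HC φ) -
          Ψ (K + seg (kv κ c)) (HC φ) - Ψ (K + seg (kv κ' c')) (HC φ) + Ψ K (HC φ) := by
      intro s hs
      have h1 := hΔ K s⁻¹ s⁻¹ (inv_pos.2 hs).le (inv_pos.2 hs).le
      rw [← TRI_sc2 K _ _ s hs, ← TRI_sc K (seg (kv κ c)) s hs,
        ← TRI_sc K (seg (kv κ' c')) s hs, hhom _ _ hs.le, hhom _ _ hs.le, hhom _ _ hs.le,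
        hhom _ _ hs.le]
      have hsc : (s : ℂ) ≠ 0 := by exact_mod_cast hs.ne'
      have h2 : (s : ℂ) ^ 2 * (((s⁻¹ : ℝ) : ℂ) * ((s⁻¹ : ℝ) : ℂ)) = 1 := by
        push_cast
        field_simp
      linear_combination (s : ℂ) ^ 2 * h1 + (Ψ (K + seg (kv κ c) + seg (kv κ' c')) (HC φ) -
          Ψ (K + seg (kv κ c)) (HC φ) - Ψ (K + seg (kv κ' c')) (HC φ) + Ψ K (HC φ)) * h2
    have h0 : Tendsto (fun j : ℕ => ((1 / ((j : ℝ) + 1) : ℝ)) • K) atTop (𝓝 0) :=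
      (gCTA (m + 1)).2.2.1 K
    have hcf := hΨ.cont (HC φ)
    have ha : ∀ L : ConvexBody (E (m + 1)), Tendsto
        (fun j : ℕ => Ψ (((1 / ((j : ℝ) + 1) : ℝ)) • K + L) (HC φ)) atTop
        (𝓝 (Ψ (0 + L) (HC φ))) := fun L =>
      (hcf.tendsto _).comp ((((gCTA (m + 1)).1 L).tendsto 0).comp h0)
    have hb : Tendsto (fun j : ℕ => Ψ (((1 / ((j : ℝ) + 1) : ℝ)) • K) (HC φ)) atTop
        (𝓝 (Ψ 0 (HC φ))) := (hcf.tendsto _).comp h0
    have h1 := (((ha (seg (kv κ c) + seg (kv κ' c'))).sub (ha (seg (kv κ c)))).sub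
      (ha (seg (kv κ' c')))).add hb
    have h2 : (fun j : ℕ => Ψ (((1 / ((j : ℝ) + 1) : ℝ)) • K +
          (seg (kv κ c) + seg (kv κ' c'))) (HC φ) -
          Ψ (((1 / ((j : ℝ) + 1) : ℝ)) • K + seg (kv κ c)) (HC φ) -
          Ψ (((1 / ((j : ℝ) + 1) : ℝ)) • K + seg (kv κ' c')) (HC φ) +
          Ψ (((1 / ((j : ℝ) + 1) : ℝ)) • K) (HC φ)) = fun _ =>
        Ψ (K + seg (kv κ c) + seg (kv κ' c')) (HC φ) -
          Ψ (K + seg (kv κ c)) (HC φ) - Ψ (K + seg (kv κ' c')) (HC φ) + Ψ K (HC φ) := by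
      funext j
      rw [← add_assoc]
      exact hs _ (by positivity)
    rw [h2] at h1
    have h3 := tendsto_nhds_unique tendsto_const_nhds h1
    rw [h3, zero_add, zero_add, zero_add, hI, hI, hz]
    ring
  refine ⟨hz, hsI κ c t ht, fun K => ?_⟩
  have h1 := hΔ K t t' ht ht'
  have h2 := hΔ 0 t t' ht ht'
  rw [hg K] at h1
  rw [hg 0] at h2
  rw [h1, ← h2, zero_add, zero_add, hsI κ c t ht, hsI κ' c' t' ht', hz]
  ring

end Pool.Agent.GNS
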