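import Pool.Agent.GNS.T1

set_option autoImplicit false

open Metric Set Filter Topology MeasureTheory

noncomputable section

namespace Pool.Agent.GNS

theorem UBR_hcs {r : ℝ} {ρ : V → ℝ} (hK : Ker r ρ) : HasCompactSupport ρ := hcs_of hK.out

theorem UBR_shift_hcs {r : ℝ} {ρ : V → ℝ} (hK : Ker r ρ) (z : V) :
    HasCompactSupport fun ζ => ρ (z - ζ) := by
  apply hcs_of (R := r + ‖z‖)
  intro ζ hζ
  apply hK.out
  have h1 : ‖ζ‖ ≤ ‖z - ζ‖ + ‖z‖ := by
    have h2 : ζ = z - (z - ζ) := by abel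
    calc ‖ζ‖ = ‖z - (z - ζ)‖ := by rw [← h2]
      _ ≤ ‖z‖ + ‖z - ζ‖ := norm_sub_le _ _
      _ = ‖z - ζ‖ + ‖z‖ := by ring
  linarith

theorem UBR_int {r : ℝ} {ρ f : V → ℝ} (hK : Ker r ρ) (hf : Continuous f) (z : V) :
    Integrable fun ζ => ρ (z - ζ) * f ζ := by
  apply int_of
  · exact (hK.sm.cont.comp (continuous_const.sub continuous_id)).mul hf
  · exact (UBR_shift_hcs hK z).mul_right

theorem UBR_const {r : ℝ} {ρ : V → ℝ} (hK : Ker r ρ) (c : ℝ) (z : V) :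
    ∫ ζ, ρ (z - ζ) * c = c := by
  rw [integral_mul_const, integral_sub_left_eq_self ρ volume z, hK.int, one_mul]

theorem UBR_le {r : ℝ} {ρ f : V → ℝ} (hK : Ker r ρ) (hf : Continuous f) {c : ℝ}
    (h : ∀ z, f z ≤ c) (z : V) : cv ρ f z ≤ c := by
  rw [← UBR_const hK c z]
  unfold cv
  apply integral_mono (UBR_int hK hf z) (UBR_int hK continuous_const z)
  intro ζ
  exact mul_le_mul_of_nonneg_left (h ζ) (hK.nn _)

theorem UBR_ge {r : ℝ} {ρ f : V → ℝ} (hK : Ker r ρ) (hf : Continuous f) {c : ℝ}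
    (h : ∀ z, c ≤ f z) (z : V) : c ≤ cv ρ f z := by
  rw [← UBR_const hK c z]
  unfold cv
  apply integral_mono (UBR_int hK continuous_const z) (UBR_int hK hf z)
  intro ζ
  exact mul_le_mul_of_nonneg_left (h ζ) (hK.nn _)

theorem UBR_abs {r : ℝ} {ρ f : V → ℝ} (hK : Ker r ρ) (hf : Continuous f) {c : ℝ}
    (h : ∀ z, |f z| ≤ c) (z : V) : |cv ρ f z| ≤ c := by
  rw [abs_le]
  exact ⟨UBR_ge hK hf (fun z => (abs_le.1 (h z)).1) z, UBR_le hK hf (fun z => (abs_le.1 (h z)).2) z⟩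

theorem UBR_lin {r : ℝ} {ρ f g k : V → ℝ} (hK : Ker r ρ) (hf : Continuous f) (hg : Continuous g)
    (hk : Continuous k) (a b c : ℝ) (z : V) :
    cv ρ (fun z => a * f z + b * g z + c * k z) z =
      a * cv ρ f z + b * cv ρ g z + c * cv ρ k z := by
  unfold cv
  have h1 := (UBR_int hK hf z).const_mul a
  have h2 := (UBR_int hK hg z).const_mul b
  have h3 := (UBR_int hK hk z).const_mul c
  have h12 : Integrable (fun ζ => a * (ρ (z - ζ) * f ζ) + b * (ρ (z - ζ) * g ζ)) := h1.add h2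
  rw [← integral_const_mul, ← integral_const_mul, ← integral_const_mul,
    ← integral_add h1 h2, ← integral_add h12 h3]
  apply integral_congr_ae
  filter_upwards with ζ
  ring

/-! ### the square -/

theorem UBR_smq : Sm q2 := by
  unfold Sm q2
  fun_prop

theorem UBR_d2 (i : Fin 4) (z : V) : d i q2 z = z.2.1 * (e i).2.1 + z.2.2 * (e i).2.2 := by
  unfold d
  have h1 : HasFDerivAt (fun z : V => z.2.1)
      ((ContinuousLinearMap.fst ℝ ℝ ℝ).comp (ContinuousLinearMap.snd ℝ X2 X2)) z :=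
    ((ContinuousLinearMap.fst ℝ ℝ ℝ).comp (ContinuousLinearMap.snd ℝ X2 X2)).hasFDerivAt
  have h2 : HasFDerivAt (fun z : V => z.2.2)
      ((ContinuousLinearMap.snd ℝ ℝ ℝ).comp (ContinuousLinearMap.snd ℝ X2 X2)) z :=
    ((ContinuousLinearMap.snd ℝ ℝ ℝ).comp (ContinuousLinearMap.snd ℝ X2 X2)).hasFDerivAt
  have h3 : HasFDerivAt q2 ((1 / 2 : ℝ) • ((z.2.1 • ((ContinuousLinearMap.fst ℝ ℝ ℝ).comp
      (ContinuousLinearMap.snd ℝ X2 X2)) + z.2.1 • ((ContinuousLinearMap.fst ℝ ℝ ℝ).comp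
      (ContinuousLinearMap.snd ℝ X2 X2))) + (z.2.2 • ((ContinuousLinearMap.snd ℝ ℝ ℝ).comp
      (ContinuousLinearMap.snd ℝ X2 X2)) + z.2.2 • ((ContinuousLinearMap.snd ℝ ℝ ℝ).comp
      (ContinuousLinearMap.snd ℝ X2 X2))))) z := by
    have h4 := ((h1.mul h1).add (h2.mul h2)).const_mul (1 / 2 : ℝ)
    have h5 : q2 = fun z : V => (1 / 2 : ℝ) * (z.2.1 * z.2.1 + z.2.2 * z.2.2) := by
      funext z
      unfold q2
      ring
    rw [h5]
    exact h4
  rw [h3.fderiv]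
  simp only [smul_apply, add_apply, smul_eq_mul, ContinuousLinearMap.comp_apply,
    ContinuousLinearMap.coe_fst', ContinuousLinearMap.coe_snd']
  ring

theorem UBR_q0 : d 0 q2 = fun _ => 0 := by
  funext z; rw [UBR_d2]; simp [e]

theorem UBR_q1 : d 1 q2 = fun _ => 0 := by
  funext z; rw [UBR_d2]; simp [e]

theorem UBR_q2 : d 2 q2 = fun z => z.2.1 := by
  funext z; rw [UBR_d2]; simp [e]

theorem UBR_q3 : d 3 q2 = fun z => z.2.2 := by
  funext z; rw [UBR_d2]; simp [e]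

theorem UBR_l1 (i : Fin 4) (z : V) : d i (fun z : V => z.2.1) z = (e i).2.1 := by
  unfold d
  have h1 : HasFDerivAt (fun z : V => z.2.1)
      ((ContinuousLinearMap.fst ℝ ℝ ℝ).comp (ContinuousLinearMap.snd ℝ X2 X2)) z :=
    ((ContinuousLinearMap.fst ℝ ℝ ℝ).comp (ContinuousLinearMap.snd ℝ X2 X2)).hasFDerivAt
  rw [h1.fderiv]
  rfl

theorem UBR_l2 (i : Fin 4) (z : V) : d i (fun z : V => z.2.2) z = (e i).2.2 := by
  unfold d
  have h1 : HasFDerivAt (fun z : V => z.2.2)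
      ((ContinuousLinearMap.snd ℝ ℝ ℝ).comp (ContinuousLinearMap.snd ℝ X2 X2)) z :=
    ((ContinuousLinearMap.snd ℝ ℝ ℝ).comp (ContinuousLinearMap.snd ℝ X2 X2)).hasFDerivAt
  rw [h1.fderiv]
  rfl

/-! ### derivatives of the regularised transform -/

theorem UBR_first (hC : T_CNV) {r : ℝ} {ρ u : V → ℝ} (hK : Ker r ρ) (hu : Sm u) :
    Sm (ub ρ r u) ∧ ∀ i : Fin 4, d i (ub ρ r u) = fun z => cv ρ (d i u) z + r * d i q2 z := by
  obtain ⟨h1, -, -, h4⟩ := hC ρ u hK.sm (UBR_hcs hK) hu.cont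
  have hs : Sm (fun z => r * q2 z) := UBR_smq.cmul r
  refine ⟨h1.add hs, fun i => ?_⟩
  funext z
  have h5 : d i (ub ρ r u) z = d i (fun z => cv ρ u z + r * q2 z) z := rfl
  rw [h5, d_add h1 hs, d_cmul UBR_smq, h4 hu]

theorem UBR_second (hC : T_CNV) {r : ℝ} {ρ u : V → ℝ} (hK : Ker r ρ) (hu : Sm u) (i j : Fin 4)
    (z : V) : d j (d i (ub ρ r u)) z = cv ρ (d j (d i u)) z + r * d j (d i q2) z := by
  rw [(UBR_first hC hK hu).2 i]
  obtain ⟨h1, -, -, h4⟩ := hC ρ (d i u) hK.sm (UBR_hcs hK) (hu.d i).cont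
  have hs : Sm (fun z => r * d i q2 z) := (UBR_smq.d i).cmul r
  rw [d_add h1 hs, d_cmul (UBR_smq.d i), h4 (hu.d i)]

theorem p_UBR (hCNV : T_CNV) : T_UBR := by
  intro η r ρ u hη hr hK hU
  have hu := hU.sm
  have hF := UBR_first hCNV hK hu
  have hS := UBR_second hCNV hK hu
  have hc : ∀ i j, Continuous (d i (d j u)) := fun i j => ((hu.d j).d i).cont
  refine ⟨⟨hF.1, ?_⟩, ?_, ?_, ?_, ?_⟩
  · intro z a b
    rw [hS 2 2, hS 3 2, hS 3 3]
    have h1 := UBR_ge hK (f := fun z => a ^ 2 * d 2 (d 2 u) z + 2 * a * b * d 2 (d 3 u) z +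
      b ^ 2 * d 3 (d 3 u) z) (by
        have h2 := hc 2 2
        have h3 := hc 2 3
        have h4 := hc 3 3
        fun_prop) (c := 0) (fun z => hU.lo z a b) z
    rw [UBR_lin hK (hc 2 2) (hc 2 3) (hc 3 3)] at h1
    rw [UBR_q2, UBR_q3, UBR_l1, UBR_l2, UBR_l2]
    simp only [e, Matrix.cons_val]
    nlinarith [h1]
  · intro z
    rw [hF.2 0, hF.2 1]
    simp only [UBR_q0, UBR_q1, mul_zero, add_zero]
    exact ⟨UBR_abs hK (hu.d 0).cont hU.bd0 z, UBR_abs hK (hu.d 1).cont hU.bd1 z⟩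
  · intro z a b
    rw [hS 0 0, hS 1 0, hS 1 1]
    have h1 := UBR_le hK (f := fun z => a ^ 2 * d 0 (d 0 u) z + 2 * a * b * d 0 (d 1 u) z +
      b ^ 2 * d 1 (d 1 u) z) (by
        have h2 := hc 0 0
        have h3 := hc 0 1
        have h4 := hc 1 1
        fun_prop) (c := 0) (fun z => hU.cc z a b) z
    rw [UBR_lin hK (hc 0 0) (hc 0 1) (hc 1 1)] at h1
    rw [UBR_q0, UBR_q1, d_const, d_const]
    nlinarith [h1]
  · intro z i hi
    rw [hS i 2, hS i 3]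
    rcases hi with rfl | rfl
    · rw [UBR_q0, d_const, d_const]; simp
    · rw [UBR_q1, d_const, d_const]; simp
  · intro z
    rw [hF.2 2, hF.2 3]
    simp only [UBR_q2, UBR_q3, and_self]

end Pool.Agent.GNS
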