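import Pool.Agent.GNS.T1

/-!
# GNS: proof of UIK (mixed derivatives after averaging)
-/

set_option autoImplicit false

open Metric Set Filter Topology MeasureTheory

noncomputable section

namespace Pool.Agent.GNS

namespace UIK_

/-- a smooth function of the `x` variables has derivative `0` in the `y` directions -/
theorem d_of_Xo {f : V → ℝ} (hs : Sm f) (hx : Xo f) (k : Fin 4) (hk : k = 2 ∨ k = 3) (z : V) :
    d k f z = 0 := by
  have h1 := line_deriv hs z (e k) 0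
  have h2 : (fun s : ℝ => f (z + s • e k)) = fun _ => f z := by
    funext s
    apply hx
    rcases hk with rfl | rfl <;> simp [e]
  rw [h2] at h1
  have h3 := h1.unique (hasDerivAt_const 0 (f z))
  simpa [d] using h3

theorem key (hUBR : T_UBR) (hCNV : T_CNV) (hJEN : T_JEN) {r : ℝ} {ρ : V → ℝ} (hr : 0 < r)
    (hρ : Ker r ρ) {η : ℝ} (hη : 0 < η) {u : V → ℝ} (hu : Uc η u) {g : V → ℝ} (hg : Sm g)
    (hgx : Xo g) (g0' : ∀ z, 0 ≤ g z) (g4 : ∀ z, g z ≤ 4) {γ : ℝ} (hγ : 1 / 2 ≤ γ) (i : Fin 4)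
    (hi : i = 0 ∨ i = 1) (k : Fin 4) (hk : k = 2 ∨ k = 3) {M : ℝ} (z : V)
    (hM : |∫ ζ, d k ρ (z - ζ) * ((g ζ - γ) * d i u ζ)| ≤ M) :
    d k (d i (ub ρ r u)) z ^ 2 ≤ 32 * cv ρ (fun ζ => g ζ * d k (d i u) ζ ^ 2) z + 8 * M ^ 2 := by
  have hcs : HasCompactSupport ρ := hcs_of hρ.out
  have h1 : d k (d i (ub ρ r u)) z = cv ρ (d k (d i u)) z := by
    have := (hUBR η r ρ u hη hr hρ hu).2.2.2.1 z i hi
    rcases hk with rfl | rfl
    · exact this.1
    · exact this.2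
  have hui : Sm (d i u) := hu.sm.d i
  have huki : Sm (d k (d i u)) := hui.d k
  set f : V → ℝ := fun ζ => (g ζ - γ) * d i u ζ with hf
  have hfs : Sm f := (hg.sub (Sm.const γ)).mul hui
  have hdf : d k f = fun ζ => (g ζ - γ) * d k (d i u) ζ := by
    funext ζ
    rw [hf, d_mul (hg.sub (Sm.const γ)) hui, d_sub hg (Sm.const γ), d_const,
      d_of_Xo hg hgx k hk]
    ring
  obtain ⟨_, hc2, _, hc4⟩ := hCNV ρ f hρ.sm hcs hfs.cont
  have hB : cv ρ (fun ζ => (g ζ - γ) * d k (d i u) ζ) z = cv (d k ρ) f z := by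
    rw [← hdf, ← hc4 hfs, hc2]
  have hBM : |cv ρ (fun ζ => (g ζ - γ) * d k (d i u) ζ) z| ≤ M := by
    rw [hB]
    exact hM
  have hA : cv ρ (fun ζ => g ζ * d k (d i u) ζ) z ^ 2 ≤
      4 * cv ρ (fun ζ => g ζ * d k (d i u) ζ ^ 2) z :=
    hJEN r ρ g (d k (d i u)) hρ hg.cont huki.cont g0' g4 z
  have hint : ∀ F : V → ℝ, Continuous F → Integrable fun ζ => ρ (z - ζ) * F ζ := by
    intro F hF
    apply Continuous.integrable_of_hasCompactSupport
    · exact (hρ.sm.cont.comp (continuous_const.sub continuous_id)).mul hF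
    · apply HasCompactSupport.mul_right
      exact hcs.comp_homeomorph (Homeomorph.subLeft z)
  have hsum : cv ρ (fun ζ => g ζ * d k (d i u) ζ) z - γ * cv ρ (d k (d i u)) z =
      cv ρ (fun ζ => (g ζ - γ) * d k (d i u) ζ) z := by
    unfold cv
    rw [← integral_const_mul, ← integral_sub]
    · congr 1
      funext ζ
      ring
    · exact hint _ (hg.cont.mul huki.cont)
    · exact (hint _ huki.cont).const_mul γ
  rw [h1]
  set X := cv ρ (d k (d i u)) z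
  set A := cv ρ (fun ζ => g ζ * d k (d i u) ζ) z
  set B := cv ρ (fun ζ => (g ζ - γ) * d k (d i u) ζ) z
  set J := cv ρ (fun ζ => g ζ * d k (d i u) ζ ^ 2) z
  have hγX : γ * X = A - B := by linarith
  have hB2 : B ^ 2 ≤ M ^ 2 := by
    rw [← sq_abs B]
    exact pow_le_pow_left₀ (abs_nonneg B) hBM 2
  have h5 : (γ * X) ^ 2 ≤ 2 * (A ^ 2 + B ^ 2) := by
    rw [hγX]
    nlinarith [sq_nonneg (A + B)]
  have h6 : X ^ 2 ≤ 4 * (γ * X) ^ 2 := by
    have : 1 ≤ 4 * γ ^ 2 := by nlinarith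
    calc X ^ 2 = 1 * X ^ 2 := by ring
      _ ≤ (4 * γ ^ 2) * X ^ 2 := mul_le_mul_of_nonneg_right this (sq_nonneg X)
      _ = 4 * (γ * X) ^ 2 := by ring
  linarith

theorem sm_c0 {f : ℝ → ℝ} (hf : ContDiff ℝ ((⊤ : ℕ∞) : WithTop ℕ∞) f) (h : ℝ) :
    Sm (c0 f h) := by
  unfold Sm
  have : c0 f h = fun z : V => f (z.1.1 / h) := rfl
  rw [this]
  exact hf.comp ((contDiff_fst.comp contDiff_fst).div_const h)

theorem sm_c1 {f : ℝ → ℝ} (hf : ContDiff ℝ ((⊤ : ℕ∞) : WithTop ℕ∞) f) (h : ℝ) :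
    Sm (c1 f h) := by
  unfold Sm
  have : c1 f h = fun z : V => f (z.1.2 / h) := rfl
  rw [this]
  exact hf.comp ((contDiff_snd.comp contDiff_fst).div_const h)

end UIK_

open UIK_ in
theorem p_UIK (hAV0 : T_AV0) (hAV1 : T_AV1) (hUBR : T_UBR) (hCNV : T_CNV) (hJEN : T_JEN) :
    T_UIK := by
  intro N θ σ σ2 q3 ϵ m2 c3 C hP hN r ρ hr hρ
  have hcs : HasCompactSupport ρ := hcs_of hρ.out
  have hN1 : 1 ≤ N := by omega
  have hϵ0 := hP.ϵnn
  have hϵ1 : ϵ ≤ 1 / 3 := by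
    refine hP.ϵle.trans ?_
    have : (3 : ℝ) ≤ N := by exact_mod_cast hN
    exact one_div_le_one_div_of_le (by norm_num) this
  have hk0 : ∀ k : Fin 4, ∃ C' : ℝ, 0 ≤ C' ∧ ∀ (η : ℝ) (u : V → ℝ), Uc η u →
      ∀ (z : V) (h : ℝ), 0 < h → h ≤ 1 →
      |∫ ζ, d k ρ (z - ζ) * ((g0 θ h ζ - (3 + ϵ) / 4) * d 0 u ζ)| ≤ C' * h := fun k =>
    hAV0 N θ σ σ2 q3 ϵ m2 c3 C hP hN1 (d k ρ) (hρ.sm.d k) (hcs_d hcs k)
  have hk1 : ∀ k : Fin 4, ∃ C' : ℝ, 0 ≤ C' ∧ ∀ (η : ℝ) (u : V → ℝ), Uc η u →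
      ∀ (z : V) (h h' : ℝ), 0 < h → h ≤ 1 → 0 < h' → h' ≤ 1 →
      |∫ ζ, d k ρ (z - ζ) * ((g1 θ h h' ζ - (1 - ϵ) * (3 + ϵ) / 4) * d 1 u ζ)| ≤
        C' * (h + h') := fun k =>
    hAV1 N θ σ σ2 q3 ϵ m2 c3 C hP hN1 (d k ρ) (hρ.sm.d k) (hcs_d hcs k)
  choose C0 hC0 hB0 using hk0
  choose C1 hC1 hB1 using hk1
  set M : ℝ := C0 2 + C0 3 + C1 2 + C1 3 with hM
  have hM0 : 0 ≤ M := by
    have := hC0 2
    have := hC0 3
    have := hC1 2
    have := hC1 3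
    linarith
  have hle0 : ∀ k : Fin 4, (k = 2 ∨ k = 3) → C0 k ≤ M := by
    intro k hk
    have := hC0 2
    have := hC0 3
    have := hC1 2
    have := hC1 3
    rcases hk with rfl | rfl <;> linarith
  have hle1 : ∀ k : Fin 4, (k = 2 ∨ k = 3) → C1 k ≤ M := by
    intro k hk
    have := hC0 2
    have := hC0 3
    have := hC1 2
    have := hC1 3
    rcases hk with rfl | rfl <;> linarith
  refine ⟨16 * M ^ 2, by positivity, ?_⟩
  intro η u hη hu z h h' hh hh1 hh' hh1' k hk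
  have hs0 : Sm (g0 θ h) := (Sm.const 1).sub (sm_c0 hP.smθ h)
  have hs1 : Sm (g1 θ h h') :=
    ((sm_c0 hP.smθ h).cmul 4).mul ((Sm.const 1).sub (sm_c1 hP.smθ h'))
  have hx0 : Xo (g0 θ h) := by
    intro z z' hz
    simp only [g0, c0, hz]
  have hx1 : Xo (g1 θ h h') := by
    intro z z' hz
    simp only [g1, c0, c1, hz]
  have hsq : 8 * (M * (h + h')) ^ 2 ≤ 16 * M ^ 2 * (h + h') := by
    have h1 : (h + h') ^ 2 ≤ 2 * (h + h') := by nlinarith
    have h2 : 0 ≤ 8 * M ^ 2 := by positivity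
    nlinarith [mul_le_mul_of_nonneg_left h1 h2]
  constructor
  · refine (key hUBR hCNV hJEN hr hρ hη hu hs0 hx0 (fun z => ?_) (fun z => ?_)
      (γ := (3 + ϵ) / 4) (by linarith) 0 (Or.inl rfl) k hk (M := M * (h + h')) z ?_).trans ?_
    · have := hP.le (z.1.1 / h)
      simp only [g0, c0]
      linarith
    · have := hP.nn (z.1.1 / h)
      simp only [g0, c0]
      linarith
    · refine (hB0 k η u hu z h hh hh1).trans ?_
      have h1 := hle0 k hk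
      have h2 := hC0 k
      nlinarith
    · linarith
  · refine (key hUBR hCNV hJEN hr hρ hη hu hs1 hx1 (fun z => ?_) (fun z => ?_)
      (γ := (1 - ϵ) * (3 + ϵ) / 4) (by nlinarith) 1 (Or.inr rfl) k hk
      (M := M * (h + h')) z ?_).trans ?_
    · have a1 := hP.nn (z.1.1 / h)
      have a2 := hP.le (z.1.2 / h')
      simp only [g1, c0, c1]
      nlinarith
    · have a1 := hP.nn (z.1.1 / h)
      have a2 := hP.le (z.1.1 / h)
      have a3 := hP.nn (z.1.2 / h')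
      have a4 := hP.le (z.1.2 / h')
      simp only [g1, c0, c1]
      nlinarith
    · refine (hB1 k η u hu z h h' hh hh1 hh' hh1').trans ?_
      have h1 := hle1 k hk
      nlinarith
    · linarith

end Pool.Agent.GNS
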