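import Pool.Agent.GNS.T5

/-!
# GNS: locality at the equator (VAN)
-/

set_option autoImplicit false

open Metric Set Filter Topology MeasureTheory

noncomputable section

namespace Pool.Agent.GNS

open Pool.Agent.GLB

namespace VAN_

variable {n : ℕ}

theorem hgt_cont : Continuous fun v : S (n + 1) => hgt (v : E (n + 1)) := by
  unfold hgt
  exact (EuclideanSpace.proj (𝕜 := ℝ) (Fin.last n)).continuous.comp continuous_subtype_val

open Classical in
/-- the part on the upper half sphere -/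
def pos (φ : C(S (n + 1), ℂ)) (hφ : ∀ v : S (n + 1), hgt (v : E (n + 1)) = 0 → φ v = 0) :
    C(S (n + 1), ℂ) :=
  ⟨fun v => if hgt (v : E (n + 1)) ≤ 0 then 0 else φ v,
    Continuous.if_le continuous_const φ.continuous hgt_cont continuous_const
      fun v hv => (hφ v hv).symm⟩

open Classical in
/-- the part on the lower half sphere -/
def neg (φ : C(S (n + 1), ℂ)) (hφ : ∀ v : S (n + 1), hgt (v : E (n + 1)) = 0 → φ v = 0) :
    C(S (n + 1), ℂ) :=
  ⟨fun v => if 0 ≤ hgt (v : E (n + 1)) then 0 else φ v,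
    Continuous.if_le continuous_const φ.continuous continuous_const hgt_cont
      fun v hv => (hφ v hv.symm).symm⟩

theorem split (φ : C(S (n + 1), ℂ))
    (hφ : ∀ v : S (n + 1), hgt (v : E (n + 1)) = 0 → φ v = 0) : φ = pos φ hφ + neg φ hφ := by
  ext v
  show φ v = (if hgt (v : E (n + 1)) ≤ 0 then 0 else φ v) +
    (if 0 ≤ hgt (v : E (n + 1)) then 0 else φ v)
  rcases lt_trichotomy (hgt (v : E (n + 1))) 0 with h | h | h
  · rw [if_pos h.le, if_neg (not_le.2 h), zero_add]
  · rw [if_pos h.le, if_pos h.ge, hφ v h, add_zero]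
  · rw [if_neg (not_le.2 h), if_pos h.le, add_zero]

end VAN_

open VAN_ in
theorem p_VAN (h_EMB : T_EMB) : T_VAN := by
  intro n k Ψ hΨ φ hφ K t ht
  obtain ⟨-, -, -, -, hel, -, -, -, -, -, -, hJ⟩ := h_EMB n
  obtain ⟨-, -, hadd, hsm, hpt, -⟩ := gSUA (n + 1)
  have h1 : ∀ v : E (n + 1), supp (K + t • Jl) v = supp K v + t * max 0 (hgt v) := by
    intro v
    rw [hadd, hsm _ _ _ ht, hJ]
  have h2 : ∀ v : E (n + 1), supp (K + pt (t • el)) v = supp K v + t * hgt v := by
    intro v
    rw [hadd, hpt, inner_smul_left, hel]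
    rfl
  have hp : Ψ (K + t • Jl) (pos φ hφ) = Ψ K (pos φ hφ) := by
    rw [← hΨ.trans K (t • el)]
    refine hΨ.loc _ _ {v : S (n + 1) | 0 < hgt (v : E (n + 1))}
      (isOpen_lt continuous_const hgt_cont) ?_ _ ?_
    · intro u hu
      have hu' : 0 < hgt (u : E (n + 1)) := hu
      rw [h1, h2, max_eq_right hu'.le]
    · intro u hu
      have hu' : ¬ 0 < hgt (u : E (n + 1)) := hu
      show (if hgt (u : E (n + 1)) ≤ 0 then 0 else φ u) = 0
      rw [if_pos (not_lt.1 hu')]
  have hn : Ψ (K + t • Jl) (neg φ hφ) = Ψ K (neg φ hφ) := by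
    refine hΨ.loc _ _ {v : S (n + 1) | hgt (v : E (n + 1)) < 0}
      (isOpen_lt hgt_cont continuous_const) ?_ _ ?_
    · intro u hu
      have hu' : hgt (u : E (n + 1)) < 0 := hu
      rw [h1, max_eq_left hu'.le, mul_zero, add_zero]
    · intro u hu
      have hu' : ¬ hgt (u : E (n + 1)) < 0 := hu
      show (if 0 ≤ hgt (u : E (n + 1)) then 0 else φ u) = 0
      rw [if_pos (not_lt.1 hu')]
  rw [split φ hφ, map_add, map_add, hp, hn]

end Pool.Agent.GNS
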