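import Pool.Agent.GNS.T4

/-!
# GNS: target VBR (valuations on balls)
-/

set_option autoImplicit false

open Metric Set Filter Topology MeasureTheory

noncomputable section

namespace Pool.Agent.GNS

open Pool.Agent.GLB

theorem p_VBR : T_VBR := by
  intro n μ C hμ hC R hR K hK
  have h1 : R • ((R⁻¹ : ℝ) • K) = K := (gCTA n).2.2.2.2.2 K R hR
  have h2 := hμ.homog ((R⁻¹ : ℝ) • K) R hR.le
  rw [h1] at h2
  have h3 : (((R⁻¹ : ℝ) • K : ConvexBody (E n)) : Set (E n)) ⊆ closedBall 0 1 := by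
    rw [ConvexBody.coe_smul]
    rintro x ⟨y, hy, rfl⟩
    have h4 := hK hy
    rw [mem_closedBall, dist_zero_right] at h4
    simp only [mem_closedBall, dist_zero_right]
    rw [norm_smul, Real.norm_of_nonneg (inv_nonneg.mpr hR.le)]
    calc R⁻¹ * ‖y‖ ≤ R⁻¹ * R := mul_le_mul_of_nonneg_left h4 (inv_nonneg.mpr hR.le)
      _ = 1 := inv_mul_cancel₀ hR.ne'
  have h5 := hC _ h3
  rw [h2, norm_mul, norm_pow, Complex.norm_real, Real.norm_of_nonneg hR.le]
  exact mul_le_mul_of_nonneg_left h5 (by positivity)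

end Pool.Agent.GNS
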