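import Pool.Agent.GNS.T5

set_option autoImplicit false

/-!
# GNS, target VSA: values at sections
-/

open Metric Set Filter Topology MeasureTheory

noncomputable section

namespace Pool.Agent.GNS

open Pool.Agent.GLB

namespace VSA_

variable {n : ℕ}

theorem emb_cast (x : E n) (i : Fin n) : emb x i.castSucc = x i := by
  simp [emb]

theorem emb_last (x : E n) : emb x (Fin.last n) = 0 := by
  simp [emb]

theorem el_cast (i : Fin n) : (el : E (n + 1)) i.castSucc = 0 := by
  have h : i.castSucc ≠ Fin.last n := (Fin.castSucc_lt_last i).ne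
  simp [el, eb, h]

theorem el_last : (el : E (n + 1)) (Fin.last n) = 1 := by
  simp [el, eb]

theorem prj_apply (v : E (n + 1)) (i : Fin n) : prj v i = v i.castSucc := by
  simp [prj]

theorem emb_comb (x y : E n) (a b : ℝ) : emb (a • x + b • y) = a • emb x + b • emb y := by
  ext i
  refine Fin.lastCases ?_ (fun i => ?_) i
  · simp only [PiLp.add_apply, PiLp.smul_apply, emb_last, smul_eq_mul, mul_zero, add_zero]
  · simp only [PiLp.add_apply, PiLp.smul_apply, emb_cast]

theorem emb_cont : Continuous (emb : E n → E (n + 1)) := by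
  unfold emb
  refine (PiLp.continuous_toLp 2 _).comp ?_
  refine continuous_pi fun i => ?_
  refine Fin.lastCases ?_ (fun i => ?_) i
  · simp only [Fin.snoc_last]
    exact continuous_const
  · simp only [Fin.snoc_castSucc]
    exact PiLp.continuous_apply 2 _ i

theorem prj_cont : Continuous (prj : E (n + 1) → E n) := by
  unfold prj
  refine (PiLp.continuous_toLp 2 _).comp ?_
  exact continuous_pi fun i => PiLp.continuous_apply 2 _ i.castSucc

theorem prj_sec (x : E n) (ζ : ℝ) : prj (emb x + ζ • el) = x := by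
  ext i
  rw [prj_apply, PiLp.add_apply, PiLp.smul_apply, emb_cast, el_cast, smul_zero, add_zero]

theorem sec_convex (K : ConvexBody (E (n + 1))) (ζ : ℝ) : Convex ℝ (sec K ζ) := by
  intro x hx y hy a b ha hb hab
  have hx' : emb x + ζ • el ∈ (K : Set (E (n + 1))) := hx
  have hy' : emb y + ζ • el ∈ (K : Set (E (n + 1))) := hy
  have h1 := K.convex hx' hy' ha hb hab
  have h2 : a • (emb x + ζ • el) + b • (emb y + ζ • el) = emb (a • x + b • y) + ζ • el := by
    rw [emb_comb, smul_add, smul_add]
    have h3 : ζ • (el : E (n + 1)) = a • (ζ • el) + b • (ζ • el) := by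
      rw [← add_smul, hab, one_smul]
    conv_rhs => rw [h3]
    abel
  rw [h2] at h1
  exact h1

theorem sec_compact (K : ConvexBody (E (n + 1))) (ζ : ℝ) : IsCompact (sec K ζ) := by
  have h1 : IsClosed (sec K ζ) :=
    K.isCompact.isClosed.preimage (emb_cont.add continuous_const)
  refine (K.isCompact.image prj_cont).of_isClosed_subset h1 ?_
  intro x hx
  exact ⟨emb x + ζ • el, hx, prj_sec x ζ⟩

end VSA_

open VSA_ in
theorem p_VSA : T_VSA := by
  intro n μ K ζ
  refine ⟨fun L hL => ?_, fun h0 => ?_, fun hne => ?_⟩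
  · have h : ∃ L, IsSec K ζ L := ⟨L, hL⟩
    have h1 : (h.choose : Set (E n)) = sec K ζ := h.choose_spec
    have h2 : (L : Set (E n)) = sec K ζ := hL
    have h3 : h.choose = L := SetLike.coe_injective (h1.trans h2.symm)
    unfold vs
    rw [dif_pos h, h3]
  · unfold vs
    rw [dif_neg]
    rintro ⟨L, hL⟩
    have h1 : (L : Set (E n)) = sec K ζ := hL
    have h2 := L.nonempty
    rw [h1, h0] at h2
    exact Set.not_nonempty_empty h2
  · exact ⟨⟨sec K ζ, sec_convex K ζ, sec_compact K ζ, hne⟩, rfl⟩

end Pool.Agent.GNS
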