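import Pool.Agent.GNS.T5

/-!
# GNS: sections of translates, multiples, unions and intersections (VSB)
-/

set_option autoImplicit false

open Metric Set Filter Topology MeasureTheory

noncomputable section

namespace Pool.Agent.GNS

open Pool.Agent.GLB

namespace VSB_

variable {n : ℕ}

theorem emb_add (x y : E n) : emb (x + y) = emb x + emb y := by
  ext i
  refine Fin.lastCases ?_ (fun j => ?_) i
  · simp [emb]
  · simp [emb]

theorem emb_smul (t : ℝ) (x : E n) : emb (t • x) = t • emb x := by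
  ext i
  refine Fin.lastCases ?_ (fun j => ?_) i
  · simp [emb]
  · simp [emb]

theorem emb_sub (x y : E n) : emb (x - y) = emb x - emb y := by
  have h := emb_add (x - y) y
  rw [sub_add_cancel] at h
  rw [h, add_sub_cancel_right]

theorem mem_add_pt {m : ℕ} (K : ConvexBody (E m)) (x v : E m) : v ∈ K + pt x ↔ v - x ∈ K := by
  have h1 : v ∈ K + pt x ↔ v ∈ ((K + pt x : ConvexBody (E m)) : Set (E m)) := Iff.rfl
  rw [h1, ConvexBody.coe_add]
  constructor
  · rintro ⟨a, ha, b, hb, rfl⟩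
    have hb' : b = x := hb
    rw [hb']
    have h2 : a + x - x = a := by abel
    change a + x - x ∈ (K : Set (E m))
    rw [h2]
    exact ha
  · intro h
    exact ⟨v - x, h, x, rfl, sub_add_cancel v x⟩

theorem mem_smul_iff {m : ℕ} (K : ConvexBody (E m)) {t : ℝ} (ht : 0 < t) (v : E m) :
    v ∈ t • K ↔ t⁻¹ • v ∈ K := by
  have h1 : v ∈ t • K ↔ v ∈ ((t • K : ConvexBody (E m)) : Set (E m)) := Iff.rfl
  rw [h1, ConvexBody.coe_smul]
  exact Set.mem_smul_set_iff_inv_smul_mem₀ ht.ne' _ _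

/-- sections of translates -/
theorem sec_trans (hE : T_EMB) (K : ConvexBody (E (n + 1))) (x : E (n + 1)) (ζ : ℝ) (y : E n) :
    y ∈ sec (K + pt x) ζ ↔ y - prj x ∈ sec K (ζ - hgt x) := by
  have h1 := (hE n).2.1 x
  change emb y + ζ • el ∈ K + pt x ↔ emb (y - prj x) + (ζ - hgt x) • el ∈ K
  rw [mem_add_pt]
  have h2 : emb y + ζ • el - x = emb (y - prj x) + (ζ - hgt x) • (el : E (n + 1)) := by
    conv_lhs => rw [h1]
    rw [emb_sub, sub_smul]
    abel
  rw [h2]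

/-- sections of multiples -/
theorem sec_smul (K : ConvexBody (E (n + 1))) {t : ℝ} (ht : 0 < t) (ζ : ℝ) (y : E n) :
    y ∈ sec (t • K) ζ ↔ t⁻¹ • y ∈ sec K (ζ / t) := by
  change emb y + ζ • el ∈ t • K ↔ emb (t⁻¹ • y) + (ζ / t) • el ∈ K
  rw [mem_smul_iff K ht]
  have h2 : t⁻¹ • (emb y + ζ • el) = emb (t⁻¹ • y) + (ζ / t) • (el : E (n + 1)) := by
    rw [emb_smul, smul_add, smul_smul, div_eq_inv_mul]
  rw [h2]

theorem trans_sec (hA : T_VSA) (hE : T_EMB) {k : ℕ} {μ : ConvexBody (E n) → ℂ}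
    (hμ : IsVal n k μ) (K : ConvexBody (E (n + 1))) (x : E (n + 1)) (ζ : ℝ) :
    vs μ (K + pt x) ζ = vs μ K (ζ - hgt x) := by
  by_cases hne : (sec K (ζ - hgt x)).Nonempty
  · obtain ⟨L, hL⟩ := (hA n μ K (ζ - hgt x)).2.2 hne
    have h1 : IsSec (K + pt x) ζ (L + pt (prj x)) := by
      unfold IsSec
      ext y
      rw [sec_trans hE, ← hL]
      exact mem_add_pt L (prj x) y
    rw [(hA n μ (K + pt x) ζ).1 _ h1, (hA n μ K (ζ - hgt x)).1 _ hL, hμ.trans]
  · have h0 : sec K (ζ - hgt x) = ∅ := Set.not_nonempty_iff_eq_empty.1 hne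
    have h1 : sec (K + pt x) ζ = ∅ := by
      ext y
      rw [sec_trans hE, h0]
      simp
    rw [(hA n μ (K + pt x) ζ).2.1 h1, (hA n μ K (ζ - hgt x)).2.1 h0]

theorem smul_sec (hA : T_VSA) {k : ℕ} {μ : ConvexBody (E n) → ℂ}
    (hμ : IsVal n k μ) (K : ConvexBody (E (n + 1))) (t ζ : ℝ) (ht : 0 < t) :
    vs μ (t • K) ζ = (t : ℂ) ^ k * vs μ K (ζ / t) := by
  by_cases hne : (sec K (ζ / t)).Nonempty
  · obtain ⟨L, hL⟩ := (hA n μ K (ζ / t)).2.2 hne
    have h1 : IsSec (t • K) ζ (t • L) := by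
      unfold IsSec
      ext y
      rw [sec_smul K ht, ← hL]
      exact mem_smul_iff L ht y
    rw [(hA n μ (t • K) ζ).1 _ h1, (hA n μ K (ζ / t)).1 _ hL, hμ.homog L t ht.le]
  · have h0 : sec K (ζ / t) = ∅ := Set.not_nonempty_iff_eq_empty.1 hne
    have h1 : sec (t • K) ζ = ∅ := by
      ext y
      rw [sec_smul K ht, h0]
      simp
    rw [(hA n μ (t • K) ζ).2.1 h1, (hA n μ K (ζ / t)).2.1 h0, mul_zero]

/-- a convex body which is the union of two bodies meets their intersection -/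
theorem inter_nonempty {m : ℕ} {K L M : ConvexBody (E m)}
    (h : (M : Set (E m)) = (K : Set (E m)) ∪ L) : ((K : Set (E m)) ∩ L).Nonempty := by
  have hp : IsPreconnected (M : Set (E m)) := M.convex.isPreconnected
  rw [isPreconnected_closed_iff] at hp
  obtain ⟨x, hx⟩ := K.nonempty
  obtain ⟨y, hy⟩ := L.nonempty
  have h1 := hp K L K.isClosed L.isClosed h.subset ⟨x, h ▸ Or.inl hx, hx⟩ ⟨y, h ▸ Or.inr hy, hy⟩
  exact h1.mono inter_subset_right

theorem sec_union {K L M : ConvexBody (E (n + 1))}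
    (h : (M : Set (E (n + 1))) = (K : Set (E (n + 1))) ∪ L) (ζ : ℝ) :
    sec M ζ = sec K ζ ∪ sec L ζ := by
  ext y
  change emb y + ζ • el ∈ (M : Set (E (n + 1))) ↔ _
  rw [h]
  exact Iff.rfl

theorem sec_inter {K L N : ConvexBody (E (n + 1))}
    (h : (N : Set (E (n + 1))) = (K : Set (E (n + 1))) ∩ L) (ζ : ℝ) :
    sec N ζ = sec K ζ ∩ sec L ζ := by
  ext y
  change emb y + ζ • el ∈ (N : Set (E (n + 1))) ↔ _
  rw [h]
  exact Iff.rfl

/-- bodies with the same section -/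
theorem vs_congr (hA : T_VSA) (μ : ConvexBody (E n) → ℂ) {K L : ConvexBody (E (n + 1))} {ζ : ℝ}
    (h : sec K ζ = sec L ζ) : vs μ K ζ = vs μ L ζ := by
  by_cases hne : (sec K ζ).Nonempty
  · obtain ⟨P, hP⟩ := (hA n μ K ζ).2.2 hne
    have hP' : IsSec L ζ P := by
      unfold IsSec at hP ⊢
      rw [hP, h]
    rw [(hA n μ K ζ).1 _ hP, (hA n μ L ζ).1 _ hP']
  · have h0 : sec K ζ = ∅ := Set.not_nonempty_iff_eq_empty.1 hne
    rw [(hA n μ K ζ).2.1 h0, (hA n μ L ζ).2.1 (h ▸ h0)]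

theorem val_sec (hA : T_VSA) {k : ℕ} {μ : ConvexBody (E n) → ℂ} (hμ : IsVal n k μ)
    (K L M N : ConvexBody (E (n + 1))) (hM : (M : Set (E (n + 1))) = (K : Set (E (n + 1))) ∪ L)
    (hN : (N : Set (E (n + 1))) = (K : Set (E (n + 1))) ∩ L) (ζ : ℝ) :
    vs μ M ζ + vs μ N ζ = vs μ K ζ + vs μ L ζ := by
  have hM' := sec_union hM ζ
  have hN' := sec_inter hN ζ
  by_cases hK : (sec K ζ).Nonempty
  · by_cases hL : (sec L ζ).Nonempty
    · obtain ⟨P, hP⟩ := (hA n μ K ζ).2.2 hK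
      obtain ⟨Q, hQ⟩ := (hA n μ L ζ).2.2 hL
      have hMn : (sec M ζ).Nonempty := by
        rw [hM']
        exact hK.inl
      obtain ⟨A, hAs⟩ := (hA n μ M ζ).2.2 hMn
      have h1 : (A : Set (E n)) = (P : Set (E n)) ∪ Q := by
        unfold IsSec at hP hQ hAs
        rw [hAs, hP, hQ, hM']
      have h2 := inter_nonempty h1
      have hNn : (sec N ζ).Nonempty := by
        unfold IsSec at hP hQ
        rw [hN', ← hP, ← hQ]
        exact h2
      obtain ⟨B, hB⟩ := (hA n μ N ζ).2.2 hNn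
      have h3 : (B : Set (E n)) = (P : Set (E n)) ∩ Q := by
        unfold IsSec at hP hQ hB
        rw [hB, hP, hQ, hN']
      rw [(hA n μ M ζ).1 _ hAs, (hA n μ N ζ).1 _ hB, (hA n μ K ζ).1 _ hP,
        (hA n μ L ζ).1 _ hQ]
      exact hμ.val P Q A B h1 h3
    · have h0 : sec L ζ = ∅ := Set.not_nonempty_iff_eq_empty.1 hL
      rw [h0, union_empty] at hM'
      rw [h0, inter_empty] at hN'
      rw [vs_congr hA μ hM', (hA n μ N ζ).2.1 hN', (hA n μ L ζ).2.1 h0]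
  · have h0 : sec K ζ = ∅ := Set.not_nonempty_iff_eq_empty.1 hK
    rw [h0, empty_union] at hM'
    rw [h0, empty_inter] at hN'
    rw [vs_congr hA μ hM', (hA n μ N ζ).2.1 hN', (hA n μ K ζ).2.1 h0, add_zero, zero_add]

end VSB_

open VSB_ in
theorem p_VSB (h_VSA : T_VSA) (h_EMB : T_EMB) : T_VSB := by
  intro n k μ hμ
  exact ⟨fun K x ζ => trans_sec h_VSA h_EMB hμ K x ζ, fun K t ζ ht => smul_sec h_VSA hμ K t ζ ht,
    fun K L M N hM hN ζ => val_sec h_VSA hμ K L M N hM hN ζ⟩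

end Pool.Agent.GNS
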