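import Pool.Agent.GNS.T5

/-!
# GNS: target VSC, continuity and measurability of the section values
-/

set_option autoImplicit false

open Metric Set Filter Topology MeasureTheory

noncomputable section

namespace Pool.Agent.GNS

open Pool.Agent.GLB

variable {n : ℕ}

theorem VSC_hgt (x : E n) (ζ : ℝ) : hgt (emb x + ζ • el) = ζ := by
  simp [hgt, emb, el, eb, Fin.snoc_last]

theorem VSC_hgt_smul (ζ : ℝ) : hgt (ζ • (el : E (n + 1))) = ζ := by
  simp [hgt, el, eb]

theorem VSC_prj (x : E n) (ζ : ℝ) : prj (emb x + ζ • el) = x := by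
  ext i
  simp [prj, emb, el, eb]

theorem VSC_inner (hEMB : T_EMB) (v : E (n + 1)) : inner ℝ v el = hgt v := by
  rw [real_inner_comm]
  exact (hEMB n).2.2.2.2.1 v

theorem VSC_prj_le (hEMB : T_EMB) (v : E (n + 1)) : ‖prj v‖ ≤ ‖v‖ := by
  have h := (hEMB n).2.2.2.1 v
  exact (sq_le_sq₀ (norm_nonneg _) (norm_nonneg _)).1 (by rw [h]; nlinarith [sq_nonneg (hgt v)])

theorem VSC_hgt_le (hEMB : T_EMB) (v : E (n + 1)) : |hgt v| ≤ ‖v‖ := by
  have h := (hEMB n).2.2.2.1 v
  refine (sq_le_sq₀ (abs_nonneg _) (norm_nonneg _)).1 ?_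
  rw [h, sq_abs]
  nlinarith [sq_nonneg ‖prj v‖]

theorem VSC_empty (hEMB : T_EMB) {K : ConvexBody (E (n + 1))} {ζ : ℝ} (h : supp K el < ζ) :
    sec K ζ = ∅ := by
  rw [Set.eq_empty_iff_forall_notMem]
  intro x hx
  have h1 := (gSUA (n + 1)).1 K _ el hx
  rw [VSC_inner hEMB, VSC_hgt] at h1
  exact absurd h1 (not_le.2 h)

theorem VSC_empty' (hEMB : T_EMB) {K : ConvexBody (E (n + 1))} {ζ : ℝ}
    (h : ζ < -supp K (-el)) : sec K ζ = ∅ := by
  rw [Set.eq_empty_iff_forall_notMem]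
  intro x hx
  have h1 := (gSUA (n + 1)).1 K _ (-el) hx
  rw [inner_neg_right, VSC_inner hEMB, VSC_hgt] at h1
  linarith

theorem VSC_supp {Kj : ℕ → ConvexBody (E n)} {K : ConvexBody (E n)}
    (hK : Tendsto Kj atTop (𝓝 K)) (u : E n) :
    Tendsto (fun j => supp (Kj j) u) atTop (𝓝 (supp K u)) := by
  rw [tendsto_iff_dist_tendsto_zero] at hK ⊢
  have h1 : Tendsto (fun j => dist (Kj j) K * ‖u‖) atTop (𝓝 0) := by
    simpa using hK.mul_const ‖u‖
  refine squeeze_zero (fun j => dist_nonneg) (fun j => ?_) h1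
  rw [Real.dist_eq]
  exact (gSUD n (Kj j) K).1 u

theorem VSC_main (hSCN : T_SCN) (hVSA : T_VSA) (hEMB : T_EMB) {μ : ConvexBody (E n) → ℂ}
    (hμ : Continuous μ) {Kj : ℕ → ConvexBody (E (n + 1))} {K : ConvexBody (E (n + 1))}
    (hK : Tendsto Kj atTop (𝓝 K)) {ζ : ℝ} (h1 : ζ ≠ supp K el) (h2 : ζ ≠ -supp K (-el)) :
    Tendsto (fun j => vs μ (Kj j) ζ) atTop (𝓝 (vs μ K ζ)) := by
  rcases lt_or_gt_of_ne h1 with h | h
  · rcases lt_or_gt_of_ne h2 with h' | h'
    · have h3 : ∀ᶠ j in atTop, ζ < -supp (Kj j) (-el) :=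
        (VSC_supp hK (-el)).neg.eventually (lt_mem_nhds h')
      rw [(hVSA n μ K ζ).2.1 (VSC_empty' hEMB h')]
      refine tendsto_const_nhds.congr' ?_
      filter_upwards [h3] with j hj
      exact ((hVSA n μ (Kj j) ζ).2.1 (VSC_empty' hEMB hj)).symm
    · obtain ⟨q, hq, hq'⟩ := (gSUA (n + 1)).2.1 K el
      obtain ⟨p, hp, hp'⟩ := (gSUA (n + 1)).2.1 K (-el)
      rw [VSC_inner hEMB] at hq'
      rw [inner_neg_right, VSC_inner hEMB] at hp'
      obtain ⟨L, hL, Lj, hLj, hlim⟩ := hSCN n Kj K ζ hK ⟨p, hp, by linarith⟩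
        ⟨q, hq, by rw [hq']; exact h⟩
      rw [(hVSA n μ K ζ).1 L hL]
      refine ((hμ.tendsto L).comp hlim).congr' ?_
      filter_upwards [hLj] with j hj
      exact ((hVSA n μ (Kj j) ζ).1 (Lj j) hj).symm
  · have h3 : ∀ᶠ j in atTop, supp (Kj j) el < ζ :=
      (VSC_supp hK el).eventually (gt_mem_nhds h)
    rw [(hVSA n μ K ζ).2.1 (VSC_empty hEMB h)]
    refine tendsto_const_nhds.congr' ?_
    filter_upwards [h3] with j hj
    exact ((hVSA n μ (Kj j) ζ).2.1 (VSC_empty hEMB hj)).symm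

theorem VSC_pt {x : ℕ → E n} (hx : Tendsto x atTop (𝓝 0)) :
    Tendsto (fun j => pt (x j)) atTop (𝓝 (pt (0 : E n))) := by
  rw [tendsto_iff_dist_tendsto_zero]
  have h1 : Tendsto (fun j => ‖x j‖) atTop (𝓝 0) := by simpa using hx.norm
  refine squeeze_zero (fun j => dist_nonneg) (fun j => ?_) h1
  refine (gSUD n _ _).2 _ (norm_nonneg _) ?_
  intro u hu
  rw [(gSUA n).2.2.2.2.1, (gSUA n).2.2.2.2.1, inner_zero_left, sub_zero]
  have h2 := abs_real_inner_le_norm (x j) u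
  rwa [hu, mul_one] at h2

theorem VSC_add_zero (K : ConvexBody (E n)) : K + pt (0 : E n) = K := by
  refine (gSUL n _ _).2.1 fun u => ?_
  rw [(gSUA n).2.2.1, (gSUA n).2.2.2.2.1, inner_zero_left, add_zero]

theorem VSC_cont (hSCN : T_SCN) (hVSA : T_VSA) (hVSB : T_VSB) (hEMB : T_EMB) {k : ℕ}
    {μ : ConvexBody (E n) → ℂ} (hμ : IsVal n k μ) (K : ConvexBody (E (n + 1))) {ζ : ℝ}
    (h1 : ζ ≠ supp K el) (h2 : ζ ≠ -supp K (-el)) : ContinuousAt (vs μ K) ζ := by
  refine tendsto_of_seq_tendsto fun y hy => ?_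
  have h3 : Tendsto (fun j => (ζ - y j) • (el : E (n + 1))) atTop (𝓝 0) := by
    have h4 : Tendsto (fun j => ζ - y j) atTop (𝓝 0) := by
      simpa using (tendsto_const_nhds (x := ζ)).sub hy
    simpa using h4.smul_const (el : E (n + 1))
  have h5 : Tendsto (fun j => K + pt ((ζ - y j) • (el : E (n + 1)))) atTop (𝓝 K) := by
    have h6 := add_tendsto (tendsto_const_nhds (x := K) (f := (atTop : Filter ℕ))) (VSC_pt h3)
    rwa [VSC_add_zero] at h6
  have h7 := VSC_main hSCN hVSA hEMB hμ.cont h5 h1 h2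
  refine h7.congr fun j => ?_
  rw [(hVSB n k μ hμ).1, VSC_hgt_smul]
  congr 1
  ring

/-- VSC -/
theorem p_VSC (hSCN : T_SCN) (hVSA : T_VSA) (hVSB : T_VSB) (hEMB : T_EMB) : T_VSC := by
  intro n k μ hμ
  refine ⟨?_, ?_, ?_⟩
  · intro Kj K hK
    have h1 : ∀ᵐ ζ : ℝ, ζ ≠ supp K el := by
      simp [ae_iff, measure_singleton]
    have h2 : ∀ᵐ ζ : ℝ, ζ ≠ -supp K (-el) := by
      simp [ae_iff, measure_singleton]
    filter_upwards [h1, h2] with ζ h3 h4
    exact VSC_main hSCN hVSA hEMB hμ.cont hK h3 h4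
  · intro K
    have h1 : ContinuousOn (vs μ K) ({supp K el, -supp K (-el)} : Set ℝ)ᶜ := by
      intro ζ hζ
      rw [Set.mem_compl_iff, Set.mem_insert_iff, Set.mem_singleton_iff, not_or] at hζ
      exact (VSC_cont hSCN hVSA hVSB hEMB hμ K hζ.1 hζ.2).continuousWithinAt
    have h2 : MeasurableSet (({supp K el, -supp K (-el)} : Set ℝ)ᶜ) :=
      (Set.toFinite _).measurableSet.compl
    have h3 := h1.aestronglyMeasurable (μ := volume) h2
    have h4 : (volume : Measure ℝ).restrict (({supp K el, -supp K (-el)} : Set ℝ)ᶜ) =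
        volume := by
      refine Measure.restrict_eq_self_of_ae_mem ?_
      have h5 : volume ({supp K el, -supp K (-el)} : Set ℝ) = 0 :=
        (Set.toFinite _).measure_zero volume
      exact compl_mem_ae_iff.2 h5
    rwa [h4] at h3
  · intro R
    obtain ⟨C, hC⟩ := (gBLA n R).exists_bound_of_continuousOn hμ.cont.continuousOn
    refine ⟨max C 0, fun K hK ζ => ⟨?_, ?_⟩⟩
    · by_cases hne : (sec K ζ).Nonempty
      · obtain ⟨L, hL⟩ := (hVSA n μ K ζ).2.2 hne
        rw [(hVSA n μ K ζ).1 L hL]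
        refine (hC L ?_).trans (le_max_left _ _)
        intro x hx
        have hx' : x ∈ sec K ζ := by
          have h6 : (L : Set (E n)) = sec K ζ := hL
          rw [← h6]
          exact hx
        have h7 : emb x + ζ • el ∈ (K : Set (E (n + 1))) := hx'
        have h8 := hK h7
        rw [mem_closedBall, dist_zero_right] at h8 ⊢
        have h9 := VSC_prj_le hEMB (emb x + ζ • el)
        rw [VSC_prj] at h9
        exact h9.trans h8
      · rw [(hVSA n μ K ζ).2.1 (Set.not_nonempty_iff_eq_empty.1 hne), norm_zero]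
        exact le_max_right _ _
    · intro hR
      refine (hVSA n μ K ζ).2.1 ?_
      rw [Set.eq_empty_iff_forall_notMem]
      intro x hx
      have h7 : emb x + ζ • el ∈ (K : Set (E (n + 1))) := hx
      have h8 := hK h7
      rw [mem_closedBall, dist_zero_right] at h8
      have h9 := VSC_hgt_le hEMB (emb x + ζ • el)
      rw [VSC_hgt] at h9
      linarith

end Pool.Agent.GNS
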