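import Pool.Agent.GNS.T4

/-!
# GNS: sums of valuations
-/

set_option autoImplicit false

open Metric Set Filter Topology MeasureTheory

noncomputable section

namespace Pool.Agent.GNS

open Pool.Agent.GLB

namespace VSM_

theorem ball {n : ℕ} (K : ConvexBody (E n)) :
    ∃ R : ℝ, 0 < R ∧ (K : Set (E n)) ⊆ closedBall 0 R := by
  obtain ⟨R, hR⟩ := K.isBounded.subset_closedBall (0 : E n)
  exact ⟨max R 1, lt_of_lt_of_le one_pos (le_max_right _ _),
    hR.trans (closedBall_subset_closedBall (le_max_left _ _))⟩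

theorem near {n : ℕ} (K L : ConvexBody (E n)) (R : ℝ) (hR : 0 < R)
    (hK : (K : Set (E n)) ⊆ closedBall 0 R) (hd : dist L K < 1) :
    (L : Set (E n)) ⊆ closedBall 0 (R + 1) := by
  refine (gSUL n L L).2.2 (R + 1) (by linarith) ?_
  intro u
  have h1 := ((gSUH n K).2.2.2.2 R hK).1 u
  have h2 := (gSUD n L K).1 u
  have h3 := (abs_le.1 h1).2
  have h4 := (abs_le.1 h2).2
  have h5 : dist L K * ‖u‖ ≤ 1 * ‖u‖ := mul_le_mul_of_nonneg_right hd.le (norm_nonneg _)
  linarith

end VSM_

theorem p_VSM (hVBR : T_VBR) : T_VSM := by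
  intro n μ C hμ hC a ha
  have hb : ∀ R : ℝ, 0 < R → ∀ (N : ℕ) (K : ConvexBody (E n)),
      (K : Set (E n)) ⊆ closedBall 0 R → ‖a N * μ N K‖ ≤ ‖a N‖ * (R ^ 2 * C) := by
    intro R hR N K hK
    rw [norm_mul]
    exact mul_le_mul_of_nonneg_left (hVBR n (μ N) C (hμ N) (hC N) R hR K hK) (norm_nonneg _)
  have hs : ∀ K, Summable fun N => a N * μ N K := by
    intro K
    obtain ⟨R, hR, hK⟩ := VSM_.ball K
    exact Summable.of_norm_bounded (ha.mul_right (R ^ 2 * C)) (fun N => hb R hR N K hK)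
  refine ⟨hs, ?_, ?_, ?_, ?_⟩
  · rw [continuous_iff_continuousAt]
    intro K₀
    obtain ⟨R, hR, hK⟩ := VSM_.ball K₀
    have hc : ContinuousOn (fun K => ∑' N, a N * μ N K) (Metric.ball K₀ 1) := by
      refine continuousOn_tsum (u := fun N => ‖a N‖ * ((R + 1) ^ 2 * C)) ?_
        (ha.mul_right ((R + 1) ^ 2 * C)) ?_
      · intro N
        exact (continuous_const.mul (hμ N).cont).continuousOn
      · intro N K hKm
        exact hb (R + 1) (by linarith) N K (VSM_.near K₀ K R hR hK (mem_ball.1 hKm))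
    exact hc.continuousAt (ball_mem_nhds K₀ one_pos)
  · intro K x
    exact tsum_congr fun N => by rw [(hμ N).trans]
  · intro K t ht
    rw [← tsum_mul_left]
    refine tsum_congr fun N => ?_
    rw [(hμ N).homog K t ht]
    ring
  · intro K L M M' h1 h2
    rw [← (hs M).tsum_add (hs M'), ← (hs K).tsum_add (hs L)]
    refine tsum_congr fun N => ?_
    have h := (hμ N).val K L M M' h1 h2
    rw [← mul_add, ← mul_add, h]

end Pool.Agent.GNS
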