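import Pool.Agent.GNS.T3

/-!
# GNS: target WAV, domination by waves
-/

set_option autoImplicit false

open Metric Set Filter Topology MeasureTheory

noncomputable section

namespace Pool.Agent.GNS

open Pool.Agent.GLB

namespace WAV_

variable {m : ℕ}

theorem two {f : E m → ℝ} (h : SmE f) : ContDiff ℝ 2 f :=
  ContDiff.of_le (show ContDiff ℝ ((⊤ : ℕ∞) : WithTop ℕ∞) f from h)
    (show ((2 : ℕ∞) : WithTop ℕ∞) ≤ ((⊤ : ℕ∞) : WithTop ℕ∞) from WithTop.coe_le_coe.2 le_top)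

theorem cont_D2 {f : E m → ℝ} (h : SmE f) (v w : E m) : Continuous fun x => D2 f x v w :=
  ((gPRD m).2.2.2.2.2.2 f (two h)).comp
    (Continuous.prodMk continuous_id (continuous_const (y := (v, w))))

/-- linearity on test functions -/
structure Lin (F : (E m → ℂ) → ℂ) : Prop where
  add : ∀ φ ψ, Tf 4 φ → Tf 4 ψ → F (fun x => φ x + ψ x) = F φ + F ψ
  smul : ∀ (c : ℂ) φ, Tf 4 φ → F (fun x => c * φ x) = c * F φ

theorem Tf_zero : Tf 4 (fun _ : E m => (0 : ℂ)) := ⟨continuous_const, fun _ _ => rfl⟩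

theorem Tf_sum {κ : Type} (s : Finset κ) (g : κ → E m → ℂ) (h : ∀ a, Tf 4 (g a)) :
    Tf 4 (fun x => ∑ a ∈ s, g a x) :=
  ⟨continuous_finsetSum _ fun a _ => (h a).cont,
    fun x hx => Finset.sum_eq_zero fun a _ => (h a).out x hx⟩

theorem Tf_mul {φ : E m → ℂ} (h : Tf 4 φ) {g : E m → ℂ} (hg : Continuous g) :
    Tf 4 (fun x => φ x * g x) :=
  ⟨h.cont.mul hg, fun x hx => by rw [h.out x hx, zero_mul]⟩

theorem Tf_cmul {φ : E m → ℂ} (h : Tf 4 φ) (c : ℂ) : Tf 4 (fun x => c * φ x) :=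
  ⟨continuous_const.mul h.cont, fun x hx => by rw [h.out x hx, mul_zero]⟩

theorem Lin.zero {F : (E m → ℂ) → ℂ} (hF : Lin F) : F (fun _ => 0) = 0 := by
  have h := hF.smul 0 (fun _ => 0) Tf_zero
  simpa using h

theorem Lin.sum {F : (E m → ℂ) → ℂ} (hF : Lin F) {κ : Type} (s : Finset κ)
    (g : κ → E m → ℂ) (h : ∀ a, Tf 4 (g a)) :
    F (fun x => ∑ a ∈ s, g a x) = ∑ a ∈ s, F (g a) := by
  classical
  induction s using Finset.induction_on with
  | empty => simpa using hF.zero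
  | insert a s ha ih =>
    have h1 : (fun x => ∑ b ∈ insert a s, g b x) = fun x => g a x + ∑ b ∈ s, g b x := by
      funext x
      rw [Finset.sum_insert ha]
    rw [h1, hF.add _ _ (h a) (Tf_sum s g h), ih, Finset.sum_insert ha]

theorem four (f : Fin m → Fin m → Fin m → Fin m → ℂ) :
    ∑ i, ∑ j, ∑ k, ∑ l, f i j k l =
      ∑ p : (Fin m × Fin m) × (Fin m × Fin m), f p.1.1 p.1.2 p.2.1 p.2.2 := by
  rw [Fintype.sum_prod_type, Fintype.sum_prod_type]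
  refine Finset.sum_congr rfl fun i _ => Finset.sum_congr rfl fun j _ => ?_
  rw [Fintype.sum_prod_type]

theorem swap4 (f : Fin m → Fin m → Fin m → Fin m → ℂ) :
    ∑ i, ∑ j, ∑ k, ∑ l, f i j k l = ∑ i, ∑ j, ∑ k, ∑ l, f k l i j := by
  rw [four f, four (fun i j k l => f k l i j)]
  exact (Equiv.sum_comp (Equiv.prodComm (Fin m × Fin m) (Fin m × Fin m))
    (fun p : (Fin m × Fin m) × (Fin m × Fin m) => f p.1.1 p.1.2 p.2.1 p.2.2)).symm

theorem comm4 {κ : Type} [Fintype κ] (f : Fin m → Fin m → Fin m → Fin m → κ → ℂ) :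
    ∑ i, ∑ j, ∑ k, ∑ l, ∑ a, f i j k l a = ∑ a, ∑ i, ∑ j, ∑ k, ∑ l, f i j k l a := by
  rw [four fun i j k l => ∑ a, f i j k l a, Finset.sum_comm]
  exact Finset.sum_congr rfl fun a _ => (four fun i j k l => f i j k l a).symm

theorem add4 (f g : Fin m → Fin m → Fin m → Fin m → ℂ) :
    ∑ i, ∑ j, ∑ k, ∑ l, (f i j k l + g i j k l) =
      (∑ i, ∑ j, ∑ k, ∑ l, f i j k l) + ∑ i, ∑ j, ∑ k, ∑ l, g i j k l := by
  simp only [Finset.sum_add_distrib]

theorem mul4 (c : ℂ) (f : Fin m → Fin m → Fin m → Fin m → ℂ) :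
    ∑ i, ∑ j, ∑ k, ∑ l, c * f i j k l = c * ∑ i, ∑ j, ∑ k, ∑ l, f i j k l := by
  simp only [Finset.mul_sum]

theorem norm4 (f : Fin m → Fin m → Fin m → Fin m → ℂ) (b : ℝ) (h : ∀ i j k l, ‖f i j k l‖ ≤ b) :
    ‖∑ i, ∑ j, ∑ k, ∑ l, f i j k l‖ ≤ (m : ℝ) ^ 4 * b := by
  have h1 : ∀ (g : Fin m → ℂ) (c : ℝ), (∀ i, ‖g i‖ ≤ c) → ‖∑ i, g i‖ ≤ m * c := by
    intro g c hg
    refine (norm_sum_le_of_le _ fun i _ => hg i).trans ?_
    simp
  have h2 := h1 _ _ fun i => h1 _ _ fun j => h1 _ _ fun k => h1 _ _ fun l => h i j k l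
  refine h2.trans (le_of_eq ?_)
  ring

theorem alg {ι : Type} [Fintype ι] (F : Fin m → Fin m → Fin m → Fin m → (E m → ℂ) → ℂ)
    (hF : ∀ i j k l, Lin (F i j k l))
    (hs : ∀ i j k l φ, Tf 4 φ → F i j k l φ = F k l i j φ)
    (ξ : ι → E m) (Y : ι → ι → E m → ℂ) (hY : ∀ k l, Tf 4 (Y k l)) :
    ∑ i, ∑ j, ∑ i', ∑ j', F i j i' j' (fun x => ∑ k, ∑ l,
      (((ξ k i * ξ k j) * (ξ l i' * ξ l j') + (ξ l i * ξ l j) * (ξ k i' * ξ k j') : ℝ) : ℂ) *
        Y k l x) =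
    2 * ∑ k, ∑ l, ∑ i, ∑ j, ∑ i', ∑ j', F i j i' j' (fun x => Y k l x *
      ((ξ k i * ξ k j : ℝ) : ℂ) * ((ξ l i' * ξ l j' : ℝ) : ℂ)) := by
  have e1 : ∀ i j i' j', F i j i' j' (fun x => ∑ k, ∑ l,
      (((ξ k i * ξ k j) * (ξ l i' * ξ l j') + (ξ l i * ξ l j) * (ξ k i' * ξ k j') : ℝ) : ℂ) *
        Y k l x) =
      (∑ k, ∑ l, (((ξ k i * ξ k j) * (ξ l i' * ξ l j') : ℝ) : ℂ) * F i j i' j' (Y k l)) +
      ∑ k, ∑ l, (((ξ l i * ξ l j) * (ξ k i' * ξ k j') : ℝ) : ℂ) * F i j i' j' (Y k l) := by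
    intro i j i' j'
    have h1 : ∀ k, Tf 4 fun x : E m => ∑ l,
        (((ξ k i * ξ k j) * (ξ l i' * ξ l j') + (ξ l i * ξ l j) * (ξ k i' * ξ k j') : ℝ) : ℂ) *
        Y k l x := fun k => Tf_sum _ _ fun l => Tf_cmul (hY k l) _
    rw [(hF i j i' j').sum Finset.univ _ h1, ← Finset.sum_add_distrib]
    refine Finset.sum_congr rfl fun k _ => ?_
    rw [(hF i j i' j').sum Finset.univ _ fun l => Tf_cmul (hY k l) _, ← Finset.sum_add_distrib]
    refine Finset.sum_congr rfl fun l _ => ?_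
    rw [(hF i j i' j').smul _ _ (hY k l)]
    push_cast
    ring
  have e2 : ∀ k l i j i' j', F i j i' j' (fun x => Y k l x *
      ((ξ k i * ξ k j : ℝ) : ℂ) * ((ξ l i' * ξ l j' : ℝ) : ℂ)) =
      (((ξ k i * ξ k j) * (ξ l i' * ξ l j') : ℝ) : ℂ) * F i j i' j' (Y k l) := by
    intro k l i j i' j'
    rw [← (hF i j i' j').smul _ _ (hY k l)]
    congr 1
    funext x
    push_cast
    ring
  have e3 : ∑ i, ∑ j, ∑ i', ∑ j', F i j i' j' (fun x => ∑ k, ∑ l,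
      (((ξ k i * ξ k j) * (ξ l i' * ξ l j') + (ξ l i * ξ l j) * (ξ k i' * ξ k j') : ℝ) : ℂ) *
        Y k l x) =
      (∑ i, ∑ j, ∑ i', ∑ j', ∑ k, ∑ l, (((ξ k i * ξ k j) * (ξ l i' * ξ l j') : ℝ) : ℂ) *
        F i j i' j' (Y k l)) +
      ∑ i, ∑ j, ∑ i', ∑ j', ∑ k, ∑ l, (((ξ l i * ξ l j) * (ξ k i' * ξ k j') : ℝ) : ℂ) *
        F i j i' j' (Y k l) := by
    rw [← add4]
    exact Finset.sum_congr rfl fun i _ => Finset.sum_congr rfl fun j _ =>
      Finset.sum_congr rfl fun i' _ => Finset.sum_congr rfl fun j' _ => e1 i j i' j'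
  have e4 : (∑ i, ∑ j, ∑ i', ∑ j', ∑ k, ∑ l, (((ξ l i * ξ l j) * (ξ k i' * ξ k j') : ℝ) : ℂ) *
        F i j i' j' (Y k l)) =
      ∑ i, ∑ j, ∑ i', ∑ j', ∑ k, ∑ l, (((ξ k i * ξ k j) * (ξ l i' * ξ l j') : ℝ) : ℂ) *
        F i j i' j' (Y k l) := by
    rw [swap4]
    refine Finset.sum_congr rfl fun i _ => Finset.sum_congr rfl fun j _ =>
      Finset.sum_congr rfl fun i' _ => Finset.sum_congr rfl fun j' _ =>
      Finset.sum_congr rfl fun k _ => Finset.sum_congr rfl fun l _ => ?_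
    rw [hs i' j' i j _ (hY k l)]
    congr 2
    ring
  have e5 : (∑ i, ∑ j, ∑ i', ∑ j', ∑ k, ∑ l, (((ξ k i * ξ k j) * (ξ l i' * ξ l j') : ℝ) : ℂ) *
        F i j i' j' (Y k l)) =
      ∑ k, ∑ l, ∑ i, ∑ j, ∑ i', ∑ j', (((ξ k i * ξ k j) * (ξ l i' * ξ l j') : ℝ) : ℂ) *
        F i j i' j' (Y k l) := by
    rw [comm4]
    refine Finset.sum_congr rfl fun k _ => ?_
    rw [comm4]
  rw [e3, e4, ← two_mul, e5]
  congr 1
  exact Finset.sum_congr rfl fun k _ => Finset.sum_congr rfl fun l _ =>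
    Finset.sum_congr rfl fun i _ => Finset.sum_congr rfl fun j _ =>
    Finset.sum_congr rfl fun i' _ => Finset.sum_congr rfl fun j' _ => (e2 k l i j i' j').symm

theorem phase_sum (a : ℝ) :
    ∑ j : Fin 4, Real.cos (a + ((j : ℕ) : ℝ) * (Real.pi / 2)) = 0 := by
  have h1 : Real.cos (a + Real.pi / 2) = -Real.sin a := Real.cos_add_pi_div_two a
  have h2 : Real.cos (a + Real.pi) = -Real.cos a := Real.cos_add_pi a
  have h3 : Real.cos (a + Real.pi + Real.pi / 2) = Real.sin a := by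
    rw [Real.cos_add_pi_div_two, Real.sin_add_pi, neg_neg]
  rw [Fin.sum_univ_four]
  have e0 : a + (((0 : Fin 4) : ℕ) : ℝ) * (Real.pi / 2) = a := by simp
  have e1 : a + (((1 : Fin 4) : ℕ) : ℝ) * (Real.pi / 2) = a + Real.pi / 2 := by simp
  have e2 : a + (((2 : Fin 4) : ℕ) : ℝ) * (Real.pi / 2) = a + Real.pi := by
    simp
    ring
  have e3 : a + (((3 : Fin 4) : ℕ) : ℝ) * (Real.pi / 2) = a + Real.pi + Real.pi / 2 := by
    simp
    ring
  rw [e0, e1, e2, e3, h1, h2, h3]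
  ring

theorem phase_sq (a : ℝ) :
    ∑ j : Fin 4, Real.cos (a + ((j : ℕ) : ℝ) * (Real.pi / 2)) ^ 2 = 2 := by
  have h1 : Real.cos (a + Real.pi / 2) = -Real.sin a := Real.cos_add_pi_div_two a
  have h2 : Real.cos (a + Real.pi) = -Real.cos a := Real.cos_add_pi a
  have h3 : Real.cos (a + Real.pi + Real.pi / 2) = Real.sin a := by
    rw [Real.cos_add_pi_div_two, Real.sin_add_pi, neg_neg]
  rw [Fin.sum_univ_four]
  have e0 : a + (((0 : Fin 4) : ℕ) : ℝ) * (Real.pi / 2) = a := by simp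
  have e1 : a + (((1 : Fin 4) : ℕ) : ℝ) * (Real.pi / 2) = a + Real.pi / 2 := by simp
  have e2 : a + (((2 : Fin 4) : ℕ) : ℝ) * (Real.pi / 2) = a + Real.pi := by
    simp
    ring
  have e3 : a + (((3 : Fin 4) : ℕ) : ℝ) * (Real.pi / 2) = a + Real.pi + Real.pi / 2 := by
    simp
    ring
  rw [e0, e1, e2, e3, h1, h2, h3]
  have := Real.sin_sq_add_cos_sq a
  nlinarith

theorem mean (h_PHS : T_PHS) {ι : Type} [Fintype ι] [DecidableEq ι]
    (ψ : ι → ι → ℂ) (hψ : ∀ k, ψ k k = 0) (c : ι → Fin 4 → ℝ)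
    (h1 : ∀ k, ∑ j, c k j = 0) (h2 : ∀ k, ∑ j, c k j ^ 2 = 2)
    (h h' : ℝ) (u v : ι → ℝ) :
    ∑ θ : ι → Fin 4, (∑ k, ∑ l, ψ k l * (c k (θ k) : ℂ) * (c l (θ l) : ℂ)) *
      ((h + ∑ a, u a * c a (θ a) : ℝ) : ℂ) * ((h' + ∑ a, v a * c a (θ a) : ℝ) : ℂ) =
    (4 : ℂ) ^ Fintype.card ι * ∑ k, ∑ l, ψ k l * (((u k * v l + u l * v k) / 4 : ℝ) : ℂ) := by
  have e1 : ∀ θ : ι → Fin 4, (∑ k, ∑ l, ψ k l * (c k (θ k) : ℂ) * (c l (θ l) : ℂ)) *
      ((h + ∑ a, u a * c a (θ a) : ℝ) : ℂ) * ((h' + ∑ a, v a * c a (θ a) : ℝ) : ℂ) =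
      ∑ k, ∑ l, ψ k l * ((c k (θ k) * c l (θ l) * (h + ∑ a, u a * c a (θ a)) *
        (h' + ∑ a, v a * c a (θ a)) : ℝ) : ℂ) := by
    intro θ
    rw [Finset.sum_mul, Finset.sum_mul]
    refine Finset.sum_congr rfl fun k _ => ?_
    rw [Finset.sum_mul, Finset.sum_mul]
    refine Finset.sum_congr rfl fun l _ => ?_
    push_cast
    ring
  rw [Finset.sum_congr rfl fun θ _ => e1 θ, Finset.sum_comm, Finset.mul_sum]
  refine Finset.sum_congr rfl fun k _ => ?_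
  rw [Finset.sum_comm, Finset.mul_sum]
  refine Finset.sum_congr rfl fun l _ => ?_
  by_cases hkl : k = l
  · subst hkl
    simp [hψ]
  · rw [← Finset.mul_sum, ← Complex.ofReal_sum, h_PHS ι c h1 h2 k l hkl h h' u v]
    push_cast
    ring

theorem D2_lin (h_RTS : T_RTS) (R : ℝ) {f : E m → ℝ} (hf : SmE f) (x v w : E m) :
    D2 (fun y => R * rt y + f y) x v w = R * D2 rt x v w + D2 f x v w := by
  have hrt := (h_RTS m).1
  have h1 : ContDiff ℝ 2 fun y : E m => R * rt y := contDiff_const.mul (two hrt)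
  rw [(gPRD m).2.2.1 _ _ h1 (two hf), (gPRD m).2.2.2.1 R _ (two hrt)]

theorem SmE_lin (h_RTS : T_RTS) (R : ℝ) {f : E m → ℝ} (hf : SmE f) :
    SmE fun y => R * rt y + f y := by
  have hrt : ContDiff ℝ ((⊤ : ℕ∞) : WithTop ℕ∞) (rt : E m → ℝ) := (h_RTS m).1
  have hf' : ContDiff ℝ ((⊤ : ℕ∞) : WithTop ℕ∞) f := hf
  exact (contDiff_const.mul hrt).add hf'

theorem D2_zero {f : E m → ℝ} (h : ∀ x, 4 ≤ ‖x‖ → f x = 0) (x v w : E m) (hx : 4 < ‖x‖) :
    D2 f x v w = 0 := by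
  have h1 : f =ᶠ[𝓝 x] fun _ => (0 : ℝ) := by
    have h2 : ∀ᶠ y in 𝓝 x, 4 < ‖y‖ := (continuous_norm.tendsto x).eventually (lt_mem_nhds hx)
    filter_upwards [h2] with y hy
    exact h y hy.le
  rw [(gPRD m).2.2.2.2.2.1 f _ x h1 v w]
  unfold D2
  simp

/-- the convex body of the wave packet -/
theorem body (h_LFE : T_LFE) (h_RTS : T_RTS) (hm : 1 ≤ m) {R c : ℝ} (hR : 0 < R)
    {f : E m → ℝ} (hf : Lc R c f) : ∃ L : ConvexBody (E (m + 1)), IsLf R f L := by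
  refine h_LFE m R f hm hR hf.sm (fun x hx => hf.out x (by linarith)) ?_
  intro x hx v
  rcases le_or_gt ‖x‖ 4 with h4 | h4
  · refine le_trans ?_ (hf.cvx x h4 v)
    have := hf.cpos
    positivity
  · rw [D2_lin h_RTS R hf.sm, D2_zero hf.out x v v h4, add_zero]
    have h1 := (h_RTS m).2 x hx v
    have h2 : 0 ≤ ‖v‖ ^ 2 / 150 := by positivity
    exact mul_nonneg hR.le (h2.trans h1)

theorem eb_norm (i : Fin m) : ‖(eb i : E m)‖ = 1 := by
  unfold eb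
  simp

theorem eb_inner (ξ : E m) (i : Fin m) : inner ℝ ξ (eb i : E m) = ξ i := by
  unfold eb
  simp [EuclideanSpace.inner_single_right]

theorem err {φ : ℂ} {H H' G G' δ K : ℝ} (hφ : ‖φ‖ ≤ 1) (h1 : |H - G| ≤ δ) (h2 : |H' - G'| ≤ δ)
    (h3 : |G| ≤ K) (h4 : |G'| ≤ K) :
    ‖φ * (H : ℂ) * (H' : ℂ) - φ * (G : ℂ) * (G' : ℂ)‖ ≤ δ * (2 * K + δ) := by
  have hδ : 0 ≤ δ := (abs_nonneg _).trans h1
  have hK : 0 ≤ K := (abs_nonneg _).trans h3
  have e : φ * (H : ℂ) * (H' : ℂ) - φ * (G : ℂ) * (G' : ℂ) =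
      φ * (((H - G) * H' + G * (H' - G') : ℝ) : ℂ) := by
    push_cast
    ring
  rw [e, norm_mul, Complex.norm_real, Real.norm_eq_abs]
  have h5 : |H'| ≤ K + δ := by
    have : H' = G' + (H' - G') := by ring
    rw [this]
    exact (abs_add_le _ _).trans (add_le_add h4 h2)
  have h6 : |(H - G) * H' + G * (H' - G')| ≤ δ * (2 * K + δ) := by
    refine (abs_add_le _ _).trans ?_
    rw [abs_mul, abs_mul]
    have h7 : |H - G| * |H'| ≤ δ * (K + δ) := mul_le_mul h1 h5 (abs_nonneg _) hδ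
    have h8 : |G| * |H' - G'| ≤ K * δ := mul_le_mul h3 h2 (abs_nonneg _) hK
    nlinarith
  calc ‖φ‖ * |(H - G) * H' + G * (H' - G')| ≤ 1 * (δ * (2 * K + δ)) :=
        mul_le_mul hφ h6 (abs_nonneg _) zero_le_one
    _ = δ * (2 * K + δ) := one_mul _

theorem Cnn (Ψ : ConvexBody (E (m + 1)) → (C(S (m + 1), ℂ) →L[ℂ] ℂ)) (C' : ℝ)
    (h : PB Ψ C') : 0 ≤ C' := by
  have h1 := h (pt 0) (by
    intro y hy
    have : y = 0 := by simpa [pt] using hy
    rw [this]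
    exact mem_closedBall_self zero_le_one) 1
  have : Nonempty (S (m + 1)) := ⟨⟨eb 0, by simp [eb_norm]⟩⟩
  rw [norm_one, mul_one] at h1
  exact (norm_nonneg _).trans h1

end WAV_

open WAV_

theorem p_WAV (h_STR : T_STR) (h_PHS : T_PHS) (h_WDD : T_WDD) (h_B4P : T_B4P) (h_LFE : T_LFE)
    (h_LFP : T_LFP) (h_PBR : T_PBR) (h_RTS : T_RTS) (h_HAT : T_HAT) : T_WAV := by
  classical
  intro m Ψ hm hΨ C' hPB R c M f0 hR hc hM hf0 hf0z hf0M ι _ ξ α hα hα0 hαz hdom ψ hψ hψ0 hψ1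
  have hC' := Cnn Ψ C' hPB
  obtain ⟨C0, hC0, hB4⟩ := h_B4P
  obtain ⟨B, hB, hW⟩ := h_WDD m f0 hf0 hf0z ι ξ α hα hαz
  -- the linear forms
  have hLin : ∀ i j k l, Lin (B4 Ψ i j k l) := by
    intro i j k l
    refine ⟨fun φ ψ' h1 h2 => ?_, fun a φ h1 => ?_⟩
    · exact (hB4 m Ψ hΨ 4 φ ψ' h1 h2 i j k l).1
    · exact (hB4 m Ψ hΨ 4 φ φ h1 h1 i j k l).2.1 a
  have hsym : ∀ i j k l φ, Tf 4 φ → B4 Ψ i j k l φ = B4 Ψ k l i j φ := fun i j k l φ h =>
    (hB4 m Ψ hΨ 4 φ φ h h i j k l).2.2.1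
  have hbd : ∀ i j k l φ, Tf 4 φ → ∀ b : ℝ, 0 ≤ b → (∀ x, ‖φ x‖ ≤ b) →
      ‖B4 Ψ i j k l φ‖ ≤ C0 * C' * b := fun i j k l φ h b hb hφ =>
    (hB4 m Ψ hΨ 4 φ φ h h i j k l).2.2.2 C' b hPB hb hφ
  -- the matrices
  obtain ⟨H0, hH0⟩ : ∃ H0 : Fin m → Fin m → E m → ℝ,
      H0 = fun i j x => D2 (fun y => R * rt y + f0 y) x (eb i) (eb j) := ⟨_, rfl⟩
  have hH0c : ∀ i j, Continuous (H0 i j) := by
    intro i j
    rw [hH0]
    exact cont_D2 (SmE_lin h_RTS R hf0) _ _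
  have hαc : ∀ a, Continuous (α a) := fun a => ContDiff.continuous (hα a)
  obtain ⟨K, hK⟩ : ∃ K : ℝ, ∀ i j x, ‖x‖ ≤ 4 →
      |H0 i j x| + ∑ a, |α a x * (ξ a i * ξ a j)| ≤ K := by
    have hcont : Continuous fun x : E m => ∑ i, ∑ j,
        (|H0 i j x| + ∑ a, |α a x * (ξ a i * ξ a j)|) := by
      refine continuous_finsetSum _ fun i _ => continuous_finsetSum _ fun j _ => ?_
      refine (hH0c i j).abs.add (continuous_finsetSum _ fun a _ => ?_)
      exact ((hαc a).mul continuous_const).abs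
    obtain ⟨K, hK⟩ := (isCompact_closedBall (0 : E m) 4).exists_bound_of_continuousOn
      hcont.continuousOn
    refine ⟨K, fun i j x hx => ?_⟩
    have h1 := hK x (by simpa using hx)
    have h2 : ∀ i j, 0 ≤ |H0 i j x| + ∑ a, |α a x * (ξ a i * ξ a j)| := fun i j =>
      add_nonneg (abs_nonneg _) (Finset.sum_nonneg fun a _ => abs_nonneg _)
    have h3 : |H0 i j x| + ∑ a, |α a x * (ξ a i * ξ a j)| ≤
        ∑ j, (|H0 i j x| + ∑ a, |α a x * (ξ a i * ξ a j)|) :=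
      Finset.single_le_sum (f := fun j => |H0 i j x| + ∑ a, |α a x * (ξ a i * ξ a j)|)
        (fun j _ => h2 i j) (Finset.mem_univ j)
    have h4 : ∑ j, (|H0 i j x| + ∑ a, |α a x * (ξ a i * ξ a j)|) ≤
        ∑ i, ∑ j, (|H0 i j x| + ∑ a, |α a x * (ξ a i * ξ a j)|) :=
      Finset.single_le_sum
        (f := fun i => ∑ j, (|H0 i j x| + ∑ a, |α a x * (ξ a i * ξ a j)|))
        (fun i _ => Finset.sum_nonneg fun j _ => h2 i j) (Finset.mem_univ i)
    exact (h3.trans h4).trans ((le_abs_self _).trans h1)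
  obtain ⟨X, hX⟩ : ∃ X : ℂ, X = ∑ k, ∑ l, BB Ψ (rk (ξ k)) (rk (ξ l))
      (fun x => ψ k l x * (α k x : ℂ) * (α l x : ℂ)) := ⟨_, rfl⟩
  rw [← hX]
  -- the estimate for a fixed frequency
  have key : ∀ Λ : ℝ, 1 ≤ Λ → B ≤ Λ → 2 * B / c ≤ Λ →
      ‖X‖ ≤ 2 * (R + M + 1) ^ 2 * C' +
        2 * (m : ℝ) ^ 4 * (C0 * C') * (B / Λ * (2 * K + B / Λ)) := by
    intro Λ hΛ1 hΛB hΛc
    have hΛ0 : 0 < Λ := by linarith
    obtain ⟨δ, hδ⟩ : ∃ δ : ℝ, δ = B / Λ := ⟨_, rfl⟩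
    have hδ0 : 0 ≤ δ := by rw [hδ]; positivity
    have hδ1 : δ ≤ 1 := by rw [hδ, div_le_one hΛ0]; exact hΛB
    have hδc : δ ≤ c / 2 := by
      rw [hδ, div_le_iff₀ hΛ0]
      rw [div_le_iff₀ hc] at hΛc
      linarith
    have hW := fun θ => hW Λ hΛ1 θ
    rw [← hδ] at hW ⊢
    obtain ⟨cs, hcs⟩ : ∃ cs : (ι → Fin 4) → ι → E m → ℝ, cs = fun θ k x =>
      Real.cos (Λ * inner ℝ (ξ k) x + ((θ k : ℕ) : ℝ) * (Real.pi / 2)) := ⟨_, rfl⟩
    have hcsc : ∀ θ k, Continuous (cs θ k) := by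
      intro θ k
      rw [hcs]
      fun_prop
    have hcs1 : ∀ θ k x, |cs θ k x| ≤ 1 := by
      intro θ k x
      rw [hcs]
      exact Real.abs_cos_le_one _
    -- strong convexity
    have hLc : ∀ θ, Lc R (c / 2) (fw f0 ξ α Λ θ) := by
      intro θ
      refine ⟨(hW θ).1, (hW θ).2.1, by linarith, ?_⟩
      intro x hx v
      have h1 := (hW θ).2.2.2 x v v
      have h2 := hdom x hx v
      rw [D2_lin h_RTS R hf0] at h2
      rw [D2_lin h_RTS R (hW θ).1]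
      have h3 : -∑ k, α k x * inner ℝ (ξ k) v ^ 2 ≤
          ∑ k, α k x * Real.cos (Λ * inner ℝ (ξ k) x + ((θ k : ℕ) : ℝ) * (Real.pi / 2)) *
            (inner ℝ (ξ k) v * inner ℝ (ξ k) v) := by
        rw [← Finset.sum_neg_distrib]
        refine Finset.sum_le_sum fun k _ => ?_
        have h4 := Real.neg_one_le_cos
          (Λ * inner ℝ (ξ k) x + ((θ k : ℕ) : ℝ) * (Real.pi / 2))
        have h5 : 0 ≤ α k x * inner ℝ (ξ k) v ^ 2 := mul_nonneg (hα0 k x) (sq_nonneg _)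
        nlinarith
      have h6 := (abs_le.1 h1).1
      have h7 : δ * (‖v‖ * ‖v‖) ≤ c / 2 * ‖v‖ ^ 2 := by
        rw [← sq]
        exact mul_le_mul_of_nonneg_right hδc (sq_nonneg _)
      nlinarith
    choose L hL using fun θ => body h_LFE h_RTS hm hR (hLc θ)
    -- the test functions
    obtain ⟨φ, hφ⟩ : ∃ φ : (ι → Fin 4) → E m → ℂ, φ = fun θ x =>
      ∑ k, ∑ l, ψ k l x * (cs θ k x : ℂ) * (cs θ l x : ℂ) := ⟨_, rfl⟩
    have hφT : ∀ θ, Tf 4 (φ θ) := by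
      intro θ
      rw [hφ]
      exact Tf_sum _ _ fun k => Tf_sum _ _ fun l =>
        Tf_mul (Tf_mul (hψ k l) (Complex.continuous_ofReal.comp (hcsc θ k)))
          (Complex.continuous_ofReal.comp (hcsc θ l))
    have hφ1 : ∀ θ x, ‖φ θ x‖ ≤ 1 := by
      intro θ x
      rw [hφ]
      refine le_trans (norm_sum_le _ _) (le_trans (Finset.sum_le_sum fun k _ =>
        norm_sum_le _ _) (le_trans (Finset.sum_le_sum fun k _ => Finset.sum_le_sum fun l _ => ?_)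
        (hψ1 x)))
      rw [norm_mul, norm_mul, Complex.norm_real, Complex.norm_real, Real.norm_eq_abs,
        Real.norm_eq_abs]
      have h1 := hcs1 θ k x
      have h2 := hcs1 θ l x
      calc ‖ψ k l x‖ * |cs θ k x| * |cs θ l x| ≤ ‖ψ k l x‖ * 1 * 1 := by
            gcongr
        _ = ‖ψ k l x‖ := by ring
    obtain ⟨H, hH⟩ : ∃ H : (ι → Fin 4) → Fin m → Fin m → E m → ℝ, H = fun θ i j x =>
      D2 (fun y => R * rt y + fw f0 ξ α Λ θ y) x (eb i) (eb j) := ⟨_, rfl⟩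
    have hHc : ∀ θ i j, Continuous (H θ i j) := by
      intro θ i j
      rw [hH]
      exact cont_D2 (SmE_lin h_RTS R (hW θ).1) _ _
    obtain ⟨G, hG⟩ : ∃ G : (ι → Fin 4) → Fin m → Fin m → E m → ℝ, G = fun θ i j x =>
      H0 i j x + ∑ a, α a x * (ξ a i * ξ a j) * cs θ a x := ⟨_, rfl⟩
    have hGc : ∀ θ i j, Continuous (G θ i j) := by
      intro θ i j
      rw [hG]
      refine (hH0c i j).add (continuous_finsetSum _ fun a _ => ?_)
      exact ((hαc a).mul continuous_const).mul (hcsc θ a)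
    have hHG : ∀ θ i j x, |H θ i j x - G θ i j x| ≤ δ := by
      intro θ i j x
      have h1 := (hW θ).2.2.2 x (eb i) (eb j)
      rw [eb_norm, eb_norm, mul_one, mul_one] at h1
      rw [hH, hG, hH0, hcs]
      simp only []
      rw [D2_lin h_RTS R (hW θ).1, D2_lin h_RTS R hf0]
      refine le_trans (le_of_eq ?_) h1
      congr 1
      have h2 : ∑ a, α a x * (ξ a i * ξ a j) *
          Real.cos (Λ * inner ℝ (ξ a) x + ((θ a : ℕ) : ℝ) * (Real.pi / 2)) =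
          ∑ k, α k x * Real.cos (Λ * inner ℝ (ξ k) x + ((θ k : ℕ) : ℝ) * (Real.pi / 2)) *
            (inner ℝ (ξ k) (eb i : E m) * inner ℝ (ξ k) (eb j : E m)) := by
        refine Finset.sum_congr rfl fun a _ => ?_
        rw [eb_inner, eb_inner]
        ring
      rw [h2]
      ring
    have hGK : ∀ θ i j x, ‖x‖ ≤ 4 → |G θ i j x| ≤ K := by
      intro θ i j x hx
      refine le_trans ?_ (hK i j x hx)
      rw [hG]
      refine (abs_add_le _ _).trans (add_le_add_right ?_ _)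
      refine (Finset.abs_sum_le_sum_abs _ _).trans (Finset.sum_le_sum fun a _ => ?_)
      rw [abs_mul]
      exact mul_le_of_le_one_right (abs_nonneg _) (hcs1 θ a x)
    -- the values
    have hval : ∀ θ, Ψ (L θ) (HC (φ θ)) = ∑ i, ∑ j, ∑ i', ∑ j', B4 Ψ i j i' j'
        (fun x => φ θ x * (H θ i j x : ℂ) * (H θ i' j' x : ℂ)) := by
      intro θ
      rw [h_STR m Ψ hm hΨ R (c / 2) _ hR (hLc θ) (L θ) (hL θ) (φ θ) (hφT θ), hH]
      rfl
    have hvb : ∀ θ, ‖Ψ (L θ) (HC (φ θ))‖ ≤ (R + M + 1) ^ 2 * C' := by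
      intro θ
      have h1 : ∀ x, |fw f0 ξ α Λ θ x| ≤ M + 1 := by
        intro x
        have h2 := (hW θ).2.2.1 x
        have h3 := hf0M x
        have h4 : fw f0 ξ α Λ θ x = (fw f0 ξ α Λ θ x - f0 x) + f0 x := by ring
        rw [h4]
        refine (abs_add_le _ _).trans ?_
        linarith
      have h2 := (h_LFP m R (M + 1) _ _ (L θ) (L θ) hR.le (by linarith) (hL θ) (hL θ)).2.1 h1
      have h3 := h_PBR m Ψ hΨ C' hPB (R + (M + 1)) (by linarith) (L θ) h2 (HC (φ θ))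
      have h4 := (h_HAT m 4 (φ θ) (φ θ) (hφT θ) (hφT θ)).2.2.2.2 1 zero_le_one (hφ1 θ)
      have h5 : R + (M + 1) = R + M + 1 := by ring
      rw [h5] at h3
      refine h3.trans ?_
      have h6 : 0 ≤ (R + M + 1) ^ 2 * C' := mul_nonneg (sq_nonneg _) hC'
      nlinarith
    -- the sum over the phases
    obtain ⟨Er, hEr⟩ : ∃ Er : Fin m → Fin m → Fin m → Fin m → E m → ℂ,
      Er = fun i j i' j' x => ∑ θ : ι → Fin 4, (φ θ x * (H θ i j x : ℂ) * (H θ i' j' x : ℂ) -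
        φ θ x * (G θ i j x : ℂ) * (G θ i' j' x : ℂ)) := ⟨_, rfl⟩
    have hTH : ∀ θ i j i' j', Tf 4 fun x =>
        φ θ x * (H θ i j x : ℂ) * (H θ i' j' x : ℂ) := fun θ i j i' j' =>
      Tf_mul (Tf_mul (hφT θ) (Complex.continuous_ofReal.comp (hHc θ i j)))
        (Complex.continuous_ofReal.comp (hHc θ i' j'))
    have hTG : ∀ θ i j i' j', Tf 4 fun x =>
        φ θ x * (G θ i j x : ℂ) * (G θ i' j' x : ℂ) := fun θ i j i' j' =>
      Tf_mul (Tf_mul (hφT θ) (Complex.continuous_ofReal.comp (hGc θ i j)))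
        (Complex.continuous_ofReal.comp (hGc θ i' j'))
    have hTE : ∀ i j i' j', Tf 4 (Er i j i' j') := by
      intro i j i' j'
      rw [hEr]
      refine Tf_sum _ _ fun θ => ⟨(hTH θ i j i' j').cont.sub (hTG θ i j i' j').cont, ?_⟩
      intro x hx
      rw [(hTH θ i j i' j').out x hx, (hTG θ i j i' j').out x hx, sub_zero]
    have hKnn : ∀ x : E m, ∀ i j : Fin m, ‖x‖ ≤ 4 → 0 ≤ K := fun x i j hx =>
      (add_nonneg (abs_nonneg _) (Finset.sum_nonneg fun a _ => abs_nonneg _)).trans (hK i j x hx)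
    have hEb : ∀ i j i' j', 0 ≤ 4 ^ Fintype.card ι * (δ * (2 * K + δ)) ∧ ∀ x,
        ‖Er i j i' j' x‖ ≤ 4 ^ Fintype.card ι * (δ * (2 * K + δ)) := by
      intro i j i' j'
      have hK0 : 0 ≤ K := hKnn 0 i j (by simp)
      have hnn : 0 ≤ 4 ^ Fintype.card ι * (δ * (2 * K + δ)) := by positivity
      refine ⟨hnn, fun x => ?_⟩
      rcases le_or_gt 4 ‖x‖ with hx | hx
      · rw [(hTE i j i' j').out x hx, norm_zero]
        exact hnn
      · rw [hEr]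
        refine (norm_sum_le_of_le _ fun θ _ => err (hφ1 θ x) (hHG θ i j x) (hHG θ i' j' x)
          (hGK θ i j x hx.le) (hGK θ i' j' x hx.le)).trans (le_of_eq ?_)
        rw [Finset.sum_const, nsmul_eq_mul, Finset.card_univ, Fintype.card_fun, Fintype.card_fin]
        push_cast
        ring
    obtain ⟨Y, hY⟩ : ∃ Y : ι → ι → E m → ℂ, Y = fun k l x =>
      ψ k l x * (α k x : ℂ) * (α l x : ℂ) := ⟨_, rfl⟩
    have hYT : ∀ k l, Tf 4 (Y k l) := by
      intro k l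
      rw [hY]
      exact Tf_mul (Tf_mul (hψ k l) (Complex.continuous_ofReal.comp (hαc k)))
        (Complex.continuous_ofReal.comp (hαc l))
    obtain ⟨Q, hQ⟩ : ∃ Q : Fin m → Fin m → Fin m → Fin m → E m → ℂ,
      Q = fun i j i' j' x => ∑ k, ∑ l, (((ξ k i * ξ k j) * (ξ l i' * ξ l j') +
        (ξ l i * ξ l j) * (ξ k i' * ξ k j') : ℝ) : ℂ) * Y k l x := ⟨_, rfl⟩
    have hTQ : ∀ i j i' j', Tf 4 (Q i j i' j') := by
      intro i j i' j'
      rw [hQ]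
      exact Tf_sum _ _ fun k => Tf_sum _ _ fun l => Tf_cmul (hYT k l) _
    have hmean : ∀ i j i' j' x, ∑ θ : ι → Fin 4,
        φ θ x * (G θ i j x : ℂ) * (G θ i' j' x : ℂ) =
        (4 : ℂ) ^ Fintype.card ι / 4 * Q i j i' j' x := by
      intro i j i' j' x
      have h1 := mean h_PHS (fun k l => ψ k l x) (fun k => hψ0 k x)
        (fun k j => Real.cos (Λ * inner ℝ (ξ k) x + ((j : ℕ) : ℝ) * (Real.pi / 2)))
        (fun k => phase_sum _) (fun k => phase_sq _) (H0 i j x) (H0 i' j' x)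
        (fun a => α a x * (ξ a i * ξ a j)) (fun a => α a x * (ξ a i' * ξ a j'))
      rw [hφ, hG, hcs]
      simp only [] at h1 ⊢
      rw [h1, hQ, hY]
      simp only []
      rw [div_mul_eq_mul_div, mul_div_assoc, Finset.sum_div]
      congr 1
      refine Finset.sum_congr rfl fun k _ => ?_
      rw [Finset.sum_div]
      refine Finset.sum_congr rfl fun l _ => ?_
      push_cast
      ring
    have hsum : ∑ θ : ι → Fin 4, Ψ (L θ) (HC (φ θ)) =
        (4 : ℂ) ^ Fintype.card ι / 4 * (2 * X) +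
          ∑ i, ∑ j, ∑ i', ∑ j', B4 Ψ i j i' j' (Er i j i' j') := by
      rw [Finset.sum_congr rfl fun θ _ => hval θ, ← comm4]
      have h1 : ∀ i j i' j', ∑ θ : ι → Fin 4, B4 Ψ i j i' j'
          (fun x => φ θ x * (H θ i j x : ℂ) * (H θ i' j' x : ℂ)) =
          (4 : ℂ) ^ Fintype.card ι / 4 * B4 Ψ i j i' j' (Q i j i' j') +
            B4 Ψ i j i' j' (Er i j i' j') := by
        intro i j i' j'
        rw [← (hLin i j i' j').sum Finset.univ _ fun θ => hTH θ i j i' j',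
          ← (hLin i j i' j').smul _ _ (hTQ i j i' j'),
          ← (hLin i j i' j').add _ _ (Tf_cmul (hTQ i j i' j') _) (hTE i j i' j')]
        congr 1
        funext x
        rw [← hmean, hEr, ← Finset.sum_add_distrib]
        refine Finset.sum_congr rfl fun θ _ => ?_
        ring
      rw [Finset.sum_congr rfl fun i _ => Finset.sum_congr rfl fun j _ =>
        Finset.sum_congr rfl fun i' _ => Finset.sum_congr rfl fun j' _ => h1 i j i' j',
        add4, mul4, hQ, alg (fun i j k l => B4 Ψ i j k l) hLin hsym ξ Y hYT, hX, hY]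
      rfl
    have hN1 : ‖∑ θ : ι → Fin 4, Ψ (L θ) (HC (φ θ))‖ ≤
        4 ^ Fintype.card ι * ((R + M + 1) ^ 2 * C') := by
      refine (norm_sum_le_of_le _ fun θ _ => hvb θ).trans (le_of_eq ?_)
      rw [Finset.sum_const, nsmul_eq_mul, Finset.card_univ, Fintype.card_fun, Fintype.card_fin]
      push_cast
      ring
    have hN2 : ‖∑ i, ∑ j, ∑ i', ∑ j', B4 Ψ i j i' j' (Er i j i' j')‖ ≤
        (m : ℝ) ^ 4 * (C0 * C' * (4 ^ Fintype.card ι * (δ * (2 * K + δ)))) :=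
      norm4 _ _ fun i j i' j' => hbd i j i' j' _ (hTE i j i' j') _ (hEb i j i' j').1
        (hEb i j i' j').2
    obtain ⟨q, hq⟩ : ∃ q : ℝ, q = 4 ^ Fintype.card ι := ⟨_, rfl⟩
    have hq0 : 0 < q := by rw [hq]; positivity
    rw [← hq] at hN1 hN2
    have e1 : (4 : ℂ) ^ Fintype.card ι / 4 * (2 * X) = ((q / 2 : ℝ) : ℂ) * X := by
      rw [hq]
      push_cast
      ring
    rw [e1] at hsum
    have e2 : ((q / 2 : ℝ) : ℂ) * X = (∑ θ : ι → Fin 4, Ψ (L θ) (HC (φ θ))) -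
        ∑ i, ∑ j, ∑ i', ∑ j', B4 Ψ i j i' j' (Er i j i' j') := by
      rw [hsum]
      ring
    have e3 : q / 2 * ‖X‖ ≤ q * ((R + M + 1) ^ 2 * C') +
        (m : ℝ) ^ 4 * (C0 * C' * (q * (δ * (2 * K + δ)))) := by
      have h1 : ‖((q / 2 : ℝ) : ℂ) * X‖ = q / 2 * ‖X‖ := by
        rw [norm_mul, Complex.norm_real, Real.norm_eq_abs, abs_of_pos (by linarith)]
      rw [← h1, e2]
      exact (norm_sub_le _ _).trans (add_le_add hN1 hN2)
    have e4 : q / 2 * ‖X‖ ≤ q / 2 * (2 * (R + M + 1) ^ 2 * C' +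
        2 * (m : ℝ) ^ 4 * (C0 * C') * (δ * (2 * K + δ))) := by
      refine e3.trans (le_of_eq ?_)
      ring
    exact le_of_mul_le_mul_left e4 (by linarith)
  -- the limit
  have hlim : Tendsto (fun Λ : ℝ => 2 * (R + M + 1) ^ 2 * C' +
      2 * (m : ℝ) ^ 4 * (C0 * C') * (B / Λ * (2 * K + B / Λ))) atTop
      (𝓝 (2 * (R + M + 1) ^ 2 * C' + 2 * (m : ℝ) ^ 4 * (C0 * C') * (0 * (2 * K + 0)))) := by
    have h1 : Tendsto (fun Λ : ℝ => B / Λ) atTop (𝓝 0) :=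
      tendsto_const_nhds.div_atTop tendsto_id
    exact tendsto_const_nhds.add (tendsto_const_nhds.mul (h1.mul (tendsto_const_nhds.add h1)))
  rw [zero_mul, mul_zero, add_zero] at hlim
  refine ge_of_tendsto hlim ?_
  filter_upwards [eventually_ge_atTop 1, eventually_ge_atTop B,
    eventually_ge_atTop (2 * B / c)] with Λ h1 h2 h3
  exact key Λ h1 h2 h3

end Pool.Agent.GNS
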