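import Pool.Agent.GNS.T1

/-!
# GNS-WBR: bounds for the regularised function
-/

set_option autoImplicit false

open Metric Set Filter Topology MeasureTheory

noncomputable section

namespace Pool.Agent.GNS

namespace WBR_

/-- concavity in the first variable -/
theorem conc {f : V → ℝ} (hf : Sm f) (hq : ∀ (z : V) (a b : ℝ), a ^ 2 * d 0 (d 0 f) z +
    2 * a * b * d 0 (d 1 f) z + b ^ 2 * d 1 (d 1 f) z ≤ 0) (x x' y : X2) (s t : ℝ)
    (hs : 0 ≤ s) (ht : 0 ≤ t) (hst : s + t = 1) :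
    s * f (x, y) + t * f (x', y) ≤ f (s • x + t • x', y) := by
  set v : V := (x' - x, 0) with hv
  set z : V := (x, y) with hz
  have hd1 : ∀ τ : ℝ, HasDerivAt (fun τ : ℝ => f (z + τ • v))
      (v.1.1 * d 0 f (z + τ • v) + v.1.2 * d 1 f (z + τ • v)) τ := by
    intro τ
    have h := line_deriv hf z v τ
    rw [fd_eq] at h
    have h2 : v.2.1 = 0 ∧ v.2.2 = 0 := by simp [hv]
    rw [h2.1, h2.2, zero_mul, zero_mul, add_zero, add_zero] at h
    exact h
  have hd2 : ∀ τ : ℝ, HasDerivAt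
      (fun τ : ℝ => v.1.1 * d 0 f (z + τ • v) + v.1.2 * d 1 f (z + τ • v))
      (v.1.1 * (v.1.1 * d 0 (d 0 f) (z + τ • v) + v.1.2 * d 1 (d 0 f) (z + τ • v)) +
        v.1.2 * (v.1.1 * d 0 (d 1 f) (z + τ • v) + v.1.2 * d 1 (d 1 f) (z + τ • v))) τ := by
    intro τ
    have h2 : v.2.1 = 0 ∧ v.2.2 = 0 := by simp [hv]
    have ha := line_deriv (hf.d 0) z v τ
    have hb := line_deriv (hf.d 1) z v τ
    rw [fd_eq, h2.1, h2.2, zero_mul, zero_mul, add_zero, add_zero] at ha hb
    exact (ha.const_mul v.1.1).add (hb.const_mul v.1.2)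
  have hder : deriv (fun τ : ℝ => f (z + τ • v)) =
      fun τ : ℝ => v.1.1 * d 0 f (z + τ • v) + v.1.2 * d 1 f (z + τ • v) :=
    funext fun τ => (hd1 τ).deriv
  have hcc : ConcaveOn ℝ univ (fun τ : ℝ => f (z + τ • v)) := by
    apply concaveOn_univ_of_deriv2_nonpos
    · exact fun τ => (hd1 τ).differentiableAt
    · rw [hder]
      exact fun τ => (hd2 τ).differentiableAt
    · intro τ
      rw [Function.iterate_succ, Function.iterate_one, Function.comp_apply, hder, (hd2 τ).deriv]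
      have h := hq (z + τ • v) v.1.1 v.1.2
      have hc := d_comm hf 1 0 (z + τ • v)
      rw [hc]
      linarith
  have h := hcc.2 (mem_univ (0 : ℝ)) (mem_univ (1 : ℝ)) hs ht hst
  simp only [smul_eq_mul, mul_zero, mul_one, zero_add, zero_smul, add_zero, one_smul] at h
  have e1 : z + v = (x', y) := by
    rw [hz, hv]
    simp
  have e2 : z + t • v = (s • x + t • x', y) := by
    rw [hz, hv]
    apply Prod.ext
    · show x + t • (x' - x) = s • x + t • x'
      have hs' : s = 1 - t := by linarith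
      rw [hs', smul_sub, sub_smul, one_smul]
      abel
    · simp
  rw [e1, e2] at h
  exact h

/-- the average of a function with `|f - l| ≤ c` near the point -/
theorem avg {r c : ℝ} {ρ f : V → ℝ} (hr : 0 < r) (hk : Ker r ρ) (hf : Continuous f) (q : V)
    (l : ℝ) (h : ∀ ζ : V, ‖q - ζ‖ ≤ r → |l - f ζ| ≤ c) : |l - cv ρ f q| ≤ c := by
  have hcs : HasCompactSupport ρ := hcs_of hk.out
  have hρi : Integrable ρ := int_of hk.sm.cont hcs
  have hρc : Continuous fun ζ : V => ρ (q - ζ) := hk.sm.cont.comp (by fun_prop)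
  have hcs2 : HasCompactSupport fun ζ : V => ρ (q - ζ) :=
    hcs_of (R := r + ‖q‖) (fun z hz => hk.out _ (by
      have h1 : ‖z‖ ≤ ‖q - z‖ + ‖q‖ := by
        have h2 := norm_sub_le q (q - z)
        rw [sub_sub_cancel] at h2
        linarith
      linarith))
  have hi1 : Integrable fun ζ : V => ρ (q - ζ) := int_of hρc hcs2
  have hone : ∫ ζ : V, ρ (q - ζ) = 1 := by
    rw [integral_sub_left_eq_self (fun ζ => ρ ζ) volume q]
    exact hk.int
  have hi2 : Integrable fun ζ : V => ρ (q - ζ) * f ζ :=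
    int_of (hρc.mul hf) hcs2.mul_right
  have e : l - cv ρ f q = ∫ ζ : V, ρ (q - ζ) * (l - f ζ) := by
    have e1 : (fun ζ : V => ρ (q - ζ) * (l - f ζ)) =
        fun ζ => ρ (q - ζ) * l - ρ (q - ζ) * f ζ := by
      funext ζ
      ring
    rw [e1, integral_sub (hi1.mul_const l) hi2, integral_mul_const, hone, one_mul]
    rfl
  rw [e]
  have hc0 : 0 ≤ c := le_trans (abs_nonneg _) (h q (by rw [sub_self, norm_zero]; exact hr.le))
  calc |∫ ζ : V, ρ (q - ζ) * (l - f ζ)| ≤ ∫ ζ : V, |ρ (q - ζ) * (l - f ζ)| :=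
        abs_integral_le_integral_abs
    _ ≤ ∫ ζ : V, ρ (q - ζ) * c := by
        apply integral_mono_of_nonneg (Eventually.of_forall fun _ => abs_nonneg _)
          (hi1.mul_const c)
        refine Eventually.of_forall fun ζ => ?_
        show |ρ (q - ζ) * (l - f ζ)| ≤ ρ (q - ζ) * c
        rw [abs_mul, abs_of_nonneg (hk.nn _)]
        by_cases hζ : ‖q - ζ‖ ≤ r
        · exact mul_le_mul_of_nonneg_left (h ζ hζ) (hk.nn _)
        · rw [hk.out _ (not_le.1 hζ).le, zero_mul, zero_mul]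
    _ = c := by rw [integral_mul_const, hone, one_mul]

/-- the arithmetic of the gradient bound -/
theorem arith {η r p Y c : ℝ} (hη : 0 < η) (hη1 : η ≤ 1) (hr : 0 < r) (hr1 : r ≤ 1)
    (hY : |Y| ≤ 4) (he : Y = c + r * p) (hc : |p - η * c| ≤ 1 + r) : |p| ≤ 10 := by
  have h1 : p * (1 + η * r) = (p - η * c) + η * Y := by
    rw [he]
    ring
  have h2 : |p * (1 + η * r)| ≤ 6 := by
    rw [h1]
    calc |(p - η * c) + η * Y| ≤ |p - η * c| + |η * Y| := abs_add_le _ _
      _ ≤ (1 + r) + 1 * 4 := by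
          apply add_le_add hc
          rw [abs_mul, abs_of_pos hη]
          exact mul_le_mul hη1 hY (abs_nonneg _) zero_le_one
      _ ≤ 6 := by linarith
  rw [abs_mul] at h2
  have h3 : 1 ≤ |1 + η * r| := by
    rw [abs_of_pos (by positivity)]
    have := mul_pos hη hr
    linarith
  have h4 : |p| ≤ |p| * |1 + η * r| := le_mul_of_one_le_right (abs_nonneg _) h3
  linarith

end WBR_

open WBR_ in
theorem p_WBR (hINV : T_INV) (hLG1 : T_LG1) (hUBR : T_UBR) : T_WBR := by
  intro η r ρ u hη hη1 hr hr1 hk hu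
  obtain ⟨hSC, hd01, hform, -, hd2⟩ := hUBR η r ρ u hη hr hk hu
  obtain ⟨hsm, hL⟩ := hLG1 r (ub ρ r u) hr hSC
  refine ⟨hsm, ?_, ?_⟩
  · refine ⟨convex_univ, ?_⟩
    intro q _ q' _ s t hs ht hst
    show Leg (ub ρ r u) (s • q + t • q') ≤ s * Leg (ub ρ r u) q + t * Leg (ub ρ r u) q'
    conv_lhs => unfold Leg
    apply csSup_le (range_nonempty _)
    rintro _ ⟨y, rfl⟩
    have h1 := (hL q).2.2.2.2.2 y
    have h2 := (hL q').2.2.2.2.2 y
    have h3 := conc hSC.sm hform q.1 q'.1 y s t hs ht hst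
    have h4 := mul_le_mul_of_nonneg_left h1 hs
    have h5 := mul_le_mul_of_nonneg_left h2 ht
    show (s • q + t • q').2.1 * y.1 + (s • q + t • q').2.2 * y.2 -
      ub ρ r u ((s • q + t • q').1, y) ≤ _
    have e1 : (s • q + t • q').2.1 = s * q.2.1 + t * q'.2.1 := by simp
    have e2 : (s • q + t • q').2.2 = s * q.2.2 + t * q'.2.2 := by simp
    have e3 : (s • q + t • q').1 = s • q.1 + t • q'.1 := by simp
    rw [e1, e2, e3]
    linarith
  · intro z hz i
    obtain ⟨H, -, hH, -⟩ := hINV r (ub ρ r u) hr hSC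
    have hq := hH z
    set q := H z with hqd
    obtain ⟨-, g0, g1, g2, g3, -⟩ := hL q
    rw [hq] at g0 g1 g2 g3
    have hz1 : z.2.1 = d 2 (ub ρ r u) q := by
      rw [← hq]
      rfl
    have hz2 : z.2.2 = d 3 (ub ρ r u) q := by
      rw [← hq]
      rfl
    have hn : ‖z.2‖ ≤ 4 := (norm_snd_le z).trans hz
    have hY1 : |z.2.1| ≤ 4 := by
      have := (norm_fst_le z.2).trans hn
      rwa [Real.norm_eq_abs] at this
    have hY2 : |z.2.2| ≤ 4 := by
      have := (norm_snd_le z.2).trans hn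
      rwa [Real.norm_eq_abs] at this
    have hsub : ∀ ζ : V, ‖q - ζ‖ ≤ r → |q.2.1 - ζ.2.1| ≤ r ∧ |q.2.2 - ζ.2.2| ≤ r := by
      intro ζ hζ
      have h1 : ‖(q - ζ).2‖ ≤ r := (norm_snd_le _).trans hζ
      have h2 := (norm_fst_le (q - ζ).2).trans h1
      have h3 := (norm_snd_le (q - ζ).2).trans h1
      rw [Real.norm_eq_abs] at h2 h3
      exact ⟨h2, h3⟩
    have ec : ∀ j : Fin 4, cv ρ (fun ζ => η * d j u ζ) q = η * cv ρ (d j u) q := by
      intro j
      unfold cv
      rw [← integral_const_mul]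
      congr 1
      funext ζ
      ring
    have hp1 : |q.2.1| ≤ 10 := by
      have h1 : |q.2.1 - cv ρ (fun ζ => η * d 2 u ζ) q| ≤ 1 + r := by
        apply avg hr hk ((hu.sm.d 2).cont.const_mul η |>.congr fun _ => rfl) q
        intro ζ hζ
        have h2 := (hsub ζ hζ).1
        have h3 := hu.gr2 ζ
        calc |q.2.1 - η * d 2 u ζ| = |(q.2.1 - ζ.2.1) + (ζ.2.1 - η * d 2 u ζ)| := by
              congr 1
              ring
          _ ≤ |q.2.1 - ζ.2.1| + |ζ.2.1 - η * d 2 u ζ| := abs_add_le _ _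
          _ ≤ 1 + r := by linarith
      rw [ec] at h1
      exact arith hη hη1 hr hr1 hY1 (hz1.trans (hd2 q).1) h1
    have hp2 : |q.2.2| ≤ 10 := by
      have h1 : |q.2.2 - cv ρ (fun ζ => η * d 3 u ζ) q| ≤ 1 + r := by
        apply avg hr hk ((hu.sm.d 3).cont.const_mul η |>.congr fun _ => rfl) q
        intro ζ hζ
        have h2 := (hsub ζ hζ).2
        have h3 := hu.gr3 ζ
        calc |q.2.2 - η * d 3 u ζ| = |(q.2.2 - ζ.2.2) + (ζ.2.2 - η * d 3 u ζ)| := by
              congr 1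
              ring
          _ ≤ |q.2.2 - ζ.2.2| + |ζ.2.2 - η * d 3 u ζ| := abs_add_le _ _
          _ ≤ 1 + r := by linarith
      rw [ec] at h1
      exact arith hη hη1 hr hr1 hY2 (hz2.trans (hd2 q).2) h1
    fin_cases i
    · show |d 0 (Leg (ub ρ r u)) z| ≤ 10
      rw [g0, abs_neg]
      exact (hd01 q).1.trans (by norm_num)
    · show |d 1 (Leg (ub ρ r u)) z| ≤ 10
      rw [g1, abs_neg]
      exact (hd01 q).2.trans (by norm_num)
    · show |d 2 (Leg (ub ρ r u)) z| ≤ 10
      rw [g2]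
      exact hp1
    · show |d 3 (Leg (ub ρ r u)) z| ≤ 10
      rw [g3]
      exact hp2

end Pool.Agent.GNS
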