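import Pool.Agent.GNS.T3

/-!
# GNS: WDD, derivatives of the wave packet
-/

set_option autoImplicit false

open Metric Set Filter Topology MeasureTheory

noncomputable section

namespace Pool.Agent.GNS

open Pool.Agent.GLB

namespace WDD_

variable {m : ℕ}

/-- the phase -/
def ph (ξ : E m) (Λ t : ℝ) (x : E m) : ℝ := Λ * inner ℝ ξ x + t

lemma ph_fd (ξ : E m) (Λ t : ℝ) (x : E m) :
    HasFDerivAt (ph ξ Λ t) (Λ • (innerSL ℝ ξ : E m →L[ℝ] ℝ)) x := by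
  have h1 : HasFDerivAt (fun y : E m => innerSL ℝ ξ y) (innerSL ℝ ξ : E m →L[ℝ] ℝ) x :=
    (innerSL ℝ ξ : E m →L[ℝ] ℝ).hasFDerivAt
  have h2 := (h1.const_mul Λ).add_const t
  exact h2

lemma ph_cd (ξ : E m) (Λ t : ℝ) (n : WithTop ℕ∞) : ContDiff ℝ n (ph ξ Λ t) := by
  unfold ph
  have h1 : ContDiff ℝ n (fun y : E m => innerSL ℝ ξ y) :=
    (innerSL ℝ ξ : E m →L[ℝ] ℝ).contDiff
  exact (contDiff_const.mul h1).add contDiff_const

/-- the wave -/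
def wave (ξ : E m) (Λ t : ℝ) (x : E m) : ℝ := -(Real.cos (ph ξ Λ t x)) / Λ ^ 2

lemma wave_cd (ξ : E m) (Λ t : ℝ) (n : WithTop ℕ∞) : ContDiff ℝ n (wave ξ Λ t) := by
  unfold wave
  exact ((Real.contDiff_cos.comp (ph_cd ξ Λ t n)).neg).div_const _

lemma wave_fd (ξ : E m) (Λ t : ℝ) (hΛ : Λ ≠ 0) (x : E m) :
    HasFDerivAt (wave ξ Λ t) ((Real.sin (ph ξ Λ t x) / Λ) • (innerSL ℝ ξ : E m →L[ℝ] ℝ)) x := by
  have h1 := ((ph_fd ξ Λ t x).cos.neg).mul_const ((Λ ^ 2)⁻¹)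
  have h2 : (fun y => -(Real.cos (ph ξ Λ t y)) * (Λ ^ 2)⁻¹) = wave ξ Λ t := by
    funext y
    unfold wave
    rw [div_eq_mul_inv]
  have h3 : HasFDerivAt (fun y => -(Real.cos (ph ξ Λ t y)) * (Λ ^ 2)⁻¹)
    ((Λ ^ 2)⁻¹ • -(-Real.sin (ph ξ Λ t x) • Λ • (innerSL ℝ ξ : E m →L[ℝ] ℝ))) x := h1
  rw [h2] at h3
  have h4 : ((Λ ^ 2)⁻¹ • -(-Real.sin (ph ξ Λ t x) • Λ • (innerSL ℝ ξ : E m →L[ℝ] ℝ))) =
      (Real.sin (ph ξ Λ t x) / Λ) • (innerSL ℝ ξ : E m →L[ℝ] ℝ) := by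
    rw [neg_smul, neg_neg, smul_smul, smul_smul]
    congr 1
    field_simp
  rw [h4] at h3
  exact h3

lemma wave_fderiv (ξ : E m) (Λ t : ℝ) (hΛ : Λ ≠ 0) (x v : E m) :
    fderiv ℝ (wave ξ Λ t) x v = Real.sin (ph ξ Λ t x) / Λ * inner ℝ ξ v := by
  rw [(wave_fd ξ Λ t hΛ x).fderiv]
  rfl

lemma wave_D2 (ξ : E m) (Λ t : ℝ) (hΛ : Λ ≠ 0) (x v w : E m) :
    D2 (wave ξ Λ t) x v w = Real.cos (ph ξ Λ t x) * (inner ℝ ξ v * inner ℝ ξ w) := by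
  have h1 : fderiv ℝ (wave ξ Λ t) = fun y =>
      (Real.sin (ph ξ Λ t y) / Λ) • (innerSL ℝ ξ : E m →L[ℝ] ℝ) :=
    funext fun y => (wave_fd ξ Λ t hΛ y).fderiv
  have h2 := ((ph_fd ξ Λ t x).sin.mul_const (Λ⁻¹)).smul_const (innerSL ℝ ξ : E m →L[ℝ] ℝ)
  have h3 : (fun y => (Real.sin (ph ξ Λ t y) * Λ⁻¹) • (innerSL ℝ ξ : E m →L[ℝ] ℝ)) =
      fun y => (Real.sin (ph ξ Λ t y) / Λ) • (innerSL ℝ ξ : E m →L[ℝ] ℝ) := by
    funext y
    rw [div_eq_mul_inv]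
  rw [h3] at h2
  unfold D2
  rw [h1, h2.fderiv]
  simp only [ContinuousLinearMap.smulRight_apply, _root_.smul_apply, innerSL_apply_apply,
    smul_eq_mul]
  field_simp

lemma D2_sum {ι : Type} (s : Finset ι) (g : ι → E m → ℝ) (hg : ∀ k, ContDiff ℝ 2 (g k))
    (x v w : E m) : D2 (fun y => ∑ k ∈ s, g k y) x v w = ∑ k ∈ s, D2 (g k) x v w := by
  classical
  induction s using Finset.induction_on with
  | empty =>
    simp only [Finset.sum_empty]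
    unfold D2
    simp
  | insert a s ha ih =>
    rw [Finset.sum_insert ha, ← ih]
    have h1 : (fun y => ∑ k ∈ insert a s, g k y) = fun y => g a y + ∑ k ∈ s, g k y := by
      funext y
      rw [Finset.sum_insert ha]
    rw [h1]
    exact (gPRD m).2.2.1 (g a) (fun y => ∑ k ∈ s, g k y) (hg a)
      (ContDiff.sum fun k _ => hg k) x v w

lemma cpt {n : ℕ} {F : Type} [NormedAddCommGroup F] (g : E n → F) (hg : Continuous g)
    (h0 : ∀ x, 4 < ‖x‖ → g x = 0) : ∃ A : ℝ, 0 ≤ A ∧ ∀ x, ‖g x‖ ≤ A := by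
  obtain ⟨C, hC⟩ := (isCompact_closedBall (0 : E n) 4).exists_bound_of_continuousOn
    hg.continuousOn
  have hC0 : 0 ≤ C := (norm_nonneg _).trans (hC 0 (by simp))
  refine ⟨C, hC0, fun x => ?_⟩
  rcases le_or_gt ‖x‖ 4 with h | h
  · exact hC x (by rwa [mem_closedBall_zero_iff])
  · rw [h0 x h, norm_zero]
    exact hC0

lemma fd0 {n : ℕ} {F : Type} [NormedAddCommGroup F] [NormedSpace ℝ F] (g : E n → F)
    (h0 : ∀ x, 4 < ‖x‖ → g x = 0) (x : E n) (hx : 4 < ‖x‖) : fderiv ℝ g x = 0 := by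
  have h1 : g =ᶠ[𝓝 x] fun _ => 0 := by
    have h2 : {y : E n | 4 < ‖y‖} ∈ 𝓝 x :=
      (isOpen_lt continuous_const continuous_norm).mem_nhds hx
    filter_upwards [h2] with y hy
    exact h0 y hy
  rw [h1.fderiv_eq]
  simp

lemma bd {n : ℕ} (α : E n → ℝ) (hα : SmE α) (h0 : ∀ x, 4 ≤ ‖x‖ → α x = 0) :
    ∃ A : ℝ, 0 ≤ A ∧ (∀ x, |α x| ≤ A) ∧ (∀ x v, |fderiv ℝ α x v| ≤ A * ‖v‖) ∧
      ∀ x v w, |D2 α x v w| ≤ A * (‖v‖ * ‖w‖) := by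
  have hα' : ContDiff ℝ 2 α := contDiff_infty.1 hα 2
  have h1 : ContDiff ℝ 1 (fderiv ℝ α) := hα'.fderiv_right (by norm_num)
  have h2 : Continuous (fderiv ℝ (fderiv ℝ α)) := h1.continuous_fderiv (by norm_num)
  have z0 : ∀ x, 4 < ‖x‖ → α x = 0 := fun x hx => h0 x hx.le
  have z1 : ∀ x, 4 < ‖x‖ → fderiv ℝ α x = 0 := fd0 α z0
  have z2 : ∀ x, 4 < ‖x‖ → fderiv ℝ (fderiv ℝ α) x = 0 := fd0 (fderiv ℝ α) z1
  obtain ⟨A0, p0, hA0⟩ := cpt α hα'.continuous z0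
  obtain ⟨A1, p1, hA1⟩ := cpt (fderiv ℝ α) h1.continuous z1
  obtain ⟨A2, p2, hA2⟩ := cpt (fderiv ℝ (fderiv ℝ α)) h2 z2
  refine ⟨A0 + A1 + A2, by positivity, fun x => ?_, fun x v => ?_, fun x v w => ?_⟩
  · have h3 := hA0 x
    rw [Real.norm_eq_abs] at h3
    linarith
  · have h3 := (fderiv ℝ α x).le_opNorm v
    rw [Real.norm_eq_abs] at h3
    refine h3.trans (mul_le_mul_of_nonneg_right ?_ (norm_nonneg _))
    have h4 := hA1 x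
    linarith
  · have h3 : ‖fderiv ℝ (fderiv ℝ α) x v w‖ ≤ ‖fderiv ℝ (fderiv ℝ α) x v‖ * ‖w‖ :=
      (fderiv ℝ (fderiv ℝ α) x v).le_opNorm w
    have h5 : ‖fderiv ℝ (fderiv ℝ α) x v‖ ≤ ‖fderiv ℝ (fderiv ℝ α) x‖ * ‖v‖ :=
      (fderiv ℝ (fderiv ℝ α) x).le_opNorm v
    rw [Real.norm_eq_abs] at h3
    unfold D2
    refine h3.trans ?_
    have h4 : ‖fderiv ℝ (fderiv ℝ α) x‖ ≤ A0 + A1 + A2 := by
      have := hA2 x
      linarith
    have h6 : ‖fderiv ℝ (fderiv ℝ α) x v‖ ≤ (A0 + A1 + A2) * ‖v‖ :=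
      h5.trans (mul_le_mul_of_nonneg_right h4 (norm_nonneg _))
    calc ‖fderiv ℝ (fderiv ℝ α) x v‖ * ‖w‖ ≤ (A0 + A1 + A2) * ‖v‖ * ‖w‖ :=
          mul_le_mul_of_nonneg_right h6 (norm_nonneg _)
      _ = (A0 + A1 + A2) * (‖v‖ * ‖w‖) := by ring

lemma term (α : E m → ℝ) (hα : SmE α) (ξ : E m) (A Λ t : ℝ) (hΛ : 1 ≤ Λ) (hA : 0 ≤ A)
    (h1 : ∀ x v, |fderiv ℝ α x v| ≤ A * ‖v‖) (h2 : ∀ x v w, |D2 α x v w| ≤ A * (‖v‖ * ‖w‖))
    (x v w : E m) :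
    |D2 (fun y => α y * wave ξ Λ t y) x v w -
      α x * Real.cos (ph ξ Λ t x) * (inner ℝ ξ v * inner ℝ ξ w)| ≤
      (2 * A * ‖ξ‖ + A) / Λ * (‖v‖ * ‖w‖) := by
  have hΛ0 : 0 < Λ := by linarith
  have hα2 : ContDiff ℝ 2 α := contDiff_infty.1 hα 2
  rw [(gPRD m).1 α (wave ξ Λ t) hα2 (wave_cd ξ Λ t 2) x v w, wave_D2 ξ Λ t hΛ0.ne',
    wave_fderiv ξ Λ t hΛ0.ne', wave_fderiv ξ Λ t hΛ0.ne']
  have e1 : α x * (Real.cos (ph ξ Λ t x) * (inner ℝ ξ v * inner ℝ ξ w)) +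
      fderiv ℝ α x v * (Real.sin (ph ξ Λ t x) / Λ * inner ℝ ξ w) +
      fderiv ℝ α x w * (Real.sin (ph ξ Λ t x) / Λ * inner ℝ ξ v) +
      wave ξ Λ t x * D2 α x v w - α x * Real.cos (ph ξ Λ t x) * (inner ℝ ξ v * inner ℝ ξ w) =
      fderiv ℝ α x v * inner ℝ ξ w * (Real.sin (ph ξ Λ t x) / Λ) +
      fderiv ℝ α x w * inner ℝ ξ v * (Real.sin (ph ξ Λ t x) / Λ) +
      wave ξ Λ t x * D2 α x v w := by ring
  rw [e1]
  have hs : |Real.sin (ph ξ Λ t x) / Λ| ≤ 1 / Λ := by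
    rw [abs_div, abs_of_pos hΛ0]
    exact div_le_div_of_nonneg_right (Real.abs_sin_le_one _) hΛ0.le
  have hw : |wave ξ Λ t x| ≤ 1 / Λ := by
    unfold wave
    rw [abs_div, abs_neg, abs_of_pos (by positivity : 0 < Λ ^ 2)]
    have h3 : |Real.cos (ph ξ Λ t x)| / Λ ^ 2 ≤ 1 / Λ ^ 2 :=
      div_le_div_of_nonneg_right (Real.abs_cos_le_one _) (by positivity)
    refine h3.trans ?_
    refine one_div_le_one_div_of_le hΛ0 ?_
    nlinarith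
  have hv : |inner ℝ ξ v| ≤ ‖ξ‖ * ‖v‖ := abs_real_inner_le_norm ξ v
  have hw' : |inner ℝ ξ w| ≤ ‖ξ‖ * ‖w‖ := abs_real_inner_le_norm ξ w
  have b1 : |fderiv ℝ α x v * inner ℝ ξ w * (Real.sin (ph ξ Λ t x) / Λ)| ≤
      A * ‖v‖ * (‖ξ‖ * ‖w‖) * (1 / Λ) := by
    rw [abs_mul, abs_mul]
    exact mul_le_mul (mul_le_mul (h1 x v) hw' (abs_nonneg _) (by positivity)) hs (abs_nonneg _)
      (by positivity)
  have b2 : |fderiv ℝ α x w * inner ℝ ξ v * (Real.sin (ph ξ Λ t x) / Λ)| ≤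
      A * ‖w‖ * (‖ξ‖ * ‖v‖) * (1 / Λ) := by
    rw [abs_mul, abs_mul]
    exact mul_le_mul (mul_le_mul (h1 x w) hv (abs_nonneg _) (by positivity)) hs (abs_nonneg _)
      (by positivity)
  have b3 : |wave ξ Λ t x * D2 α x v w| ≤ 1 / Λ * (A * (‖v‖ * ‖w‖)) := by
    rw [abs_mul]
    exact mul_le_mul hw (h2 x v w) (abs_nonneg _) (by positivity)
  refine (abs_add_le _ _).trans ((add_le_add ((abs_add_le _ _).trans (add_le_add b1 b2))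
    b3).trans (le_of_eq ?_))
  ring

end WDD_

open WDD_ in
theorem p_WDD : T_WDD := by
  intro m f0 hf0 h00 ι _ ξ α hα h0
  choose A hA hA0 hA1 hA2 using fun k => bd (α k) (hα k) (h0 k)
  have hf02 : ContDiff ℝ 2 f0 := contDiff_infty.1 hf0 2
  have hα2 : ∀ k, ContDiff ℝ 2 (α k) := fun k => contDiff_infty.1 (hα k) 2
  have hfw : ∀ (Λ : ℝ) (θ : ι → Fin 4), fw f0 ξ α Λ θ = fun x => f0 x +
      ∑ k, α k x * wave (ξ k) Λ (((θ k : ℕ) : ℝ) * (Real.pi / 2)) x := by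
    intro Λ θ
    funext x
    unfold fw wave ph
    rw [sub_eq_add_neg, ← Finset.sum_neg_distrib]
    congr 1
    refine Finset.sum_congr rfl fun k _ => ?_
    ring
  have hB : 0 ≤ ∑ k, (A k + (2 * A k * ‖ξ k‖ + A k)) :=
    Finset.sum_nonneg fun k _ => by
      have := hA k
      positivity
  refine ⟨∑ k, (A k + (2 * A k * ‖ξ k‖ + A k)), hB, ?_⟩
  intro Λ hΛ θ
  have hΛ0 : 0 < Λ := by linarith
  refine ⟨?_, ?_, ?_, ?_⟩
  · rw [hfw]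
    refine ContDiff.add hf0 (ContDiff.sum fun k _ => ?_)
    exact ContDiff.mul (hα k) (wave_cd _ _ _ _)
  · intro x hx
    unfold fw
    rw [h00 x hx, Finset.sum_eq_zero fun k _ => by rw [h0 k x hx, zero_mul]]
    simp
  · intro x
    have e1 : fw f0 ξ α Λ θ x - f0 x =
        ∑ k, α k x * wave (ξ k) Λ (((θ k : ℕ) : ℝ) * (Real.pi / 2)) x := by
      rw [hfw]
      ring
    rw [e1, Finset.sum_div]
    refine (Finset.abs_sum_le_sum_abs _ _).trans (Finset.sum_le_sum fun k _ => ?_)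
    rw [abs_mul]
    have hw : |wave (ξ k) Λ (((θ k : ℕ) : ℝ) * (Real.pi / 2)) x| ≤ 1 / Λ := by
      unfold wave
      rw [abs_div, abs_neg, abs_of_pos (by positivity : 0 < Λ ^ 2)]
      have h3 : |Real.cos (ph (ξ k) Λ (((θ k : ℕ) : ℝ) * (Real.pi / 2)) x)| / Λ ^ 2 ≤
          1 / Λ ^ 2 :=
        div_le_div_of_nonneg_right (Real.abs_cos_le_one _) (by positivity)
      refine h3.trans ?_
      refine one_div_le_one_div_of_le hΛ0 ?_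
      nlinarith
    have h4 := mul_le_mul (hA0 k x) hw (abs_nonneg _) (hA k)
    refine h4.trans ?_
    rw [mul_one_div]
    refine div_le_div_of_nonneg_right ?_ hΛ0.le
    have := hA k
    have : 0 ≤ 2 * A k * ‖ξ k‖ := by positivity
    linarith
  · intro x v w
    have e1 : D2 (fw f0 ξ α Λ θ) x v w = D2 f0 x v w +
        ∑ k, D2 (fun y => α k y * wave (ξ k) Λ (((θ k : ℕ) : ℝ) * (Real.pi / 2)) y) x v w := by
      rw [hfw, (gPRD m).2.2.1 f0 (fun x => ∑ k, α k x *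
        wave (ξ k) Λ (((θ k : ℕ) : ℝ) * (Real.pi / 2)) x) hf02
        (ContDiff.sum fun k _ => (hα2 k).mul (wave_cd _ _ _ _)) x v w]
      rw [D2_sum Finset.univ (fun k y => α k y *
        wave (ξ k) Λ (((θ k : ℕ) : ℝ) * (Real.pi / 2)) y) (fun k => (hα2 k).mul (wave_cd _ _ _ _))]
    rw [e1, add_sub_add_left_eq_sub, ← Finset.sum_sub_distrib, Finset.sum_div, Finset.sum_mul]
    refine (Finset.abs_sum_le_sum_abs _ _).trans (Finset.sum_le_sum fun k _ => ?_)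
    have h3 := term (α k) (hα k) (ξ k) (A k) Λ (((θ k : ℕ) : ℝ) * (Real.pi / 2)) hΛ (hA k)
      (hA1 k) (hA2 k) x v w
    refine h3.trans (mul_le_mul_of_nonneg_right ?_ (by positivity))
    refine div_le_div_of_nonneg_right ?_ hΛ0.le
    have := hA k
    linarith

end Pool.Agent.GNS
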