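import Pool.Agent.GNS.T1

/-!
# GNS: the weak form of the functional (WKF)
-/

set_option autoImplicit false

open Metric Set Filter Topology MeasureTheory

noncomputable section

namespace Pool.Agent.GNS

namespace WKF_

/-- integration by parts twice -/
theorem ibp2 {b F : V → ℝ} (hb : Sm b) (hc : HasCompactSupport b) (hF : Sm F) (i j : Fin 4) :
    ∫ z, d i (d j b) z * F z = ∫ z, b z * d j (d i F) z := by
  have h1 := d_ibp hF (hb.d j) (hcs_d hc j) i
  have h2 := d_ibp (hF.d i) hb hc j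
  have h3 : ∫ z, d i (d j b) z * F z = ∫ z, F z * d i (d j b) z := by
    congr 1
    funext z
    ring
  have h4 : ∫ z, b z * d j (d i F) z = ∫ z, d j (d i F) z * b z := by
    congr 1
    funext z
    ring
  rw [h3, h4, h2, h1]
  ring

theorem int_b {b F : V → ℝ} (hb : Sm b) (hc : HasCompactSupport b) (hF : Sm F) :
    Integrable fun z => b z * F z :=
  int_of (hb.cont.mul hF.cont) hc.mul_right

/-- second derivatives of a product -/
theorem dd_mul {f g : V → ℝ} (hf : Sm f) (hg : Sm g) (i j : Fin 4) (z : V) :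
    d j (d i fun z => f z * g z) z = d j (d i f) z * g z + d i f z * d j g z +
      (d j f z * d i g z + f z * d j (d i g) z) := by
  have h1 : d i (fun z => f z * g z) = fun z => d i f z * g z + f z * d i g z :=
    funext fun z => d_mul hf hg i z
  rw [h1, d_add ((hf.d i).mul hg) (hf.mul (hg.d i)), d_mul (hf.d i) hg, d_mul hf (hg.d i)]

/-- third derivatives -/
theorem ddd {w : V → ℝ} (hw : Sm w) (i j k : Fin 4) (z : V) :
    d i (d j (d k w)) z = d k (d j (d i w)) z := by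
  rw [d_comm (hw.d k) i j, d_fun_comm hw i k, d_comm (hw.d i) j k]

theorem comb {f1 f2 f3 f4 : V → ℝ} (h1 : Integrable f1) (h2 : Integrable f2)
    (h3 : Integrable f3) (h4 : Integrable f4) :
    ∫ z, (f1 z - f2 z - f3 z + f4 z) =
      (∫ z, f1 z) - (∫ z, f2 z) - (∫ z, f3 z) + ∫ z, f4 z := by
  have e1 : ∫ z, (f1 z - f2 z - f3 z + f4 z) = (∫ z, (f1 z - f2 z - f3 z)) + ∫ z, f4 z :=
    integral_add (f := fun z => f1 z - f2 z - f3 z) ((h1.sub h2).sub h3) h4
  have e2 : ∫ z, (f1 z - f2 z - f3 z) = (∫ z, (f1 z - f2 z)) - ∫ z, f3 z :=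
    integral_sub (f := fun z => f1 z - f2 z) (h1.sub h2) h3
  rw [e1, e2, integral_sub h1 h2]

end WKF_

open WKF_ in
theorem p_WKF : T_WKF := by
  intro b w hb hc hw
  have h0 := hw.d 0
  have h1 := hw.d 1
  have h2 := hw.d 2
  have h3 := hw.d 3
  have key : ∀ (i j : Fin 4) (F : V → ℝ), Sm F → Integrable fun z => d i (d j b) z * F z :=
    fun i j F hF => int_b ((hb.d j).d i) (hcs_d (hcs_d hc j) i) hF
  have i1 := key 0 2 (fun z => d 1 w z * d 3 w z) (h1.mul h3)
  have i2 := key 1 2 (fun z => d 0 w z * d 3 w z) (h0.mul h3)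
  have i3 := key 0 3 (fun z => d 1 w z * d 2 w z) (h1.mul h2)
  have i4 := key 1 3 (fun z => d 0 w z * d 2 w z) (h0.mul h2)
  have j1 := int_b hb hc (((h1.mul h3).d 0).d 2)
  have j2 := int_b hb hc (((h0.mul h3).d 1).d 2)
  have j3 := int_b hb hc (((h1.mul h2).d 0).d 3)
  have j4 := int_b hb hc (((h0.mul h2).d 1).d 3)
  have e1 := ibp2 hb hc (h1.mul h3) 0 2
  have e2 := ibp2 hb hc (h0.mul h3) 1 2
  have e3 := ibp2 hb hc (h1.mul h2) 0 3
  have e4 := ibp2 hb hc (h0.mul h2) 1 3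
  unfold Qb
  rw [comb i1 i2 i3 i4, e1, e2, e3, e4, ← comb j1 j2 j3 j4, ← integral_const_mul]
  congr 1
  funext z
  rw [dd_mul h1 h3, dd_mul h0 h3, dd_mul h1 h2, dd_mul h0 h2, T12]
  have t1 : d 2 (d 0 (d 1 w)) z = d 2 (d 1 (d 0 w)) z := by rw [d_fun_comm hw 0 1]
  have t2 : d 3 (d 0 (d 1 w)) z = d 3 (d 1 (d 0 w)) z := by rw [d_fun_comm hw 0 1]
  have t3 := ddd hw 2 0 3 z
  have t4 := ddd hw 2 1 3 z
  have s01 := d_comm hw 1 0 z
  have s02 := d_comm hw 2 0 z
  have s12 := d_comm hw 2 1 z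
  have s03 := d_comm hw 3 0 z
  have s13 := d_comm hw 3 1 z
  have s23 := d_comm hw 3 2 z
  rw [t1, t2, t3, t4, s01, s02, s12, s03, s13, s23]
  ring

end Pool.Agent.GNS
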