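import Pool.Agent.GNS.T4

set_option autoImplicit false

/-!
# GNS: basic facts on `wK`
-/

open Metric Set Filter Topology MeasureTheory

noncomputable section

namespace Pool.Agent.GNS

open Pool.Agent.GLB

namespace WKL_

theorem up_cast {m : ℕ} (x : E m) (i : Fin m) : up x i.castSucc = x i := by
  simp [up]

theorem up_last {m : ℕ} (x : E m) : up x (Fin.last m) = 1 := by
  simp [up]

theorem ext_up {m : ℕ} {v w : E (m + 1)} (h : ∀ i : Fin m, v i.castSucc = w i.castSucc)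
    (h' : v (Fin.last m) = w (Fin.last m)) : v = w := by
  ext j
  exact Fin.lastCases h' h j

theorem up_comb {m : ℕ} (x y : E m) (a b : ℝ) (h : a + b = 1) :
    up (a • x + b • y) = a • up x + b • up y := by
  apply ext_up
  · intro i
    simp only [PiLp.add_apply, PiLp.smul_apply, smul_eq_mul, up_cast]
  · simp only [PiLp.add_apply, PiLp.smul_apply, smul_eq_mul, up_last]
    linarith

theorem up_add {m : ℕ} (x y : E m) : up (x + y) - up 0 = (up x - up 0) + (up y - up 0) := by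
  apply ext_up
  · intro i
    simp only [PiLp.add_apply, PiLp.sub_apply, up_cast, PiLp.zero_apply]
    ring
  · simp only [PiLp.add_apply, PiLp.sub_apply, up_last]
    ring

theorem up_smul {m : ℕ} (x : E m) (t : ℝ) : up (t • x) - up 0 = t • (up x - up 0) := by
  apply ext_up
  · intro i
    simp only [PiLp.smul_apply, PiLp.sub_apply, up_cast, PiLp.zero_apply, smul_eq_mul]
    ring
  · simp only [PiLp.smul_apply, PiLp.sub_apply, up_last, smul_eq_mul]
    ring

theorem norm_up_sub {m : ℕ} (x y : E m) : ‖up x - up y‖ = ‖x - y‖ := by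
  rw [EuclideanSpace.norm_eq, EuclideanSpace.norm_eq, Fin.sum_univ_castSucc]
  simp only [PiLp.sub_apply, up_cast, up_last, sub_self, norm_zero]
  simp

theorem norm_up_zero {m : ℕ} : ‖up (0 : E m)‖ = 1 := by
  rw [EuclideanSpace.norm_eq, Fin.sum_univ_castSucc]
  simp only [up_cast, up_last, PiLp.zero_apply, norm_zero]
  simp

theorem norm_up {m : ℕ} (x : E m) : ‖up x‖ ≤ 1 + ‖x‖ := by
  have h1 : up x = (up x - up 0) + up 0 := by abel
  have h2 := norm_add_le (up x - up 0) (up (0 : E m))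
  rw [← h1, norm_up_sub, norm_up_zero, sub_zero] at h2
  linarith

variable {k : ℕ}

theorem inj_add (z z' : V) : (inj (z + z') : E (k + 4)) = inj z + inj z' := by
  unfold inj
  simp only [Prod.fst_add, Prod.snd_add, add_smul]
  abel

theorem inj_smul (t : ℝ) (z : V) : (inj (t • z) : E (k + 4)) = t • inj z := by
  unfold inj
  simp only [Prod.smul_fst, Prod.smul_snd, smul_eq_mul, smul_add, smul_smul]

theorem inj_sub (z z' : V) : (inj (z - z') : E (k + 4)) = inj z - inj z' := by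
  have h : z - z' = z + (-1 : ℝ) • z' := by
    rw [neg_one_smul, sub_eq_add_neg]
  rw [h, inj_add, inj_smul, neg_one_smul, sub_eq_add_neg]

theorem inner_eb {n : ℕ} (i j : Fin n) : inner ℝ (eb i) (eb j) = if i = j then (1 : ℝ) else 0 := by
  unfold eb
  rw [EuclideanSpace.inner_single_left, PiLp.single_apply]
  simp

theorem v0 : ((0 : Fin (k + 4)) : ℕ) = 0 := rfl

theorem v1 : ((1 : Fin (k + 4)) : ℕ) = 1 := by
  show 1 % (k + 4) = 1
  exact Nat.mod_eq_of_lt (by omega)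

theorem v2 : ((2 : Fin (k + 4)) : ℕ) = 2 := by
  show 2 % (k + 4) = 2
  exact Nat.mod_eq_of_lt (by omega)

theorem v3 : ((3 : Fin (k + 4)) : ℕ) = 3 := by
  show 3 % (k + 4) = 3
  exact Nat.mod_eq_of_lt (by omega)

theorem n01 : (0 : Fin (k + 4)) ≠ 1 := by
  rw [Ne, Fin.ext_iff, v0, v1]
  omega

theorem n02 : (0 : Fin (k + 4)) ≠ 2 := by
  rw [Ne, Fin.ext_iff, v0, v2]
  omega

theorem n03 : (0 : Fin (k + 4)) ≠ 3 := by
  rw [Ne, Fin.ext_iff, v0, v3]
  omega

theorem n12 : (1 : Fin (k + 4)) ≠ 2 := by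
  rw [Ne, Fin.ext_iff, v1, v2]
  omega

theorem n13 : (1 : Fin (k + 4)) ≠ 3 := by
  rw [Ne, Fin.ext_iff, v1, v3]
  omega

theorem n23 : (2 : Fin (k + 4)) ≠ 3 := by
  rw [Ne, Fin.ext_iff, v2, v3]
  omega

theorem norm_inj_sq (z : V) : ‖(inj z : E (k + 4))‖ ^ 2 =
    z.1.1 ^ 2 + z.1.2 ^ 2 + z.2.1 ^ 2 + z.2.2 ^ 2 := by
  rw [← real_inner_self_eq_norm_sq]
  unfold inj
  simp only [inner_add_left, inner_add_right, real_inner_smul_left, real_inner_smul_right,
    inner_eb, if_neg n01, if_neg n02, if_neg n03, if_neg n12, if_neg n13, if_neg n23,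
    if_neg n01.symm, if_neg n02.symm, if_neg n03.symm, if_neg n12.symm, if_neg n13.symm,
    if_neg n23.symm, if_true]
  ring

theorem norm_inj_le (z : V) : ‖(inj z : E (k + 4))‖ ≤ 2 * ‖z‖ := by
  have h1 : ‖z.1‖ ≤ ‖z‖ := norm_fst_le z
  have h2 : ‖z.2‖ ≤ ‖z‖ := norm_snd_le z
  have a1 : |z.1.1| ≤ ‖z‖ := (norm_fst_le z.1).trans h1
  have a2 : |z.1.2| ≤ ‖z‖ := (norm_snd_le z.1).trans h1
  have a3 : |z.2.1| ≤ ‖z‖ := (norm_fst_le z.2).trans h2
  have a4 : |z.2.2| ≤ ‖z‖ := (norm_snd_le z.2).trans h2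
  apply abs_le_of_sq_le_sq' _ (by positivity) |>.2
  rw [norm_inj_sq]
  have b1 : z.1.1 ^ 2 ≤ ‖z‖ ^ 2 := sq_le_sq' (abs_le.1 a1).1 (abs_le.1 a1).2
  have b2 : z.1.2 ^ 2 ≤ ‖z‖ ^ 2 := sq_le_sq' (abs_le.1 a2).1 (abs_le.1 a2).2
  have b3 : z.2.1 ^ 2 ≤ ‖z‖ ^ 2 := sq_le_sq' (abs_le.1 a3).1 (abs_le.1 a3).2
  have b4 : z.2.2 ^ 2 ≤ ‖z‖ ^ 2 := sq_le_sq' (abs_le.1 a4).1 (abs_le.1 a4).2
  nlinarith

theorem norm_inj_e (t : ℝ) (i : Fin 4) : ‖(inj (t • e i) : E (k + 4))‖ = |t| := by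
  rw [← sq_eq_sq₀ (norm_nonneg _) (abs_nonneg _), norm_inj_sq, sq_abs]
  fin_cases i <;> simp [e]

theorem g_sub (z z' : V) :
    ‖up (inj z : E (k + 4)) - up (inj z')‖ = ‖(inj (z - z') : E (k + 4))‖ := by
  rw [norm_up_sub, inj_sub]

theorem lip (K : ConvexBody (E (k + 4 + 1))) {R : ℝ}
    (hK : (K : Set (E (k + 4 + 1))) ⊆ closedBall 0 R) (z z' : V) :
    |wK K z - wK K z'| ≤ R * ‖(inj (z - z') : E (k + 4))‖ := by
  have h := ((gSUH _ K).2.2.2.2 R hK).2 (up (inj z)) (up (inj z'))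
  rw [g_sub] at h
  exact h

end WKL_

open WKL_

theorem p_WKL : T_WKL := by
  intro k
  have L4 : ∀ (K : ConvexBody (E (k + 4 + 1))) (R : ℝ), 0 ≤ R →
      (K : Set (E (k + 4 + 1))) ⊆ closedBall 0 R → ∀ z z', |wK K z - wK K z'| ≤
      4 * R * ‖z - z'‖ := by
    intro K R hR hK z z'
    have h1 := lip K hK z z'
    have h2 := mul_le_mul_of_nonneg_left (norm_inj_le (k := k) (z - z')) hR
    have h3 : 0 ≤ R * ‖z - z'‖ := by positivity
    linarith
  have Lb : ∀ (K : ConvexBody (E (k + 4 + 1))), ∃ R : ℝ, 0 ≤ R ∧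
      (K : Set (E (k + 4 + 1))) ⊆ closedBall 0 R := by
    intro K
    obtain ⟨R, hR⟩ := K.isCompact.isBounded.subset_closedBall 0
    exact ⟨max R 0, le_max_right _ _, hR.trans (closedBall_subset_closedBall (le_max_left _ _))⟩
  have Ll : ∀ (K : ConvexBody (E (k + 4 + 1))), ∃ C : NNReal, LipschitzWith C (wK K) := by
    intro K
    obtain ⟨R, hR, hK⟩ := Lb K
    refine ⟨(4 * R).toNNReal, LipschitzWith.of_dist_le_mul ?_⟩
    intro z z'
    rw [Real.coe_toNNReal _ (by positivity), Real.dist_eq, dist_eq_norm]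
    exact L4 K R hR hK z z'
  refine ⟨?_, ?_, ?_, ?_, ?_⟩
  · intro K
    obtain ⟨C, hC⟩ := Ll K
    refine ⟨⟨convex_univ, ?_⟩, hC.continuous, hC.ae_differentiableAt⟩
    intro z _ z' _ a b ha hb hab
    have h := (gSUH _ K).2.2.1.2 (mem_univ (up (inj z))) (mem_univ (up (inj z'))) ha hb hab
    have h2 : up (inj (a • z + b • z') : E (k + 4)) = a • up (inj z) + b • up (inj z') := by
      rw [inj_add, inj_smul, inj_smul, up_comb _ _ _ _ hab]
    rw [← h2] at h
    exact h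
  · intro K R hR hK
    have hl : ∀ (z : V) (t : ℝ) (i : Fin 4), |wK K (z + t • e i) - wK K z| ≤ R * |t| := by
      intro z t i
      have h := lip K hK (z + t • e i) z
      rw [add_sub_cancel_left, norm_inj_e] at h
      exact h
    refine ⟨L4 K R hR hK, hl, ?_⟩
    intro z i
    by_cases hd : DifferentiableAt ℝ (wK K) z
    · have h1 : HasDerivAt (fun s : ℝ => z + s • e i) (e i) 0 := by
        have := ((hasDerivAt_id (0 : ℝ)).smul_const (e i)).const_add z
        simpa using this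
      have h0 : z = z + (0 : ℝ) • e i := by simp
      have h2 : HasFDerivAt (wK K) (fderiv ℝ (wK K) z) (z + (0 : ℝ) • e i) := by
        rw [← h0]
        exact hd.hasFDerivAt
      have h3' := HasFDerivAt.comp_hasDerivAt (f := fun s : ℝ => z + s • e i) (0 : ℝ) h2 h1
      have h3 : HasDerivAt (fun s : ℝ => wK K (z + s • e i)) (fderiv ℝ (wK K) z (e i)) 0 := h3'
      have h4 := h3.le_of_lip' hR (Eventually.of_forall fun t => by
        have := hl z t i
        rw [← h0, Real.norm_eq_abs, Real.norm_eq_abs, sub_zero]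
        exact this)
      exact h4
    · unfold d
      rw [fderiv_zero_of_not_differentiableAt hd]
      simpa using hR
  · intro K L z
    have h1 := (gSUD _ K L).1 (up (inj z))
    have h2 : ‖up (inj z : E (k + 4))‖ ≤ 1 + 2 * ‖z‖ :=
      (norm_up _).trans (by linarith [norm_inj_le (k := k) z])
    exact h1.trans (mul_le_mul_of_nonneg_left h2 dist_nonneg)
  · intro K a
    obtain ⟨ℓ, hℓ⟩ : ∃ ℓ : V →ₗ[ℝ] ℝ, ∀ z, ℓ z = inner ℝ a (up (inj z : E (k + 4)) - up 0) :=
      ⟨{ toFun := fun z => inner ℝ a (up (inj z : E (k + 4)) - up 0)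
         map_add' := fun z z' => by rw [inj_add, up_add, inner_add_right]
         map_smul' := fun t z => by
          rw [inj_smul, up_smul, real_inner_smul_right]
          rfl }, fun z => rfl⟩
    refine ⟨LinearMap.toContinuousLinearMap ℓ, inner ℝ a (up (0 : E (k + 4))), ?_⟩
    intro z
    have h1 : LinearMap.toContinuousLinearMap ℓ z = ℓ z := rfl
    rw [h1, hℓ, inner_sub_right]
    have h2 : wK (K + pt a) z = supp K (up (inj z)) + supp (pt a) (up (inj z)) :=
      (gSUA _).2.2.1 K (pt a) (up (inj z))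
    rw [h2, (gSUA _).2.2.2.2.1]
    have h3 : wK K z = supp K (up (inj z)) := rfl
    rw [h3]
    ring
  · intro K t ht z
    exact (gSUA _).2.2.2.1 K t (up (inj z)) ht

end Pool.Agent.GNS
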