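import Pool.Agent.GNS.T1

set_option autoImplicit false

open Metric Set Filter Topology MeasureTheory

noncomputable section

namespace Pool.Agent.GNS

theorem YMD_low (φ φ1 φ2 : ℝ → ℝ) (a : ℝ) (h1 : ∀ t, HasDerivAt φ (φ1 t) t)
    (h2 : ∀ t, HasDerivAt φ1 (φ2 t) t) (ha : ∀ t, a ≤ φ2 t) :
    φ 0 + φ1 0 + a / 2 ≤ φ 1 := by
  have hm : Monotone (fun t => φ1 t - a * t) := by
    have hd : ∀ t, HasDerivAt (fun t => φ1 t - a * t) (φ2 t - a) t := by
      intro t
      have := (h2 t).fun_sub ((hasDerivAt_id' t).const_mul a)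
      exact this.congr_deriv (by ring)
    apply monotone_of_deriv_nonneg (fun t => (hd t).differentiableAt)
    intro t
    rw [(hd t).deriv]
    linarith [ha t]
  have hd : ∀ t, HasDerivAt (fun t => φ t - φ1 0 * t - a / 2 * t ^ 2)
      (φ1 t - φ1 0 - a * t) t := by
    intro t
    have e1 := (h1 t).fun_sub ((hasDerivAt_id' t).const_mul (φ1 0))
    have e2 := e1.fun_sub ((hasDerivAt_pow 2 t).const_mul (a / 2))
    refine e2.congr_deriv ?_
    simp only [Nat.cast_ofNat]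
    ring
  have hmo : MonotoneOn (fun t => φ t - φ1 0 * t - a / 2 * t ^ 2) (Icc 0 1) := by
    apply monotoneOn_of_deriv_nonneg (convex_Icc 0 1)
    · exact fun t _ => (hd t).continuousAt.continuousWithinAt
    · exact fun t _ => (hd t).differentiableAt.differentiableWithinAt
    · intro t ht
      rw [interior_Icc] at ht
      rw [(hd t).deriv]
      have := hm ht.1.le
      simp only at this
      linarith
  have := hmo (left_mem_Icc.2 zero_le_one) (right_mem_Icc.2 zero_le_one) zero_le_one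
  simp only at this
  linarith

theorem YMD_up (φ φ1 φ2 : ℝ → ℝ) (a : ℝ) (h1 : ∀ t, HasDerivAt φ (φ1 t) t)
    (h2 : ∀ t, HasDerivAt φ1 (φ2 t) t) (ha : ∀ t, φ2 t ≤ a) :
    φ 1 ≤ φ 0 + φ1 0 + a / 2 := by
  have := YMD_low (fun t => -φ t) (fun t => -φ1 t) (fun t => -φ2 t) (-a)
    (fun t => (h1 t).neg) (fun t => (h2 t).neg) (fun t => by linarith [ha t])
  linarith

/-- a vector in the `y` plane -/
def YMD_v (a b : ℝ) : V := ((0, 0), (a, b))

theorem YMD_taylor (η : ℝ) (u : V → ℝ) (hu : Uc η u) (z : V) (a b : ℝ) :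
    u z + (a * d 2 u z + b * d 3 u z) ≤ u (z + YMD_v a b) ∧
    u (z + YMD_v a b) ≤ u z + (a * d 2 u z + b * d 3 u z) + (a ^ 2 + b ^ 2) / η / 2 := by
  have h1 : ∀ t : ℝ, HasDerivAt (fun s : ℝ => u (z + s • YMD_v a b))
      (a * d 2 u (z + t • YMD_v a b) + b * d 3 u (z + t • YMD_v a b)) t := by
    intro t
    have := line_deriv hu.sm z (YMD_v a b) t
    rw [fd_eq] at this
    simpa [YMD_v] using this
  have h2 : ∀ t : ℝ, HasDerivAt
      (fun t : ℝ => a * d 2 u (z + t • YMD_v a b) + b * d 3 u (z + t • YMD_v a b))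
      (a ^ 2 * d 2 (d 2 u) (z + t • YMD_v a b) + 2 * a * b * d 2 (d 3 u) (z + t • YMD_v a b) +
        b ^ 2 * d 3 (d 3 u) (z + t • YMD_v a b)) t := by
    intro t
    have e2 := line_deriv (hu.sm.d 2) z (YMD_v a b) t
    have e3 := line_deriv (hu.sm.d 3) z (YMD_v a b) t
    rw [fd_eq] at e2 e3
    have e4 := (e2.const_mul a).fun_add (e3.const_mul b)
    refine e4.congr_deriv ?_
    rw [d_comm hu.sm 3 2]
    simp only [YMD_v]
    ring
  constructor
  · have := YMD_low _ _ _ 0 h1 h2 (fun t => hu.lo _ a b)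
    simpa using this
  · have := YMD_up _ _ _ ((a ^ 2 + b ^ 2) / η) h1 h2 (fun t => hu.hi _ a b)
    simpa using this

theorem YMD_xlip (η : ℝ) (u : V → ℝ) (hu : Uc η u) (x x' p : X2) (c : ℝ)
    (h0 : |x.1 - x'.1| ≤ c) (h1 : |x.2 - x'.2| ≤ c) :
    |u (x, p) - u (x', p)| ≤ 2 * c := by
  have hd : ∀ t : ℝ, HasDerivAt (fun s : ℝ => u ((x', p) + s • ((x - x', 0) : V)))
      ((x.1 - x'.1) * d 0 u ((x', p) + t • ((x - x', 0) : V)) +
        (x.2 - x'.2) * d 1 u ((x', p) + t • ((x - x', 0) : V))) t := by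
    intro t
    have := line_deriv hu.sm (x', p) ((x - x', 0) : V) t
    rw [fd_eq] at this
    simpa using this
  have hb := norm_image_sub_le_of_norm_deriv_le_segment_01' (C := 2 * c)
    (fun t _ => (hd t).hasDerivWithinAt) (fun t _ => ?_)
  · have e1 : ((x', p) + (1 : ℝ) • ((x - x', 0) : V)) = (x, p) := by
      ext <;> simp
    have e0 : ((x', p) + (0 : ℝ) • ((x - x', 0) : V)) = (x', p) := by
      ext <;> simp
    simp only [e1, e0] at hb
    exact hb
  · rw [Real.norm_eq_abs]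
    refine (abs_add_le _ _).trans ?_
    rw [abs_mul, abs_mul]
    have hc : 0 ≤ c := (abs_nonneg _).trans h0
    have m1 := mul_le_mul h0 (hu.bd0 ((x', p) + t • ((x - x', 0) : V))) (abs_nonneg _) hc
    have m2 := mul_le_mul h1 (hu.bd1 ((x', p) + t • ((x - x', 0) : V))) (abs_nonneg _) hc
    linarith

theorem YMD_form (m1 m2 m3 η a b c d' s : ℝ) (hη : 0 < η) (hs : 0 ≤ s)
    (lo : ∀ a b : ℝ, 0 ≤ a ^ 2 * m1 + 2 * a * b * m2 + b ^ 2 * m3)
    (hi : ∀ a b : ℝ, a ^ 2 * m1 + 2 * a * b * m2 + b ^ 2 * m3 ≤ (a ^ 2 + b ^ 2) / η)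
    (hab : a ^ 2 + b ^ 2 ≤ 1) (hcd : c ^ 2 + d' ^ 2 ≤ 4 * s ^ 2) :
    |a * c * m1 + (a * d' + b * c) * m2 + b * d' * m3| ≤ 2 * s / η := by
  rcases hs.eq_or_lt with rfl | hs0
  · have hc : c = 0 := by nlinarith [sq_nonneg c, sq_nonneg d']
    have hd : d' = 0 := by nlinarith [sq_nonneg c, sq_nonneg d']
    subst hc; subst hd; simp
  · -- use the polarization with the scaling t
    have key : ∀ ε : ℝ, ε ^ 2 = 1 → ε * (a * c * m1 + (a * d' + b * c) * m2 + b * d' * m3) ≤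
        2 * s / η := by
      intro ε hε
      have e1 := lo (2 * s * a - ε * c) (2 * s * b - ε * d')
      have e2 := hi (2 * s * a) (2 * s * b)
      have e3 := hi c d'
      have e4 : ((2 * s * a) ^ 2 + (2 * s * b) ^ 2) / η ≤ 4 * s ^ 2 / η := by
        gcongr
        nlinarith [sq_nonneg s]
      have e5 : (c ^ 2 + d' ^ 2) / η ≤ 4 * s ^ 2 / η := by
        gcongr
      have e6 : 4 * s * (ε * (a * c * m1 + (a * d' + b * c) * m2 + b * d' * m3)) ≤
          4 * s ^ 2 / η + 4 * s ^ 2 / η := by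
        have e7 : (2 * s * a - ε * c) ^ 2 * m1 +
            2 * (2 * s * a - ε * c) * (2 * s * b - ε * d') * m2 +
            (2 * s * b - ε * d') ^ 2 * m3 =
          ((2 * s * a) ^ 2 * m1 + 2 * (2 * s * a) * (2 * s * b) * m2 + (2 * s * b) ^ 2 * m3) +
          ε ^ 2 * (c ^ 2 * m1 + 2 * c * d' * m2 + d' ^ 2 * m3) -
          4 * s * (ε * (a * c * m1 + (a * d' + b * c) * m2 + b * d' * m3)) := by ring
        rw [e7, hε] at e1
        linarith
      have e8 : 4 * s ^ 2 / η + 4 * s ^ 2 / η = 4 * s * (2 * s / η) := by ring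
      rw [e8] at e6
      exact le_of_mul_le_mul_left e6 (by positivity)
    rw [abs_le]
    constructor
    · have := key (-1) (by norm_num)
      linarith
    · have := key 1 (by norm_num)
      linarith

theorem YMD_plip (η : ℝ) (u : V → ℝ) (hη : 0 < η) (hu : Uc η u) (x p p' : X2) (c : ℝ)
    (h0 : |p.1 - p'.1| ≤ c) (h1 : |p.2 - p'.2| ≤ c) :
    |d 2 u (x, p) - d 2 u (x, p')| ≤ 2 * c / η ∧
    |d 3 u (x, p) - d 3 u (x, p')| ≤ 2 * c / η := by
  have hc : 0 ≤ c := (abs_nonneg _).trans h0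
  have hcd : (p.1 - p'.1) ^ 2 + (p.2 - p'.2) ^ 2 ≤ 4 * c ^ 2 := by
    have a0 : (p.1 - p'.1) ^ 2 ≤ c ^ 2 := sq_le_sq.2 (by rwa [abs_of_nonneg hc])
    have a1 : (p.2 - p'.2) ^ 2 ≤ c ^ 2 := sq_le_sq.2 (by rwa [abs_of_nonneg hc])
    nlinarith [sq_nonneg c]
  have e1 : ((x, p') + (1 : ℝ) • ((0, p - p') : V)) = (x, p) := by
    ext <;> simp
  have e0 : ((x, p') + (0 : ℝ) • ((0, p - p') : V)) = (x, p') := by
    ext <;> simp
  constructor
  · have hd : ∀ t : ℝ, HasDerivAt (fun s : ℝ => d 2 u ((x, p') + s • ((0, p - p') : V)))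
        ((p.1 - p'.1) * d 2 (d 2 u) ((x, p') + t • ((0, p - p') : V)) +
          (p.2 - p'.2) * d 3 (d 2 u) ((x, p') + t • ((0, p - p') : V))) t := by
      intro t
      have := line_deriv (hu.sm.d 2) (x, p') ((0, p - p') : V) t
      rw [fd_eq] at this
      simpa using this
    have hb := norm_image_sub_le_of_norm_deriv_le_segment_01' (C := 2 * c / η)
      (fun t _ => (hd t).hasDerivWithinAt) (fun t _ => ?_)
    · simp only [e1, e0] at hb
      exact hb
    · rw [Real.norm_eq_abs, d_comm hu.sm 3 2]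
      have := YMD_form (d 2 (d 2 u) ((x, p') + t • ((0, p - p') : V)))
        (d 2 (d 3 u) ((x, p') + t • ((0, p - p') : V)))
        (d 3 (d 3 u) ((x, p') + t • ((0, p - p') : V))) η 1 0 (p.1 - p'.1) (p.2 - p'.2) c hη hc
        (hu.lo _) (hu.hi _) (by norm_num) hcd
      refine (le_of_eq ?_).trans this
      congr 1
      ring
  · have hd : ∀ t : ℝ, HasDerivAt (fun s : ℝ => d 3 u ((x, p') + s • ((0, p - p') : V)))
        ((p.1 - p'.1) * d 2 (d 3 u) ((x, p') + t • ((0, p - p') : V)) +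
          (p.2 - p'.2) * d 3 (d 3 u) ((x, p') + t • ((0, p - p') : V))) t := by
      intro t
      have := line_deriv (hu.sm.d 3) (x, p') ((0, p - p') : V) t
      rw [fd_eq] at this
      simpa using this
    have hb := norm_image_sub_le_of_norm_deriv_le_segment_01' (C := 2 * c / η)
      (fun t _ => (hd t).hasDerivWithinAt) (fun t _ => ?_)
    · simp only [e1, e0] at hb
      exact hb
    · rw [Real.norm_eq_abs]
      have := YMD_form (d 2 (d 2 u) ((x, p') + t • ((0, p - p') : V)))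
        (d 2 (d 3 u) ((x, p') + t • ((0, p - p') : V)))
        (d 3 (d 3 u) ((x, p') + t • ((0, p - p') : V))) η 0 1 (p.1 - p'.1) (p.2 - p'.2) c hη hc
        (hu.lo _) (hu.hi _) (by norm_num) hcd
      refine (le_of_eq ?_).trans this
      congr 1
      ring

theorem YMD_grad (η : ℝ) (u : V → ℝ) (hη : 0 < η) (hu : Uc η u) (x x' p : X2) (c : ℝ)
    (h0 : |x.1 - x'.1| ≤ c) (h1 : |x.2 - x'.2| ≤ c) :
    |d 2 u (x, p) - d 2 u (x', p)| ≤ Real.sqrt (8 * c / η) ∧
    |d 3 u (x, p) - d 3 u (x', p)| ≤ Real.sqrt (8 * c / η) := by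
  set A := d 2 u (x', p) - d 2 u (x, p) with hA
  set B := d 3 u (x', p) - d 3 u (x, p) with hB
  have t1 := (YMD_taylor η u hu (x', p) (η * A) (η * B)).1
  have t2 := (YMD_taylor η u hu (x, p) (η * A) (η * B)).2
  have e1 : ((x', p) : V) + YMD_v (η * A) (η * B) = (x', p + (η * A, η * B)) := by
    simp [YMD_v]
  have e2 : ((x, p) : V) + YMD_v (η * A) (η * B) = (x, p + (η * A, η * B)) := by
    simp [YMD_v]
  rw [e1] at t1
  rw [e2] at t2
  have l1 := abs_le.1 (YMD_xlip η u hu x x' p c h0 h1)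
  have l2 := abs_le.1 (YMD_xlip η u hu x x' (p + (η * A, η * B)) c h0 h1)
  have e3 : ((η * A) ^ 2 + (η * B) ^ 2) / η / 2 = η * (A ^ 2 + B ^ 2) / 2 := by
    field_simp
  rw [e3] at t2
  have e4 : η * (A ^ 2 + B ^ 2) ≤ 8 * c := by
    have : η * A * d 2 u (x', p) + η * B * d 3 u (x', p) -
        (η * A * d 2 u (x, p) + η * B * d 3 u (x, p)) = η * (A ^ 2 + B ^ 2) := by
      rw [hA, hB]; ring
    linarith [l1.1, l1.2, l2.1, l2.2]
  have e5 : A ^ 2 + B ^ 2 ≤ 8 * c / η := by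
    rw [le_div_iff₀ hη]
    linarith
  constructor
  · rw [abs_sub_comm]
    apply Real.abs_le_sqrt
    nlinarith [sq_nonneg B]
  · rw [abs_sub_comm]
    apply Real.abs_le_sqrt
    nlinarith [sq_nonneg A]

theorem p_YMD : T_YMD := by
  intro η u hη hu z z'
  obtain ⟨x, p⟩ := z
  obtain ⟨x', p'⟩ := z'
  have n1 : ‖x - x'‖ ≤ ‖((x, p) : V) - (x', p')‖ := by
    rw [Prod.mk_sub_mk, Prod.norm_def]
    exact le_max_left _ _
  have n2 : ‖p - p'‖ ≤ ‖((x, p) : V) - (x', p')‖ := by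
    rw [Prod.mk_sub_mk, Prod.norm_def]
    exact le_max_right _ _
  have m1 : |x.1 - x'.1| ≤ ‖((x, p) : V) - (x', p')‖ :=
    (norm_fst_le (x - x')).trans n1
  have m2 : |x.2 - x'.2| ≤ ‖((x, p) : V) - (x', p')‖ :=
    (norm_snd_le (x - x')).trans n1
  have m3 : |p.1 - p'.1| ≤ ‖((x, p) : V) - (x', p')‖ :=
    (norm_fst_le (p - p')).trans n2
  have m4 : |p.2 - p'.2| ≤ ‖((x, p) : V) - (x', p')‖ :=
    (norm_snd_le (p - p')).trans n2
  obtain ⟨a1, a2⟩ := YMD_plip η u hη hu x p p' _ m3 m4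
  obtain ⟨b1, b2⟩ := YMD_grad η u hη hu x x' p' _ m1 m2
  constructor
  · have := abs_sub_le (d 2 u (x, p)) (d 2 u (x, p')) (d 2 u (x', p'))
    linarith
  · have := abs_sub_le (d 3 u (x, p)) (d 3 u (x, p')) (d 3 u (x', p'))
    linarith

end Pool.Agent.GNS
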