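import Pool.Agent.GNS.T3

/-!
# GNS: ZND, additivity on zonoids (helper14)
-/

set_option autoImplicit false

open Metric Set Filter Topology MeasureTheory

noncomputable section

namespace Pool.Agent.GNS

open Pool.Agent.GLB

namespace ZND_

/-- continuity of the sum of a fixed body and a convergent sequence -/
theorem add_left {n : ℕ} {f : ℕ → ConvexBody (E n)} {L : ConvexBody (E n)}
    (K : ConvexBody (E n)) (hf : Tendsto f atTop (𝓝 L)) :
    Tendsto (fun i => K + f i) atTop (𝓝 (K + L)) :=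
  add_tendsto (tendsto_const_nhds) hf

/-- continuity of the difference form in the second argument -/
theorem FF_tendsto {m k : ℕ} {Ψ : ConvexBody (E (m + 1)) → (C(S (m + 1), ℂ) →L[ℂ] ℂ)}
    (h : IsArea (m + 1) k Ψ) (φ : C(S (m + 1), ℂ)) (K : ConvexBody (E (m + 1)))
    {f : ℕ → ConvexBody (E (m + 1))} {L : ConvexBody (E (m + 1))}
    (hf : Tendsto f atTop (𝓝 L)) :
    Tendsto (fun i => FF Ψ φ K (f i)) atTop (𝓝 (FF Ψ φ K L)) := by
  have h1 : Tendsto (fun i => Ψ (K + f i) φ) atTop (𝓝 (Ψ (K + L) φ)) :=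
    ((h.cont φ).tendsto _).comp (add_left K hf)
  have h2 : Tendsto (fun i => Ψ (f i) φ) atTop (𝓝 (Ψ L φ)) :=
    ((h.cont φ).tendsto _).comp hf
  unfold FF
  exact (h1.sub tendsto_const_nhds).sub h2

theorem smul_tendsto {n : ℕ} {f : ℕ → ConvexBody (E n)} {L : ConvexBody (E n)} {t : ℝ}
    (ht : 0 ≤ t) (hf : Tendsto f atTop (𝓝 L)) :
    Tendsto (fun i => t • f i) atTop (𝓝 (t • L)) :=
  (((gCTA n).2.2.2.1 t ht).tendsto L).comp hf

theorem Zt_seg {m : ℕ} (κ : E m) (c : ℝ) : Zt (seg (kv κ c)) := by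
  have h := Zt.add 0 κ c 1 zero_le_one Zt.zero
  rwa [one_smul, zero_add] at h

end ZND_

open ZND_ in
theorem p_ZND (hZTP : T_ZTP) : T_ZND := by
  intro m Ψ hΨ R φ hφ Z Z' hZ hZ'
  obtain ⟨f, hf, hft⟩ := mem_closure_iff_seq_limit.1 hZ
  obtain ⟨g, hg, hgt⟩ := mem_closure_iff_seq_limit.1 hZ'
  have hfg := fun n => hZTP m Ψ hΨ R φ hφ (f n) (g n) (hf n) (hg n)
  refine ⟨?_, ?_, ?_, ?_, ?_⟩
  · exact mem_closure_iff_seq_limit.2 ⟨fun n => f n + g n, fun n => (hfg n).1,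
      add_tendsto hft hgt⟩
  · intro t ht
    exact mem_closure_iff_seq_limit.2 ⟨fun n => t • f n, fun n => (hfg n).2.1 t ht,
      smul_tendsto ht hft⟩
  · intro κ c
    exact subset_closure (Zt_seg κ c)
  · unfold FF
    rw [(gCTA (m + 1)).2.2.2.2.1 Z Z']
    ring
  · intro K
    refine ⟨?_, ?_⟩
    · have h1 := FF_tendsto hΨ (HC φ) K (add_tendsto hft hgt)
      have h2 := (FF_tendsto hΨ (HC φ) K hft).add (FF_tendsto hΨ (HC φ) K hgt)
      refine tendsto_nhds_unique h1 (h2.congr fun n => ?_)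
      exact (((hfg n).2.2 K).1).symm
    · intro t ht
      have h1 := FF_tendsto hΨ (HC φ) K (smul_tendsto ht hft)
      have h2 := (FF_tendsto hΨ (HC φ) K hft).const_mul (t : ℂ)
      refine tendsto_nhds_unique h1 (h2.congr fun n => ?_)
      exact (((hfg n).2.2 K).2 t ht).symm

end Pool.Agent.GNS
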