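import Pool.Agent.GNS.T3

set_option autoImplicit false

open Metric Set Filter Topology MeasureTheory

noncomputable section

namespace Pool.Agent.GNS

open Pool.Agent.GLB

variable {m : ℕ}

theorem ZTP_sz (t : ℝ) : t • (0 : ConvexBody (E (m + 1))) = 0 := by
  have h := smul_zero (A := ConvexBody (E (m + 1))) t
  exact h

theorem ZTP_add {Z Z' : ConvexBody (E (m + 1))} (hZ : Zt Z) (hZ' : Zt Z') : Zt (Z + Z') := by
  induction hZ' with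
  | zero => rw [add_zero]; exact hZ
  | add Z' κ c t ht _ ih => rw [← add_assoc]; exact Zt.add _ κ c t ht ih

theorem ZTP_smul {Z : ConvexBody (E (m + 1))} (hZ : Zt Z) {t : ℝ} (ht : 0 ≤ t) :
    Zt (t • Z) := by
  induction hZ with
  | zero => rw [ZTP_sz]; exact Zt.zero
  | add Z κ c s hs _ ih =>
    rw [smul_add, smul_smul]
    exact Zt.add _ κ c (t * s) (mul_nonneg ht hs) ih

/-- the second difference of `Ψ` does not depend on the base point -/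
theorem ZTP_dif (hTRI : T_TRI) (Ψ : ConvexBody (E (m + 1)) → (C(S (m + 1), ℂ) →L[ℂ] ℂ))
    (hΨ : IsArea (m + 1) 2 Ψ) (R : ℝ) (φ : E m → ℂ) (hφ : Tf R φ) (κ : E m) (c t : ℝ)
    (ht : 0 ≤ t) (K : ConvexBody (E (m + 1))) {Z : ConvexBody (E (m + 1))} (hZ : Zt Z) :
    Ψ (K + Z + t • seg (kv κ c)) (HC φ) - Ψ (K + Z) (HC φ) -
      (Ψ (Z + t • seg (kv κ c)) (HC φ) - Ψ Z (HC φ)) =
    Ψ (K + t • seg (kv κ c)) (HC φ) - Ψ K (HC φ) := by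
  induction hZ with
  | zero =>
    obtain ⟨h0, h1, -⟩ := hTRI m Ψ hΨ κ κ c c t t ht ht R φ hφ
    rw [add_zero, zero_add, h0, h1]
    ring
  | add Z κ' c' s hs _ ih =>
    obtain ⟨-, -, h2⟩ := hTRI m Ψ hΨ κ' κ c' c s t hs ht R φ hφ
    have a1 := h2 (K + Z)
    have a2 := h2 Z
    rw [← add_assoc K Z]
    linear_combination ih + a1 - a2

theorem ZTP_one (hTRI : T_TRI) (Ψ : ConvexBody (E (m + 1)) → (C(S (m + 1), ℂ) →L[ℂ] ℂ))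
    (hΨ : IsArea (m + 1) 2 Ψ) (R : ℝ) (φ : E m → ℂ) (hφ : Tf R φ) (κ : E m) (c t : ℝ)
    (ht : 0 ≤ t) (K : ConvexBody (E (m + 1))) {Z : ConvexBody (E (m + 1))} (hZ : Zt Z) :
    FF Ψ (HC φ) K (Z + t • seg (kv κ c)) =
      FF Ψ (HC φ) K Z + FF Ψ (HC φ) K (t • seg (kv κ c)) := by
  have h := ZTP_dif hTRI Ψ hΨ R φ hφ κ c t ht K hZ
  obtain ⟨-, h1, -⟩ := hTRI m Ψ hΨ κ κ c c t t ht ht R φ hφ
  unfold FF
  rw [← add_assoc K Z, h1]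
  linear_combination h

theorem ZTP_zero (hTRI : T_TRI) (Ψ : ConvexBody (E (m + 1)) → (C(S (m + 1), ℂ) →L[ℂ] ℂ))
    (hΨ : IsArea (m + 1) 2 Ψ) (R : ℝ) (φ : E m → ℂ) (hφ : Tf R φ)
    (K : ConvexBody (E (m + 1))) : FF Ψ (HC φ) K 0 = 0 := by
  obtain ⟨h0, -, -⟩ := hTRI m Ψ hΨ 0 0 0 0 0 0 le_rfl le_rfl R φ hφ
  unfold FF
  rw [add_zero, h0]
  ring

/-- homogeneity in a segment -/
theorem ZTP_seg (hAFF : T_AFF) (hTRI : T_TRI)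
    (Ψ : ConvexBody (E (m + 1)) → (C(S (m + 1), ℂ) →L[ℂ] ℂ))
    (hΨ : IsArea (m + 1) 2 Ψ) (R : ℝ) (φ : E m → ℂ) (hφ : Tf R φ) (κ : E m) (c t : ℝ)
    (ht : 0 ≤ t) (K : ConvexBody (E (m + 1))) :
    FF Ψ (HC φ) K (t • seg (kv κ c)) =
      (t : ℂ) * (Ψ (K + seg (kv κ c)) (HC φ) - Ψ K (HC φ)) := by
  have h := hAFF m 2 Ψ hΨ K κ c t ht R φ hφ
  obtain ⟨-, h1, -⟩ := hTRI m Ψ hΨ κ κ c c t t ht ht R φ hφ
  unfold FF
  rw [h, h1]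
  ring

theorem p_ZTP (hAFF : T_AFF) (hTRI : T_TRI) : T_ZTP := by
  intro m Ψ hΨ R φ hφ Z Z' hZ hZ'
  refine ⟨ZTP_add hZ hZ', fun t ht => ZTP_smul hZ ht, fun K => ⟨?_, fun t ht => ?_⟩⟩
  · induction hZ' with
    | zero => rw [add_zero, ZTP_zero hTRI Ψ hΨ R φ hφ K, add_zero]
    | add Z' κ c t ht h' ih =>
      rw [← add_assoc, ZTP_one hTRI Ψ hΨ R φ hφ κ c t ht K (ZTP_add hZ h'), ih,
        ZTP_one hTRI Ψ hΨ R φ hφ κ c t ht K h']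
      ring
  · induction hZ with
    | zero => rw [ZTP_sz, ZTP_zero hTRI Ψ hΨ R φ hφ K, mul_zero]
    | add Z κ c s hs h ih =>
      rw [smul_add, smul_smul,
        ZTP_one hTRI Ψ hΨ R φ hφ κ c (t * s) (mul_nonneg ht hs) K (ZTP_smul h ht), ih,
        ZTP_one hTRI Ψ hΨ R φ hφ κ c s hs K h,
        ZTP_seg hAFF hTRI Ψ hΨ R φ hφ κ c (t * s) (mul_nonneg ht hs) K,
        ZTP_seg hAFF hTRI Ψ hΨ R φ hφ κ c s hs K]
      push_cast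
      ring

end Pool.Agent.GNS
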