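import Pool.Agent.GNS.P_AVB
import Pool.Agent.GNS.P_BAS
import Pool.Agent.GNS.P_CHT
import Pool.Agent.GNS.P_CNV
import Pool.Agent.GNS.P_COF
import Pool.Agent.GNS.P_CT3
import Pool.Agent.GNS.P_CTS
import Pool.Agent.GNS.P_DET
import Pool.Agent.GNS.P_DMK
import Pool.Agent.GNS.P_EMB
import Pool.Agent.GNS.P_EQD
import Pool.Agent.GNS.P_FUB
import Pool.Agent.GNS.P_GCV
import Pool.Agent.GNS.P_GLH
import Pool.Agent.GNS.P_HAT
import Pool.Agent.GNS.P_IBL
import Pool.Agent.GNS.P_INV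
import Pool.Agent.GNS.P_JEN
import Pool.Agent.GNS.P_KER
import Pool.Agent.GNS.P_LAD
import Pool.Agent.GNS.P_OSC
import Pool.Agent.GNS.P_PBE
import Pool.Agent.GNS.P_PBR
import Pool.Agent.GNS.P_PHS
import Pool.Agent.GNS.P_PKD
import Pool.Agent.GNS.P_PRF
import Pool.Agent.GNS.P_PRJ
import Pool.Agent.GNS.P_PSD
import Pool.Agent.GNS.P_QVA
import Pool.Agent.GNS.P_RTS
import Pool.Agent.GNS.P_SM0
import Pool.Agent.GNS.P_SM1
import Pool.Agent.GNS.P_SMW
import Pool.Agent.GNS.P_STA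
import Pool.Agent.GNS.P_STB
import Pool.Agent.GNS.P_STD
import Pool.Agent.GNS.P_SUV
import Pool.Agent.GNS.P_TGD
import Pool.Agent.GNS.P_VBR
import Pool.Agent.GNS.P_VSA
import Pool.Agent.GNS.P_WDD
import Pool.Agent.GNS.P_WKF
import Pool.Agent.GNS.P_WKL
import Pool.Agent.GNS.P_YMD
import Pool.Agent.GNS.P_AV0
import Pool.Agent.GNS.P_AV1
import Pool.Agent.GNS.P_CHG
import Pool.Agent.GNS.P_DME
import Pool.Agent.GNS.P_DMI
import Pool.Agent.GNS.P_DMW
import Pool.Agent.GNS.P_EXF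
import Pool.Agent.GNS.P_KN2
import Pool.Agent.GNS.P_LFE
import Pool.Agent.GNS.P_LFP
import Pool.Agent.GNS.P_LG1
import Pool.Agent.GNS.P_LOC
import Pool.Agent.GNS.P_MAB
import Pool.Agent.GNS.P_MSP
import Pool.Agent.GNS.P_PS2
import Pool.Agent.GNS.P_QCV
import Pool.Agent.GNS.P_QTI
import Pool.Agent.GNS.P_RDG
import Pool.Agent.GNS.P_SCN
import Pool.Agent.GNS.P_SNN
import Pool.Agent.GNS.P_STC
import Pool.Agent.GNS.P_STE
import Pool.Agent.GNS.P_STP
import Pool.Agent.GNS.P_TRG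
import Pool.Agent.GNS.P_UBR
import Pool.Agent.GNS.P_VAN
import Pool.Agent.GNS.P_VSB
import Pool.Agent.GNS.P_VSM
import Pool.Agent.GNS.P_B4P
import Pool.Agent.GNS.P_CHZ
import Pool.Agent.GNS.P_GRD
import Pool.Agent.GNS.P_IND
import Pool.Agent.GNS.P_KN3
import Pool.Agent.GNS.P_KNK
import Pool.Agent.GNS.P_LFS
import Pool.Agent.GNS.P_LG2
import Pool.Agent.GNS.P_MAS
import Pool.Agent.GNS.P_MU1
import Pool.Agent.GNS.P_MU2
import Pool.Agent.GNS.P_REG
import Pool.Agent.GNS.P_THM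
import Pool.Agent.GNS.P_UIK
import Pool.Agent.GNS.P_VSC
import Pool.Agent.GNS.P_WBR
import Pool.Agent.GNS.P_AF2
import Pool.Agent.GNS.P_AFF
import Pool.Agent.GNS.P_BBC
import Pool.Agent.GNS.P_BBL
import Pool.Agent.GNS.P_FBD
import Pool.Agent.GNS.P_LGC
import Pool.Agent.GNS.P_MSV
import Pool.Agent.GNS.P_PCT
import Pool.Agent.GNS.P_PWB
import Pool.Agent.GNS.P_RKA
import Pool.Agent.GNS.P_CLS
import Pool.Agent.GNS.P_DAR
import Pool.Agent.GNS.P_DBF
import Pool.Agent.GNS.P_SII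
import Pool.Agent.GNS.P_TRI
import Pool.Agent.GNS.P_MN
import Pool.Agent.GNS.P_RED
import Pool.Agent.GNS.P_SLC
import Pool.Agent.GNS.P_ZTP
import Pool.Agent.GNS.P_ALL
import Pool.Agent.GNS.P_LI
import Pool.Agent.GNS.P_ZND
import Pool.Agent.GNS.P_PKA
import Pool.Agent.GNS.P_RFM
import Pool.Agent.GNS.P_SGN
import Pool.Agent.GNS.P_SGQ
import Pool.Agent.GNS.P_RK1
import Pool.Agent.GNS.P_RLC
import Pool.Agent.GNS.P_TRB
import Pool.Agent.GNS.P_STR
import Pool.Agent.GNS.P_THP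
import Pool.Agent.GNS.P_WAV
import Pool.Agent.GNS.P_DX1
import Pool.Agent.GNS.P_DX2
import Pool.Agent.GNS.P_DX3
import Pool.Agent.GNS.P_DOM
import Pool.Agent.GNS.P_FIN

/-!
# GNS: assembly
-/

set_option autoImplicit false

noncomputable section

namespace Pool.Agent.GNS

/-- target AVB -/
theorem m_AVB : T_AVB := p_AVB

/-- target BAS -/
theorem m_BAS : T_BAS := p_BAS

/-- target CHT -/
theorem m_CHT : T_CHT := p_CHT

/-- target CNV -/
theorem m_CNV : T_CNV := p_CNV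

/-- target COF -/
theorem m_COF : T_COF := p_COF

/-- target CT3 -/
theorem m_CT3 : T_CT3 := p_CT3

/-- target CTS -/
theorem m_CTS : T_CTS := p_CTS

/-- target DET -/
theorem m_DET : T_DET := p_DET

/-- target DMK -/
theorem m_DMK : T_DMK := p_DMK

/-- target EMB -/
theorem m_EMB : T_EMB := p_EMB

/-- target EQD -/
theorem m_EQD : T_EQD := p_EQD

/-- target FUB -/
theorem m_FUB : T_FUB := p_FUB

/-- target GCV -/
theorem m_GCV : T_GCV := p_GCV

/-- target GLH -/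
theorem m_GLH : T_GLH := p_GLH

/-- target HAT -/
theorem m_HAT : T_HAT := p_HAT

/-- target IBL -/
theorem m_IBL : T_IBL := p_IBL

/-- target INV -/
theorem m_INV : T_INV := p_INV

/-- target JEN -/
theorem m_JEN : T_JEN := p_JEN

/-- target KER -/
theorem m_KER : T_KER := p_KER

/-- target LAD -/
theorem m_LAD : T_LAD := p_LAD

/-- target OSC -/
theorem m_OSC : T_OSC := p_OSC

/-- target PBE -/
theorem m_PBE : T_PBE := p_PBE

/-- target PBR -/
theorem m_PBR : T_PBR := p_PBR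

/-- target PHS -/
theorem m_PHS : T_PHS := p_PHS

/-- target PKD -/
theorem m_PKD : T_PKD := p_PKD

/-- target PRF -/
theorem m_PRF : T_PRF := p_PRF

/-- target PRJ -/
theorem m_PRJ : T_PRJ := p_PRJ

/-- target PSD -/
theorem m_PSD : T_PSD := p_PSD

/-- target QVA -/
theorem m_QVA : T_QVA := p_QVA

/-- target RTS -/
theorem m_RTS : T_RTS := p_RTS

/-- target SM0 -/
theorem m_SM0 : T_SM0 := p_SM0

/-- target SM1 -/
theorem m_SM1 : T_SM1 := p_SM1

/-- target SMW -/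
theorem m_SMW : T_SMW := p_SMW

/-- target STA -/
theorem m_STA : T_STA := p_STA

/-- target STB -/
theorem m_STB : T_STB := p_STB

/-- target STD -/
theorem m_STD : T_STD := p_STD

/-- target SUV -/
theorem m_SUV : T_SUV := p_SUV

/-- target TGD -/
theorem m_TGD : T_TGD := p_TGD

/-- target VBR -/
theorem m_VBR : T_VBR := p_VBR

/-- target VSA -/
theorem m_VSA : T_VSA := p_VSA

/-- target WDD -/
theorem m_WDD : T_WDD := p_WDD

/-- target WKF -/
theorem m_WKF : T_WKF := p_WKF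

/-- target WKL -/
theorem m_WKL : T_WKL := p_WKL

/-- target YMD -/
theorem m_YMD : T_YMD := p_YMD

/-- target AV0 -/
theorem m_AV0 : T_AV0 := p_AV0 m_AVB

/-- target AV1 -/
theorem m_AV1 : T_AV1 := p_AV1 m_AVB

/-- target CHG -/
theorem m_CHG : T_CHG := p_CHG m_INV m_DET

/-- target DME -/
theorem m_DME : T_DME := p_DME m_PRJ

/-- target DMI -/
theorem m_DMI : T_DMI := p_DMI m_LAD m_PRJ

/-- target DMW -/
theorem m_DMW : T_DMW := p_DMW m_PRJ m_RTS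

/-- target EXF -/
theorem m_EXF : T_EXF := p_EXF m_EMB

/-- target KN2 -/
theorem m_KN2 : T_KN2 := p_KN2 m_EMB

/-- target LFE -/
theorem m_LFE : T_LFE := p_LFE m_RTS m_CHT

/-- target LFP -/
theorem m_LFP : T_LFP := p_LFP m_CHT

/-- target LG1 -/
theorem m_LG1 : T_LG1 := p_LG1 m_INV

/-- target LOC -/
theorem m_LOC : T_LOC := p_LOC m_CHT m_HAT

/-- target MAB -/
theorem m_MAB : T_MAB := p_MAB m_PSD

/-- target MSP -/
theorem m_MSP : T_MSP := p_MSP m_VSA m_EMB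

/-- target PS2 -/
theorem m_PS2 : T_PS2 := p_PS2 m_PSD

/-- target QCV -/
theorem m_QCV : T_QCV := p_QCV m_GCV

/-- target QTI -/
theorem m_QTI : T_QTI := p_QTI m_IBL

/-- target RDG -/
theorem m_RDG : T_RDG := p_RDG m_CHT

/-- target SCN -/
theorem m_SCN : T_SCN := p_SCN m_EMB m_VSA

/-- target SNN -/
theorem m_SNN : T_SNN := p_SNN m_PSD

/-- target STC -/
theorem m_STC : T_STC := p_STC m_SM0 m_SM1

/-- target STE -/
theorem m_STE : T_STE := p_STE m_SMW m_SM0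

/-- target STP -/
theorem m_STP : T_STP := p_STP m_OSC m_EQD

/-- target TRG -/
theorem m_TRG : T_TRG := p_TRG m_TGD

/-- target UBR -/
theorem m_UBR : T_UBR := p_UBR m_CNV

/-- target VAN -/
theorem m_VAN : T_VAN := p_VAN m_EMB

/-- target VSB -/
theorem m_VSB : T_VSB := p_VSB m_VSA m_EMB

/-- target VSM -/
theorem m_VSM : T_VSM := p_VSM m_VBR

/-- target B4P -/
theorem m_B4P : T_B4P := p_B4P m_CHT m_HAT m_RDG m_PBR

/-- target CHZ -/
theorem m_CHZ : T_CHZ := p_CHZ m_RDG m_CHT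

/-- target GRD -/
theorem m_GRD : T_GRD := p_GRD m_PS2

/-- target IND -/
theorem m_IND : T_IND := p_IND m_STA m_STB m_STC m_STE m_STD m_STP m_BAS

/-- target KN3 -/
theorem m_KN3 : T_KN3 := p_KN3 m_KN2 m_VAN

/-- target KNK -/
theorem m_KNK : T_KNK := p_KNK m_CHT m_HAT m_LOC

/-- target LFS -/
theorem m_LFS : T_LFS := p_LFS m_RTS m_LFE

/-- target LG2 -/
theorem m_LG2 : T_LG2 := p_LG2 m_INV m_LG1

/-- target MAS -/
theorem m_MAS : T_MAS := p_MAS m_PS2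

/-- target MU1 -/
theorem m_MU1 : T_MU1 := p_MU1 m_SUV m_WKL m_QCV m_QTI m_QVA

/-- target MU2 -/
theorem m_MU2 : T_MU2 := p_MU2 m_WKL m_QCV m_KER m_CNV m_WKF

/-- target REG -/
theorem m_REG : T_REG := p_REG m_YMD m_UBR

/-- target THM -/
theorem m_THM : T_THM := p_THM m_LFP m_WKF m_PRJ m_RTS

/-- target UIK -/
theorem m_UIK : T_UIK := p_UIK m_AV0 m_AV1 m_UBR m_CNV m_JEN

/-- target VSC -/
theorem m_VSC : T_VSC := p_VSC m_SCN m_VSA m_VSB m_EMB

/-- target WBR -/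
theorem m_WBR : T_WBR := p_WBR m_INV m_LG1 m_UBR

/-- target AF2 -/
theorem m_AF2 : T_AF2 := p_AF2 m_KN3

/-- target AFF -/
theorem m_AFF : T_AFF := p_AFF m_KNK

/-- target BBC -/
theorem m_BBC : T_BBC := p_BBC m_B4P m_PBE

/-- target BBL -/
theorem m_BBL : T_BBL := p_BBL m_B4P m_HAT

/-- target FBD -/
theorem m_FBD : T_FBD := p_FBD m_MAS m_MAB m_SNN

/-- target LGC -/
theorem m_LGC : T_LGC := p_LGC m_LG1 m_LG2 m_INV m_PSD

/-- target MSV -/
theorem m_MSV : T_MSV := p_MSV m_VSB m_VSC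

/-- target PCT -/
theorem m_PCT : T_PCT := p_PCT m_WKF m_GRD

/-- target PWB -/
theorem m_PWB : T_PWB := p_PWB m_LG1 m_LG2 m_CHG m_UBR

/-- target RKA -/
theorem m_RKA : T_RKA := p_RKA m_B4P

/-- target CLS -/
theorem m_CLS : T_CLS := p_CLS m_LG1 m_LGC m_UBR m_CNV

/-- target DAR -/
theorem m_DAR : T_DAR := p_DAR m_AF2 m_EMB

/-- target DBF -/
theorem m_DBF : T_DBF := p_DBF m_FBD m_COF m_SNN m_MAS

/-- target SII -/
theorem m_SII : T_SII := p_SII m_LG1 m_LG2 m_LGC m_CHG m_INV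

/-- target TRI -/
theorem m_TRI : T_TRI := p_TRI m_AFF

/-- target MN -/
theorem m_MN : T_MN := p_MN m_UIK m_PWB m_LGC m_REG m_FUB m_SII m_CNV

/-- target RED -/
theorem m_RED : T_RED := p_RED m_MSV m_MSP m_EXF m_DAR m_VAN m_EMB

/-- target SLC -/
theorem m_SLC : T_SLC := p_SLC m_LOC m_HAT m_CHT m_TRI

/-- target ZTP -/
theorem m_ZTP : T_ZTP := p_ZTP m_AFF m_TRI

/-- target ALL -/
theorem m_ALL : T_ALL := p_ALL m_RED

/-- target LI -/
theorem m_LI : T_LI := p_LI m_MN m_KER m_CLS m_WBR m_PCT m_LGC m_MAS m_SNN m_PS2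

/-- target ZND -/
theorem m_ZND : T_ZND := p_ZND m_ZTP

/-- target PKA -/
theorem m_PKA : T_PKA := p_PKA m_LI m_DBF m_IND m_PRF m_PKD

/-- target RFM -/
theorem m_RFM : T_RFM := p_RFM m_CHT m_ZND

/-- target SGN -/
theorem m_SGN : T_SGN := p_SGN m_ZND m_LOC m_CHT

/-- target SGQ -/
theorem m_SGQ : T_SGQ := p_SGQ m_ZND m_LOC

/-- target RK1 -/
theorem m_RK1 : T_RK1 := p_RK1 m_CHZ m_SGN m_RDG

/-- target RLC -/
theorem m_RLC : T_RLC := p_RLC m_RFM m_SLC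

/-- target TRB -/
theorem m_TRB : T_TRB := p_TRB m_TGD m_SGQ m_CHZ m_RLC m_RK1 m_RDG m_ZND m_HAT

/-- target STR -/
theorem m_STR : T_STR := p_STR m_TRG m_TGD m_TRB m_RTS m_LFE m_LFP m_BBC

/-- target THP -/
theorem m_THP : T_THP := p_THP m_STR m_BBL m_HAT m_CHT m_RTS

/-- target WAV -/
theorem m_WAV : T_WAV := p_WAV m_STR m_PHS m_WDD m_B4P m_LFE m_LFP m_PBR m_RTS m_HAT

/-- target DX1 -/
theorem m_DX1 : T_DX1 := p_DX1 m_WAV m_DMI m_DMK m_DMW m_RKA m_PRJ m_B4P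

/-- target DX2 -/
theorem m_DX2 : T_DX2 := p_DX2 m_WAV m_DMI m_DMK m_DMW m_RKA m_B4P m_PRJ

/-- target DX3 -/
theorem m_DX3 : T_DX3 := p_DX3 m_WAV m_DMI m_DMK m_DMW m_RKA m_B4P

/-- target DOM -/
theorem m_DOM : T_DOM := p_DOM m_DX1 m_DX2 m_DX3 m_DME m_B4P m_PRJ

/-- target FIN -/
theorem m_FIN : T_FIN :=
  p_FIN m_CTS m_PKA m_CT3 m_LFS m_MU1 m_MU2 m_VSM m_VBR m_GLH m_THP m_THM m_DOM m_PBE m_PRJ

end Pool.Agent.GNS
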