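import Pool.Agent.GNS.T1

/-!
# GNS: averages of the second derivatives (AVB)
-/

set_option autoImplicit false

open Metric Set Filter Topology MeasureTheory

noncomputable section

namespace Pool.Agent.GNS

namespace AVB_

/-- reflection at `z / 2` preserves compact supports -/
theorem hcs_sub {g : V → ℝ} (hc : HasCompactSupport g) (z : V) :
    HasCompactSupport fun ζ => g (z - ζ) :=
  hc.comp_homeomorph (Homeomorph.subLeft z)

theorem sm_sub {g : V → ℝ} (hg : Sm g) (z : V) : Sm fun ζ => g (z - ζ) :=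
  ContDiff.comp hg.cd (contDiff_const.sub contDiff_id)

theorem d_subl {g : V → ℝ} (hg : Sm g) (z : V) (i : Fin 4) (ζ : V) :
    d i (fun ζ => g (z - ζ)) ζ = -d i g (z - ζ) := by
  unfold d
  have h1 : HasFDerivAt (fun ζ : V => z - ζ) (-(ContinuousLinearMap.id ℝ V)) ζ := by
    have := (hasFDerivAt_id (𝕜 := ℝ) ζ).const_sub z
    exact this
  have h2 := (hg.dAt (z - ζ)).hasFDerivAt.comp ζ h1
  have h3 : (fun ζ => g (z - ζ)) = g ∘ fun ζ => z - ζ := rfl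
  rw [h3, h2.fderiv]
  simp

/-- a smooth cut-off function -/
theorem ex_cut (R : ℝ) (hR : 0 < R) : ∃ χ : V → ℝ, Sm χ ∧ HasCompactSupport χ ∧
    (∀ z, 0 ≤ χ z) ∧ ∀ z, ‖z‖ ≤ R → χ z = 1 := by
  let f : ContDiffBump (0 : V) := ⟨R, R + 1, hR, by linarith⟩
  refine ⟨f, f.contDiff, f.hasCompactSupport, fun z => f.nonneg, fun z hz => ?_⟩
  apply f.one_of_mem_closedBall
  rw [mem_closedBall, dist_zero_right]
  exact hz

/-- a diagonal second derivative -/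
theorem diag {χ : V → ℝ} (hχ : Sm χ) (hc : HasCompactSupport χ) {u : V → ℝ} (hu : Sm u)
    (i : Fin 4) (hb : ∀ z, |d i u z| ≤ 1) (z : V) :
    ∫ ζ, χ (z - ζ) * -d i (d i u) ζ ≤ ∫ ζ, |d i χ ζ| := by
  have hg : Sm fun ζ => χ (z - ζ) := sm_sub hχ z
  have hgc : HasCompactSupport fun ζ => χ (z - ζ) := hcs_sub hc z
  have h1 := d_ibp (hu.d i) hg hgc i
  have h2 : ∫ ζ, χ (z - ζ) * -d i (d i u) ζ = ∫ ζ, -(d i u ζ * d i χ (z - ζ)) := by
    have h3 : (fun ζ => χ (z - ζ) * -d i (d i u) ζ) =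
        fun ζ => -(d i (d i u) ζ * χ (z - ζ)) := by
      funext ζ
      ring
    rw [h3, integral_neg, h1, neg_neg, integral_neg, ← integral_neg]
    refine integral_congr_ae (Filter.Eventually.of_forall fun ζ => ?_)
    show d i u ζ * d i (fun ζ => χ (z - ζ)) ζ = -(d i u ζ * d i χ (z - ζ))
    rw [d_subl hχ]
    ring
  rw [h2]
  have h4 : ∫ ζ, |d i χ ζ| = ∫ ζ, |d i χ (z - ζ)| :=
    (integral_sub_left_eq_self (fun ζ => |d i χ ζ|) volume z).symm
  rw [h4]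
  have hdc : HasCompactSupport fun ζ => d i χ (z - ζ) := hcs_sub (hcs_d hc i) z
  have hdcont : Continuous fun ζ => d i χ (z - ζ) :=
    (hχ.d i).cont.comp (continuous_const.sub continuous_id)
  refine integral_mono ?_ ?_ fun ζ => ?_
  · exact (int_of ((hu.d i).cont.mul hdcont) hdc.mul_left).neg
  · exact (int_of hdcont hdc).abs
  · show -(d i u ζ * d i χ (z - ζ)) ≤ |d i χ (z - ζ)|
    have h5 := hb ζ
    have h6 : |d i u ζ * d i χ (z - ζ)| ≤ |d i χ (z - ζ)| := by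
      rw [abs_mul]
      calc |d i u ζ| * |d i χ (z - ζ)| ≤ 1 * |d i χ (z - ζ)| :=
            mul_le_mul_of_nonneg_right h5 (abs_nonneg _)
        _ = _ := one_mul _
    have h7 := neg_abs_le (d i u ζ * d i χ (z - ζ))
    linarith

end AVB_

open AVB_ in
theorem p_AVB : T_AVB := by
  intro k hk hc
  obtain ⟨M, hM⟩ := hc.exists_bound_of_continuous hk
  have hM0 : 0 ≤ M := (norm_nonneg _).trans (hM 0)
  obtain ⟨R, hR0, hR⟩ : ∃ R : ℝ, 0 < R ∧ ∀ z, k z ≠ 0 → ‖z‖ ≤ R := by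
    obtain ⟨R, hR⟩ := hc.isCompact.isBounded.subset_closedBall (0 : V)
    refine ⟨max R 1, by positivity, fun z hz => ?_⟩
    have h1 := hR (subset_tsupport _ (Function.mem_support.2 hz))
    rw [mem_closedBall, dist_zero_right] at h1
    exact h1.trans (le_max_left _ _)
  obtain ⟨χ, hχ, hχc, hχ0, hχ1⟩ := ex_cut R hR0
  have hkχ : ∀ ζ, |k ζ| ≤ M * χ ζ := by
    intro ζ
    by_cases h : k ζ = 0
    · rw [h, abs_zero]
      exact mul_nonneg hM0 (hχ0 ζ)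
    · rw [hχ1 ζ (hR ζ h), mul_one]
      exact hM ζ
  set C0 : ℝ := ∫ ζ, |d 0 χ ζ| with hC0
  set C1 : ℝ := ∫ ζ, |d 1 χ ζ| with hC1
  have hC0n : 0 ≤ C0 := integral_nonneg fun _ => abs_nonneg _
  have hC1n : 0 ≤ C1 := integral_nonneg fun _ => abs_nonneg _
  refine ⟨M * (C0 + C1), by positivity, ?_⟩
  intro η u hu z
  have hkc : HasCompactSupport fun ζ => k (z - ζ) := hcs_sub hc z
  have hkcont : Continuous fun ζ => k (z - ζ) := hk.comp (continuous_const.sub continuous_id)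
  have hχz : HasCompactSupport fun ζ => χ (z - ζ) := hcs_sub hχc z
  have hχcont : Continuous fun ζ => χ (z - ζ) :=
    hχ.cont.comp (continuous_const.sub continuous_id)
  have hkint : ∀ w : V → ℝ, Continuous w → Integrable fun ζ => |k (z - ζ)| * |w ζ| := by
    intro w hw
    have h1 : Integrable fun ζ => |k (z - ζ) * w ζ| :=
      (int_of (hkcont.mul hw) hkc.mul_right).abs
    exact h1.congr (Filter.Eventually.of_forall fun ζ => abs_mul _ _)
  have hχint : ∀ w : V → ℝ, Continuous w → Integrable fun ζ => χ (z - ζ) * w ζ := by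
    intro w hw
    exact int_of (hχcont.mul hw) hχz.mul_right
  -- signs
  have hs0 : ∀ ζ, d 0 (d 0 u) ζ ≤ 0 := fun ζ => by
    have := hu.cc ζ 1 0
    linarith
  have hs1 : ∀ ζ, d 1 (d 1 u) ζ ≤ 0 := fun ζ => by
    have := hu.cc ζ 0 1
    linarith
  have hs01 : ∀ ζ, |d 0 (d 1 u) ζ| ≤ (|d 0 (d 0 u) ζ| + |d 1 (d 1 u) ζ|) / 2 := by
    intro ζ
    rw [abs_of_nonpos (hs0 ζ), abs_of_nonpos (hs1 ζ), abs_le]
    have h1 := hu.cc ζ 1 1
    have h2 := hu.cc ζ 1 (-1)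
    constructor <;> linarith
  have hc0 : Continuous (d 0 (d 0 u)) := ((hu.sm.d 0).d 0).cont
  have hc1 : Continuous (d 1 (d 1 u)) := ((hu.sm.d 1).d 1).cont
  have hc01 : Continuous (d 0 (d 1 u)) := ((hu.sm.d 1).d 0).cont
  have hdiag : ∀ w : V → ℝ, Continuous w → (∀ ζ, w ζ ≤ 0) →
      ∫ ζ, |k (z - ζ)| * |w ζ| ≤ M * ∫ ζ, χ (z - ζ) * -w ζ := by
    intro w hw hw0
    rw [← integral_const_mul]
    refine integral_mono (hkint w hw) ((hχint (fun ζ => -w ζ) hw.neg).const_mul M) fun ζ => ?_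
    show |k (z - ζ)| * |w ζ| ≤ M * (χ (z - ζ) * -w ζ)
    rw [abs_of_nonpos (hw0 ζ), ← mul_assoc]
    exact mul_le_mul_of_nonneg_right (hkχ _) (by have := hw0 ζ; linarith)
  have h0 : ∫ ζ, |k (z - ζ)| * |d 0 (d 0 u) ζ| ≤ M * C0 :=
    (hdiag _ hc0 hs0).trans (mul_le_mul_of_nonneg_left (diag hχ hχc hu.sm 0 hu.bd0 z) hM0)
  have h1 : ∫ ζ, |k (z - ζ)| * |d 1 (d 1 u) ζ| ≤ M * C1 :=
    (hdiag _ hc1 hs1).trans (mul_le_mul_of_nonneg_left (diag hχ hχc hu.sm 1 hu.bd1 z) hM0)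
  have h01 : ∫ ζ, |k (z - ζ)| * |d 0 (d 1 u) ζ| ≤
      ((∫ ζ, |k (z - ζ)| * |d 0 (d 0 u) ζ|) + (∫ ζ, |k (z - ζ)| * |d 1 (d 1 u) ζ|)) / 2 := by
    rw [← integral_add (hkint _ hc0) (hkint _ hc1), ← integral_div]
    refine integral_mono (hkint _ hc01)
      (((hkint _ hc0).add (hkint _ hc1)).div_const 2) fun ζ => ?_
    show |k (z - ζ)| * |d 0 (d 1 u) ζ| ≤
      (|k (z - ζ)| * |d 0 (d 0 u) ζ| + |k (z - ζ)| * |d 1 (d 1 u) ζ|) / 2
    have h2 := mul_le_mul_of_nonneg_left (hs01 ζ) (abs_nonneg (k (z - ζ)))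
    linarith
  have hMC0 : 0 ≤ M * C0 := mul_nonneg hM0 hC0n
  have hMC1 : 0 ≤ M * C1 := mul_nonneg hM0 hC1n
  refine ⟨?_, ?_, ?_⟩
  · linarith
  · linarith
  · linarith

end Pool.Agent.GNS
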