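import Pool.Agent.GNS.T5

set_option autoImplicit false

open Metric Set Filter Topology MeasureTheory

noncomputable section

namespace Pool.Agent.GNS

open Pool.Agent.GLB

variable {n : ℕ}

theorem EXF_le (hEMB : T_EMB) (v : S (n + 1)) : ‖prj (v : E (n + 1))‖ ≤ 1 := by
  have h1 := (hEMB n).2.2.2.1 (v : E (n + 1))
  have h2 : ‖(v : E (n + 1))‖ = 1 := norm_eq_of_mem_sphere v
  rw [h2] at h1
  nlinarith [norm_nonneg (prj (v : E (n + 1))), sq_nonneg (hgt (v : E (n + 1)))]

theorem EXF_norm (φ : C(S n, ℂ)) (v : S (n + 1)) :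
    ‖exf φ v‖ ≤ ‖prj (v : E (n + 1))‖ * ‖φ‖ := by
  unfold exf
  split_ifs with h
  · rw [norm_mul, Complex.norm_real, norm_norm]
    exact mul_le_mul_of_nonneg_left (φ.norm_coe_le_norm _) (norm_nonneg _)
  · rw [norm_zero]
    positivity

theorem EXF_cont (hEMB : T_EMB) (φ : C(S n, ℂ)) : Continuous (exf φ) := by
  have hp : Continuous fun v : S (n + 1) => prj (v : E (n + 1)) :=
    (hEMB n).2.2.2.2.2.1.comp continuous_subtype_val
  rw [continuous_iff_continuousAt]
  intro v0
  by_cases h0 : prj (v0 : E (n + 1)) = 0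
  · have e0 : exf φ v0 = 0 := by
      unfold exf
      rw [dif_neg (not_not.2 h0)]
    rw [ContinuousAt, e0]
    apply squeeze_zero_norm (EXF_norm φ)
    have h1 : Tendsto (fun v : S (n + 1) => ‖prj (v : E (n + 1))‖ * ‖φ‖) (𝓝 v0)
        (𝓝 (‖prj (v0 : E (n + 1))‖ * ‖φ‖)) :=
      ((hp.norm).mul continuous_const).tendsto v0
    rw [h0, norm_zero, zero_mul] at h1
    exact h1
  · have hU : IsOpen {v : S (n + 1) | prj (v : E (n + 1)) ≠ 0} :=
      isOpen_compl_singleton.preimage hp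
    have hc : ContinuousOn (exf φ) {v : S (n + 1) | prj (v : E (n + 1)) ≠ 0} := by
      rw [continuousOn_iff_continuous_domRestrict]
      have hn : Continuous fun v : {v : S (n + 1) | prj (v : E (n + 1)) ≠ 0} =>
          ‖prj ((v : S (n + 1)) : E (n + 1))‖ := (hp.comp continuous_subtype_val).norm
      have hq : Continuous fun v : {v : S (n + 1) | prj (v : E (n + 1)) ≠ 0} =>
          ‖prj ((v : S (n + 1)) : E (n + 1))‖⁻¹ • prj ((v : S (n + 1)) : E (n + 1)) :=
        (hn.inv₀ fun v => norm_ne_zero_iff.2 v.2).smul (hp.comp continuous_subtype_val)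
      have hm : ∀ v : {v : S (n + 1) | prj (v : E (n + 1)) ≠ 0},
          ‖prj ((v : S (n + 1)) : E (n + 1))‖⁻¹ • prj ((v : S (n + 1)) : E (n + 1)) ∈
            sphere (0 : E n) 1 := by
        intro v
        rw [mem_sphere_iff_norm, sub_zero, norm_smul, norm_inv, norm_norm]
        exact inv_mul_cancel₀ (norm_ne_zero_iff.2 v.2)
      have e1 : ({v : S (n + 1) | prj (v : E (n + 1)) ≠ 0}.domRestrict (exf φ)) =
          fun v : {v : S (n + 1) | prj (v : E (n + 1)) ≠ 0} =>
            (‖prj ((v : S (n + 1)) : E (n + 1))‖ : ℂ) *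
            φ ⟨‖prj ((v : S (n + 1)) : E (n + 1))‖⁻¹ • prj ((v : S (n + 1)) : E (n + 1)),
              hm v⟩ := by
        funext v
        show exf φ v = _
        unfold exf
        have hv : prj ((v : S (n + 1)) : E (n + 1)) ≠ 0 := v.2
        rw [dif_pos hv]
      rw [e1]
      exact (Complex.continuous_ofReal.comp hn).mul (φ.continuous.comp (hq.subtype_mk hm))
    exact hc.continuousAt (hU.mem_nhds h0)

theorem EXF_add (φ ψ : C(S n, ℂ)) (v : S (n + 1)) : exf (φ + ψ) v = exf φ v + exf ψ v := by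
  unfold exf
  split_ifs with h
  · rw [ContinuousMap.add_apply, mul_add]
  · rw [add_zero]

theorem EXF_smul (c : ℂ) (φ : C(S n, ℂ)) (v : S (n + 1)) : exf (c • φ) v = c * exf φ v := by
  unfold exf
  split_ifs with h
  · rw [ContinuousMap.smul_apply, smul_eq_mul, mul_left_comm]
  · rw [mul_zero]

theorem p_EXF (hEMB : T_EMB) : T_EXF := by
  intro n
  let L : C(S n, ℂ) →ₗ[ℂ] C(S (n + 1), ℂ) :=
    { toFun := fun φ => ⟨exf φ, EXF_cont hEMB φ⟩
      map_add' := fun φ ψ => ContinuousMap.ext fun v => EXF_add φ ψ v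
      map_smul' := fun c φ => ContinuousMap.ext fun v => EXF_smul c φ v }
  refine ⟨L.mkContinuous 1 fun φ => ?_, fun φ v => rfl⟩
  rw [one_mul, ContinuousMap.norm_le _ (norm_nonneg _)]
  intro v
  refine (EXF_norm φ v).trans ?_
  calc ‖prj (v : E (n + 1))‖ * ‖φ‖ ≤ 1 * ‖φ‖ :=
        mul_le_mul_of_nonneg_right (EXF_le hEMB v) (norm_nonneg _)
    _ = ‖φ‖ := one_mul _

end Pool.Agent.GNS
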