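import Pool.Agent.GNS.T1

/-!
# GNS: INV, the gradient map in `y` is a diffeomorphism
-/

set_option autoImplicit false

open Metric Set Filter Topology MeasureTheory

noncomputable section

namespace Pool.Agent.GNS

/-- the vector `(0, (a, b))` -/
def INV_v (a b : ℝ) : V := ((0, 0), (a, b))

/-- monotonicity of the gradient in the second variable along a ray -/
theorem INV_mono {η : ℝ} {F : V → ℝ} (hF : SC η F) (z : V) (a b t : ℝ) (ht : 0 ≤ t) :
    η * (a ^ 2 + b ^ 2) * t ≤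
      (d 2 F (z + t • INV_v a b) * a + d 3 F (z + t • INV_v a b) * b) -
        (d 2 F z * a + d 3 F z * b) := by
  have h2 := hF.sm.d 2
  have h3 := hF.sm.d 3
  have hd : ∀ s : ℝ, HasDerivAt
      (fun s : ℝ => d 2 F (z + s • INV_v a b) * a + d 3 F (z + s • INV_v a b) * b -
        η * (a ^ 2 + b ^ 2) * s)
      (fderiv ℝ (d 2 F) (z + s • INV_v a b) (INV_v a b) * a +
        fderiv ℝ (d 3 F) (z + s • INV_v a b) (INV_v a b) * b - η * (a ^ 2 + b ^ 2) * 1) s := by
    intro s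
    exact (((line_deriv h2 z (INV_v a b) s).mul_const a).add
      ((line_deriv h3 z (INV_v a b) s).mul_const b)).sub
      ((hasDerivAt_id s).const_mul (η * (a ^ 2 + b ^ 2)))
  have hm : Monotone
      (fun s : ℝ => d 2 F (z + s • INV_v a b) * a + d 3 F (z + s • INV_v a b) * b -
        η * (a ^ 2 + b ^ 2) * s) := by
    apply monotone_of_deriv_nonneg
    · intro s
      exact (hd s).differentiableAt
    · intro s
      rw [(hd s).deriv, fd_eq, fd_eq]
      have h := hF.pos (z + s • INV_v a b) a b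
      have hc := d_comm hF.sm 3 2 (z + s • INV_v a b)
      simp only [INV_v] at h hc ⊢
      rw [hc]
      nlinarith [h]
  have h := hm ht
  simp only [zero_smul, add_zero, mul_zero, sub_zero] at h
  linarith

/-- the lower bound of second order -/
theorem INV_low {η : ℝ} {F : V → ℝ} (hF : SC η F) (z : V) (a b : ℝ) :
    F z + (d 2 F z * a + d 3 F z * b) + η / 2 * (a ^ 2 + b ^ 2) ≤ F (z + INV_v a b) := by
  have hd : ∀ s : ℝ, HasDerivAt
      (fun s : ℝ => F (z + s • INV_v a b) - (d 2 F z * a + d 3 F z * b) * s -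
        η / 2 * (a ^ 2 + b ^ 2) * s ^ 2)
      (fderiv ℝ F (z + s • INV_v a b) (INV_v a b) - (d 2 F z * a + d 3 F z * b) * 1 -
        η / 2 * (a ^ 2 + b ^ 2) * (2 * s)) s := by
    intro s
    have h1 := ((hasDerivAt_id s).const_mul (d 2 F z * a + d 3 F z * b))
    have h2 : HasDerivAt (fun s : ℝ => s ^ 2) (2 * s) s := by
      simpa using hasDerivAt_pow 2 s
    exact ((line_deriv hF.sm z (INV_v a b) s).sub h1).sub
      (h2.const_mul (η / 2 * (a ^ 2 + b ^ 2)))
  have hm : MonotoneOn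
      (fun s : ℝ => F (z + s • INV_v a b) - (d 2 F z * a + d 3 F z * b) * s -
        η / 2 * (a ^ 2 + b ^ 2) * s ^ 2) (Icc 0 1) := by
    apply monotoneOn_of_deriv_nonneg (convex_Icc 0 1)
    · intro s _
      exact (hd s).continuousAt.continuousWithinAt
    · intro s _
      exact (hd s).differentiableAt.differentiableWithinAt
    · intro s hs
      rw [interior_Icc] at hs
      rw [(hd s).deriv, fd_eq]
      have h := INV_mono hF z a b s hs.1.le
      simp only [INV_v] at h ⊢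
      linarith
  have h := hm (left_mem_Icc.2 zero_le_one) (right_mem_Icc.2 zero_le_one) zero_le_one
  simp only [zero_smul, add_zero, mul_zero, sub_zero, one_smul, mul_one, one_pow] at h
  norm_num at h
  linarith

theorem INV_inj {η : ℝ} {F : V → ℝ} (hη : 0 < η) (hF : SC η F) :
    Function.Injective (gy F) := by
  intro z z' h
  simp only [gy, Prod.mk.injEq] at h
  obtain ⟨h1, h2, h3⟩ := h
  have hz : z' = z + (1 : ℝ) • INV_v (z'.2.1 - z.2.1) (z'.2.2 - z.2.2) := by
    rw [one_smul]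
    ext <;> simp [INV_v, h1]
  have h := INV_mono hF z (z'.2.1 - z.2.1) (z'.2.2 - z.2.2) 1 zero_le_one
  rw [← hz, ← h2, ← h3, sub_self, mul_one] at h
  have h5 : (z'.2.1 - z.2.1) ^ 2 + (z'.2.2 - z.2.2) ^ 2 ≤ 0 := by
    by_contra h6
    push Not at h6
    have := mul_pos hη h6
    linarith
  have ha : z'.2.1 - z.2.1 = 0 := by
    have h7 : (z'.2.1 - z.2.1) ^ 2 = 0 := by
      nlinarith [sq_nonneg (z'.2.1 - z.2.1), sq_nonneg (z'.2.2 - z.2.2)]
    exact pow_eq_zero_iff (two_ne_zero) |>.1 h7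
  have hb : z'.2.2 - z.2.2 = 0 := by
    have h7 : (z'.2.2 - z.2.2) ^ 2 = 0 := by
      nlinarith [sq_nonneg (z'.2.1 - z.2.1), sq_nonneg (z'.2.2 - z.2.2)]
    exact pow_eq_zero_iff (two_ne_zero) |>.1 h7
  rw [hz, ha, hb]
  ext <;> simp [INV_v]

theorem INV_surj {η : ℝ} {F : V → ℝ} (hη : 0 < η) (hF : SC η F) :
    Function.Surjective (gy F) := by
  intro q
  obtain ⟨x, p⟩ := q
  set A := d 2 F (x, (0, 0)) - p.1 with hA
  set B := d 3 F (x, (0, 0)) - p.2 with hB
  set ψ : X2 → ℝ := fun y => F (x, y) - p.1 * y.1 - p.2 * y.2 with hψ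
  have hcont : Continuous ψ := by
    have h1 : Continuous fun y : X2 => F (x, y) := hF.sm.cont.comp (by fun_prop)
    exact (h1.sub (by fun_prop)).sub (by fun_prop)
  have hlow : ∀ y : X2, ψ (0, 0) + A * y.1 + B * y.2 + η / 2 * (y.1 ^ 2 + y.2 ^ 2) ≤ ψ y := by
    intro y
    have h := INV_low hF (x, (0, 0)) y.1 y.2
    have he : ((x, (0, 0)) : V) + INV_v y.1 y.2 = (x, y) := by
      ext <;> simp [INV_v]
    rw [he] at h
    simp only [hψ, hA, hB]
    linarith
  set R := 2 * (|A| + |B|) / η with hR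
  have hRnn : 0 ≤ R := by positivity
  have hfar : ∀ y : X2, R < ‖y‖ → ψ (0, 0) < ψ y := by
    intro y hy
    have h := hlow y
    have h1 : |y.1| ≤ ‖y‖ := norm_fst_le y
    have h2 : |y.2| ≤ ‖y‖ := norm_snd_le y
    have h3 : ‖y‖ ^ 2 ≤ y.1 ^ 2 + y.2 ^ 2 := by
      rcases max_choice ‖y.1‖ ‖y.2‖ with h4 | h4
      · rw [Prod.norm_def, h4, Real.norm_eq_abs, sq_abs]
        nlinarith [sq_nonneg y.2]
      · rw [Prod.norm_def, h4, Real.norm_eq_abs, sq_abs]
        nlinarith [sq_nonneg y.1]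
    have h5 : -(|A| * ‖y‖) ≤ A * y.1 := by
      have h6 : |A * y.1| ≤ |A| * ‖y‖ := by
        rw [abs_mul]
        exact mul_le_mul_of_nonneg_left h1 (abs_nonneg A)
      linarith [neg_abs_le (A * y.1)]
    have h7 : -(|B| * ‖y‖) ≤ B * y.2 := by
      have h6 : |B * y.2| ≤ |B| * ‖y‖ := by
        rw [abs_mul]
        exact mul_le_mul_of_nonneg_left h2 (abs_nonneg B)
      linarith [neg_abs_le (B * y.2)]
    have h8 : 2 * (|A| + |B|) < ‖y‖ * η := by
      rwa [hR, div_lt_iff₀ hη] at hy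
    have h9 : 0 < ‖y‖ := lt_of_le_of_lt hRnn hy
    have h10 : η / 2 * ‖y‖ ^ 2 ≤ η / 2 * (y.1 ^ 2 + y.2 ^ 2) :=
      mul_le_mul_of_nonneg_left h3 (by linarith)
    have h11 : 0 < ‖y‖ * (‖y‖ * η - 2 * (|A| + |B|)) := mul_pos h9 (by linarith)
    nlinarith
  obtain ⟨y, hy, hmin⟩ := (isCompact_closedBall (0 : X2) R).exists_isMinOn
    ⟨0, mem_closedBall_self hRnn⟩ hcont.continuousOn
  have hglob : ∀ y', ψ y ≤ ψ y' := by
    intro y'
    by_cases h : R < ‖y'‖
    · have h0 : ψ y ≤ ψ (0, 0) := hmin (mem_closedBall_self hRnn)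
      exact h0.trans (hfar y' h).le
    · exact hmin (by rw [mem_closedBall, dist_zero_right]; exact not_lt.1 h)
  refine ⟨(x, y), ?_⟩
  have key : ∀ a b : ℝ, d 2 F (x, y) * a + d 3 F (x, y) * b - (p.1 * a + p.2 * b) = 0 := by
    intro a b
    have hd : HasDerivAt (fun s : ℝ => F ((x, y) + s • INV_v a b) -
        (p.1 * (y.1 + s * a) + p.2 * (y.2 + s * b)))
        (fderiv ℝ F ((x, y) + (0 : ℝ) • INV_v a b) (INV_v a b) - (p.1 * (1 * a) + p.2 * (1 * b)))
        0 := by
      have h1 : HasDerivAt (fun s : ℝ => p.1 * (y.1 + s * a)) (p.1 * (1 * a)) 0 :=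
        (((hasDerivAt_id (0 : ℝ)).mul_const a).const_add y.1).const_mul p.1
      have h2 : HasDerivAt (fun s : ℝ => p.2 * (y.2 + s * b)) (p.2 * (1 * b)) 0 :=
        (((hasDerivAt_id (0 : ℝ)).mul_const b).const_add y.2).const_mul p.2
      exact (line_deriv hF.sm (x, y) (INV_v a b) 0).sub (h1.add h2)
    have hloc : IsLocalMin (fun s : ℝ => F ((x, y) + s • INV_v a b) -
        (p.1 * (y.1 + s * a) + p.2 * (y.2 + s * b))) 0 := by
      apply Filter.Eventually.of_forall
      intro s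
      have h1 := hglob (y.1 + s * a, y.2 + s * b)
      have h2 : ((x, y) : V) + s • INV_v a b = (x, (y.1 + s * a, y.2 + s * b)) := by
        ext <;> simp [INV_v]
      have h3 : ((x, y) : V) + (0 : ℝ) • INV_v a b = (x, y) := by simp
      simp only [hψ] at h1
      simp only [h2, h3, zero_mul, add_zero]
      linarith
    have h0 := hloc.hasDerivAt_eq_zero hd
    rw [fd_eq] at h0
    simp only [INV_v, zero_smul, add_zero] at h0
    linarith
  have k1 := key 1 0
  have k2 := key 0 1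
  simp only [gy, Prod.mk.injEq, true_and]
  refine Prod.ext ?_ ?_
  · simp only
    linarith
  · simp only
    linarith

/-- the derivative of the gradient map -/
def INV_D (F : V → ℝ) (z : V) : V →L[ℝ] V :=
  (ContinuousLinearMap.fst ℝ X2 X2).prod
    ((fderiv ℝ (d 2 F) z).prod (fderiv ℝ (d 3 F) z))

theorem INV_hasD {F : V → ℝ} (hF : Sm F) (z : V) : HasFDerivAt (gy F) (INV_D F z) z := by
  have h2 := ((hF.d 2).dAt z).hasFDerivAt
  have h3 := ((hF.d 3).dAt z).hasFDerivAt
  exact (hasFDerivAt_fst).prodMk (h2.prodMk h3)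

theorem INV_smooth {F : V → ℝ} (hF : Sm F) :
    ContDiff ℝ ((⊤ : ℕ∞) : WithTop ℕ∞) (gy F) := by
  have h2 := (hF.d 2).cd
  have h3 := (hF.d 3).cd
  exact contDiff_fst.prodMk (h2.prodMk h3)

theorem INV_Dinj {η : ℝ} {F : V → ℝ} (hη : 0 < η) (hF : SC η F) (z : V) :
    Function.Injective (INV_D F z) := by
  rw [injective_iff_map_eq_zero]
  intro v hv
  have h1 : v.1 = 0 := congrArg Prod.fst hv
  have h2 : fderiv ℝ (d 2 F) z v = 0 := congrArg (fun w : V => w.2.1) hv
  have h3 : fderiv ℝ (d 3 F) z v = 0 := congrArg (fun w : V => w.2.2) hv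
  rw [fd_eq, h1] at h2 h3
  have hc := d_comm hF.sm 3 2 z
  have h := hF.pos z v.2.1 v.2.2
  simp only [Prod.fst_zero, Prod.snd_zero, zero_mul, zero_add] at h2 h3
  rw [hc] at h2
  have h4 : v.2.1 ^ 2 * d 2 (d 2 F) z + 2 * v.2.1 * v.2.2 * d 2 (d 3 F) z +
      v.2.2 ^ 2 * d 3 (d 3 F) z = 0 := by
    linear_combination v.2.1 * h2 + v.2.2 * h3
  rw [h4] at h
  have h5 : v.2.1 ^ 2 + v.2.2 ^ 2 ≤ 0 := by
    by_contra h6
    push Not at h6
    have := mul_pos hη h6
    linarith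
  have ha : v.2.1 = 0 := by nlinarith [sq_nonneg v.2.1, sq_nonneg v.2.2]
  have hb : v.2.2 = 0 := by nlinarith [sq_nonneg v.2.1, sq_nonneg v.2.2]
  refine Prod.ext h1 (Prod.ext ?_ ?_)
  · simpa using ha
  · simpa using hb

theorem p_INV : T_INV := by
  intro η F hη hF
  have hinj := INV_inj hη hF
  have hsurj := INV_surj hη hF
  choose H hH using hsurj
  refine ⟨H, ?_, hH, fun z => hinj (hH (gy F z))⟩
  rw [contDiff_iff_contDiffAt]
  intro q
  have hsm : ContDiffAt ℝ ((⊤ : ℕ∞) : WithTop ℕ∞) (gy F) (H q) :=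
    (INV_smooth hF.sm).contDiffAt
  set L : V ≃L[ℝ] V := (LinearEquiv.ofInjectiveEndo (INV_D F (H q)).toLinearMap
    (INV_Dinj hη hF (H q))).toContinuousLinearEquiv with hL
  have hLc : (L : V →L[ℝ] V) = INV_D F (H q) := by
    ext <;> rfl
  have hder : HasFDerivAt (gy F) (L : V →L[ℝ] V) (H q) := by
    rw [hLc]
    exact INV_hasD hF.sm (H q)
  have hn : ((⊤ : ℕ∞) : WithTop ℕ∞) ≠ 0 := by simp
  have hloc := hsm.to_localInverse hder hn
  rw [hH q] at hloc
  refine hloc.congr_of_eventuallyEq ?_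
  have hst : HasStrictFDerivAt (gy F) (L : V →L[ℝ] V) (H q) :=
    hsm.hasStrictFDerivAt' hder hn
  have hr := hst.eventually_right_inverse
  rw [hH q] at hr
  filter_upwards [hr] with y hy
  apply hinj
  rw [hH y]
  exact hy.symm

end Pool.Agent.GNS
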