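import Pool.Agent.GNS.T1

/-!
# GNS: proof of target SII (charges after the transform)
-/

set_option autoImplicit false

open Metric Set Filter Topology MeasureTheory

noncomputable section

namespace Pool.Agent.GNS

namespace SII_

theorem gy_cont {F : V → ℝ} (h : Sm F) : Continuous (gy F) := by
  unfold gy
  exact continuous_fst.prodMk ((h.d 2).cont.prodMk (h.d 3).cont)

theorem SS_cont {F : V → ℝ} (h : Sm F) (i : Fin 4) : Continuous (SS i F) := by
  unfold SS
  have h1 := ((h.d i).d i).cont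
  have h2 := ((h.d 2).d 2).cont
  have h3 := ((h.d 3).d 3).cont
  have h4 := ((h.d 2).d i).cont
  have h5 := ((h.d 3).d i).cont
  exact ((h1.mul (h2.add h3)).sub (h4.pow 2)).sub (h5.pow 2)

/-- the gradient map of the transform inverts the gradient map -/
theorem gy_gy (hLG1 : T_LG1) {η : ℝ} {F : V → ℝ} (hη : 0 < η) (hF : SC η F) (z : V) :
    gy (Leg F) (gy F z) = z := by
  obtain ⟨-, -, -, h2, h3, -⟩ := (hLG1 η F hη hF).2 z
  have h4 : gy (Leg F) (gy F z) = ((gy F z).1, (d 2 (Leg F) (gy F z), d 3 (Leg F) (gy F z))) :=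
    rfl
  rw [h4, h2, h3]
  rfl

theorem gy_gy' (hLG1 : T_LG1) (hINV : T_INV) {η : ℝ} {F : V → ℝ} (hη : 0 < η) (hF : SC η F)
    (q : V) : gy F (gy (Leg F) q) = q := by
  obtain ⟨H, -, h1, -⟩ := hINV η F hη hF
  have h3 : gy (Leg F) q = H q := by
    conv_lhs => rw [← h1 q]
    exact gy_gy hLG1 hη hF (H q)
  rw [h3, h1]

theorem hcs (hLG1 : T_LG1) (hINV : T_INV) {η : ℝ} {F χ : V → ℝ} (hη : 0 < η) (hF : SC η F)
    (hχ : HasCompactSupport χ) : HasCompactSupport (fun z => χ (gy (Leg F) z)) := by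
  have hK : IsCompact (gy F '' tsupport χ) := hχ.isCompact.image (gy_cont hF.sm)
  refine HasCompactSupport.intro hK ?_
  intro q hq
  by_contra h
  apply hq
  exact ⟨gy (Leg F) q, subset_tsupport _ h, gy_gy' hLG1 hINV hη hF q⟩

/-- the pointwise inequality -/
theorem pw {η : ℝ} {u : V → ℝ} (hu : Uc η u) (i : Fin 4) (hi : i = 0 ∨ i = 1) (z : V) :
    d 2 (d i u) z ^ 2 + d 3 (d i u) z ^ 2 ≤ -SS i u z := by
  have h2 : 0 ≤ d 2 (d 2 u) z := by
    have h := hu.lo z 1 0
    nlinarith [h]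
  have h3 : 0 ≤ d 3 (d 3 u) z := by
    have h := hu.lo z 0 1
    nlinarith [h]
  have hii : d i (d i u) z ≤ 0 := by
    rcases hi with rfl | rfl
    · have h := hu.cc z 1 0
      nlinarith [h]
    · have h := hu.cc z 0 1
      nlinarith [h]
  unfold SS
  rw [d_comm hu.sm i 2 z, d_comm hu.sm i 3 z]
  nlinarith [mul_nonneg (neg_nonneg.2 hii) (add_nonneg h2 h3)]

end SII_

open SII_ in
theorem p_SII (hLG1 : T_LG1) (hLG2 : T_LG2) (hLGC : T_LGC) (hCHG : T_CHG) (hINV : T_INV) :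
    T_SII := by
  intro η w χ hη hw hχc hχs hχn i hi
  obtain ⟨hSC, hU, -, -⟩ := hLGC η w hη hw
  set F : V → ℝ := fun z => w z + η * q2 z with hFdef
  have hcs1 := hcs (χ := χ) hLG1 hINV hη hSC hχs
  refine ⟨hcs1, ?_⟩
  have hus : Sm (Leg F) := hU.sm
  have hgc : Continuous (fun z => χ (gy (Leg F) z)) := hχc.comp (gy_cont hus)
  have hSSc : Continuous fun q => -SS i (Leg F) q := (SS_cont hus i).neg
  have hGc : Continuous fun q => χ (gy (Leg F) q) * -SS i (Leg F) q := hgc.mul hSSc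
  have hGs : HasCompactSupport fun q => χ (gy (Leg F) q) * -SS i (Leg F) q := hcs1.mul_right
  obtain ⟨-, hch⟩ := hCHG η F hη hSC _ hGc hGs
  have hrhs : ∫ z, χ z * SS i F z = ∫ q, χ (gy (Leg F) q) * -SS i (Leg F) q := by
    rw [hch]
    refine integral_congr_ae (Eventually.of_forall fun z => ?_)
    have h0 : SS i F z = - SS i (Leg F) (gy F z) * jac F z := by
      obtain ⟨-, -, h1, h2, -⟩ := hLG2 η F hη hSC z
      rcases hi with rfl | rfl
      · exact h1
      · exact h2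
    show χ z * SS i F z = χ (gy (Leg F) (gy F z)) * -SS i (Leg F) (gy F z) * jac F z
    rw [gy_gy hLG1 hη hSC z, h0]
    ring
  rw [hrhs]
  have hqc : Continuous fun z => d 2 (d i (Leg F)) z ^ 2 + d 3 (d i (Leg F)) z ^ 2 :=
    (((hus.d i).d 2).cont.pow 2).add (((hus.d i).d 3).cont.pow 2)
  refine integral_mono (int_of (hgc.mul hqc) hcs1.mul_right) (int_of hGc hGs) ?_
  intro z
  exact mul_le_mul_of_nonneg_left (pw hU i hi z) (hχn _)

end Pool.Agent.GNS
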