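import Pool.Agent.GNS.T2

/-!
# GNS: the step preserves smoothness and ranges
-/

set_option autoImplicit false

open Metric Set Filter Topology MeasureTheory

noncomputable section

namespace Pool.Agent.GNS

namespace STA_

theorem sm_c0 {f : ℝ → ℝ} (hf : ContDiff ℝ ((⊤ : ℕ∞) : WithTop ℕ∞) f) (h : ℝ) : Sm (c0 f h) := by
  have h1 : Sm (fun z : V => z.1.1 / h) := by
    unfold Sm
    fun_prop
  exact h1.comp1 hf

theorem sm_c1 {f : ℝ → ℝ} (hf : ContDiff ℝ ((⊤ : ℕ∞) : WithTop ℕ∞) f) (h : ℝ) : Sm (c1 f h) := by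
  have h1 : Sm (fun z : V => z.1.2 / h) := by
    unfold Sm
    fun_prop
  exact h1.comp1 hf

theorem sm_wv (j : ℕ) (ν : ℝ) : Sm (wv j ν) := by
  have h1 : Sm (fun z : V => (2 ^ j * z.1.1 + z.2.1) / ν) := by
    unfold Sm
    fun_prop
  exact h1.comp1 Real.contDiff_cos

theorem sm_q1 : Sm q1 := by
  unfold Sm
  show ContDiff ℝ _ fun z : V => (z.1.1 ^ 2 + z.1.2 ^ 2) / 2
  fun_prop

theorem sm_divc {f : V → ℝ} (hf : Sm f) (c : ℝ) : Sm fun z => f z / c := by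
  have h1 := hf.cmul (1 / c)
  have h2 : (fun z => f z / c) = fun z => 1 / c * f z := by
    funext z
    ring
  rw [h2]
  exact h1

theorem x_c0 (f : ℝ → ℝ) (h : ℝ) : Xo (c0 f h) := by
  intro z z' hz
  unfold c0
  rw [hz]

theorem x_c1 (f : ℝ → ℝ) (h : ℝ) : Xo (c1 f h) := by
  intro z z' hz
  unfold c1
  rw [hz]

theorem x_q1 : Xo q1 := by
  intro z z' hz
  unfold q1
  rw [hz]

end STA_

open STA_ in
/-- STA. Smoothness and ranges are preserved. -/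
theorem p_STA : T_STA := by
  intro N θ σ σ2 q3 ϵ m2 c3 C ζ0 ζ1 hP hC hN j s hA ν h h' hν hh hh'
  have sθ0 := sm_c0 hP.smθ h
  have sθ1 := sm_c1 hP.smθ h'
  have sw := sm_wv j ν
  have sg0 : Sm (g0 θ h) := (Sm.const 1).sub sθ0
  have sg1 : Sm (g1 θ h h') := (sθ0.cmul 4).mul ((Sm.const 1).sub sθ1)
  have sAp : Sm (fun z => s.A z + 8 ^ j / Real.sqrt N * s.β z ^ 2 * wv j ν z) :=
    hA.smA.add (((hA.smβ.pow 2).cmul _).mul sw)
  have xg0 : ∀ z z' : V, z.1 = z'.1 → g0 θ h z = g0 θ h z' := by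
    intro z z' hz
    unfold g0
    rw [x_c0 θ h z z' hz]
  have xg1 : ∀ z z' : V, z.1 = z'.1 → g1 θ h h' z = g1 θ h h' z' := by
    intro z z' hz
    unfold g1
    rw [x_c0 θ h z z' hz, x_c1 θ h' z z' hz]
  have nθ0 : ∀ z, 0 ≤ c0 θ h z := fun z => hP.nn _
  have lθ0 : ∀ z, c0 θ h z ≤ 1 := fun z => hP.le _
  have nθ1 : ∀ z, 0 ≤ c1 θ h' z := fun z => hP.nn _
  have lθ1 : ∀ z, c1 θ h' z ≤ 1 := fun z => hP.le _
  have ng0 : ∀ z, 0 ≤ g0 θ h z := fun z => by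
    unfold g0
    linarith [lθ0 z]
  have ng1 : ∀ z, 0 ≤ g1 θ h h' z := fun z => by
    unfold g1
    exact mul_nonneg (mul_nonneg (by norm_num) (nθ0 z)) (by linarith [lθ1 z])
  have p4 : (0 : ℝ) ≤ 4 ^ j := by positivity
  refine
    { smβ := ?_, smF1 := ?_, smF2 := ?_, smU := ?_, smΦ := ?_, smΞ := ?_, smE := ?_, smA := ?_,
      smM1 := ?_, smM2 := ?_, smM3 := ?_, smb := ?_, xβ := ?_, xF1 := ?_, xF2 := ?_, xU := ?_,
      xΦ := ?_, xΞ := ?_, nβ := ?_, lβ := ?_, nF1 := ?_, nF2 := ?_, nU := ?_, bb := ?_,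
      ob := ?_ }
  · exact (hA.smβ.mul sθ0).mul sθ1
  · exact hA.smF1.add ((hA.smβ.cmul _).mul sg1)
  · exact hA.smF2.add ((hA.smβ.cmul _).mul sg0)
  · exact hA.smU.add (hA.smβ.cmul _)
  · exact (hA.smΦ.add ((hA.smβ.cmul _).mul ((sm_c0 hP.smσ h).cmul _))).add
      (((hA.smβ.mul sθ0).cmul _).mul ((sm_c1 hP.smσ h').cmul _))
  · exact hA.smΞ.add (sm_divc (hA.smΦ.sub sm_q1) _)
  · exact (hA.smE.sub (((hA.smβ.pow 2).cmul _).mul (sw.cmul _))).add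
      (sAp.mul ((sm_c0 hP.smσ2 h).cmul _))
  · exact (sAp.mul (sm_divc (sθ0.pow 2) m2)).mul (sθ1.pow 2)
  · exact hA.smM1.add ((sAp.mul (sm_divc (sθ0.pow 2) m2)).mul ((Sm.const 1).sub (sθ1.pow 2)))
  · exact hA.smM2.add (((hA.smβ.pow 2).cmul _).mul sw)
  · exact hA.smM3.add (((hA.smβ.pow 2).cmul _).mul sw)
  · exact hA.smb.add (((hA.smβ.cmul _).mul hC.sm0).mul sw)
  · intro z z' hz
    show s.β z * c0 θ h z * c1 θ h' z = s.β z' * c0 θ h z' * c1 θ h' z'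
    rw [hA.xβ z z' hz, x_c0 θ h z z' hz, x_c1 θ h' z z' hz]
  · intro z z' hz
    show s.F1 z + 4 ^ j * s.β z * g1 θ h h' z = s.F1 z' + 4 ^ j * s.β z' * g1 θ h h' z'
    rw [hA.xβ z z' hz, hA.xF1 z z' hz, xg1 z z' hz]
  · intro z z' hz
    show s.F2 z + 4 ^ j * s.β z * g0 θ h z = s.F2 z' + 4 ^ j * s.β z' * g0 θ h z'
    rw [hA.xβ z z' hz, hA.xF2 z z' hz, xg0 z z' hz]
  · intro z z' hz
    show s.U z + 4 ^ j * s.β z = s.U z' + 4 ^ j * s.β z'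
    rw [hA.xβ z z' hz, hA.xU z z' hz]
  · intro z z' hz
    show s.Φ z + 4 ^ j * s.β z * (h ^ 2 * c0 σ h z) +
      4 ^ j * (s.β z * c0 θ h z) * (h' ^ 2 * c1 σ h' z) =
      s.Φ z' + 4 ^ j * s.β z' * (h ^ 2 * c0 σ h z') +
      4 ^ j * (s.β z' * c0 θ h z') * (h' ^ 2 * c1 σ h' z')
    rw [hA.xβ z z' hz, hA.xΦ z z' hz, x_c0 θ h z z' hz, x_c0 σ h z z' hz, x_c1 σ h' z z' hz]
  · intro z z' hz
    show s.Ξ z + (s.Φ z - q1 z) / N = s.Ξ z' + (s.Φ z' - q1 z') / N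
    rw [hA.xΞ z z' hz, hA.xΦ z z' hz, x_q1 z z' hz]
  · intro z
    exact mul_nonneg (mul_nonneg (hA.nβ z) (nθ0 z)) (nθ1 z)
  · intro z
    exact mul_le_one₀ (mul_le_one₀ (hA.lβ z) (nθ0 z) (lθ0 z)) (nθ1 z) (lθ1 z)
  · intro z
    exact add_nonneg (hA.nF1 z) (mul_nonneg (mul_nonneg p4 (hA.nβ z)) (ng1 z))
  · intro z
    exact add_nonneg (hA.nF2 z) (mul_nonneg (mul_nonneg p4 (hA.nβ z)) (ng0 z))
  · intro z
    exact add_nonneg (hA.nU z) (mul_nonneg p4 (hA.nβ z))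
  · intro z
    show |s.b z + 4 ^ j * s.β z * ζ0 z * wv j ν z| ≤ 4 ^ (j + 1)
    have h1 : |4 ^ j * s.β z * ζ0 z * wv j ν z| ≤ 4 ^ j := by
      have h2 : |wv j ν z| ≤ 1 := Real.abs_cos_le_one _
      have h3 : 0 ≤ s.β z * ζ0 z := mul_nonneg (hA.nβ z) (hC.nn0 z)
      have h4 : s.β z * ζ0 z ≤ 1 := mul_le_one₀ (hA.lβ z) (hC.nn0 z) (hC.le0 z)
      have h5 : 4 ^ j * s.β z * ζ0 z * wv j ν z = 4 ^ j * (s.β z * ζ0 z * wv j ν z) := by ring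
      rw [h5, abs_mul, abs_of_nonneg p4, abs_mul, abs_of_nonneg h3]
      have h6 : s.β z * ζ0 z * |wv j ν z| ≤ 1 := mul_le_one₀ h4 (abs_nonneg _) h2
      calc (4 : ℝ) ^ j * (s.β z * ζ0 z * |wv j ν z|) ≤ 4 ^ j * 1 :=
            mul_le_mul_of_nonneg_left h6 p4
        _ = 4 ^ j := mul_one _
    have h7 := abs_add_le (s.b z) (4 ^ j * s.β z * ζ0 z * wv j ν z)
    have h8 := hA.bb z
    rw [pow_succ]
    linarith
  · intro z hz
    show s.b z + 4 ^ j * s.β z * ζ0 z * wv j ν z = 0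
    rw [hA.ob z hz, hC.out0 z hz]
    ring

end Pool.Agent.GNS
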