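import Pool.Agent.GNS.T4
import Pool.Agent.GNS.T3
import Pool.Agent.GNS.T1

/-!
# GNS: THM, evaluation of `mu b` on the four bodies
-/

set_option autoImplicit false

open Metric Set Filter Topology MeasureTheory

noncomputable section

namespace Pool.Agent.GNS

open Pool.Agent.GLB

namespace THM_

theorem sm_inj (k : ℕ) : ContDiff ℝ ((⊤ : ℕ∞) : WithTop ℕ∞) (inj (k := k)) := by
  unfold inj
  fun_prop

theorem sm_comp {k : ℕ} {f : E (k + 4) → ℝ} (hf : SmE f) : Sm fun z => f (inj z) :=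
  ContDiff.comp (g := f) (f := inj) hf (sm_inj k)

theorem sm1 : Sm fun z : V => z.1.2 := by
  unfold Sm
  fun_prop

theorem sm3 : Sm fun z : V => z.2.2 := by
  unfold Sm
  fun_prop

/-- second derivatives of a combination -/
theorem lin2 {W F1 F2 : V → ℝ} (hW : Sm W) (h1 : Sm F1) (h2 : Sm F2) (a b : ℝ) (i j : Fin 4)
    (z : V) : d i (d j fun z => W z + (a * F1 z + b * F2 z)) z =
      d i (d j W) z + (a * d i (d j F1) z + b * d i (d j F2) z) := by
  have h : (d j fun z => W z + (a * F1 z + b * F2 z)) =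
      fun z => d j W z + (a * d j F1 z + b * d j F2 z) := by
    funext z
    rw [d_add hW ((h1.cmul a).add (h2.cmul b)), d_add (h1.cmul a) (h2.cmul b), d_cmul h1,
      d_cmul h2]
  rw [h, d_add (hW.d j) (((h1.d j).cmul a).add ((h2.d j).cmul b)),
    d_add ((h1.d j).cmul a) ((h2.d j).cmul b), d_cmul (h1.d j), d_cmul (h2.d j)]

theorem d_one (i : Fin 4) (z : V) : d i (fun z : V => z.1.2) z = (e i).1.2 := by
  have h : HasFDerivAt (fun z : V => z.1.2)
      ((ContinuousLinearMap.snd ℝ ℝ ℝ).comp (ContinuousLinearMap.fst ℝ X2 X2)) z :=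
    ((ContinuousLinearMap.snd ℝ ℝ ℝ).comp (ContinuousLinearMap.fst ℝ X2 X2)).hasFDerivAt
  unfold d
  rw [h.fderiv]
  rfl

theorem d_three (i : Fin 4) (z : V) : d i (fun z : V => z.2.2) z = (e i).2.2 := by
  have h : HasFDerivAt (fun z : V => z.2.2)
      ((ContinuousLinearMap.snd ℝ ℝ ℝ).comp (ContinuousLinearMap.snd ℝ X2 X2)) z :=
    ((ContinuousLinearMap.snd ℝ ℝ ℝ).comp (ContinuousLinearMap.snd ℝ X2 X2)).hasFDerivAt
  unfold d
  rw [h.fderiv]
  rfl

/-- second derivatives of the product of coordinates -/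
theorem dd_P (i j : Fin 4) (z : V) : d i (d j fun z : V => z.1.2 * z.2.2) z =
    (e j).1.2 * (e i).2.2 + (e i).1.2 * (e j).2.2 := by
  have h : (d j fun z : V => z.1.2 * z.2.2) =
      fun z => (e j).1.2 * z.2.2 + (e j).2.2 * z.1.2 := by
    funext z
    rw [d_mul sm1 sm3, d_one, d_three]
    ring
  rw [h, d_add (sm3.cmul _) (sm1.cmul _), d_cmul sm3, d_cmul sm1, d_one, d_three]
  ring

/-- second derivatives are local -/
theorem dd_congr {f g : V → ℝ} {z : V} (h : f =ᶠ[𝓝 z] g) (i j : Fin 4) :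
    d i (d j f) z = d i (d j g) z := by
  refine d_congr ?_ i
  exact h.eventuallyEq_nhds.mono fun y hy => d_congr hy j

theorem int_b {b F : V → ℝ} (hb : Sm b) (hc : HasCompactSupport b) (hF : Continuous F) :
    Integrable fun z => b z * F z :=
  int_of (hb.cont.mul hF) hc.mul_right

theorem cont_T {w : V → ℝ} (hw : Sm w) : Continuous (T12 w) := by
  unfold T12
  exact (((hw.d 2).d 0).cont.mul ((hw.d 3).d 1).cont).sub
    (((hw.d 3).d 0).cont.mul ((hw.d 2).d 1).cont)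

theorem comb {f1 f2 f3 f4 : V → ℝ} (h1 : Integrable f1) (h2 : Integrable f2)
    (h3 : Integrable f3) (h4 : Integrable f4) :
    (∫ z, f1 z) - (∫ z, f2 z) - (∫ z, f3 z) + (∫ z, f4 z) =
      ∫ z, (f1 z - f2 z - f3 z + f4 z) := by
  have e1 : ∫ z, (f1 z - f2 z - f3 z + f4 z) = (∫ z, (f1 z - f2 z - f3 z)) + ∫ z, f4 z :=
    integral_add (f := fun z => f1 z - f2 z - f3 z) ((h1.sub h2).sub h3) h4
  have e2 : ∫ z, (f1 z - f2 z - f3 z) = (∫ z, (f1 z - f2 z)) - ∫ z, f3 z :=
    integral_sub (f := fun z => f1 z - f2 z) (h1.sub h2) h3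
  rw [e1, e2, integral_sub h1 h2]

end THM_

open THM_ in
theorem p_THM (hLFP : T_LFP) (hWKF : T_WKF) (hPRJ : T_PRJ) (hRTS : T_RTS) : T_THM := by
  intro k ζa ζb ζc hζ b Eo s t hb hE hb0 L hL
  obtain ⟨-, hpi, hni, -⟩ := hPRJ k
  have hc : HasCompactSupport b := hcs_of hb0
  set W : V → ℝ := fun z => rt (inj (k := k) z) with hWdef
  set F1 : V → ℝ := fun z => ζa (inj z) * Eo z with hF1def
  set F2 : V → ℝ := fun z => ζb (inj z) * (z.1.2 * z.2.2) with hF2def
  have hW : Sm W := sm_comp (hRTS (k + 4)).1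
  have hF1 : Sm F1 := (sm_comp hζ.sma).mul hE
  have hF2 : Sm F2 := (sm_comp hζ.smb).mul (sm1.mul sm3)
  have hw : ∀ i j, wK (L i j) =
      fun z => W z + (((-1) ^ (i : ℕ) * s) * F1 z + ((-1) ^ (j : ℕ) * t) * F2 z) := by
    intro i j
    funext z
    have h1 := (hLFP (k + 4) 1 0 _ _ (L i j) (L i j) zero_le_one le_rfl (hL i j)
      (hL i j)).1 (inj z)
    have h2 := hpi z
    have h3 : (inj (k := k) z) 1 = z.1.2 := congrArg (fun v : V => v.1.2) h2
    have h4 : (inj (k := k) z) 3 = z.2.2 := congrArg (fun v : V => v.2.2) h2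
    unfold wK
    rw [h1]
    unfold pm
    simp only [h2, h3, h4, one_mul, hWdef, hF1def, hF2def]
  have hs : ∀ i j : Fin 2, Sm fun z => W z + (((-1) ^ (i : ℕ) * s) * F1 z +
      ((-1) ^ (j : ℕ) * t) * F2 z) := fun i j => hW.add ((hF1.cmul _).add (hF2.cmul _))
  have hmu : ∀ i j, mu b (L i j) = ((∫ z, b z * T12 (fun z => W z +
      (((-1) ^ (i : ℕ) * s) * F1 z + ((-1) ^ (j : ℕ) * t) * F2 z)) z : ℝ) : ℂ) := by
    intro i j
    unfold mu
    rw [hw i j, hWKF b _ hb hc (hs i j)]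
  unfold Th
  rw [hmu, hmu, hmu, hmu, ← Complex.ofReal_sub, ← Complex.ofReal_sub, ← Complex.ofReal_add]
  congr 1
  have hi := fun i j => int_b hb hc (cont_T (hs i j))
  rw [comb (hi 0 0) (hi 0 1) (hi 1 0) (hi 1 1), ← integral_const_mul]
  congr 1
  funext z
  by_cases hz : 1 ≤ ‖z‖
  · rw [hb0 z hz]
    ring
  · rw [not_le] at hz
    have hn : ∀ᶠ y : V in 𝓝 z, ‖y‖ < 1 := continuous_norm.continuousAt.eventually_lt
      continuousAt_const hz
    have c1 : F1 =ᶠ[𝓝 z] Eo := by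
      filter_upwards [hn] with y hy
      simp only [hF1def]
      rw [hζ.onea (inj y) ((hni y).trans (by linarith)), one_mul]
    have c2 : F2 =ᶠ[𝓝 z] fun z => z.1.2 * z.2.2 := by
      filter_upwards [hn] with y hy
      simp only [hF2def]
      rw [hζ.oneb (inj y) ((hni y).trans (by linarith)), one_mul]
    unfold T12
    simp only [lin2 hW hF1 hF2, dd_congr c1, dd_congr c2, dd_P]
    simp [e]
    ring

end Pool.Agent.GNS
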