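import Pool.Agent.GNS.T3
import Pool.Agent.GNS.T4

/-!
# GNS: target THP, evaluation of the four-term combination for an area measure
-/

set_option autoImplicit false

open Metric Set Filter Topology MeasureTheory

noncomputable section

namespace Pool.Agent.GNS

open Pool.Agent.GLB

namespace THP_

variable {m : ℕ}

theorem two {f : E m → ℝ} (h : SmE f) : ContDiff ℝ 2 f :=
  ContDiff.of_le (show ContDiff ℝ ((⊤ : ℕ∞) : WithTop ℕ∞) f from h)
    (show ((2 : ℕ∞) : WithTop ℕ∞) ≤ ((⊤ : ℕ∞) : WithTop ℕ∞) from WithTop.coe_le_coe.2 le_top)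

theorem cont_Hs {f : E m → ℝ} (h : SmE f) (i j : Fin m) : Continuous fun x => Hs f x i j :=
  ((gPRD m).2.2.2.2.2.2 f (two h)).comp
    (Continuous.prodMk continuous_id (continuous_const (y := (eb i, eb j))))

/-- the second derivative of the perturbed function -/
theorem Hs_lin {w f g : E m → ℝ} (hw : SmE w) (hf : SmE f) (hg : SmE g) (a b : ℝ) :
    Hs (fun y => 1 * w y + (a * f y + b * g y)) =
      fun x i j => Hs w x i j + (a * Hs f x i j + b * Hs g x i j) := by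
  funext x i j
  unfold Hs
  have hf' : ContDiff ℝ 2 fun y : E m => a * f y := contDiff_const.mul (two hf)
  have hg' : ContDiff ℝ 2 fun y : E m => b * g y := contDiff_const.mul (two hg)
  have hw' : ContDiff ℝ 2 fun y : E m => 1 * w y := contDiff_const.mul (two hw)
  rw [(gPRD m).2.2.1 (fun y => 1 * w y) (fun y => a * f y + b * g y) hw' (hf'.add hg'),
    (gPRD m).2.2.1 (fun y => a * f y) (fun y => b * g y) hf' hg',
    (gPRD m).2.2.2.1 1 w (two hw), (gPRD m).2.2.2.1 a f (two hf), (gPRD m).2.2.2.1 b g (two hg),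
    one_mul]

/-- the quadratic form on a sum -/
theorem expand (h_BBL : T_BBL) {Ψ : ConvexBody (E (m + 1)) → (C(S (m + 1), ℂ) →L[ℂ] ℂ)}
    (hΨ : IsArea (m + 1) 2 Ψ) {R : ℝ} {ψ : E m → ℂ} (hψ : Tf R ψ)
    {W F G : E m → Fin m → Fin m → ℝ} (hW : ∀ i j, Continuous fun x => W x i j)
    (hF : ∀ i j, Continuous fun x => F x i j) (hG : ∀ i j, Continuous fun x => G x i j)
    (a b : ℝ) :
    BB Ψ (fun x i j => W x i j + (a * F x i j + b * G x i j))
      (fun x i j => W x i j + (a * F x i j + b * G x i j)) ψ =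
    BB Ψ W W ψ + (a : ℂ) ^ 2 * BB Ψ F F ψ + (b : ℂ) ^ 2 * BB Ψ G G ψ +
      2 * a * BB Ψ W F ψ + 2 * b * BB Ψ W G ψ + 2 * a * b * BB Ψ F G ψ := by
  have haF : ∀ i j, Continuous fun x => a * F x i j := fun i j => continuous_const.mul (hF i j)
  have hbG : ∀ i j, Continuous fun x => b * G x i j := fun i j => continuous_const.mul (hG i j)
  have hs : ∀ i j, Continuous fun x => a * F x i j + b * G x i j :=
    fun i j => (haF i j).add (hbG i j)
  have hM : ∀ i j, Continuous fun x => W x i j + (a * F x i j + b * G x i j) :=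
    fun i j => (hW i j).add (hs i j)
  have key : ∀ X : E m → Fin m → Fin m → ℝ, (∀ i j, Continuous fun x => X x i j) →
      BB Ψ (fun x i j => W x i j + (a * F x i j + b * G x i j)) X ψ =
        BB Ψ W X ψ + (a : ℂ) * BB Ψ F X ψ + (b : ℂ) * BB Ψ G X ψ := by
    intro X hX
    have h1 := (h_BBL m Ψ hΨ R ψ hψ W (fun x i j => a * F x i j + b * G x i j) X hW hs hX).2.1
    have h2 := (h_BBL m Ψ hΨ R ψ hψ (fun x i j => a * F x i j) (fun x i j => b * G x i j) X
      haF hbG hX).2.1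
    have h3 := (h_BBL m Ψ hΨ R ψ hψ F F X hF hF hX).2.2 a
    have h4 := (h_BBL m Ψ hΨ R ψ hψ G G X hG hG hX).2.2 b
    rw [h1, h2, h3, h4]
    ring
  have sy : ∀ X Y : E m → Fin m → Fin m → ℝ, (∀ i j, Continuous fun x => X x i j) →
      (∀ i j, Continuous fun x => Y x i j) → BB Ψ X Y ψ = BB Ψ Y X ψ := fun X Y hX hY =>
    (h_BBL m Ψ hΨ R ψ hψ X X Y hX hX hY).1
  rw [key _ hM, sy W _ hW hM, sy F _ hF hM, sy G _ hG hM, key W hW, key F hF, key G hG,
    sy F W hF hW, sy G W hG hW, sy G F hG hF]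
  ring

end THP_

open THP_ in
theorem p_THP (h_STR : T_STR) (h_BBL : T_BBL) (h_HAT : T_HAT) (h_CHT : T_CHT) (h_RTS : T_RTS) :
    T_THP := by
  intro k Ψ hΨ ζa ζb ζc hζ f1 f2 s t c hf1 hf2 h0 hLc L hL
  have hT : Tf 4 (fun x : E (k + 4) => (ζc x : ℂ)) := by
    refine ⟨Complex.continuous_ofReal.comp ?_, fun x hx => by rw [hζ.outc x hx]; simp⟩
    exact (show ContDiff ℝ ((⊤ : ℕ∞) : WithTop ℕ∞) ζc from hζ.smc).continuous
  have hH := h_HAT (k + 4) 4 _ _ hT hT
  set φ : E (k + 4) → ℂ := fun x => (ζc x : ℂ) with hφ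
  -- the part away from the pole
  obtain ⟨δ, hδ, hδ2⟩ : ∃ δ : ℝ, 0 < δ ∧ δ ^ 2 = 4 / 53 :=
    ⟨Real.sqrt (4 / 53), Real.sqrt_pos.2 (by norm_num), Real.sq_sqrt (by norm_num)⟩
  have hdn : ∀ v : S (k + 4 + 1), 0 < hgt (v : E (k + 4 + 1)) →
      hgt (v : E (k + 4 + 1)) ^ 2 * ‖dn (v : E (k + 4 + 1))‖ ^ 2 =
        1 - hgt (v : E (k + 4 + 1)) ^ 2 := by
    intro v hv
    have h1 := (h_CHT (k + 4)).2.2.2.2.2.2.1 (v : E (k + 4 + 1)) hv
    have h2 : ‖(v : E (k + 4 + 1))‖ = 1 := by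
      have := v.2
      rwa [mem_sphere_iff_norm, sub_zero] at this
    have h3 := (h_CHT (k + 4)).2.2.2.2.2.2.2.2.2.2.2 (dn (v : E (k + 4 + 1)))
    have h4 : ‖(v : E (k + 4 + 1))‖ =
        hgt (v : E (k + 4 + 1)) * rt (dn (v : E (k + 4 + 1))) := by
      rw [← h3.1]
      conv_lhs => rw [← h1]
      rw [norm_smul, Real.norm_eq_abs, abs_of_pos hv]
    have h5 : rt (dn (v : E (k + 4 + 1))) ^ 2 = 1 + ‖dn (v : E (k + 4 + 1))‖ ^ 2 :=
      Real.sq_sqrt (by positivity)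
    rw [h2] at h4
    have h6 : (1 : ℝ) = hgt (v : E (k + 4 + 1)) ^ 2 * (1 + ‖dn (v : E (k + 4 + 1))‖ ^ 2) := by
      rw [← h5, ← mul_pow, ← h4, one_pow]
    linarith
  have hcont : Continuous fun v : S (k + 4 + 1) => hgt (v : E (k + 4 + 1)) := by
    unfold hgt
    fun_prop
  have hloc : ∀ i j, Ψ (L i j) (1 - HC φ) = Ψ (L 0 0) (1 - HC φ) := by
    intro i j
    refine hΨ.loc (L i j) (L 0 0) {v | hgt (v : E (k + 4 + 1)) < δ}
      (isOpen_lt hcont continuous_const) ?_ _ ?_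
    · intro v hv
      have hv' : hgt (v : E (k + 4 + 1)) < δ := hv
      have hz : ∀ i' j', hx (pm s t f1 f2 i' j') (v : E (k + 4 + 1)) = 0 := by
        intro i' j'
        unfold hx
        split_ifs with hp
        · have h1 := hdn v hp
          have h2 : 7 / 2 ≤ ‖dn (v : E (k + 4 + 1))‖ := by
            by_contra hlt
            push Not at hlt
            have h3 : hgt (v : E (k + 4 + 1)) ^ 2 < 4 / 53 := by
              rw [← hδ2]
              exact pow_lt_pow_left₀ hv' hp.le two_ne_zero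
            have h4 : ‖dn (v : E (k + 4 + 1))‖ ^ 2 < 49 / 4 := by
              have := norm_nonneg (dn (v : E (k + 4 + 1)))
              nlinarith
            have h5 : 0 < hgt (v : E (k + 4 + 1)) ^ 2 := by positivity
            nlinarith
          have h3 := h0 _ h2
          unfold pm
          rw [h3.1, h3.2]
          ring
        · rfl
      rw [hL i j, hL 0 0, hz, hz]
    · intro v hv
      have hv' : δ ≤ hgt (v : E (k + 4 + 1)) := not_lt.1 hv
      have hp : 0 < hgt (v : E (k + 4 + 1)) := lt_of_lt_of_le hδ hv'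
      have h1 := hdn v hp
      have h2 : ‖dn (v : E (k + 4 + 1))‖ ≤ 15 / 4 := by
        by_contra hlt
        push Not at hlt
        have h3 : 4 / 53 ≤ hgt (v : E (k + 4 + 1)) ^ 2 := by
          rw [← hδ2]
          exact pow_le_pow_left₀ hδ.le hv' 2
        have h4 : (49 : ℝ) / 4 < ‖dn (v : E (k + 4 + 1))‖ ^ 2 := by nlinarith
        nlinarith
      have h3 : HC φ v = 1 := by
        rw [hH.2.1 v]
        unfold hatf
        rw [if_pos hp, hφ]
        simp only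
        rw [hζ.onec _ h2]
        simp
      rw [ContinuousMap.sub_apply, h3]
      simp
  have hsplit : ∀ i j, Ψ (L i j) 1 = Ψ (L i j) (HC φ) + Ψ (L 0 0) (1 - HC φ) := by
    intro i j
    rw [← hloc i j, ← map_add]
    congr 1
    abel
  -- the part near the pole
  have hsm := (h_RTS (k + 4)).1
  have hq : ∀ i j, Ψ (L i j) (HC φ) =
      BB Ψ (Hs rt) (Hs rt) φ + (((-1) ^ (i : ℕ) * s : ℝ) : ℂ) ^ 2 * BB Ψ (Hs f1) (Hs f1) φ +
        (((-1) ^ (j : ℕ) * t : ℝ) : ℂ) ^ 2 * BB Ψ (Hs f2) (Hs f2) φ +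
        2 * (((-1) ^ (i : ℕ) * s : ℝ) : ℂ) * BB Ψ (Hs rt) (Hs f1) φ +
        2 * (((-1) ^ (j : ℕ) * t : ℝ) : ℂ) * BB Ψ (Hs rt) (Hs f2) φ +
        2 * (((-1) ^ (i : ℕ) * s : ℝ) : ℂ) * (((-1) ^ (j : ℕ) * t : ℝ) : ℂ) *
          BB Ψ (Hs f1) (Hs f2) φ := by
    intro i j
    have h1 := h_STR (k + 4) Ψ (by omega) hΨ 1 c (pm s t f1 f2 i j) one_pos (hLc i j) (L i j)
      (hL i j) φ hT
    have h2 : (Hs fun y : E (k + 4) => 1 * rt y + pm s t f1 f2 i j y) =
        fun x i' j' => Hs rt x i' j' + (((-1) ^ (i : ℕ) * s) * Hs f1 x i' j' +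
          ((-1) ^ (j : ℕ) * t) * Hs f2 x i' j') :=
      Hs_lin hsm hf1 hf2 ((-1) ^ (i : ℕ) * s) ((-1) ^ (j : ℕ) * t)
    rw [h1, h2]
    exact expand h_BBL hΨ hT (cont_Hs hsm) (cont_Hs hf1) (cont_Hs hf2) _ _
  unfold Th
  simp only
  rw [hsplit 0 0, hsplit 0 1, hsplit 1 0, hsplit 1 1, hq 0 0, hq 0 1, hq 1 0, hq 1 1]
  simp only [Fin.val_zero, Fin.val_one, pow_zero, pow_one, Complex.ofReal_mul,
    Complex.ofReal_neg, Complex.ofReal_one]
  ring

end Pool.Agent.GNS
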