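import Pool.Agent.GNS.T3

/-!
# GNS: target TRG, approximation by trigonometric sums
-/

set_option autoImplicit false

open Metric Set Filter Topology MeasureTheory

noncomputable section

namespace Pool.Agent.GNS

open Pool.Agent.GLB

namespace TRG_

open scoped FourierTransform SchwartzMap

/-- a Bochner integral of a function with values in a closed subspace lies in this subspace -/
theorem integral_mem_closed {X α : Type} [NormedAddCommGroup X] [NormedSpace ℝ X]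
    [CompleteSpace X] [MeasurableSpace α] {μ : Measure α} (K : Submodule ℝ X)
    (hK : IsClosed (K : Set X)) {Φ : α → X} (hΦ : Integrable Φ μ) (h : ∀ a, Φ a ∈ K) :
    ∫ a, Φ a ∂μ ∈ K := by
  by_contra hx
  obtain ⟨f, u, h1, h2⟩ := geometric_hahn_banach_closed_point K.convex hK hx
  have h3 : ∀ a ∈ K, f a = 0 := by
    intro a ha
    by_contra h0
    have h4 := h1 ((u / f a) • a) (K.smul_mem _ ha)
    rw [map_smul, smul_eq_mul, div_mul_cancel₀ _ h0] at h4
    exact lt_irrefl _ h4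
  have h5 : f (∫ a, Φ a ∂μ) = 0 := by
    rw [← f.integral_comp_comm hΦ]
    simp only [h3 _ (h _), integral_zero]
  have h6 := h1 0 K.zero_mem
  rw [map_zero] at h6
  rw [h5] at h2
  exact lt_asymm h2 h6

variable {m : ℕ}

/-- integrals in spaces of continuous functions -/
theorem general {Y : Type} [NormedAddCommGroup Y] [NormedSpace ℝ Y] [CompleteSpace Y]
    (g : C(E m × closedBall (0 : E m) 5, Y)) (bd : E m → ℝ) (hbd : Integrable bd)
    (hn : ∀ v x, ‖g (v, x)‖ ≤ bd v) (S : Submodule ℝ C(closedBall (0 : E m) 5, Y))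
    (hS : ∀ v, g.curry v ∈ S) :
    ∃ I : C(closedBall (0 : E m) 5, Y), (∀ ε : ℝ, 0 < ε → ∃ t ∈ S, ∀ x, ‖I x - t x‖ ≤ ε) ∧
      ∀ x, Integrable (fun v => g (v, x)) ∧ I x = ∫ v, g (v, x) := by
  have hc : Continuous g.curry := g.curry.continuous
  have hm : AEStronglyMeasurable g.curry (volume : Measure (E m)) := hc.aestronglyMeasurable
  have hi : Integrable g.curry := by
    refine hbd.mono' hm (Eventually.of_forall fun v => ?_)
    have h0 : 0 ≤ bd v :=
      le_trans (norm_nonneg _) (hn v ⟨0, mem_closedBall_self (by norm_num)⟩)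
    exact (ContinuousMap.norm_le _ h0).2 fun x => hn v x
  refine ⟨∫ v, g.curry v, ?_, fun x => ⟨?_, ?_⟩⟩
  · have h1 : ∫ v, g.curry v ∈ S.topologicalClosure := by
      refine integral_mem_closed _ (Submodule.isClosed_topologicalClosure _) hi fun v => ?_
      exact Submodule.le_topologicalClosure _ (hS v)
    have h2 : ∫ v, g.curry v ∈ closure (S : Set C(closedBall (0 : E m) 5, Y)) := h1
    intro ε hε
    obtain ⟨t, ht, hd⟩ := Metric.mem_closure_iff.1 h2 ε hε
    refine ⟨t, ht, fun x => ?_⟩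
    rw [dist_eq_norm] at hd
    exact (ContinuousMap.norm_coe_le_norm ((∫ v, g.curry v) - t) x).trans hd.le
  · exact (ContinuousMap.evalCLM ℝ x).integrable_comp hi
  · exact ((ContinuousMap.evalCLM ℝ x).integral_comp_comm hi).symm

/-- bilinear forms -/
def BL (m : ℕ) : Type := E m →L[ℝ] E m →L[ℝ] ℝ

instance instB1 : NormedAddCommGroup (BL m) :=
  inferInstanceAs (NormedAddCommGroup (E m →L[ℝ] E m →L[ℝ] ℝ))

instance instB2 : NormedSpace ℝ (BL m) :=
  inferInstanceAs (NormedSpace ℝ (E m →L[ℝ] E m →L[ℝ] ℝ))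

instance instB3 : CompleteSpace (BL m) :=
  inferInstanceAs (CompleteSpace (E m →L[ℝ] E m →L[ℝ] ℝ))

/-- a bilinear form as an element of `BL m` -/
def toBL (c : E m →L[ℝ] E m →L[ℝ] ℝ) : BL m := c

/-- an element of `BL m` as a bilinear form -/
def ofBL (c : BL m) : E m →L[ℝ] E m →L[ℝ] ℝ := c

/-- the space of two-jets -/
abbrev W (m : ℕ) : Type := ℝ × (E m →L[ℝ] ℝ) × BL m

/-- first projection -/
def P0 : W m →L[ℝ] ℝ := ContinuousLinearMap.fst ℝ ℝ ((E m →L[ℝ] ℝ) × BL m)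

/-- the second and third component -/
def P12 : W m →L[ℝ] (E m →L[ℝ] ℝ) × BL m :=
  ContinuousLinearMap.snd ℝ ℝ ((E m →L[ℝ] ℝ) × BL m)

/-- second projection -/
def P1 : W m →L[ℝ] (E m →L[ℝ] ℝ) :=
  (ContinuousLinearMap.fst ℝ (E m →L[ℝ] ℝ) (BL m)).comp P12

/-- third projection -/
def P2 : W m →L[ℝ] BL m :=
  (ContinuousLinearMap.snd ℝ (E m →L[ℝ] ℝ) (BL m)).comp P12

/-- a jet -/
def mkW (a : ℝ) (b : E m →L[ℝ] ℝ) (c : E m →L[ℝ] E m →L[ℝ] ℝ) : W m := (a, b, toBL c)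

theorem norm_W (w : W m) (r : ℝ) : ‖w‖ ≤ r ↔ ‖P0 w‖ ≤ r ∧ ‖P1 w‖ ≤ r ∧ ‖P2 w‖ ≤ r := by
  have h : ‖w‖ ≤ r ↔ ‖w.1‖ ≤ r ∧ ‖w.2‖ ≤ r := norm_prod_le_iff
  have h' : ‖w.2‖ ≤ r ↔ ‖w.2.1‖ ≤ r ∧ ‖w.2.2‖ ≤ r := norm_prod_le_iff
  rw [h, h']
  rfl

theorem ext_W {w w' : W m} (h0 : P0 w = P0 w') (h1 : P1 w = P1 w') (h2 : P2 w = P2 w') :
    w = w' := Prod.ext h0 (Prod.ext h1 h2)

theorem cont_W {α : Type} [TopologicalSpace α] {a : α → ℝ} {b : α → E m →L[ℝ] ℝ}
    {c : α → E m →L[ℝ] E m →L[ℝ] ℝ} (ha : Continuous a) (hb : Continuous b)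
    (hc : Continuous c) : Continuous fun x => mkW (a x) (b x) (c x) := by
  have hc' : Continuous fun x => toBL (c x) := hc
  exact ha.prodMk (hb.prodMk hc')

/-- the wave -/
def w0 (p q : ℝ) (κ x : E m) : ℝ := p * Real.cos (inner ℝ κ x) + q * Real.sin (inner ℝ κ x)

/-- its derivative -/
def w1 (p q : ℝ) (κ x : E m) : E m →L[ℝ] ℝ :=
  (-p * Real.sin (inner ℝ κ x) + q * Real.cos (inner ℝ κ x)) • innerSL ℝ κ

/-- its second derivative -/
def w2 (p q : ℝ) (κ x : E m) : E m →L[ℝ] E m →L[ℝ] ℝ :=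
  (-p * Real.cos (inner ℝ κ x) - q * Real.sin (inner ℝ κ x)) •
    (innerSL ℝ κ).smulRight (innerSL ℝ κ)

/-- the jet of the wave -/
def jw (p q : ℝ) (κ x : E m) : W m := mkW (w0 p q κ x) (w1 p q κ x) (w2 p q κ x)

theorem P0_jw (p q : ℝ) (κ x : E m) : P0 (jw p q κ x) = w0 p q κ x := rfl

theorem P1_jw (p q : ℝ) (κ x : E m) : P1 (jw p q κ x) = w1 p q κ x := rfl

theorem P2_jw (p q : ℝ) (κ x : E m) : P2 (jw p q κ x) = toBL (w2 p q κ x) := rfl

theorem norm_toBL (c : E m →L[ℝ] E m →L[ℝ] ℝ) : ‖toBL c‖ = ‖c‖ := rfl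

theorem inner_deriv (κ x : E m) : HasFDerivAt (fun x : E m => (inner ℝ κ x : ℝ)) (innerSL ℝ κ) x :=
  (innerSL ℝ κ).hasFDerivAt

theorem w0_deriv (p q : ℝ) (κ x : E m) : HasFDerivAt (w0 p q κ) (w1 p q κ x) x := by
  have h1 := ((inner_deriv κ x).cos.const_mul p).add ((inner_deriv κ x).sin.const_mul q)
  refine h1.congr_fderiv ?_
  unfold w1
  ext v
  simp only [add_apply, smul_apply, smul_eq_mul]
  ring

theorem w1_deriv (p q : ℝ) (κ x : E m) : HasFDerivAt (w1 p q κ) (w2 p q κ x) x := by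
  have h1 := ((inner_deriv κ x).sin.const_mul (-p)).add ((inner_deriv κ x).cos.const_mul q)
  have h2 := h1.smul_const (innerSL ℝ κ)
  refine h2.congr_fderiv ?_
  unfold w2
  ext v u
  simp only [ContinuousLinearMap.smulRight_apply, add_apply, smul_apply, smul_eq_mul]
  ring

theorem cont0 {A B : E m → ℝ} {κ : E m → E m} (hA : Continuous A) (hB : Continuous B)
    (hκ : Continuous κ) : Continuous fun p : E m × E m => w0 (A p.1) (B p.1) (κ p.1) p.2 := by
  unfold w0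
  fun_prop

theorem cont1 {A B : E m → ℝ} {κ : E m → E m} (hA : Continuous A) (hB : Continuous B)
    (hκ : Continuous κ) : Continuous fun p : E m × E m => w1 (A p.1) (B p.1) (κ p.1) p.2 := by
  have h : Continuous fun p : E m × E m => innerSL ℝ (κ p.1) := by fun_prop
  have h0 : Continuous fun p : E m × E m => (-A p.1 * Real.sin (inner ℝ (κ p.1) p.2) +
      B p.1 * Real.cos (inner ℝ (κ p.1) p.2)) := by fun_prop
  exact h0.smul h

theorem cont2 {A B : E m → ℝ} {κ : E m → E m} (hA : Continuous A) (hB : Continuous B)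
    (hκ : Continuous κ) : Continuous fun p : E m × E m => w2 (A p.1) (B p.1) (κ p.1) p.2 := by
  have h : Continuous fun p : E m × E m => innerSL ℝ (κ p.1) := by fun_prop
  have h0 : Continuous fun p : E m × E m => (-A p.1 * Real.cos (inner ℝ (κ p.1) p.2) -
      B p.1 * Real.sin (inner ℝ (κ p.1) p.2)) := by fun_prop
  have h2 : Continuous fun p : E m × E m => (innerSL ℝ (κ p.1)).smulRight (innerSL ℝ (κ p.1)) := by
    have h3 := (ContinuousLinearMap.smulRightL ℝ (E m) (E m →L[ℝ] ℝ)).continuous₂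
    exact h3.comp (h.prodMk h)
  exact h0.smul h2

theorem contj {A B : E m → ℝ} {κ : E m → E m} (hA : Continuous A) (hB : Continuous B)
    (hκ : Continuous κ) : Continuous fun p : E m × E m => jw (A p.1) (B p.1) (κ p.1) p.2 :=
  cont_W (cont0 hA hB hκ) (cont1 hA hB hκ) (cont2 hA hB hκ)

theorem abs_trig (a b t : ℝ) : |a * Real.cos t + b * Real.sin t| ≤ |a| + |b| := by
  refine (abs_add_le _ _).trans (add_le_add ?_ ?_)
  · rw [abs_mul]
    exact mul_le_of_le_one_right (abs_nonneg _) (Real.abs_cos_le_one _)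
  · rw [abs_mul]
    exact mul_le_of_le_one_right (abs_nonneg _) (Real.abs_sin_le_one _)

theorem w0_norm (p q : ℝ) (κ x : E m) : ‖w0 p q κ x‖ ≤ |p| + |q| := abs_trig _ _ _

theorem w1_norm (p q : ℝ) (κ x : E m) : ‖w1 p q κ x‖ ≤ (|p| + |q|) * ‖κ‖ := by
  unfold w1
  rw [norm_smul, innerSL_apply_norm]
  refine mul_le_mul_of_nonneg_right ?_ (norm_nonneg _)
  have h := abs_trig q (-p) (inner ℝ κ x)
  rw [abs_neg] at h
  rw [Real.norm_eq_abs, add_comm, add_comm |p|]
  exact h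

theorem w2_norm (p q : ℝ) (κ x : E m) : ‖w2 p q κ x‖ ≤ (|p| + |q|) * ‖κ‖ ^ 2 := by
  refine ContinuousLinearMap.opNorm_le_bound _ (by positivity) fun v => ?_
  have h := abs_trig (-p) (-q) (inner ℝ κ x)
  rw [abs_neg, abs_neg] at h
  have h1 : w2 p q κ x v = ((-p * Real.cos (inner ℝ κ x) + -q * Real.sin (inner ℝ κ x)) *
      inner ℝ κ v) • innerSL ℝ κ := by
    unfold w2
    ext u
    simp only [ContinuousLinearMap.smulRight_apply, smul_apply, smul_eq_mul, innerSL_apply_apply]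
    ring
  rw [h1, norm_smul, innerSL_apply_norm, norm_mul, Real.norm_eq_abs, Real.norm_eq_abs]
  have h2 : |(inner ℝ κ v : ℝ)| ≤ ‖κ‖ * ‖v‖ := abs_real_inner_le_norm κ v
  calc |(-p * Real.cos (inner ℝ κ x) + -q * Real.sin (inner ℝ κ x))| * |(inner ℝ κ v : ℝ)| * ‖κ‖
      ≤ (|p| + |q|) * (‖κ‖ * ‖v‖) * ‖κ‖ := by gcongr
    _ = (|p| + |q|) * ‖κ‖ ^ 2 * ‖v‖ := by ring

/-- the space of continuous jets on the ball -/
abbrev X (m : ℕ) : Type := C(closedBall (0 : E m) 5, W m)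

/-- the jet of a wave as an element of `X` -/
def JW (p q : ℝ) (κ : E m) : X m :=
  ⟨fun x => jw p q κ x, ((contj (A := fun _ => p) (B := fun _ => q) (κ := fun _ => κ)
    continuous_const continuous_const continuous_const).comp
      (continuous_id.prodMk continuous_id : Continuous fun x : E m => (x, x))).comp
      continuous_subtype_val⟩

/-- the span of the waves -/
def K0 (m : ℕ) : Submodule ℝ (X m) := Submodule.span ℝ {g | ∃ p q κ, g = JW p q κ}

theorem jw_smul (c p q : ℝ) (κ x : E m) : c • jw p q κ x = jw (c * p) (c * q) κ x := by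
  apply ext_W
  · rw [map_smul, P0_jw, P0_jw]
    unfold w0
    rw [smul_eq_mul]
    ring
  · rw [map_smul, P1_jw, P1_jw]
    unfold w1
    rw [smul_smul]
    congr 1
    ring
  · rw [map_smul, P2_jw, P2_jw]
    have h : ∀ (t : ℝ) (b : E m →L[ℝ] E m →L[ℝ] ℝ), c • toBL (t • b) = toBL ((c * t) • b) :=
      fun t b => by
        rw [mul_smul]
        rfl
    unfold w2
    rw [h]
    congr 2
    ring

theorem span_form (t : X m) (ht : t ∈ K0 m) :
    ∃ (N : ℕ) (κ : Fin N → E m) (a b : Fin N → ℝ), ∀ x : closedBall (0 : E m) 5,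
      t x = ∑ i, jw (a i) (b i) (κ i) x := by
  induction ht using Submodule.span_induction with
  | mem g hg =>
    obtain ⟨p, q, κ, rfl⟩ := hg
    refine ⟨1, fun _ => κ, fun _ => p, fun _ => q, fun x => ?_⟩
    rw [Fin.sum_univ_one]
    rfl
  | zero => exact ⟨0, fun _ => 0, fun _ => 0, fun _ => 0, fun x => by simp⟩
  | add g g' _ _ h h' =>
    obtain ⟨N, κ, a, b, h⟩ := h
    obtain ⟨N', κ', a', b', h'⟩ := h'
    refine ⟨N + N', Fin.append κ κ', Fin.append a a', Fin.append b b', fun x => ?_⟩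
    rw [Fin.sum_univ_add, ContinuousMap.add_apply, h, h']
    simp only [Fin.append_left, Fin.append_right]
  | smul c g _ h =>
    obtain ⟨N, κ, a, b, h⟩ := h
    refine ⟨N, κ, fun i => c * a i, fun i => c * b i, fun x => ?_⟩
    rw [ContinuousMap.smul_apply, h, Finset.smul_sum]
    simp only [jw_smul]

theorem sum_fst {N : ℕ} (κ : Fin N → E m) (a b : Fin N → ℝ) (x : E m) :
    P0 (∑ i, jw (a i) (b i) (κ i) x) = ∑ i, w0 (a i) (b i) (κ i) x := by
  rw [map_sum]
  rfl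

theorem sum_snd {N : ℕ} (κ : Fin N → E m) (a b : Fin N → ℝ) (x v : E m) :
    P1 (∑ i, jw (a i) (b i) (κ i) x) v = ∑ i, w1 (a i) (b i) (κ i) x v := by
  rw [map_sum, sum_apply]
  rfl

theorem sum_trd {N : ℕ} (κ : Fin N → E m) (a b : Fin N → ℝ) (x v w : E m) :
    ofBL (P2 (∑ i, jw (a i) (b i) (κ i) x)) v w = ∑ i, w2 (a i) (b i) (κ i) x v w := by
  rw [map_sum]
  have h : (∑ i, P2 (jw (a i) (b i) (κ i) x)) = toBL (∑ i, w2 (a i) (b i) (κ i) x) := rfl
  rw [h]
  unfold toBL ofBL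
  rw [sum_apply, sum_apply]

/-- from an integral representation to the closed span -/
theorem main2 (A B : E m → ℝ) (κ : E m → E m) (hA : Continuous A) (hB : Continuous B)
    (hκ : Continuous κ) (bd : ℕ → E m → ℝ) (hbd : ∀ k, Integrable (bd k))
    (hbk : ∀ k v, (|A v| + |B v|) * ‖κ v‖ ^ k ≤ bd k v) (f : E m → ℝ)
    (hinv : ∀ x, f x = ∫ v, w0 (A v) (B v) (κ v) x) :
    ∃ I : X m, (∀ ε : ℝ, 0 < ε → ∃ t ∈ K0 m, ∀ x, ‖I x - t x‖ ≤ ε) ∧
      ∀ x : closedBall (0 : E m) 5,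
      P0 (I x) = f x ∧ P1 (I x) = fderiv ℝ f x ∧ P2 (I x) = toBL (fderiv ℝ (fderiv ℝ f) x) := by
  have n0 : ∀ v x, ‖w0 (A v) (B v) (κ v) x‖ ≤ bd 0 v := fun v x =>
    (w0_norm _ _ _ _).trans (by simpa using hbk 0 v)
  have n1 : ∀ v x, ‖w1 (A v) (B v) (κ v) x‖ ≤ bd 1 v := fun v x =>
    (w1_norm _ _ _ _).trans (by simpa using hbk 1 v)
  have n2 : ∀ v x, ‖w2 (A v) (B v) (κ v) x‖ ≤ bd 2 v := fun v x =>
    (w2_norm _ _ _ _).trans (hbk 2 v)
  have m0 : ∀ x, AEStronglyMeasurable (fun v => w0 (A v) (B v) (κ v) x) := fun x =>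
    ((cont0 hA hB hκ).comp (continuous_id.prodMk continuous_const)).aestronglyMeasurable
  have m1 : ∀ x, AEStronglyMeasurable (fun v => w1 (A v) (B v) (κ v) x) := fun x =>
    ((cont1 hA hB hκ).comp (continuous_id.prodMk continuous_const)).aestronglyMeasurable
  have m2 : ∀ x, AEStronglyMeasurable (fun v => w2 (A v) (B v) (κ v) x) := fun x =>
    ((cont2 hA hB hκ).comp (continuous_id.prodMk continuous_const)).aestronglyMeasurable
  have i0 : ∀ x, Integrable (fun v => w0 (A v) (B v) (κ v) x) := fun x =>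
    (hbd 0).mono' (m0 x) (Eventually.of_forall fun v => n0 v x)
  have i1 : ∀ x, Integrable (fun v => w1 (A v) (B v) (κ v) x) := fun x =>
    (hbd 1).mono' (m1 x) (Eventually.of_forall fun v => n1 v x)
  have d1 : ∀ x, HasFDerivAt f (∫ v, w1 (A v) (B v) (κ v) x) x := by
    intro x
    have h := hasFDerivAt_integral_of_dominated_of_fderiv_le (μ := (volume : Measure (E m)))
      (F := fun x v => w0 (A v) (B v) (κ v) x) (F' := fun x v => w1 (A v) (B v) (κ v) x)
      (bound := bd 1) (x₀ := x) (s := univ) univ_mem (Eventually.of_forall fun y => m0 y) (i0 x)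
      (m1 x) (Eventually.of_forall fun v y _ => n1 v y) (hbd 1)
      (Eventually.of_forall fun v y _ => w0_deriv _ _ _ y)
    have h2 : f = fun x => ∫ v, w0 (A v) (B v) (κ v) x := funext hinv
    rw [h2]
    exact h
  have e1 : fderiv ℝ f = fun x => ∫ v, w1 (A v) (B v) (κ v) x := funext fun x => (d1 x).fderiv
  have d2 : ∀ x, HasFDerivAt (fderiv ℝ f) (∫ v, w2 (A v) (B v) (κ v) x) x := by
    intro x
    have h := hasFDerivAt_integral_of_dominated_of_fderiv_le (μ := (volume : Measure (E m)))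
      (F := fun x v => w1 (A v) (B v) (κ v) x) (F' := fun x v => w2 (A v) (B v) (κ v) x)
      (bound := bd 2) (x₀ := x) (s := univ) univ_mem (Eventually.of_forall fun y => m1 y) (i1 x)
      (m2 x) (Eventually.of_forall fun v y _ => n2 v y) (hbd 2)
      (Eventually.of_forall fun v y _ => w1_deriv _ _ _ y)
    rw [e1]
    exact h
  -- the integral in the space `X m`
  let g : C(E m × closedBall (0 : E m) 5, W m) :=
    ⟨fun p => jw (A p.1) (B p.1) (κ p.1) p.2, (contj hA hB hκ).comp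
      (continuous_fst.prodMk (continuous_subtype_val.comp continuous_snd))⟩
  have hgn : ∀ v x, ‖g (v, x)‖ ≤ bd 0 v + bd 1 v + bd 2 v := by
    intro v x
    have r0 := n0 v x
    have r1 := n1 v x
    have r2 := n2 v x
    have q0 := (norm_nonneg _).trans r0
    have q1 := (norm_nonneg _).trans r1
    have q2 : 0 ≤ bd 2 v := le_trans (by positivity) (hbk 2 v)
    change ‖jw (A v) (B v) (κ v) (x : E m)‖ ≤ _
    rw [norm_W, P0_jw, P1_jw, P2_jw]
    refine ⟨?_, ?_, ?_⟩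
    · exact r0.trans (by linarith)
    · exact r1.trans (by linarith)
    · exact r2.trans (by linarith)
  obtain ⟨I, hI, hIx⟩ := general g (fun v => bd 0 v + bd 1 v + bd 2 v)
    (((hbd 0).add (hbd 1)).add (hbd 2)) hgn (K0 m) (fun v => Submodule.subset_span
      ⟨A v, B v, κ v, rfl⟩)
  refine ⟨I, hI, fun x => ?_⟩
  obtain ⟨h2, h1⟩ := hIx x
  rw [h1]
  refine ⟨?_, ?_, ?_⟩
  · rw [← P0.integral_comp_comm h2]
    exact (hinv x).symm
  · rw [← P1.integral_comp_comm h2, e1]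
    rfl
  · rw [← P2.integral_comp_comm h2, (d2 x).fderiv]
    rfl

/-- Fourier inversion in real form -/
theorem inversion (f : E m → ℝ) (hf : SmE f) (hc : HasCompactSupport f) :
    ∃ F : 𝓢(E m, ℂ), ∀ x, f x = ∫ v, w0 (F v).re (-(F v).im) ((2 * Real.pi) • v) x := by
  have hc' : HasCompactSupport fun x => (f x : ℂ) :=
    hc.comp_left (g := fun t : ℝ => (t : ℂ)) Complex.ofReal_zero
  have hs' : ContDiff ℝ ((⊤ : ℕ∞) : WithTop ℕ∞) fun x => (f x : ℂ) :=
    Complex.ofRealCLM.contDiff.comp hf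
  obtain ⟨G, hG⟩ : ∃ G : 𝓢(E m, ℂ), ∀ x, G x = (f x : ℂ) :=
    ⟨hc'.toSchwartzMap hs', fun x => rfl⟩
  obtain ⟨F, hF⟩ : ∃ F : 𝓢(E m, ℂ), 𝓕⁻ F = G := ⟨𝓕 G, FourierTransform.fourierInv_fourier_eq G⟩
  refine ⟨F, fun x => ?_⟩
  have h2 : (f x : ℂ) = (𝓕⁻ F) x := by
    rw [hF, hG]
  rw [SchwartzMap.fourierInv_coe, Real.fourierInv_eq'] at h2
  have hFc : Continuous F := F.continuous
  have h3 : Integrable fun v => Complex.exp ((↑(2 * Real.pi * inner ℝ v x) * Complex.I)) •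
      F v := by
    refine (F.integrable (μ := volume)).norm.mono' ?_ (Eventually.of_forall fun v => ?_)
    · exact Continuous.aestronglyMeasurable (by fun_prop)
    · rw [norm_smul, Complex.norm_exp_ofReal_mul_I, one_mul]
  have h4 := Complex.reCLM.integral_comp_comm h3
  rw [← h2] at h4
  have h5 : f x = Complex.reCLM (f x : ℂ) := by simp
  rw [h5, ← h4]
  refine integral_congr_ae (Eventually.of_forall fun v => ?_)
  simp only [Complex.reCLM_apply, smul_eq_mul, Complex.mul_re, Complex.exp_ofReal_mul_I_re,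
    Complex.exp_ofReal_mul_I_im]
  unfold w0
  simp only [real_inner_smul_left]
  ring

/-- the integral representation together with the closed span -/
theorem main (f : E m → ℝ) (hf : SmE f) (hc : HasCompactSupport f) :
    ∃ I : X m, (∀ ε : ℝ, 0 < ε → ∃ t ∈ K0 m, ∀ x, ‖I x - t x‖ ≤ ε) ∧
      ∀ x : closedBall (0 : E m) 5,
      P0 (I x) = f x ∧ P1 (I x) = fderiv ℝ f x ∧ P2 (I x) = toBL (fderiv ℝ (fderiv ℝ f) x) := by
  obtain ⟨F, hF⟩ := inversion f hf hc
  have hFc : Continuous F := F.continuous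
  refine main2 (fun v => (F v).re) (fun v => -(F v).im) (fun v => (2 * Real.pi) • v)
    (Complex.continuous_re.comp hFc) (Complex.continuous_im.comp hFc).neg
    (continuous_const_smul _) (fun k v => 2 * (2 * Real.pi) ^ k * (‖v‖ ^ k * ‖F v‖))
    (fun k => (F.integrable_pow_mul volume k).const_mul _) (fun k v => ?_) f hF
  have h1 : |(F v).re| ≤ ‖F v‖ := Complex.abs_re_le_norm _
  have h2 : |-(F v).im| ≤ ‖F v‖ := by
    rw [abs_neg]
    exact Complex.abs_im_le_norm _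
  have h3 : ‖(2 * Real.pi) • v‖ = 2 * Real.pi * ‖v‖ := by
    rw [norm_smul, Real.norm_eq_abs, abs_of_pos Real.two_pi_pos]
  rw [h3, mul_pow]
  calc (|(F v).re| + |-(F v).im|) * ((2 * Real.pi) ^ k * ‖v‖ ^ k)
      ≤ 2 * ‖F v‖ * ((2 * Real.pi) ^ k * ‖v‖ ^ k) :=
        mul_le_mul_of_nonneg_right (by linarith) (by positivity)
    _ = 2 * (2 * Real.pi) ^ k * (‖v‖ ^ k * ‖F v‖) := by ring

end TRG_

open TRG_ in
theorem p_TRG (h_TGD : T_TGD) : T_TRG := by
  intro m f hf hc ε hε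
  obtain ⟨I, hI, hIx⟩ := main f hf hc
  obtain ⟨t, ht, hd⟩ := hI ε hε
  obtain ⟨q, κ, a, b, htx⟩ := span_form t ht
  refine ⟨q, κ, a, b, fun x hx => ?_⟩
  have hxm : x ∈ closedBall (0 : E m) 5 := by
    rw [mem_closedBall, dist_zero_right]
    exact hx
  let y : closedBall (0 : E m) 5 := ⟨x, hxm⟩
  obtain ⟨g0, g1, g2⟩ := hIx y
  have hn : ‖I y - t y‖ ≤ ε := hd y
  rw [htx y, norm_W] at hn
  obtain ⟨h0, h1, h2⟩ := hn
  rw [map_sub, g0, sum_fst] at h0
  rw [map_sub, g1] at h1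
  rw [map_sub, g2] at h2
  obtain ⟨-, k1, k2⟩ := h_TGD m q κ a b
  refine ⟨h0, fun v => ?_, fun v w => ?_⟩
  · have h3 := ContinuousLinearMap.le_of_opNorm_le _ h1 v
    rw [sub_apply, sum_snd] at h3
    rw [k1]
    exact h3
  · have h2' : ‖fderiv ℝ (fderiv ℝ f) x -
        ofBL (P2 (∑ i, jw (a i) (b i) (κ i) (y : E m)))‖ ≤ ε := h2
    have h3 := ContinuousLinearMap.le_of_opNorm₂_le_of_le _ h2' (le_refl ‖v‖) (le_refl ‖w‖)
    rw [sub_apply, sub_apply, sum_trd] at h3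
    rw [k2]
    exact h3

end Pool.Agent.GNS
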