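import Pool.Agent.GNS.Gl

/-!
# GNS: targets 5, the reduction from dimension `n + 1` and degree `k + 1` to dimension `n`, degree
`k`

If `glob : Area_(k+1)(ℝ^(n+1)) → Val_(k+1)(ℝ^(n+1))` is surjective, then so is
`glob : Area_k(ℝ^n) → Val_k(ℝ^n)`. Given `μ` let `μ' K' = ∫ μ(K' ∩ {x_(n+1) = ζ}) dζ`. If `μ'` is
the
globalization of `Ψ'`, put `Ψ(K; φ) = Ψ'(K + J; φ̂) - Ψ'(K; φ̂)`, `J = [0, e_(n+1)]`, `K` in
`ℝ^n × {0}`, `φ̂` an extension of `φ`. Facts on support functions are in `Pool.Agent.GNS.Gl`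
(`gSUA`, `gSUH`, `gSUL`, `gSUD`, `gCTA`, `gBLA`, `add_tendsto`). `hgt v` is the last coordinate and
`seg a` the segment `[0, a]` (`Defs2`).
-/

set_option autoImplicit false

open Metric Set Filter Topology MeasureTheory

noncomputable section

namespace Pool.Agent.GNS

open Pool.Agent.GLB

variable {n : ℕ}

/-- the inclusion `x ↦ (x, 0)` -/
def emb (x : E n) : E (n + 1) := WithLp.toLp 2 (Fin.snoc (α := fun _ => ℝ) (fun i => x i) 0)

/-- the first `n` coordinates -/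
def prj (v : E (n + 1)) : E n := WithLp.toLp 2 (fun i => v i.castSucc)

/-- the last unit vector -/
def el : E (n + 1) := eb (Fin.last n)

/-- the segment `[0, e_(n+1)]` -/
def Jl : ConvexBody (E (n + 1)) := seg el

/-- `L` is the body `K × {0}` -/
def IsEm (K : ConvexBody (E n)) (L : ConvexBody (E (n + 1))) : Prop :=
  (L : Set (E (n + 1))) = emb '' (K : Set (E n))

open Classical in
/-- the body `K × {0}` -/
def em (K : ConvexBody (E n)) : ConvexBody (E (n + 1)) :=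
  if h : ∃ L, IsEm K L then h.choose else 0

/-- the section at height `ζ` -/
def sec (K : ConvexBody (E (n + 1))) (ζ : ℝ) : Set (E n) := {x | emb x + ζ • el ∈ K}

/-- `L` is the section of `K` at height `ζ` -/
def IsSec (K : ConvexBody (E (n + 1))) (ζ : ℝ) (L : ConvexBody (E n)) : Prop :=
  (L : Set (E n)) = sec K ζ

open Classical in
/-- the value of `μ` at the section (`0` if the section is empty) -/
def vs (μ : ConvexBody (E n) → ℂ) (K : ConvexBody (E (n + 1))) (ζ : ℝ) : ℂ :=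
  if h : ∃ L, IsSec K ζ L then μ h.choose else 0

/-- the integral of `μ` over the sections -/
def muS (μ : ConvexBody (E n) → ℂ) (K : ConvexBody (E (n + 1))) : ℂ := ∫ ζ, vs μ K ζ

/-- the extension of a function from the equator, `φ̂(v) = |v'| φ(v'/|v'|)`, `v' = prj v` -/
def exf (φ : C(S n, ℂ)) (v : S (n + 1)) : ℂ :=
  if h : prj (v : E (n + 1)) ≠ 0 then
    (‖prj (v : E (n + 1))‖ : ℂ) * φ ⟨‖prj (v : E (n + 1))‖⁻¹ • prj (v : E (n + 1)), by
      rw [mem_sphere_iff_norm, sub_zero, norm_smul, norm_inv, norm_norm]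
      exact inv_mul_cancel₀ (norm_ne_zero_iff.2 h)⟩
  else 0

/-- EMB. Elementary facts on `emb`, `prj`, `el`, `em`. Existence of the body `em K`: the image of
`K` under the linear map `emb`. `supp (em K) v = supp K (prj v)` since
`⟨emb x, v⟩ = ⟨x, prj v⟩`; the statements on `em` follow from this and `gSUL`, `gSUA`, `gSUD`. -/
def T_EMB : Prop := ∀ n : ℕ,
  (∀ (x : E n) (v : E (n + 1)), inner ℝ (emb x) v = inner ℝ x (prj v)) ∧
  (∀ v : E (n + 1), v = emb (prj v) + hgt v • el) ∧ (∀ x : E n, prj (emb x) = x) ∧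
  (∀ v : E (n + 1), ‖v‖ ^ 2 = ‖prj v‖ ^ 2 + hgt v ^ 2) ∧
  (∀ v : E (n + 1), inner ℝ el v = hgt v) ∧ Continuous (prj : E (n + 1) → E n) ∧
  (∀ K : ConvexBody (E n), IsEm K (em K)) ∧
  (∀ (K : ConvexBody (E n)) (v : E (n + 1)), supp (em K) v = supp K (prj v)) ∧
  (∀ (K : ConvexBody (E n)) (x : E n), em (K + pt x) = em K + pt (emb x)) ∧
  (∀ (K : ConvexBody (E n)) (t : ℝ), 0 ≤ t → em (t • K) = t • em K) ∧
  Continuous (em : ConvexBody (E n) → ConvexBody (E (n + 1))) ∧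
  ∀ v : E (n + 1), supp Jl v = max 0 (hgt v)

/-- VSA. `vs` in terms of the section: a nonempty section is a convex body (closed and bounded,
`emb` is continuous and isometric). -/
def T_VSA : Prop := ∀ (n : ℕ) (μ : ConvexBody (E n) → ℂ) (K : ConvexBody (E (n + 1))) (ζ : ℝ),
  (∀ L, IsSec K ζ L → vs μ K ζ = μ L) ∧ (sec K ζ = ∅ → vs μ K ζ = 0) ∧
  ((sec K ζ).Nonempty → ∃ L, IsSec K ζ L)

/-- VSB (from VSA, EMB). Sections of translates, multiples, unions, intersections. For the last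
statement distinguish whether the sections of `K`, `L` are empty: if both are nonempty, then the
section of `N` is nonempty too: for `x` in the section of `K` and `y` in that of `L` the segment
between them at height `ζ` is in `M = K ∪ L`, it is connected and covered by the closed sets `K`,
`L`, so it meets `K ∩ L`. -/
def T_VSB : Prop := ∀ (n k : ℕ) (μ : ConvexBody (E n) → ℂ), IsVal n k μ →
  (∀ (K : ConvexBody (E (n + 1))) (x : E (n + 1)) (ζ : ℝ),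
    vs μ (K + pt x) ζ = vs μ K (ζ - hgt x)) ∧
  (∀ (K : ConvexBody (E (n + 1))) (t ζ : ℝ), 0 < t →
    vs μ (t • K) ζ = (t : ℂ) ^ k * vs μ K (ζ / t)) ∧
  ∀ (K L M N : ConvexBody (E (n + 1))), (M : Set (E (n + 1))) = (K : Set (E (n + 1))) ∪ L →
    (N : Set (E (n + 1))) = (K : Set (E (n + 1))) ∩ L → ∀ ζ,
    vs μ M ζ + vs μ N ζ = vs μ K ζ + vs μ L ζ

/-- SCN (from EMB). Convergence of sections. Let `K_j → K` in the Hausdorff metric and let `K`
contain points with heights `< ζ` and `> ζ`. Then the sections of `K_j` at height `ζ` are nonempty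
for large `j` and converge to the section of `K`. Proof: let `p, q ∈ K` with heights
`ζ - a`, `ζ + b`, `a, b > 0`; for large `j` there are `p_j, q_j ∈ K_j` within `ε = dist K_j K` of
them. For `x ∈ K` at height `ζ` take `x_j ∈ K_j`, `|x_j - x| ≤ ε` (nearest points); its height
`ζ_j` is within `ε` of `ζ`; if `ζ_j ≤ ζ` move from `x_j` towards `q_j`: the point
`(1-s) x_j + s q_j` with height `ζ` has `s ≤ ε/(b - ε)`, so its distance to `x` is at most
`ε + s D`, `D` a bound for the diameters; if `ζ_j > ζ` move towards `p_j`. Conversely for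
`x ∈ K_j` at height `ζ` take `x' ∈ K` with `|x' - x| ≤ ε` and move it to height `ζ` towards `p` or
`q`
inside `K`. So the Hausdorff distance of the sections tends to `0`. -/
def T_SCN : Prop := ∀ (n : ℕ) (Kj : ℕ → ConvexBody (E (n + 1))) (K : ConvexBody (E (n + 1)))
  (ζ : ℝ), Tendsto Kj atTop (𝓝 K) → (∃ p ∈ K, hgt p < ζ) → (∃ q ∈ K, ζ < hgt q) →
  ∃ L : ConvexBody (E n), IsSec K ζ L ∧ ∃ Lj : ℕ → ConvexBody (E n),
    (∀ᶠ j in atTop, IsSec (Kj j) ζ (Lj j)) ∧ Tendsto Lj atTop (𝓝 L)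

/-- VSC (from SCN, VSA, VSB, EMB). Let `μ` be continuous. (1) If `K_j → K` then
`vs μ (K_j) ζ → vs μ K ζ` for almost all `ζ`: all `ζ` except the minimal and the maximal height of
`K` (if `ζ` is larger than all heights of `K`, the same is true for `K_j`, `j` large, and both
values
are `0`). (2) `vs μ K` is bounded by a constant for all `K` in the ball of radius `R` (its values
are
values of `μ` on bodies in the ball, a compact set, `gBLA`, or `0`), it vanishes for `|ζ| > R`, and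
it is measurable: it is continuous at all `ζ` except the minimal and the maximal height, by (1) for
the translates `K + pt ((ζ - ζ_j) • el)`; a function which is continuous outside a finite set is
measurable up to null sets. -/
def T_VSC : Prop := ∀ (n k : ℕ) (μ : ConvexBody (E n) → ℂ), IsVal n k μ →
  (∀ (Kj : ℕ → ConvexBody (E (n + 1))) (K : ConvexBody (E (n + 1))), Tendsto Kj atTop (𝓝 K) →
    ∀ᵐ ζ : ℝ, Tendsto (fun j => vs μ (Kj j) ζ) atTop (𝓝 (vs μ K ζ))) ∧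
  (∀ K : ConvexBody (E (n + 1)), AEStronglyMeasurable (vs μ K) volume) ∧
  ∀ R : ℝ, ∃ C : ℝ, ∀ K : ConvexBody (E (n + 1)), (K : Set (E (n + 1))) ⊆ closedBall 0 R →
    ∀ ζ, ‖vs μ K ζ‖ ≤ C ∧ (R < |ζ| → vs μ K ζ = 0)

/-- MSV (from VSB, VSC, EMB). `muS μ` is a continuous, translation invariant valuation of degree
`k + 1`. Continuity: dominated convergence (a convergent sequence of bodies is bounded).
Homogeneity: substitution `ζ = t ζ'` for `t > 0`; for `t = 0` the body `0 • K = 0` has empty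
sections for `ζ ≠ 0`. -/
def T_MSV : Prop := ∀ (n k : ℕ) (μ : ConvexBody (E n) → ℂ), IsVal n k μ →
  IsVal (n + 1) (k + 1) (muS μ)

/-- MSP (from VSA, EMB). The section of `em K + t • Jl` at height `ζ` is `K` for `0 ≤ ζ ≤ t` and
empty otherwise. -/
def T_MSP : Prop := ∀ (n : ℕ) (μ : ConvexBody (E n) → ℂ) (K : ConvexBody (E n)) (t : ℝ), 0 ≤ t →
  muS μ (em K + t • Jl) = (t : ℂ) * μ K

/-- KN2 (from EMB). Let `⟨a, el⟩ = 0`, `δ > 0`, and let `φ` vanish at all `v` with `⟨a, v⟩ < δ`. For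
`ε > 0` let `J_ε = seg (el - ε • a)`, `h_(J_ε)(v) = max(0, hgt v - ε⟨a, v⟩)`. Write
`φ = φ₋ + φ₊`, `φ₋ v = φ v λ(hgt v / (ε δ))`, `λ` continuous, `λ s = 1` for `s ≤ 1/3` and `0` for
`s ≥ 2/3`. Where `φ₋ ≠ 0`: `hgt v < ε δ ≤ ε⟨a, v⟩`, an open condition, and there `h_(J_ε) = 0`;
where
`φ₊ ≠ 0`: `hgt v > 0` and `h_J` is the linear function `⟨el, v⟩`. By locality
`Ψ(K + t J + t' J_ε)φ₋ = Ψ(K + t J)φ₋`, `Ψ(K + t' J_ε)φ₋ = Ψ(K)φ₋`,
`Ψ(K + t J + t' J_ε)φ₊ = Ψ(K + t' J_ε)φ₊`, `Ψ(K + t J)φ₊ = Ψ(K)φ₊` (translation invariance). Add,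
and
let `ε → 0` (continuity, `add_tendsto`, `gSUD`). -/
def T_KN2 : Prop := ∀ (n k : ℕ) (Ψ : ConvexBody (E (n + 1)) → (C(S (n + 1), ℂ) →L[ℂ] ℂ)),
  IsArea (n + 1) k Ψ → ∀ (a : E (n + 1)) (δ : ℝ), inner ℝ a el = 0 → 0 < δ →
  ∀ φ : C(S (n + 1), ℂ), (∀ v : S (n + 1), inner ℝ a (v : E (n + 1)) < δ → φ v = 0) →
  ∀ (K : ConvexBody (E (n + 1))) (t t' : ℝ), 0 ≤ t → 0 ≤ t' →
  Ψ (K + t • Jl + t' • Jl) φ + Ψ K φ = Ψ (K + t • Jl) φ + Ψ (K + t' • Jl) φ

/-- VAN (from EMB). If `φ` vanishes where `|hgt v| ≤ δ`, then `Ψ(K + t J)φ = Ψ(K)φ`: split `φ` into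
its parts on `hgt v > 0` and `hgt v < 0`, where `h_J` is linear or zero (locality and translation
invariance). If `φ` vanishes only on `hgt v = 0`, approximate it uniformly by
`φ v λ(hgt v / δ)`, `λ s = 0` for `|s| ≤ 1`, `λ s = 1` for `|s| ≥ 2`, `δ → 0` (compactness of the
sphere). -/
def T_VAN : Prop := ∀ (n k : ℕ) (Ψ : ConvexBody (E (n + 1)) → (C(S (n + 1), ℂ) →L[ℂ] ℂ)),
  IsArea (n + 1) k Ψ → ∀ φ : C(S (n + 1), ℂ),
  (∀ v : S (n + 1), hgt (v : E (n + 1)) = 0 → φ v = 0) →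
  ∀ (K : ConvexBody (E (n + 1))) (t : ℝ), 0 ≤ t → Ψ (K + t • Jl) φ = Ψ K φ

/-- KN3 (from KN2, VAN, EMB). All test functions. Partition of unity: for `i < n` and a sign let
`ψ_i^± v = max(0, ± v_i - δ)`, and `ψ_0 v = max(0, |hgt v| - δ)`, with `(n + 1) δ² < 1`, so that the
sum `s` of these functions is positive on the sphere. Then `φ = ∑ φ ψ/s`; KN2 for `φ ψ_i^±/s` with
`a = ± eb i.castSucc` and VAN for `φ ψ_0/s`. -/
def T_KN3 : Prop := ∀ (n k : ℕ) (Ψ : ConvexBody (E (n + 1)) → (C(S (n + 1), ℂ) →L[ℂ] ℂ)),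
  IsArea (n + 1) k Ψ → ∀ (φ : C(S (n + 1), ℂ)) (K : ConvexBody (E (n + 1))) (t t' : ℝ), 0 ≤ t →
  0 ≤ t' → Ψ (K + t • Jl + t' • Jl) φ + Ψ K φ = Ψ (K + t • Jl) φ + Ψ (K + t' • Jl) φ

/-- AF2 (from KN3). `D t = Ψ(K + t J)φ - Ψ(K)φ` is additive on `t ≥ 0` and continuous, hence
`D t = t D 1`. -/
def T_AF2 : Prop := ∀ (n k : ℕ) (Ψ : ConvexBody (E (n + 1)) → (C(S (n + 1), ℂ) →L[ℂ] ℂ)),
  IsArea (n + 1) k Ψ → ∀ (φ : C(S (n + 1), ℂ)) (K : ConvexBody (E (n + 1))) (t : ℝ), 0 ≤ t →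
  Ψ (K + t • Jl) φ = Ψ K φ + (t : ℂ) * (Ψ (K + Jl) φ - Ψ K φ)

/-- EXF (from EMB). The extension operator. `exf φ` is continuous (at points with `prj v = 0`:
`|exf φ v| ≤ ‖prj v‖ ‖φ‖`); linear in `φ`, of norm at most `1` (`‖prj v‖ ≤ 1`); on the equator
`hgt v = 0` one has `‖prj v‖ = 1`. -/
def T_EXF : Prop := ∀ n : ℕ, ∃ X : C(S n, ℂ) →L[ℂ] C(S (n + 1), ℂ), ∀ φ v, X φ v = exf φ v

/-- DAR (from AF2, EXF, EMB, VAN). The derived area measure. Locality: if `supp K = supp L` on the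
open set `U` of `S n`, `φ = 0` outside `U`, then `supp (em K) v = supp (em L) v` on the open set
`{v | prj v ≠ 0, prj v/|prj v| ∈ U}` (homogeneity), outside of which `exf φ = 0`; the same for
`em K + Jl`. Translation: EMB. Homogeneity for `t > 0`:
`Ψ(t K')φ' = t^(k+1) Ψ(K')φ'` with `K' = em K + (1/t) J`, and AF2; for `t = 0` let `t → 0`
(both sides are continuous in `t ≥ 0`). -/
def T_DAR : Prop := ∀ (n k : ℕ) (Ψ : ConvexBody (E (n + 1)) → (C(S (n + 1), ℂ) →L[ℂ] ℂ)),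
  IsArea (n + 1) (k + 1) Ψ → ∀ X : C(S n, ℂ) →L[ℂ] C(S (n + 1), ℂ), (∀ φ v, X φ v = exf φ v) →
  IsArea n k (fun K => (Ψ (em K + Jl) - Ψ (em K)).comp X)

/-- RED (from MSV, MSP, EXF, DAR, VAN, EMB). The reduction. Given `μ` in `Val_k(ℝ^n)`, `muS μ` is in
`Val_(k+1)(ℝ^(n+1))` (MSV), so `muS μ K' = Ψ' K' 1`; let `Ψ` be the area measure of DAR. Then
`Ψ K 1 = (Ψ'(em K + J) - Ψ'(em K))(X 1)`, and `X 1 - 1` vanishes on the equator, so by VAN this is
`(Ψ'(em K + J) - Ψ'(em K)) 1 = muS μ (em K + J) - muS μ (em K) = μ K` (MSP, `t = 1` and `t = 0`). -/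
def T_RED : Prop := ∀ n k : ℕ,
  (∀ μ : ConvexBody (E (n + 1)) → ℂ, IsVal (n + 1) (k + 1) μ →
    ∃ Ψ : ConvexBody (E (n + 1)) → (C(S (n + 1), ℂ) →L[ℂ] ℂ), IsArea (n + 1) (k + 1) Ψ ∧
      ∀ K, Ψ K 1 = μ K) →
  ∀ μ : ConvexBody (E n) → ℂ, IsVal n k μ →
    ∃ Ψ : ConvexBody (E n) → (C(S n, ℂ) →L[ℂ] ℂ), IsArea n k Ψ ∧ ∀ K, Ψ K 1 = μ K

/-- ALL (from RED and the conclusion of FIN, given here as the hypothesis). Induction on `k ≥ 2`
with `n - k` fixed: if `glob` were surjective for `(n + 1, k + 1)`, it would be so for `(n, k)`. -/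
def T_ALL : Prop :=
  (∀ k : ℕ, ∃ μ : ConvexBody (E (k + 4 + 1)) → ℂ, IsVal (k + 4 + 1) 2 μ ∧
    ∀ Ψ : ConvexBody (E (k + 4 + 1)) → (C(S (k + 4 + 1), ℂ) →L[ℂ] ℂ), IsArea (k + 4 + 1) 2 Ψ →
    ∃ K, Ψ K 1 ≠ μ K) →
  ∀ n k : ℕ, 2 ≤ k → k + 3 ≤ n → ∃ μ : ConvexBody (E n) → ℂ, IsVal n k μ ∧
    ∀ Ψ : ConvexBody (E n) → (C(S n, ℂ) →L[ℂ] ℂ), IsArea n k Ψ → ∃ K, Ψ K 1 ≠ μ K

end Pool.Agent.GNS
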